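import Pool.Agent.H31.D2.Ry5
import Pool.Agent.H31.D2.P8yu
import Pool.Agent.H17.TIE.F1

/-!
# The tie cell `(1,k,k;k+1)`, `k > 2`: the number of the block

`reh_y`: the data of the block, for a record finer than the record of the block. `few_bY`: the number
of the own line is few given the own data, the record and the cell of the position, from the number at
the base window (`p8_yu`).
-/

set_option autoImplicit false

namespace Pool.KPO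

open Finset Real MvPolynomial
open Pool.Agent.H49.Ent Pool.Agent.H32.Dense Pool.STK Pool.KA Pool.KSAT Pool.K2S Pool.PB Pool.S6C
open Pool.GEN Pool.CHT Pool.CHX Pool.LA91
open Pool.LBT (ThrOf)
open Pool.D2F Pool.D2Z Pool.D2F2 Pool.D2N
open Pool.D2R (dd hs co co_slam)
open Pool.X31 (nw)
open Pool.D2T (NoCov)

variable {m J : ℕ}

variable {F : Fam m J} {c : ℕ → Fin m} {D x e₀ sg w₀ w W b a' : ℕ}
    {g₁ g₂ g gb g' gT : ℕ → ℕ} {kG M v v' e p : ℕ} {U : ℝ} {B : F.Ω → Prop}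
    {ψ₁ ψ₂ ψ ψ' Sv : PtT F → ℕ → Option (Fin m) → ℝ}
    {ψH₁ ψH₂ ψH ψH' : LnT F → ℕ → Option (Fin m) → ℝ}
    {Ga Gc G' : PtT F → ℕ → MvPolynomial (Option (Fin m)) ℝ}
    {Ha Hc H' : LnT F → ℕ → MvPolynomial (Option (Fin m)) ℝ}
    {T : PtT F → ℕ → MvPolynomial (Option (Fin m)) ℝ}
    {TH : LnT F → ℕ → MvPolynomial (Option (Fin m)) ℝ}
    {Ht : LnT F → MvPolynomial (Option (Fin m)) ℝ}
    {Va : Type} {za : PtT F → Va} {zaH : LnT F → Va} {q q₀ q₁ s Mg : ℕ}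

/-- **The data of the block**, for a record finer than the record of the block. -/
theorem reh_y (hD : ∀ s, (Ht s).totalDegree ≤ D)
    (H : HbG F c D x e₀ sg w₀ w W b a' g₁ g₂ g gb g' gT kG M v v' e p U B ψ₁ ψ₂ ψ ψ'
    Sv ψH₁ ψH₂ ψH ψH' Ga Gc G' Ha Hc H' T TH Ht) (N : HpN x s Mg w₀ W b a' g₁ g gb g')
    (hw₀ : w₀ ≤ w) (N₃ : BkM x s sg q q₀ q₁ w W g₂ g)
    (C : CoY F c s x sg w₀ w W g₂ g ψH₂ ψH Ht B) (n6 : ∀ j < 3, e₀ + g j + (s + 3) ≤ J)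
    (hza : Rcd F B W za zaH) {ζ : Type} {z : LnT F → ζ} (hz : ∀ s s', z s = z s' → zaH s = zaH s') :
    ReH F c g gb W (W - w₀) D b x x e₀ e₀ 4 s (s + 3) ψ ψ' ψH ψH' Ht B z
      (eL (hdt2 F c g₂ w (w - w₀) 3 D q₀ q sg ψH₂ Ht hD) w W (g₂ 0 + q₁))
      (1 / 2 ^ (s + 200 * x)) (1 / 2 ^ (s + 200 * x)) (1 / 2 ^ (s + 230 * x))
      (2 ^ (12 * x + 8)) (2 ^ (150 * x)) (2 ^ (150 * x)) (2 ^ Bz x) := by
  have hW := H.hA.aJ
  have hze : ∀ ω ω', B ω → B ω' → z (slam F W ω) = z (slam F W ω') →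
      za (ptr F J ω) = za (ptr F J ω') := fun ω ω' hω hω' e => by
    rw [hza.cls ω hω, hza.cls ω' hω', hz _ _ e]
  have hee : ∀ ω ω', eL (hdt2 F c g₂ w (w - w₀) 3 D q₀ q sg ψH₂ Ht hD) w W (g₂ 0 + q₁)
      (slam F W ω) = eL (hdt2 F c g₂ w (w - w₀) 3 D q₀ q sg ψH₂ Ht hD) w W (g₂ 0 + q₁)
      (slam F W ω') → eR (hdt2 F c g₂ w (w - w₀) 3 D q₀ q sg ψH₂ Ht hD) w ω =
        eR (hdt2 F c g₂ w (w - w₀) 3 D q₀ q sg ψH₂ Ht hD) w ω' ∧
      eC (hdt2 F c g₂ w (w - w₀) 3 D q₀ q sg ψH₂ Ht hD) w (g₂ 0 + q₁) ω =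
        eC (hdt2 F c g₂ w (w - w₀) 3 D q₀ q sg ψH₂ Ht hD) w (g₂ 0 + q₁) ω' :=
    fun ω ω' e => by
      rw [eL_slam _ N₃.wW hW, eL_slam _ N₃.wW hW] at e
      exact Prod.mk.inj e
  refine reh_of N H.inj hW H.D2 H.Dx (one_le_pow₀ (by norm_num)) H.h₁ H.hA.wf H.hb.wf H.Dp
    le_rfl le_rfl le_rfl le_rfl H.hQ hD H.hM C.bW (fun j hj => n6 j (by omega))
    (fun ω ω' hω hω' e j h1 h3 => ?_) (fun ω ω' hω hω' e => ?_)
    (fun ω ω' hω hω' e ee => ?_) (fun ω ω' hω hω' e ee => ?_)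
  · obtain ⟨a1, a2, a3, a4⟩ := H.kza N₃.wW hza hω hω' (hze ω ω' hω hω' e)
    exact H.hA.zy (fun j hj => by have := n6 j (by omega); omega) hω hω' a3 a4 a1 h3
  · obtain ⟨a1, a2, a3, a4⟩ := H.kza N₃.wW hza hω hω' (hze ω ω' hω hω' e)
    exact ⟨a1, a3⟩
  · obtain ⟨a1, a2, a3, a4⟩ := H.kza N₃.wW hza hω hω' (hze ω ω' hω hω' e)
    exact nE_y N₃ (N₃.wW.trans hW) H.h₂ H.hA.wf hω hω' a1 a2 (hee ω ω' ee).2
  · obtain ⟨a1, a2, a3, a4⟩ := H.kza N₃.wW hza hω hω' (hze ω ω' hω hω' e)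
    rw [H.hA.wf.fr.cls ω hω, H.hA.wf.fr.cls ω' hω'] at a1
    exact nG_y N₃ H.inj hW hw₀ H.Dx H.h₂ H.hA.wf le_rfl le_rfl H.hQ C.d2 hω hω' a1 a2 a3
      (Prod.ext_iff.1 (hee ω ω' ee).1).2

/-- **The number of the own line is few** given the own data, the record and the cell of the
position. -/
theorem few_bY (hD : ∀ s, (Ht s).totalDegree ≤ D)
    (H : HbG F c D x e₀ sg w₀ w W b a' g₁ g₂ g gb g' gT kG M v v' e p U B ψ₁ ψ₂ ψ ψ'
    Sv ψH₁ ψH₂ ψH ψH' Ga Gc G' Ha Hc H' T TH Ht) (N : HpN x s Mg w₀ W b a' g₁ g gb g')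
    (N₂ : BsN x sg q q₁ w₀ w g₁ g₂) (N₃ : BkM x s sg q q₀ q₁ w W g₂ g)
    (C : CoY F c s x sg w₀ w W g₂ g ψH₂ ψH Ht B) (n6 : ∀ j < 3, e₀ + g j + (s + 3) ≤ J)
    (hza : Rcd F B W za zaH) {P : F.Ω → ℝ} (hp : IsLaw P) (hB : ∀ ω, 0 < P ω → B ω) {E : ℝ}
    (few : CH P (fun ω => ⌊(2 : ℝ) ^ (g₂ 3 + q + sg) *
      nw (hdt2 F c g₂ w (w - w₀) 3 D q₀ q sg ψH₂ Ht hD) w
        (rfv P (fun ω => (za (ptr F J ω),
            yc (hdt2 F c g₂ w (w - w₀) 3 D q₀ q sg ψH₂ Ht hD) w W ω))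
          (eR (hdt2 F c g₂ w (w - w₀) 3 D q₀ q sg ψH₂ Ht hD) w)
          (fun ω l => (hdt2 F c g₂ w (w - w₀) 3 D q₀ q sg ψH₂ Ht hD).P l (slam F w ω))
          (za (ptr F J ω), yc (hdt2 F c g₂ w (w - w₀) 3 D q₀ q sg ψH₂ Ht hD) w W ω)
          (eR (hdt2 F c g₂ w (w - w₀) 3 D q₀ q sg ψH₂ Ht hD) w ω)) ω⌋)
      (fun ω => (eR (hdt2 F c g₂ w (w - w₀) 3 D q₀ q sg ψH₂ Ht hD) w ω,
        (za (ptr F J ω), yc (hdt2 F c g₂ w (w - w₀) 3 D q₀ q sg ψH₂ Ht hD) w W ω))) ≤ E)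
    {s₁ : ℕ} (hs₁ : s₁ ≤ s) :
    CH P (fun ω => ⌊2 ^ s₁ * bY F c g W (W - w₀) ψ ψH Ht P zaH ω⌋)
      (fun ω => (eL (hdt2 F c g₂ w (w - w₀) 3 D q₀ q sg ψH₂ Ht hD) w W (g₂ 0 + q₁) (slam F W ω),
        (zaH (slam F W ω), yc (hdt2 F c g₂ w (w - w₀) 3 D q₀ q sg ψH₂ Ht hD) w W ω))) ≤
      E + (400 * x + 22 * kG + 2 * Bz x + 120 : ℕ) * Real.log 2 := by
  have hW := H.hA.aJ
  have hx := N.x1
  obtain ⟨d, hd⟩ : ∃ d, d = hdt2 F c g₂ w (w - w₀) 3 D q₀ q sg ψH₂ Ht hD := ⟨_, rfl⟩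
  have h1 := few_cg_y (SV := fun _ => 0) (SE := fun _ => 0) (SG := fun _ => 0) (s := s) hD H N₂
    N₃.q0 N₃.wW N₃.la N₃.la' (by have := N₃.n3; omega) C.bw hza hp hB few
  have hR := reh_y hD H N N₂.wB N₃ C n6 hza
    (z := fun s => (zaH s, ycL (hdt2 F c g₂ w (w - w₀) 3 D q₀ q sg ψH₂ Ht hD) w W s))
    (fun s s' h => (Prod.mk.inj h).1)
  have hR' := reh_y hD H N N₂.wB N₃ C n6 hza (z := zaH) (fun s s' h => h)
  rw [← hd] at h1 hR hR' ⊢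
  have e3 : ∀ ω, yc d w W ω = ycL d w W (slam F W ω) := fun ω => (ycL_slam d N₃.wW hW ω).symm
  simp only [e3]
  have h2 := few_re (z := fun s => (zaH s, ycL d w W s)) (e := eL d w W (g₂ 0 + q₁)) hR hp hB
    (N := 2 ^ (300 * x + Bz x + 5)) (by
      push_cast
      have b1 : (1 : ℝ) ≤ 2 ^ (150 * x) := one_le_pow₀ (by norm_num)
      have b2 : (1 : ℝ) ≤ 2 ^ Bz x := one_le_pow₀ (by norm_num)
      have b3 : (2 : ℝ) ^ (150 * x) + 2 ^ Bz x ≤ 2 * (2 ^ (150 * x) * 2 ^ Bz x) := by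
        nlinarith
      calc 12 * (2 : ℝ) ^ (150 * x) * (2 ^ (150 * x) + 2 ^ Bz x) ≤
          12 * (2 : ℝ) ^ (150 * x) * (2 * (2 ^ (150 * x) * 2 ^ Bz x)) :=
            mul_le_mul_of_nonneg_left b3 (by positivity)
        _ = 24 * (2 ^ (150 * x) * 2 ^ (150 * x) * 2 ^ Bz x) := by ring
        _ ≤ 32 * (2 ^ (150 * x) * 2 ^ (150 * x) * 2 ^ Bz x) :=
            mul_le_mul_of_nonneg_right (by norm_num) (by positivity)
        _ = 2 ^ (300 * x + Bz x + 5) := by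
            rw [← pow_add, ← pow_add, show 150 * x + 150 * x = 300 * x by ring,
              pow_add (2 : ℝ) _ 5]
            norm_num
            ring) h1
  have h3 := CH_near hp (fun ω => 2 ^ s * bY F c g W (W - w₀) ψ ψH Ht P zaH ω)
    (fun ω => 2 ^ s * bR (En F c g W ψ) (tn F W) (yr F c g W ψ P
      (fun s => (zaH s, ycL d w W s))) (Tn F c g W (W - w₀) ψH Ht)
      (An F c g W (W - w₀) ψH Ht) (Vn F c g W ψ) ω)
    (fun ω => (eL d w W (g₂ 0 + q₁) (slam F W ω), (zaH (slam F W ω), ycL d w W (slam F W ω))))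
    (fun _ => 0) (K := 2 ^ (Bz x + 1)) (fun ω hω => by
      have c1 := yr_abs hR hB hω
      have c2 := yr_abs hR' hB hω
      have c3 := C.tn hx (hB ω hω)
      unfold bY bR
      rw [add_zero, ← mul_sub, abs_mul, abs_of_pos (by positivity : (0 : ℝ) < 2 ^ s)]
      have e1 : ∀ a b t y y' r : ℝ, (a + t * (y - r)) - (a + t * (y' - r)) = t * (y - y') := by
        intro a b t y y' r
        ring
      rw [e1 _ 0, abs_mul]
      push_cast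
      have c4 := abs_sub (yr F c g W ψ P zaH ω) (yr F c g W ψ P
        (fun s => (zaH s, ycL d w W s)) ω)
      have c5 : |yr F c g W ψ P zaH ω - yr F c g W ψ P (fun s => (zaH s, ycL d w W s)) ω| ≤
          2 ^ (Bz x + 1) := by
        rw [pow_succ]
        linarith
      have c6 : |Tn F c g W (W - w₀) ψH Ht ω| ≤ 1 / 2 ^ s := by
        refine c3.trans (one_div_le_one_div_of_le (by positivity) (two_le (by omega)))
      calc 2 ^ s * (|Tn F c g W (W - w₀) ψH Ht ω| * |yr F c g W ψ P zaH ω -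
            yr F c g W ψ P (fun s => (zaH s, ycL d w W s)) ω|) ≤
          2 ^ s * (1 / 2 ^ s * 2 ^ (Bz x + 1)) := by gcongr
        _ = 2 ^ (Bz x + 1) := by field_simp)
  have h4 : CH P (fun ω => ⌊2 ^ s₁ * bY F c g W (W - w₀) ψ ψH Ht P zaH ω⌋)
      (fun ω => (eL d w W (g₂ 0 + q₁) (slam F W ω), (zaH (slam F W ω),
        ycL d w W (slam F W ω)))) ≤
      CH P (fun ω => ⌊2 ^ s * bY F c g W (W - w₀) ψ ψH Ht P zaH ω⌋)
      (fun ω => (eL d w W (g₂ 0 + q₁) (slam F W ω), (zaH (slam F W ω),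
        ycL d w W (slam F W ω)))) := by
    refine CH_mono_left hp.nonneg fun ω ω' _ _ h => ?_
    exact Pool.D2N.fl_coarse hs₁ (Prod.ext_iff.1 h).1
  refine h4.trans (h3.trans ?_)
  have l1 := log_cells (300 * x + Bz x + 5)
  have l2 := log_cells (Bz x + 1)
  have l3 : 0 ≤ (x : ℝ) * Real.log 2 := mul_nonneg (Nat.cast_nonneg _)
    (Real.log_nonneg (by norm_num))
  have l4 : 0 ≤ Real.log 2 := Real.log_nonneg (by norm_num)
  push_cast at h2 l1 l2 ⊢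
  linarith

end Pool.KPO
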