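import Pool.Agent.H28.D2.Fr
import Pool.Agent.H84.KEND.Ent

/-!
# Few given the own data: from the full record to the record of the own data

`drop`: a function `b` of the line, few given the own data `z`, `e` and the place `T`; `T` is full
given the line: then `b` is few given the own data. `nb_few`: the number over the gradients of the
reference line is few given a record; the number over the own gradients, relative to a line which
is a function of the own data, is few as well. `few_of`: both.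
-/

set_option autoImplicit false

namespace Pool.X31

open Finset Real
open Pool.Agent.H49.Ent Pool.Agent.H32.Dense Pool.STK Pool.KA Pool.KSAT Pool.K2S Pool.PB Pool.GEN
open Pool.OWN68 (CH_pair floor_sub_le)
open Pool.D2H (num)
open Pool.D2F2

/-- **Drop the place.** `b` is a function of the line and of the own data, few given the own data
and the place, and the place is full given the line and the own data. -/
theorem drop {Ω β σ ζ ε τ : Type} [Fintype Ω] {p : Ω → ℝ} (hp : IsLaw p) (b : Ω → β)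
    (S : Ω → σ) (z : Ω → ζ) (e : Ω → ε) (T : Ω → τ) {l e1 e2 : ℝ}
    (hb : Det p (fun ω => (S ω, (z ω, e ω))) b)
    (few : CH p b (fun ω => (z ω, (e ω, T ω))) ≤ e1)
    (full : l - e2 ≤ CH p T (fun ω => (S ω, (z ω, e ω))))
    (up : CH p T (fun ω => (z ω, e ω)) ≤ l) :
    CH p b (fun ω => (e ω, z ω)) ≤ e1 + e2 := by
  have h0 := hp.nonneg
  have h1 := Pool.KEND.info_symm h0 b T (fun ω => (z ω, e ω))
  have h2 : CH p T (fun ω => (S ω, (z ω, e ω))) ≤ CH p T (fun ω => (b ω, (z ω, e ω))) := by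
    refine CH_mono_cond h0 fun ω ω' a a' h => ?_
    have h3 : (S ω, (z ω, e ω)) = (S ω', (z ω', e ω')) := h
    show (b ω, (z ω, e ω)) = (b ω', (z ω', e ω'))
    have h4 : (z ω, e ω) = (z ω', e ω') := (Prod.ext_iff.mp h3).2
    rw [hb ω ω' a a' h3, h4]
  have h3 : CH p b (fun ω => (T ω, (z ω, e ω))) ≤ CH p b (fun ω => (z ω, (e ω, T ω))) := by
    refine CH_mono_cond h0 fun ω ω' _ _ h => ?_
    simp only [Prod.mk.injEq] at h ⊢
    exact ⟨h.2.1, h.2.2, h.1⟩
  have h4 : CH p b (fun ω => (e ω, z ω)) ≤ CH p b (fun ω => (z ω, e ω)) := by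
    refine CH_mono_cond h0 fun ω ω' _ _ h => ?_
    simp only [Prod.mk.injEq] at h ⊢
    exact ⟨h.2, h.1⟩
  linarith

/-- The same when `T` is few values beyond `l` given the own data only up to an error. -/
theorem drop' {Ω β σ ζ ε τ : Type} [Fintype Ω] {p : Ω → ℝ} (hp : IsLaw p) (b : Ω → β)
    (S : Ω → σ) (z : Ω → ζ) (e : Ω → ε) (T : Ω → τ) {l e1 e2 e3 : ℝ}
    (hS : Det p S (fun ω => (z ω, e ω)))
    (hb : Det p S b)
    (few : CH p b (fun ω => (z ω, (e ω, T ω))) ≤ e1)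
    (full : l - e2 ≤ CH p T S)
    (up : CH p T (fun ω => (z ω, e ω)) ≤ l + e3) :
    CH p b (fun ω => (e ω, z ω)) ≤ e1 + (e2 + e3) := by
  refine drop hp b S z e T (l := l + e3) ?_ few ?_ up
  · intro ω ω' a a' h
    exact hb ω ω' a a' (Prod.ext_iff.mp h).1
  · have : CH p T S ≤ CH p T (fun ω => (S ω, (z ω, e ω))) := by
      refine CH_mono_cond hp.nonneg fun ω ω' a a' h => ?_
      have h' : S ω = S ω' := h
      have h'' : (z ω, e ω) = (z ω', e ω') := hS ω ω' a a' h'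
      show (S ω, (z ω, e ω)) = (S ω', (z ω', e ω'))
      rw [h', h'']
    linarith

section nb

variable {m J : ℕ} {F : Fam m J} {κ : Type} {r D : ℕ} {d : Dat F κ r D} {W : ℕ}

/-- The number over the own gradients, relative to a line `PR`. -/
noncomputable def nw (d : Dat F κ r D) (W : ℕ) (PR : ℕ → Polynomial ℝ) (ω : F.Ω) : ℝ :=
  ∑ l ∈ range r, ((d.gp l (slam F W ω)).coeff 2 * (d.P l (slam F W ω) - PR l).coeff 0 +
    (d.gp l (slam F W ω)).coeff 1 * (d.P l (slam F W ω) - PR l).coeff 1)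

/-- The gradients of two lines of the same context. -/
theorem gp_near {ω ω' : F.Ω} (h : d.cx (slam F W ω) = d.cx (slam F W ω')) {l j : ℕ} (hl : l < r)
    (hj : j ≤ D) (hS : 0 < d.SG l) :
    |(d.gp l (slam F W ω)).coeff j - (d.gp l (slam F W ω')).coeff j| ≤ 1 / d.SG l := by
  have h1 : ⌊d.SG l * (d.gp l (slam F W ω)).coeff j⌋ =
      ⌊d.SG l * (d.gp l (slam F W ω')).coeff j⌋ := by
    have h2 := congrArg (fun y : CxT F κ r D => y.2.2.2 ⟨l, hl⟩ ⟨j, by omega⟩) h
    exact h2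
  have h3 : |d.SG l * (d.gp l (slam F W ω)).coeff j - d.SG l * (d.gp l (slam F W ω')).coeff j| ≤
      1 := by
    have := Int.abs_sub_lt_one_of_floor_eq_floor h1
    exact this.le
  rw [← mul_sub, abs_mul, abs_of_pos hS] at h3
  rw [le_div_iff₀ hS]
  linarith [mul_comm (d.SG l) |(d.gp l (slam F W ω)).coeff j - (d.gp l (slam F W ω')).coeff j|]

/-- **The number over the own gradients is few** when the number over the gradients of the
reference line and the context are few: `Z` is any record which knows the line `PR`. -/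
theorem nb_few {A : F.Ω → Prop} {p : F.Ω → ℝ} (hp : IsLaw p) (hA : ∀ ω, 0 < p ω → A ω)
    {ζ : Type} (Z : F.Ω → ζ) (PR : F.Ω → ℕ → Polynomial ℝ) (hPR : Det p Z PR) (b : F.Ω → ℤ)
    {n2 K : ℕ} {K1 e1 e2 : ℝ} (hD : 2 ≤ D) (hS : ∀ l < r, 0 < d.SG l)
    (hb : ∀ ω, 0 < p ω → |(b ω : ℝ) - 2 ^ n2 * nw d W (PR ω) ω| ≤ K1)
    (hsz : ∀ ω, 0 < p ω → ∀ l < r, ∀ j < 2,
      2 ^ n2 * |(d.P l (slam F W ω) - PR ω l).coeff j| ≤ K1 * d.SG l)
    (hK : 2 * (K1 + 2 * r * K1) + 1 ≤ K)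
    (few : CH p (fun ω => ⌊2 ^ n2 * d.nb W A (slam F W ω)⌋) Z ≤ e1)
    (few2 : CH p (fun ω => d.cx (slam F W ω)) Z ≤ e2) :
    CH p b Z ≤ e1 + e2 + Real.log (2 * K + 1) := by
  have h0 := hp.nonneg
  have a1 := CH_le_add h0 b (fun ω => d.cx (slam F W ω)) Z
  have a2 := CH_le_add h0 b (fun ω => ⌊2 ^ n2 * d.nb W A (slam F W ω)⌋)
    (fun ω => (d.cx (slam F W ω), Z ω))
  have a3 : CH p (fun ω => ⌊2 ^ n2 * d.nb W A (slam F W ω)⌋) (fun ω => (d.cx (slam F W ω), Z ω)) ≤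
      CH p (fun ω => ⌊2 ^ n2 * d.nb W A (slam F W ω)⌋) Z :=
    CH_mono_cond h0 fun ω ω' _ _ h => (Prod.ext_iff.mp h).2
  have a4 : CH p b (fun ω => (⌊2 ^ n2 * d.nb W A (slam F W ω)⌋, (d.cx (slam F W ω), Z ω))) ≤
      Real.log (2 * K + 1) := by
    refine CH_pair hp b _ fun ω ω' hω hω' h => ?_
    simp only [Prod.mk.injEq] at h
    obtain ⟨hn, hc, hZ⟩ := h
    -- the reference sample of the context
    obtain ⟨ω₀, r1, rA, r2⟩ := d.rfo_spec (W := W) (hA ω hω)
    have r3 : d.rfo W A (d.cx (slam F W ω')) = some ω₀ := by rw [← hc]; exact r1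
    have n1 : d.nb W A (slam F W ω) = num r (fun l => d.P l (slam F W ω))
        (fun l => d.gp l (slam F W ω₀)) := by
      unfold Dat.nb
      rw [r1]
      rfl
    have n2' : d.nb W A (slam F W ω') = num r (fun l => d.P l (slam F W ω'))
        (fun l => d.gp l (slam F W ω₀)) := by
      unfold Dat.nb
      rw [r3]
      rfl
    have hd : |2 ^ n2 * d.nb W A (slam F W ω) - 2 ^ n2 * d.nb W A (slam F W ω')| ≤ 1 :=
      (Int.abs_sub_lt_one_of_floor_eq_floor hn).le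
    have hQ : PR ω = PR ω' := hPR ω ω' hω hω' hZ
    -- the error of one line
    have key : ∀ ω₁, 0 < p ω₁ → d.cx (slam F W ω₀) = d.cx (slam F W ω₁) →
        |2 ^ n2 * nw d W (PR ω₁) ω₁ - 2 ^ n2 * (num r (fun l => d.P l (slam F W ω₁))
          (fun l => d.gp l (slam F W ω₀)) - num r (PR ω₁) (fun l => d.gp l (slam F W ω₀)))| ≤
          2 * r * K1 := by
      intro ω₁ h1 hcx
      have e1 : 2 ^ n2 * nw d W (PR ω₁) ω₁ - 2 ^ n2 * (num r (fun l => d.P l (slam F W ω₁))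
          (fun l => d.gp l (slam F W ω₀)) - num r (PR ω₁) (fun l => d.gp l (slam F W ω₀))) =
          ∑ l ∈ range r, (((d.gp l (slam F W ω₁)).coeff 2 - (d.gp l (slam F W ω₀)).coeff 2) *
            (2 ^ n2 * (d.P l (slam F W ω₁) - PR ω₁ l).coeff 0) +
            ((d.gp l (slam F W ω₁)).coeff 1 - (d.gp l (slam F W ω₀)).coeff 1) *
            (2 ^ n2 * (d.P l (slam F W ω₁) - PR ω₁ l).coeff 1)) := by
        unfold nw num
        rw [← mul_sub, ← Finset.sum_sub_distrib, ← Finset.sum_sub_distrib, Finset.mul_sum]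
        refine Finset.sum_congr rfl fun l _ => ?_
        simp only [Polynomial.coeff_sub]
        ring
      rw [e1]
      refine (Finset.abs_sum_le_sum_abs _ _).trans ?_
      have e2 : ∀ l ∈ range r, |((d.gp l (slam F W ω₁)).coeff 2 -
            (d.gp l (slam F W ω₀)).coeff 2) *
            (2 ^ n2 * (d.P l (slam F W ω₁) - PR ω₁ l).coeff 0) +
            ((d.gp l (slam F W ω₁)).coeff 1 - (d.gp l (slam F W ω₀)).coeff 1) *
            (2 ^ n2 * (d.P l (slam F W ω₁) - PR ω₁ l).coeff 1)| ≤ 2 * K1 := by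
        intro l hl
        rw [Finset.mem_range] at hl
        have hs := hS l hl
        have g2 := gp_near (d := d) (W := W) hcx.symm hl hD hs
        have g1 := gp_near (d := d) (W := W) hcx.symm hl (show 1 ≤ D by omega) hs
        have z0 := hsz ω₁ h1 l hl 0 (by norm_num)
        have z1 := hsz ω₁ h1 l hl 1 (by norm_num)
        have t : ∀ {x y : ℝ}, |x| ≤ 1 / d.SG l → 2 ^ n2 * |y| ≤ K1 * d.SG l →
            |x * (2 ^ n2 * y)| ≤ K1 := by
          intro x y hx hy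
          rw [abs_mul, abs_mul, abs_of_pos (by positivity : (0 : ℝ) < 2 ^ n2)]
          calc |x| * (2 ^ n2 * |y|) ≤ 1 / d.SG l * (K1 * d.SG l) :=
                mul_le_mul hx hy (by positivity) (by positivity)
            _ = K1 := by field_simp
        refine (abs_add_le _ _).trans ?_
        linarith [t g2 z0, t g1 z1]
      refine (Finset.sum_le_sum e2).trans (le_of_eq ?_)
      rw [Finset.sum_const, Finset.card_range, nsmul_eq_mul]
      ring
    have k1 := key ω hω r2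
    have k2 := key ω' hω' (r2.trans hc)
    have b1 := hb ω hω
    have b2 := hb ω' hω'
    rw [← hQ] at k2 b2
    rw [n1, n2'] at hd
    have fin : |(b ω : ℝ) - b ω'| ≤ K := by
      refine le_trans ?_ hK
      rw [abs_le] at k1 k2 b1 b2 hd ⊢
      constructor <;>
        linarith [k1.1, k1.2, k2.1, k2.2, b1.1, b1.2, b2.1, b2.2, hd.1, hd.2]
    have fin' : |((b ω - b ω' : ℤ) : ℝ)| ≤ ((K : ℤ) : ℝ) := by
      push_cast
      exact fin
    exact_mod_cast fin'
  linarith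

/-- **Few given the own data.** `z`, `e`: the own data, `T`: the place, `PR`: the line of the
reference sample of the own data. -/
theorem few_of {A : F.Ω → Prop} {p : F.Ω → ℝ} (hp : IsLaw p) (hA : ∀ ω, 0 < p ω → A ω)
    {ζ ε τ : Type} (z : F.Ω → ζ) (e : F.Ω → ε) (T : F.Ω → τ) (PR : ζ → ε → ℕ → Polynomial ℝ)
    (b : F.Ω → ℤ) {n2 K : ℕ} {K1 l e1 e2 e3 : ℝ} (hD : 2 ≤ D) (hS : ∀ l < r, 0 < d.SG l)
    (hb : ∀ ω, 0 < p ω → |(b ω : ℝ) - 2 ^ n2 * nw d W (PR (z ω) (e ω)) ω| ≤ K1)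
    (hsz : ∀ ω, 0 < p ω → ∀ l < r, ∀ j < 2,
      2 ^ n2 * |(d.P l (slam F W ω) - PR (z ω) (e ω) l).coeff j| ≤ K1 * d.SG l)
    (hK : 2 * (K1 + 2 * r * K1) + 1 ≤ K)
    (hdet : Det p (fun ω => (slam F W ω, (z ω, e ω))) b)
    (few : CH p (fun ω => ⌊2 ^ n2 * d.nb W A (slam F W ω)⌋) (fun ω => (z ω, (e ω, T ω))) ≤ e1)
    (few2 : CH p (fun ω => d.cx (slam F W ω)) (fun ω => (z ω, (e ω, T ω))) ≤ e2)
    (full : l - e3 ≤ CH p T (fun ω => (slam F W ω, (z ω, e ω))))
    (up : CH p T (fun ω => (z ω, e ω)) ≤ l) :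
    CH p b (fun ω => (e ω, z ω)) ≤ e1 + e2 + Real.log (2 * K + 1) + e3 :=
  drop hp b (slam F W) z e T hdet
    (nb_few hp hA (fun ω => (z ω, (e ω, T ω))) (fun ω => PR (z ω) (e ω))
      (fun ω ω' _ _ h => by
        simp only [Prod.mk.injEq] at h
        show PR (z ω) (e ω) = PR (z ω') (e ω')
        rw [h.1, h.2.1]) b hD hS hb hsz hK few few2) full up

/-- The same for the cell of the number. -/
theorem few_floor {A : F.Ω → Prop} {p : F.Ω → ℝ} (hp : IsLaw p) (hA : ∀ ω, 0 < p ω → A ω)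
    {ζ ε τ : Type} (z : F.Ω → ζ) (e : F.Ω → ε) (T : F.Ω → τ) (PR : ζ → ε → ℕ → Polynomial ℝ)
    {n2 K : ℕ} {K1 l e1 e2 e3 : ℝ} (hD : 2 ≤ D) (hS : ∀ l < r, 0 < d.SG l) (hK1 : 1 ≤ K1)
    (hsz : ∀ ω, 0 < p ω → ∀ l < r, ∀ j < 2,
      2 ^ n2 * |(d.P l (slam F W ω) - PR (z ω) (e ω) l).coeff j| ≤ K1 * d.SG l)
    (hK : 2 * (K1 + 2 * r * K1) + 1 ≤ K)
    (few : CH p (fun ω => ⌊2 ^ n2 * d.nb W A (slam F W ω)⌋) (fun ω => (z ω, (e ω, T ω))) ≤ e1)
    (few2 : CH p (fun ω => d.cx (slam F W ω)) (fun ω => (z ω, (e ω, T ω))) ≤ e2)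
    (full : l - e3 ≤ CH p T (fun ω => (slam F W ω, (z ω, e ω))))
    (up : CH p T (fun ω => (z ω, e ω)) ≤ l) :
    CH p (fun ω => ⌊2 ^ n2 * nw d W (PR (z ω) (e ω)) ω⌋) (fun ω => (e ω, z ω)) ≤
      e1 + e2 + Real.log (2 * K + 1) + e3 := by
  refine few_of hp hA z e T PR _ hD hS (fun ω _ => ?_) hsz hK (fun ω ω' _ _ h => ?_) few few2
    full up
  · have h1 := Int.floor_le (2 ^ n2 * nw d W (PR (z ω) (e ω)) ω)
    have h2 := Int.lt_floor_add_one (2 ^ n2 * nw d W (PR (z ω) (e ω)) ω)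
    rw [abs_le]
    constructor <;> linarith
  · simp only [Prod.mk.injEq] at h
    obtain ⟨h1, h2, h3⟩ := h
    have h4 : nw d W (PR (z ω) (e ω)) ω = nw d W (PR (z ω') (e ω')) ω' := by
      unfold nw
      rw [h1, h2, h3]
    show ⌊2 ^ n2 * nw d W (PR (z ω) (e ω)) ω⌋ = ⌊2 ^ n2 * nw d W (PR (z ω') (e ω')) ω'⌋
    rw [h4]

end nb

end Pool.X31
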