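import Pool.Agent.H31.D2.Gqa

/-!
# The coefficients of order at least two in the direction of `c 0`

`gqs_of`: at a window `W` between the window `w₀` of the label and a later window `V`, all
coefficients of order at least two of the gradient of the label in the direction of `c 0` are small
on an event, if the natural second derivative at `V` is small against that of `W` (the slope of the
target exceeds three). `gqs_cls`: the class form.
-/

set_option autoImplicit false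

namespace Pool.KPO

open Finset Real MvPolynomial
open Pool.Agent.H49.Ent Pool.Agent.H32.Dense Pool.STK Pool.KA Pool.KSAT Pool.K2S Pool.PB Pool.S6C
open Pool.GEN Pool.CHT Pool.CHX Pool.LA91
open Pool.D2F Pool.D2Z Pool.D2F2 Pool.D2N
open Pool.D2R (dd hs co rem_fam)
open Pool.FLF (Fam.sub)
open Pool.PB.Trl (rt rt_mem t_rt)
open Pool.OWN68 (opl tw uw mid dirv natDegree_opl opl_jet uw_abs t_mid)

variable {m J : ℕ}

/-- The parameters of two windows. -/
theorem uw_two (F : Fam m J) {W V : ℕ} (hWV : W ≤ V) (hV : V ≤ J) (ω : F.Ω) :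
    1 / 2 ^ (V - W) * uw F V ω + u0 V W (slam F V ω).2.2 = uw F W ω := by
  have h1 := t_mid F (w := W) (hWV.trans hV) ω
  have h2 := t_mid F (w := V) hV ω
  have hco : co (V - W) (slam F V ω) = slam F W ω := Pool.D2R.co_slam F hWV hV ω
  have hT : (slam F W ω).2.2 = (slam F V ω).2.2 / 2 ^ (V - W) := by
    rw [← hco]
    rfl
  have m1 : mid F W (slam F W ω) none = (((slam F W ω).2.2 : ℝ) + 1 / 2) / 2 ^ W := rfl
  have m2 : mid F V (slam F V ω) none = (((slam F V ω).2.2 : ℝ) + 1 / 2) / 2 ^ V := rfl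
  rw [m1, hT] at h1
  rw [m2] at h2
  have hp : (2 : ℝ) ^ V = 2 ^ W * 2 ^ (V - W) := by
    rw [← pow_add]
    congr 1
    omega
  have e1 : uw F W ω / 2 ^ (W + 1) = (((slam F V ω).2.2 : ℝ) + 1 / 2) / 2 ^ V +
      uw F V ω / 2 ^ (V + 1) - ((((slam F V ω).2.2 / 2 ^ (V - W) : ℕ) : ℝ) + 1 / 2) / 2 ^ W := by
    linarith
  have hW0 : (2 : ℝ) ^ (W + 1) ≠ 0 := by positivity
  have e2 : uw F W ω = 2 ^ (W + 1) * (uw F W ω / 2 ^ (W + 1)) := by field_simp
  rw [e2, e1]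
  unfold u0
  have e3 : (2 : ℝ) ^ (V + 1) = 2 ^ (W + 1) * 2 ^ (V - W) := by
    rw [pow_succ, hp, pow_succ]
    ring
  have e4 : uw F V ω / 2 ^ (V + 1) = 1 / 2 ^ (W + 1) * (1 / 2 ^ (V - W) * uw F V ω) := by
    rw [e3]
    field_simp
  rw [e4]
  field_simp
  ring

/-- The second derivative from the coefficients. -/
theorem der2_le {P : Polynomial ℝ} {D : ℕ} (h : P.natDegree ≤ D) {u δ : ℝ} (hu : |u| ≤ 1)
    (hδ : 0 ≤ δ) (hc : ∀ j, |P.coeff (j + 2)| ≤ δ) :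
    |P.derivative.derivative.eval u| ≤ (D + 1) ^ 3 * δ := by
  have hd : P.derivative.natDegree ≤ D :=
    (Polynomial.natDegree_derivative_le _).trans ((Nat.sub_le _ _).trans h)
  have h1 := der_le (P := P.derivative) (D := D) hd (u := u) (δ := (D + 1) * δ) hu (by positivity)
    (fun j => by
      rw [Polynomial.coeff_derivative]
      rcases Nat.lt_or_ge D (j + 2) with h3 | h3
      · rw [Polynomial.coeff_eq_zero_of_natDegree_lt (by omega), zero_mul, abs_zero]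
        positivity
      · rw [abs_mul, mul_comm]
        refine mul_le_mul ?_ (hc j) (abs_nonneg _) (by positivity)
        rw [abs_of_nonneg (by positivity)]
        have : ((j : ℝ) + 2) ≤ D := by exact_mod_cast h3
        push_cast
        linarith)
  refine h1.trans (le_of_eq ?_)
  ring

/-- The second derivative of a polynomial in an affine variable. -/
theorem der2_aff (P : Polynomial ℝ) (r s u : ℝ) :
    ((P.comp (Polynomial.C r * Polynomial.X + Polynomial.C s)).derivative.derivative).eval u =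
      r ^ 2 * P.derivative.derivative.eval (r * u + s) := by
  have hl : Polynomial.derivative (Polynomial.C r * Polynomial.X + Polynomial.C s) =
      Polynomial.C r := by simp
  rw [Polynomial.derivative_comp, hl, Polynomial.derivative_C_mul, Polynomial.derivative_comp, hl,
    Polynomial.eval_mul, Polynomial.eval_mul, Polynomial.eval_C, Polynomial.eval_comp,
    Polynomial.eval_add, Polynomial.eval_mul, Polynomial.eval_C, Polynomial.eval_X,
    Polynomial.eval_C]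
  ring

/-- **The second derivatives at two windows.** -/
theorem gq0_two {F : Fam m J} {c : ℕ → Fin m} {g gv : ℕ → ℕ} {W V w₀ : ℕ}
    {ψH ψHv : LnT F → ℕ → Option (Fin m) → ℝ} {Ht : LnT F → MvPolynomial (Option (Fin m)) ℝ}
    (hc : Set.InjOn c (Set.Iio 3)) (hwW : w₀ ≤ W) (hWV : W ≤ V) (hV : V ≤ J) {ω : F.Ω}
    (hψ : ∀ l, CvC c l (ψH (slam F W ω) l)) (hψv : ∀ l, CvC c l (ψHv (slam F V ω) l))
    (hQ : ∀ s, DepC c 3 (Ht s)) :
    (gq F c g W (W - w₀) ψH Ht (slam F W ω) 0).derivative.derivative.eval (uw F W ω) =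
      2 ^ (2 * (V - W)) *
        (gq F c gv V (V - w₀) ψHv Ht (slam F V ω) 0).derivative.derivative.eval (uw F V ω) -
      kap c gv V (ψHv (slam F V ω)) (ψH (slam F W ω)) 0 1 *
        (gq F c g W (W - w₀) ψH Ht (slam F W ω) 1).derivative.derivative.eval (uw F W ω) -
      kap c gv V (ψHv (slam F V ω)) (ψH (slam F W ω)) 0 2 *
        (gq F c g W (W - w₀) ψH Ht (slam F W ω) 2).derivative.derivative.eval (uw F W ω) := by
  have h1 := gq_win (g := gv) (g₁ := g) (ψH := ψHv) (ψH₁ := ψH) (Ht := Ht) (n := V - w₀)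
    (n₁ := W - w₀) hc hWV hV (ω := ω) hψ hQ (by omega) (by omega) (by omega) 0
  have h2 : (gq F c gv V (V - w₀) ψHv Ht (slam F V ω) 0).derivative.derivative.eval (uw F V ω) =
      ∑ i ∈ range 3, kap c gv V (ψHv (slam F V ω)) (ψH (slam F W ω)) 0 i *
        ((1 / 2 ^ (V - W)) ^ 2 *
          (gq F c g W (W - w₀) ψH Ht (slam F W ω) i).derivative.derivative.eval (uw F W ω)) := by
    rw [h1, Polynomial.derivative_sum, Polynomial.derivative_sum, Polynomial.eval_finsetSum]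
    refine Finset.sum_congr rfl fun i _ => ?_
    rw [Polynomial.derivative_C_mul, Polynomial.derivative_C_mul, Polynomial.eval_C_mul,
      der2_aff, uw_two F hWV hV ω]
  have k0 : kap c gv V (ψHv (slam F V ω)) (ψH (slam F W ω)) 0 0 = 1 := by
    unfold Pool.D2N.kap
    have e1 := fv_comp hc gv V hψv 0 (j := 0) (by norm_num)
    rw [if_pos rfl] at e1
    have e2 : ∀ φ : Option (Fin m) → ℝ, CvC c 0 φ → cv φ (fv c gv V 3 (ψHv (slam F V ω)) 0) = 0 := by
      intro φ hφ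
      unfold cv
      refine Finset.sum_eq_zero fun o _ => ?_
      cases o with
      | none => rw [fv_none, mul_zero]
      | some i => rw [hφ i (by
          rintro l hl
          exact absurd hl (by omega)), zero_mul]
    rw [e2 _ (hψ 0)]
    rw [e2 _ (hψv 0)] at e1
    exact e1
  rw [Finset.sum_range_succ, Finset.sum_range_succ, Finset.sum_range_one, k0] at h2
  have hp : (2 : ℝ) ^ (2 * (V - W)) * (1 / 2 ^ (V - W)) ^ 2 = 1 := by
    rw [mul_comm 2, pow_mul]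
    field_simp
  rw [h2]
  have e3 : ∀ a b d k1 k2 r q : ℝ, r * q = 1 → a = r * (1 * (q * a) + k1 * (q * b) +
      k2 * (q * d)) - k1 * b - k2 * d := by
    intro a b d k1 k2 r q h
    have : r * (1 * (q * a) + k1 * (q * b) + k2 * (q * d)) =
        (r * q) * (a + k1 * b + k2 * d) := by ring
    rw [this, h]
    ring
  exact e3 _ _ _ _ _ _ _ hp

/-- **The numbers of two windows** `W ≤ V`, with the window `w₀` of the label. -/
structure HpS (x s w₀ W V : ℕ) (g₁ g gv : ℕ → ℕ) : Prop where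
  wV : W ≤ V
  up : ∀ l < 3, V + g l ≤ gv l + W + x
  upj : ∀ l < 3, ∀ j < l, gv j + g l ≤ gv l + g j + x
  s1 : ∀ l, 1 ≤ l → l ≤ 2 → g 3 + g₁ l + (s + 600 * x) ≤ g₁ 3 + g l + 2 * (W - w₀)
  s2 : g 3 + gv 0 + 2 * (V - W) + (s + 600 * x) ≤ gv 3 + g 0

section main

variable {F : Fam m J} {c : ℕ → Fin m} {D w₀ W V b a' x s : ℕ} {g₁ g gv gb g' : ℕ → ℕ}
    {v v' e X p k₁ k kv k' e₂ e₀ ev e₁ : ℕ} {gT : ℕ → ℕ} {U : ℝ} {B : F.Ω → Prop}
    {G : PtT F → ℕ → MvPolynomial (Option (Fin m)) ℝ}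
    {H : LnT F → ℕ → MvPolynomial (Option (Fin m)) ℝ}
    {T : PtT F → ℕ → MvPolynomial (Option (Fin m)) ℝ}
    {TH : LnT F → ℕ → MvPolynomial (Option (Fin m)) ℝ}
    {Ht : LnT F → MvPolynomial (Option (Fin m)) ℝ}
    {ψ₁ ψ ψv ψ' Sv : PtT F → ℕ → Option (Fin m) → ℝ}
    {ψH₁ ψH ψHv ψH' : LnT F → ℕ → Option (Fin m) → ℝ}

/-- **The second derivative in the direction of `c 0`** at the own time. -/
theorem gy_two (N : HpG x w₀ W b a' g₁ g gb g') (Z : HpS x s w₀ W V g₁ g gv)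
    (hc : Set.InjOn c (Set.Iio 3)) (hV : V ≤ J) (hDx : ((D : ℝ) + 1) * 2 ^ D ≤ 2 ^ x)
    (h₁ : WFr F c 4 w₀ k₁ e₂ g₁ B ψ₁ ψH₁ Sv) (h : WFr F c 4 W k e₀ g B ψ ψH Sv)
    (hv : WFr F c 4 V kv ev gv B ψv ψHv Sv) (hk₁ : k₁ ≤ x) (hk : k ≤ x) (hkv : kv ≤ x)
    (hQ : ∀ s, DepC c 3 (Ht s)) (hdeg : ∀ s, (Ht s).totalDegree ≤ D)
    (hM : ∀ ω, B ω → ∀ i < 3, ∀ j, |(gq F c g₁ w₀ 0 ψH₁ Ht (slam F w₀ ω) i).coeff (j + 1)| ≤
      2 ^ x / 2 ^ g₁ 3 * 2 ^ g₁ i) {ω : F.Ω} (hω : B ω)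
    (hcv : ∀ j, |2 ^ gv 3 / 2 ^ gv 0 *
      (gq F c gv V (V - w₀) ψHv Ht (slam F V ω) 0).derivative.coeff j| ≤ 2 ^ (136 * x)) :
    |2 ^ g 3 / 2 ^ g 0 * (gq F c g W (W - w₀) ψH Ht (slam F W ω) 0).derivative.derivative.eval
      (uw F W ω)| ≤ 1 / 2 ^ (s + 450 * x) := by
  have hx := N.x1
  have hW : W ≤ J := Z.wV.trans hV
  have e2 : ψH (slam F W ω) = ψ (ptr F J ω) := (h.fr.cls ω hω).symm
  have e3 : ψHv (slam F V ω) = ψv (ptr F J ω) := (hv.fr.cls ω hω).symm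
  have hdq : ∀ l, (gq F c g W (W - w₀) ψH Ht (slam F W ω) l).natDegree ≤ D := fun l =>
    natDegree_opl F W (deg_gpo c g W 3 (ψH (slam F W ω)) (hdeg _) l) _
  have hdv : (gq F c gv V (V - w₀) ψHv Ht (slam F V ω) 0).natDegree ≤ D :=
    natDegree_opl F V (deg_gpo c gv V 3 (ψHv (slam F V ω)) (hdeg _) 0) _
  have hD1 := d1_le hDx
  have hD0 : (0 : ℝ) ≤ (D : ℝ) + 1 := by positivity
  have key := gq0_two (g := g) (gv := gv) (Ht := Ht) hc N.wW Z.wV hV (ω := ω) (h.fr.depH _)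
    (hv.fr.depH _) hQ
  -- the window `V`
  obtain ⟨Pv, hPv⟩ : ∃ Pv, Pv = 2 ^ gv 3 / 2 ^ gv 0 *
      (gq F c gv V (V - w₀) ψHv Ht (slam F V ω) 0).derivative.derivative.eval (uw F V ω) :=
    ⟨_, rfl⟩
  have bv : |Pv| ≤ 2 ^ (138 * x) := by
    have h4 := der_le (P := Polynomial.C ((2 : ℝ) ^ gv 3 / 2 ^ gv 0) *
        (gq F c gv V (V - w₀) ψHv Ht (slam F V ω) 0).derivative) (D := D) (δ := 2 ^ (136 * x))
      ((Polynomial.natDegree_C_mul_le _ _).trans ((Polynomial.natDegree_derivative_le _).trans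
        ((Nat.sub_le _ _).trans hdv))) (uw_abs F V ω) (by positivity) (fun j => by
        rw [Polynomial.coeff_C_mul]
        exact hcv (j + 1))
    rw [Polynomial.derivative_C_mul, Polynomial.eval_C_mul, ← hPv] at h4
    refine h4.trans ?_
    calc ((D : ℝ) + 1) ^ 2 * 2 ^ (136 * x) ≤ (2 ^ x) ^ 2 * 2 ^ (136 * x) := by gcongr
      _ = 2 ^ (138 * x) := by
          rw [← pow_mul, ← pow_add]
          congr 1
          ring
  -- the rough directions
  have near : Nc c g W 3 (2 ^ (12 * x + 8)) (ψ (ptr F J ω)) (ψv (ptr F J ω)) :=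
    (nr_two (h.nr ω hω) (hv.nr ω hω) hk hkv Z.up Z.upj).1
  have rough : ∀ l, 1 ≤ l → l ≤ 2 → |2 ^ g 3 / 2 ^ g 0 *
      (kap c gv V (ψHv (slam F V ω)) (ψH (slam F W ω)) 0 l *
        (gq F c g W (W - w₀) ψH Ht (slam F W ω) l).derivative.derivative.eval (uw F W ω))| ≤
      1 / 2 ^ (s + 466 * x) := by
    intro l hl1 hl2
    have h3 := kap_le (c := c) (g := gv) (g₁ := g) (W := V) (w := W) hc (hv.fr.dep (ptr F J ω))
      (by positivity) near (l := 0) (i := l) (by norm_num) (by omega)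
    rw [e2, e3]
    have h4 := der2_le (P := Polynomial.C ((2 : ℝ) ^ g 3 / 2 ^ g l) *
        gq F c g W (W - w₀) ψH Ht (slam F W ω) l) (D := D) (δ := 1 / 2 ^ (s + 533 * x))
      ((Polynomial.natDegree_C_mul_le _ _).trans (hdq l)) (uw_abs F W ω) (by positivity)
      (fun j => by
        rw [Polynomial.coeff_C_mul]
        refine (gr_cf N hc hW hDx h₁ h hk₁ hk hQ hdeg hM hω (by omega) (j + 1)).trans ?_
        have h5 : (2 : ℝ) ^ (g 3 + g₁ l) / 2 ^ (g₁ 3 + g l + (j + 1 + 1) * (W - w₀)) ≤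
            1 / 2 ^ (s + 600 * x) := by
          refine pq_le1 ?_
          have h6 := Z.s1 l hl1 hl2
          have h7 : 2 * (W - w₀) ≤ (j + 1 + 1) * (W - w₀) := Nat.mul_le_mul_right _ (by omega)
          omega
        exact (mul_le_mul_of_nonneg_left h5 (by positivity)).trans (pm_le1 (by omega)))
    rw [Polynomial.derivative_C_mul, Polynomial.derivative_C_mul, Polynomial.eval_C_mul] at h4
    obtain ⟨Q2, hQ2⟩ : ∃ Q2, Q2 =
      (gq F c g W (W - w₀) ψH Ht (slam F W ω) l).derivative.derivative.eval (uw F W ω) :=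
      ⟨_, rfl⟩
    obtain ⟨κ, hκ⟩ : ∃ κ, κ = kap c gv V (ψv (ptr F J ω)) (ψ (ptr F J ω)) 0 l := ⟨_, rfl⟩
    rw [← hQ2] at h4 ⊢
    rw [← hκ] at h3 ⊢
    have e4 : 2 ^ g 3 / 2 ^ g 0 * (κ * Q2) =
        (2 ^ g l * κ / 2 ^ g 0) * (2 ^ g 3 / 2 ^ g l * Q2) := by
      field_simp
    rw [e4, abs_mul]
    have h8 : |2 ^ g l * κ / 2 ^ g 0| ≤ 2 ^ (63 * x) := by
      rw [abs_div, abs_mul, abs_of_pos (by positivity : (0 : ℝ) < 2 ^ g l),
        abs_of_pos (by positivity : (0 : ℝ) < 2 ^ g 0), div_le_iff₀ (by positivity)]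
      exact h3.trans (mul_le_mul_of_nonneg_right (pw3' x hx) (by positivity))
    calc |2 ^ g l * κ / 2 ^ g 0| * |2 ^ g 3 / 2 ^ g l * Q2| ≤
        2 ^ (63 * x) * (((D : ℝ) + 1) ^ 3 * (1 / 2 ^ (s + 533 * x))) :=
          mul_le_mul h8 h4 (abs_nonneg _) (by positivity)
      _ ≤ 2 ^ (63 * x) * ((2 ^ x) ^ 3 * (1 / 2 ^ (s + 533 * x))) := by gcongr
      _ = 2 ^ (66 * x) * (1 / 2 ^ (s + 533 * x)) := by
          rw [← pow_mul, ← mul_assoc, ← pow_add]
          congr 2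
          ring
      _ ≤ 1 / 2 ^ (s + 466 * x) := pm_le1 (by omega)
  have r1 := rough 1 le_rfl (by norm_num)
  have r2 := rough 2 (by norm_num) le_rfl
  obtain ⟨R1, hR1⟩ : ∃ R, R = 2 ^ g 3 / 2 ^ g 0 *
      (kap c gv V (ψHv (slam F V ω)) (ψH (slam F W ω)) 0 1 *
        (gq F c g W (W - w₀) ψH Ht (slam F W ω) 1).derivative.derivative.eval (uw F W ω)) :=
    ⟨_, rfl⟩
  obtain ⟨R2, hR2⟩ : ∃ R, R = 2 ^ g 3 / 2 ^ g 0 *
      (kap c gv V (ψHv (slam F V ω)) (ψH (slam F W ω)) 0 2 *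
        (gq F c g W (W - w₀) ψH Ht (slam F W ω) 2).derivative.derivative.eval (uw F W ω)) :=
    ⟨_, rfl⟩
  rw [← hR1] at r1
  rw [← hR2] at r2
  have e5 : 2 ^ g 3 / 2 ^ g 0 * (gq F c g W (W - w₀) ψH Ht (slam F W ω) 0).derivative.derivative.eval
      (uw F W ω) = 2 ^ (g 3 + gv 0 + 2 * (V - W)) / 2 ^ (gv 3 + g 0) * Pv - R1 - R2 := by
    rw [key, hR1, hR2, hPv]
    have e6 : (2 : ℝ) ^ (g 3 + gv 0 + 2 * (V - W)) / 2 ^ (gv 3 + g 0) *
        (2 ^ gv 3 / 2 ^ gv 0) = 2 ^ g 3 / 2 ^ g 0 * 2 ^ (2 * (V - W)) := by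
      simp only [pow_add]
      field_simp
    rw [← mul_assoc, e6]
    ring
  have t1 : |2 ^ (g 3 + gv 0 + 2 * (V - W)) / 2 ^ (gv 3 + g 0) * Pv| ≤ 1 / 2 ^ (s + 460 * x) := by
    rw [abs_mul, abs_of_pos (by positivity)]
    have h6 : (2 : ℝ) ^ (g 3 + gv 0 + 2 * (V - W)) / 2 ^ (gv 3 + g 0) ≤ 1 / 2 ^ (s + 600 * x) :=
      pq_le1 (by have := Z.s2; omega)
    calc (2 : ℝ) ^ (g 3 + gv 0 + 2 * (V - W)) / 2 ^ (gv 3 + g 0) * |Pv| ≤
        1 / 2 ^ (s + 600 * x) * 2 ^ (138 * x) := mul_le_mul h6 bv (abs_nonneg _) (by positivity)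
      _ = 2 ^ (138 * x) * (1 / 2 ^ (s + 600 * x)) := mul_comm _ _
      _ ≤ _ := pm_le1 (by omega)
  rw [e5]
  refine (abs_sub _ _).trans ((add_le_add (abs_sub _ _) le_rfl).trans ?_)
  have q1 : (1 : ℝ) / 2 ^ (s + 460 * x) ≤ 1 / 2 ^ (s + 450 * x + 2) :=
    one_div_le_one_div_of_le (by positivity) (two_le (by omega))
  have q2 : (1 : ℝ) / 2 ^ (s + 466 * x) ≤ 1 / 2 ^ (s + 450 * x + 2) :=
    one_div_le_one_div_of_le (by positivity) (two_le (by omega))
  have q3 : (1 : ℝ) / 2 ^ (s + 450 * x) = 4 * (1 / 2 ^ (s + 450 * x + 2)) := by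
    rw [pow_add _ (s + 450 * x) 2]
    field_simp
    norm_num
  have q4 : (0 : ℝ) < 1 / 2 ^ (s + 450 * x + 2) := by positivity
  rw [q3]
  linarith

end main

end Pool.KPO
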