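import Pool.Agent.H31.D2.Ry3
import Pool.Agent.H90.D2.Hhh

/-!
# The tie cell `(1,k,k;k+1)`, `k > 2`: the own data at the window of the block

`BkM`: the numbers between the base window and the window of the block (as `BkN`, the first
coordinate is not known to `q` digits at the block). `CoY`: the coefficients of order at least two in
the direction of the first coordinate. `nG_y`, `nE_y`, `free_y`: as `nG_blk`, `nE_blk`, `HbG.free`.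
-/

set_option autoImplicit false

namespace Pool.KPO

open Finset Real MvPolynomial
open Pool.Agent.H49.Ent Pool.Agent.H32.Dense Pool.STK Pool.KA Pool.KSAT Pool.K2S Pool.PB Pool.S6C
open Pool.GEN Pool.CHT Pool.CHX Pool.LA91
open Pool.LBT (ThrOf)
open Pool.D2F Pool.D2Z Pool.D2F2 Pool.D2N
open Pool.D2R (dd hs co co_slam)
open Pool.X31 (nw)
open Pool.OWN68 (opl tw uw mid dirv natDegree_opl opl_jet uw_abs)

variable {m J : ℕ}

/-- **The numbers between the base window `w` and the window `W` of the block**, the first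
coordinate is not known to `q` digits at `W`. -/
structure BkM (x s sg q q₀ q₁ w W : ℕ) (g₂ g : ℕ → ℕ) : Prop where
  x1 : 1 ≤ x
  wW : w ≤ W
  q0 : q ≤ q₀
  q01 : q₀ ≤ q₁
  up : ∀ l < 3, W + g₂ l ≤ g l + w + x
  upj : ∀ l < 3, ∀ j < l, g j + g₂ l ≤ g l + g₂ j + x
  d1 : ∀ l, 1 ≤ l → l ≤ 2 → g 3 + g₂ l + s ≤ g₂ 3 + g l + sg + (W - w) + x
  e1 : g 0 + w + 1 + s ≤ W + g₂ 0 + q₁ + x
  n3 : s + g 3 + 2 ≤ g₂ 3 + q + sg + 2 * (W - w)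
  la : ∀ l < 3, l ≠ 0 → g₂ l + q ≤ g l
  la' : ∀ l < 3, l ≠ 0 → g₂ l + q + W ≤ g l + w

/-- **The coefficients of order at least two** in the direction of the first coordinate, `k > 2`: they
vanish at the window of the block. -/
structure CoY (F : Fam m J) (c : ℕ → Fin m) (s x sg w₀ w W : ℕ) (g₂ g : ℕ → ℕ)
    (ψH₂ ψH : LnT F → ℕ → Option (Fin m) → ℝ) (Ht : LnT F → MvPolynomial (Option (Fin m)) ℝ)
    (B : F.Ω → Prop) : Prop where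
  bw : Co0 F c sg x (w - w₀) w g₂ ψH₂ Ht B
  z2 : ∀ ω, B ω → ∀ j, 2 ≤ j →
    |2 ^ g 3 / 2 ^ g 0 * (gq F c g W (W - w₀) ψH Ht (slam F W ω) 0).coeff j| ≤
      1 / 2 ^ (s + 230 * x)

section

variable {F : Fam m J} {c : ℕ → Fin m} {D w₀ w W x s sg q q₀ q₁ k k₂ e₀ e₃ : ℕ}
    {g₂ g : ℕ → ℕ} {B : F.Ω → Prop}
    {Ht : LnT F → MvPolynomial (Option (Fin m)) ℝ}
    {ψ₂ ψ Sv : PtT F → ℕ → Option (Fin m) → ℝ} {ψH₂ ψH : LnT F → ℕ → Option (Fin m) → ℝ}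
    {hD : ∀ s, (Ht s).totalDegree ≤ D}

theorem CoY.bW (C : CoY F c s x sg w₀ w W g₂ g ψH₂ ψH Ht B) :
    Co0 F c s x (W - w₀) W g ψH Ht B where
  c2 := fun ω hω => (C.z2 ω hω 2 le_rfl).trans (by
    rw [div_le_iff₀ (by positivity), ← pow_add]
    exact one_le_pow₀ (by norm_num))
  c3 := fun ω hω j hj => C.z2 ω hω j (by omega)

theorem CoY.d2 (C : CoY F c s x sg w₀ w W g₂ g ψH₂ ψH Ht B) :
    Cd2 F c s x sg (W - w₀) w W g₂ g ψH Ht B :=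
  Or.inr fun ω hω => C.z2 ω hω 2 le_rfl

/-- The coefficient of the target in the direction of `V0` is small. -/
theorem CoY.tn (C : CoY F c s x sg w₀ w W g₂ g ψH₂ ψH Ht B) (hx : 1 ≤ x) {ω : F.Ω} (hω : B ω) :
    |Tn F c g W (W - w₀) ψH Ht ω| ≤ 1 / 2 ^ (s + 200 * x) := by
  have h1 := C.z2 ω hω 2 le_rfl
  unfold Tn Tc
  have e1 : 2 ^ g 3 / 2 ^ g 0 * (4 * (gq F c g W (W - w₀) ψH Ht (slam F W ω) 0).coeff 2) =
      4 * (2 ^ g 3 / 2 ^ g 0 * (gq F c g W (W - w₀) ψH Ht (slam F W ω) 0).coeff 2) := by ring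
  rw [e1, abs_mul, abs_of_pos (by norm_num : (0 : ℝ) < 4)]
  have h2 : (4 : ℝ) * (1 / 2 ^ (s + 230 * x)) ≤ 1 / 2 ^ (s + 200 * x) := by
    rw [mul_one_div, div_le_div_iff₀ (by positivity) (by positivity), one_mul,
      show (4 : ℝ) = 2 ^ 2 by norm_num, ← pow_add]
    exact two_le (by omega)
  linarith

/-- Less digits. -/
theorem hpn_le {s' Mg b a' : ℕ} {g₁ gb g' : ℕ → ℕ} (N : HpN x s Mg w₀ W b a' g₁ g gb g')
    (h : s' ≤ s) : HpN x s' Mg w₀ W b a' g₁ g gb g' where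
  x1 := N.x1
  wW := N.wW
  up := N.up
  upj := N.upj
  dn := N.dn
  dnj := N.dnj
  dp := fun i h1 h2 => by
    have := N.dp i h1 h2
    omega
  nu := by
    have := N.nu
    omega
  nl := fun i h1 h2 => by
    have := N.nl i h1 h2
    omega
  th := N.th
  rw := by
    have := N.rw
    omega
  ve := by
    have := N.ve
    omega
  b1 := N.b1
  s1 := fun i h1 h2 => by
    have := N.s1 i h1 h2
    omega

/-- **The coefficients of the label** at the window of the block, same own data. -/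
theorem nG_y (N : BkM x s sg q q₀ q₁ w W g₂ g) (hc : Set.InjOn c (Set.Iio 3)) (hW : W ≤ J)
    (hw₀ : w₀ ≤ w) (hDx : ((D : ℝ) + 1) * 2 ^ D ≤ 2 ^ x)
    (h₂ : WFr F c 4 w k₂ e₃ g₂ B ψ₂ ψH₂ Sv) (h : WFr F c 4 W k e₀ g B ψ ψH Sv) (hk₂ : k₂ ≤ x)
    (hk : k ≤ x) (hQ : ∀ s, DepC c 3 (Ht s))
    (hd2 : Cd2 F c s x sg (W - w₀) w W g₂ g ψH Ht B) {ω ω' : F.Ω} (hω : B ω) (hω' : B ω')
    (e1 : ψH (slam F W ω) = ψH (slam F W ω')) (e2 : ψH₂ (slam F w ω) = ψH₂ (slam F w ω'))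
    (e3 : F.T1 W ω = F.T1 W ω')
    (ee : cG (hdt2 F c g₂ w (w - w₀) 3 D q₀ q sg ψH₂ Ht hD) w ω =
      cG (hdt2 F c g₂ w (w - w₀) 3 D q₀ q sg ψH₂ Ht hD) w ω') :
    ∀ l < 3, ∀ j, (j = 1 ∧ 1 ≤ l) ∨ (j = 2 ∧ l = 0) →
      |2 ^ g 3 / 2 ^ g l * (4 * ((gq F c g W (W - w₀) ψH Ht (slam F W ω) l).coeff j -
        (gq F c g W (W - w₀) ψH Ht (slam F W ω') l).coeff j))| ≤ 2 ^ (150 * x) / 2 ^ s := by
  intro l hl j hj
  have hx := N.x1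
  by_cases hsm : (j = 2 ∧ l = 0) ∧ ¬ (g 3 + g₂ 0 + s ≤ g₂ 3 + g 0 + sg + 2 * (W - w) + x)
  · obtain ⟨⟨rfl, rfl⟩, hn⟩ := hsm
    rcases hd2 with h0 | h0
    · exact absurd h0 hn
    · have a1 := h0 ω hω
      have a2 := h0 ω' hω'
      have a3 : (1 : ℝ) / 2 ^ (s + 230 * x) * 8 ≤ 2 ^ (150 * x) / 2 ^ s := by
        rw [one_div_mul_eq_div, div_le_div_iff₀ (by positivity) (by positivity)]
        calc (8 : ℝ) * 2 ^ s = 2 ^ (3 + s) := by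
              rw [pow_add]
              norm_num
          _ ≤ 2 ^ (150 * x + (s + 230 * x)) := two_le (by omega)
          _ = _ := by rw [pow_add]
      have e4 : 2 ^ g 3 / 2 ^ g 0 * (4 * ((gq F c g W (W - w₀) ψH Ht (slam F W ω) 0).coeff 2 -
          (gq F c g W (W - w₀) ψH Ht (slam F W ω') 0).coeff 2)) =
          4 * (2 ^ g 3 / 2 ^ g 0 * (gq F c g W (W - w₀) ψH Ht (slam F W ω) 0).coeff 2) -
          4 * (2 ^ g 3 / 2 ^ g 0 * (gq F c g W (W - w₀) ψH Ht (slam F W ω') 0).coeff 2) := by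
        ring
      rw [e4]
      refine (abs_sub _ _).trans ?_
      have e5 : ∀ y : ℝ, |4 * y| = 4 * |y| := fun y => by
        rw [abs_mul, abs_of_pos (by norm_num : (0 : ℝ) < 4)]
      rw [e5, e5]
      linarith
  have hd2' : j = 2 ∧ l = 0 → g 3 + g₂ 0 + s ≤ g₂ 3 + g 0 + sg + 2 * (W - w) + x := fun h => by
    by_contra hn
    exact hsm ⟨h, hn⟩
  clear hsm
  obtain ⟨i, rfl⟩ : ∃ i, j = i + 1 := ⟨j - 1, by omega⟩
  have hN := (nr_two (h₂.nr ω hω) (h.nr ω hω) hk₂ hk N.up N.upj).1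
  rw [h₂.fr.cls ω hω, h.fr.cls ω hω] at hN
  have h5 := gq_coeff_sub (g := g) (g₁ := g₂) (W := W) (n := W - w₀) (w := w) (n₁ := w - w₀)
    hc N.wW hW (ω := ω) (ω' := ω') (h.fr.depH _) (h₂.fr.depH _) (h₂.fr.depH _) hQ hD
    (by omega) (by omega) (by have := N.wW; omega) (by positivity) e1 e2 e3 hN
    (fun l hl j => cG_near (q₀ := q₀) (q := q) ee l hl j) hl i
  obtain ⟨Δ, hΔ⟩ : ∃ Δ : ℝ, Δ = (gq F c g W (W - w₀) ψH Ht (slam F W ω) l).coeff (i + 1) -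
    (gq F c g W (W - w₀) ψH Ht (slam F W ω') l).coeff (i + 1) := ⟨_, rfl⟩
  rw [← hΔ] at h5 ⊢
  have h2 : 3 * (((D : ℝ) + 1) * 2 ^ D * (1 + 2 ^ (12 * x + 8)) ^ 3) ≤ 2 ^ (66 * x) := by
    calc 3 * (((D : ℝ) + 1) * 2 ^ D * (1 + 2 ^ (12 * x + 8)) ^ 3) ≤
        2 ^ (2 * x) * (2 ^ x * 2 ^ (63 * x)) := by
          have h3 : (3 : ℝ) ≤ 2 ^ (2 * x) := by
            calc (3 : ℝ) ≤ 2 ^ 2 := by norm_num
              _ ≤ 2 ^ (2 * x) := two_le (by omega)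
          have h4 := pw3 x hx
          gcongr
      _ = 2 ^ (66 * x) := by
          rw [← pow_add, ← pow_add]
          congr 1
          ring
  have h6 : |Δ| ≤ 2 ^ (66 * x) * (1 / 2 ^ (g₂ 3 + sg)) *
      (2 ^ g₂ l / 2 ^ ((i + 1) * (W - w))) := by
    refine h5.trans ?_
    gcongr
  rw [abs_mul, abs_mul, abs_of_pos (by positivity : (0 : ℝ) < 2 ^ g 3 / 2 ^ g l),
    abs_of_pos (by norm_num : (0 : ℝ) < 4)]
  have h7 : (2 : ℝ) ^ g 3 / 2 ^ g l * (4 * (2 ^ (66 * x) * (1 / 2 ^ (g₂ 3 + sg)) *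
      (2 ^ g₂ l / 2 ^ ((i + 1) * (W - w))))) =
      2 ^ (g 3 + 2 + 66 * x + g₂ l) / 2 ^ (g l + (g₂ 3 + sg) + (i + 1) * (W - w)) := by
    rw [show (4 : ℝ) = 2 ^ 2 by norm_num]
    simp only [pow_add]
    field_simp
  refine (mul_le_mul_of_nonneg_left (mul_le_mul_of_nonneg_left h6 (by norm_num))
    (by positivity)).trans ?_
  rw [h7, div_le_div_iff₀ (by positivity) (by positivity), ← pow_add, ← pow_add]
  refine two_le ?_
  rcases hj with ⟨h8, h9⟩ | ⟨h8, h9⟩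
  · have h10 := N.d1 l h9 (by omega)
    obtain rfl : i = 0 := by omega
    omega
  · have h10 := hd2' ⟨h8, h9⟩
    subst h9
    obtain rfl : i = 1 := by omega
    omega

/-- **The velocity** at the window of the block, same own data. -/
theorem nE_y (N : BkM x s sg q q₀ q₁ w W g₂ g) (hw : w ≤ J)
    (h₂ : WFr F c 4 w k₂ e₃ g₂ B ψ₂ ψH₂ Sv) (h : WFr F c 4 W k e₀ g B ψ ψH Sv)
    {ω ω' : F.Ω} (hω : B ω) (hω' : B ω')
    (e1 : ψ (ptr F J ω) = ψ (ptr F J ω')) (e2 : ψH₂ (slam F w ω) = ψH₂ (slam F w ω'))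
    (ee : eC (hdt2 F c g₂ w (w - w₀) 3 D q₀ q sg ψH₂ Ht hD) w (g₂ 0 + q₁) ω =
      eC (hdt2 F c g₂ w (w - w₀) 3 D q₀ q sg ψH₂ Ht hD) w (g₂ 0 + q₁) ω') :
    |Xn F c g W ψ ω 1 - Xn F c g W ψ ω' 1| ≤ 2 ^ (150 * x) / 2 ^ s := by
  have hx := N.x1
  obtain ⟨d, hd⟩ : ∃ d, d = hdt2 F c g₂ w (w - w₀) 3 D q₀ q sg ψH₂ Ht hD := ⟨_, rfl⟩
  rw [← hd] at ee
  have h6 : |d.e w 0 ω - d.e w 0 ω'| ≤ 1 / 2 ^ (g₂ 0 + q₁) := fl_near (by positivity) ee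
  have h7 : ∀ ν : F.Ω, d.e w 0 ν = 1 / 2 ^ (w + 1) * (bd F ν (some (c 0)) -
      cv (ψH₂ (slam F w ν) 0) (bd F ν)) := fun ν => by
    have h8 := fdat_e (F := F) (c := c) (g := g₂) (n := w - w₀) (r := 3) (D := D) (ψH := ψH₂)
      (Ht := Ht) (hD := hD) (SV := d.SV) (SE := d.SE) (SG := d.SG) hw 0 ν
    rw [if_pos (by norm_num : 0 < 3)] at h8
    rw [← h8, hd]
    rfl
  have hcv : ∀ χ : Option (Fin m) → ℝ, CvC c 0 χ → ∀ ν ν' : F.Ω, cv χ (bd F ν) = cv χ (bd F ν') :=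
    fun χ hχ ν ν' => cv_congr hχ rfl (fun j hj => absurd hj (by omega))
  have h9 : d.e w 0 ω - d.e w 0 ω' = 1 / 2 ^ (w + 1) *
      (bd F ω (some (c 0)) - bd F ω' (some (c 0))) := by
    rw [h7, h7, ← e2, hcv _ (h₂.fr.depH _ 0) ω ω']
    ring
  have h10 : Xn F c g W ψ ω 1 - Xn F c g W ψ ω' 1 = 2 ^ g 0 * (1 / 2 ^ W *
      (bd F ω (some (c 0)) - bd F ω' (some (c 0)))) := by
    unfold Xn
    rw [← e1, eta_smul, eta_smul]
    have f1 : ∀ V, eta c g W (ψ (ptr F J ω)) V 1 = 2 ^ g 0 * (V (some (c 0)) -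
        cv (ψ (ptr F J ω) 0) V) := fun V => rfl
    rw [f1, f1, hcv _ (h.fr.dep _ 0) ω ω']
    ring
  have h11 : Xn F c g W ψ ω 1 - Xn F c g W ψ ω' 1 =
      2 ^ (g 0 + w + 1) / 2 ^ W * (d.e w 0 ω - d.e w 0 ω') := by
    rw [h9, h10, pow_add, pow_add, pow_add]
    field_simp
  rw [h11, abs_mul, abs_of_pos (by positivity)]
  refine (mul_le_mul_of_nonneg_left h6 (by positivity)).trans ?_
  rw [mul_one_div, div_div, div_le_div_iff₀ (by positivity) (by positivity), ← pow_add,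
    ← pow_add, ← pow_add]
  have := N.e1
  exact two_le (by omega)

end

section

variable {F : Fam m J} {c : ℕ → Fin m} {D x e₀ sg w₀ w W b a' : ℕ}
    {g₁ g₂ g gb g' gT : ℕ → ℕ} {kG M v v' e p : ℕ} {U : ℝ} {B : F.Ω → Prop}
    {ψ₁ ψ₂ ψ ψ' Sv : PtT F → ℕ → Option (Fin m) → ℝ}
    {ψH₁ ψH₂ ψH ψH' : LnT F → ℕ → Option (Fin m) → ℝ}
    {Ga Gc G' : PtT F → ℕ → MvPolynomial (Option (Fin m)) ℝ}
    {Ha Hc H' : LnT F → ℕ → MvPolynomial (Option (Fin m)) ℝ}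
    {T : PtT F → ℕ → MvPolynomial (Option (Fin m)) ℝ}
    {TH : LnT F → ℕ → MvPolynomial (Option (Fin m)) ℝ}
    {Ht : LnT F → MvPolynomial (Option (Fin m)) ℝ}
    {Va Vb : Type} {za : PtT F → Va} {zaH : LnT F → Va} {zb : PtT F → Vb} {zbH : LnT F → Vb}

/-- **The own data are free** of the visible record. -/
theorem free_y (H : HbG F c D x e₀ sg w₀ w W b a' g₁ g₂ g gb g' gT kG M v v' e p U B ψ₁ ψ₂ ψ ψ'
    Sv ψH₁ ψH₂ ψH ψH' Ga Gc G' Ha Hc H' T TH Ht) (hD : ∀ s, (Ht s).totalDegree ≤ D)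
    {q q₀ q₁ s Mg : ℕ} (N : HpN x s Mg w₀ W b a' g₁ g gb g')
    (hwW : w ≤ W) (hq01 : q₀ ≤ q₁) (hs : 1 ≤ s) (hWb : W + s ≤ b)
    (h0 : g 0 + s ≤ gb 0 + x) (hJ : ∀ j < 3, e₀ + gb j ≤ J)
    (hz : Rcd F B W za zaH) (hzb : Rcd F B b zb zbH) {P : F.Ω → ℝ} (hp : IsLaw P)
    (hB : ∀ ω, 0 < P ω → B ω) {y y₁ : ℝ}
    (hT : ((J - W : ℕ) : ℝ) * Real.log 2 - y ≤ CH P F.T (slam F W))
    (free : CH P (fun ω => (eC (hdt2 F c g₂ w (w - w₀) 3 D q₀ q sg ψH₂ Ht hD) w (g₂ 0 + q₁) ω,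
        cG (hdt2 F c g₂ w (w - w₀) 3 D q₀ q sg ψH₂ Ht hD) w ω))
        (fun ω => (za (ptr F J ω), F.W ω)) ≤
      CH P (fun ω => (eC (hdt2 F c g₂ w (w - w₀) 3 D q₀ q sg ψH₂ Ht hD) w (g₂ 0 + q₁) ω,
        cG (hdt2 F c g₂ w (w - w₀) 3 D q₀ q sg ψH₂ Ht hD) w ω))
        (fun ω => (zb (ptr F J ω), F.W ω)) + y₁)
    {f : PtT F → Vb × (ℤ × ℤ)} (hf : ∀ (E : Type) (X : F.Ω → E),
      CH P X (fun ω => f (ptr F J ω)) =
        CH P X (fun ω => (uB F c g W s ψ P zaH ω, zb (ptr F J ω)))) :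
    CH P (fun ω => eL (hdt2 F c g₂ w (w - w₀) 3 D q₀ q sg ψH₂ Ht hD) w W (g₂ 0 + q₁)
        (slam F W ω)) (fun ω => zaH (slam F W ω)) ≤
      CH P (fun ω => eL (hdt2 F c g₂ w (w - w₀) 3 D q₀ q sg ψH₂ Ht hD) w W (g₂ 0 + q₁)
        (slam F W ω)) (fun ω => f (ptr F J ω)) +
        (y + y₁ + (127 * x + 198 : ℕ) * Real.log 2) := by
  have hW := H.hA.aJ
  obtain ⟨d, hd⟩ : ∃ d, d = hdt2 F c g₂ w (w - w₀) 3 D q₀ q sg ψH₂ Ht hD := ⟨_, rfl⟩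
  rw [← hd] at free ⊢
  have e1 : ∀ ω, eL d w W (g₂ 0 + q₁) (slam F W ω) = (eR d w ω, eC d w (g₂ 0 + q₁) ω) :=
    fun ω => eL_slam _ hwW hW _ ω
  simp only [e1]
  rw [hf]
  have e2 : CH P (fun ω => (eR d w ω, eC d w (g₂ 0 + q₁) ω)) (fun ω => zaH (slam F W ω)) =
      CH P (fun ω => (eR d w ω, eC d w (g₂ 0 + q₁) ω)) (fun ω => za (ptr F J ω)) :=
    CH_sup hp.nonneg (fun _ _ => rfl) (fun ω hω => (hz.cls ω (hB ω hω)).symm)
  rw [e2]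
  have hcv : ∀ ω ω', eC d w (g₂ 0 + q₁) ω = eC d w (g₂ 0 + q₁) ω' → cV d w ω = cV d w ω' := by
    intro ω ω' e
    have h2 : d.SE 0 = (2 : ℝ) ^ (g₂ 0 + q₀) := by
      rw [hd]
      rfl
    unfold cV
    rw [h2]
    exact Pool.D2N.fl_coarse (by omega) e
  have e3 : ∀ (S : Type) (Z : F.Ω → S),
      CH P (fun ω => (eR d w ω, eC d w (g₂ 0 + q₁) ω)) Z =
        CH P (fun ω => (eC d w (g₂ 0 + q₁) ω, cG d w ω)) Z := by
    intro S Z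
    refine CH_congr hp.nonneg (fun ω ω' _ _ e => ?_) (fun ω ω' _ _ e => ?_)
      (fun _ _ _ _ e => e) (fun _ _ _ _ e => e)
    · obtain ⟨h2, -⟩ := Prod.mk.inj e
      obtain ⟨h3, h4⟩ := Prod.mk.inj h2
      exact Prod.ext h4 (Prod.ext_iff.1 h3).2
    · obtain ⟨h2, -⟩ := Prod.mk.inj e
      obtain ⟨h3, h4⟩ := Prod.mk.inj h2
      exact Prod.ext (Prod.ext (hcv ω ω' h3) h4) h3
  rw [← e3, ← e3] at free
  have h5 := free_of hp (za := fun ω => za (ptr F J ω)) (zb := fun ω => zb (ptr F J ω))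
    (e := fun ω => (eR d w ω, eC d w (g₂ 0 + q₁) ω)) (u := uB F c g W s ψ P zaH) hT
    (fun ω ω' hω hω' e => (hz.tz (hB ω hω) (hB ω' hω') e).symm) (fun ω ω' hω hω' e => by
      refine Prod.ext ?_ ?_
      · have h6 := congrArg (eL d w W (g₂ 0 + q₁)) e
        rw [e1, e1] at h6
        exact h6
      · change za (ptr F J ω) = za (ptr F J ω')
        rw [hz.cls ω (hB ω hω), hz.cls ω' (hB ω' hω'), e]) free
    (H.ufew N hs hWb h0 hJ hz hzb hp hB)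
  exact h5

end

end Pool.KPO
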