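import Pool.Agent.H31.D2.Kp16
import Pool.Agent.H3.D2G.RecJ

/-!
# The cell [one, thin, thin], target at the place three

`cellQ_ott`, `cellQK_ott`: the class theorem of the cell for all slopes without the tie
`Sl 1 = Sl 2 = Sl 3 - 1`.
-/

set_option autoImplicit false

namespace Pool.KPO

open Pool.Agent.H49.Ent Pool.Agent.H32.Dense Pool.STK Pool.KA Pool.KSAT Pool.K2S Pool.PB Pool.S6C
open Pool.PKG (RecQ CellQ CellQK Kd)

/-- **The cell [one, thin, thin]**, no tie. -/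
theorem cellQ_ott {n : ℕ} {Sl : ℕ → ℝ} {κ : ℕ → Kd} (h0 : κ 0 = .one) (h1 : κ 1 = .thin)
    (h2 : κ 2 = .thin) (hne : Sl 1 ≠ Sl 3 - 1 ∨ Sl 2 ≠ Sl 3 - 1) : CellQ n 3 Sl κ := by
  intro del _ S₀ hS₀
  have hkd : ∀ l < 3, κ l = .one ∨ κ l = .thin := by
    intro l hl
    interval_cases l
    · exact Or.inl h0
    · exact Or.inr h1
    · exact Or.inr h2
  by_cases h : Sl 0 = 1 ∧ 1 < Sl 1 ∧ 1 < Sl 2 ∧ 2 < Sl 3
  · obtain ⟨hs0, hs1, hs2, hs3⟩ := h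
    obtain ⟨l₀, hl1, hl3, hl⟩ : ∃ l₀ : ℕ, 1 ≤ l₀ ∧ l₀ < 3 ∧
        ∀ i < 3, i ≠ l₀ → Sl i ≠ Sl 3 - 1 := by
      by_cases h5 : Sl 2 = Sl 3 - 1
      · have h4 : Sl 1 ≠ Sl 3 - 1 := hne.resolve_right fun h => h h5
        refine ⟨2, by norm_num, by norm_num, fun i hi hil => ?_⟩
        interval_cases i
        · rw [hs0]
          intro h6
          linarith
        · exact h4
        · exact absurd rfl hil
      · refine ⟨1, le_rfl, by norm_num, fun i hi hil => ?_⟩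
        interval_cases i
        · rw [hs0]
          intro h6
          linarith
        · exact absurd rfl hil
        · exact h5
    obtain ⟨K, N, A, V, k1, k2, H⟩ := kap_cls n hs0 hs1 hs2 hs3 hl1 hl3 hl S₀ hS₀
    refine ⟨K, N, A, V, k1, k2, fun S₂ hS₂ => ?_⟩
    obtain ⟨N', V', k3, ε, hε, H⟩ := H S₂ hS₂
    exact ⟨N', V', k3, ε, hε, fun S P P₂ θ θ₂ c Pt L T Eb e₂ q t R => (H hkd R).elim⟩
  · refine ⟨1, 0, fun _ => 0, fun _ => 0, le_rfl, fun k hk => absurd hk (Nat.not_lt_zero k),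
      fun S₂ _ => ⟨0, fun _ => 0, fun k hk => absurd hk (Nat.not_lt_zero k), 1, one_pos,
      fun S P P₂ θ θ₂ c Pt L T Eb e₂ q t R => absurd ?_ h⟩⟩
    have a0 := R.kd 0 (by norm_num)
    have a1 := R.kd 1 (by norm_num)
    have a2 := R.kd 2 (by norm_num)
    rw [h0] at a0
    rw [h1] at a1
    rw [h2] at a2
    exact ⟨a0, a1.1, a2.1, R.s2⟩

/-- **The cell [one, thin, thin]**, no tie. -/
theorem cellQK_ott {n : ℕ} {Sl : ℕ → ℝ} (hne : Sl 1 ≠ Sl 3 - 1 ∨ Sl 2 ≠ Sl 3 - 1) :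
    CellQK n 3 Sl (fun l => [Kd.one, Kd.thin, Kd.thin].getD l Kd.one) :=
  (cellQ_ott rfl rfl rfl hne).k

end Pool.KPO
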