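import Pool.Agent.H31.D2.Ry9
import Pool.Agent.H90.D2.Hie
import Pool.Agent.H12.TY.Sel
import Pool.Agent.H12.TY.Grd

/-!
# The tie cell `(1,k,k;k+1)`, `k > 2`: the block theorem on the grid

`lvh_y`: the levels of the grid. `sel_y`: the unit and the two scales. `blkG_gt`: the block theorem
on the grid for `2 < κ`, from `hop_win_y`.
-/

set_option autoImplicit false

namespace Pool.D2N

open Finset Real MvPolynomial
open Pool.Agent.H49.Ent Pool.Agent.H32.Dense Pool.STK Pool.KA Pool.KSAT Pool.K2S Pool.PB Pool.S6C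
open Pool.GEN Pool.CHT Pool.CHX Pool.LA91
open Pool.LBT (ThrOf)
open Pool.ALL (RateOf)
open Pool.D2F Pool.D2Z Pool.D2F2
open Pool.D2R (dd hs co co_slam ROutB ROut1)
open Pool.PKG (RecG Kg kgL)
open Pool.M3F (ExvY)
open Pool.KPO (HpG HpS CoY hop_win_y coy_cls coy_of)
open Pool.TY12 (sel_mesh g0_le grd_gw lv16)

/-- The levels of the grid, as functions of the windows. -/
theorem lvh_y {Sl : ℕ → ℝ} {κ t q : ℝ} {L : ℕ → ℝ → ℝ → ℝ} {nd J x k : ℕ} {g : ℕ → ℕ}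
    (h0 : Sl 0 = 1) (h1 : Sl 1 = κ) (h2 : Sl 2 = κ) (h3 : Sl 3 = κ + 1) (hκ : 1 < κ) (hq : 0 < q)
    (ht : 0 ≤ t)
    (h : ∀ l ≤ 3, 16 * |(g l : ℝ) - (L l t t + Sl l * (k / nd * q)) * J| ≤ x) :
    LvH Sl (x / 16 + (κ + 1)) (fun l => L l t t * J - Sl l * (t * J)) (wG t q nd J k) g := by
  intro l hl
  have hJ : (0 : ℝ) ≤ J := Nat.cast_nonneg J
  have e1 := h l hl
  have e2 : (wG t q nd J k : ℝ) ≤ (t + k / nd * q) * J := Nat.floor_le (by positivity)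
  have e3 : (t + k / nd * q) * J ≤ wG t q nd J k + 1 := (Nat.lt_floor_add_one _).le
  have s : 0 ≤ Sl l ∧ Sl l ≤ κ + 1 := by
    interval_cases l
    · rw [h0]; constructor <;> linarith
    · rw [h1]; constructor <;> linarith
    · rw [h2]; constructor <;> linarith
    · rw [h3]; constructor <;> linarith
  have e4 := mul_le_mul_of_nonneg_left e2 s.1
  have e5 := mul_le_mul_of_nonneg_left e3 s.1
  have e6 : |(g l : ℝ) - (L l t t + Sl l * (k / nd * q)) * J| ≤ x / 16 := by linarith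
  rw [abs_le] at e6 ⊢
  constructor <;> linarith [e6.1, e6.2]

/-- **The unit and the two scales**: the constants depend on `al`, `κ` only; the scales and the unit
depend on the class and on `q`. -/
theorem sel_y {al κ : ℝ} (hal : 0 < al) (hκ2 : 2 < κ) : ∃ σ₀ : ℝ, 0 < σ₀ ∧ σ₀ ≤ 1 / 2 ∧
    ∃ r₀ : ℝ, 0 < r₀ ∧ r₀ ≤ 2 * σ₀ * rAc al ∧ ∀ U : ℝ, 0 < U → ∃ u₀ : ℝ, 0 < u₀ ∧
    ∀ {g₀ : ℝ → ℝ}, (∀ ε : ℝ, 0 < ε → 0 < g₀ ε) → ∃ q₂ : ℝ, 0 < q₂ ∧
    ∀ {N : ℚ → ℚ → ℝ}, ActM N al g₀ → ∀ {q : ℝ}, 0 < q → q < q₂ → ∃ (u : ℝ) (θ₁ θ₂ x₀ : ℚ),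
      u₀ ≤ u ∧ u ≤ U ∧ u * q = (κ - 1) * θ₂ ∧ 0 ≤ θ₁ ∧ 0 ≤ θ₂ ∧ 0 < x₀ ∧
      (θ₁ : ℝ) + x₀ ≤ U * q ∧ (θ₂ : ℝ) + x₀ ≤ U * q ∧
      al / 2 * x₀ ≤ N θ₁ (θ₁ + x₀) ∧ al / 2 * x₀ ≤ N θ₂ (θ₂ + x₀) ∧
      r₀ * (u * q) ≤ al * Real.log 2 / 4 * x₀ ∧ σ₀ * (u * q) ≤ x₀ / 2 ∧ u₀ * q ≤ x₀ ∧
      10 * (x₀ : ℝ) ≤ θ₁ ∧ 10 * (x₀ : ℝ) ≤ (κ - 2) * θ₁ ∧ (θ₁ : ℝ) + 10 * x₀ ≤ (κ - 2) * θ₂ ∧
      (θ₁ : ℝ) + x₀ ≤ θ₂ := by
  have hl2 : 0 < Real.log 2 := Real.log_pos one_lt_two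
  have hκ1 : 0 < κ - 1 := by linarith
  have hκ20 : 0 < κ - 2 := by linarith
  obtain ⟨C, hC⟩ : ∃ C : ℝ, C = 10 + 10 / (κ - 2) := ⟨_, rfl⟩
  have hC1 : 10 ≤ C := by
    rw [hC]
    have : 0 ≤ 10 / (κ - 2) := div_nonneg (by norm_num) (by linarith)
    linarith
  have hC2 : 10 ≤ (κ - 2) * C := by
    have h1 : (κ - 2) * C = 10 * (κ - 2) + 10 := by
      rw [hC]
      field_simp
    rw [h1]
    linarith
  obtain ⟨Ms, hMs, εs, hεs, hsel⟩ := sel_mesh hal hκ20 C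
  have hMsR : (1 : ℝ) ≤ Ms := by exact_mod_cast hMs
  have hMs0 : (0 : ℝ) < Ms := by linarith
  obtain ⟨W, hW⟩ : ∃ W : ℝ, W = (κ - 1) * Ms := ⟨_, rfl⟩
  have hW1 : 1 ≤ W := by
    rw [hW]
    have : 1 * 1 ≤ (κ - 1) * (Ms : ℝ) := mul_le_mul (by linarith) hMsR (by norm_num) hκ1.le
    linarith
  have hW0 : 0 < W := by linarith
  obtain ⟨σ₀, hσ⟩ : ∃ σ₀ : ℝ, σ₀ = 1 / (2 * W) := ⟨_, rfl⟩
  have hσ0 : 0 < σ₀ := by
    rw [hσ]
    positivity
  have hσW : σ₀ * W = 1 / 2 := by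
    rw [hσ]
    field_simp
  have hσ1 : σ₀ ≤ 1 / 2 := by
    have := le_mul_of_one_le_right hσ0.le hW1
    linarith
  have hrA := rAc_pos hal
  obtain ⟨r₀, hr₀⟩ : ∃ r₀ : ℝ, r₀ = min (2 * σ₀ * rAc al) (al * Real.log 2 / 4 / W) := ⟨_, rfl⟩
  have hr0 : 0 < r₀ := by
    rw [hr₀]
    exact lt_min (by positivity) (by positivity)
  have hr1 : r₀ ≤ 2 * σ₀ * rAc al := by
    rw [hr₀]
    exact min_le_left _ _
  have hr2 : r₀ * W ≤ al * Real.log 2 / 4 := by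
    have h1 : r₀ ≤ al * Real.log 2 / 4 / W := by
      rw [hr₀]
      exact min_le_right _ _
    rwa [le_div_iff₀ hW0] at h1
  refine ⟨σ₀, hσ0, hσ1, r₀, hr0, hr1, fun U hU => ?_⟩
  -- the bound of the unit
  obtain ⟨U', hU'⟩ : ∃ U' : ℝ, U' = U / κ := ⟨_, rfl⟩
  have hκ0 : 0 < κ := by linarith
  have hU'0 : 0 < U' := by
    rw [hU']
    positivity
  have hU'1 : κ * U' = U := by
    rw [hU']
    field_simp
  have hU'2 : U' ≤ U := by
    have := le_mul_of_one_le_left hU'0.le (show 1 ≤ κ by linarith)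
    linarith
  refine ⟨U' / (2 * Ms), by positivity, fun {g₀} hg₀ => ⟨g₀ εs / U', div_pos (hg₀ _ hεs) hU'0,
    fun {N} hN {q} hq hq2 => ?_⟩⟩
  have hqg : U' * q < g₀ εs := by
    rw [lt_div_iff₀ hU'0] at hq2
    linarith
  obtain ⟨gs, hg1, hg2⟩ := exists_rat_btwn (show U' * q / 2 < U' * q by
    have : 0 < U' * q := by positivity
    linarith)
  have hgs : (0 : ℝ) < gs := lt_trans (by positivity) hg1
  have hgsq : (0 : ℚ) < gs := by exact_mod_cast hgs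
  obtain ⟨i', i, hi, c1, c2, c3, n1, n2⟩ := hsel hN gs hgsq (hg2.trans hqg).le
  have hMsq : (0 : ℚ) < Ms := by exact_mod_cast hMs
  obtain ⟨x₀, hx₀⟩ : ∃ x₀ : ℚ, x₀ = gs / Ms := ⟨_, rfl⟩
  have hx₀0 : 0 < x₀ := by
    rw [hx₀]
    positivity
  have hxR0 : (0 : ℝ) < x₀ := by exact_mod_cast hx₀0
  have hxR : (x₀ : ℝ) = (gs : ℝ) / Ms := by
    rw [hx₀]
    push_cast
    rfl
  have hxM : (x₀ : ℝ) * Ms = gs := by
    rw [hxR]
    field_simp
  rw [← hx₀, ← hxR] at n1 n2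
  have e1 : ((i' : ℚ) + 1) * x₀ = i' * x₀ + x₀ := by ring
  have e2 : ((i : ℚ) + 1) * x₀ = i * x₀ + x₀ := by ring
  rw [e1] at n1
  rw [e2] at n2
  have hiR : (i : ℝ) + 1 ≤ Ms := by exact_mod_cast hi
  have c3R : (i' : ℝ) + 1 ≤ i := by exact_mod_cast c3
  have hi1 : (1 : ℝ) ≤ i := by
    have : (0 : ℝ) ≤ i' := Nat.cast_nonneg _
    linarith
  have m1 : ((i : ℝ) + 1) * x₀ ≤ Ms * x₀ := mul_le_mul_of_nonneg_right hiR hxR0.le
  have m2 : ((i' : ℝ) + 1) * x₀ ≤ i * x₀ := mul_le_mul_of_nonneg_right c3R hxR0.le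
  have m3 : 1 * (x₀ : ℝ) ≤ i * x₀ := mul_le_mul_of_nonneg_right hi1 hxR0.le
  have m4 : 10 * (x₀ : ℝ) ≤ i' * x₀ := mul_le_mul_of_nonneg_right (hC1.trans c1) hxR0.le
  have m5 : 10 * (x₀ : ℝ) ≤ (κ - 2) * i' * x₀ := mul_le_mul_of_nonneg_right
    (hC2.trans (mul_le_mul_of_nonneg_left c1 hκ20.le)) hxR0.le
  have m6 : ((i' : ℝ) + 10) * x₀ ≤ (κ - 2) * i * x₀ := mul_le_mul_of_nonneg_right
    (by linarith) hxR0.le
  have hq' : q ≠ 0 := hq.ne'
  refine ⟨(κ - 1) * (i * x₀) / q, i' * x₀, i * x₀, x₀, ?_, ?_, ?_, by positivity, by positivity,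
    hx₀0, ?_, ?_, n1, n2, ?_, ?_, ?_, ?_, ?_, ?_, ?_⟩
  · -- lower bound of the unit
    rw [le_div_iff₀ hq]
    have h1 : U' / (2 * Ms) * q ≤ x₀ := by
      rw [div_mul_eq_mul_div, div_le_iff₀ (by positivity)]
      linarith
    have h2 : (i : ℝ) * x₀ ≤ (κ - 1) * (i * x₀) := le_mul_of_one_le_left (by positivity)
      (by linarith)
    linarith
  · rw [div_le_iff₀ hq]
    have h1 : (κ - 1) * (i * x₀) ≤ κ * (U' * q) := mul_le_mul (by linarith) (by linarith)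
      (by positivity) hκ0.le
    have h2 : κ * (U' * q) = U * q := by
      rw [← mul_assoc, hU'1]
    linarith
  · push_cast
    field_simp
  · push_cast
    have h1 : U' * q ≤ U * q := mul_le_mul_of_nonneg_right hU'2 hq.le
    linarith
  · push_cast
    have h1 : U' * q ≤ U * q := mul_le_mul_of_nonneg_right hU'2 hq.le
    linarith
  · have h1 : (κ - 1) * (i * x₀) / q * q = (κ - 1) * (i * x₀) := by field_simp
    rw [h1]
    have h2 : (κ - 1) * ((i : ℝ) * x₀) ≤ (κ - 1) * (Ms * x₀) :=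
      mul_le_mul_of_nonneg_left (by linarith) hκ1.le
    have h3 := mul_le_mul_of_nonneg_left h2 hr0.le
    have h4 := mul_le_mul_of_nonneg_right hr2 hxR0.le
    rw [hW] at h4
    linarith
  · have h1 : (κ - 1) * (i * x₀) / q * q = (κ - 1) * (i * x₀) := by field_simp
    rw [h1]
    have h2 : (κ - 1) * ((i : ℝ) * x₀) ≤ (κ - 1) * (Ms * x₀) :=
      mul_le_mul_of_nonneg_left (by linarith) hκ1.le
    have h3 := mul_le_mul_of_nonneg_left h2 hσ0.le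
    have h4 : σ₀ * W * x₀ = 1 / 2 * x₀ := by rw [hσW]
    rw [hW] at h4
    linarith
  · rw [div_mul_eq_mul_div, div_le_iff₀ (by positivity)]
    linarith
  · push_cast
    linarith
  · push_cast
    linarith
  · push_cast
    linarith
  · push_cast
    linarith

/-- **The block theorem on the grid**, slopes above two. -/
theorem blkG_gt {κ : ℝ} (hκ2 : 2 < κ) : BlkG κ := by
  intro D hD2 h al hh hh1 hal
  have hκ : 1 < κ := by linarith
  have hl0 : 0 < Real.log 2 := Real.log_pos one_lt_two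
  have hl1 : Real.log 2 ≤ 1 := by
    have := Real.log_two_lt_d9
    linarith
  obtain ⟨σ₀, hσ₀, hσ1, r₀, hr₀, hr1, hUs⟩ := sel_y hal hκ2
  obtain ⟨η₀, hη₀, c₀, hc₀, hw⟩ := hop_win_y (m := 4) hD2 hh hh1 hr₀ hσ₀
  refine ⟨η₀, hη₀, c₀, hc₀, fun n => ?_⟩
  obtain ⟨Ub, hUb⟩ : ∃ Ub : ℝ, Ub = min (uP κ n) ((κ - 2) / 16) := ⟨_, rfl⟩
  have hUb0 : 0 < Ub := by
    rw [hUb]
    exact lt_min (uP_pos hκ n) (by linarith)
  have hUb1 : Ub ≤ uP κ n := by
    rw [hUb]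
    exact min_le_left _ _
  have hUb2 : Ub ≤ (κ - 2) / 16 := by
    rw [hUb]
    exact min_le_right _ _
  obtain ⟨u₀, hu₀, hsel⟩ := hUs Ub hUb0
  obtain ⟨y₀, hy₀⟩ : ∃ y₀ : ℝ, y₀ = min (η₀ * u₀) u₀ / 400000 := ⟨_, rfl⟩
  have hy₀0 : 0 < y₀ := by
    rw [hy₀]
    have : 0 < min (η₀ * u₀) u₀ := lt_min (by positivity) hu₀
    positivity
  have hy₀1 : 400000 * y₀ ≤ η₀ * u₀ := by
    rw [hy₀]
    have := min_le_left (η₀ * u₀) u₀
    linarith
  have hy₀2 : 400000 * y₀ ≤ u₀ := by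
    rw [hy₀]
    have := min_le_right (η₀ * u₀) u₀
    linarith
  refine ⟨u₀, hu₀, y₀, hy₀0, (D + 1) * 2 ^ D + 64 + ⌈100 * (κ + 1)⌉₊, 0, ?_⟩
  intro y A' K' ε nd hy hyy hAK hK8 hε hεy _ hnd S g₀ P θ P₂ θ₂ Eb e₂ c Pt r L T Sl G gg s0 s1 s2 s3
    EX
  by_cases hgp : ∀ ε : ℝ, 0 < ε → 0 < g₀ ε
  swap
  · refine ⟨1, one_pos, ?_⟩
    intro K₀ S₀ N A V S₂ N' V' q t _ R
    exact absurd R.g₀pos hgp
  have hg₁ : 0 < g₀ (min (al / 2) (1 / 2)) := hgp _ (lt_min (by linarith) (by norm_num))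
  obtain ⟨q₂, hq₂, hsel⟩ := hsel hgp
  refine ⟨min 1 (min (g₀ (min (al / 2) (1 / 2))) q₂), lt_min one_pos (lt_min hg₁ hq₂), ?_⟩
  intro K₀ S₀ N A V S₂ N' V' q t hq2 R RL hG
  have hq := R.q0
  have hq1 : q < 1 := hq2.trans_le (min_le_left _ _)
  have hqg : q ≤ g₀ (min (al / 2) (1 / 2)) :=
    (hq2.trans_le ((min_le_right _ _).trans (min_le_left _ _))).le
  have hqq : q < q₂ := hq2.trans_le ((min_le_right _ _).trans (min_le_right _ _))
  obtain ⟨sl, dl, ec, Kl, Nl, hX⟩ := R.clx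
  obtain ⟨u, ta, tb, x₀, hu₀u, huU, huq, ta0, tb0, x00, ta1, tb1, N1, N2, hr2, hσx, hu₀x, sc1, sc2,
    sc3, sc4⟩ := hsel hX.actm hq hqq
  have hu0 : 0 < u := hu₀.trans_le hu₀u
  have hO2 := oO_ge hκ n
  have hu1 : oO κ n * u ≤ 1 / 2 :=
    (mul_le_mul_of_nonneg_left (huU.trans hUb1) (by linarith)).trans (uP_mul hκ n).le
  have hu16 : 16 * u ≤ κ - 2 := by linarith
  have hu4 : u ≤ 1 / 4 := by
    have := mul_le_mul_of_nonneg_right hO2 hu0.le
    linarith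
  have hUb4 : Ub ≤ 1 / 4 := by
    have h1 := uP_mul hκ n
    have h2 := mul_le_mul_of_nonneg_right hO2 (uP_pos hκ n).le
    linarith
  refine ⟨u, hu₀u, hu1, fun {c₁} hc₁ => ?_⟩
  have hndR : (0 : ℝ) < nd := by exact_mod_cast hnd
  have hc4 : Set.InjOn c (Set.Iio 4) := R.inj
  have hoff := fun (i : ℕ) (hi : i < n) => off_le hκ hu0.le hi hu1
  obtain ⟨μ, hμ⟩ : ∃ μ : ℝ, μ = u * q := ⟨_, rfl⟩
  have hμ0 : 0 < μ := by rw [hμ]; positivity
  have hμq : μ ≤ q := by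
    rw [hμ]
    exact mul_le_of_le_one_left hq.le (by linarith)
  have hyη : y * 400000 ≤ η₀ * u := by
    have := mul_le_mul_of_nonneg_left hu₀u hη₀.le
    linarith
  have hyq : y * q * 400000 ≤ η₀ * μ := by
    have := mul_le_mul_of_nonneg_right hyη hq.le
    rw [hμ]
    linarith
  have hyu : y * q * 400000 ≤ μ := by
    have := mul_le_mul_of_nonneg_right (show y * 400000 ≤ u by linarith) hq.le
    rw [hμ]
    linarith
  have hyx : y * q * 400000 ≤ x₀ := by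
    have := mul_le_mul_of_nonneg_right (show y * 400000 ≤ u₀ by linarith) hq.le
    linarith
  have hεq : ε * q ≤ y * q := mul_le_mul_of_nonneg_right hεy hq.le
  have hyq0 : 0 < y * q := by positivity
  have hW3 := R.tg 3 (by norm_num) (by norm_num)
  have hσμ : σ₀ * μ ≤ μ / 2 := by
    have := mul_le_mul_of_nonneg_right hσ1 hμ0.le
    linarith
  have hσμ0 : 0 < σ₀ * μ := by positivity
  rw [← hμ] at huq hr2 hσx
  -- the grid points
  have hfr : ∀ k ≤ nd, (k : ℝ) / nd ≤ 1 := fun k hk => by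
    rw [div_le_one hndR]
    exact_mod_cast hk
  have hfq : ∀ k ≤ nd, 0 ≤ (k : ℝ) / nd * q ∧ (k : ℝ) / nd * q ≤ q := fun k hk =>
    ⟨by positivity, by
      have := mul_le_mul_of_nonneg_right (hfr k hk) hq.le
      linarith⟩
  -- the blocks
  have hgw : gP u nd 0 ≤ nd := gP_le1 (by linarith)
  have hgA : ∀ i < n, gP u nd (oA κ i) ≤ nd := fun i hi => gP_le1 (by linarith [(hoff i hi).2.1])
  have hgD : ∀ i < n, gP u nd (oD κ i) ≤ nd := fun i hi =>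
    gP_le1 (by linarith [(hoff i hi).2.2.2])
  have ht0 : 0 < t := by linarith [RL.qt]
  have htq : t + 2 * q < 1 := by
    have h1 := RL.At
    have h2 := mul_le_mul_of_nonneg_right RL.A3 hq.le
    linarith
  have hUq : Ub * q ≤ 1 := by
    have := mul_le_mul hUb4 hq1.le hq.le (by norm_num)
    linarith
  have ta1q : ta + x₀ ≤ 1 := by
    have : (ta : ℝ) + x₀ ≤ 1 := by linarith
    exact_mod_cast this
  have tb1q : tb + x₀ ≤ 1 := by
    have : (tb : ℝ) + x₀ ≤ 1 := by linarith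
    exact_mod_cast this
  have x00R : (0 : ℝ) < x₀ := by exact_mod_cast x00
  have hrat := fun k (hk : k ≤ 2 * nd) => RL.rat k hk (y * q) hyq0
  have hW : ∃ W : ℕ → ℚ, ∀ k ≤ 2 * nd, t + k / nd * q ≤ W k ∧ (W k : ℝ) ≤ t + A' * q ∧
      ∀ l ≤ 3, bet (P₂ 3) c l (W k) (W k) ≤ L l (t + k / nd * q) (t + k / nd * q) + y * q := by
    refine ⟨fun k => if hk : k ≤ 2 * nd then Classical.choose (hrat k hk) else 0, fun k hk => ?_⟩
    beta_reduce
    rw [dif_pos hk]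
    exact Classical.choose_spec (hrat k hk)
  obtain ⟨W, hW⟩ := hW
  have hall := Bas.all n (fun i hi => Bas.all (nd + 1) (fun k₁ hk₁ => Bas.all (nd + 1)
    (fun k₂ hk₂ => hw hc4 (surj3 hc4) hW3.thr₂ R.tmh
    (w := t + (gP u nd 0 : ℕ) / nd * q) (μ := μ) (η := η₀ * μ) (by linarith [(hfq _ hgw).1]) hμ0
    (by linarith [(hfq _ hgw).2]) (by positivity) le_rfl (rt := r) R.rate
    (α := L 3 t t - K' * q) (β := L 3 t t + K' * q) (fun y₁ y₃ h1 h2 h3 => by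
      have h4 := R.row y₁ y₃ (by
        show |y₁ - L 3 t t| ≤ K' * q
        rw [abs_le]
        constructor <;> linarith) (by
        show |y₃ - L 3 t t| ≤ K' * q
        rw [abs_le]
        constructor <;> linarith) h2
      linarith)
    (aR := t + (gP u nd (oA κ i) : ℕ) / nd * q) (a₂ := t + (gP u nd (oD κ i) : ℕ) / nd * q)
    (I := (range 3).image c) (fun j hj => by
      obtain ⟨l, hl, e⟩ := mem_image.1 hj
      exact ⟨l, mem_range.1 hl, e⟩)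
    (xV := (∑ j : Fin 3, (1 - L j (t + (gP u nd (oD κ i) : ℕ) / nd * q)
      (t + (gP u nd (oD κ i) : ℕ) / nd * q))) - y * q)
    (cy := (1 - L 0 (t + (gP u nd (oA κ i) : ℕ) / nd * q)
      (t + (gP u nd (oA κ i) : ℕ) / nd * q)) - y * q)
    (exvy_mono R.pos (EX.all _ (hG _ (hgD i hi)) _ hyq0) fun J F ω ω' e => by
      funext l
      have := congrFun e ⟨c l, mem_image_of_mem c (mem_range.2 l.2)⟩
      exact this)
    (EX.fst _ (hG _ (hgA i hi)) _ hyq0)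
    (W (gP u nd (oA κ i))) (e₂ 3) (by
      have h1 := (hW _ (show gP u nd (oA κ i) ≤ 2 * nd by linarith [hgA i hi])).1
      have h2 : (0 : ℝ) ≤ W (gP u nd (oA κ i)) := by linarith [(hfq _ (hgA i hi)).1]
      exact_mod_cast h2) (by
      have h1 := (hW _ (show gP u nd (oA κ i) ≤ 2 * nd by linarith [hgA i hi])).2.1
      have h2 : (W (gP u nd (oA κ i)) : ℝ) < 1 := by linarith [RL.At]
      exact_mod_cast h2)
    (hW _ (show gP u nd (oA κ i) ≤ 2 * nd by linarith [hgA i hi])).1 (by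
      have h1 := hW _ (show gP u nd (oA κ i) ≤ 2 * nd by linarith [hgA i hi])
      exact RL.eθ _ (by linarith [(hfq _ (hgA i hi)).1, h1.1]) h1.2.1)
    (fun j hj => by
      have h1 := (hW _ (show gP u nd (oA κ i) ≤ 2 * nd by linarith [hgA i hi])).2.2 j (by omega)
      have h2 := (RL.lo j (by omega) _ (show gP u nd (oA κ i) ≤ 2 * nd by linarith [hgA i hi])).2
      have h3 := RL.Eb0
      linarith)
    (v₁ := t + (k₁ : ℕ) / nd * q) (v₂ := t + (k₂ : ℕ) / nd * q)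
    (EX.fst _ (hG k₁ (by omega)) _ hyq0) (EX.fst _ (hG k₂ (by omega)) _ hyq0)
    hX hal R.c0 ta0 tb0 x00 ta1q tb1q N1 N2 hr2 (c₁ := c₁ / 4 ^ (n + 1)) (by positivity))))
  have hact := act_lin hX hal R.c0 (μ := 2 * (σ₀ * μ)) (by positivity) (by linarith) (by linarith)
    (c₁ := c₁ / 4 ^ (n + 1) / 2 ^ 40) (by positivity)
  obtain ⟨a₀, ha₀, ha₁⟩ := exists_rat_btwn (show t + q < 1 by linarith)
  have ha₀0 : (0 : ℚ) ≤ a₀ := by
    have : (0 : ℝ) ≤ a₀ := by linarith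
    exact_mod_cast this
  have ha₀1 : a₀ < 1 := by exact_mod_cast ha₁
  have hcoy := coy_cls 4 D R.tmh a₀ (κ * q / nd) c₁ ha₀0 ha₀1 (by positivity) hc₁ (n + 1)
  have hpos : Bas S (fun _ F A => 0 < Pe F.p A) := ⟨1, one_pos, 0, fun J _ F A h => R.pos _ _ _ _ h⟩
  refine Bas.mono 0 (((hall.and hact).and hcoy).and hpos) ?_
  rintro J - F A ⟨⟨⟨hall, hact⟩, hcoy⟩, hA0⟩ B hBA hcB x e₀ g ψ ψH Sv G' H Ht hD hX₀ hx hmesh he₀
    hlv0 hl0t HD
  have hJ0 : (0 : ℝ) ≤ J := Nat.cast_nonneg J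
  have hx1N : 1 ≤ x := by omega
  have hJ1 : (1 : ℝ) ≤ x := by exact_mod_cast hx1N
  have hx64 : (64 : ℝ) ≤ x := by
    have : 64 ≤ x := by omega
    exact_mod_cast this
  have hx100 : 100 * (κ + 1) ≤ x := by
    have h1 : ⌈100 * (κ + 1)⌉₊ ≤ x := by omega
    exact (Nat.le_ceil _).trans (by exact_mod_cast h1)
  have hM : 1300 * (x : ℝ) ≤ u * q * J := by
    have h1 := mul_le_mul_of_nonneg_right hyu hJ0
    rw [hμ] at h1
    have : 0 ≤ y * q * J := by positivity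
    linarith
  have hx₀ : 8 * ((x : ℝ) / 16 + (κ + 1)) ≤ x := by linarith
  have hx₀0 : 0 ≤ (x : ℝ) / 16 + (κ + 1) := by positivity
  have hlv : ∀ k ≤ nd, ∀ l ≤ 3,
      16 * |(g k l : ℝ) - (L l t t + Sl l * (k / nd * q)) * J| ≤ x := fun k hk l hl =>
    lv16 (by linarith) (abs_nonneg _) (hlv0 k hk l hl)
  have hLv := fun k (hk : k ≤ nd) => lvh_y (x := x) s0 s1 s2 s3 hκ hq ht0.le (hlv k hk)
  have hSl : ∀ l ≤ 3, 0 ≤ Sl l ∧ Sl l ≤ κ + 1 := fun l hl => by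
    interval_cases l
    · rw [s0]; constructor <;> linarith
    · rw [s1]; constructor <;> linarith
    · rw [s2]; constructor <;> linarith
    · rw [s3]; constructor <;> linarith
  have hlv1 : ∀ k ≤ nd, ∀ l ≤ 3, (L l t t + Sl l * (k / nd * q)) * J - x / 16 ≤ g k l ∧
      (g k l : ℝ) ≤ (L l t t + Sl l * (k / nd * q)) * J + x / 16 := fun k hk l hl => by
    have h1 := hlv k hk l hl
    have h2 : |(g k l : ℝ) - (L l t t + Sl l * (k / nd * q)) * J| ≤ x / 16 := by linarith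
    have := abs_le.1 h2
    constructor <;> linarith
  have hroom : ∀ k ≤ nd, ∀ l ≤ 3, e₀ + g k l + (⌊u * q * J⌋₊ + x + 5) ≤ J := by
    intro k hk l hl
    have h1 := (hlv1 k hk l hl).2
    have h2 := hW3.room l hl t (by
      rw [sub_self, abs_zero]
      have : 0 ≤ K' := by linarith
      positivity)
    have h3 : Sl l * (k / nd * q) ≤ (κ + 1) * q :=
      mul_le_mul (hSl l hl).2 (hfq k hk).2 (hfq k hk).1 (by linarith)
    have h4 : (⌊u * q * J⌋₊ : ℝ) ≤ u * q * J := Nat.floor_le (by positivity)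
    have h5 := mul_le_mul_of_nonneg_right hK8 hq.le
    have h6 : (Eb 3 + 2 * y * q + (L l t t + Sl l * (k / nd * q)) + u * q + 2 * (y * q)) * J ≤
        1 * J := by
      refine mul_le_mul_of_nonneg_right ?_ hJ0
      rw [← hμ]
      have : 0 < κ * q := by positivity
      linarith
    have h7 : ((e₀ + g k l + (⌊u * q * J⌋₊ + x + 5) : ℕ) : ℝ) ≤ (J : ℕ) := by
      push_cast
      linarith
    exact_mod_cast h7
  have hnear : ∀ k ≤ nd, |(wG t q nd J k : ℝ) - (t + k / nd * q) * J| ≤ 1 :=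
    fun k _ => wG_near ht0.le hq.le nd J k
  have hwJ : ∀ k ≤ nd, wG t q nd J k ≤ J := fun k hk => wG_le hnd hq.le (by linarith) hk
  have hnum := fun {i : ℕ} (hi : i < n) {q₁ : ℕ} (hq₁ : q * J / 2 ≤ q₁) =>
    hbm2_grid s0 s1 s2 s3 hκ2 (n := n) hu0 hu1 hu16 hi hnd hq.le (v := wG t q nd J) hnear hLv hx₀0
      hx₀ hmesh hM hq₁ hwJ hroom
  have hc3 : Set.InjOn c (Set.Iio 3) := hc4.mono fun j hj => by
    rw [Set.mem_Iio] at hj ⊢
    omega
  have hDx : ((D : ℝ) + 1) * 2 ^ D ≤ 2 ^ x := by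
    have h1 : (D + 1) * 2 ^ D ≤ 2 ^ x :=
      (show (D + 1) * 2 ^ D ≤ x by omega).trans Nat.lt_two_pow_self.le
    exact_mod_cast h1
  rcases Nat.eq_zero_or_pos n with hn | hn
  · exact ⟨B, fun _ h => h, le_mul_of_one_le_left (Pe_nonneg F.isLaw B)
      (one_le_pow₀ (by norm_num)), fun h => absurd h (by omega), fun q₁ i hi => absurd hi (by omega)⟩
  -- the coefficients of order two
  obtain ⟨f, hf⟩ : ∃ f : ℕ → ℕ, f = fun i => if i = 0 then gP u nd 0 else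
    gP u nd (oA κ (i - 1)) := ⟨_, rfl⟩
  have hf0 : f 0 = gP u nd 0 := by
    rw [hf]
    exact if_pos rfl
  have hfs : ∀ i, f (i + 1) = gP u nd (oA κ i) := fun i => by
    rw [hf]
    exact if_neg (Nat.succ_ne_zero i)
  have hVa : wG t q nd J (gV nd) ≤ ⌊(a₀ : ℝ) * J⌋₊ := by
    refine Nat.floor_le_floor (mul_le_mul_of_nonneg_right ?_ hJ0)
    have := (hfq _ (gV_le nd)).2
    linarith
  have hεx : κ * q / nd * J ≤ x := by
    have h1 : κ * q / nd * J = κ * (q * J / nd) := by ring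
    rw [h1]
    linarith
  obtain ⟨m1, m2, m3, m4, m5, m6, NV⟩ := hnum hn (Nat.le_ceil (q * J / 2))
  obtain ⟨B', hB', hPB, hz⟩ := hcoy (V := gV nd) (sg := ⌊u * q * J⌋₊) (f := f) HD hBA hcB hc3 hεx
    (gV_le nd) hVa NV.hgV (fun i hi => by
      rcases Nat.eq_zero_or_pos i with rfl | hi0
      · rw [hf0]
        exact ⟨hgw, NV.hgw, NV.hsw⟩
      · obtain ⟨j, rfl⟩ : ∃ j, i = j + 1 := ⟨i - 1, by omega⟩
        have hj : j < n := by omega
        obtain ⟨a1, a2, a3, a4, a5, a6, Nj⟩ := hnum hj (Nat.le_ceil (q * J / 2))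
        rw [hfs]
        exact ⟨hgA j hj, Nj.hgW, Nj.hsW⟩)
  have hCoY : ∀ i < n, CoY F c (nS x (u * q * J)) x ⌊u * q * J⌋₊ (wG t q nd J 0)
      (wG t q nd J (gP u nd 0)) (wG t q nd J (gP u nd (oA κ i))) (g (gP u nd 0))
      (g (gP u nd (oA κ i))) (ψH (gP u nd 0)) (ψH (gP u nd (oA κ i))) Ht B' := fun i hi =>
    coy_of (Nat.sub_le _ _) (fun ω hω j => by
      have := hz ω hω 0 (by omega) j
      rwa [hf0] at this) (fun ω hω j => by
      have := hz ω hω (i + 1) (by omega) j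
      rwa [hfs] at this)
  have HD' := HD.sub hB'
  refine ⟨B', hB', hPB, fun _ => (hCoY 0 hn).bw.le (Nat.zero_le _), ?_⟩
  intro q₁ i hi hq₁ hq₁' Vo Vb zo zoH zb zbH hzo hzb fre hnv
  obtain ⟨Mg, Mg₀, Mo, Ma, Mb, Md, Nm⟩ := hnum hi hq₁
  have hBA' : Sub B' A := fun ω h => hBA ω (hB' ω h)
  have hcB' : c₁ / 4 ^ (n + 1) * Pe F.p A ≤ Pe F.p B' := by
    rw [div_mul_eq_mul_div, div_le_iff₀ (by positivity)]
    linarith
  have hB0 : 0 < Pe F.p B' := (mul_pos (by positivity) hA0).trans_le hcB'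
  obtain ⟨ω₀, hω₀⟩ := ex_of_pe hB0
  obtain ⟨v, v', e'', p, gT, U, T', TH, hdp⟩ := HD'.dp
  have hgO : gP u nd (oO κ i) ≤ nd := gP_le1 (by linarith [(hoff i hi).1])
  have hgB : gP u nd (oO κ (i + 1)) ≤ nd := gP_le1 (by linarith [(hoff i hi).2.2.1])
  -- the numbers
  have hMJ : μ * J = u * q * J := by rw [hμ]
  have hsgM : (⌊u * q * J⌋₊ : ℝ) ≤ u * q * J := Nat.floor_le (by positivity)
  obtain ⟨-, hqs, -, -⟩ := nQ_bd (i := i) hκ hM hx1N
  have hqs2 : κ * oO κ i * (u * q * J) ≤ κ / 2 * q * J := by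
    have h1 : κ * (oO κ i * u) ≤ κ * (1 / 2) :=
      mul_le_mul_of_nonneg_left (hoff i hi).1 (by linarith)
    have h2 := mul_le_mul_of_nonneg_right h1 (show 0 ≤ q * J by positivity)
    linarith
  have hqJ0 : 0 ≤ q * J := by positivity
  have hκqJ : 0 ≤ κ * q * J := by positivity
  have hKqJ : (2 * κ + 8) * q * J ≤ K' * q * J := by
    have := mul_le_mul_of_nonneg_right (mul_le_mul_of_nonneg_right hK8 hq.le) hJ0
    exact this
  have hμJ : μ * J ≤ q * J := mul_le_mul_of_nonneg_right hμq hJ0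
  have hL3 := hlv1 _ hgw 3 le_rfl
  rw [s3] at hL3
  have hkw := hfq _ hgw
  have hkw1 : 0 ≤ (κ + 1) * ((gP u nd 0 : ℕ) / nd * q) * J := by
    have := hkw.1
    positivity
  have hkw2 : (κ + 1) * ((gP u nd 0 : ℕ) / nd * q) * J ≤ (κ + 1) * q * J :=
    mul_le_mul_of_nonneg_right (mul_le_mul_of_nonneg_left hkw.2 (by linarith)) hJ0
  have hL0 := (RL.lo 3 le_rfl 0 (Nat.zero_le _)).1
  simp only [Nat.cast_zero, zero_div, zero_mul, add_zero] at hL0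
  have hL0J : t * J ≤ L 3 t t * J := mul_le_mul_of_nonneg_right hL0 hJ0
  have htJ : q * J ≤ t * J := mul_le_mul_of_nonneg_right RL.qt hJ0
  have hu4q : 4 * (u * q * J) ≤ q * J := by
    have := mul_le_mul_of_nonneg_right hu4 hqJ0
    linarith
  have hyJ0 : 0 ≤ y * q * J := by positivity
  have hyqJ := mul_le_mul_of_nonneg_right hyq hJ0
  have hyuJ := mul_le_mul_of_nonneg_right hyu hJ0
  have hyxJ := mul_le_mul_of_nonneg_right hyx hJ0
  have hσJ : σ₀ * μ * J ≤ μ * J / 2 := by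
    have := mul_le_mul_of_nonneg_right hσμ hJ0
    linarith
  have hεJ : ε * q * J ≤ y * q * J := mul_le_mul_of_nonneg_right hεq hJ0
  -- the scales
  have hκ0 : (0 : ℝ) < κ := by linarith
  have hρκ : κ * (x / κ) = x := by field_simp
  have hρ1 : q * J / nd + 1 ≤ x / κ := by
    rw [le_div_iff₀ hκ0]
    linarith
  have hsc1 := mul_le_mul_of_nonneg_right sc1 hJ0
  have hsc2 := mul_le_mul_of_nonneg_right sc2 hJ0
  have hsc3 := mul_le_mul_of_nonneg_right sc3 hJ0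
  have hsc4 := mul_le_mul_of_nonneg_right sc4 hJ0
  have hσxJ := mul_le_mul_of_nonneg_right hσx hJ0
  have hx₀J : 0 ≤ (x₀ : ℝ) * J := by positivity
  obtain ⟨k1, k2, s₁, th₁, x₁, th₂, x₂, Rr, Mg₁, Mg₂, Tt, ht1, ht2, ht3, ht4, -, -⟩ :=
    hbt_grid s0 s1 s2 s3 hκ2 (n := n) (q := q) (t := t) (J := J) (x := x) hu0 hu1 hi hnd hq.le
      (v := wG t q nd J) hnear hLv hx₀0 hx₀ hM (T₁ := ta * J) (T₂ := tb * J) (X := x₀ * J)
      (Sg := σ₀ * μ * J) (ρ := x / κ) hρ1 hρκ.le (by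
        rw [← hMJ, huq]
        ring) hx₀J (by positivity) (by linarith) (by linarith) (by linarith) (by linarith)
  obtain ⟨k₁, hk₁⟩ : ∃ k₁, k₁ = gP u nd (oA κ i + (ta * J - 4 * (x / κ)) / (u * q * J)) :=
    ⟨_, rfl⟩
  obtain ⟨k₂, hk₂⟩ : ∃ k₂, k₂ = gP u nd (oA κ i + (tb * J - 4 * (x / κ)) / (u * q * J)) :=
    ⟨_, rfl⟩
  rw [← hk₁, ← hk₂] at Tt
  rw [← hk₁] at k1
  rw [← hk₂] at k2
  obtain ⟨Va, za, zaH, hza⟩ := rcd_ex F ⟨ω₀, hω₀⟩ (wG t q nd J (gP u nd (oA κ i)))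
  obtain ⟨V₁, z₁, zH₁, hz₁⟩ := rcd_ex F ⟨ω₀, hω₀⟩ (wG t q nd J k₁)
  obtain ⟨V₂, z₂, zH₂, hz₂⟩ := rcd_ex F ⟨ω₀, hω₀⟩ (wG t q nd J k₂)
  have hu'0 : 0 ≤ (x : ℝ) / κ := by positivity
  have hu'1 := Nat.floor_le hu'0
  have hu'2 := Nat.lt_floor_add_one ((x : ℝ) / κ)
  have hgwu := grd_gw (k := gP u nd (oA κ i)) (g := g (gP u nd (oA κ i)) 0)
    (u := ⌊(x : ℝ) / κ⌋₊) ht0.le hq.le s0 hκ0.le hl0t (by
      have h1 : 2 * ((x : ℝ) / (16 * (κ + 1))) + 3 ≤ x / κ := by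
        rw [le_div_iff₀ hκ0]
        have h2 : κ * (x / (16 * (κ + 1))) ≤ x / 16 := by
          rw [← mul_div_assoc, div_le_div_iff₀ (by positivity) (by norm_num)]
          have : 0 ≤ 16 * (x : ℝ) := by positivity
          linarith
        linarith
      linarith) (hlv0 _ (hgA i hi) 0 (by norm_num))
  -- the position of the first coordinate at a window
  have hpo : ∀ k ≤ nd, ((J - g k 0 : ℕ) : ℝ) ≤
      (1 - L 0 (t + k / nd * q) (t + k / nd * q)) * J + 2 * (y * q * J) := by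
    intro k hk
    have h2 := (hlv1 k hk 0 (by norm_num)).1
    have h3 := (RL.hlv (show 0 ≤ 3 by omega) (show k ≤ 2 * nd by omega)).2
    have h4 := mul_le_mul_of_nonneg_right h3 hJ0
    have h6 : g k 0 ≤ J := by
      have := hroom k hk 0 (by norm_num)
      omega
    rw [Nat.cast_sub h6]
    linarith
  have hpo2 : ∀ k ≤ nd, ((J - g k 0 : ℕ) : ℝ) * Real.log 2 ≤
      ((1 - L 0 (t + k / nd * q) (t + k / nd * q)) - y * q) * Real.log 2 * J + η₀ * μ * J := by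
    intro k hk
    have h1 := mul_le_mul_of_nonneg_right (hpo k hk) hl0.le
    have h8 : y * q * J * Real.log 2 ≤ y * q * J * 1 := mul_le_mul_of_nonneg_left hl1 hyJ0
    refine h1.trans ?_
    linarith
  refine hall i hi k₁ (by omega) k₂ (by omega) B' hBA' hcB' (fun G₁ hG1 hG2 => ?_) x (150 * x) e₀
    _ _ _ _ q₁ _ Mg Mg₀ Mo Ma Mb Md _ _ _ _ _ v v' e'' p s₁ th₁ x₁ th₂ x₂ Rr Mg₁ Mg₂
    ⌊(x : ℝ) / κ⌋₊ (g 0) (g (gP u nd 0)) (g (gP u nd (oO κ i))) (g (gP u nd (oA κ i)))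
    (g (gP u nd (oO κ (i + 1)))) (g (gV nd)) (g (gP u nd (oD κ i))) (g nd) gT (g k₁) (g k₂) U (ψ 0)
    (ψ (gP u nd 0)) (ψ (gP u nd (oO κ i))) (ψ (gP u nd (oA κ i))) (ψ (gP u nd (oO κ (i + 1))))
    (ψ (gP u nd (oD κ i))) Sv (ψ k₁) (ψ k₂) (ψH 0) (ψH (gP u nd 0)) (ψH (gP u nd (oO κ i)))
    (ψH (gP u nd (oA κ i))) (ψH (gP u nd (oO κ (i + 1)))) (ψH (gP u nd (oD κ i))) (ψH k₁) (ψH k₂)
    (G' (gP u nd (oO κ i))) (G' (gP u nd (oA κ i))) (G' (gP u nd (oO κ (i + 1))))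
    (G' (gP u nd (oD κ i))) (G' nd) (G' k₁) (G' k₂) (H (gP u nd (oO κ i)))
    (H (gP u nd (oA κ i))) (H (gP u nd (oO κ (i + 1)))) (H (gP u nd (oD κ i))) (H nd) (H k₁)
    (H k₂) T' TH Ht hD Nm Tt hDx (HD'.wn 0 (Nat.zero_le _)).bl.wf (HD'.wn _ hgw).bl.wf
    (HD'.wn _ hgO) (HD'.wn _ (hgA i hi)) (HD'.wn _ hgB) (HD'.wn _ (hgD i hi)) (HD'.wn _ k1)
    (HD'.wn _ k2) hdp HD'.hQ HD'.hM (hCoY i hi) ?_ ?_ ?_ ?_ ?_ ?_ ?_ ?_ ?_ ?_ ?_ ?_ ?_ ?_ ?_
    (hpo2 k₁ k1) (hpo2 k₂ k2) hgwu.1 hgwu.2 ?_ ?_ ?_ ?_ Vo Va Vb V₁ V₂ zo zoH za zaH zb zbH z₁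
    zH₁ z₂ zH₂ hzo hza hzb hz₁ hz₂ ?_ ?_
  · -- activity
    have h1 := hact G₁ (fun ω h => hBA' ω (hG1 ω h)) (by
      rw [div_mul_eq_mul_div, div_le_iff₀ (by positivity)]
      linarith)
    have h2 : 2 * (σ₀ * μ) / 2 / 10 ^ 7 = σ₀ * μ / 10 ^ 7 := by ring
    rw [h2] at h1
    refine le_trans ?_ h1
    have h3 := mul_le_mul_of_nonneg_right (mul_le_mul_of_nonneg_right hr1 hμ0.le) hJ0
    linarith
  · push_cast
    linarith
  · have h1 := nS_ge (x := x) hM hx1N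
    linarith
  · rw [hμ]
    exact hsgM
  · linarith
  · linarith
  · linarith
  · intro j hj
    have h1 := (hW _ (show gP u nd (oA κ i) ≤ 2 * nd by linarith [hgA i hi])).2.2 j (by omega)
    have h2 := (RL.hlv (show j ≤ 3 by omega)
      (show gP u nd (oA κ i) ≤ 2 * nd by linarith [hgA i hi])).2
    have h3 := (hlv1 _ (hgA i hi) j (by omega)).1
    have h4 : bet (P₂ 3) c j (W (gP u nd (oA κ i))) (W (gP u nd (oA κ i))) * J ≤
        (L j t t + Sl j * ((gP u nd (oA κ i) : ℕ) / nd * q) + 2 * (y * q)) * J :=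
      mul_le_mul_of_nonneg_right (by linarith) hJ0
    have h5 : (⌊(t + (gP u nd (oA κ i) : ℕ) / nd * q) * J⌋₊ : ℝ) ≤ W (gP u nd (oA κ i)) * J := by
      refine (Nat.floor_le ?_).trans (mul_le_mul_of_nonneg_right
        (hW _ (show gP u nd (oA κ i) ≤ 2 * nd by linarith [hgA i hi])).1 hJ0)
      have := (hfq _ (hgA i hi)).1
      have : 0 ≤ t + (gP u nd (oA κ i) : ℕ) / nd * q := by linarith
      positivity
    linarith
  · have h1 := mul_le_mul_of_nonneg_right RL.Ee hJ0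
    linarith
  · -- stage 1
    have h1 : ∀ l ∈ range 3, ((J - g (gP u nd (oD κ i)) l : ℕ) : ℝ) ≤
        (1 - L l (t + (gP u nd (oD κ i) : ℕ) / nd * q) (t + (gP u nd (oD κ i) : ℕ) / nd * q)) * J +
          2 * (y * q * J) := by
      intro l hl
      have hl3 := mem_range.1 hl
      have h2 := (hlv1 _ (hgD i hi) l (by omega)).1
      have h3 := (RL.hlv (show l ≤ 3 by omega)
        (show gP u nd (oD κ i) ≤ 2 * nd by linarith [hgD i hi])).2
      have h4 := mul_le_mul_of_nonneg_right h3 hJ0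
      have h6 : g (gP u nd (oD κ i)) l ≤ J := by
        have := hroom _ (hgD i hi) l (by omega)
        omega
      rw [Nat.cast_sub h6]
      linarith
    have h2 := Finset.sum_le_sum h1
    rw [Finset.sum_add_distrib, ← Finset.sum_mul, Finset.sum_const, card_range, nsmul_eq_mul,
      Finset.sum_range (fun l => 1 - L l (t + (gP u nd (oD κ i) : ℕ) / nd * q)
        (t + (gP u nd (oD κ i) : ℕ) / nd * q))] at h2
    rw [← Finset.sum_mul]
    have h3 := mul_le_mul_of_nonneg_right h2 hl0.le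
    have h8 : y * q * J * Real.log 2 ≤ y * q * J * 1 := mul_le_mul_of_nonneg_left hl1 hyJ0
    refine h3.trans ?_
    push_cast
    linarith
  · -- the position of the first coordinate
    have hρ2 : 1 ≤ q * J / nd + 1 := by
      have : 0 ≤ q * J / nd := by positivity
      linarith
    have hwn := fun {r : ℝ} (hr : 0 ≤ r) => gP_win (u := u) (t := t) (q := q) (J := J) hu0.le
      (v := wG t q nd J (gP u nd r)) hr hnd hq.le hJ0 (wG_near ht0.le hq.le nd J (gP u nd r))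
    have hoO0 : 0 ≤ oO κ i := by linarith [oO_ge hκ i]
    have e1 := hwn (le_refl (0 : ℝ))
    rw [zero_mul, add_zero] at e1
    have h1 := (grid_near s0 s1 s2 s3 hκ hx₀ hρ2 hmesh hM e1 (hwn hoO0)
      (hwn (hoO0.trans (oA_ge hκ i))) (hLv _ hgw) (hLv _ hgO) (hLv _ (hgA i hi))).2
    have h6 : g (gP u nd 0) 0 + nQ₀ κ x i (u * q * J) ≤ J := by
      have a1 := Nm.nm.p8.J1 0 (by norm_num)
      have a2 := Nm.nm.p8.Q1
      omega
    have h6' : g (gP u nd (oA κ i)) 0 ≤ J := by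
      have := hroom _ (hgA i hi) 0 (by norm_num)
      omega
    have h7 : J - (g (gP u nd 0) 0 + nQ₀ κ x i (u * q * J)) +
        (g (gP u nd 0) 0 + nQ₀ κ x i (u * q * J) - g (gP u nd (oA κ i)) 0) ≤
        J - g (gP u nd (oA κ i)) 0 + 310 * x := by
      omega
    have h7R : ((J - (g (gP u nd 0) 0 + nQ₀ κ x i (u * q * J)) : ℕ) : ℝ) +
        ((g (gP u nd 0) 0 + nQ₀ κ x i (u * q * J) - g (gP u nd (oA κ i)) 0 : ℕ) : ℝ) ≤
        ((J - g (gP u nd (oA κ i)) 0 : ℕ) : ℝ) + 310 * x := by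
      exact_mod_cast h7
    have h8 := mul_le_mul_of_nonneg_right (h7R.trans (add_le_add_left (hpo _ (hgA i hi)) _))
      hl0.le
    have h11 : y * q * J * Real.log 2 ≤ y * q * J * 1 := mul_le_mul_of_nonneg_left hl1 hyJ0
    have h12 : (x : ℝ) * Real.log 2 ≤ x * 1 := mul_le_mul_of_nonneg_left hl1 (by linarith)
    linarith
  · have := hroom _ hgB 0 (by norm_num)
    omega
  · intro j hj
    have := hroom _ k1 j (by omega)
    omega
  · intro j hj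
    have := hroom _ k2 j (by omega)
    omega
  · exact g0_le ht0.le hq.le s0 (hlv _ (hgA i hi) 0 (by norm_num)) (hlv _ k1 0 (by norm_num))
      (by omega) Tt.v1
  · exact g0_le ht0.le hq.le s0 (hlv _ (hgA i hi) 0 (by norm_num)) (hlv _ k2 0 (by norm_num))
      (by omega) Tt.v2
  · refine Nat.le_floor ?_
    push_cast
    linarith
  · have h1 := Nat.floor_le (show 0 ≤ ((ta : ℝ) + x₀) * J by
      have : (0 : ℝ) ≤ ta := by exact_mod_cast ta0
      positivity)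
    have h2 : ((⌊((ta : ℝ) + x₀) * J⌋₊ + ⌊(x : ℝ) / κ⌋₊ : ℕ) : ℝ) ≤ ((th₁ + x₁ : ℕ) : ℝ) := by
      push_cast
      linarith
    exact_mod_cast h2
  · refine Nat.le_floor ?_
    push_cast
    linarith
  · have h1 := Nat.floor_le (show 0 ≤ ((tb : ℝ) + x₀) * J by
      have : (0 : ℝ) ≤ tb := by exact_mod_cast tb0
      positivity)
    have h2 : ((⌊((tb : ℝ) + x₀) * J⌋₊ + ⌊(x : ℝ) / κ⌋₊ : ℕ) : ℝ) ≤ ((th₂ + x₂ : ℕ) : ℝ) := by
      push_cast
      linarith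
    exact_mod_cast h2
  · have := fre
    unfold FreB at this
    rw [hμ, ← mul_assoc]
    exact this
  · have := hnv
    unfold HnvB at this
    rw [hμ, ← mul_assoc]
    exact this

end Pool.D2N
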