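import Pool.Agent.H31.D2.Gqc
import Pool.Agent.H31.D2.Ry4
import Pool.Agent.H90.D2.Hid

/-!
# The tie cell `(1,k,k;k+1)`, `k > 2`: the coefficients of order two at all windows

`Blw.sub`, `WnD.sub`, `Dpw.sub`, `HopD.sub`: smaller events. `coy_cls`: the coefficients of order at
least two of the label in the direction of the first coordinate vanish at finitely many windows, on
an event.
-/

set_option autoImplicit false

namespace Pool.D2N

open Finset Real MvPolynomial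
open Pool.Agent.H49.Ent Pool.Agent.H32.Dense Pool.STK Pool.KA Pool.KSAT Pool.K2S Pool.PB Pool.S6C
open Pool.GEN Pool.CHT Pool.CHX Pool.LA91
open Pool.D2F Pool.D2Z Pool.D2F2
open Pool.D2R (dd hs co co_slam ROutB ROut1)
open Pool.F5 (NatH)
open Pool.ISO (Clsd)

variable {m J : ℕ}

/-- Smaller events. -/
theorem Blw.sub {F : Fam m J} {c : ℕ → Fin m} {a x e : ℕ} {g : ℕ → ℕ} {B B' : F.Ω → Prop}
    {ψ : PtT F → ℕ → Option (Fin m) → ℝ} {ψH : LnT F → ℕ → Option (Fin m) → ℝ}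
    {Sv : PtT F → ℕ → Option (Fin m) → ℝ}
    {G : PtT F → ℕ → MvPolynomial (Option (Fin m)) ℝ}
    {H : LnT F → ℕ → MvPolynomial (Option (Fin m)) ℝ} (h : Blw F c a x e g B ψ ψH Sv G H)
    (hB : Sub B' B) : Blw F c a x e g B' ψ ψH Sv G H where
  wf := h.wf.sub hB le_rfl le_rfl
  aJ := h.aJ
  inj := h.inj
  dep := h.dep
  cls := fun ω hω => h.cls ω (hB ω hω)
  nat := fun l hl => (h.nat l hl).sub hB le_rfl
  pos := fun ω hω => h.pos ω (hB ω hω)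
  ng := fun ω hω => h.ng ω (hB ω hω)

/-- Smaller events. -/
theorem WnD.sub {F : Fam m J} {c : ℕ → Fin m} {D a x e : ℕ} {g : ℕ → ℕ} {B B' : F.Ω → Prop}
    {ψ : PtT F → ℕ → Option (Fin m) → ℝ} {ψH : LnT F → ℕ → Option (Fin m) → ℝ}
    {Sv : PtT F → ℕ → Option (Fin m) → ℝ}
    {G : PtT F → ℕ → MvPolynomial (Option (Fin m)) ℝ}
    {H : LnT F → ℕ → MvPolynomial (Option (Fin m)) ℝ} (h : WnD F c D a x e g B ψ ψH Sv G H)
    (hB : Sub B' B) : WnD F c D a x e g B' ψ ψH Sv G H :=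
  ⟨h.bl.sub hB, h.ch.sub hB, h.cl.sub hB, h.vel.sub hB⟩

/-- Smaller events. -/
theorem Dpw.sub {F : Fam m J} {c : ℕ → Fin m} {D w a v v' e X p : ℕ} {g gT : ℕ → ℕ} {U : ℝ}
    {B B' : F.Ω → Prop} {G : PtT F → ℕ → MvPolynomial (Option (Fin m)) ℝ}
    {H : LnT F → ℕ → MvPolynomial (Option (Fin m)) ℝ}
    {T : PtT F → ℕ → MvPolynomial (Option (Fin m)) ℝ}
    {TH : LnT F → ℕ → MvPolynomial (Option (Fin m)) ℝ}
    {Ht : LnT F → MvPolynomial (Option (Fin m)) ℝ}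
    {Sv : PtT F → ℕ → Option (Fin m) → ℝ}
    (h : Dpw F c D w a v v' e X p g gT U B G H T TH Ht Sv) (hB : Sub B' B) :
    Dpw F c D w a v v' e X p g gT U B' G H T TH Ht Sv where
  aJ := h.aJ
  ch := h.ch.sub hB
  row := h.row.sub hB
  U0 := h.U0
  Uk := h.Uk
  vv := h.vv
  gv := h.gv
  rg := h.rg
  pr := h.pr
  dep := h.dep
  nr := fun ω hω => h.nr ω (hB ω hω)
  nat := fun l hl => (h.nat l hl).sub hB le_rfl

/-- Smaller events. -/
theorem HopD.sub {F : Fam m J} {c : ℕ → Fin m} {D nd x e₀ : ℕ} {win : ℕ → ℕ}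
    {B B' : F.Ω → Prop} {g : ℕ → ℕ → ℕ} {ψ : ℕ → PtT F → ℕ → Option (Fin m) → ℝ}
    {ψH : ℕ → LnT F → ℕ → Option (Fin m) → ℝ} {Sv : PtT F → ℕ → Option (Fin m) → ℝ}
    {G : ℕ → PtT F → ℕ → MvPolynomial (Option (Fin m)) ℝ}
    {H : ℕ → LnT F → ℕ → MvPolynomial (Option (Fin m)) ℝ}
    {Ht : LnT F → MvPolynomial (Option (Fin m)) ℝ}
    (h : HopD F c D nd x e₀ win B g ψ ψH Sv G H Ht) (hB : Sub B' B) :
    HopD F c D nd x e₀ win B' g ψ ψH Sv G H Ht where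
  wn := fun i hi => (h.wn i hi).sub hB
  hQ := h.hQ
  hD := h.hD
  hM := fun ω hω => h.hM ω (hB ω hω)
  dp := by
    obtain ⟨v, v', e', p, gT, U, T, TH, hd⟩ := h.dp
    exact ⟨v, v', e', p, gT, U, T, TH, hd.sub hB⟩

/-- Larger constants. -/
theorem Blw.mono {F : Fam m J} {c : ℕ → Fin m} {a x x' e : ℕ} {g : ℕ → ℕ} {B : F.Ω → Prop}
    {ψ : PtT F → ℕ → Option (Fin m) → ℝ} {ψH : LnT F → ℕ → Option (Fin m) → ℝ}
    {Sv : PtT F → ℕ → Option (Fin m) → ℝ}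
    {G : PtT F → ℕ → MvPolynomial (Option (Fin m)) ℝ}
    {H : LnT F → ℕ → MvPolynomial (Option (Fin m)) ℝ} (h : Blw F c a x e g B ψ ψH Sv G H)
    (hx : x ≤ x') : Blw F c a x' e g B ψ ψH Sv G H where
  wf := h.wf.sub (fun _ h => h) hx le_rfl
  aJ := h.aJ
  inj := h.inj
  dep := h.dep
  cls := h.cls
  nat := fun l hl => (h.nat l hl).sub (fun _ h => h) hx
  pos := h.pos
  ng := fun ω hω => (h.ng ω hω).mono (two_le hx)

/-- Larger constants. -/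
theorem WnD.mono {F : Fam m J} {c : ℕ → Fin m} {D a x x' e : ℕ} {g : ℕ → ℕ} {B : F.Ω → Prop}
    {ψ : PtT F → ℕ → Option (Fin m) → ℝ} {ψH : LnT F → ℕ → Option (Fin m) → ℝ}
    {Sv : PtT F → ℕ → Option (Fin m) → ℝ}
    {G : PtT F → ℕ → MvPolynomial (Option (Fin m)) ℝ}
    {H : LnT F → ℕ → MvPolynomial (Option (Fin m)) ℝ} (h : WnD F c D a x e g B ψ ψH Sv G H)
    (hx : x ≤ x') : WnD F c D a x' e g B ψ ψH Sv G H :=
  ⟨h.bl.mono hx, h.ch, h.cl, h.vel.mono hx⟩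

/-- Larger constants. -/
theorem Dpw.mono {F : Fam m J} {c : ℕ → Fin m} {D w a v v' e X X' p : ℕ} {g gT : ℕ → ℕ} {U : ℝ}
    {B : F.Ω → Prop} {G : PtT F → ℕ → MvPolynomial (Option (Fin m)) ℝ}
    {H : LnT F → ℕ → MvPolynomial (Option (Fin m)) ℝ}
    {T : PtT F → ℕ → MvPolynomial (Option (Fin m)) ℝ}
    {TH : LnT F → ℕ → MvPolynomial (Option (Fin m)) ℝ}
    {Ht : LnT F → MvPolynomial (Option (Fin m)) ℝ}
    {Sv : PtT F → ℕ → Option (Fin m) → ℝ}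
    (h : Dpw F c D w a v v' e X p g gT U B G H T TH Ht Sv) (hX : X ≤ X') :
    Dpw F c D w a v v' e X' p g gT U B G H T TH Ht Sv where
  aJ := h.aJ
  ch := h.ch
  row := h.row
  U0 := h.U0
  Uk := h.Uk.trans (two_le hX)
  vv := h.vv
  gv := h.gv
  rg := h.rg
  pr := by
    have := h.pr
    omega
  dep := h.dep
  nr := fun ω hω => (h.nr ω hω).mono (two_le hX)
  nat := fun l hl => (h.nat l hl).sub (fun _ h => h) hX

/-- Larger constants. -/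
theorem HopD.mono {F : Fam m J} {c : ℕ → Fin m} {D nd x x' e₀ : ℕ} {win : ℕ → ℕ}
    {B : F.Ω → Prop} {g : ℕ → ℕ → ℕ} {ψ : ℕ → PtT F → ℕ → Option (Fin m) → ℝ}
    {ψH : ℕ → LnT F → ℕ → Option (Fin m) → ℝ} {Sv : PtT F → ℕ → Option (Fin m) → ℝ}
    {G : ℕ → PtT F → ℕ → MvPolynomial (Option (Fin m)) ℝ}
    {H : ℕ → LnT F → ℕ → MvPolynomial (Option (Fin m)) ℝ}
    {Ht : LnT F → MvPolynomial (Option (Fin m)) ℝ}
    (h : HopD F c D nd x e₀ win B g ψ ψH Sv G H Ht) (hx : x ≤ x') :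
    HopD F c D nd x' e₀ win B g ψ ψH Sv G H Ht where
  wn := fun i hi => (h.wn i hi).mono hx
  hQ := h.hQ
  hD := h.hD
  hM := fun ω hω i hi j => (h.hM ω hω i hi j).trans (mul_le_mul_of_nonneg_right
    (div_le_div_of_nonneg_right (two_le hx) (by positivity)) (by positivity))
  dp := by
    obtain ⟨v, v', e', p, gT, U, T, TH, hd⟩ := h.dp
    exact ⟨v, v', e', p, gT, U, T, TH, hd.mono hx⟩

end Pool.D2N

namespace Pool.KPO

open Finset Real MvPolynomial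
open Pool.Agent.H49.Ent Pool.Agent.H32.Dense Pool.STK Pool.KA Pool.KSAT Pool.K2S Pool.PB Pool.S6C
open Pool.GEN Pool.CHT Pool.CHX Pool.LA91
open Pool.D2F Pool.D2Z Pool.D2F2 Pool.D2N
open Pool.D2R (dd hs co rem_fam)

/-- **The coefficients of order at least two in the direction of `c 0`** at finitely many windows. -/
theorem coy_cls (m D : ℕ) {S : PCl m} (hT : TmH S) (a : ℚ) (ε κ : ℝ) (ha0 : 0 ≤ a) (ha : a < 1)
    (hε : 0 < ε) (hκ : 0 < κ) (n : ℕ) :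
    Bas S (fun J F A => ∀ {c : ℕ → Fin m} {nd x e₀ : ℕ} {win : ℕ → ℕ} {B : F.Ω → Prop}
      {g : ℕ → ℕ → ℕ} {ψ : ℕ → PtT F → ℕ → Option (Fin m) → ℝ}
      {ψH : ℕ → LnT F → ℕ → Option (Fin m) → ℝ} {Sv : PtT F → ℕ → Option (Fin m) → ℝ}
      {G : ℕ → PtT F → ℕ → MvPolynomial (Option (Fin m)) ℝ}
      {H : ℕ → LnT F → ℕ → MvPolynomial (Option (Fin m)) ℝ}
      {Ht : LnT F → MvPolynomial (Option (Fin m)) ℝ} {V sg : ℕ} {f : ℕ → ℕ},
      HopD F c D nd x e₀ win B g ψ ψH Sv G H Ht → Sub B A → κ * Pe F.p A ≤ Pe F.p B →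
      Set.InjOn c (Set.Iio 3) → ε * J ≤ x → V ≤ nd → win V ≤ ⌊(a : ℝ) * J⌋₊ →
      HpG x (win 0) (win V) (win nd) (win nd) (g 0) (g V) (g nd) (g nd) →
      (∀ i < n, f i ≤ nd ∧
        HpG x (win 0) (win (f i)) (win nd) (win nd) (g 0) (g (f i)) (g nd) (g nd) ∧
        HpS x sg (win 0) (win (f i)) (win V) (g 0) (g (f i)) (g V)) →
      ∃ B' : F.Ω → Prop, Sub B' B ∧ Pe F.p B ≤ 4 ^ n * Pe F.p B' ∧ ∀ ω, B' ω → ∀ i < n, ∀ j,
        |2 ^ g (f i) 3 / 2 ^ g (f i) 0 * (gq F c (g (f i)) (win (f i)) (win (f i) - win 0)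
          (ψH (f i)) Ht (slam F (win (f i)) ω) 0).coeff (j + 2)| ≤ 1 / 2 ^ (sg + 400 * x)) := by
  have h := gqs_cls m D hT a ε (κ / 4 ^ n) ha0 ha hε (by positivity)
  refine Bas.mono 0 h ?_
  intro J _ F A hA c nd x e₀ win B g ψ ψH Sv G H Ht V sg f hop hBA hcB hc hx hV hVa hgV hf
  obtain ⟨v, v', e', p, gT, U, T, TH, hd⟩ := hop.dp
  have key : ∀ k ≤ n, ∃ B' : F.Ω → Prop, Sub B' B ∧ Pe F.p B ≤ 4 ^ k * Pe F.p B' ∧
      ∀ ω, B' ω → ∀ i < k, ∀ j,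
        |2 ^ g (f i) 3 / 2 ^ g (f i) 0 * (gq F c (g (f i)) (win (f i)) (win (f i) - win 0)
          (ψH (f i)) Ht (slam F (win (f i)) ω) 0).coeff (j + 2)| ≤ 1 / 2 ^ (sg + 400 * x) := by
    intro k
    induction k with
    | zero => exact fun _ => ⟨B, fun _ h => h, by rw [pow_zero, one_mul], fun ω _ i hi =>
        absurd hi (Nat.not_lt_zero i)⟩
    | succ k ih =>
      intro hk
      obtain ⟨B₁, b1, b2, b3⟩ := ih (by omega)
      obtain ⟨f1, f2, f3⟩ := hf k (by omega)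
      have hop₁ := hop.sub b1
      obtain ⟨B₂, d1, d2, d3⟩ := hA (s := sg) f2 hgV f3 hc hVa hx
        (hop₁.wn 0 (Nat.zero_le _)).bl.wf (hop₁.wn (f k) f1).bl.wf (hop₁.wn V hV).bl.wf
        (hop₁.wn nd le_rfl).bl.wf (hd.sub b1) le_rfl le_rfl le_rfl le_rfl le_rfl hop.hQ hop.hD
        hop₁.hM (fun ω hω => hBA ω (b1 ω hω)) (by
          have h4 : (4 : ℝ) ^ k ≤ 4 ^ n := pow_le_pow_right₀ (by norm_num) (by omega)
          have h5 : 0 ≤ Pe F.p B₁ := Pe_nonneg F.isLaw _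
          rw [div_mul_eq_mul_div, div_le_iff₀ (by positivity)]
          have h6 := mul_le_mul_of_nonneg_right h4 h5
          linarith)
      refine ⟨B₂, fun ω hω => b1 ω (d1 ω hω), ?_, fun ω hω i hi j => ?_⟩
      · rw [pow_succ, mul_assoc]
        exact b2.trans (mul_le_mul_of_nonneg_left d2 (by positivity))
      · rcases Nat.lt_succ_iff_lt_or_eq.1 hi with h | h
        · exact b3 ω (d1 ω hω) i h j
        · subst h
          exact (d3 ω hω).2 j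
  exact key n le_rfl

end Pool.KPO
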