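import Pool.Agent.H88.D2.Mcx

/-!
# The numbers of the second place below the target: the definition

`MuS`: the two boxes of the closed gradient in the direction of the second place below the target.
-/

set_option autoImplicit false

namespace Pool.TN

/-- **The numbers of the second place below the target**: box A (`'`): the place `v + 1` is moved,
box B: the place `v`; the target is `v + 2`. -/
structure MuS (v X' X : ℕ) (Sl : ℕ → ℝ) (Sm ξ' qr' μ' vj' κ₁ ξ qr μ vj κ₂ dW τ E : ℝ) : Prop where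
  A : MuN (v + 1) X' Sl Sm ξ' qr' μ' vj' κ₁ dW τ
  B : MuN (v + 1) X Sl Sm ξ qr μ vj κ₂ dW τ
  XX : X' ≤ X
  mm : μ ≤ μ'
  xi : ξ < κ₁ * ξ'
  qq : qr' + ξ' + μ' < qr
  df : ξ + μ + τ ≤ (Sl (v + 2) - Sl (v + 1)) * (X' + 1)
  kx : (Sl (v + 2) - Sl v) * 2 ≤ κ₂ * ξ
  far : E ≤ X + 1

end Pool.TN
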