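import Pool.Agent.H57.AVG.Cgq
import Pool.Agent.H31.D2.Mud

/-!
# The numbers of the second place below the target

`BoxN`, `boxN_ex`: the numbers of one box, the far window as far as we like. `BoxN.muN`, `BoxN.muC`:
the numbers of the event and of the record theorem. `mus_ex`: the two boxes of the closed gradient in
the direction of the second place below the target.
-/

set_option autoImplicit false

namespace Pool.TN

open Finset Real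
open Pool.AVG57 (MuC)

/-- **One box of numbers** in the units of a record, target `n`: closed charts at `-1`, far window
`X`, near window `vj`. -/
structure BoxN (n X : ℕ) (Sl : ℕ → ℝ) (Sm ξ qr μ ν vj th : ℝ) : Prop where
  X2 : 2 ≤ X
  ξ0 : 0 < ξ
  μ0 : 0 < μ
  ν0 : 0 < ν
  q0 : 0 < qr
  j0 : 0 ≤ vj
  jX : vj ≤ X
  S0 : 0 ≤ Sm
  sm : ∀ l < n, Sl l ≤ Sm
  sb : Sm < Sl n
  μθ : μ ≤ th * ξ
  νθ : ν ≤ th * ξ
  νξ : ν ≤ ξ
  jn : ∀ l ≤ n, Sl l * (vj + 1) + ν ≤ qr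
  xn : ∀ l < n, Sl l * (X + 1) + ν ≤ qr
  x1 : Sm * (X + 1) + ν ≤ qr
  x2 : qr + ξ ≤ Sl n * (X + 1)
  ξq : ξ ≤ qr
  θq : th * ξ + ν ≤ qr
  j2 : ξ ≤ (Sl n - Sm) * (vj + 1)

/-- **A box with given `ξ`** and a far window as far as we like, with a margin `C₁`. -/
theorem boxN_ex {n : ℕ} {Sl : ℕ → ℝ} {Sm : ℝ} (h1 : 1 ≤ Sm) (hs : ∀ l < n, Sl l ≤ Sm)
    (h2 : Sm < Sl n) {θ ξ μ : ℝ} (hθ : 0 < θ) (hθ1 : θ ≤ 1) (hξ : 0 < ξ) (hμ : 0 < μ)
    (hμθ : μ ≤ θ * ξ) {C₁ : ℝ} (hC₁ : 0 ≤ C₁) (Q : ℝ) (X₀ : ℕ) :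
    ∃ (X : ℕ) (qr vj : ℝ), X₀ ≤ X ∧ Q ≤ X ∧ Q ≤ qr ∧
      (∀ l < n, Sl l * (X + 1) + C₁ * (ξ + μ + θ * ξ) ≤ qr) ∧
      BoxN n X Sl Sm ξ qr μ (θ * ξ) vj θ := by
  obtain ⟨b, hb⟩ : ∃ b, b = Sl n := ⟨_, rfl⟩
  obtain ⟨ν, hν⟩ : ∃ ν, ν = θ * ξ := ⟨_, rfl⟩
  have hν0 : 0 < ν := by rw [hν]; positivity
  have hνξ : ν ≤ ξ := by
    rw [hν]
    exact mul_le_of_le_one_left hξ.le hθ1
  obtain ⟨gap, hgap⟩ : ∃ gap, gap = b - Sm := ⟨_, rfl⟩
  have hgap0 : 0 < gap := by rw [hgap, hb]; linarith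
  have b1 : 1 < b := by rw [hb]; linarith
  obtain ⟨vj, hvj⟩ : ∃ vj, vj = ξ / gap := ⟨_, rfl⟩
  have hvj0 : 0 < vj := by rw [hvj]; positivity
  have hvjg : gap * vj = ξ := by rw [hvj]; field_simp
  obtain ⟨Z, hZ⟩ : ∃ Z, Z = C₁ * (ξ + μ + ν) := ⟨_, rfl⟩
  have hZ0 : 0 ≤ Z := by rw [hZ]; positivity
  obtain ⟨X, hX⟩ := exists_nat_ge (max (max (max 2 ξ) (max (b * (vj + 1)) ((ξ + ν + Z) / gap)))
    (max Q X₀))
  have hXa := (le_max_left _ _).trans hX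
  have hXb := (le_max_right _ _).trans hX
  have x1 : (2 : ℝ) ≤ X := (le_max_left _ _).trans ((le_max_left _ _).trans hXa)
  have x2 : ξ ≤ X := (le_max_right _ _).trans ((le_max_left _ _).trans hXa)
  have x3 : b * (vj + 1) ≤ X := (le_max_left _ _).trans ((le_max_right _ _).trans hXa)
  have x4 : (ξ + ν + Z) / gap ≤ X := (le_max_right _ _).trans ((le_max_right _ _).trans hXa)
  have x5 : ξ + ν + Z ≤ gap * X := by
    rw [div_le_iff₀ hgap0] at x4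
    linarith
  have xQ : Q ≤ X := (le_max_left _ _).trans hXb
  have x0 : (X₀ : ℝ) ≤ X := (le_max_right _ _).trans hXb
  have x6 : (X : ℝ) + 1 ≤ Sm * (X + 1) := le_mul_of_one_le_left (by linarith) h1
  have x7 : vj ≤ b * (vj + 1) := by
    have : (vj + 1) ≤ b * (vj + 1) := le_mul_of_one_le_left (by linarith) b1.le
    linarith
  have m1 : ∀ l ≤ n, Sl l ≤ b := fun l hl => by
    rcases Nat.lt_or_ge l n with h4 | h4
    · exact (hs l h4).trans (by rw [hb]; exact h2.le)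
    · rw [hb, show l = n by omega]
  rw [← hν]
  refine ⟨X, Sm * (X + 1) + ν + Z, vj, by exact_mod_cast x0, xQ, by linarith, fun l hl => by
    have h4 := mul_le_mul_of_nonneg_right (hs l hl) (show (0 : ℝ) ≤ X + 1 by linarith)
    rw [← hZ]
    linarith, ?_⟩
  exact
    { X2 := by exact_mod_cast x1
      ξ0 := hξ
      μ0 := hμ
      ν0 := hν0
      q0 := by linarith
      j0 := hvj0.le
      jX := by linarith
      S0 := by linarith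
      sm := hs
      sb := h2
      μθ := hμθ
      νθ := hν.le
      νξ := hνξ
      jn := fun l hl => by
        have h4 := mul_le_mul_of_nonneg_right (m1 l hl) (show 0 ≤ vj + 1 by linarith)
        linarith
      xn := fun l hl => by
        have h4 := mul_le_mul_of_nonneg_right (hs l hl) (show (0 : ℝ) ≤ X + 1 by linarith)
        linarith
      x1 := by linarith
      x2 := by
        rw [← hb]
        have : b * (X + 1) = Sm * (X + 1) + gap * (X + 1) := by rw [hgap]; ring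
        rw [this]
        linarith
      ξq := by linarith
      θq := by
        have h4 : θ * ξ ≤ ξ := mul_le_of_le_one_left hξ.le hθ1
        linarith
      j2 := by
        rw [← hb, ← hgap]
        linarith }

/-- The numbers of the bridge from a box. -/
theorem BoxN.muN {v X : ℕ} {Sl : ℕ → ℝ} {Sm ξ qr μ ν vj th κ₂ dW τ : ℝ}
    (N : BoxN (v + 1) X Sl Sm ξ qr μ ν vj th) (hτ : 0 < τ) (hτν : τ ≤ ν) (hd : dW ≤ 1)
    (hκ : 0 ≤ κ₂) (hk : (Sl (v + 1) - Sl v) * 2 ≤ κ₂ * ξ) :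
    MuN v X Sl Sm ξ qr μ vj κ₂ dW τ where
  X2 := N.X2
  Sm0 := N.S0
  sm := fun l hl => N.sm l (by omega)
  sb := N.sb.le
  t0 := hτ
  m0 := N.μ0
  q1 := by linarith [N.x1]
  q2 := N.x2
  x0 := N.ξ0.le
  x1 := N.ξq
  j0 := by linarith [N.j0]
  j1 := N.jX
  j2 := N.j2
  d1 := hd
  k0 := hκ
  kx := hk

/-- **The numbers of the record theorem from a box**, in the radius `K₀ + X + 1`: the bound is any
`C` with the three inequalities. -/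
theorem BoxN.muC {v X : ℕ} {Sl : ℕ → ℝ} {Sm ξ qr μ ν vj th K₀ C dW yp e : ℝ}
    (N : BoxN (v + 1) X Sl Sm ξ qr μ ν vj th) (hC0 : 0 < C)
    (hC : qr + ξ + μ ≤ C * (K₀ + X + 1)) (hξ : K₀ + X + 1 ≤ C * ξ) (hν : K₀ + X + 1 ≤ C * ν)
    (hd : 0 < dW) (hdν : dW ≤ ν / 8) (hdξ : dW ≤ ξ) (hy : 0 ≤ yp) (hyν : yp ≤ ν / 8)
    (hyμ : yp < μ) (hye : yp ≤ e * (K₀ + X + 1)) :
    MuC v Sl X vj qr ξ μ ν dW yp th K₀ (K₀ + X + 1) C e where
  q0 := N.q0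
  ξ0 := N.ξ0
  μ0 := N.μ0
  ν0 := N.ν0
  δ0 := hd
  δν := hdν
  δξ := hdξ
  y0 := hy
  yν := hyν
  yμ := hyμ
  j0 := by linarith [N.j0]
  X0 := by
    have : (0 : ℝ) ≤ X := Nat.cast_nonneg X
    linarith
  jn := fun l _ hl => N.jn l hl
  xn := fun l _ hl => N.xn l (by omega)
  xq := by linarith [N.x2, N.ξ0]
  qC := hC
  M1 := by
    have : (0 : ℝ) ≤ X := Nat.cast_nonneg X
    linarith
  Mj := by
    rw [abs_of_nonneg N.j0]
    linarith [N.jX]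
  MX := by
    rw [abs_of_nonneg (Nat.cast_nonneg X)]
    linarith
  ye := hye
  Cξ := by
    rw [div_le_iff₀ hC0]
    linarith
  Cν := by
    rw [div_le_iff₀ hC0]
    linarith
  μθ := N.μθ
  νθ := N.νθ
  θq := N.θq

/-- A bound `N + 1` for a box in any radius `M ≥ 1`, as large as we like. -/
theorem BoxN.nat_ex {n X : ℕ} {Sl : ℕ → ℝ} {Sm ξ qr μ ν vj th : ℝ}
    (N : BoxN n X Sl Sm ξ qr μ ν vj th) {M : ℝ} (hM : 1 ≤ M) (Z : ℝ) :
    ∃ N' : ℕ, Z ≤ N' + 1 ∧ qr + ξ + μ ≤ (N' + 1) * M ∧ M ≤ (N' + 1) * ξ ∧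
      M ≤ (N' + 1) * ν := by
  obtain ⟨k, hk⟩ := exists_nat_ge (max (max Z (qr + ξ + μ)) (max (M / ξ) (M / ν)))
  have k0 := ((le_max_left _ _).trans (le_max_left _ _)).trans hk
  have k1 := ((le_max_right _ _).trans (le_max_left _ _)).trans hk
  have k2 := (le_max_left _ _).trans ((le_max_right _ _).trans hk)
  have k3 := (le_max_right _ _).trans ((le_max_right _ _).trans hk)
  rw [div_le_iff₀ N.ξ0] at k2
  rw [div_le_iff₀ N.ν0] at k3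
  have hk0 : (0 : ℝ) ≤ k := Nat.cast_nonneg k
  refine ⟨k, by linarith, ?_, ?_, ?_⟩
  · have h1 : (k : ℝ) ≤ k * M := le_mul_of_one_le_right hk0 hM
    have h2 : (k + 1 : ℝ) * M = k * M + M := by ring
    linarith
  · have h2 : (k + 1 : ℝ) * ξ = k * ξ + ξ := by ring
    linarith [N.ξ0]
  · have h2 : (k + 1 : ℝ) * ν = k * ν + ν := by ring
    linarith [N.ν0]

/-- **The numbers exist**, if the slope of the target is larger than the slopes of the list: first the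
box A, then, for every bound `Q`, the box B with `Q ≤ qr` and the margin `C₁`. The window `dW` and the
margin `τ` may be smaller. -/
theorem mus_ex {v : ℕ} {Sl : ℕ → ℝ} (h1 : ∀ l ≤ v + 1, 1 ≤ Sl l)
    (h2 : ∀ l ≤ v + 1, Sl l < Sl (v + 2)) {κ₁ κ₂ θ' θ : ℝ} (hκ₁ : 0 < κ₁) (hκ₂ : 0 < κ₂)
    (hθ' : 0 < θ') (hθ'1 : θ' ≤ 1) (hθ : 0 < θ) (hθ1 : θ ≤ 1) {C₁ : ℝ} (hC₁ : 0 ≤ C₁) (E : ℝ) :
    ∃ (X' : ℕ) (Sm ξ' qr' μ' ν' vj' ξ : ℝ), BoxN (v + 2) X' Sl Sm ξ' qr' μ' ν' vj' θ' ∧ 0 < ξ ∧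
      ξ < κ₁ * ξ' ∧ ∀ Q : ℝ, ∃ (X : ℕ) (qr μ ν vj dW τ : ℝ),
        BoxN (v + 2) X Sl Sm ξ qr μ ν vj θ ∧
        (∀ l ≤ v + 1, Sl l * (X + 1) + C₁ * (ξ + μ + ν) ≤ qr) ∧
        Q ≤ qr ∧ Q ≤ X ∧ qr' + ξ' + ν ≤ qr ∧
        qr + ν ≤ Sl (v + 2) * (X + 1) ∧ 0 < dW ∧ dW ≤ ν' / 8 ∧ dW ≤ ξ' ∧
        dW ≤ ν / 8 ∧ dW ≤ ξ ∧ τ ≤ ν' ∧ τ ≤ ν ∧
        MuS v X' X Sl Sm ξ' qr' μ' vj' κ₁ ξ qr μ vj κ₂ dW τ E := by
  obtain ⟨l₀, hl₀, hmax⟩ := Finset.exists_max_image (range (v + 2)) Sl ⟨0, by simp⟩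
  rw [Finset.mem_range] at hl₀
  obtain ⟨Sm, hSm⟩ : ∃ Sm, Sm = Sl l₀ := ⟨_, rfl⟩
  have m1 : ∀ l < v + 2, Sl l ≤ Sm := fun l hl => by
    rw [hSm]
    exact hmax l (Finset.mem_range.2 hl)
  have Sm1 : 1 ≤ Sm := by rw [hSm]; exact h1 l₀ (by omega)
  have Smb : Sm < Sl (v + 2) := by rw [hSm]; exact h2 l₀ (by omega)
  have hv1 := h2 (v + 1) le_rfl
  have hv0 := h2 v (by omega)
  -- `ξ`
  obtain ⟨ξ, hξ⟩ : ∃ ξ, ξ = 2 * (Sl (v + 2) - Sl v) / κ₂ + 2 * (Sl (v + 2) - Sl (v + 1)) / κ₂ :=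
    ⟨_, rfl⟩
  have hξκ : κ₂ * ξ = 2 * (Sl (v + 2) - Sl v) + 2 * (Sl (v + 2) - Sl (v + 1)) := by
    rw [hξ]
    field_simp
  have hξ0 : 0 < ξ := by
    by_contra hcon
    have := mul_nonpos_of_nonneg_of_nonpos hκ₂.le (not_lt.1 hcon)
    linarith
  -- `ξ'`
  obtain ⟨ξ', hξ'⟩ : ∃ ξ', ξ' = ξ / κ₁ + 2 * (Sl (v + 2) - Sl (v + 1)) / κ₁ + ξ / θ' := ⟨_, rfl⟩
  have e1 : 0 < ξ / κ₁ := by positivity
  have e2 : 0 < 2 * (Sl (v + 2) - Sl (v + 1)) / κ₁ := div_pos (by linarith) hκ₁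
  have e3 : 0 < ξ / θ' := by positivity
  have hξ'0 : 0 < ξ' := by rw [hξ']; linarith
  have hξ'κ : ξ + 2 * (Sl (v + 2) - Sl (v + 1)) ≤ κ₁ * ξ' := by
    have h3 : κ₁ * (ξ / κ₁ + 2 * (Sl (v + 2) - Sl (v + 1)) / κ₁) =
        ξ + 2 * (Sl (v + 2) - Sl (v + 1)) := by field_simp
    have h4 : 0 < κ₁ * (ξ / θ') := by positivity
    rw [hξ', mul_add, h3]
    linarith
  have hξ'θ : ξ ≤ θ' * ξ' := by
    have h3 : θ' * (ξ / θ') = ξ := by field_simp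
    have h4 : 0 < θ' * (ξ / κ₁ + 2 * (Sl (v + 2) - Sl (v + 1)) / κ₁) := mul_pos hθ' (by linarith)
    rw [hξ', mul_add, h3]
    linarith
  obtain ⟨dd, hdd⟩ : ∃ dd, dd = Sl (v + 2) - Sl (v + 1) := ⟨_, rfl⟩
  have hdd0 : 0 < dd := by rw [hdd]; linarith
  obtain ⟨X', qr', vj', x0, xQ, -, -, NA⟩ := boxN_ex (n := v + 2) Sm1 m1 Smb hθ' hθ'1 hξ'0
    (mul_pos hθ' hξ'0) le_rfl le_rfl (3 * ξ / dd) 0
  have hdf : 3 * ξ ≤ dd * (X' + 1) := by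
    rw [div_le_iff₀ hdd0] at xQ
    linarith
  refine ⟨X', Sm, ξ', qr', θ' * ξ', θ' * ξ', vj', ξ, NA, hξ0, by linarith, fun Q => ?_⟩
  obtain ⟨X, qr, vj, y0, yQ, yq, yC, NB⟩ := boxN_ex (n := v + 2) Sm1 m1 Smb hθ hθ1 hξ0
    (mul_pos hθ hξ0) le_rfl hC₁ (max (max Q E) (qr' + ξ' + θ' * ξ' + θ * ξ + 1)) X'
  have hν0 : 0 < θ * ξ := mul_pos hθ hξ0
  have hνξ : θ * ξ ≤ ξ := mul_le_of_le_one_left hξ0.le hθ1
  have hν'0 : 0 < θ' * ξ' := mul_pos hθ' hξ'0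
  have hν'ξ : θ' * ξ' ≤ ξ' := mul_le_of_le_one_left hξ'0.le hθ'1
  obtain ⟨dW, hdW⟩ : ∃ dW : ℝ, dW = min 1 (θ * ξ / 8) := ⟨_, rfl⟩
  have hdW0 : 0 < dW := by rw [hdW]; exact lt_min one_pos (by positivity)
  have hdW1 : dW ≤ 1 := by rw [hdW]; exact min_le_left _ _
  have hdW2 : dW ≤ θ * ξ / 8 := by rw [hdW]; exact min_le_right _ _
  have yQ1 := ((le_max_left Q E).trans (le_max_left _ _)).trans yQ
  have yE := ((le_max_right Q E).trans (le_max_left _ _)).trans yQ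
  have yq1 := ((le_max_left Q E).trans (le_max_left _ _)).trans yq
  have yq2 := (le_max_right _ _).trans yq
  refine ⟨X, qr, θ * ξ, θ * ξ, vj, dW, θ * ξ, NB, fun l hl => yC l (by omega), yq1, yQ1,
    by linarith, by linarith [NB.x2],
    hdW0, by linarith, by linarith, hdW2, by linarith, by linarith, le_rfl, ?_⟩
  exact
    { A := NA.muN (v := v + 1) hν0 (by linarith) hdW1 hκ₁.le (by
        show (Sl (v + 2) - Sl (v + 1)) * 2 ≤ κ₁ * ξ'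
        linarith)
      B := NB.muN (v := v + 1) hν0 le_rfl hdW1 hκ₂.le (by
        show (Sl (v + 2) - Sl (v + 1)) * 2 ≤ κ₂ * ξ
        rw [hξκ]
        linarith)
      XX := y0
      mm := by linarith
      xi := by linarith
      qq := by linarith
      df := by
        rw [← hdd]
        linarith
      kx := by
        rw [hξκ]
        linarith
      far := by linarith }

end Pool.TN
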