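import Pool.Agent.H90.D2.Cas
import Pool.Agent.H4.D2.C61

/-!
# D2, the tie cell `(1,k,k;k+1)`, `k > 2`: the structure of one law

`PrC`: the data of one law. `PrS`: one scale: `s` digits of the label functions, `th` digits of the
position and of the own velocity. `budget_y`: the copies contain few bits given the record and the two
positions. `PrS.read`: the digits `th .. th + x` of the own velocity are not read from the copies and
the position of the second sample.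
-/

set_option autoImplicit false

namespace Pool.KPO

open Finset Real
open Pool.Agent.H49.Ent Pool.Agent.H32.Dense Pool.STK
open Pool.K2S
open Pool.KM7 (P2 P2_isLaw P2_pos)
open Pool.D2A Pool.D2T Pool.D2N

variable {Ω σ ζ ζ' ε : Type} [Fintype Ω]

/-- **The data of one law.** `E0` = the own velocity of `V0`, `A0` = the coefficients of the target in
the directions of the two rough functions, `M` = their slopes. -/
structure PrC (p : Ω → ℝ) (S : Ω → σ) (z : Ω → ζ) (z' : Ω → ζ') (e : Ω → ε) (E0 : ζ → ε → ℝ)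
    (A0 : ζ → ε → Fin 2 → ℝ) (M : Ω → Fin 2 → Fin 2 → ℝ) (ek : Ω → ℤ) (k K₀ : ℕ)
    (L κ cE eF : ℝ) : Prop where
  isLaw : IsLaw p
  dz : Det p z' z
  dS : Det p S z
  dM : Det p z' M
  de : Det p S e
  hL : 1 ≤ L
  hκ : 0 ≤ κ
  hK₀ : 1 ≤ K₀
  hcE : 0 ≤ cE
  bM : ∀ ω, 0 < p ω → ∀ i j, |M ω i j| ≤ L
  bE : ∀ ω, 0 < p ω → |E0 (z ω) (e ω)| ≤ L
  bA : ∀ ω, 0 < p ω → ∀ i, |A0 (z ω) (e ω) i| ≤ L
  cell : ∀ ω, 0 < p ω → |2 ^ k * E0 (z ω) (e ω) - ek ω| ≤ 1
  free : CH p e z ≤ CH p e z' + eF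
  rate : NoCov p ek z' K₀ cE
  vel : ∀ ω ω', 0 < p ω → 0 < p ω' → S ω = S ω' → ∀ i,
    |(M ω' i 0 - M ω i 0) + E0 (z ω) (e ω) * (M ω' i 1 - M ω i 1)| ≤ κ
  rel : ∀ ω ω', 0 < p ω → 0 < p ω' → S ω = S ω' →
    |∑ i, A0 (z ω) (e ω) i * (M ω' i 1 - M ω i 1)| ≤ κ

/-- **One scale.** `b` = the number of the target, `P` = the position, `eth`, `ey` = the cells of the
own velocity. -/
structure PrS (p : Ω → ℝ) (S : Ω → σ) (z : Ω → ζ) (z' : Ω → ζ') (e : Ω → ε) (E0 : ζ → ε → ℝ)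
    (A0 : ζ → ε → Fin 2 → ℝ) (M : Ω → Fin 2 → Fin 2 → ℝ) (b : Ω → ℤ) (P : Ω → Fin 2 → ℤ)
    (eth ey : Ω → ℤ) (A s th x K₁ : ℕ) (K cE eH eP : ℝ) : Prop where
  dP : Det p z' P
  hA : 1 ≤ A
  hK : 0 ≤ K
  hK₁ : 1 ≤ K₁
  bP : ∀ ω, 0 < p ω → ∀ j, |P ω j| ≤ ((A * 2 ^ th : ℕ) : ℤ)
  cth : ∀ ω, 0 < p ω → |2 ^ th * E0 (z ω) (e ω) - eth ω| ≤ 1
  cey : ∀ ω, 0 < p ω → |2 ^ (th + x) * E0 (z ω) (e ω) - ey ω| ≤ 1
  num : ∀ ω, 0 < p ω → |(b ω : ℝ) / 2 ^ s -
    ∑ i, A0 (z ω) (e ω) i * (M ω i 0 + E0 (z ω) (e ω) * M ω i 1)| ≤ K / 2 ^ s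
  few : CH p b (fun ω => (e ω, (z ω, P ω))) ≤ eH
  fullT : th * Real.log 2 - eP ≤ CH p (fun ω => P ω 0) S
  act : NoCov p ey (fun ω => (z' ω, eth ω)) K₁ cE
  mov : ∀ ω ω', 0 < p ω → 0 < p ω' → S ω = S ω' →
    |(P ω' 1 : ℝ) - P ω 1 - ((P ω' 0 : ℝ) - P ω 0) * E0 (z ω) (e ω)| ≤ K

variable {p : Ω → ℝ} {S : Ω → σ} {z : Ω → ζ} {z' : Ω → ζ'} {e : Ω → ε} {E0 : ζ → ε → ℝ}
  {A0 : ζ → ε → Fin 2 → ℝ} {M : Ω → Fin 2 → Fin 2 → ℝ} {ek : Ω → ℤ} {k K₀ : ℕ} {L κ cE eF : ℝ}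
  {b : Ω → ℤ} {P : Ω → Fin 2 → ℤ} {eth ey : Ω → ℤ} {A s th x K₁ : ℕ} {K eH eP : ℝ}

/-- The skeleton: the copies without numbers and positions. -/
theorem PrC.sk (C : PrC p S z z' e E0 A0 M ek k K₀ L κ cE eF) :
    PrD p S z z' e E0 A0 (fun _ _ _ => 0) (fun _ => 0) ek (fun _ _ => 0) (fun _ _ _ => 0)
      1 0 k K₀ L 0 cE eF 0 0 where
  isLaw := C.isLaw
  dz := C.dz
  dS := C.dS
  dP := fun _ _ _ _ _ => rfl
  dU := fun _ _ _ _ _ => rfl
  de := C.de
  hA := le_rfl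
  hL := C.hL
  hK := le_rfl
  hK₀ := C.hK₀
  hcE := C.hcE
  bP := fun ω _ j => by simp
  bU := fun ω _ i j => by
    have := C.hL
    simp
    linarith
  bE := C.bE
  bA := C.bA
  bT := fun ω _ i => by
    have := C.hL
    simp
    linarith
  cell := C.cell
  num := fun ω _ => by simp
  few := by
    refine le_of_eq (CH_eq_zero C.isLaw.nonneg ?_)
    intro ω ω' _ _ _
    rfl
  free := C.free
  fullP := by
    have h := CH_nonneg C.isLaw.nonneg (fun _ : Ω => fun _ : Fin 2 => (0 : ℤ)) z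
    simpa using h
  fullT := by
    have h := CH_nonneg C.isLaw.nonneg (fun _ : Ω => (0 : ℤ)) S
    simpa using h
  rate := C.rate
  mov := fun ω ω' _ _ _ => by simp
  vel := fun ω ω' _ _ _ i => by simp
  rel := fun ω ω' _ _ _ j => by simp

/-- **The budget** given the two positions. -/
theorem budget_y {β χ υ δ : Type} {N : ℕ} {p : Ω → ℝ} (hp : IsLaw p) {S : Ω → σ} {z : Ω → ζ}
    {z' : Ω → ζ'} {D : Ω → δ} (hz' : Det p z' z) (hD : Det p z' D) (hS : Det p S z)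
    (sd : Fin N → Bool) (e : Ω → ε) (B : Ω → β) {ηF ηH : ℝ}
    (hF : CH p e z ≤ CH p e z' + ηF) (hH : CH p B (fun ω => (e ω, (z ω, D ω))) ≤ ηH)
    (X : Ω × Ω → χ) (Y : Ω × Ω → υ) :
    CH (PL p S z' sd) (fun w => X w.1) (fun w => (Y w.1, (z w.1.1, (D w.1.1, D w.1.2)))) ≤
      CH (PL p S z' sd) (fun w => X w.1)
        (fun w => (Y w.1, ((fun r => (e (cp sd r w), B (cp sd r w))),
          (z w.1.1, (D w.1.1, D w.1.2))))) + N * (ηF + ηH) := by
  have h0 := hp.nonneg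
  have hq := (PL_isLaw hp S z' sd).nonneg
  obtain ⟨W, hW⟩ : ∃ W : (Ω × Ω) × (Fin N → Ω × Ω) → Fin N → ε × β,
    W = fun w r => (e (cp sd r w), B (cp sd r w)) := ⟨_, rfl⟩
  have h1 := Pool.KEND.info_symm hq (fun w => X w.1) W
    (fun w => (Y w.1, (z w.1.1, (D w.1.1, D w.1.2))))
  -- upper bound
  have h2 : CH (PL p S z' sd) W (fun w => (Y w.1, (z w.1.1, (D w.1.1, D w.1.2)))) ≤
      ∑ _r : Fin N, (CH p e z + ηH) := by
    refine (CH_fam hq W _).trans (Finset.sum_le_sum fun r _ => ?_)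
    have e2 : CH (PL p S z' sd) (fun w => W w r)
        (fun w => (Y w.1, (z w.1.1, (D w.1.1, D w.1.2)))) ≤
        CH (PL p S z' sd) (fun w => W w r) (fun w => (z (cp sd r w), D (cp sd r w))) := by
      refine CH_mono_cond hq fun w w' a b h => ?_
      have key : ∀ w, 0 < PL p S z' sd w → z (cp sd r w) = z w.1.1 ∧
          D (cp sd r w) = bif sd r then D w.1.1 else D w.1.2 := by
        intro w a
        obtain ⟨a1, a2, a3, a4⟩ := PL_pos hp S z' sd a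
        have e3 : 0 < p (sm sd r w.1) := by
          unfold sm
          cases sd r
          · exact a2
          · exact a1
        have e4 : z (sm sd r w.1) = z (cp sd r w) := hz' _ _ e3 (a4 r).1 (a4 r).2
        have e6 : D (sm sd r w.1) = D (cp sd r w) := hD _ _ e3 (a4 r).1 (a4 r).2
        have e5 : z (sm sd r w.1) = z w.1.1 := by
          unfold sm
          cases sd r
          · exact (hS _ _ a1 a2 a3).symm
          · rfl
        refine ⟨by rw [← e4, e5], ?_⟩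
        rw [← e6]
        unfold sm
        cases sd r <;> rfl
      simp only [Prod.mk.injEq] at h
      obtain ⟨-, h1, h2, h3⟩ := h
      show (z (cp sd r w), D (cp sd r w)) = (z (cp sd r w'), D (cp sd r w'))
      rw [(key w a).1, (key w' b).1, (key w a).2, (key w' b).2, h1, h2, h3]
    have e3 : CH (PL p S z' sd) (fun w => W w r) (fun w => (z (cp sd r w), D (cp sd r w))) =
        CH p (fun ω => (e ω, B ω)) (fun ω => (z ω, D ω)) := by
      rw [hW]
      exact (PL_cp hp S z' sd r).CH (fun ω => (e ω, B ω)) (fun ω => (z ω, D ω))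
    have e4 : CH p (fun ω => (e ω, B ω)) (fun ω => (z ω, D ω)) ≤ CH p e z + ηH := by
      have h5 := CH_chain h0 B e (fun ω => (z ω, D ω))
      have h6 : CH p (fun ω => (e ω, B ω)) (fun ω => (z ω, D ω)) =
          CH p (fun ω => (B ω, e ω)) (fun ω => (z ω, D ω)) :=
        CH_congr h0 (fun _ _ _ _ h => by
          simp only [Prod.mk.injEq] at h ⊢
          exact ⟨h.1.2, h.1.1⟩) (fun _ _ _ _ h => by
          simp only [Prod.mk.injEq] at h ⊢
          exact ⟨h.1.2, h.1.1⟩) (fun _ _ _ _ h => h) (fun _ _ _ _ h => h)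
      have h7 : CH p e (fun ω => (z ω, D ω)) ≤ CH p e z :=
        CH_mono_cond h0 fun _ _ _ _ h => (Prod.ext_iff.mp h).1
      rw [h6, h5]
      linarith
    linarith
  -- lower bound
  have h3 : ∑ _r : Fin N, CH p e z' ≤
      CH (PL p S z' sd) W (fun w => (X w.1, (Y w.1, (z w.1.1, (D w.1.1, D w.1.2))))) := by
    have e1 := cop_all hp S z' sd (fun (_ : Fin N) ω => (e ω, B ω))
    have e2 : ∑ _r : Fin N, CH p e z' ≤ ∑ _r : Fin N, CH p (fun ω => (e ω, B ω)) z' :=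
      Finset.sum_le_sum fun r _ => CH_mono_left h0 fun _ _ _ _ h => by
        simp only [Prod.mk.injEq] at h
        exact h.1.1
    have e3 : CH (PL p S z' sd) W (fun w => w.1) ≤
        CH (PL p S z' sd) W (fun w => (X w.1, (Y w.1, (z w.1.1, (D w.1.1, D w.1.2))))) :=
      CH_mono_cond hq fun w w' _ _ h => by
        have h' : w.1 = w'.1 := h
        rw [h']
    rw [hW] at e3 ⊢
    linarith
  simp only [Finset.sum_const, Finset.card_univ, Fintype.card_fin, nsmul_eq_mul] at h2 h3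
  have h4 : (N : ℝ) * CH p e z ≤ N * (CH p e z' + ηF) :=
    mul_le_mul_of_nonneg_left hF (Nat.cast_nonneg N)
  have h5 : CH (PL p S z' sd) (fun w => X w.1)
      (fun w => (W w, (Y w.1, (z w.1.1, (D w.1.1, D w.1.2))))) ≤
      CH (PL p S z' sd) (fun w => X w.1)
        (fun w => (Y w.1, (W w, (z w.1.1, (D w.1.1, D w.1.2))))) :=
    CH_mono_cond hq fun w w' _ _ h => by
      simp only [Prod.mk.injEq] at h ⊢
      exact ⟨h.2.1, h.1, h.2.2⟩
  rw [hW] at h1 h2 h3 h5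
  linarith

end Pool.KPO
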