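import Pool.Agent.H31.D2.Cy0

/-!
# D2, the tie cell `(1,k,k;k+1)`, `k > 2`: reading the deep digits of the own velocity
-/

set_option autoImplicit false

namespace Pool.KPO

open Finset Real
open Pool.Agent.H49.Ent Pool.Agent.H32.Dense Pool.STK
open Pool.K2S
open Pool.KM7 (P2 P2_isLaw P2_pos)
open Pool.D2A Pool.D2T Pool.D2N

variable {Ω σ ζ ζ' ε : Type} [Fintype Ω]
variable {p : Ω → ℝ} {S : Ω → σ} {z : Ω → ζ} {z' : Ω → ζ'} {e : Ω → ε} {E0 : ζ → ε → ℝ}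
  {A0 : ζ → ε → Fin 2 → ℝ} {M : Ω → Fin 2 → Fin 2 → ℝ} {ek : Ω → ℤ} {k K₀ : ℕ} {L κ cE eF : ℝ}
  {b : Ω → ℤ} {P : Ω → Fin 2 → ℤ} {eth ey : Ω → ℤ} {A s th x K₁ : ℕ} {K eH eP : ℝ}

/-- The information about the deep digits. -/
noncomputable def iY (A : ℕ) (K eF eH eP : ℝ) : ℝ :=
  10 * (eF + eH) + eP + Real.log (2 * A + 1) + Real.log (2 * (⌈K⌉₊ + 2 * A) + 2 : ℕ)

/-- The second coordinate of the position of the second sample. -/
theorem mov_cell {P₁ T T' E K : ℝ} {P' et : ℤ} {A th : ℕ}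
    (hm : |(P' : ℝ) - P₁ - (T' - T) * E| ≤ K) (hT : |T' - T| ≤ 2 * A * 2 ^ th)
    (he : |2 ^ th * E - et| ≤ 1) :
    P' ∈ Finset.Icc (⌊P₁ + (T' - T) * (et / 2 ^ th)⌋ - (⌈K⌉₊ + 2 * A : ℕ))
      (⌊P₁ + (T' - T) * (et / 2 ^ th)⌋ + 1 + (⌈K⌉₊ + 2 * A : ℕ)) := by
  obtain ⟨x, hx⟩ : ∃ x, x = P₁ + (T' - T) * (et / 2 ^ th) := ⟨_, rfl⟩
  have h0 : (0 : ℝ) < 2 ^ th := by positivity
  have h1 : |(T' - T) * (E - et / 2 ^ th)| ≤ 2 * A := by
    have h2 : |E - et / 2 ^ th| ≤ 1 / 2 ^ th := by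
      have e1 : E - et / 2 ^ th = (2 ^ th * E - et) / 2 ^ th := by
        field_simp
      rw [e1, abs_div, abs_of_pos h0]
      exact div_le_div_of_nonneg_right he h0.le
    rw [abs_mul]
    refine (mul_le_mul hT h2 (abs_nonneg _) (by positivity)).trans (le_of_eq ?_)
    field_simp
  have h2 : |(P' : ℝ) - x| ≤ (⌈K⌉₊ + 2 * A : ℕ) := by
    have e1 : (P' : ℝ) - x = ((P' : ℝ) - P₁ - (T' - T) * E) + (T' - T) * (E - et / 2 ^ th) := by
      rw [hx]
      ring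
    rw [e1]
    refine (abs_add_le _ _).trans ?_
    have h3 := Nat.le_ceil K
    push_cast
    linarith
  rw [← hx]
  rw [abs_le] at h2
  obtain ⟨n, hn⟩ : ∃ n : ℕ, n = ⌈K⌉₊ + 2 * A := ⟨_, rfl⟩
  rw [← hn] at h2 ⊢
  have h3 := Int.floor_le x
  have h4 := Int.lt_floor_add_one x
  rw [Finset.mem_Icc]
  constructor
  · have : ((⌊x⌋ - n - 1 : ℤ) : ℝ) < P' := by
      push_cast
      linarith [h2.1]
    have h5 : (⌊x⌋ - n - 1 : ℤ) < P' := by exact_mod_cast this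
    omega
  · have : (P' : ℝ) < ((⌊x⌋ + 1 + n : ℤ) : ℝ) + 1 := by
      push_cast
      linarith [h2.2]
    have h5 : P' < (⌊x⌋ + 1 + n : ℤ) + 1 := by exact_mod_cast this
    omega

/-- **The position of the second sample**: few bits beyond its time. -/
theorem PrS.posL (C : PrC p S z z' e E0 A0 M ek k K₀ L κ cE eF)
    (D : PrS p S z z' e E0 A0 M b P eth ey A s th x K₁ K cE eH eP) :
    CH (PL p S z' sd10) (fun w => P w.1.2) (fun w => (z' w.1.1, eth w.1.1)) ≤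
      th * Real.log 2 + Real.log (2 * A + 1) + Real.log (2 * (⌈K⌉₊ + 2 * A) + 2 : ℕ) := by
  have hp := C.isLaw
  have hQ := PL_isLaw hp S z' sd10
  have hq := hQ.nonneg
  have h1 : CH (PL p S z' sd10) (fun w => P w.1.2) (fun w => (z' w.1.1, eth w.1.1)) ≤
      CH (PL p S z' sd10) (fun w => (P w.1.2 1, P w.1.2 0)) (fun w => (z' w.1.1, eth w.1.1)) := by
    refine CH_mono_left hq ?_
    intro w w' _ _ h
    simp only [Prod.mk.injEq] at h
    funext j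
    revert j
    exact Fin.forall_fin_two.mpr ⟨h.1.2, h.1.1⟩
  have h2 := CH_chain hq (fun w : (Ω × Ω) × (Fin 10 → Ω × Ω) => P w.1.2 1) (fun w => P w.1.2 0)
    (fun w => (z' w.1.1, eth w.1.1))
  have h3 : CH (PL p S z' sd10) (fun w => P w.1.2 0) (fun w => (z' w.1.1, eth w.1.1)) ≤
      th * Real.log 2 + Real.log (2 * A + 1) := by
    have h4 := Pool.D2P.CH_card hQ (fun w => P w.1.2 0) (fun w => (z' w.1.1, eth w.1.1))
      (fun _ => Finset.Icc (-((A * 2 ^ th : ℕ) : ℤ)) ((A * 2 ^ th : ℕ) : ℤ))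
      (2 * (A * 2 ^ th) + 1)
      (fun w hw => by
        have h2 := D.bP _ (PL_pos hp S z' sd10 hw).2.1 0
        rw [abs_le] at h2
        exact Finset.mem_Icc.2 h2)
      (fun w _ => by
        rw [Int.card_Icc]
        omega)
    refine h4.trans ?_
    have e1 : th * Real.log 2 + Real.log (2 * A + 1) = Real.log (2 ^ th * (2 * A + 1)) := by
      rw [Real.log_mul (by positivity) (by positivity), Real.log_pow]
    rw [e1]
    refine Real.log_le_log (by positivity) ?_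
    push_cast
    have : (1 : ℝ) ≤ 2 ^ th := one_le_pow₀ (by norm_num)
    nlinarith
  have h4 : CH (PL p S z' sd10) (fun w => P w.1.2 1)
      (fun w => (P w.1.2 0, (z' w.1.1, eth w.1.1))) ≤
      Real.log (2 * (⌈K⌉₊ + 2 * A) + 2 : ℕ) := by
    have h5 : CH (PL p S z' sd10) (fun w => P w.1.2 1)
        (fun w => (P w.1.2 0, (z' w.1.1, eth w.1.1))) ≤
        CH (PL p S z' sd10) (fun w => P w.1.2 1)
        (fun w => ((P w.1.2 0, P w.1.1), eth w.1.1)) :=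
      CH_mono_cond hq fun w w' a b h => by
        simp only [Prod.mk.injEq] at h ⊢
        exact ⟨⟨h.1, D.dP _ _ (PL_pos hp S z' sd10 a).1 (PL_pos hp S z' sd10 b).1 h.2.1⟩,
          h.2.2⟩
    refine h5.trans ?_
    refine Pool.D2P.CH_card hQ (fun w => P w.1.2 1)
      (fun w => ((P w.1.2 0, P w.1.1), eth w.1.1))
      (fun y : (ℤ × (Fin 2 → ℤ)) × ℤ => Finset.Icc
        (⌊(y.1.2 1 : ℝ) + ((y.1.1 : ℝ) - y.1.2 0) * (y.2 / 2 ^ th)⌋ - (⌈K⌉₊ + 2 * A : ℕ))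
        (⌊(y.1.2 1 : ℝ) + ((y.1.1 : ℝ) - y.1.2 0) * (y.2 / 2 ^ th)⌋ + 1 + (⌈K⌉₊ + 2 * A : ℕ)))
      (2 * (⌈K⌉₊ + 2 * A) + 2) (fun w hw => ?_) (fun w _ => ?_)
    · obtain ⟨a1, a2, a3, -⟩ := PL_pos hp S z' sd10 hw
      refine mov_cell (E := E0 (z w.1.1) (e w.1.1)) (D.mov _ _ a1 a2 a3) ?_ (D.cth _ a1)
      have b1 := D.bP _ a1 0
      have b2 := D.bP _ a2 0
      have b3 : |(P w.1.1 0 : ℝ)| ≤ ((A * 2 ^ th : ℕ) : ℝ) := by exact_mod_cast b1
      have b4 : |(P w.1.2 0 : ℝ)| ≤ ((A * 2 ^ th : ℕ) : ℝ) := by exact_mod_cast b2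
      push_cast at b3 b4
      have := abs_sub (P w.1.2 0 : ℝ) (P w.1.1 0)
      linarith
    · rw [Int.card_Icc]
      omega
  linarith

/-- **The deep digits are free** given the copies and the second position. -/
theorem PrS.hIy (C : PrC p S z z' e E0 A0 M ek k K₀ L κ cE eF)
    (D : PrS p S z z' e E0 A0 M b P eth ey A s th x K₁ K cE eH eP) :
    CH (PL p S z' sd10) (fun w => ey w.1.1) (fun w => (z' w.1.1, eth w.1.1)) - iY A K eF eH eP ≤
      CH (PL p S z' sd10) (fun w => ey w.1.1)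
        (fun w => (((Wc e b w, P w.1.2), z w.1.1), (z' w.1.1, eth w.1.1))) := by
  have hp := C.isLaw
  have hQ := PL_isLaw hp S z' sd10
  have hq := hQ.nonneg
  have h1 := Pool.KEND.info_symm hq (fun w : (Ω × Ω) × (Fin 10 → Ω × Ω) => ey w.1.1)
    (fun w => P w.1.2) (fun w => (z' w.1.1, eth w.1.1))
  have h2 := PrS.posL C D
  have h3 : CH p (fun ω => P ω 0) S ≤ CH (PL p S z' sd10) (fun w => P w.1.2)
      (fun w => (ey w.1.1, (z' w.1.1, eth w.1.1))) := by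
    rw [← PL_time hp S z' sd10 (fun ω => P ω 0)]
    refine (CH_mono_cond (W := fun w => (ey w.1.1, (z' w.1.1, eth w.1.1))) hq ?_).trans
      (CH_mono_left hq ?_)
    · intro w w' _ _ h
      have h' : w.1.1 = w'.1.1 := h
      simp only [h']
    · intro w w' _ _ h
      simp only [Prod.mk.injEq] at h
      exact congrFun h.1 0
  have h4 := D.fullT
  have h5 := budget_y hp C.dz D.dP C.dS sd10 e b C.free D.few (fun v => ey v.1)
    (fun v => (z' v.1, eth v.1))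
  have h6 : CH (PL p S z' sd10) (fun w => ey w.1.1)
      (fun w => (P w.1.2, (z' w.1.1, eth w.1.1))) ≤ CH (PL p S z' sd10) (fun w => ey w.1.1)
      (fun w => ((z' w.1.1, eth w.1.1), (z w.1.1, (P w.1.1, P w.1.2)))) := by
    refine CH_mono_cond hq fun w w' a b h => ?_
    simp only [Prod.mk.injEq] at h ⊢
    have a1 := (PL_pos hp S z' sd10 a).1
    have b1 := (PL_pos hp S z' sd10 b).1
    exact ⟨h.2, C.dz _ _ a1 b1 h.2.1, D.dP _ _ a1 b1 h.2.1, h.1⟩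
  have h7 : CH (PL p S z' sd10) (fun w => ey w.1.1)
      (fun w => ((z' w.1.1, eth w.1.1), ((fun r => (e (cp sd10 r w), b (cp sd10 r w))),
        (z w.1.1, (P w.1.1, P w.1.2))))) ≤ CH (PL p S z' sd10) (fun w => ey w.1.1)
        (fun w => (((Wc e b w, P w.1.2), z w.1.1), (z' w.1.1, eth w.1.1))) := by
    refine CH_mono_cond hq fun w w' _ _ h => ?_
    simp only [Prod.mk.injEq] at h ⊢
    exact ⟨⟨⟨h.2.1, h.2.2.2.2⟩, h.2.2.1⟩, h.1⟩
  push_cast at h5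
  unfold iY
  linarith

/-- **Reading the deep digits.** -/
theorem PrS.read (C : PrC p S z z' e E0 A0 M ek k K₀ L κ cE eF)
    (D : PrS p S z z' e E0 A0 M b P eth ey A s th x K₁ K cE eH eP) {c : ℝ} (hc : 0 < c)
    (G : (Ω × Ω) × (Fin 10 → Ω × Ω) → Prop) (F : (Fin 10 → ε × ℤ) → ζ → Finset ℤ) (K' : ℕ)
    (hF : ∀ w, 0 < PL p S z' sd10 w → G w → ey w.1.1 ∈ F (Wc e b w) (z w.1.1) ∧
      (F (Wc e b w) (z w.1.1)).card ≤ K')
    (hn : (iY A K eF eH eP + Real.log 2) / c + Real.log K' < (1 - cE / c) * Real.log K₁) :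
    law (PL p S z' sd10) G True < c := by
  have hQ := PL_isLaw C.isLaw S z' sd10
  exact Pool.D2P.read_cov hQ (fun w => ey w.1.1)
    (fun w => ((Wc e b w, P w.1.2), z w.1.1)) (fun w => (z' w.1.1, eth w.1.1)) G
    (fun W _ => F W.1.1 W.2) K' hc (PrS.hIy C D)
    (fun hG => ev_of_nocov hQ (PL_fst C.isLaw S z' sd10) ey (fun ω => (z' ω, eth ω)) D.hK₁ C.hcE
      D.act hc G hG) hF hn

end Pool.KPO
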