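import Pool.Agent.H31.D2.Cy1

/-!
# D2, the tie cell `(1,k,k;k+1)`, `k > 2`: pointwise lemmas
-/

set_option autoImplicit false

namespace Pool.KPO

open Finset Real
open Pool.D2A Pool.D2N Pool.D2G Pool.D2JA

/-! ### Reading a ratio -/

/-- The cells near a ratio. -/
noncomputable def Fr (N : ℕ) (d0 d1 : ℝ) : Finset ℤ :=
  Finset.Icc ⌈2 ^ N * (-d0 / d1) - 2⌉ ⌊2 ^ N * (-d0 / d1) + 2⌋

theorem Fr_card (N : ℕ) (d0 d1 : ℝ) : (Fr N d0 d1).card ≤ 5 := by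
  unfold Fr
  obtain ⟨y, hy⟩ : ∃ y : ℝ, y = 2 ^ N * (-d0 / d1) := ⟨_, rfl⟩
  rw [← hy, Int.card_Icc]
  have h1 := Int.floor_le (y + 2)
  have h2 := Int.le_ceil (y - 2)
  have h3 : ((⌊y + 2⌋ : ℤ) : ℝ) ≤ ((⌈y - 2⌉ + 4 : ℤ) : ℝ) := by
    push_cast
    linarith
  have h4 : ⌊y + 2⌋ ≤ ⌈y - 2⌉ + 4 := by exact_mod_cast h3
  omega

theorem Fr_mem {N : ℕ} {d0 d1 E κ ρ : ℝ} {e : ℤ} (hρ : 0 < ρ) (h : |d0 + E * d1| ≤ κ)
    (h1 : ρ ≤ |d1|) (hN : 2 ^ N * κ ≤ ρ) (he : |2 ^ N * E - e| ≤ 1) : e ∈ Fr N d0 d1 := by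
  have hd : 0 < |d1| := lt_of_lt_of_le hρ h1
  have hd1 : d1 ≠ 0 := abs_pos.mp hd
  have hN0 : (0 : ℝ) < 2 ^ N := by positivity
  have h2 : |2 ^ N * (-d0 / d1) - 2 ^ N * E| ≤ 1 := by
    have e1 : 2 ^ N * (-d0 / d1) - 2 ^ N * E = -(2 ^ N * ((d0 + E * d1) / d1)) := by
      field_simp
      ring
    rw [e1, abs_neg, abs_mul, abs_of_pos hN0, abs_div, ← mul_div_assoc, div_le_one hd]
    have := mul_le_mul_of_nonneg_left h hN0.le
    linarith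
  obtain ⟨y, hy⟩ : ∃ y : ℝ, y = 2 ^ N * (-d0 / d1) := ⟨_, rfl⟩
  unfold Fr
  rw [← hy] at h2 ⊢
  rw [abs_le] at h2 he
  rw [Finset.mem_Icc]
  constructor
  · rw [Int.ceil_le]
    linarith [h2.2, he.1, he.2]
  · rw [Int.le_floor]
    linarith [h2.1, he.1, he.2]

/-! ### Case [2a]: one sample -/

/-- The error of the transversal relation. -/
noncomputable def e5 (L μ η δ : ℝ) : ℝ := (η + 8 * L ^ 2 * δ / μ) * (4 * L ^ 2 / μ)

section ptb

variable {L μ η e δ E t b : ℝ} {G : Fin 2 → Fin 2 → ℝ} {A T p : Fin 2 → ℝ}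
  {u u' : Fin 2 → Fin 2 → ℝ} {m0 n0 : Fin 3 → ℝ} {m1 n1 : Fin 3 → Fin 2 → ℝ}

theorem e5_nn (hL : 0 ≤ L) (hμ : 0 < μ) (hη : 0 ≤ η) (hδ : 0 ≤ δ) : 0 ≤ e5 L μ η δ := by
  unfold e5
  positivity

/-- **The transversal relation.** -/
theorem ptb_apx (D : PtB L μ η e δ E t b G A T p u u' m0 n0 m1 n1) (hT : ∀ j, T j = 0)
    (j : Fin 2) : |(G 0 0 * (u' 0 j - u 0 j) + G 1 0 * (u' 1 j - u 1 j)) +
      E * (G 0 1 * (u' 0 j - u 0 j) + G 1 1 * (u' 1 j - u 1 j))| ≤ e5 L μ η δ := by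
  have hL := D.hL
  have hμ := D.hμ
  have hη := D.eta
  have hδ := D.del
  have hfg := D.fac_ge
  obtain ⟨a, ha⟩ : ∃ a, a = fac A (ap G ![1, E]) := ⟨_, rfl⟩
  rw [← ha] at hfg
  have hpar : ∀ i, |A i - a * ap G ![1, E] i| ≤ 2 * L * δ / μ := by
    intro i
    rw [ha]
    exact D.par i
  have e0 : ∀ i, ap G ![1, E] i = G i 0 + E * G i 1 := by
    intro i
    unfold ap
    simp only [Matrix.cons_val_zero, Matrix.cons_val_one]
    ring
  obtain ⟨X, hX⟩ : ∃ X, X = (G 0 0 * (u' 0 j - u 0 j) + G 1 0 * (u' 1 j - u 1 j)) +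
      E * (G 0 1 * (u' 0 j - u 0 j) + G 1 1 * (u' 1 j - u 1 j)) := ⟨_, rfl⟩
  have key : a * X = (2 * t * T j + (A 0 * (u' 0 j - u 0 j) + A 1 * (u' 1 j - u 1 j))) -
        (A 0 - a * ap G ![1, E] 0) * (u' 0 j - u 0 j) -
        (A 1 - a * ap G ![1, E] 1) * (u' 1 j - u 1 j) := by
    rw [e0, e0, hT, hX]
    ring
  have hdu : ∀ i, |u' i j - u i j| ≤ 2 * L := by
    intro i
    have h5 := abs_sub (u' i j) (u i j)
    have h6 := D.hu i j
    have h7 := D.hu' i j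
    linarith
  have h5 : ∀ i, |(A i - a * ap G ![1, E] i) * (u' i j - u i j)| ≤
      2 * L * δ / μ * (2 * L) := by
    intro i
    rw [abs_mul]
    exact mul_le_mul (hpar i) (hdu i) (abs_nonneg _) (by positivity)
  have h6 := abs_sub ((2 * t * T j + (A 0 * (u' 0 j - u 0 j) + A 1 * (u' 1 j - u 1 j))) -
      (A 0 - a * ap G ![1, E] 0) * (u' 0 j - u 0 j))
      ((A 1 - a * ap G ![1, E] 1) * (u' 1 j - u 1 j))
  have h7 := abs_sub (2 * t * T j + (A 0 * (u' 0 j - u 0 j) + A 1 * (u' 1 j - u 1 j)))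
      ((A 0 - a * ap G ![1, E] 0) * (u' 0 j - u 0 j))
  have h8 := D.g5 j
  have h9 := h5 0
  have h10 := h5 1
  have e1 : 2 * L * δ / μ * (2 * L) + 2 * L * δ / μ * (2 * L) = 8 * L ^ 2 * δ / μ := by ring
  have h11 : |a * X| ≤ η + 8 * L ^ 2 * δ / μ := by
    rw [key]
    linarith
  rw [abs_mul] at h11
  rw [← hX]
  have h12 : μ / (4 * L ^ 2) * |X| ≤ η + 8 * L ^ 2 * δ / μ :=
    (mul_le_mul_of_nonneg_right hfg (abs_nonneg _)).trans h11
  unfold e5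
  have h13 : |X| = (μ / (4 * L ^ 2) * |X|) * (4 * L ^ 2 / μ) := by
    field_simp
  rw [h13]
  exact mul_le_mul_of_nonneg_right h12 (by positivity)

/-- The relation of the velocities. -/
theorem ptb_vel (D : PtB L μ η e δ E t b G A T p u u' m0 n0 m1 n1) (i : Fin 2) :
    |(G 0 i * (u' 0 0 - u 0 0) + G 1 i * (u' 1 0 - u 1 0)) +
      E * (G 0 i * (u' 0 1 - u 0 1) + G 1 i * (u' 1 1 - u 1 1))| ≤ 2 * L * η := by
  have hL := D.hL
  have e1 : (G 0 i * (u' 0 0 - u 0 0) + G 1 i * (u' 1 0 - u 1 0)) +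
      E * (G 0 i * (u' 0 1 - u 0 1) + G 1 i * (u' 1 1 - u 1 1)) =
      G 0 i * ((u' 0 0 - u 0 0) + E * (u' 0 1 - u 0 1)) +
        G 1 i * ((u' 1 0 - u 1 0) + E * (u' 1 1 - u 1 1)) := by ring
  rw [e1]
  have h2 : |G 0 i * ((u' 0 0 - u 0 0) + E * (u' 0 1 - u 0 1))| ≤ L * η := by
    rw [abs_mul]
    exact mul_le_mul (D.hG 0 i) (D.g3 0) (abs_nonneg _) (by linarith)
  have h3 : |G 1 i * ((u' 1 0 - u 1 0) + E * (u' 1 1 - u 1 1))| ≤ L * η := by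
    rw [abs_mul]
    exact mul_le_mul (D.hG 1 i) (D.g3 1) (abs_nonneg _) (by linarith)
  refine (abs_add_le _ _).trans ?_
  linarith

/-- **The linear relation of the own velocity.** -/
theorem ptb_lin (D : PtB L μ η e δ E t b G A T p u u' m0 n0 m1 n1) (hT : ∀ j, T j = 0) :
    |(sy G u' 1 - sy G u 1) + E * (sy G u' 2 - sy G u 2)| ≤ (e5 L μ η δ + 2 * L * η) / 2 := by
  obtain ⟨-, s1, s2⟩ := sy_dif G u u'
  rw [s1, s2]
  have h1 := ptb_apx D hT 1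
  have h2 := ptb_vel D 1
  have e1 : ((G 0 0 * (u' 0 1 - u 0 1) + G 1 0 * (u' 1 1 - u 1 1)) +
      (G 0 1 * (u' 0 0 - u 0 0) + G 1 1 * (u' 1 0 - u 1 0))) / 2 +
      E * (G 0 1 * (u' 0 1 - u 0 1) + G 1 1 * (u' 1 1 - u 1 1)) =
      (((G 0 0 * (u' 0 1 - u 0 1) + G 1 0 * (u' 1 1 - u 1 1)) +
      E * (G 0 1 * (u' 0 1 - u 0 1) + G 1 1 * (u' 1 1 - u 1 1))) +
      ((G 0 1 * (u' 0 0 - u 0 0) + G 1 1 * (u' 1 0 - u 1 0)) +
      E * (G 0 1 * (u' 0 1 - u 0 1) + G 1 1 * (u' 1 1 - u 1 1)))) / 2 := by ring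
  rw [e1, abs_div, abs_two]
  refine div_le_div_of_nonneg_right ?_ (by norm_num)
  exact (abs_add_le _ _).trans (add_le_add h1 h2)

/-- The reading of the form. -/
theorem ptb_rd (D : PtB L μ η e δ E t b G A T p u u' m0 n0 m1 n1) (hm : ∀ i j, m1 i j = 0)
    (hn : ∀ i j, n1 i j = 0) (i : Fin 3) :
    |(sy G u' i - sy G u i) - (n0 i - m0 i)| ≤ η + e := by
  have h1 := D.g1 i
  have h2 := D.g2 i
  rw [Fin.sum_univ_two, hm, hm, zero_mul, zero_mul, add_zero, sub_zero] at h1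
  rw [Fin.sum_univ_two, hn, hn, zero_mul, zero_mul, add_zero, sub_zero] at h2
  have e1 : (sy G u' i - sy G u i) - (n0 i - m0 i) = (sy G u' i - n0 i) - (sy G u i - m0 i) := by
    ring
  rw [e1]
  refine (abs_sub _ _).trans ?_
  linarith

/-- The error of the linear relation of the readings. -/
noncomputable def e6 (L μ η e δ : ℝ) : ℝ := (e5 L μ η δ + 2 * L * η) / 2 + (1 + L) * (η + e)

/-- **The linear relation of the readings.** -/
theorem ptb_rel (D : PtB L μ η e δ E t b G A T p u u' m0 n0 m1 n1) (hT : ∀ j, T j = 0)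
    (hm : ∀ i j, m1 i j = 0) (hn : ∀ i j, n1 i j = 0) :
    |(n0 1 - m0 1) + E * (n0 2 - m0 2)| ≤ e6 L μ η e δ := by
  have h1 := ptb_lin D hT
  have h2 := ptb_rd D hm hn 1
  have h3 := ptb_rd D hm hn 2
  have h4 : |E * ((sy G u' 2 - sy G u 2) - (n0 2 - m0 2))| ≤ L * (η + e) := by
    rw [abs_mul]
    exact mul_le_mul D.hE h3 (abs_nonneg _) (by linarith [D.hL])
  have e1 : (n0 1 - m0 1) + E * (n0 2 - m0 2) =
      ((sy G u' 1 - sy G u 1) + E * (sy G u' 2 - sy G u 2)) -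
      ((sy G u' 1 - sy G u 1) - (n0 1 - m0 1)) -
      E * ((sy G u' 2 - sy G u 2) - (n0 2 - m0 2)) := by ring
  rw [e1]
  refine (abs_sub _ _).trans ((add_le_add (abs_sub _ _) le_rfl).trans ?_)
  unfold e6
  linarith

/-- **The end of case [2a].** -/
theorem ptb_fin (D : PtB L μ η e δ E t b G A T p u u' m0 n0 m1 n1) (hT : ∀ j, T j = 0) {ν : ℝ}
    (h : |sy G u' 2 - sy G u 2| ≤ ν) (i j : Fin 2) :
    |u' i j - u i j| ≤ 2 * L * (2 * L * η + L * e5 L μ η δ + L ^ 2 * ν) / μ := by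
  have hL := D.hL
  have hμ := D.hμ
  have hη := D.eta
  have hδ := D.del
  have hE := D.hE
  have hν : 0 ≤ ν := (abs_nonneg _).trans h
  have h5 : 0 ≤ e5 L μ η δ := e5_nn (by linarith) hμ hη hδ
  obtain ⟨-, -, s2⟩ := sy_dif G u u'
  rw [s2] at h
  obtain ⟨N, hN⟩ : ∃ N : Fin 2 → Fin 2 → ℝ, N = fun i j =>
    G 0 i * (u' 0 j - u 0 j) + G 1 i * (u' 1 j - u 1 j) := ⟨_, rfl⟩
  have n11 : |N 1 1| ≤ ν := by rw [hN]; exact h
  have a1 : |N 0 1 + E * N 1 1| ≤ e5 L μ η δ := by rw [hN]; exact ptb_apx D hT 1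
  have v0 : |N 0 0 + E * N 0 1| ≤ 2 * L * η := by rw [hN]; exact ptb_vel D 0
  have v1 : |N 1 0 + E * N 1 1| ≤ 2 * L * η := by rw [hN]; exact ptb_vel D 1
  have tr : ∀ x y C : ℝ, |x + E * y| ≤ C → ∀ Y : ℝ, |y| ≤ Y → |x| ≤ C + L * Y := by
    intro x y C h Y hY
    have e1 : x = (x + E * y) - E * y := by ring
    have h2 : |E * y| ≤ L * Y := by
      rw [abs_mul]
      exact mul_le_mul hE hY (abs_nonneg _) (by linarith)
    rw [e1]
    exact (abs_sub _ _).trans (add_le_add h h2)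
  have n01 := tr _ _ _ a1 _ n11
  have n10 := tr _ _ _ v1 _ n11
  have n00 := tr _ _ _ v0 _ n01
  have k1 : ν ≤ L * ν := by nlinarith
  have k2 : L * ν ≤ L ^ 2 * ν := by nlinarith [mul_nonneg hν (by linarith : (0 : ℝ) ≤ L - 1)]
  have k3 : e5 L μ η δ ≤ L * e5 L μ η δ := by nlinarith
  have k4 : 0 ≤ 2 * L * η := by positivity
  have hb : ∀ i j, |N i j| ≤ 2 * L * η + L * e5 L μ η δ + L ^ 2 * ν := by
    intro i j
    fin_cases i <;> fin_cases j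
    · show |N 0 0| ≤ _
      refine n00.trans (le_of_eq ?_)
      ring
    · show |N 0 1| ≤ _
      linarith
    · show |N 1 0| ≤ _
      linarith
    · show |N 1 1| ≤ _
      linarith
  exact end3 (by linarith) hμ D.hG D.hd (fun i j => by rw [hN]) hb i j

end ptb

/-! ### Case [2b]: one sample -/

/-- **The germ of the slopes** from four copies, without positions. -/
theorem g4r {L K κ : ℝ} (hL : 1 ≤ L) (hκ : 0 < κ) {Aa : Fin 4 → Fin 2 → ℝ}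
    {Ea ba : Fin 4 → ℝ} {U : Fin 2 → Fin 2 → ℝ} (hA : ∀ a i, |Aa a i| ≤ L)
    (hE : ∀ a, |Ea a| ≤ L) (hdet : κ ≤ |(f4 Aa Ea).det|)
    (hrel : ∀ a, |ba a - ∑ i, Aa a i * (U i 0 + Ea a * U i 1)| ≤ K) (i j : Fin 2) :
    |U i j - m40 Aa Ea ba (ix i j)| ≤ cK 4 (L ^ 2) κ * K := by
  have h := (germ4 (Ta := fun _ _ => 0) (Pt := fun _ => 0) hL hκ hA hE
    (fun _ _ => by
      rw [abs_zero]
      linarith) hdet (fun a => by
      simp only [mul_zero, Finset.sum_const_zero, sub_zero]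
      exact hrel a)).1 (ix i j)
  simp only [mul_zero, Finset.sum_const_zero, sub_zero] at h
  rwa [U4_ix] at h

/-- The relation of the readings. -/
theorem rd_b {u₀ u₁ u₀' u₁' d₀ d₁ E κ Q L : ℝ} (hv : |(u₀' - u₀) + E * (u₁' - u₁)| ≤ κ)
    (h₀ : |(u₀' - u₀) - d₀| ≤ 2 * Q) (h₁ : |(u₁' - u₁) - d₁| ≤ 2 * Q) (hE : |E| ≤ L) :
    |d₀ + E * d₁| ≤ κ + 2 * Q * (1 + L) := by
  have h2 : |E * ((u₁' - u₁) - d₁)| ≤ L * (2 * Q) := by
    rw [abs_mul]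
    exact mul_le_mul hE h₁ (abs_nonneg _) ((abs_nonneg _).trans hE)
  have e1 : d₀ + E * d₁ = ((u₀' - u₀) + E * (u₁' - u₁)) - ((u₀' - u₀) - d₀) -
      E * ((u₁' - u₁) - d₁) := by ring
  rw [e1]
  refine (abs_sub _ _).trans ((add_le_add (abs_sub _ _) le_rfl).trans ?_)
  linarith

/-! ### Nearly parallel functionals -/

/-- **A vector nearly parallel to the own functional** kills the difference. -/
theorem par_kil {a a' Δ : Fin 2 → ℝ} {μ μ₁ L κ R : ℝ} (hμ : 0 < μ) (ha : ∃ i, μ ≤ |a i|)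
    (ha' : ∀ i, |a' i| ≤ L) (hw : |w2 a a'| ≤ μ₁) (hk : |∑ i, a i * Δ i| ≤ κ)
    (hΔ : ∀ i, |Δ i| ≤ R) : |∑ i, a' i * Δ i| ≤ L / μ * κ + μ₁ / μ * R := by
  rw [Fin.sum_univ_two] at hk ⊢
  have hμ₁ : 0 ≤ μ₁ := (abs_nonneg _).trans hw
  have hκ : 0 ≤ κ := (abs_nonneg _).trans hk
  have hL : 0 ≤ L := (abs_nonneg _).trans (ha' 0)
  have key : ∀ x y x' y' u v : ℝ, μ ≤ |x| → |x'| ≤ L → |x * y' - y * x'| ≤ μ₁ →
      |x * u + y * v| ≤ κ → |v| ≤ R → |x' * u + y' * v| ≤ L / μ * κ + μ₁ / μ * R := by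
    intro x y x' y' u v hx hx' hw hk hv
    have hx0 : 0 < |x| := lt_of_lt_of_le hμ hx
    have hx1 : x ≠ 0 := abs_pos.mp hx0
    have e1 : x' * u + y' * v = x' / x * (x * u + y * v) + (x * y' - y * x') / x * v := by
      field_simp
      ring
    rw [e1]
    refine (abs_add_le _ _).trans (add_le_add ?_ ?_)
    · rw [abs_mul, abs_div]
      refine mul_le_mul ?_ hk (abs_nonneg _) (by positivity)
      exact div_le_div₀ hL hx' hμ hx
    · rw [abs_mul, abs_div]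
      refine mul_le_mul ?_ hv (abs_nonneg _) (by positivity)
      exact div_le_div₀ hμ₁ hw hμ hx
  obtain ⟨i, hi⟩ := ha
  unfold w2 at hw
  fin_cases i
  · exact key (a 0) (a 1) (a' 0) (a' 1) (Δ 0) (Δ 1) hi (ha' 0) hw hk (hΔ 1)
  · have h1 := key (a 1) (a 0) (a' 1) (a' 0) (Δ 1) (Δ 0) hi (ha' 1) (by
      rw [← abs_neg]
      refine le_trans (le_of_eq ?_) hw
      congr 1
      ring) (by
      rw [add_comm]
      exact hk) (hΔ 0)
    rw [add_comm]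
    exact h1

end Pool.KPO
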