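import Pool.Agent.H31.D2.Cy2

/-!
# D2, the tie cell `(1,k,k;k+1)`, `k > 2`: the three cases in the law of the pair with its copies
-/

set_option autoImplicit false

namespace Pool.KPO

open Finset Real
open Pool.Agent.H49.Ent Pool.Agent.H32.Dense Pool.STK
open Pool.K2S
open Pool.KM7 (P2 P2_isLaw P2_pos)
open Pool.D2A Pool.D2T Pool.D2N Pool.D2G Pool.D2JA

variable {Ω σ ζ ζ' ε : Type} [Fintype Ω]
variable {p : Ω → ℝ} {S : Ω → σ} {z : Ω → ζ} {z' : Ω → ζ'} {e : Ω → ε} {E0 : ζ → ε → ℝ}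
  {A0 : ζ → ε → Fin 2 → ℝ} {M : Ω → Fin 2 → Fin 2 → ℝ} {ek : Ω → ℤ} {k K₀ : ℕ} {L κ cE eF : ℝ}
  {b : Ω → ℤ} {P : Ω → Fin 2 → ℤ} {eth ey : Ω → ℤ} {A s th x K₁ : ℕ} {K eH eP : ℝ}

/-- The records of a copy. -/
theorem PrC.cpz (C : PrC p S z z' e E0 A0 M ek k K₀ L κ cE eF)
    {w : (Ω × Ω) × (Fin 10 → Ω × Ω)} (hw : 0 < PL p S z' sd10 w) (r : Fin 10) :
    0 < p (cp sd10 r w) ∧ z (cp sd10 r w) = z w.1.1 ∧ z w.1.2 = z w.1.1 ∧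
      M (cp sd10 r w) = M (sm sd10 r w.1) ∧ e w.1.2 = e w.1.1 := by
  obtain ⟨a1, a2, a3, a4⟩ := PL_pos C.isLaw S z' sd10 hw
  have e3 : 0 < p (sm sd10 r w.1) := by
    unfold sm
    cases sd10 r
    · exact a2
    · exact a1
  have e2 : z w.1.2 = z w.1.1 := (C.dS _ _ a1 a2 a3).symm
  have e5 : z (sm sd10 r w.1) = z w.1.1 := by
    unfold sm
    cases sd10 r
    · exact e2
    · rfl
  exact ⟨(a4 r).1, by rw [← C.dz _ _ e3 (a4 r).1 (a4 r).2, e5], e2,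
    (C.dM _ _ e3 (a4 r).1 (a4 r).2).symm, (C.de _ _ a1 a2 a3).symm⟩

/-- The bounds of the data of a copy. -/
theorem PrC.cpb (C : PrC p S z z' e E0 A0 M ek k K₀ L κ cE eF)
    {w : (Ω × Ω) × (Fin 10 → Ω × Ω)} (hw : 0 < PL p S z' sd10 w) (r : Fin 10) :
    |E0 (z w.1.1) (e (cp sd10 r w))| ≤ L ∧ (∀ i, |A0 (z w.1.1) (e (cp sd10 r w)) i| ≤ L) := by
  obtain ⟨a1, a2, -, a4, a5⟩ := C.cpz hw r
  have h1 := C.bE _ a1
  have h2 := C.bA _ a1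
  rw [a2] at h1 h2
  exact ⟨h1, h2⟩

/-- **The relation of a copy.** -/
theorem PrS.cpn (C : PrC p S z z' e E0 A0 M ek k K₀ L κ cE eF)
    (D : PrS p S z z' e E0 A0 M b P eth ey A s th x K₁ K cE eH eP)
    {w : (Ω × Ω) × (Fin 10 → Ω × Ω)} (hw : 0 < PL p S z' sd10 w) (r : Fin 10) :
    |(b (cp sd10 r w) : ℝ) / 2 ^ s - ∑ i, A0 (z w.1.1) (e (cp sd10 r w)) i *
      (M (sm sd10 r w.1) i 0 + E0 (z w.1.1) (e (cp sd10 r w)) * M (sm sd10 r w.1) i 1)| ≤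
      K / 2 ^ s := by
  obtain ⟨a1, a2, -, a4, -⟩ := C.cpz hw r
  have h := D.num _ a1
  rw [a2, a4] at h
  exact h

/-- The relation in both directions. -/
theorem PrC.rel2 (C : PrC p S z z' e E0 A0 M ek k K₀ L κ cE eF) {ω ω' : Ω} (h : 0 < p ω)
    (h' : 0 < p ω') (hS : S ω = S ω') (j : Fin 2) :
    |∑ i, A0 (z ω) (e ω) i * (M ω' i j - M ω i j)| ≤ 3 * L * κ := by
  have hL := C.hL
  have hκ := C.hκ
  have h1 := C.rel _ _ h h' hS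
  have hv := C.vel _ _ h h' hS
  have hE := C.bE _ h
  have hA := C.bA _ h
  have hLκ : κ ≤ L * κ := by nlinarith
  have t1 : |E0 (z ω) (e ω) * ∑ i, A0 (z ω) (e ω) i * (M ω' i 1 - M ω i 1)| ≤ L * κ := by
    rw [abs_mul]
    exact mul_le_mul hE h1 (abs_nonneg _) (by linarith)
  have t2 : ∀ i, |A0 (z ω) (e ω) i * ((M ω' i 0 - M ω i 0) +
      E0 (z ω) (e ω) * (M ω' i 1 - M ω i 1))| ≤ L * κ := fun i => by
    rw [abs_mul]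
    exact mul_le_mul (hA i) (hv i) (abs_nonneg _) (by linarith)
  revert j
  refine Fin.forall_fin_two.mpr ⟨?_, ?_⟩
  · have e1 : ∑ i, A0 (z ω) (e ω) i * (M ω' i 0 - M ω i 0) =
        (A0 (z ω) (e ω) 0 * ((M ω' 0 0 - M ω 0 0) + E0 (z ω) (e ω) * (M ω' 0 1 - M ω 0 1)) +
        A0 (z ω) (e ω) 1 * ((M ω' 1 0 - M ω 1 0) + E0 (z ω) (e ω) * (M ω' 1 1 - M ω 1 1))) -
        E0 (z ω) (e ω) * ∑ i, A0 (z ω) (e ω) i * (M ω' i 1 - M ω i 1) := by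
      rw [Fin.sum_univ_two, Fin.sum_univ_two]
      ring
    rw [e1]
    refine (abs_sub _ _).trans ((add_le_add (abs_add_le _ _) le_rfl).trans ?_)
    linarith [t2 0, t2 1]
  · linarith

omit [Fintype Ω] in
theorem sm_ja (a : Fin 5) (v : Ω × Ω) : sm sd10 (ja a) v = v.1 := by
  unfold sm
  rw [sd_ja]
  rfl

omit [Fintype Ω] in
theorem sm_jb (a : Fin 5) (v : Ω × Ω) : sm sd10 (jb a) v = v.2 := by
  unfold sm
  rw [sd_jb]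
  rfl

/-- **Case [2b].** -/
theorem case_b (C : PrC p S z z' e E0 A0 M ek k K₀ L κ cE eF)
    (D : PrS p S z z' e E0 A0 M b P eth ey A s th x K₁ K cE eH eP)
    {μ₄ c c₃ ρ Q : ℝ} (hμ₄ : 0 < μ₄) (hc : 0 < c)
    (hn : (iY A K eF eH eP + Real.log 2) / c + Real.log (5 : ℕ) < (1 - cE / c) * Real.log K₁)
    (hQ : cK 4 (L ^ 2) μ₄ * (K / 2 ^ s) = Q) (hρ : 0 < ρ - 2 * Q)
    (hN : 2 ^ (th + x) * (κ + 2 * Q * (1 + L)) ≤ ρ - 2 * Q) (hc₃ : 0 ≤ c₃)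
    (hmass : c₃ ≤ law (PL p S z' sd10) (fun w => B2b E0 A0 μ₄ (z w.1.1)
      (fun r => e (cp sd10 (ja r) w))) True) :
    c₃ ^ 2 - 2 * c ≤ law (P2 p S) (fun v => ∀ i, |M v.2 i 1 - M v.1 i 1| ≤ ρ) True := by
  have hp := C.isLaw
  have hQl := PL_isLaw hp S z' sd10
  have hq := hQl.nonneg
  have hL := C.hL
  -- both sides
  have hm1 := C.sk.sides (fun y W _ => B2b E0 A0 μ₄ y W) hc₃ hmass
  -- the readings
  obtain ⟨dd, hdd⟩ : ∃ dd : (Fin 10 → ε × ℤ) → ζ → Fin 2 → Fin 2 → ℝ, dd = fun W y i j =>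
      m40 (cA4 A0 y (Ws jb W)) (cE4 E0 y (Ws jb W)) (fun a => ((W (jb (j4 a))).2 : ℝ) / 2 ^ s)
        (ix i j) -
      m40 (cA4 A0 y (Ws ja W)) (cE4 E0 y (Ws ja W)) (fun a => ((W (ja (j4 a))).2 : ℝ) / 2 ^ s)
        (ix i j) := ⟨_, rfl⟩
  have hread : ∀ w, 0 < PL p S z' sd10 w →
      B2b E0 A0 μ₄ (z w.1.1) (fun r => e (cp sd10 (ja r) w)) →
      B2b E0 A0 μ₄ (z w.1.1) (fun r => e (cp sd10 (jb r) w)) → ∀ i j,
      |(M w.1.2 i j - M w.1.1 i j) - dd (Wc e b w) (z w.1.1) i j| ≤ 2 * Q := by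
    intro w hw h1 h2 i j
    have r1 := g4r (U := M w.1.1) (ba := fun a => ((Wc e b w (ja (j4 a))).2 : ℝ) / 2 ^ s) hL hμ₄
      (Aa := cA4 A0 (z w.1.1) (Ws ja (Wc e b w))) (Ea := cE4 E0 (z w.1.1) (Ws ja (Wc e b w)))
      (fun a => (C.cpb hw (ja (j4 a))).2) (fun a => (C.cpb hw (ja (j4 a))).1) h1
      (K := K / 2 ^ s) (fun a => by
        have h := D.cpn C hw (ja (j4 a))
        rw [sm_ja] at h
        exact h) i j
    have r2 := g4r (U := M w.1.2) (ba := fun a => ((Wc e b w (jb (j4 a))).2 : ℝ) / 2 ^ s) hL hμ₄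
      (Aa := cA4 A0 (z w.1.1) (Ws jb (Wc e b w))) (Ea := cE4 E0 (z w.1.1) (Ws jb (Wc e b w)))
      (fun a => (C.cpb hw (jb (j4 a))).2) (fun a => (C.cpb hw (jb (j4 a))).1) h2
      (K := K / 2 ^ s) (fun a => by
        have h := D.cpn C hw (jb (j4 a))
        rw [sm_jb] at h
        exact h) i j
    rw [hQ] at r1 r2
    rw [hdd]
    dsimp only
    obtain ⟨x1, hx1⟩ : ∃ x1, x1 = m40 (cA4 A0 (z w.1.1) (Ws ja (Wc e b w)))
      (cE4 E0 (z w.1.1) (Ws ja (Wc e b w)))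
      (fun a => ((Wc e b w (ja (j4 a))).2 : ℝ) / 2 ^ s) (ix i j) := ⟨_, rfl⟩
    obtain ⟨x2, hx2⟩ : ∃ x2, x2 = m40 (cA4 A0 (z w.1.1) (Ws jb (Wc e b w)))
      (cE4 E0 (z w.1.1) (Ws jb (Wc e b w)))
      (fun a => ((Wc e b w (jb (j4 a))).2 : ℝ) / 2 ^ s) (ix i j) := ⟨_, rfl⟩
    rw [← hx1] at r1 ⊢
    rw [← hx2] at r2 ⊢
    have e1 : (M w.1.2 i j - M w.1.1 i j) - (x2 - x1) = (M w.1.2 i j - x2) -
      (M w.1.1 i j - x1) := by ring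
    rw [e1]
    refine (abs_sub _ _).trans ?_
    linarith
  -- the events
  obtain ⟨Ev, hEv⟩ : ∃ Ev : (Ω × Ω) × (Fin 10 → Ω × Ω) → Prop, Ev = fun w =>
    B2b E0 A0 μ₄ (z w.1.1) (fun r => e (cp sd10 (ja r) w)) ∧
      B2b E0 A0 μ₄ (z w.1.1) (fun r => e (cp sd10 (jb r) w)) := ⟨_, rfl⟩
  have hm2 : c₃ ^ 2 ≤ law (PL p S z' sd10) Ev True := by
    rw [hEv]
    exact hm1
  have hS : ∀ i, law (PL p S z' sd10) (fun w => Ev w ∧ ρ < |M w.1.2 i 1 - M w.1.1 i 1|) True <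
      c := by
    intro i
    refine D.read C hc _ (fun W y => Fr (th + x) (dd W y i 0) (dd W y i 1)) 5 ?_ hn
    intro w hw hG
    rw [hEv] at hG
    obtain ⟨a1, a2, a3, -⟩ := PL_pos hp S z' sd10 hw
    refine ⟨?_, Fr_card _ _ _⟩
    have r0 := hread w hw hG.1.1 hG.1.2 i 0
    have r1 := hread w hw hG.1.1 hG.1.2 i 1
    have h1 := rd_b (C.vel _ _ a1 a2 a3 i) r0 r1 (C.bE _ a1)
    refine Fr_mem hρ h1 ?_ hN (D.cey _ a1)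
    have h2 := abs_sub_abs_le_abs_sub (M w.1.2 i 1 - M w.1.1 i 1)
      (dd (Wc e b w) (z w.1.1) i 1)
    linarith [hG.2]
  have h0 := hS 0
  have h1 := hS 1
  obtain ⟨F0, hF0⟩ : ∃ F : (Ω × Ω) × (Fin 10 → Ω × Ω) → Prop, F = fun w =>
    Ev w ∧ ρ < |M w.1.2 0 1 - M w.1.1 0 1| := ⟨_, rfl⟩
  obtain ⟨F1, hF1⟩ : ∃ F : (Ω × Ω) × (Fin 10 → Ω × Ω) → Prop, F = fun w =>
    Ev w ∧ ρ < |M w.1.2 1 1 - M w.1.1 1 1| := ⟨_, rfl⟩
  rw [← hF0] at h0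
  rw [← hF1] at h1
  have h7 := Pool.D2Con.law_or hq Ev (fun w => ∀ i, |M w.1.2 i 1 - M w.1.1 i 1| ≤ ρ)
    (fun w => F0 w ∨ F1 w) (fun w _ h => by
      by_cases c0 : F0 w
      · exact Or.inr (Or.inl c0)
      by_cases c1 : F1 w
      · exact Or.inr (Or.inr c1)
      left
      rw [hF0] at c0
      rw [hF1] at c1
      refine Fin.forall_fin_two.mpr ⟨?_, ?_⟩
      · by_contra hcon
        exact c0 ⟨h, not_le.mp hcon⟩
      · by_contra hcon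
        exact c1 ⟨h, not_le.mp hcon⟩)
  have h8 := Pool.D2Con.law_or hq (fun w => F0 w ∨ F1 w) F0 F1 (fun w _ h => h)
  have h9 : law (PL p S z' sd10) (fun w => ∀ i, |M w.1.2 i 1 - M w.1.1 i 1| ≤ ρ) True =
      law (P2 p S) (fun v => ∀ i, |M v.2 i 1 - M v.1 i 1| ≤ ρ) True :=
    (PL_base hp S z' sd10).law (fun v => ∀ i, |M v.2 i 1 - M v.1 i 1| ≤ ρ) True
  rw [← h9]
  linarith

end Pool.KPO
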