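import Pool.Agent.H31.D2.Cy3

/-!
# D2, the tie cell `(1,k,k;k+1)`, `k > 2`: case [2a] and the nearly parallel case
-/

set_option autoImplicit false

namespace Pool.KPO

open Finset Real
open Pool.Agent.H49.Ent Pool.Agent.H32.Dense Pool.STK
open Pool.K2S
open Pool.KM7 (P2 P2_isLaw P2_pos)
open Pool.D2A Pool.D2T Pool.D2N Pool.D2G Pool.D2JA

variable {Ω σ ζ ζ' ε : Type} [Fintype Ω]
variable {p : Ω → ℝ} {S : Ω → σ} {z : Ω → ζ} {z' : Ω → ζ'} {e : Ω → ε} {E0 : ζ → ε → ℝ}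
  {A0 : ζ → ε → Fin 2 → ℝ} {M : Ω → Fin 2 → Fin 2 → ℝ} {ek : Ω → ℤ} {k K₀ : ℕ} {L κ cE eF : ℝ}
  {b : Ω → ℤ} {P : Ω → Fin 2 → ℤ} {eth ey : Ω → ℤ} {A s th x K₁ : ℕ} {K eH eP : ℝ}

theorem m31_zero (Aa : Fin 3 → Fin 2 → ℝ) (Ea : Fin 3 → ℝ) (i : Fin 3) (j : Fin 2) :
    m31 Aa Ea (fun _ _ => 0) i j = 0 := by
  unfold m31
  simp

/-- **The pointwise relations** of case [2a]. -/
theorem PrS.ptA (C : PrC p S z z' e E0 A0 M ek k K₀ L κ cE eF)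
    (D : PrS p S z z' e E0 A0 M b P eth ey A s th x K₁ K cE eH eP)
    {LL μ μA μ₁ δ η : ℝ} (hμ₁ : 0 < μ₁) (hLL : 8 * L ^ 6 ≤ LL)
    (hμ : 0 < μ) (hμ1 : μ ≤ 1) (hμA : μ ≤ μA) (hμd : μ * 2 ^ (3 * k) ≤ μ₁ ^ 3)
    (hδ : 4 * LL * δ ≤ μ ^ 2) (hη : 1152 * L ^ 11 * (K / 2 ^ s) * 2 ^ (3 * k) ≤ η)
    (hκ : 3 * L * κ ≤ K / 2 ^ s)
    {w : (Ω × Ω) × (Fin 10 → Ω × Ω)} (hw : 0 < PL p S z' sd10 w)
    (h1 : B2a E0 A0 k μA μ₁ δ (z w.1.1) (fun r => e (cp sd10 (ja r) w)) (e w.1.1))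
    (h2 : B2a E0 A0 k μA μ₁ δ (z w.1.1) (fun r => e (cp sd10 (jb r) w)) (e w.1.1)) :
    PtA LL μ η δ (E0 (z w.1.1) (e w.1.1)) 1 (b w.1.1 / 2 ^ s)
      (g3m (cA0 A0 (z w.1.1) (Ws ja (Wc e b w))) (cE0 E0 (z w.1.1) (Ws ja (Wc e b w))))
      (g3m (cA0 A0 (z w.1.1) (Ws jb (Wc e b w))) (cE0 E0 (z w.1.1) (Ws jb (Wc e b w))))
      (A0 (z w.1.1) (e w.1.1)) (fun _ => 0) (fun _ => 0) (M w.1.1) (M w.1.2)
      (m30 (cA0 A0 (z w.1.1) (Ws ja (Wc e b w))) (cE0 E0 (z w.1.1) (Ws ja (Wc e b w)))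
        (fun a => ((Wc e b w (ja (j3 a))).2 : ℝ) / 2 ^ s))
      (m30 (cA0 A0 (z w.1.1) (Ws jb (Wc e b w))) (cE0 E0 (z w.1.1) (Ws jb (Wc e b w)))
        (fun a => ((Wc e b w (jb (j3 a))).2 : ℝ) / 2 ^ s))
      (m31 (cA0 A0 (z w.1.1) (Ws ja (Wc e b w))) (cE0 E0 (z w.1.1) (Ws ja (Wc e b w)))
        (fun _ _ => 0))
      (m31 (cA0 A0 (z w.1.1) (Ws jb (Wc e b w))) (cE0 E0 (z w.1.1) (Ws jb (Wc e b w)))
        (fun _ _ => 0)) := by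
  have hL := C.hL
  have hκ0 := C.hκ
  obtain ⟨p1, p2, p3, p4⟩ := PL_pos C.isLaw S z' sd10 hw
  have h3k : (1 / 2 ^ k : ℝ) ^ 3 = 1 / 2 ^ (3 * k) := by
    rw [div_pow, one_pow, ← pow_mul, mul_comm k 3]
  have h3k1 : (1 : ℝ) ≤ 2 ^ (3 * k) := one_le_pow₀ (by norm_num)
  have hK0 : 0 ≤ K / 2 ^ s := div_nonneg D.hK (by positivity)
  have hL61 : 1 ≤ L ^ 6 := one_le_pow₀ hL
  have hLκ : κ ≤ L * κ := by nlinarith
  have h := ptA_alg (L := L) (K := K / 2 ^ s) (Sc := 1) (LL := LL) (μ := μ) (μA := μA)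
    (μ₁ := μ₁) (δ := δ) (η := η) (q := 1 / 2 ^ k) (W := 2 ^ (3 * k))
    (tt := 1) (E := E0 (z w.1.1) (e w.1.1)) (b := b w.1.1 / 2 ^ s)
    (A := A0 (z w.1.1) (e w.1.1)) (T := fun _ => 0) (P := fun _ => 0)
    (Q := ![1, E0 (z w.1.1) (e w.1.1)]) (U := M w.1.1) (U' := M w.1.2)
    (Aa := cA0 A0 (z w.1.1) (Ws ja (Wc e b w))) (Ta := fun _ _ => 0)
    (Ab := cA0 A0 (z w.1.1) (Ws jb (Wc e b w))) (Tb := fun _ _ => 0)
    (Ea := cE0 E0 (z w.1.1) (Ws ja (Wc e b w))) (Eb := cE0 E0 (z w.1.1) (Ws jb (Wc e b w)))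
    (ba := fun a => ((Wc e b w (ja (j3 a))).2 : ℝ) / 2 ^ s)
    (bb := fun a => ((Wc e b w (jb (j3 a))).2 : ℝ) / 2 ^ s)
    hL hK0 one_pos (by positivity) h3k1 h3k hμ₁ hLL hμ hμ1 hμA hμd hδ (by linarith)
    (C.bE _ p1) (C.bA _ p1) h1.mA
    (fun j => by
      show |(0 : ℝ) / 1| ≤ LL
      rw [zero_div, abs_zero]
      linarith)
    (by
      show |((1 : ℝ) - 0) / 1| ≤ LL
      rw [sub_zero, div_one, abs_one]
      linarith)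
    (by
      show μ ≤ |((1 : ℝ) - 0) / 1|
      rw [sub_zero, div_one, abs_one]
      exact hμ1)
    (fun i j => by
      rw [mul_one]
      exact C.bM _ p1 i j)
    (fun i j => by
      rw [mul_one]
      exact C.bM _ p2 i j)
    (fun a => (C.cpb hw (ja (j3 a))).2) (fun a => (C.cpb hw (ja (j3 a))).1)
    (fun a j => by
      rw [abs_zero]
      linarith)
    (fun a => (C.cpb hw (jb (j3 a))).2) (fun a => (C.cpb hw (jb (j3 a))).1)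
    (fun a j => by
      rw [abs_zero]
      linarith)
    h1.a01 h1.a02 h1.a12 h1.e01 h1.e02 h1.e12 h2.a01 h2.a02 h2.a12 h2.e01 h2.e02 h2.e12 h1.dd
    h2.dd
    (fun a => by
      have h := D.cpn C hw (ja (j3 a))
      rw [sm_ja] at h
      simp only [zero_mul, Finset.sum_const_zero, sub_zero]
      exact h)
    (fun a => by
      have h := D.cpn C hw (jb (j3 a))
      rw [sm_jb] at h
      simp only [zero_mul, Finset.sum_const_zero, sub_zero]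
      exact h)
    (by
      show |E0 (z w.1.1) (e w.1.1) - 0 - ((1 : ℝ) - 0) * E0 (z w.1.1) (e w.1.1)| ≤ K / 2 ^ s
      have e1 : E0 (z w.1.1) (e w.1.1) - 0 - ((1 : ℝ) - 0) * E0 (z w.1.1) (e w.1.1) = 0 := by
        ring
      rw [e1, abs_zero]
      exact hK0)
    (fun i => (C.vel _ _ p1 p2 p3 i).trans (by linarith))
    (by
      simp only [zero_mul, Finset.sum_const_zero, sub_zero]
      exact D.num _ p1)
    (fun j => by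
      rw [mul_zero, zero_add]
      exact (C.rel2 p1 p2 p3 j).trans hκ)
    (by
      show (1 : ℝ) = 1 - 0
      ring)
  simp only [div_one] at h
  exact h

/-- **Case [2a].** -/
theorem case_a (C : PrC p S z z' e E0 A0 M ek k K₀ L κ cE eF)
    (D : PrS p S z z' e E0 A0 M b P eth ey A s th x K₁ K cE eH eP)
    {LL μ μA μ₁ δ η μa ν c c₂ τ : ℝ} (hμ₁ : 0 < μ₁) (hLL : 8 * L ^ 6 ≤ LL)
    (hμ : 0 < μ) (hμ1 : μ ≤ 1) (hμA : μ ≤ μA) (hμd : μ * 2 ^ (3 * k) ≤ μ₁ ^ 3)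
    (hδ : 4 * LL * δ ≤ μ ^ 2) (hη : 1152 * L ^ 11 * (K / 2 ^ s) * 2 ^ (3 * k) ≤ η)
    (hκ : 3 * L * κ ≤ K / 2 ^ s) (hc : 0 < c)
    (hn₀ : (10 * (eF + 0) + Real.log 2) / c + Real.log (3 * 3 : ℕ) < (1 - cE / c) * Real.log K₀)
    (hn : (iY A K eF eH eP + Real.log 2) / c + Real.log (5 : ℕ) < (1 - cE / c) * Real.log K₁)
    (h1 : ((3 + 2 * LL) * 2 ^ k) ^ 3 * (4 * LL ^ 2 * δ / μ) < μa)
    (h11 : 8 * LL ^ 2 * μa ≤ μ ^ 2)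
    (hν : 0 < ν - (η + (16 * LL ^ 4 * μa / μ ^ 2 + 4 * LL ^ 2 * η / μ)))
    (hN : 2 ^ (th + x) * e6 LL μ η (16 * LL ^ 4 * μa / μ ^ 2 + 4 * LL ^ 2 * η / μ) δ ≤
      ν - (η + (16 * LL ^ 4 * μa / μ ^ 2 + 4 * LL ^ 2 * η / μ)))
    (hτ : 2 * LL * (2 * LL * η + LL * e5 LL μ η δ + LL ^ 2 * ν) / μ ≤ τ)
    (hc₂ : 0 ≤ c₂) (hmass : c₂ ≤ law (PL p S z' sd10) (fun w => B2a E0 A0 k μA μ₁ δ (z w.1.1)
      (fun r => e (cp sd10 (ja r) w)) (e w.1.1)) True) :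
    c₂ ^ 2 - 2 * c ≤ law (P2 p S) (fun v => ∀ i j, |M v.2 i j - M v.1 i j| ≤ τ) True := by
  have hp := C.isLaw
  have hQl := PL_isLaw hp S z' sd10
  have hq := hQl.nonneg
  have hL := C.hL
  have hLL1 : 1 ≤ LL := by
    have : 1 ≤ L ^ 6 := one_le_pow₀ hL
    linarith
  -- both sides
  have hm1 := C.sk.sides (fun y W x => B2a E0 A0 k μA μ₁ δ y W x) hc₂ hmass
  obtain ⟨Ev, hEv⟩ : ∃ Ev : (Ω × Ω) × (Fin 10 → Ω × Ω) → Prop, Ev = fun w =>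
    B2a E0 A0 k μA μ₁ δ (z w.1.1) (fun r => e (cp sd10 (ja r) w)) (e w.1.1) ∧
      B2a E0 A0 k μA μ₁ δ (z w.1.1) (fun r => e (cp sd10 (jb r) w)) (e w.1.1) := ⟨_, rfl⟩
  have hm2 : c₂ ^ 2 ≤ law (PL p S z' sd10) Ev True := by
    rw [hEv]
    exact hm1
  have hA : ∀ w, 0 < PL p S z' sd10 w → Ev w → _ := fun w hw h => by
    rw [hEv] at h
    exact D.ptA C hμ₁ hLL hμ hμ1 hμA hμd hδ hη hκ hw h.1 h.2
  -- the matrices
  obtain ⟨G, hG⟩ : ∃ G : (Fin 10 → ε × ℤ) → ζ → Fin 2 → Fin 2 → ℝ, G = fun W y =>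
    g3m (cA0 A0 y (Ws ja W)) (cE0 E0 y (Ws ja W)) := ⟨_, rfl⟩
  obtain ⟨G', hG'⟩ : ∃ G : (Fin 10 → ε × ℤ) → ζ → Fin 2 → Fin 2 → ℝ, G = fun W y =>
    g3m (cA0 A0 y (Ws jb W)) (cE0 E0 y (Ws jb W)) := ⟨_, rfl⟩
  obtain ⟨m0, hm0⟩ : ∃ m0 : (Fin 10 → ε × ℤ) → ζ → Fin 3 → ℝ, m0 = fun W y =>
    m30 (cA0 A0 y (Ws ja W)) (cE0 E0 y (Ws ja W)) (fun a => ((W (ja (j3 a))).2 : ℝ) / 2 ^ s) :=
    ⟨_, rfl⟩
  obtain ⟨n0, hn0⟩ : ∃ n0 : (Fin 10 → ε × ℤ) → ζ → Fin 3 → ℝ, n0 = fun W y =>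
    m30 (cA0 A0 y (Ws jb W)) (cE0 E0 y (Ws jb W)) (fun a => ((W (jb (j3 a))).2 : ℝ) / 2 ^ s) :=
    ⟨_, rfl⟩
  have hA' : ∀ w, 0 < PL p S z' sd10 w → Ev w →
      PtA LL μ η δ (E0 (z w.1.1) (e w.1.1)) 1 (b w.1.1 / 2 ^ s) (G (Wc e b w) (z w.1.1))
        (G' (Wc e b w) (z w.1.1)) (A0 (z w.1.1) (e w.1.1)) (fun _ => 0) (fun _ => 0) (M w.1.1)
        (M w.1.2) (m0 (Wc e b w) (z w.1.1)) (n0 (Wc e b w) (z w.1.1)) (fun _ _ => 0)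
        (fun _ _ => 0) := by
    intro w hw h
    have h2 := hA w hw h
    have e1 : ∀ (Aa : Fin 3 → Fin 2 → ℝ) (Ea : Fin 3 → ℝ), m31 Aa Ea (fun _ _ => 0) =
        fun _ _ => 0 := fun Aa Ea => by
      funext i j
      exact m31_zero Aa Ea i j
    rw [e1, e1] at h2
    rw [hG, hG', hm0, hn0]
    exact h2
  -- step 1
  have S1 : law (PL p S z' sd10) (fun w => Ev w ∧
      ∃ n, μa ≤ |(pQ (qf (G (Wc e (fun _ => 0) w) (z w.1.1))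
        (G' (Wc e (fun _ => 0) w) (z w.1.1)))).coeff n|) True < c := by
    refine Pool.D2P.read_poly' hQl (fun w => E0 (z w.1.1) (e w.1.1)) (fun w => ek w.1.1)
      (Wc e (fun _ => 0)) (fun w => z w.1.1) Ev (fun W y => pQ (qf (G W y) (G' W y))) (D := 3)
      (k := k) (R := LL) (δ := 4 * LL ^ 2 * δ / μ) (μ := μa) (c := c) (i := 10 * (eF + 0))
      (r := (1 - cE / c) * Real.log K₀) (by linarith) hc h1 (C.sk.hI (fun v => ek v.1))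
      (fun H hH => C.sk.hE hc H hH) ?_ ?_ hn₀
    · intro w hw h
      have hB := hA' w hw h
      exact ⟨hB.hE, C.cell _ (PL_pos hp S z' sd10 hw).1⟩
    · intro w hw h
      refine ⟨(pQ_deg _).trans (by norm_num), ?_⟩
      have h2 := (hA' w hw h).qf_le
      rw [hG, hG'] at h2 ⊢
      exact h2
  obtain ⟨H1, hH1⟩ : ∃ H1 : (Ω × Ω) × (Fin 10 → Ω × Ω) → Prop, H1 = fun w => Ev w ∧ ∀ n,
    |(pQ (qf (G (Wc e b w) (z w.1.1)) (G' (Wc e b w) (z w.1.1)))).coeff n| < μa := ⟨_, rfl⟩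
  have hB : ∀ w, 0 < PL p S z' sd10 w → H1 w →
      PtB LL μ η (16 * LL ^ 4 * μa / μ ^ 2 + 4 * LL ^ 2 * η / μ) δ (E0 (z w.1.1) (e w.1.1)) 1
        (b w.1.1 / 2 ^ s) (G (Wc e b w) (z w.1.1)) (A0 (z w.1.1) (e w.1.1)) (fun _ => 0)
        (fun _ => 0) (M w.1.1) (M w.1.2) (m0 (Wc e b w) (z w.1.1))
        (fun i => n0 (Wc e b w) (z w.1.1) i /
          cc (G (Wc e b w) (z w.1.1)) (G' (Wc e b w) (z w.1.1)))
        (fun _ _ => 0) (fun i j => (0 : ℝ) /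
          cc (G (Wc e b w) (z w.1.1)) (G' (Wc e b w) (z w.1.1))) := by
    intro w hw h
    rw [hH1] at h
    exact (hA' w hw h.1).toB (fun n => (h.2 n).le) h11
  -- step 2
  have S2 : law (PL p S z' sd10) (fun w => H1 w ∧ ν <
      |sy (G (Wc e b w) (z w.1.1)) (M w.1.2) 2 - sy (G (Wc e b w) (z w.1.1)) (M w.1.1) 2|)
      True < c := by
    refine D.read C hc _ (fun W y => Fr (th + x)
      (n0 W y 1 / cc (G W y) (G' W y) - m0 W y 1)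
      (n0 W y 2 / cc (G W y) (G' W y) - m0 W y 2)) 5 ?_ hn
    intro w hw h
    refine ⟨?_, Fr_card _ _ _⟩
    have hB' := hB w hw h.1
    have h2 := ptb_rel hB' (fun _ => rfl) (fun _ _ => rfl) (fun _ _ => zero_div _)
    have h3 := ptb_rd hB' (fun _ _ => rfl) (fun _ _ => zero_div _) 2
    refine Fr_mem hν h2 ?_ hN (D.cey _ (PL_pos hp S z' sd10 hw).1)
    have h4 := abs_sub_abs_le_abs_sub
      (sy (G (Wc e b w) (z w.1.1)) (M w.1.2) 2 - sy (G (Wc e b w) (z w.1.1)) (M w.1.1) 2)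
      (n0 (Wc e b w) (z w.1.1) 2 / cc (G (Wc e b w) (z w.1.1)) (G' (Wc e b w) (z w.1.1)) -
        m0 (Wc e b w) (z w.1.1) 2)
    linarith [h.2]
  -- the end
  obtain ⟨F0, hF0⟩ : ∃ F : (Ω × Ω) × (Fin 10 → Ω × Ω) → Prop, F = fun w => Ev w ∧
      ∃ n, μa ≤ |(pQ (qf (G (Wc e (fun _ => 0) w) (z w.1.1))
        (G' (Wc e (fun _ => 0) w) (z w.1.1)))).coeff n| := ⟨_, rfl⟩
  obtain ⟨F1, hF1⟩ : ∃ F : (Ω × Ω) × (Fin 10 → Ω × Ω) → Prop, F = fun w => H1 w ∧ ν <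
      |sy (G (Wc e b w) (z w.1.1)) (M w.1.2) 2 - sy (G (Wc e b w) (z w.1.1)) (M w.1.1) 2| :=
    ⟨_, rfl⟩
  rw [← hF0] at S1
  rw [← hF1] at S2
  have h7 := Pool.D2Con.law_or hq Ev (fun w => ∀ i j, |M w.1.2 i j - M w.1.1 i j| ≤ τ)
    (fun w => F0 w ∨ F1 w) (fun w hw h => by
      by_cases c0 : F0 w
      · exact Or.inr (Or.inl c0)
      by_cases c1 : F1 w
      · exact Or.inr (Or.inr c1)
      left
      rw [hF0] at c0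
      rw [hF1] at c1
      have k1 : H1 w := by
        rw [hH1]
        refine ⟨h, fun n => ?_⟩
        by_contra hcon
        refine c0 ⟨h, n, ?_⟩
        have h3 := not_lt.mp hcon
        rw [hG, hG'] at h3 ⊢
        exact h3
      intro i j
      have k2 : |sy (G (Wc e b w) (z w.1.1)) (M w.1.2) 2 -
          sy (G (Wc e b w) (z w.1.1)) (M w.1.1) 2| ≤ ν := by
        by_contra hcon
        exact c1 ⟨k1, not_le.mp hcon⟩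
      exact (ptb_fin (hB w hw k1) (fun _ => rfl) k2 i j).trans hτ)
  have h8 := Pool.D2Con.law_or hq (fun w => F0 w ∨ F1 w) F0 F1 (fun w _ h => h)
  have h9 : law (PL p S z' sd10) (fun w => ∀ i j, |M w.1.2 i j - M w.1.1 i j| ≤ τ) True =
      law (P2 p S) (fun v => ∀ i j, |M v.2 i j - M v.1 i j| ≤ τ) True :=
    (PL_base hp S z' sd10).law (fun v => ∀ i j, |M v.2 i j - M v.1 i j| ≤ τ) True
  rw [← h9]
  linarith

/-- **Nearly parallel functionals.** -/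
theorem case_p (C : PrC p S z z' e E0 A0 M ek k K₀ L κ cE eF) {μ μ₁ c₁ : ℝ} (hμ : 0 < μ)
    (hc₁ : 0 ≤ c₁)
    (hpar : c₁ ≤ law (PL p S z' sd10) (fun w => Pool.D2P.Pll μ μ₁
      (A0 (z w.1.1) (e w.1.1)) (A0 (z w.1.1) (e (cp sd10 (ja 0) w)))) True) :
    ∃ a : ζ' → Fin 2 → ℝ, c₁ ^ 2 ≤ law (P2 p S) (fun v =>
      (∀ i, |a (z' v.1) i| ≤ L) ∧ (∃ i, μ ≤ |a (z' v.1) i|) ∧
      (∀ i, |a (z' v.2) i| ≤ L) ∧ (∃ i, μ ≤ |a (z' v.2) i|) ∧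
      ∀ j, |∑ i, a (z' v.1) i * (M v.2 i j - M v.1 i j)| ≤
          L / μ * (3 * L * κ) + μ₁ / μ * (2 * L) ∧
        |∑ i, a (z' v.2) i * (M v.2 i j - M v.1 i j)| ≤
          L / μ * (3 * L * κ) + μ₁ / μ * (2 * L)) True := by
  classical
  have hp := C.isLaw
  have hQl := PL_isLaw hp S z' sd10
  have hq := hQl.nonneg
  obtain ⟨B, hB⟩ : ∃ B : (Fin 1 → Ω) → Ω → Prop, B = fun g ω =>
    (0 < p (g 0) ∧ z' (g 0) = z' ω) ∧ Pool.D2P.Pll μ μ₁ (A0 (z ω) (e ω)) (A0 (z ω) (e (g 0))) :=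
    ⟨_, rfl⟩
  obtain ⟨f, hf⟩ := Pool.D2Con.own_max (M := 1) hp S z' sd10 true (fun _ => ja 0)
    (fun a b _ => Subsingleton.elim a b) (fun _ => sd_ja 0) B
  have h1 : c₁ ≤ law p (fun ω => B (f (z' ω)) ω) True := by
    refine (hpar.trans (Pool.D2Con.law_mono' hq fun w hw h => ?_)).trans hf
    rw [hB]
    obtain ⟨a1, a2, a3, a4⟩ := PL_pos hp S z' sd10 hw
    refine ⟨⟨(a4 (ja 0)).1, ?_⟩, h⟩
    have h3 := (a4 (ja 0)).2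
    rw [sm_ja] at h3
    exact h3.symm
  obtain ⟨I, hI⟩ : ∃ I : Ω → ℝ, I = fun ω => if B (f (z' ω)) ω then 1 else 0 := ⟨_, rfl⟩
  have h2 := P2_sq hp S I
  have h3 : ∑ ω, p ω * I ω = law p (fun ω => B (f (z' ω)) ω) True := by
    have e1 : law p (fun ω => B (f (z' ω)) ω) True =
      ∑ ω, if B (f (z' ω)) ω then p ω else 0 := Pool.JVE.pe_sum p _
    rw [e1, hI]
    refine Finset.sum_congr rfl fun ω _ => ?_
    by_cases hb : B (f (z' ω)) ω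
    · simp [hb]
    · simp [hb]
  obtain ⟨a, ha⟩ : ∃ a : ζ' → Fin 2 → ℝ, a = fun w => A0 (z (f w 0)) (e (f w 0)) := ⟨_, rfl⟩
  refine ⟨a, ?_⟩
  have h4 : c₁ ^ 2 ≤ law (P2 p S) (fun v => B (f (z' v.1)) v.1 ∧ B (f (z' v.2)) v.2) True := by
    have h5 : c₁ ^ 2 ≤ (∑ ω, p ω * I ω) ^ 2 := by
      rw [h3]
      exact pow_le_pow_left₀ hc₁ h1 2
    refine (h5.trans h2).trans (le_of_eq ?_)
    have e1 := Pool.JVE.pe_sum (P2 p S) (fun v => B (f (z' v.1)) v.1 ∧ B (f (z' v.2)) v.2)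
    refine Eq.trans ?_ e1.symm
    rw [hI]
    refine Finset.sum_congr rfl fun v _ => ?_
    by_cases b1 : B (f (z' v.1)) v.1
    · by_cases b2 : B (f (z' v.2)) v.2
      · simp [b1, b2]
      · simp [b1, b2]
    · simp [b1]
  refine h4.trans (Pool.D2Con.law_mono' (P2_isLaw hp S).nonneg fun v hv h => ?_)
  obtain ⟨a1, a2, a3⟩ := (P2_pos hp v).mp hv
  rw [hB] at h
  obtain ⟨⟨⟨b1, b2⟩, b3⟩, ⟨⟨c1, c2⟩, c3⟩⟩ := h
  have z1 : z (f (z' v.1) 0) = z v.1 := C.dz _ _ b1 a1 b2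
  have z2 : z (f (z' v.2) 0) = z v.2 := C.dz _ _ c1 a2 c2
  have zz : z v.1 = z v.2 := C.dS _ _ a1 a2 a3
  have ee : e v.1 = e v.2 := C.de _ _ a1 a2 a3
  have g1 : a (z' v.1) = A0 (z v.1) (e (f (z' v.1) 0)) := by
    rw [ha]
    dsimp only
    rw [z1]
  have g2 : a (z' v.2) = A0 (z v.2) (e (f (z' v.2) 0)) := by
    rw [ha]
    dsimp only
    rw [z2]
  have l1 : ∀ i, |a (z' v.1) i| ≤ L := fun i => by
    rw [ha]
    exact C.bA _ b1 i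
  have l2 : ∀ i, |a (z' v.2) i| ≤ L := fun i => by
    rw [ha]
    exact C.bA _ c1 i
  have hΔ : ∀ j i, |M v.2 i j - M v.1 i j| ≤ 2 * L := fun j i => by
    have h1 := C.bM _ a1 i j
    have h2 := C.bM _ a2 i j
    have h3 := abs_sub (M v.2 i j) (M v.1 i j)
    linarith
  obtain ⟨p1, p2, p3⟩ := b3
  obtain ⟨q1, q2, q3⟩ := c3
  refine ⟨l1, ?_, l2, ?_, fun j => ⟨?_, ?_⟩⟩
  · rw [g1]
    exact p2
  · rw [g2]
    exact q2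
  · refine par_kil (a := A0 (z v.1) (e v.1)) hμ p1 l1 ?_ (C.rel2 a1 a2 a3 j) (hΔ j)
    rw [g1]
    exact p3
  · refine par_kil (a := A0 (z v.1) (e v.1)) hμ ?_ l2 ?_ (C.rel2 a1 a2 a3 j) (hΔ j)
    · rw [zz, ee]
      exact q1
    · rw [g2, zz, ee]
      exact q3

end Pool.KPO
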