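import Pool.Agent.H31.D2.Cy4

/-!
# D2, the tie cell `(1,k,k;k+1)`, `k > 2`: the numbers
-/

set_option autoImplicit false

namespace Pool.KPO

open Finset Real
open Pool.D2A Pool.D2N Pool.D2G Pool.D2JA

section num

variable {V N η δ : ℝ}

/-- Two powers. -/
theorem pv {x : ℝ} (hV : 256 ≤ V) (hx : 0 ≤ x) {j k : ℕ} (h : j < k) :
    256 * (V ^ j * x) ≤ V ^ k * x := by
  have h1 : V ^ j * V ≤ V ^ k := by
    rw [← pow_succ]
    exact pow_le_pow_right₀ (by linarith) h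
  have h2 : 0 ≤ V ^ j * x := by
    have : 0 ≤ V := by linarith
    positivity
  have h3 : V ^ j * x * 256 ≤ V ^ j * x * V := mul_le_mul_of_nonneg_left hV h2
  have h4 : V ^ j * V * x ≤ V ^ k * x := mul_le_mul_of_nonneg_right h1 hx
  nlinarith

/-- Two inverse powers. -/
theorem ipv (hV : 256 ≤ V) {j k : ℕ} (h : j < k) : 256 * (1 / V ^ k) ≤ 1 / V ^ j := by
  have hV0 : 0 < V := by linarith
  rw [mul_one_div, div_le_div_iff₀ (by positivity) (by positivity)]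
  have h1 : V ^ j * V ≤ V ^ k := by
    rw [← pow_succ]
    exact pow_le_pow_right₀ (by linarith) h
  have h2 : V ^ j * 256 ≤ V ^ j * V := mul_le_mul_of_nonneg_left hV (by positivity)
  linarith

/-- A product of a power and an inverse power. -/
theorem mpv (hV : 256 ≤ V) {x : ℝ} {j k n : ℕ} (hx : x ≤ 1 / V ^ k) (h : j + n = k) :
    V ^ j * x ≤ 1 / V ^ n := by
  have hV0 : 0 < V := by linarith
  have h1 : V ^ j * x ≤ V ^ j * (1 / V ^ k) := mul_le_mul_of_nonneg_left hx (by positivity)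
  refine h1.trans (le_of_eq ?_)
  rw [← h, pow_add]
  field_simp

/-- The bound of `e5`. -/
theorem num5y (hV : 256 ≤ V) :
    e5 (V ^ 7) (1 / V ^ 8) η δ = 4 * (V ^ 22 * η) + 32 * (V ^ 44 * δ) := by
  have hV0 : 0 < V := by linarith
  unfold e5
  field_simp
  ring

/-- The error of the germ of the second sample. -/
theorem numB (hV : 256 ≤ V) :
    16 * (V ^ 7) ^ 4 * (V ^ 51 * δ) / (1 / V ^ 8) ^ 2 + 4 * (V ^ 7) ^ 2 * η / (1 / V ^ 8) =
      16 * (V ^ 95 * δ) + 4 * (V ^ 22 * η) := by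
  have hV0 : 0 < V := by linarith
  field_simp

/-- The bound of `e6`. -/
theorem num6 (hV : 256 ≤ V) (hη : 0 ≤ η) (hδ : 0 ≤ δ) :
    e6 (V ^ 7) (1 / V ^ 8) η (16 * (V ^ 95 * δ) + 4 * (V ^ 22 * η)) δ ≤
      V ^ 30 * η + V ^ 103 * δ := by
  have hV0 : 0 < V := by linarith
  unfold e6
  rw [num5y hV]
  have e1 : (4 * (V ^ 22 * η) + 32 * (V ^ 44 * δ) + 2 * V ^ 7 * η) / 2 +
      (1 + V ^ 7) * (η + (16 * (V ^ 95 * δ) + 4 * (V ^ 22 * η))) =
      V ^ 0 * η + 2 * (V ^ 7 * η) + 6 * (V ^ 22 * η) + 4 * (V ^ 29 * η) +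
      (16 * (V ^ 44 * δ) + 16 * (V ^ 95 * δ) + 16 * (V ^ 102 * δ)) := by
    ring
  rw [e1]
  have a0 := pv hV hη (show 0 < 30 by norm_num)
  have a1 := pv hV hη (show 7 < 30 by norm_num)
  have a2 := pv hV hη (show 22 < 30 by norm_num)
  have a3 := pv hV hη (show 29 < 30 by norm_num)
  have b1 := pv hV hδ (show 44 < 103 by norm_num)
  have b2 := pv hV hδ (show 95 < 103 by norm_num)
  have b3 := pv hV hδ (show 102 < 103 by norm_num)
  have c1 : 0 ≤ V ^ 30 * η := by positivity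
  have c2 : 0 ≤ V ^ 103 * δ := by positivity
  linarith

/-- **The numbers of case [2a].** -/
theorem numA {t : ℝ} (hV : 256 ≤ V) (hN : 1 ≤ N) (hη : 0 ≤ η) (hδ : 0 < δ)
    (h1 : N * η ≤ 1 / V ^ 100) (h2 : N * δ ≤ 1 / V ^ 140) (ht0 : 0 ≤ t) (ht : t ≤ V) :
    4 * V ^ 7 * δ ≤ (1 / V ^ 8) ^ 2 ∧
    ((3 + 2 * V ^ 7) * t) ^ 3 * (4 * (V ^ 7) ^ 2 * δ / (1 / V ^ 8)) < V ^ 51 * δ ∧
    8 * (V ^ 7) ^ 2 * (V ^ 51 * δ) ≤ (1 / V ^ 8) ^ 2 ∧
    0 < 1 / V ^ 32 - (η + (16 * (V ^ 7) ^ 4 * (V ^ 51 * δ) / (1 / V ^ 8) ^ 2 +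
      4 * (V ^ 7) ^ 2 * η / (1 / V ^ 8))) ∧
    N * e6 (V ^ 7) (1 / V ^ 8) η (16 * (V ^ 7) ^ 4 * (V ^ 51 * δ) / (1 / V ^ 8) ^ 2 +
      4 * (V ^ 7) ^ 2 * η / (1 / V ^ 8)) δ ≤ 1 / V ^ 32 -
      (η + (16 * (V ^ 7) ^ 4 * (V ^ 51 * δ) / (1 / V ^ 8) ^ 2 +
        4 * (V ^ 7) ^ 2 * η / (1 / V ^ 8))) ∧
    2 * V ^ 7 * (2 * V ^ 7 * η + V ^ 7 * e5 (V ^ 7) (1 / V ^ 8) η δ +
      (V ^ 7) ^ 2 * (1 / V ^ 32)) / (1 / V ^ 8) ≤ 1 / V := by
  have hV0 : 0 < V := by linarith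
  have hηN : η ≤ N * η := le_mul_of_one_le_left hη hN
  have hδN : δ ≤ N * δ := le_mul_of_one_le_left hδ.le hN
  have hη1 : η ≤ 1 / V ^ 100 := hηN.trans h1
  have hδ1 : δ ≤ 1 / V ^ 140 := hδN.trans h2
  have hsq : (1 / V ^ 8) ^ 2 = 1 / V ^ 16 := by
    rw [div_pow, one_pow, ← pow_mul]
  rw [numB hV]
  refine ⟨?_, ?_, ?_, ?_, ?_, ?_⟩
  · rw [hsq]
    have a1 := mpv hV (j := 7) (n := 133) hδ1 (by norm_num)
    have a2 := ipv hV (show 16 < 133 by norm_num)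
    have a3 : 0 ≤ V ^ 7 * δ := by positivity
    linarith
  · have e1 : 4 * (V ^ 7) ^ 2 * δ / (1 / V ^ 8) = 4 * (V ^ 22 * δ) := by
      field_simp
    rw [e1]
    have b1 : 3 + 2 * V ^ 7 ≤ V ^ 8 := by
      have h3 : (256 : ℝ) * (V ^ 7 * 1) ≤ V ^ 8 * 1 := pv hV zero_le_one (by norm_num)
      have h4 : (1 : ℝ) ≤ V ^ 7 := one_le_pow₀ (by linarith)
      linarith
    have b2 : (3 + 2 * V ^ 7) * t ≤ V ^ 8 * V := mul_le_mul b1 ht ht0 (by positivity)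
    have b3 : ((3 + 2 * V ^ 7) * t) ^ 3 ≤ (V ^ 8 * V) ^ 3 :=
      pow_le_pow_left₀ (by positivity) b2 3
    have b4 : ((3 + 2 * V ^ 7) * t) ^ 3 * (4 * (V ^ 22 * δ)) ≤
        (V ^ 8 * V) ^ 3 * (4 * (V ^ 22 * δ)) := mul_le_mul_of_nonneg_right b3 (by positivity)
    have e2 : (V ^ 8 * V) ^ 3 * (4 * (V ^ 22 * δ)) = 4 * (V ^ 49 * δ) := by ring
    rw [e2] at b4
    have b5 := pv hV hδ.le (show 49 < 51 by norm_num)
    have b6 : 0 < V ^ 49 * δ := by positivity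
    linarith
  · rw [hsq]
    have e1 : 8 * (V ^ 7) ^ 2 * (V ^ 51 * δ) = 8 * (V ^ 65 * δ) := by ring
    rw [e1]
    have a1 := mpv hV (j := 65) (n := 75) hδ1 (by norm_num)
    have a2 := ipv hV (show 16 < 75 by norm_num)
    have a3 : 0 ≤ V ^ 65 * δ := by positivity
    linarith
  · have a1 := mpv hV (j := 95) (n := 45) hδ1 (by norm_num)
    have a2 := mpv hV (j := 22) (n := 78) hη1 (by norm_num)
    have a3 := ipv hV (show 32 < 45 by norm_num)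
    have a4 := ipv hV (show 32 < 78 by norm_num)
    have a5 := ipv hV (show 32 < 100 by norm_num)
    have a6 : 0 < 1 / V ^ 32 := by positivity
    linarith
  · have h6 := mul_le_mul_of_nonneg_left (num6 hV hη hδ.le) (by linarith : 0 ≤ N)
    have e1 : N * (V ^ 30 * η + V ^ 103 * δ) = V ^ 30 * (N * η) + V ^ 103 * (N * δ) := by ring
    rw [e1] at h6
    have b1 := mpv hV (j := 30) (n := 70) h1 (by norm_num)
    have b2 := mpv hV (j := 103) (n := 37) h2 (by norm_num)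
    have b3 := ipv hV (show 32 < 70 by norm_num)
    have b4 := ipv hV (show 32 < 37 by norm_num)
    have a1 := mpv hV (j := 95) (n := 45) hδ1 (by norm_num)
    have a2 := mpv hV (j := 22) (n := 78) hη1 (by norm_num)
    have a3 := ipv hV (show 32 < 45 by norm_num)
    have a4 := ipv hV (show 32 < 78 by norm_num)
    have a5 := ipv hV (show 32 < 100 by norm_num)
    have a6 : 0 < 1 / V ^ 32 := by positivity
    linarith
  · rw [num5y hV]
    have e1 : 2 * V ^ 7 * (2 * V ^ 7 * η + V ^ 7 * (4 * (V ^ 22 * η) + 32 * (V ^ 44 * δ)) +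
        (V ^ 7) ^ 2 * (1 / V ^ 32)) / (1 / V ^ 8) =
        4 * (V ^ 22 * η) + 8 * (V ^ 44 * η) + 64 * (V ^ 66 * δ) + 2 * (1 / V ^ 3) := by
      field_simp
      ring
    rw [e1]
    have a1 := mpv hV (j := 22) (n := 78) hη1 (by norm_num)
    have a2 := mpv hV (j := 44) (n := 56) hη1 (by norm_num)
    have a3 := mpv hV (j := 66) (n := 74) hδ1 (by norm_num)
    have a4 := ipv hV (show 1 < 78 by norm_num)
    have a5 := ipv hV (show 1 < 56 by norm_num)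
    have a6 := ipv hV (show 1 < 74 by norm_num)
    have a7 := ipv hV (show 1 < 3 by norm_num)
    rw [pow_one] at a4 a5 a6 a7
    have a8 : 0 < 1 / V := by positivity
    linarith

/-- **The numbers of case [2b].** -/
theorem numBb {L K κ N' Z : ℝ} (hV : 256 ≤ V) (hN : 1 ≤ N) (hN' : 1 ≤ N') (hL : 1 ≤ L)
    (hLV : L ≤ V) (hK0 : 0 ≤ K) (hK : K ≤ V) (hκ0 : 0 ≤ κ) (hκ : κ ≤ K / Z)
    (hZ : N' * N * V ^ 400 ≤ Z) :
    0 < 1 / V ^ 2 - 2 * (cK 4 (L ^ 2) (1 / (N * V ^ 140)) * (K / Z)) ∧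
    N' * (κ + 2 * (cK 4 (L ^ 2) (1 / (N * V ^ 140)) * (K / Z)) * (1 + L)) ≤
      1 / V ^ 2 - 2 * (cK 4 (L ^ 2) (1 / (N * V ^ 140)) * (K / Z)) := by
  have hV0 : 0 < V := by linarith
  have hN0 : 0 < N := by linarith
  have hN'0 : 0 < N' := by linarith
  have hZ0 : 0 < Z := lt_of_lt_of_le (by positivity) hZ
  have hQ : cK 4 (L ^ 2) (1 / (N * V ^ 140)) * (K / Z) ≤ V ^ 151 * (N / Z) := by
    have e1 : cK 4 (L ^ 2) (1 / (N * V ^ 140)) * (K / Z) =
        96 * (L ^ 8 * K) * (V ^ 140 * (N / Z)) := by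
      unfold cK
      have : (Nat.factorial 4 : ℝ) = 24 := by norm_num [Nat.factorial]
      rw [this]
      push_cast
      field_simp
      ring
    rw [e1]
    have h1 : L ^ 8 * K ≤ V ^ 8 * V :=
      mul_le_mul (pow_le_pow_left₀ (by linarith) hLV 8) hK hK0 (by positivity)
    have h2 : 96 * (L ^ 8 * K) * (V ^ 140 * (N / Z)) ≤ 96 * (V ^ 8 * V) * (V ^ 140 * (N / Z)) :=
      mul_le_mul_of_nonneg_right (by linarith) (by positivity)
    have e2 : 96 * (V ^ 8 * V) * (V ^ 140 * (N / Z)) = 96 * (V ^ 149 * (N / Z)) := by ring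
    rw [e2] at h2
    have h3 := pv hV (show 0 ≤ N / Z by positivity) (show 149 < 151 by norm_num)
    have h4 : 0 ≤ V ^ 149 * (N / Z) := by positivity
    linarith
  obtain ⟨Q, hQd⟩ : ∃ Q, Q = cK 4 (L ^ 2) (1 / (N * V ^ 140)) * (K / Z) := ⟨_, rfl⟩
  have hQ0 : 0 ≤ Q := by
    rw [hQd]
    unfold cK
    positivity
  rw [← hQd] at hQ ⊢
  have hNZ : N' * (N / Z) ≤ 1 / V ^ 400 := by
    rw [← mul_div_assoc, div_le_div_iff₀ hZ0 (by positivity)]
    linarith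
  have hNZ1 : N / Z ≤ 1 / V ^ 400 := by
    refine le_trans ?_ hNZ
    exact le_mul_of_one_le_left (by positivity) hN'
  have hQ1 : Q ≤ 1 / V ^ 249 := hQ.trans (mpv hV hNZ1 (by norm_num))
  have hQN : N' * Q ≤ 1 / V ^ 249 := by
    have h1 := mul_le_mul_of_nonneg_left hQ hN'0.le
    have e1 : N' * (V ^ 151 * (N / Z)) = V ^ 151 * (N' * (N / Z)) := by ring
    rw [e1] at h1
    exact h1.trans (mpv hV hNZ (by norm_num))
  have hκN : N' * κ ≤ 1 / V ^ 399 := by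
    have h1 : κ ≤ V * (N / Z) := by
      refine hκ.trans ?_
      have h2 : K / Z ≤ V / Z := div_le_div_of_nonneg_right hK hZ0.le
      have h3 : V / Z ≤ V * (N / Z) := by
        have : V * (N / Z) = V / Z * N := by ring
        rw [this]
        exact le_mul_of_one_le_right (by positivity) hN
      exact h2.trans h3
    have h4 := mul_le_mul_of_nonneg_left h1 hN'0.le
    have e1 : N' * (V * (N / Z)) = V ^ 1 * (N' * (N / Z)) := by ring
    rw [e1] at h4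
    exact h4.trans (mpv hV hNZ (by norm_num))
  have a1 := ipv hV (show 2 < 249 by norm_num)
  have a2 := ipv hV (show 2 < 399 by norm_num)
  have a4 := ipv hV (show 2 < 248 by norm_num)
  have a3 : 0 < 1 / V ^ 2 := by positivity
  refine ⟨by linarith, ?_⟩
  have h5 : N' * (κ + 2 * Q * (1 + L)) = N' * κ + 2 * (N' * Q) + 2 * (L * (N' * Q)) := by ring
  have h6 : L * (N' * Q) ≤ V ^ 1 * (1 / V ^ 249) := by
    rw [pow_one]
    exact mul_le_mul hLV hQN (by positivity) hV0.le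
  have h7 : V ^ 1 * (1 / V ^ 249) ≤ 1 / V ^ 248 := mpv hV le_rfl (by norm_num)
  rw [h5]
  linarith

end num

end Pool.KPO
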