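import Pool.Agent.H31.D2.Cy5
import Pool.Agent.H4.D2.Call

/-!
# D2, the tie cell `(1,k,k;k+1)`, `k > 2`: all cases in one form

`c6_y`: for a law with `PrC` and with `PrS` at two scales, and functionals which are not small, there
are directions `al : ζ' → Fin 2 → ℝ`, bounded and not small, such that for two samples of one line
with probability at least `2^(-34)` the slopes agree in the directions `al` of both samples.
-/

set_option autoImplicit false

namespace Pool.KPO

open Finset Real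
open Pool.Agent.H49.Ent Pool.Agent.H32.Dense Pool.STK
open Pool.K2S
open Pool.KM7 (P2 P2_isLaw P2_pos)
open Pool.D2A Pool.D2T Pool.D2N Pool.D2G Pool.D2JA

variable {Ω σ ζ ζ' ε : Type} [Fintype Ω]
variable {p : Ω → ℝ} {S : Ω → σ} {z : Ω → ζ} {z' : Ω → ζ'} {e : Ω → ε} {E0 : ζ → ε → ℝ}
  {A0 : ζ → ε → Fin 2 → ℝ} {M : Ω → Fin 2 → Fin 2 → ℝ} {ek : Ω → ℤ} {k K₀ : ℕ} {L κ cE eF : ℝ}
  {b₁ b₂ : Ω → ℤ} {P₁ P₂ : Ω → Fin 2 → ℤ} {eth₁ ey₁ eth₂ ey₂ : Ω → ℤ}
  {A s₁ th₁ x₁ s₂ th₂ x₂ K₁ : ℕ} {K eH eP : ℝ}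

/-- The covector `(1, 0)` where the slopes agree. -/
theorem one_kil {a : Fin 2 → Fin 2 → ℝ} {t : ℝ} (h : ∀ j, |a 0 j| ≤ t) (j : Fin 2) :
    |∑ i, (![1, 0] : Fin 2 → ℝ) i * a i j| ≤ t := by
  rw [Fin.sum_univ_two]
  show |1 * a 0 j + 0 * a 1 j| ≤ t
  rw [one_mul, zero_mul, add_zero]
  exact h j

/-- **All cases in one form**, `k > 2`. -/
theorem c6_y (C : PrC p S z z' e E0 A0 M ek k K₀ L κ cE eF)
    (D₁ : PrS p S z z' e E0 A0 M b₁ P₁ eth₁ ey₁ A s₁ th₁ x₁ K₁ K cE eH eP)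
    (D₂ : PrS p S z z' e E0 A0 M b₂ P₂ eth₂ ey₂ A s₂ th₂ x₂ K₁ K cE eH eP)
    {l xA y v : ℕ} (hL2 : L ≤ 2 ^ l) (hK2 : K ≤ 2 ^ v) (hv : 2 * l + xA + y + k + 10 ≤ v)
    (hκ : 3 * L * κ ≤ K / 2 ^ s₂) (hs₁ : th₁ + x₁ + 200 * v ≤ s₁)
    (hs₂ : th₂ + x₂ + th₁ + x₁ + 400 * v ≤ s₂) (hss : s₁ ≤ s₂)
    (hn₀ : 1024 * (10 * eF + Real.log 2) + Real.log 9 < (1 - 1024 * cE) * Real.log K₀)
    (hn : 1024 * (iY A K eF eH eP + Real.log 2) + Real.log 5 < (1 - 1024 * cE) * Real.log K₁)
    (heF : 0 ≤ eF)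
    (h0 : law p (fun ω => ∀ i, |A0 (z ω) (e ω) i| < 1 / 2 ^ xA) True ≤ 1 / 512) :
    ∃ al : ζ' → Fin 2 → ℝ, (∀ w, (∀ i, |al w i| ≤ L) ∧ ∃ i, 1 / 2 ^ xA / 2 ≤ |al w i|) ∧
      1 / 2 ^ 34 ≤ law (P2 p S) (fun v => ∀ j,
        |∑ i, al (z' v.1) i * (M v.2 i j - M v.1 i j)| ≤ 1 / 2 ^ y ∧
        |∑ i, al (z' v.2) i * (M v.2 i j - M v.1 i j)| ≤ 1 / 2 ^ y) True := by
  have hp := C.isLaw
  have hL1 := C.hL
  have hL0 : 0 ≤ L := by linarith
  have hκ0 := C.hκ
  have hK0 := D₁.hK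
  have hl2 : 0 < Real.log 2 := Real.log_pos (by norm_num)
  have hlK : 0 ≤ Real.log K₀ := Real.log_nonneg (by exact_mod_cast C.hK₀)
  have hcE := C.hcE
  have hxh : (1 : ℝ) / 2 ^ xA / 2 ≤ 1 := by
    have h1 : (1 : ℝ) / 2 ^ xA ≤ 1 := by
      rw [div_le_one (by positivity)]
      exact one_le_pow₀ (by norm_num)
    linarith
  have hLκ : κ ≤ K / 2 ^ s₂ := by
    have h1 : κ ≤ 3 * L * κ := by nlinarith
    exact h1.trans hκ
  have hκ₁ : 3 * L * κ ≤ K / 2 ^ s₁ := hκ.trans
    (div_le_div_of_nonneg_left hK0 (by positivity) (pow_le_pow_right₀ (by norm_num) hss))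
  have one_al : ∀ t : ℝ, t ≤ 1 / 2 ^ y →
      1 / 32 ≤ law (P2 p S) (fun v => ∀ j, |M v.2 0 j - M v.1 0 j| ≤ t) True →
      ∃ al : ζ' → Fin 2 → ℝ, (∀ w, (∀ i, |al w i| ≤ L) ∧ ∃ i, 1 / 2 ^ xA / 2 ≤ |al w i|) ∧
      1 / 2 ^ 34 ≤ law (P2 p S) (fun v => ∀ j,
        |∑ i, al (z' v.1) i * (M v.2 i j - M v.1 i j)| ≤ 1 / 2 ^ y ∧
        |∑ i, al (z' v.2) i * (M v.2 i j - M v.1 i j)| ≤ 1 / 2 ^ y) True := by
    intro t ht h
    refine ⟨fun _ => ![1, 0], fun w => ⟨Fin.forall_fin_two.mpr ⟨?_, ?_⟩, 0, ?_⟩, ?_⟩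
    · show |(1 : ℝ)| ≤ L
      rw [abs_one]
      exact hL1
    · show |(0 : ℝ)| ≤ L
      rw [abs_zero]
      exact hL0
    · show 1 / 2 ^ xA / 2 ≤ |(1 : ℝ)|
      rw [abs_one]
      exact hxh
    · have hnum : (1 : ℝ) / 2 ^ 34 ≤ 1 / 32 := by norm_num
      refine hnum.trans (h.trans ?_)
      refine Pool.D2Con.law_mono' (P2_isLaw hp S).nonneg fun v _ h j => ?_
      have h1 := one_kil (a := fun i j => M v.2 i j - M v.1 i j) h j
      exact ⟨h1.trans ht, h1.trans ht⟩
  rcases le_or_gt (1 / 2 ^ 8 : ℝ) (law (PL p S z' sd10) (fun w => Pool.D2P.Pll (1 / 2 ^ xA)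
      (1 / 2 ^ v) (A0 (z w.1.1) (e w.1.1)) (A0 (z w.1.1) (e (cp sd10 (ja 0) w)))) True) with hm | hm
  · -- nearly parallel functionals
    obtain ⟨a, ha⟩ := case_p C (by positivity) (by positivity) hm
    classical
    obtain ⟨al, hal⟩ : ∃ al : ζ' → Fin 2 → ℝ, al = fun w =>
      if (∀ i, |a w i| ≤ L) ∧ ∃ i, 1 / 2 ^ xA / 2 ≤ |a w i| then a w else ![1, 0] := ⟨_, rfl⟩
    refine ⟨al, fun w => ?_, ?_⟩
    · rw [hal]
      dsimp only
      split_ifs with hc
      · exact hc
      · refine ⟨Fin.forall_fin_two.mpr ⟨?_, ?_⟩, 0, ?_⟩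
        · show |(1 : ℝ)| ≤ L
          rw [abs_one]
          exact hL1
        · show |(0 : ℝ)| ≤ L
          rw [abs_zero]
          exact hL0
        · show 1 / 2 ^ xA / 2 ≤ |(1 : ℝ)|
          rw [abs_one]
          exact hxh
    · have hnum : (1 : ℝ) / 2 ^ 34 ≤ (1 / 2 ^ 8) ^ 2 := by norm_num
      refine hnum.trans (ha.trans ?_)
      refine Pool.D2Con.law_mono' (P2_isLaw hp S).nonneg fun w _ h => ?_
      obtain ⟨h1, ⟨i1, h2⟩, h3, ⟨i2, h4⟩, h5⟩ := h
      have hpos : (0 : ℝ) < 1 / 2 ^ xA := by positivity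
      have g1 : al (z' w.1) = a (z' w.1) := by
        rw [hal]
        dsimp only
        rw [if_pos]
        exact ⟨h1, i1, by linarith⟩
      have g2 : al (z' w.2) = a (z' w.2) := by
        rw [hal]
        dsimp only
        rw [if_pos]
        exact ⟨h3, i2, by linarith⟩
      rw [g1, g2]
      have hb : L / (1 / 2 ^ xA) * (3 * L * κ) + 1 / 2 ^ v / (1 / 2 ^ xA) * (2 * L) ≤
          1 / 2 ^ y := by
        have e1 : L / (1 / 2 ^ xA) = 2 ^ xA * L := by
          field_simp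
        have e2 : (1 : ℝ) / 2 ^ v / (1 / 2 ^ xA) = 2 ^ xA / 2 ^ v := by
          field_simp
        rw [e1, e2]
        have t1 : 2 ^ xA * L * (3 * L * κ) ≤ 2 ^ xA * 2 ^ l * (2 ^ v / 2 ^ s₂) := by
          refine mul_le_mul (mul_le_mul_of_nonneg_left hL2 (by positivity)) ?_ (by positivity)
            (by positivity)
          exact hκ.trans (div_le_div_of_nonneg_right hK2 (by positivity))
        have t2 : (2 : ℝ) ^ xA * 2 ^ l * (2 ^ v / 2 ^ s₂) ≤ 1 / 2 ^ (y + 1) := by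
          rw [← pow_add, ← mul_div_assoc, ← pow_add, div_le_div_iff₀ (by positivity)
            (by positivity), one_mul, ← pow_add]
          exact pow_le_pow_right₀ (by norm_num) (by omega)
        have t3 : (2 : ℝ) ^ xA / 2 ^ v * (2 * L) ≤ 2 ^ xA / 2 ^ v * (2 * 2 ^ l) :=
          mul_le_mul_of_nonneg_left (by linarith) (by positivity)
        have t4 : (2 : ℝ) ^ xA / 2 ^ v * (2 * 2 ^ l) ≤ 1 / 2 ^ (y + 1) := by
          have e3 : (2 : ℝ) ^ xA / 2 ^ v * (2 * 2 ^ l) = 2 ^ (xA + l + 1) / 2 ^ v := by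
            rw [pow_add, pow_add]
            ring
          rw [e3, div_le_div_iff₀ (by positivity) (by positivity), one_mul, ← pow_add]
          exact pow_le_pow_right₀ (by norm_num) (by omega)
        have e4 : (1 : ℝ) / 2 ^ y = 1 / 2 ^ (y + 1) + 1 / 2 ^ (y + 1) := by
          rw [pow_succ]
          field_simp
          norm_num
        rw [e4]
        linarith
      intro j
      exact ⟨(h5 j).1.trans hb, (h5 j).2.trans hb⟩
  · -- transversal functionals
    have hw := Pool.D2P.w2_small C.sk h0 hm.le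
    -- the letters
    obtain ⟨V, hVd⟩ : ∃ V : ℝ, V = 2 ^ v := ⟨_, rfl⟩
    have hV : 256 ≤ V := by
      rw [hVd]
      calc (256 : ℝ) = 2 ^ 8 := by norm_num
        _ ≤ 2 ^ v := pow_le_pow_right₀ (by norm_num) (by omega)
    have hV0 : 0 < V := by linarith
    have hkV : (2 : ℝ) ^ k ≤ V := by
      rw [hVd]
      exact pow_le_pow_right₀ (by norm_num) (by omega)
    have hLV : L ≤ V := hL2.trans (by
      rw [hVd]
      exact pow_le_pow_right₀ (by norm_num) (by omega))
    obtain ⟨N, hNd⟩ : ∃ N : ℝ, N = 2 ^ (th₁ + x₁) := ⟨_, rfl⟩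
    obtain ⟨N', hN'd⟩ : ∃ N : ℝ, N = 2 ^ (th₂ + x₂) := ⟨_, rfl⟩
    have hN1 : 1 ≤ N := by
      rw [hNd]
      exact one_le_pow₀ (by norm_num)
    have hN'1 : 1 ≤ N' := by
      rw [hN'd]
      exact one_le_pow₀ (by norm_num)
    have hN0 : 0 < N := by linarith
    have hZ₁ : N * V ^ 200 ≤ 2 ^ s₁ := by
      rw [hNd, hVd, ← pow_mul, ← pow_add]
      exact pow_le_pow_right₀ (by norm_num) (by omega)
    have hZ₂ : N' * N * V ^ 400 ≤ 2 ^ s₂ := by
      rw [hNd, hN'd, hVd, ← pow_mul, ← pow_add, ← pow_add]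
      exact pow_le_pow_right₀ (by norm_num) (by omega)
    rw [← hVd] at hK2
    have hyV : 1 / V ≤ 1 / 2 ^ y := by
      rw [hVd]
      exact one_div_le_one_div_of_le (by positivity) (pow_le_pow_right₀ (by norm_num) (by omega))
    have hcE1 : (1 - cE / (1 / 1024)) = 1 - 1024 * cE := by ring
    have hn₀' : (10 * (eF + 0) + Real.log 2) / (1 / 1024) + Real.log (3 * 3 : ℕ) <
        (1 - cE / (1 / 1024)) * Real.log K₀ := by
      rw [hcE1]
      refine lt_of_eq_of_lt ?_ hn₀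
      norm_num
      ring
    have hn' : (iY A K eF eH eP + Real.log 2) / (1 / 1024) + Real.log (5 : ℕ) <
        (1 - cE / (1 / 1024)) * Real.log K₁ := by
      rw [hcE1]
      refine lt_of_eq_of_lt ?_ hn
      norm_num
      ring
    have hn5 : Real.log 2 / (1 / 1024) + Real.log (5 : ℕ) <
        (1 - cE / (1 / 1024)) * Real.log K₀ := by
      refine lt_of_le_of_lt (add_le_add ?_ ?_) hn₀'
      · rw [div_le_div_iff_of_pos_right (by norm_num)]
        linarith
      · exact Real.log_le_log (by norm_num) (by norm_num)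
    rcases le_or_gt (1 / 4 : ℝ) (law (PL p S z' sd10) (fun w => B2a E0 A0 k (1 / 2 ^ xA)
        (1 / V) (1 / (N * V ^ 140)) (z w.1.1) (fun r => e (cp sd10 (ja r) w)) (e w.1.1)) True)
      with hm2 | hm2
    · -- case [2a]
      have hη0 : 0 ≤ V ^ 17 / 2 ^ s₁ := by positivity
      have hη1 : N * (V ^ 17 / 2 ^ s₁) ≤ 1 / V ^ 100 := by
        rw [← mul_div_assoc, div_le_div_iff₀ (by positivity) (by positivity), one_mul]
        refine le_trans ?_ hZ₁
        have e1 : N * V ^ 17 * V ^ 100 = N * V ^ 117 := by ring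
        rw [e1]
        exact mul_le_mul_of_nonneg_left (pow_le_pow_right₀ (by linarith) (by norm_num)) hN0.le
      have hδ1 : N * (1 / (N * V ^ 140)) ≤ 1 / V ^ 140 := by
        refine le_of_eq ?_
        field_simp
      obtain ⟨c1, c2, c3, c4, c5, c6⟩ := numA (t := 2 ^ k) hV hN1 hη0
        (by positivity : 0 < 1 / (N * V ^ 140)) hη1 hδ1 (by positivity) hkV
      have hA := case_a C D₁ (LL := V ^ 7) (μ := 1 / V ^ 8) (μA := 1 / 2 ^ xA) (μ₁ := 1 / V)
        (δ := 1 / (N * V ^ 140)) (η := V ^ 17 / 2 ^ s₁) (μa := V ^ 51 * (1 / (N * V ^ 140)))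
        (ν := 1 / V ^ 32) (c := 1 / 1024) (c₂ := 1 / 4) (τ := 1 / V) (by positivity)
        (by
          have h1 : L ^ 6 ≤ V ^ 6 := pow_le_pow_left₀ hL0 hLV 6
          have h2 : 256 * (V ^ 6 * 1) ≤ V ^ 7 * 1 := pv hV zero_le_one (by norm_num)
          have h3 : 0 ≤ V ^ 6 := by positivity
          linarith)
        (by positivity)
        (by
          rw [div_le_one (by positivity)]
          exact one_le_pow₀ (by linarith))
        (by
          rw [hVd, ← pow_mul]
          exact one_div_le_one_div_of_le (by positivity)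
            (pow_le_pow_right₀ (by norm_num) (by omega)))
        (by
          have h1 : (2 : ℝ) ^ (3 * k) ≤ V ^ 3 := by
            rw [mul_comm, pow_mul]
            exact pow_le_pow_left₀ (by positivity) hkV 3
          have h2 : 1 / V ^ 8 * 2 ^ (3 * k) ≤ 1 / V ^ 8 * V ^ 3 :=
            mul_le_mul_of_nonneg_left h1 (by positivity)
          have h3 : 1 / V ^ 8 * V ^ 3 = 1 / V ^ 5 := by
            field_simp
          have h4 := ipv hV (show 3 < 5 by norm_num)
          have h5 : (1 / V) ^ 3 = 1 / V ^ 3 := by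
            rw [div_pow, one_pow]
          rw [h5]
          have h6 : 0 < 1 / V ^ 5 := by positivity
          linarith)
        c1
        (by
          have h1 : (2 : ℝ) ^ (3 * k) ≤ V ^ 3 := by
            rw [mul_comm, pow_mul]
            exact pow_le_pow_left₀ (by positivity) hkV 3
          have h2 : L ^ 11 ≤ V ^ 11 := pow_le_pow_left₀ hL0 hLV 11
          have h3 : K / 2 ^ s₁ ≤ V / 2 ^ s₁ := div_le_div_of_nonneg_right hK2 (by positivity)
          have h4 : 1152 * L ^ 11 * (K / 2 ^ s₁) * 2 ^ (3 * k) ≤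
              1152 * V ^ 11 * (V / 2 ^ s₁) * V ^ 3 := by
            refine mul_le_mul (mul_le_mul (by linarith) h3 (by positivity) (by positivity)) h1
              (by positivity) (by positivity)
          have h5 : 1152 * V ^ 11 * (V / 2 ^ s₁) * V ^ 3 = 1152 * V ^ 15 / 2 ^ s₁ := by ring
          have h6 : 1152 * V ^ 15 ≤ V ^ 17 := by
            have h7 : 256 * (V ^ 15 * 1) ≤ V ^ 16 * 1 := pv hV zero_le_one (by norm_num)
            have h8 : 256 * (V ^ 16 * 1) ≤ V ^ 17 * 1 := pv hV zero_le_one (by norm_num)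
            have h9 : 0 ≤ V ^ 15 := by positivity
            linarith
          rw [h5] at h4
          exact h4.trans (div_le_div_of_nonneg_right h6 (by positivity)))
        hκ₁ (by norm_num) hn₀' hn' c2 c3 c4 (by
          rw [← hNd]
          exact c5) c6 (by norm_num) hm2
      refine one_al (1 / V) hyV ?_
      have h9 : law (P2 p S) (fun v => ∀ i j, |M v.2 i j - M v.1 i j| ≤ 1 / V) True ≤
          law (P2 p S) (fun v => ∀ j, |M v.2 0 j - M v.1 0 j| ≤ 1 / V) True :=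
        Pool.D2Con.law_mono' (P2_isLaw hp S).nonneg fun v _ h j => h 0 j
      norm_num at hA
      norm_num at h9
      norm_num
      linarith
    · -- case [2b]
      have hvv : 1 / V = 1 / 2 ^ v := by rw [hVd]
      have hfour := C.sk.four (δ := 1 / (N * V ^ 140)) (c := 1 / 1024) (μA := 1 / 2 ^ xA)
        (μ₁ := 1 / 2 ^ v) (c₂ := 1 / 4) (by norm_num) hn5 h0 hw (by
          have h1 := hm2.le
          rw [hvv] at h1
          exact h1)
      obtain ⟨c1, c2⟩ := numBb (K := K) (κ := κ) (N' := N') (Z := 2 ^ s₂) (N := N) hV hN1 hN'1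
        hL1 hLV hK0 hK2 hκ0 hLκ hZ₂
      have hB := case_b C D₂ (μ₄ := 1 / (N * V ^ 140)) (c := 1 / 1024) (c₃ := 1 / 2)
        (ρ := 1 / V ^ 2) (by positivity) (by norm_num) hn' rfl c1 (by
          rw [← hN'd]
          exact c2) (by norm_num)
        (le_trans (by norm_num) hfour)
      refine one_al (1 / V) hyV ?_
      have h9 : law (P2 p S) (fun v => ∀ i, |M v.2 i 1 - M v.1 i 1| ≤ 1 / V ^ 2) True ≤
          law (P2 p S) (fun v => ∀ j, |M v.2 0 j - M v.1 0 j| ≤ 1 / V) True := by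
        refine Pool.D2Con.law_mono' (P2_isLaw hp S).nonneg fun v hv h => ?_
        obtain ⟨a1, a2, a3⟩ := (P2_pos hp v).mp hv
        have h1 := h 0
        have h2 := C.vel _ _ a1 a2 a3 0
        have hE := C.bE _ a1
        have h3 : |E0 (z v.1) (e v.1) * (M v.2 0 1 - M v.1 0 1)| ≤ 2 ^ l * (1 / V ^ 2) := by
          rw [abs_mul]
          exact mul_le_mul (hE.trans hL2) h1 (abs_nonneg _) (by positivity)
        have h4 : (2 : ℝ) ^ l * (1 / V ^ 2) ≤ 1 / V / 2 := by
          have h5 : (2 : ℝ) ^ (l + 1) ≤ V := by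
            rw [hVd]
            exact pow_le_pow_right₀ (by norm_num) (by omega)
          rw [pow_succ] at h5
          rw [mul_one_div, div_div, div_le_div_iff₀ (by positivity) (by positivity)]
          nlinarith
        have h5 : κ ≤ 1 / V / 2 := by
          have h6 : K / 2 ^ s₂ ≤ V / 2 ^ s₂ := div_le_div_of_nonneg_right hK2 (by positivity)
          have h7 : V / 2 ^ s₂ ≤ 1 / V ^ 2 := by
            rw [div_le_div_iff₀ (by positivity) (by positivity), one_mul]
            refine le_trans ?_ hZ₂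
            have e1 : V * V ^ 2 = V ^ 3 := by ring
            rw [e1]
            have h8 : V ^ 3 ≤ V ^ 400 := pow_le_pow_right₀ (by linarith) (by norm_num)
            have h9 : 1 * V ^ 400 ≤ N' * N * V ^ 400 :=
              mul_le_mul_of_nonneg_right (by nlinarith) (by positivity)
            linarith
          have h8 := ipv hV (show 1 < 2 by norm_num)
          rw [pow_one] at h8
          have h9 : 0 < 1 / V ^ 2 := by positivity
          linarith
        refine Fin.forall_fin_two.mpr ⟨?_, ?_⟩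
        · have e1 : M v.2 0 0 - M v.1 0 0 = ((M v.2 0 0 - M v.1 0 0) +
            E0 (z v.1) (e v.1) * (M v.2 0 1 - M v.1 0 1)) -
            E0 (z v.1) (e v.1) * (M v.2 0 1 - M v.1 0 1) := by ring
          rw [e1]
          refine (abs_sub _ _).trans ?_
          linarith
        · refine h1.trans ?_
          have h8 := ipv hV (show 1 < 2 by norm_num)
          rw [pow_one] at h8
          have h9 : 0 < 1 / V ^ 2 := by positivity
          linarith
      norm_num at hB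
      norm_num at h9
      norm_num
      linarith

end Pool.KPO
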