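import Pool.Agent.H90.D2.Hge
import Pool.Agent.H60.D2.Crv

/-!
# The gradients of the label in the direction of `c 0`: tools

`rem_u`: closed polynomials in the parameter of a window, small at the own time, have small
coefficients. `gq_blk`: the coefficients of the gradients at a later window. `gy_own`: the derivative
of the gradient in the direction of `c 0` at the own time, from a deep window of the label.
-/

set_option autoImplicit false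

namespace Pool.KPO

open Finset Real MvPolynomial
open Pool.Agent.H49.Ent Pool.Agent.H32.Dense Pool.STK Pool.KA Pool.KSAT Pool.K2S Pool.PB Pool.S6C
open Pool.GEN Pool.CHT Pool.CHX Pool.LA91
open Pool.D2F Pool.D2Z Pool.D2F2 Pool.D2N
open Pool.D2R (dd hs co rem_fam)
open Pool.FLF (Fam.sub)
open Pool.PB.Trl (rt rt_mem t_rt)
open Pool.OWN68 (opl tw uw mid dirv natDegree_opl opl_jet uw_abs t_mid)

variable {m J : ℕ}

theorem uw_rt (F : Fam m J) (w : ℕ) (ω : F.Ω) : uw F w ω = 2 * rt F w ω - 1 := by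
  unfold uw rt tw
  have h : ((2 ^ (J - w) : ℕ) : ℝ) ≠ 0 := by positivity
  rw [Int.cast_sub, Int.cast_mul, Int.cast_natCast, Int.cast_natCast, sub_div, div_self h]
  push_cast
  ring

/-- **The line lemma**: closed polynomials, small at the own time, have small coefficients. -/
theorem rem_u (m K N : ℕ) : ∃ C : ℝ, 1 ≤ C ∧ ∀ {J : ℕ} {F : Fam m J} {A : F.Ω → Prop}
    (hA : 0 < Pe F.p A) {w : ℕ} {P : ℕ → LnT F → Polynomial ℝ} {S : ℕ → ℝ} {θ : ℝ},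
    w ≤ J → (∀ i < N, ∀ s, (P i s).natDegree ≤ K) → (∀ i < N, 0 < S i) → 0 ≤ θ →
    (Fam.sub F A hA).Tm θ → C * (θ + 1) ≤ ((J : ℝ) - w) * Real.log 2 →
    (∀ ω, A ω → ∀ i < N, |(P i (slam F w ω)).eval (uw F w ω)| ≤ S i) →
    ∃ B : F.Ω → Prop, Sub B A ∧ Pe F.p A / 2 ≤ Pe F.p B ∧ ∀ ω, B ω → ∀ i < N, ∀ j,
      |(P i (slam F w ω)).coeff j| ≤ C * Real.exp (C * (θ + 1)) * S i := by
  classical
  obtain ⟨C₁, hC₁, hrem⟩ := rem_fam m K N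
  obtain ⟨C₃, hC₃, hcf⟩ := Pool.Agent.H40.FR.unit_coef K
  refine ⟨C₁ + C₃, by linarith, ?_⟩
  intro J F A hA w P S θ hw hP hS hθ hTm hCJ hPS
  have hθ1 : 0 ≤ θ + 1 := by linarith
  have hdl : (Polynomial.C (2 : ℝ) * Polynomial.X - Polynomial.C 1).natDegree ≤ 1 := by
    compute_degree
  have hev : ∀ (Q : Polynomial ℝ) (τ : ℝ),
      (Q.comp (Polynomial.C (2 : ℝ) * Polynomial.X - Polynomial.C 1)).eval τ =
        Q.eval (2 * τ - 1) := by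
    intro Q τ
    rw [Polynomial.eval_comp, Polynomial.eval_sub, Polynomial.eval_mul, Polynomial.eval_C,
      Polynomial.eval_X, Polynomial.eval_C]
  obtain ⟨B, h1, h2, h3⟩ := hrem J F A hA w (fun i s => (P i s).comp
    (Polynomial.C (2 : ℝ) * Polynomial.X - Polynomial.C 1)) S θ hw (fun i hi s => by
      rw [Polynomial.natDegree_comp]
      calc _ ≤ K * 1 := Nat.mul_le_mul (hP i hi s) hdl
        _ = K := mul_one K) hS hθ hTm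
    ((mul_le_mul_of_nonneg_right (by linarith) hθ1).trans hCJ) (fun ω hω i hi => by
      show |((P i (slam F w ω)).comp
        (Polynomial.C (2 : ℝ) * Polynomial.X - Polynomial.C 1)).eval (rt F w ω)| ≤ S i
      rw [hev, ← uw_rt]
      exact hPS ω hω i hi)
  refine ⟨B, h1, h2, fun ω hω i hi j => ?_⟩
  have h4 := hcf (P i (slam F w ω)) (Real.exp (C₁ * (θ + 1)) * S i) (hP i hi _) (fun u hu => by
    have h5 := h3 ω hω i hi ((1 + u) / 2) ⟨by linarith [hu.1], by linarith [hu.2]⟩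
    change |((P i (slam F w ω)).comp
      (Polynomial.C (2 : ℝ) * Polynomial.X - Polynomial.C 1)).eval ((1 + u) / 2)| ≤ _ at h5
    rw [hev] at h5
    have e1 : 2 * ((1 + u) / 2) - 1 = u := by ring
    rwa [e1] at h5) j
  refine h4.trans ?_
  have hSi := (hS i hi).le
  have h5 : Real.exp (C₁ * (θ + 1)) ≤ Real.exp ((C₁ + C₃) * (θ + 1)) :=
    Real.exp_le_exp.2 (mul_le_mul_of_nonneg_right (by linarith) hθ1)
  calc C₃ * (Real.exp (C₁ * (θ + 1)) * S i) ≤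
      (C₁ + C₃) * (Real.exp ((C₁ + C₃) * (θ + 1)) * S i) := by
        gcongr
        linarith
    _ = _ := by ring

/-- The powers of the unit: numbers. -/
theorem pw3' (x : ℕ) (hx : 1 ≤ x) : (1 + (2 : ℝ) ^ (12 * x + 8)) ^ 3 ≤ 2 ^ (63 * x) := by
  have h1 : (1 : ℝ) ≤ 2 ^ (12 * x + 8) := one_le_pow₀ (by norm_num)
  calc (1 + (2 : ℝ) ^ (12 * x + 8)) ^ 3 ≤ (2 ^ (12 * x + 8 + 1)) ^ 3 :=
        pow_le_pow_left₀ (by positivity) (by rw [pow_succ (2 : ℝ) (12 * x + 8)]; linarith) 3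
    _ = 2 ^ ((12 * x + 8 + 1) * 3) := by rw [← pow_mul]
    _ ≤ 2 ^ (63 * x) := two_le (by omega)

/-- The numbers of the degree. -/
theorem d1_le {D x : ℕ} (hDx : ((D : ℝ) + 1) * 2 ^ D ≤ 2 ^ x) : (D : ℝ) + 1 ≤ 2 ^ x := by
  have h2 : (1 : ℝ) ≤ 2 ^ D := one_le_pow₀ (by norm_num)
  have h3 : (0 : ℝ) ≤ D := Nat.cast_nonneg D
  nlinarith

/-- The derivative from the coefficients. -/
theorem der_le {P : Polynomial ℝ} {D : ℕ} (h : P.natDegree ≤ D) {u δ : ℝ} (hu : |u| ≤ 1)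
    (hδ : 0 ≤ δ) (hc : ∀ j, |P.coeff (j + 1)| ≤ δ) : |P.derivative.eval u| ≤ (D + 1) ^ 2 * δ := by
  have h1 := der_cut (P := P) (D := D) (k := 1) h hu hδ (by omega) (fun j hj => by
    obtain ⟨i, rfl⟩ : ∃ i, j = i + 1 := ⟨j - 1, by omega⟩
    exact hc i)
  simpa using h1

variable {F : Fam m J} {c : ℕ → Fin m} {D w₀ W b a' x : ℕ} {g₁ g gb g' : ℕ → ℕ}

/-- **The coefficients of the label** at a later window. -/
theorem gq_blk {ψH ψH₁ : LnT F → ℕ → Option (Fin m) → ℝ}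
    {Ht : LnT F → MvPolynomial (Option (Fin m)) ℝ} {ω : F.Ω} (hx : 1 ≤ x) (hwW : w₀ ≤ W)
    (hc : Set.InjOn c (Set.Iio 3)) (hW : W ≤ J)
    (hψ : ∀ l, CvC c l (ψH (slam F W ω) l)) (hψ₁ : ∀ l, CvC c l (ψH₁ (slam F w₀ ω) l))
    (hQ : ∀ s, DepC c 3 (Ht s)) (hdeg : ∀ s, (Ht s).totalDegree ≤ D)
    (hD : ((D : ℝ) + 1) * 2 ^ D ≤ 2 ^ x)
    (hN : Nc c g₁ w₀ 3 (2 ^ (12 * x + 8)) (ψH₁ (slam F w₀ ω)) (ψH (slam F W ω)))
    (hM : ∀ i < 3, ∀ j, |(gq F c g₁ w₀ 0 ψH₁ Ht (slam F w₀ ω) i).coeff (j + 1)| ≤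
      2 ^ x / 2 ^ g₁ 3 * 2 ^ g₁ i)
    {l : ℕ} (hl : l < 3) (j : ℕ) :
    |2 ^ g 3 / 2 ^ g l * (gq F c g W (W - w₀) ψH Ht (slam F W ω) l).coeff (j + 1)| ≤
      2 ^ (67 * x) * (2 ^ (g 3 + g₁ l) / 2 ^ (g₁ 3 + g l + (j + 1) * (W - w₀))) := by
  have h1 := gq_coeff (g := g) (n := W - w₀) (n₁ := 0) hc hwW hW hψ hψ₁ hQ hdeg (by omega)
    (by omega) (by omega) (by positivity) hN hM hl j
  rw [abs_mul, abs_of_pos (by positivity)]
  have h2 : 3 * (((D : ℝ) + 1) * 2 ^ D * (1 + 2 ^ (12 * x + 8)) ^ 3) ≤ 2 ^ (66 * x) := by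
    calc 3 * (((D : ℝ) + 1) * 2 ^ D * (1 + 2 ^ (12 * x + 8)) ^ 3) ≤
        2 ^ (2 * x) * (2 ^ x * 2 ^ (63 * x)) := by
          have h3 : (3 : ℝ) ≤ 2 ^ (2 * x) := by
            calc (3 : ℝ) ≤ 2 ^ 2 := by norm_num
              _ ≤ 2 ^ (2 * x) := two_le (by omega)
          have h4 := pw3' x hx
          gcongr
      _ = 2 ^ (66 * x) := by
          rw [← pow_add, ← pow_add]
          congr 1
          ring
  calc (2 : ℝ) ^ g 3 / 2 ^ g l * |(gq F c g W (W - w₀) ψH Ht (slam F W ω) l).coeff (j + 1)| ≤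
      2 ^ g 3 / 2 ^ g l * (3 * (((D : ℝ) + 1) * 2 ^ D * (1 + 2 ^ (12 * x + 8)) ^ 3) *
        (2 ^ x / 2 ^ g₁ 3) * (2 ^ g₁ l / 2 ^ ((j + 1) * (W - w₀)))) :=
        mul_le_mul_of_nonneg_left h1 (by positivity)
    _ ≤ 2 ^ g 3 / 2 ^ g l * (2 ^ (66 * x) * (2 ^ x / 2 ^ g₁ 3) *
        (2 ^ g₁ l / 2 ^ ((j + 1) * (W - w₀)))) := by gcongr
    _ = _ := by
        rw [show 67 * x = 66 * x + x by ring, pow_add, pow_add, pow_add, pow_add]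
        field_simp

/-- **The numbers of one window**: label window `w₀`, window `W`, window `b` of the deep frame, deep
window `a'` of the label. -/
structure HpG (x w₀ W b a' : ℕ) (g₁ g gb g' : ℕ → ℕ) : Prop where
  x1 : 1 ≤ x
  wW : w₀ ≤ W
  up : ∀ l < 3, W + g₁ l ≤ g l + w₀ + x
  upj : ∀ l < 3, ∀ j < l, g j + g₁ l ≤ g l + g₁ j + x
  dn : ∀ l < 3, b + g l ≤ gb l + W + x
  dnj : ∀ l < 3, ∀ j < l, gb j + g l ≤ gb l + g j + x
  nu : g 3 + a' + g' 0 + 300 * x ≤ W + g' 3 + g 0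
  nl : ∀ l, 1 ≤ l → l ≤ 2 → g 3 + a' + g' l + gb 0 + 300 * x ≤ W + g' 3 + gb l + g 0
  b1 : ∀ l, 1 ≤ l → l ≤ 2 → g 3 + g₁ l ≤ g₁ 3 + g l + (W - w₀) + x

/-- A quotient of powers of two. -/
theorem pq_le1 {a b k : ℕ} (h : a + k ≤ b) : (2 : ℝ) ^ a / 2 ^ b ≤ 1 / 2 ^ k := by
  rw [div_le_div_iff₀ (by positivity) (by positivity), ← pow_add, one_mul]
  exact two_le h

/-- A quotient of powers of two. -/
theorem pq_le2 {a b k : ℕ} (h : a ≤ b + k) : (2 : ℝ) ^ a / 2 ^ b ≤ 2 ^ k := by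
  rw [div_le_iff₀ (by positivity), ← pow_add]
  exact two_le (by omega)

/-- The product with a small power. -/
theorem pm_le1 {a b r : ℕ} (h : a + r ≤ b) : (2 : ℝ) ^ a * (1 / 2 ^ b) ≤ 1 / 2 ^ r := by
  rw [mul_one_div, div_le_div_iff₀ (by positivity) (by positivity), ← pow_add, one_mul]
  exact two_le h

/-- The numbers of the second derivative. -/
theorem nul_numg (N : HpG x w₀ W b a' g₁ g gb g') {X k' : ℕ} (hX : X ≤ x) (hk' : k' ≤ x) :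
    (2 : ℝ) ^ g 3 * (1 / 2 ^ W) * (2 ^ (15 * X + 21) * (2 ^ a' / 2 ^ g' 3) *
      (2 ^ g' 0 / 2 ^ g 0 + (2 ^ k' * (2 ^ (g' 1 + gb 0) / 2 ^ (gb 1 + g 0)) +
        2 ^ k' * (2 ^ (g' 2 + gb 0) / 2 ^ (gb 2 + g 0))))) ≤ 1 / 2 ^ (200 * x) := by
  have hx := N.x1
  have h2 : (2 : ℝ) ^ (15 * X + 21) ≤ 2 ^ (36 * x) := two_le (by omega)
  have h3 : (2 : ℝ) ^ k' ≤ 2 ^ x := two_le hk'
  have h1 : (1 : ℝ) ≤ 2 ^ x := one_le_pow₀ (by norm_num)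
  have t0 : (2 : ℝ) ^ (g 3 + a' + g' 0) / 2 ^ (W + g' 3 + g 0) ≤ 1 / 2 ^ (300 * x) :=
    pq_le1 (by have := N.nu; omega)
  have t1 : (2 : ℝ) ^ (g 3 + a' + g' 1 + gb 0) / 2 ^ (W + g' 3 + gb 1 + g 0) ≤
      1 / 2 ^ (300 * x) := pq_le1 (by have := N.nl 1 le_rfl (by norm_num); omega)
  have t2 : (2 : ℝ) ^ (g 3 + a' + g' 2 + gb 0) / 2 ^ (W + g' 3 + gb 2 + g 0) ≤
      1 / 2 ^ (300 * x) := pq_le1 (by have := N.nl 2 (by norm_num) le_rfl; omega)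
  calc (2 : ℝ) ^ g 3 * (1 / 2 ^ W) * (2 ^ (15 * X + 21) * (2 ^ a' / 2 ^ g' 3) *
      (2 ^ g' 0 / 2 ^ g 0 + (2 ^ k' * (2 ^ (g' 1 + gb 0) / 2 ^ (gb 1 + g 0)) +
        2 ^ k' * (2 ^ (g' 2 + gb 0) / 2 ^ (gb 2 + g 0))))) ≤
      (2 : ℝ) ^ g 3 * (1 / 2 ^ W) * (2 ^ (36 * x) * (2 ^ a' / 2 ^ g' 3) *
      (2 ^ x * (2 ^ g' 0 / 2 ^ g 0) + (2 ^ x * (2 ^ (g' 1 + gb 0) / 2 ^ (gb 1 + g 0)) +
        2 ^ x * (2 ^ (g' 2 + gb 0) / 2 ^ (gb 2 + g 0))))) := by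
        have e0 : (2 : ℝ) ^ g' 0 / 2 ^ g 0 ≤ 2 ^ x * (2 ^ g' 0 / 2 ^ g 0) :=
          le_mul_of_one_le_left (by positivity) h1
        gcongr
    _ = 2 ^ (37 * x) * (2 ^ (g 3 + a' + g' 0) / 2 ^ (W + g' 3 + g 0) +
        (2 ^ (g 3 + a' + g' 1 + gb 0) / 2 ^ (W + g' 3 + gb 1 + g 0) +
        2 ^ (g 3 + a' + g' 2 + gb 0) / 2 ^ (W + g' 3 + gb 2 + g 0))) := by
        rw [show 37 * x = 36 * x + x by ring]
        simp only [pow_add]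
        field_simp
    _ ≤ 2 ^ (37 * x) * (1 / 2 ^ (300 * x) + (1 / 2 ^ (300 * x) + 1 / 2 ^ (300 * x))) :=
        mul_le_mul_of_nonneg_left (add_le_add t0 (add_le_add t1 t2)) (by positivity)
    _ ≤ 2 ^ (37 * x) * (2 ^ 2 * (1 / 2 ^ (300 * x))) := by
        refine mul_le_mul_of_nonneg_left ?_ (by positivity)
        have : (0 : ℝ) < 1 / 2 ^ (300 * x) := by positivity
        linarith
    _ = 2 ^ (37 * x + 2) * (1 / 2 ^ (300 * x)) := by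
        rw [pow_add]
        ring
    _ ≤ 1 / 2 ^ (200 * x) := pm_le1 (by omega)

section main

variable {v v' e X p k₁ k k' e₂ e₀ e₁ : ℕ} {gT : ℕ → ℕ} {U : ℝ} {B : F.Ω → Prop}
    {G : PtT F → ℕ → MvPolynomial (Option (Fin m)) ℝ}
    {H : LnT F → ℕ → MvPolynomial (Option (Fin m)) ℝ}
    {T : PtT F → ℕ → MvPolynomial (Option (Fin m)) ℝ}
    {TH : LnT F → ℕ → MvPolynomial (Option (Fin m)) ℝ}
    {Ht : LnT F → MvPolynomial (Option (Fin m)) ℝ}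
    {ψ₁ ψ ψ' Sv : PtT F → ℕ → Option (Fin m) → ℝ} {ψH₁ ψH ψH' : LnT F → ℕ → Option (Fin m) → ℝ}

/-- The second derivative of the label in the deep direction. -/
theorem nul_ofg (N : HpG x w₀ W b a' g₁ g gb g') (hc : Set.InjOn c (Set.Iio 3)) (hW : W ≤ J)
    (h : WFr F c 4 W k e₀ g B ψ ψH Sv) (h' : WFr F c 4 b k' e₁ gb B ψ' ψH' Sv)
    (Dp : Dpw F c D w₀ a' v v' e X p g' gT U B G H T TH Ht Sv) (hk' : k' ≤ x)
    (hX : X ≤ x) {ω : F.Ω} (hω : B ω) :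
    |2 ^ g 3 * (1 / 2 ^ W) * hs (Ht (co (W - w₀) (slam F W ω))) (bt F ω) (bd F ω)
      (Vy c g W (ψ (ptr F J ω)) (ψ' (ptr F J ω)))| ≤ 1 / 2 ^ (200 * x) := by
  have hco : co (W - w₀) (slam F W ω) = slam F w₀ ω := Pool.D2R.co_slam F N.wW hW ω
  have h1 := Dp.hsn hω (Vy c g W (ψ (ptr F J ω)) (ψ' (ptr F J ω)))
  have h2 := vy_en (g := g) (gb := gb) (g' := g') (W := W) (b := b) (a' := a') hc
    (h.fr.dep (ptr F J ω)) (h'.fr.dep (ptr F J ω)) (Dp.dep (ptr F J ω)) (by positivity)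
    ((h'.nr ω hω).le (show 3 ≤ 4 by norm_num))
  rw [hco, abs_mul, abs_of_pos (by positivity)]
  refine (mul_le_mul_of_nonneg_left (h1.trans (mul_le_mul_of_nonneg_left h2 (by positivity)))
    (by positivity)).trans ?_
  exact nul_numg N hX hk'

/-- **The coefficients in the directions of the rough functions.** -/
theorem gr_cf (N : HpG x w₀ W b a' g₁ g gb g') (hc : Set.InjOn c (Set.Iio 3)) (hW : W ≤ J)
    (hDx : ((D : ℝ) + 1) * 2 ^ D ≤ 2 ^ x)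
    (h₁ : WFr F c 4 w₀ k₁ e₂ g₁ B ψ₁ ψH₁ Sv) (h : WFr F c 4 W k e₀ g B ψ ψH Sv)
    (hk₁ : k₁ ≤ x) (hk : k ≤ x) (hQ : ∀ s, DepC c 3 (Ht s)) (hdeg : ∀ s, (Ht s).totalDegree ≤ D)
    (hM : ∀ ω, B ω → ∀ i < 3, ∀ j, |(gq F c g₁ w₀ 0 ψH₁ Ht (slam F w₀ ω) i).coeff (j + 1)| ≤
      2 ^ x / 2 ^ g₁ 3 * 2 ^ g₁ i) {ω : F.Ω} (hω : B ω) {l : ℕ} (hl : l < 3) (j : ℕ) :
    |2 ^ g 3 / 2 ^ g l * (gq F c g W (W - w₀) ψH Ht (slam F W ω) l).coeff (j + 1)| ≤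
      2 ^ (67 * x) * (2 ^ (g 3 + g₁ l) / 2 ^ (g₁ 3 + g l + (j + 1) * (W - w₀))) := by
  have e1 : ψH₁ (slam F w₀ ω) = ψ₁ (ptr F J ω) := (h₁.fr.cls ω hω).symm
  have e2 : ψH (slam F W ω) = ψ (ptr F J ω) := (h.fr.cls ω hω).symm
  refine gq_blk N.x1 N.wW hc hW (h.fr.depH _) (h₁.fr.depH _) hQ hdeg hDx ?_ (hM ω hω) hl j
  rw [e1, e2]
  exact (nr_two (h₁.nr ω hω) (h.nr ω hω) hk₁ hk (fun l hl => by have := N.up l hl; omega)
    (fun l hl j hj => by have := N.upj l hl j hj; omega)).1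

/-- **The derivative in the direction of `c 0`** at the own time. -/
theorem gy_own (N : HpG x w₀ W b a' g₁ g gb g') (hc : Set.InjOn c (Set.Iio 3)) (hW : W ≤ J)
    (hDx : ((D : ℝ) + 1) * 2 ^ D ≤ 2 ^ x)
    (h₁ : WFr F c 4 w₀ k₁ e₂ g₁ B ψ₁ ψH₁ Sv) (h : WFr F c 4 W k e₀ g B ψ ψH Sv)
    (h' : WFr F c 4 b k' e₁ gb B ψ' ψH' Sv)
    (Dp : Dpw F c D w₀ a' v v' e X p g' gT U B G H T TH Ht Sv) (hk₁ : k₁ ≤ x) (hk : k ≤ x)
    (hk' : k' ≤ x) (hX : X ≤ x) (hQ : ∀ s, DepC c 3 (Ht s)) (hdeg : ∀ s, (Ht s).totalDegree ≤ D)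
    (hM : ∀ ω, B ω → ∀ i < 3, ∀ j, |(gq F c g₁ w₀ 0 ψH₁ Ht (slam F w₀ ω) i).coeff (j + 1)| ≤
      2 ^ x / 2 ^ g₁ 3 * 2 ^ g₁ i) {ω : F.Ω} (hω : B ω) :
    |2 ^ g 3 / 2 ^ g 0 *
      (gq F c g W (W - w₀) ψH Ht (slam F W ω) 0).derivative.eval (uw F W ω)| ≤ 2 ^ (135 * x) := by
  have hx := N.x1
  have e2 : ψH (slam F W ω) = ψ (ptr F J ω) := (h.fr.cls ω hω).symm
  have hdq : ∀ l, (gq F c g W (W - w₀) ψH Ht (slam F W ω) l).natDegree ≤ D := fun l =>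
    natDegree_opl F W (deg_gpo c g W 3 (ψH (slam F W ω)) (hdeg _) l) _
  have h1 := nul_ofg N hc hW h h' Dp hk' hX hω
  have h2 := hs_own hc (g := g) (n := W - w₀) hW (ψH := ψH) hQ (ω := ω)
    (χ := ψ' (ptr F J ω)) (h.fr.depH _) (h'.fr.dep _)
  rw [e2] at h2
  rw [h2, Fin.sum_univ_two] at h1
  have near : Nc c g W 3 (2 ^ (12 * x + 8)) (ψ (ptr F J ω)) (ψ' (ptr F J ω)) :=
    (nr_two (h.nr ω hω) (h'.nr ω hω) hk hk' (fun l hl => by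
      have := N.dn l hl; omega) (fun l hl j hj => by have := N.dnj l hl j hj; omega)).1
  have hms : ∀ i ≤ 1, |Ms c g W (ψ (ptr F J ω)) (ψ' (ptr F J ω)) i 1| ≤ 2 ^ (63 * x) :=
    fun i hi => (ms_le hc h.fr h'.fr (by positivity) near hi 1).trans (pw3' x hx)
  have dg : ∀ l, 1 ≤ l → l ≤ 2 → |2 ^ g 3 / 2 ^ g l *
      (gq F c g W (W - w₀) ψH Ht (slam F W ω) l).derivative.eval (uw F W ω)| ≤ 2 ^ (70 * x) := by
    intro l hl1 hl2
    have hcf : ∀ j, |(Polynomial.C ((2 : ℝ) ^ g 3 / 2 ^ g l) *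
        gq F c g W (W - w₀) ψH Ht (slam F W ω) l).coeff (j + 1)| ≤ 2 ^ (68 * x) := by
      intro j
      rw [Polynomial.coeff_C_mul]
      refine (gr_cf N hc hW hDx h₁ h hk₁ hk hQ hdeg hM hω (by omega) j).trans ?_
      have h3 : (2 : ℝ) ^ (g 3 + g₁ l) / 2 ^ (g₁ 3 + g l + (j + 1) * (W - w₀)) ≤ 2 ^ x := by
        refine pq_le2 ?_
        have h4 := N.b1 l hl1 hl2
        have h5 : 1 * (W - w₀) ≤ (j + 1) * (W - w₀) := Nat.mul_le_mul_right _ (by omega)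
        omega
      calc _ ≤ (2 : ℝ) ^ (67 * x) * 2 ^ x := mul_le_mul_of_nonneg_left h3 (by positivity)
        _ = 2 ^ (68 * x) := by
            rw [← pow_add]
            congr 1
            ring
    have h4 := der_le (P := Polynomial.C ((2 : ℝ) ^ g 3 / 2 ^ g l) *
        gq F c g W (W - w₀) ψH Ht (slam F W ω) l) (D := D)
      ((Polynomial.natDegree_C_mul_le _ _).trans (hdq l)) (uw_abs F W ω) (by positivity) hcf
    rw [Polynomial.derivative_C_mul, Polynomial.eval_C_mul] at h4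
    refine h4.trans ?_
    calc ((D : ℝ) + 1) ^ 2 * 2 ^ (68 * x) ≤ (2 ^ x) ^ 2 * 2 ^ (68 * x) := by
          have := d1_le hDx
          gcongr
      _ = 2 ^ (70 * x) := by
          rw [← pow_mul, ← pow_add]
          congr 1
          ring
  obtain ⟨Y, hY⟩ : ∃ Y, Y = 2 ^ g 3 / 2 ^ g 0 *
      (gq F c g W (W - w₀) ψH Ht (slam F W ω) 0).derivative.eval (uw F W ω) := ⟨_, rfl⟩
  obtain ⟨A1, hA1⟩ : ∃ A, A = 2 ^ g 3 / 2 ^ g 1 *
      (gq F c g W (W - w₀) ψH Ht (slam F W ω) 1).derivative.eval (uw F W ω) := ⟨_, rfl⟩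
  obtain ⟨A2, hA2⟩ : ∃ A, A = 2 ^ g 3 / 2 ^ g 2 *
      (gq F c g W (W - w₀) ψH Ht (slam F W ω) 2).derivative.eval (uw F W ω) := ⟨_, rfl⟩
  obtain ⟨M1, hM1⟩ : ∃ M, M = Ms c g W (ψ (ptr F J ω)) (ψ' (ptr F J ω)) 0 1 := ⟨_, rfl⟩
  obtain ⟨M2, hM2⟩ : ∃ M, M = Ms c g W (ψ (ptr F J ω)) (ψ' (ptr F J ω)) 1 1 := ⟨_, rfl⟩
  have d1 := dg 1 le_rfl (by norm_num)
  have d2 := dg 2 (by norm_num) le_rfl
  have m1 := hms 0 (by norm_num)
  have m2 := hms 1 le_rfl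
  rw [← hA1] at d1
  rw [← hA2] at d2
  rw [← hM1] at m1
  rw [← hM2] at m2
  have h3 : |2 * Y + 2 * (A1 * M1) + 2 * (A2 * M2)| ≤ 1 := by
    refine (le_of_eq ?_).trans (h1.trans ?_)
    · congr 1
      rw [hY, hA1, hA2, hM1, hM2]
      simp only [Fin.val_zero, Fin.val_one, zero_add, Nat.reduceAdd]
      ring
    · rw [div_le_one (by positivity)]
      exact one_le_pow₀ (by norm_num)
  rw [← hY]
  have t1 : |A1 * M1| ≤ 2 ^ (133 * x) := by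
    rw [abs_mul]
    calc |A1| * |M1| ≤ 2 ^ (70 * x) * 2 ^ (63 * x) := by gcongr
      _ = _ := by
          rw [← pow_add]
          congr 1
          ring
  have t2 : |A2 * M2| ≤ 2 ^ (133 * x) := by
    rw [abs_mul]
    calc |A2| * |M2| ≤ 2 ^ (70 * x) * 2 ^ (63 * x) := by gcongr
      _ = _ := by
          rw [← pow_add]
          congr 1
          ring
  have t3 : (4 : ℝ) * 2 ^ (133 * x) ≤ 2 ^ (135 * x) := by
    calc (4 : ℝ) * 2 ^ (133 * x) ≤ 2 ^ (2 * x) * 2 ^ (133 * x) := by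
          refine mul_le_mul_of_nonneg_right ?_ (by positivity)
          calc (4 : ℝ) = 2 ^ 2 := by norm_num
            _ ≤ 2 ^ (2 * x) := two_le (by omega)
      _ = 2 ^ (135 * x) := by
          rw [← pow_add]
          congr 1
          ring
  have t4 : (1 : ℝ) ≤ 2 ^ (133 * x) := one_le_pow₀ (by norm_num)
  have t5 : Y = (1 / 2) * (2 * Y + 2 * (A1 * M1) + 2 * (A2 * M2)) - A1 * M1 - A2 * M2 := by ring
  rw [abs_le] at t1 t2 h3 ⊢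
  constructor <;> linarith [t1.1, t1.2, t2.1, t2.2, h3.1, h3.2]

end main

end Pool.KPO
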