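import Pool.Agent.H31.D2.Gqb

/-!
# The coefficients of order at least two in the direction of `c 0`: class form

`gqs_of`: at a window `W` between the window `w₀` of the label and a later window `V`, on an event.
`gqs_cls`: the class form.
-/

set_option autoImplicit false

namespace Pool.KPO

open Finset Real MvPolynomial
open Pool.Agent.H49.Ent Pool.Agent.H32.Dense Pool.STK Pool.KA Pool.KSAT Pool.K2S Pool.PB Pool.S6C
open Pool.GEN Pool.CHT Pool.CHX Pool.LA91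
open Pool.D2F Pool.D2Z Pool.D2F2 Pool.D2N
open Pool.D2R (dd hs co rem_fam)
open Pool.FLF (Fam.sub)
open Pool.PB.Trl (rt rt_mem t_rt)
open Pool.OWN68 (opl tw uw mid dirv natDegree_opl opl_jet uw_abs t_mid)

variable {m : ℕ}

/-- **The coefficients of order at least two in the direction of `c 0`**, on an event. -/
theorem gqs_of (m D : ℕ) : ∃ C : ℝ, 1 ≤ C ∧ ∀ {J : ℕ} {F : Fam m J} {c : ℕ → Fin m}
    {w₀ W V b a' x s : ℕ} {g₁ g gv gb g' : ℕ → ℕ}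
    {v v' e X p k₁ k kv k' e₂ e₀ ev e₁ : ℕ} {gT : ℕ → ℕ} {U : ℝ} {B : F.Ω → Prop}
    {G : PtT F → ℕ → MvPolynomial (Option (Fin m)) ℝ}
    {H : LnT F → ℕ → MvPolynomial (Option (Fin m)) ℝ}
    {T : PtT F → ℕ → MvPolynomial (Option (Fin m)) ℝ}
    {TH : LnT F → ℕ → MvPolynomial (Option (Fin m)) ℝ}
    {Ht : LnT F → MvPolynomial (Option (Fin m)) ℝ}
    {ψ₁ ψ ψv ψ' Sv : PtT F → ℕ → Option (Fin m) → ℝ}
    {ψH₁ ψH ψHv ψH' : LnT F → ℕ → Option (Fin m) → ℝ} {θ : ℝ},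
    HpG x w₀ W b a' g₁ g gb g' → HpG x w₀ V b a' g₁ gv gb g' → HpS x s w₀ W V g₁ g gv →
    Set.InjOn c (Set.Iio 3) → V ≤ J → ((D : ℝ) + 1) * 2 ^ D ≤ 2 ^ x →
    WFr F c 4 w₀ k₁ e₂ g₁ B ψ₁ ψH₁ Sv → WFr F c 4 W k e₀ g B ψ ψH Sv →
    WFr F c 4 V kv ev gv B ψv ψHv Sv → WFr F c 4 b k' e₁ gb B ψ' ψH' Sv →
    Dpw F c D w₀ a' v v' e X p g' gT U B G H T TH Ht Sv → k₁ ≤ x → k ≤ x → kv ≤ x →
    k' ≤ x → X ≤ x → (∀ s, DepC c 3 (Ht s)) → (∀ s, (Ht s).totalDegree ≤ D) →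
    (∀ ω, B ω → ∀ i < 3, ∀ j, |(gq F c g₁ w₀ 0 ψH₁ Ht (slam F w₀ ω) i).coeff (j + 1)| ≤
      2 ^ x / 2 ^ g₁ 3 * 2 ^ g₁ i) →
    0 < Pe F.p B → 0 ≤ θ →
    (∀ (A' : F.Ω → Prop) (hA' : 0 < Pe F.p A'), Sub A' B → Pe F.p B ≤ 2 * Pe F.p A' →
      (Fam.sub F A' hA').Tm θ) →
    C * (θ + 1) ≤ ((J : ℝ) - V) * Real.log 2 → C * Real.exp (C * (θ + 1)) ≤ 2 ^ x →
    ∃ B' : F.Ω → Prop, Sub B' B ∧ Pe F.p B ≤ 4 * Pe F.p B' ∧ ∀ ω, B' ω →
      (∀ j, |2 ^ g 3 / 2 ^ g 0 * (gq F c g W (W - w₀) ψH Ht (slam F W ω) 0).coeff (j + 1)| ≤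
        2 ^ (136 * x)) ∧
      ∀ j, |2 ^ g 3 / 2 ^ g 0 * (gq F c g W (W - w₀) ψH Ht (slam F W ω) 0).coeff (j + 2)| ≤
        1 / 2 ^ (s + 400 * x) := by
  classical
  obtain ⟨C₁, hC₁, hr1⟩ := rem_u m D 1
  obtain ⟨C₂, hC₂, hr2⟩ := rem_u m D 2
  refine ⟨C₁ + C₂, by linarith, ?_⟩
  intro J F c w₀ W V b a' x s g₁ g gv gb g' v v' e X p k₁ k kv k' e₂ e₀ ev e₁ gT U B G H T TH Ht
    ψ₁ ψ ψv ψ' Sv ψH₁ ψH ψHv ψH' θ N Nv Z hc hV hDx h₁ h hv h' Dp hk₁ hk hkv hk' hX hQ hdeg hM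
    hB hθ hTm hCJ hCx
  have hx := N.x1
  have hW : W ≤ J := Z.wV.trans hV
  have hθ1 : 0 ≤ θ + 1 := by linarith
  have hp := Pe_nonneg F.isLaw
  have ex1 : C₁ * Real.exp (C₁ * (θ + 1)) ≤ 2 ^ x := by
    refine le_trans ?_ hCx
    have h5 : Real.exp (C₁ * (θ + 1)) ≤ Real.exp ((C₁ + C₂) * (θ + 1)) :=
      Real.exp_le_exp.2 (mul_le_mul_of_nonneg_right (by linarith) hθ1)
    exact mul_le_mul (by linarith) h5 (Real.exp_pos _).le (by linarith)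
  have ex2 : C₂ * Real.exp (C₂ * (θ + 1)) ≤ 2 ^ x := by
    refine le_trans ?_ hCx
    have h5 : Real.exp (C₂ * (θ + 1)) ≤ Real.exp ((C₁ + C₂) * (θ + 1)) :=
      Real.exp_le_exp.2 (mul_le_mul_of_nonneg_right (by linarith) hθ1)
    exact mul_le_mul (by linarith) h5 (Real.exp_pos _).le (by linarith)
  have hdq : ∀ (g : ℕ → ℕ) (W n : ℕ) (ψH : LnT F → ℕ → Option (Fin m) → ℝ) (s : LnT F),
      (gq F c g W n ψH Ht s 0).natDegree ≤ D := fun g W n ψH s =>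
    natDegree_opl F W (deg_gpo c g W 3 (ψH s) (hdeg _) 0) _
  have hdd : ∀ {P : Polynomial ℝ}, P.natDegree ≤ D → P.derivative.natDegree ≤ D := fun h =>
    (Polynomial.natDegree_derivative_le _).trans ((Nat.sub_le _ _).trans h)
  -- the window `V`
  obtain ⟨B₁, b1, b2, b3⟩ := hr1 hB (w := V) (P := fun _ s => Polynomial.C (2 ^ gv 3 / 2 ^ gv 0) *
      (gq F c gv V (V - w₀) ψHv Ht s 0).derivative) (S := fun _ => 2 ^ (135 * x)) (θ := θ) hV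
    (fun i _ s => (Polynomial.natDegree_C_mul_le _ _).trans (hdd (hdq _ _ _ _ _)))
    (fun _ _ => by positivity) hθ (hTm B hB (fun _ h => h) (by linarith [hp B]))
    ((mul_le_mul_of_nonneg_right (by linarith) hθ1).trans hCJ) (fun ω hω i _ => by
      show |(Polynomial.C ((2 : ℝ) ^ gv 3 / 2 ^ gv 0) *
        (gq F c gv V (V - w₀) ψHv Ht (slam F V ω) 0).derivative).eval (uw F V ω)| ≤ 2 ^ (135 * x)
      rw [Polynomial.eval_C_mul]
      exact gy_own Nv hc hV hDx h₁ hv h' Dp hk₁ hkv hk' hX hQ hdeg hM hω)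
  have hB₁ : 0 < Pe F.p B₁ := by linarith
  have c1 : ∀ ω, B₁ ω → ∀ j, |2 ^ gv 3 / 2 ^ gv 0 *
      (gq F c gv V (V - w₀) ψHv Ht (slam F V ω) 0).derivative.coeff j| ≤ 2 ^ (136 * x) := by
    intro ω hω j
    have h4 := b3 ω hω 0 (by norm_num) j
    change |(Polynomial.C ((2 : ℝ) ^ gv 3 / 2 ^ gv 0) *
        (gq F c gv V (V - w₀) ψHv Ht (slam F V ω) 0).derivative).coeff j| ≤
      C₁ * Real.exp (C₁ * (θ + 1)) * 2 ^ (135 * x) at h4
    rw [Polynomial.coeff_C_mul] at h4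
    refine h4.trans ?_
    calc C₁ * Real.exp (C₁ * (θ + 1)) * 2 ^ (135 * x) ≤ 2 ^ x * 2 ^ (135 * x) :=
          mul_le_mul_of_nonneg_right ex1 (by positivity)
      _ = 2 ^ (136 * x) := by
          rw [← pow_add]
          congr 1
          ring
  -- the window `W`
  have hVW : (J : ℝ) - V ≤ (J : ℝ) - W := by
    have : (W : ℝ) ≤ V := by exact_mod_cast Z.wV
    linarith
  obtain ⟨B₂, d1, d2, d3⟩ := hr2 hB₁ (w := W) (P := fun i s => if i = 0 then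
        Polynomial.C (2 ^ g 3 / 2 ^ g 0) * (gq F c g W (W - w₀) ψH Ht s 0).derivative else
        Polynomial.C (2 ^ g 3 / 2 ^ g 0) * (gq F c g W (W - w₀) ψH Ht s 0).derivative.derivative)
    (S := fun i => if i = 0 then 2 ^ (135 * x) else 1 / 2 ^ (s + 450 * x)) (θ := θ) hW
    (fun i _ s => by
      show (if i = 0 then _ else _ : Polynomial ℝ).natDegree ≤ D
      split_ifs
      · exact (Polynomial.natDegree_C_mul_le _ _).trans (hdd (hdq _ _ _ _ _))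
      · exact (Polynomial.natDegree_C_mul_le _ _).trans (hdd (hdd (hdq _ _ _ _ _))))
    (fun i _ => by
      show (0 : ℝ) < if i = 0 then _ else _
      split_ifs <;> positivity) hθ (hTm B₁ hB₁ b1 (by linarith))
    ((mul_le_mul_of_nonneg_right (by linarith) hθ1).trans (hCJ.trans
      (mul_le_mul_of_nonneg_right hVW (Real.log_nonneg (by norm_num))))) (fun ω hω i _ => by
      show |(if i = 0 then _ else _ : Polynomial ℝ).eval (uw F W ω)| ≤ if i = 0 then _ else _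
      split_ifs
      · rw [Polynomial.eval_C_mul]
        exact gy_own N hc hW hDx h₁ h h' Dp hk₁ hk hk' hX hQ hdeg hM (b1 ω hω)
      · rw [Polynomial.eval_C_mul]
        exact gy_two N Z hc hV hDx h₁ h hv hk₁ hk hkv hQ hdeg hM (b1 ω hω) (c1 ω hω))
  refine ⟨B₂, fun ω hω => b1 ω (d1 ω hω), by linarith, fun ω hω => ⟨fun j => ?_, fun j => ?_⟩⟩
  · have h4 := d3 ω hω 0 (by norm_num) j
    change |(Polynomial.C ((2 : ℝ) ^ g 3 / 2 ^ g 0) *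
        (gq F c g W (W - w₀) ψH Ht (slam F W ω) 0).derivative).coeff j| ≤
      C₂ * Real.exp (C₂ * (θ + 1)) * 2 ^ (135 * x) at h4
    rw [Polynomial.coeff_C_mul, Polynomial.coeff_derivative, ← mul_assoc, abs_mul] at h4
    have h5 : |2 ^ g 3 / 2 ^ g 0 * (gq F c g W (W - w₀) ψH Ht (slam F W ω) 0).coeff (j + 1)| ≤
        |2 ^ g 3 / 2 ^ g 0 * (gq F c g W (W - w₀) ψH Ht (slam F W ω) 0).coeff (j + 1)| *
          |(j : ℝ) + 1| := by
      refine le_mul_of_one_le_right (abs_nonneg _) ?_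
      rw [abs_of_nonneg (by positivity)]
      linarith [(Nat.cast_nonneg j : (0 : ℝ) ≤ j)]
    refine h5.trans (h4.trans ?_)
    calc C₂ * Real.exp (C₂ * (θ + 1)) * 2 ^ (135 * x) ≤ 2 ^ x * 2 ^ (135 * x) :=
          mul_le_mul_of_nonneg_right ex2 (by positivity)
      _ = 2 ^ (136 * x) := by
          rw [← pow_add]
          congr 1
          ring
  · have h4 := d3 ω hω 1 (by norm_num) j
    change |(Polynomial.C ((2 : ℝ) ^ g 3 / 2 ^ g 0) *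
        (gq F c g W (W - w₀) ψH Ht (slam F W ω) 0).derivative.derivative).coeff j| ≤
      C₂ * Real.exp (C₂ * (θ + 1)) * (1 / 2 ^ (s + 450 * x)) at h4
    rw [Polynomial.coeff_C_mul, Polynomial.coeff_derivative, Polynomial.coeff_derivative] at h4
    have e1 : (2 : ℝ) ^ g 3 / 2 ^ g 0 * ((gq F c g W (W - w₀) ψH Ht (slam F W ω) 0).coeff
        (j + 1 + 1) * (((j + 1 : ℕ) : ℝ) + 1) * ((j : ℝ) + 1)) =
        (2 ^ g 3 / 2 ^ g 0 * (gq F c g W (W - w₀) ψH Ht (slam F W ω) 0).coeff (j + 2)) *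
          ((((j + 1 : ℕ) : ℝ) + 1) * ((j : ℝ) + 1)) := by ring
    rw [e1, abs_mul] at h4
    have h5 : |2 ^ g 3 / 2 ^ g 0 * (gq F c g W (W - w₀) ψH Ht (slam F W ω) 0).coeff (j + 2)| ≤
        |2 ^ g 3 / 2 ^ g 0 * (gq F c g W (W - w₀) ψH Ht (slam F W ω) 0).coeff (j + 2)| *
          |(((j + 1 : ℕ) : ℝ) + 1) * ((j : ℝ) + 1)| := by
      refine le_mul_of_one_le_right (abs_nonneg _) ?_
      rw [abs_of_nonneg (by positivity)]
      push_cast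
      have : (0 : ℝ) ≤ j := Nat.cast_nonneg j
      nlinarith
    refine h5.trans (h4.trans ?_)
    calc C₂ * Real.exp (C₂ * (θ + 1)) * (1 / 2 ^ (s + 450 * x)) ≤
          2 ^ x * (1 / 2 ^ (s + 450 * x)) := mul_le_mul_of_nonneg_right ex2 (by positivity)
      _ ≤ 1 / 2 ^ (s + 400 * x) := pm_le1 (by omega)

/-- **The coefficients of order at least two in the direction of `c 0`**, class form. -/
theorem gqs_cls (m D : ℕ) {S : PCl m} (hT : TmH S) (a : ℚ) (ε κ : ℝ) (ha0 : 0 ≤ a) (ha : a < 1)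
    (hε : 0 < ε) (hκ : 0 < κ) :
    Bas S (fun J F A => ∀ {c : ℕ → Fin m} {w₀ W V b a' x s : ℕ} {g₁ g gv gb g' : ℕ → ℕ}
      {v v' e X p k₁ k kv k' e₂ e₀ ev e₁ : ℕ} {gT : ℕ → ℕ} {U : ℝ} {B : F.Ω → Prop}
      {G : PtT F → ℕ → MvPolynomial (Option (Fin m)) ℝ}
      {H : LnT F → ℕ → MvPolynomial (Option (Fin m)) ℝ}
      {T : PtT F → ℕ → MvPolynomial (Option (Fin m)) ℝ}
      {TH : LnT F → ℕ → MvPolynomial (Option (Fin m)) ℝ}
      {Ht : LnT F → MvPolynomial (Option (Fin m)) ℝ}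
      {ψ₁ ψ ψv ψ' Sv : PtT F → ℕ → Option (Fin m) → ℝ}
      {ψH₁ ψH ψHv ψH' : LnT F → ℕ → Option (Fin m) → ℝ},
      HpG x w₀ W b a' g₁ g gb g' → HpG x w₀ V b a' g₁ gv gb g' → HpS x s w₀ W V g₁ g gv →
      Set.InjOn c (Set.Iio 3) → V ≤ ⌊(a : ℝ) * J⌋₊ → ε * J ≤ x →
      WFr F c 4 w₀ k₁ e₂ g₁ B ψ₁ ψH₁ Sv → WFr F c 4 W k e₀ g B ψ ψH Sv →
      WFr F c 4 V kv ev gv B ψv ψHv Sv → WFr F c 4 b k' e₁ gb B ψ' ψH' Sv →
      Dpw F c D w₀ a' v v' e X p g' gT U B G H T TH Ht Sv → k₁ ≤ x → k ≤ x → kv ≤ x →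
      k' ≤ x → X ≤ x → (∀ s, DepC c 3 (Ht s)) → (∀ s, (Ht s).totalDegree ≤ D) →
      (∀ ω, B ω → ∀ i < 3, ∀ j, |(gq F c g₁ w₀ 0 ψH₁ Ht (slam F w₀ ω) i).coeff (j + 1)| ≤
        2 ^ x / 2 ^ g₁ 3 * 2 ^ g₁ i) → Sub B A → κ * Pe F.p A ≤ Pe F.p B →
      ∃ B' : F.Ω → Prop, Sub B' B ∧ Pe F.p B ≤ 4 * Pe F.p B' ∧ ∀ ω, B' ω →
        (∀ j, |2 ^ g 3 / 2 ^ g 0 * (gq F c g W (W - w₀) ψH Ht (slam F W ω) 0).coeff (j + 1)| ≤
          2 ^ (136 * x)) ∧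
        ∀ j, |2 ^ g 3 / 2 ^ g 0 * (gq F c g W (W - w₀) ψH Ht (slam F W ω) 0).coeff (j + 2)| ≤
          1 / 2 ^ (s + 400 * x)) := by
  classical
  obtain ⟨C, hC, hgn⟩ := gqs_of m D
  have hL2 : 0 < Real.log 2 := Real.log_pos (by norm_num)
  have haR : (a : ℝ) < 1 := by exact_mod_cast ha
  have ha0R : (0 : ℝ) ≤ a := by exact_mod_cast ha0
  obtain ⟨μ, hμ⟩ : ∃ μ : ℝ, μ = min ε (1 - a) * Real.log 2 / 4 := ⟨_, rfl⟩
  have hμ0 : 0 < μ := by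
    rw [hμ]
    have : 0 < min ε (1 - (a : ℝ)) := lt_min hε (by linarith)
    positivity
  have hC0 : 0 < C := by linarith
  obtain ⟨ε₁, hε₁⟩ : ∃ ε₁ : ℝ, ε₁ = μ / C := ⟨_, rfl⟩
  have hε₁0 : 0 < ε₁ := by rw [hε₁]; positivity
  have htm := bas_ev (hT.2 ε₁ hε₁0) (κ := κ / 2) (by positivity)
  have hpos : Bas S (fun _ F A => 0 < Pe F.p A) := ⟨1, one_pos, 0, fun J _ F A hA =>
    hT.1 1 J F A hA⟩
  obtain ⟨J₁, hJ₁⟩ := exists_nat_ge (C / μ + 2 * D / ε + 1)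
  refine Bas.mono J₁ (htm.and hpos) ?_
  rintro J hJ F A ⟨htA, hA0⟩
  intro c w₀ W V b a' x s g₁ g gv gb g' v v' e X p k₁ k kv k' e₂ e₀ ev e₁ gT U B G H T TH Ht
    ψ₁ ψ ψv ψ' Sv ψH₁ ψH ψHv ψH' N Nv Z hc hV hεx h₁ h hv h' Dp hk₁ hk hkv hk' hX hQ hdeg hM
    hBA hcon
  have hp := Pe_nonneg F.isLaw
  have hB0 : 0 < Pe F.p B := (mul_pos hκ hA0).trans_le hcon
  have hJ0 : (0 : ℝ) ≤ J := Nat.cast_nonneg J
  have hJR : C / μ + 2 * D / ε + 1 ≤ J := by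
    have h2 : (J₁ : ℝ) ≤ J := by exact_mod_cast hJ
    exact hJ₁.trans h2
  have hD0 : (0 : ℝ) ≤ D := Nat.cast_nonneg D
  have hCμ : 0 ≤ C / μ := by positivity
  have hDε : 0 ≤ 2 * (D : ℝ) / ε := by positivity
  have hJ1 : C ≤ μ * J := by
    have h3 : C / μ ≤ J := by linarith
    rw [div_le_iff₀ hμ0] at h3
    linarith
  have hDx : ((D : ℝ) + 1) * 2 ^ D ≤ 2 ^ x := by
    have h3 : 2 * (D : ℝ) / ε ≤ J := by linarith
    rw [div_le_iff₀ hε] at h3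
    have h4 : 2 * D ≤ x := by
      have : 2 * (D : ℝ) ≤ x := by linarith
      exact_mod_cast this
    have h5 : (D : ℝ) + 1 ≤ 2 ^ D := by
      have : D + 1 ≤ 2 ^ D := Nat.lt_two_pow_self
      exact_mod_cast this
    calc ((D : ℝ) + 1) * 2 ^ D ≤ 2 ^ D * 2 ^ D := by gcongr
      _ = 2 ^ (2 * D) := by
          rw [← pow_add]
          congr 1
          ring
      _ ≤ 2 ^ x := two_le h4
  have hVJ : (V : ℝ) ≤ a * J := by
    have h2 : (V : ℝ) ≤ ⌊(a : ℝ) * J⌋₊ := by exact_mod_cast hV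
    exact h2.trans (Nat.floor_le (mul_nonneg ha0R hJ0))
  have hVJ' : V ≤ J := by
    have h2 : (V : ℝ) ≤ J := hVJ.trans (by
      have := mul_le_mul_of_nonneg_right haR.le hJ0
      linarith)
    exact_mod_cast h2
  have hθ0 : 0 ≤ ε₁ * J := by positivity
  have hmain : 2 * (C * (ε₁ * J + 1)) ≤ min ε (1 - (a : ℝ)) * Real.log 2 * J := by
    have e1 : C * (ε₁ * J) = μ * J := by rw [hε₁]; field_simp
    have e2 : 4 * (μ * J) = min ε (1 - (a : ℝ)) * Real.log 2 * J := by rw [hμ]; ring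
    rw [mul_add, mul_one, e1]
    linarith
  have hm1 : 2 * (C * (ε₁ * J + 1)) ≤ x * Real.log 2 := by
    refine hmain.trans ?_
    have e1 : min ε (1 - (a : ℝ)) * Real.log 2 * J ≤ ε * Real.log 2 * J :=
      mul_le_mul_of_nonneg_right (mul_le_mul_of_nonneg_right (min_le_left _ _) hL2.le) hJ0
    have e2 := mul_le_mul_of_nonneg_right hεx hL2.le
    linarith
  have hm2 : C * (ε₁ * J + 1) ≤ ((J : ℝ) - V) * Real.log 2 := by
    have h0 : 0 ≤ C * (ε₁ * J + 1) := by positivity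
    refine (by linarith : C * (ε₁ * J + 1) ≤ 2 * (C * (ε₁ * J + 1))).trans (hmain.trans ?_)
    have e1 : min ε (1 - (a : ℝ)) * Real.log 2 * J ≤ (1 - a) * Real.log 2 * J :=
      mul_le_mul_of_nonneg_right (mul_le_mul_of_nonneg_right (min_le_right _ _) hL2.le) hJ0
    have e3 := mul_le_mul_of_nonneg_right hVJ hL2.le
    linarith
  have hexp : C * Real.exp (C * (ε₁ * J + 1)) ≤ 2 ^ x := by
    have h1 : C ≤ Real.exp (C * (ε₁ * J + 1)) := by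
      have h2 := Real.add_one_le_exp (C * (ε₁ * J + 1))
      have h3 : C * 1 ≤ C * (ε₁ * J + 1) := mul_le_mul_of_nonneg_left (by linarith) hC0.le
      linarith
    calc C * Real.exp (C * (ε₁ * J + 1)) ≤
          Real.exp (C * (ε₁ * J + 1)) * Real.exp (C * (ε₁ * J + 1)) :=
          mul_le_mul_of_nonneg_right h1 (by positivity)
      _ = Real.exp (2 * (C * (ε₁ * J + 1))) := by rw [← Real.exp_add]; ring_nf
      _ ≤ Real.exp (x * Real.log 2) := Real.exp_le_exp.2 hm1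
      _ = 2 ^ x := by
        rw [mul_comm (x : ℝ), ← Real.rpow_def_of_pos (by norm_num), Real.rpow_natCast]
  exact hgn N Nv Z hc hVJ' hDx h₁ h hv h' Dp hk₁ hk hkv hk' hX hQ hdeg hM hB0 hθ0
    (fun A' hA' hs hm => htA A' (fun ω hω => hBA ω (hs ω hω)) (by
      rw [div_mul_eq_mul_div, div_le_iff₀ (by norm_num : (0 : ℝ) < 2)]
      linarith) hA') hm2 hexp

end Pool.KPO
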