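import Pool.Agent.H31.D2.Gqc

/-!
# The coefficient of order one in the frame of a later window

`gq_mix`: on the event of `gqs_of`, the combination of the coefficients of order one of the gradients
at `W`, in the direction of `c 0` of the frame of the later window `V`, is natural at `V`.
-/

set_option autoImplicit false

namespace Pool.KPO

open Finset Real MvPolynomial
open Pool.Agent.H49.Ent Pool.Agent.H32.Dense Pool.STK Pool.KA Pool.KSAT Pool.K2S Pool.PB Pool.S6C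
open Pool.GEN Pool.CHT Pool.CHX Pool.LA91
open Pool.D2F Pool.D2Z Pool.D2F2 Pool.D2N
open Pool.D2R (dd hs co rem_fam)
open Pool.OWN68 (opl tw uw mid dirv natDegree_opl opl_jet uw_abs t_mid)

variable {m J : ℕ} {F : Fam m J} {c : ℕ → Fin m} {D w₀ W V b a' x s : ℕ} {g₁ g gv gb g' : ℕ → ℕ}
    {v v' e X p k₁ k kv k' e₂ e₀ ev e₁ : ℕ} {gT : ℕ → ℕ} {U : ℝ} {B : F.Ω → Prop}
    {G : PtT F → ℕ → MvPolynomial (Option (Fin m)) ℝ}
    {H : LnT F → ℕ → MvPolynomial (Option (Fin m)) ℝ}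
    {T : PtT F → ℕ → MvPolynomial (Option (Fin m)) ℝ}
    {TH : LnT F → ℕ → MvPolynomial (Option (Fin m)) ℝ}
    {Ht : LnT F → MvPolynomial (Option (Fin m)) ℝ}
    {ψ₁ ψ ψv ψ' Sv : PtT F → ℕ → Option (Fin m) → ℝ}
    {ψH₁ ψH ψHv ψH' : LnT F → ℕ → Option (Fin m) → ℝ}

/-- The component of the frame vector in its own direction. -/
theorem kap_zero {c : ℕ → Fin m} (hc : Set.InjOn c (Set.Iio 3)) (gv : ℕ → ℕ) (V : ℕ)
    {χ χ₁ : ℕ → Option (Fin m) → ℝ} (hχ : ∀ l, CvC c l (χ l)) (hχ₁ : ∀ l, CvC c l (χ₁ l)) :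
    Pool.D2N.kap c gv V χ χ₁ 0 0 = 1 := by
  unfold Pool.D2N.kap
  have e1 := fv_comp hc gv V hχ 0 (j := 0) (by norm_num)
  rw [if_pos rfl] at e1
  have e2 : ∀ φ : Option (Fin m) → ℝ, CvC c 0 φ → cv φ (fv c gv V 3 χ 0) = 0 := by
    intro φ hφ
    unfold cv
    refine Finset.sum_eq_zero fun o _ => ?_
    cases o with
    | none => rw [fv_none, mul_zero]
    | some i => rw [hφ i (by
        rintro l hl
        exact absurd hl (by omega)), zero_mul]
  rw [e2 _ (hχ₁ 0)]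
  rw [e2 _ (hχ 0)] at e1
  exact e1

/-- **The coefficient of order one in the frame of a later window.** -/
theorem gq_mix (N : HpG x w₀ W b a' g₁ g gb g') (Nv : HpG x w₀ V b a' g₁ gv gb g')
    (Z : HpS x s w₀ W V g₁ g gv)
    (hc : Set.InjOn c (Set.Iio 3)) (hV : V ≤ J) (hDx : ((D : ℝ) + 1) * 2 ^ D ≤ 2 ^ x)
    (h₁ : WFr F c 4 w₀ k₁ e₂ g₁ B ψ₁ ψH₁ Sv) (h : WFr F c 4 W k e₀ g B ψ ψH Sv)
    (hv : WFr F c 4 V kv ev gv B ψv ψHv Sv) (h' : WFr F c 4 b k' e₁ gb B ψ' ψH' Sv)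
    (Dp : Dpw F c D w₀ a' v v' e X p g' gT U B G H T TH Ht Sv)
    (hk₁ : k₁ ≤ x) (hk : k ≤ x) (hkv : kv ≤ x) (hk' : k' ≤ x) (hX : X ≤ x)
    (hQ : ∀ s, DepC c 3 (Ht s)) (hdeg : ∀ s, (Ht s).totalDegree ≤ D)
    (hM : ∀ ω, B ω → ∀ i < 3, ∀ j, |(gq F c g₁ w₀ 0 ψH₁ Ht (slam F w₀ ω) i).coeff (j + 1)| ≤
      2 ^ x / 2 ^ g₁ 3 * 2 ^ g₁ i) {ω : F.Ω} (hω : B ω)
    (h2 : ∀ j, |2 ^ g 3 / 2 ^ g 0 * (gq F c g W (W - w₀) ψH Ht (slam F W ω) 0).coeff (j + 2)| ≤
      1 / 2 ^ (s + 400 * x)) :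
    |2 ^ g 3 / 2 ^ g 0 * ∑ i ∈ range 3,
      Pool.D2N.kap c gv V (ψHv (slam F V ω)) (ψH (slam F W ω)) 0 i *
        (gq F c g W (W - w₀) ψH Ht (slam F W ω) i).coeff 1| ≤
      2 ^ (135 * x) * (2 ^ (g 3 + gv 0 + (V - W)) / 2 ^ (gv 3 + g 0)) +
        1 / 2 ^ (s + 390 * x) := by
  have hx := N.x1
  have hW : W ≤ J := Z.wV.trans hV
  have e2 : ψH (slam F W ω) = ψ (ptr F J ω) := (h.fr.cls ω hω).symm
  have e3 : ψHv (slam F V ω) = ψv (ptr F J ω) := (hv.fr.cls ω hω).symm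
  have hdq : ∀ l, (gq F c g W (W - w₀) ψH Ht (slam F W ω) l).natDegree ≤ D := fun l =>
    natDegree_opl F W (deg_gpo c g W 3 (ψH (slam F W ω)) (hdeg _) l) _
  have hD1 := d1_le hDx
  have hD0 : (0 : ℝ) ≤ (D : ℝ) + 1 := by positivity
  obtain ⟨kp, hkp⟩ : ∃ kp : ℕ → ℝ, kp = fun i =>
    Pool.D2N.kap c gv V (ψHv (slam F V ω)) (ψH (slam F W ω)) 0 i := ⟨_, rfl⟩
  obtain ⟨Q, hQd⟩ : ∃ Q : Polynomial ℝ, Q = Polynomial.C (2 ^ g 3 / 2 ^ g 0) *
    ∑ i ∈ range 3, Polynomial.C (kp i) * gq F c g W (W - w₀) ψH Ht (slam F W ω) i := ⟨_, rfl⟩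
  have hQc : ∀ j, Q.coeff j = 2 ^ g 3 / 2 ^ g 0 * ∑ i ∈ range 3, kp i *
      (gq F c g W (W - w₀) ψH Ht (slam F W ω) i).coeff j := by
    intro j
    rw [hQd, Polynomial.coeff_C_mul, Polynomial.finsetSum_coeff]
    congr 1
    exact Finset.sum_congr rfl fun i _ => Polynomial.coeff_C_mul _
  have hQn : Q.natDegree ≤ D := by
    rw [hQd]
    refine (Polynomial.natDegree_C_mul_le _ _).trans
      (Polynomial.natDegree_sum_le_of_forall_le _ _ fun i _ => ?_)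
    exact (Polynomial.natDegree_C_mul_le _ _).trans (hdq i)
  have k0 : kp 0 = 1 := by
    rw [hkp]
    exact kap_zero hc gv V (hv.fr.depH _) (h.fr.depH _)
  have near : Nc c g W 3 (2 ^ (12 * x + 8)) (ψ (ptr F J ω)) (ψv (ptr F J ω)) :=
    (nr_two (h.nr ω hω) (hv.nr ω hω) hk hkv Z.up Z.upj).1
  -- the orders at least two
  have hQ2 : ∀ j, 2 ≤ j → |Q.coeff j| ≤ 1 / 2 ^ (s + 396 * x) := by
    intro j hj
    obtain ⟨i, rfl⟩ : ∃ i, j = i + 2 := ⟨j - 2, by omega⟩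
    rw [hQc, Finset.sum_range_succ, Finset.sum_range_succ, Finset.sum_range_one, k0, one_mul]
    have rough : ∀ l, 1 ≤ l → l ≤ 2 → |2 ^ g 3 / 2 ^ g 0 * (kp l *
        (gq F c g W (W - w₀) ψH Ht (slam F W ω) l).coeff (i + 2))| ≤ 1 / 2 ^ (s + 466 * x) := by
      intro l hl1 hl2
      have h3 := kap_le (c := c) (g := gv) (g₁ := g) (W := V) (w := W) hc
        (hv.fr.dep (ptr F J ω)) (by positivity) near (l := 0) (i := l) (by norm_num) (by omega)
      rw [← e2, ← e3] at h3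
      have h3' : 2 ^ g l * |kp l| ≤ (1 + (2 : ℝ) ^ (12 * x + 8)) ^ 3 * 2 ^ g 0 := by
        rw [hkp]
        exact h3
      have h4 : |2 ^ g 3 / 2 ^ g l * (gq F c g W (W - w₀) ψH Ht (slam F W ω) l).coeff (i + 2)| ≤
          1 / 2 ^ (s + 533 * x) := by
        refine (gr_cf N hc hW hDx h₁ h hk₁ hk hQ hdeg hM hω (by omega) (i + 1)).trans ?_
        have h5 : (2 : ℝ) ^ (g 3 + g₁ l) / 2 ^ (g₁ 3 + g l + (i + 1 + 1) * (W - w₀)) ≤
            1 / 2 ^ (s + 600 * x) := by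
          refine pq_le1 ?_
          have h6 := Z.s1 l hl1 hl2
          have h7 : 2 * (W - w₀) ≤ (i + 1 + 1) * (W - w₀) := Nat.mul_le_mul_right _ (by omega)
          omega
        exact (mul_le_mul_of_nonneg_left h5 (by positivity)).trans (pm_le1 (by omega))
      obtain ⟨q, hq⟩ : ∃ q, q = (gq F c g W (W - w₀) ψH Ht (slam F W ω) l).coeff (i + 2) :=
        ⟨_, rfl⟩
      rw [← hq] at h4 ⊢
      have e4 : 2 ^ g 3 / 2 ^ g 0 * (kp l * q) =
          (2 ^ g l * kp l / 2 ^ g 0) * (2 ^ g 3 / 2 ^ g l * q) := by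
        field_simp
      rw [e4, abs_mul]
      have h8 : |2 ^ g l * kp l / 2 ^ g 0| ≤ 2 ^ (63 * x) := by
        rw [abs_div, abs_mul, abs_of_pos (by positivity : (0 : ℝ) < 2 ^ g l),
          abs_of_pos (by positivity : (0 : ℝ) < 2 ^ g 0), div_le_iff₀ (by positivity)]
        exact h3'.trans (mul_le_mul_of_nonneg_right (pw3' x hx) (by positivity))
      calc |2 ^ g l * kp l / 2 ^ g 0| * |2 ^ g 3 / 2 ^ g l * q| ≤
          2 ^ (63 * x) * (1 / 2 ^ (s + 533 * x)) :=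
            mul_le_mul h8 h4 (abs_nonneg _) (by positivity)
        _ ≤ 1 / 2 ^ (s + 466 * x) := pm_le1 (by omega)
    have r0 := h2 i
    have r1 := rough 1 le_rfl (by norm_num)
    have r2 := rough 2 (by norm_num) le_rfl
    have q1 : (1 : ℝ) / 2 ^ (s + 400 * x) ≤ 1 / 2 ^ (s + 396 * x + 2) :=
      one_div_le_one_div_of_le (by positivity) (two_le (by omega))
    have q2 : (1 : ℝ) / 2 ^ (s + 466 * x) ≤ 1 / 2 ^ (s + 396 * x + 2) :=
      one_div_le_one_div_of_le (by positivity) (two_le (by omega))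
    have q3 : (1 : ℝ) / 2 ^ (s + 396 * x) = 4 * (1 / 2 ^ (s + 396 * x + 2)) := by
      rw [pow_add _ (s + 396 * x) 2]
      field_simp
      norm_num
    have q4 : (0 : ℝ) < 1 / 2 ^ (s + 396 * x + 2) := by positivity
    rw [mul_add, mul_add]
    refine (abs_add_le _ _).trans ((add_le_add (abs_add_le _ _) le_rfl).trans ?_)
    rw [q3]
    linarith
  -- the derivative at the own time
  have hder : Q.derivative.eval (uw F W ω) = 2 ^ (V - W) * (2 ^ g 3 / 2 ^ g 0 *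
      (gq F c gv V (V - w₀) ψHv Ht (slam F V ω) 0).derivative.eval (uw F V ω)) := by
    have h1 := gq_win (g := gv) (g₁ := g) (ψH := ψHv) (ψH₁ := ψH) (Ht := Ht) (n := V - w₀)
      (n₁ := W - w₀) hc Z.wV hV (ω := ω) (h.fr.depH _) hQ (by omega)
      (by omega) (by have := N.wW; have := Z.wV; omega) 0
    have hl : Polynomial.derivative (Polynomial.C ((1 : ℝ) / 2 ^ (V - W)) * Polynomial.X +
        Polynomial.C (u0 V W (slam F V ω).2.2)) = Polynomial.C (1 / 2 ^ (V - W)) := by simp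
    have h3 : (gq F c gv V (V - w₀) ψHv Ht (slam F V ω) 0).derivative.eval (uw F V ω) =
        ∑ i ∈ range 3, kp i * (1 / 2 ^ (V - W) *
          (gq F c g W (W - w₀) ψH Ht (slam F W ω) i).derivative.eval (uw F W ω)) := by
      rw [h1, Polynomial.derivative_sum, Polynomial.eval_finsetSum]
      refine Finset.sum_congr rfl fun i _ => ?_
      rw [Polynomial.derivative_C_mul, Polynomial.eval_C_mul, Polynomial.derivative_comp, hl,
        Polynomial.eval_mul, Polynomial.eval_C, Polynomial.eval_comp, Polynomial.eval_add,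
        Polynomial.eval_mul, Polynomial.eval_C, Polynomial.eval_X, Polynomial.eval_C,
        uw_two F Z.wV hV ω, hkp]
    have h4 : Q.derivative.eval (uw F W ω) = 2 ^ g 3 / 2 ^ g 0 * ∑ i ∈ range 3, kp i *
        (gq F c g W (W - w₀) ψH Ht (slam F W ω) i).derivative.eval (uw F W ω) := by
      rw [hQd, Polynomial.derivative_C_mul, Polynomial.eval_C_mul, Polynomial.derivative_sum,
        Polynomial.eval_finsetSum]
      congr 1
      refine Finset.sum_congr rfl fun i _ => ?_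
      rw [Polynomial.derivative_C_mul, Polynomial.eval_C_mul]
    rw [h3, h4, Finset.sum_range_succ, Finset.sum_range_succ, Finset.sum_range_one,
      Finset.sum_range_succ, Finset.sum_range_succ, Finset.sum_range_one]
    field_simp
  have h6 := gy_own Nv hc hV hDx h₁ hv h' Dp hk₁ hkv hk' hX hQ hdeg hM hω
  obtain ⟨Pv, hPv⟩ : ∃ Pv, Pv =
      (gq F c gv V (V - w₀) ψHv Ht (slam F V ω) 0).derivative.eval (uw F V ω) := ⟨_, rfl⟩
  rw [← hPv] at h6 hder
  have h7 : |Q.derivative.eval (uw F W ω)| ≤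
      2 ^ (135 * x) * (2 ^ (g 3 + gv 0 + (V - W)) / 2 ^ (gv 3 + g 0)) := by
    have e5 : Q.derivative.eval (uw F W ω) = (2 ^ gv 3 / 2 ^ gv 0 * Pv) *
        (2 ^ (g 3 + gv 0 + (V - W)) / 2 ^ (gv 3 + g 0)) := by
      rw [hder]
      simp only [pow_add]
      field_simp
    rw [e5, abs_mul, abs_of_pos (by positivity :
      (0 : ℝ) < 2 ^ (g 3 + gv 0 + (V - W)) / 2 ^ (gv 3 + g 0))]
    exact mul_le_mul_of_nonneg_right h6 (by positivity)
  have h8 : |Q.derivative.eval (uw F W ω) - Q.coeff 1| ≤ 1 / 2 ^ (s + 390 * x) := by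
    rcases Nat.lt_or_ge D 1 with hD | hD
    · have e6 : Q.derivative = 0 := by
        refine Polynomial.derivative_of_natDegree_zero ?_
        omega
      have e7 : Q.coeff 1 = 0 := Polynomial.coeff_eq_zero_of_natDegree_lt (by omega)
      rw [e6, e7, Polynomial.eval_zero, sub_zero, abs_zero]
      positivity
    · have h9 := der_cut (P := Q) (D := D) (k := 2) hQn (uw_abs F W ω)
        (δ := 1 / 2 ^ (s + 396 * x)) (by positivity) (by omega) hQ2
      rw [Finset.sum_range_succ, Finset.sum_range_one] at h9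
      simp only [Nat.cast_zero, mul_zero, zero_mul, zero_add, Nat.cast_one, mul_one,
        Nat.sub_self, pow_zero] at h9
      refine h9.trans ?_
      calc ((D : ℝ) + 1) ^ 2 * (1 / 2 ^ (s + 396 * x)) ≤ (2 ^ x) ^ 2 * (1 / 2 ^ (s + 396 * x)) := by
            gcongr
        _ = 2 ^ (x * 2) * (1 / 2 ^ (s + 396 * x)) := by rw [← pow_mul]
        _ ≤ 1 / 2 ^ (s + 390 * x) := pm_le1 (by omega)
  have e8 : 2 ^ g 3 / 2 ^ g 0 * ∑ i ∈ range 3,
      Pool.D2N.kap c gv V (ψHv (slam F V ω)) (ψH (slam F W ω)) 0 i *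
        (gq F c g W (W - w₀) ψH Ht (slam F W ω) i).coeff 1 = Q.derivative.eval (uw F W ω) -
      (Q.derivative.eval (uw F W ω) - Q.coeff 1) := by
    rw [sub_sub_cancel, hQc 1, hkp]
  rw [e8]
  exact (abs_sub _ _).trans (add_le_add h7 h8)

end Pool.KPO
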