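import Pool.Agent.H60.D2.Crw
import Pool.Agent.H23.D2.Star
import Pool.Agent.H23.D2.Rat

/-!
# The dual basis of a chain of covectors; a covector with one large component

`dl`: the vector dual to the coordinate `c i` of a chain `S`, without the time. `tie_dec`: if a
covector has one large component in the chain `S`, then its components in a near chain `ψ` give the
difference of `S` and `ψ` at this place. `sp_id`: the covector of the chain `S` in the dual basis of
`ψ`.
-/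

set_option autoImplicit false

namespace Pool.KPO

open Finset Real MvPolynomial
open Pool.Agent.H49.Ent Pool.Agent.H32.Dense Pool.STK Pool.KA Pool.KSAT Pool.K2S Pool.PB Pool.S6C
open Pool.GEN Pool.CHT Pool.CHX Pool.ISO Pool.D2F Pool.D2Z
open Pool.D2R (en_wt wt dd hs)

variable {m : ℕ}

/-- **The vector dual to the coordinate `c i`** of the chain `S`. -/
noncomputable def dl (c : ℕ → Fin m) (S : ℕ → Option (Fin m) → ℝ) (r i : ℕ) :
    Option (Fin m) → ℝ := dvn c (fun _ => 0) 0 S (fun x => if x = i + 1 then 1 else 0) r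

section

variable {c : ℕ → Fin m} {S : ℕ → Option (Fin m) → ℝ} {r : ℕ}

theorem dl_none (c : ℕ → Fin m) (S : ℕ → Option (Fin m) → ℝ) (r i : ℕ) : dl c S r i none = 0 := by
  unfold dl
  rw [dvn_none, if_neg (by omega), zero_div]

theorem dl_eta (hc : Set.InjOn c (Set.Iio r)) (hS : ∀ l, CvC c l (S l)) (i : ℕ) {j : ℕ}
    (hj : j < r) : dl c S r i (some (c j)) - cv (S j) (dl c S r i) = if j = i then 1 else 0 := by
  have h1 := eta_dvn hc (fun _ => 0) 0 hS (fun x => if x = i + 1 then (1 : ℝ) else 0)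
    (show j + 1 ≤ r by omega)
  simp only [eta, pow_zero, one_mul] at h1
  show dvn c (fun _ => 0) 0 S (fun x => if x = i + 1 then 1 else 0) r (some (c j)) -
    cv (S j) (dvn c (fun _ => 0) 0 S (fun x => if x = i + 1 then 1 else 0) r) = _
  rw [h1]
  by_cases h : j = i
  · rw [if_pos (by omega), if_pos h]
  · rw [if_neg (by omega), if_neg h]

theorem cv_zr (φ : Option (Fin m) → ℝ) : cv φ 0 = 0 := by
  unfold cv
  simp

/-- The lower coordinates of the dual vector. -/
theorem dl_low (hc : Set.InjOn c (Set.Iio r)) (hS : ∀ l, CvC c l (S l)) {i j : ℕ} (hji : j < i)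
    (hj : j < r) : dl c S r i (some (c j)) = 0 := by
  induction j using Nat.strong_induction_on with
  | _ j ih =>
    have h1 := dl_eta hc hS i hj
    rw [if_neg (by omega), cv_congr (hS j) (W' := 0) (dl_none c S r i) fun l hl =>
      ih l hl (by omega) (by omega), cv_zr, sub_zero] at h1
    exact h1

/-- A covector of lower coordinates vanishes on the dual vector. -/
theorem cv_dl_zero (hc : Set.InjOn c (Set.Iio r)) (hS : ∀ l, CvC c l (S l))
    {φ : Option (Fin m) → ℝ} {l i : ℕ} (hφ : CvC c l φ) (hl : l ≤ r) (hi : l ≤ i) :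
    cv φ (dl c S r i) = 0 := by
  rw [cv_congr hφ (W' := 0) (dl_none c S r i) fun j hj => dl_low hc hS (by omega) (by omega),
    cv_zr]

/-- **The expansion of a covector** on a vector without the time. -/
theorem cv_exp_dl (hc : Set.InjOn c (Set.Iio r)) (hS : ∀ l, CvC c l (S l))
    {φ : Option (Fin m) → ℝ} {l : ℕ} (hφ : CvC c l φ) (hl : l ≤ r) {V : Option (Fin m) → ℝ}
    (hV : V none = 0) : cv φ V = ∑ i ∈ range l, cv φ (dl c S r i) *
      (V (some (c i)) - cv (S i) V) := by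
  have hφr : CvC c r φ := fun k hk => hφ k fun j hj => hk j (by omega)
  have h1 := cv_nc hc (fun _ => 0) 0 hS hφr V
  rw [Finset.sum_range_succ'] at h1
  have e0 : eta c (fun _ => 0) 0 S V 0 = 0 := by
    simp only [eta, pow_zero, one_mul]
    exact hV
  rw [e0, mul_zero, add_zero] at h1
  have e1 : ∀ i, nc c (fun _ => 0) 0 S r φ (i + 1) * eta c (fun _ => 0) 0 S V (i + 1) =
      cv φ (dl c S r i) * (V (some (c i)) - cv (S i) V) := by
    intro i
    simp only [eta, pow_zero, one_mul]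
    rfl
  rw [Finset.sum_congr rfl fun i _ => e1 i] at h1
  rw [h1]
  refine (Finset.sum_subset (Finset.range_mono hl) fun i hi hi' => ?_).symm
  rw [Finset.mem_range] at hi hi'
  rw [cv_dl_zero hc hS hφ hl (by omega), zero_mul]

/-- The natural size of the dual vector. -/
theorem en_dl (hc : Set.InjOn c (Set.Iio r)) (hS : ∀ l, CvC c l (S l)) (g : ℕ → ℕ) (a : ℕ)
    {l i : ℕ} (hl : l ≤ r) : en c g a S l (dl c S r i) = if i < l then 2 ^ g i else 0 := by
  rw [en_eq, dl_none, abs_zero, mul_zero, zero_add]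
  have e1 : ∀ j ∈ range l, (2 : ℝ) ^ g j * |dl c S r i (some (c j)) - cv (S j) (dl c S r i)| =
      if j = i then 2 ^ g i else 0 := by
    intro j hj
    have hj' := Finset.mem_range.1 hj
    rw [dl_eta hc hS i (by omega)]
    by_cases h : j = i
    · rw [if_pos h, if_pos h, abs_one, mul_one, h]
    · rw [if_neg h, if_neg h, abs_zero, mul_zero]
  rw [Finset.sum_congr rfl e1]
  by_cases h : i < l
  · rw [if_pos h, Finset.sum_ite_eq' , if_pos (Finset.mem_range.2 h)]
  · rw [if_neg h]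
    refine Finset.sum_eq_zero fun j hj => ?_
    have := Finset.mem_range.1 hj
    rw [if_neg (by omega)]

/-- The components of a natural covector. -/
theorem comp_le (hc : Set.InjOn c (Set.Iio r)) (hS : ∀ l, CvC c l (S l)) {g : ℕ → ℕ} {a : ℕ}
    {φ : Option (Fin m) → ℝ} {M : ℝ} {l : ℕ} (hl : l ≤ r)
    (hM : ∀ V, |cv φ V| ≤ M * en c g a S l V) {i : ℕ} (hi : i < l) :
    |cv φ (dl c S r i)| ≤ M * 2 ^ g i := by
  have h1 := hM (dl c S r i)
  rwa [en_dl hc hS g a hl, if_pos hi] at h1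

/-- A covector with small components is small on vectors without the time. -/
theorem comp_ge (hc : Set.InjOn c (Set.Iio r)) (hS : ∀ l, CvC c l (S l)) {g : ℕ → ℕ} (a : ℕ)
    {φ : Option (Fin m) → ℝ} {M : ℝ} {l : ℕ} (hφ : CvC c l φ) (hl : l ≤ r)
    (hM : ∀ i < l, |cv φ (dl c S r i)| ≤ M * 2 ^ g i) {V : Option (Fin m) → ℝ}
    (hV : V none = 0) : |cv φ V| ≤ M * en c g a S l V := by
  rw [cv_exp_dl hc hS hφ hl hV, en_eq, hV, abs_zero, mul_zero, zero_add, Finset.mul_sum]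
  refine (Finset.abs_sum_le_sum_abs _ _).trans (Finset.sum_le_sum fun i hi => ?_)
  rw [abs_mul]
  calc |cv φ (dl c S r i)| * |V (some (c i)) - cv (S i) V| ≤
        M * 2 ^ g i * |V (some (c i)) - cv (S i) V| :=
        mul_le_mul_of_nonneg_right (hM i (Finset.mem_range.1 hi)) (abs_nonneg _)
    _ = _ := by ring

end

/-- **A covector with one large component.** -/
theorem tie_dec {c : ℕ → Fin m} {S ψ : ℕ → Option (Fin m) → ℝ} {r l₀ a : ℕ} {g : ℕ → ℕ}
    {K β : ℝ} {φ : Option (Fin m) → ℝ} (hc : Set.InjOn c (Set.Iio r)) (hS : ∀ l, CvC c l (S l))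
    (hψ : ∀ l, CvC c l (ψ l)) (hφ : CvC c r φ) (hl₀ : l₀ < r) (hK : 0 ≤ K) (hβ : 0 ≤ β)
    (hN : Nc c g a r K ψ S)
    (h1 : ∀ i < r, i ≠ l₀ → |cv φ (dl c S r i)| ≤ β * 2 ^ g i) :
    (∀ j < l₀, |cv (S l₀ - ψ l₀) (dl c ψ r j)| ≤ K * (2 ^ g j / 2 ^ g l₀)) ∧
    |cv φ (dl c ψ r l₀) - cv φ (dl c S r l₀)| ≤ r * (K * β) * 2 ^ g l₀ ∧
    ∀ j < l₀, |cv φ (dl c ψ r j) + cv (S l₀ - ψ l₀) (dl c ψ r j) * cv φ (dl c ψ r l₀)| ≤
      (r + 1) * (1 + K) ^ 2 * β * 2 ^ g j := by
  -- the matrix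
  have hd : ∀ i < r, ∀ j, |cv (S i - ψ i) (dl c ψ r j)| ≤ K / 2 ^ g i * 2 ^ g j := by
    intro i hi j
    have h2 := hN i hi (dl c ψ r j)
    rw [en_dl hc hψ g a hi.le] at h2
    refine h2.trans (mul_le_mul_of_nonneg_left ?_ (by positivity))
    split_ifs
    · exact le_rfl
    · positivity
  have hd0 : ∀ i < r, ∀ j, i ≤ j → cv (S i - ψ i) (dl c ψ r j) = 0 := by
    intro i hi j hij
    rw [cv_subl, cv_dl_zero hc hψ (hS i) hi.le hij, cv_dl_zero hc hψ (hψ i) hi.le hij, sub_zero]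
  have hexp : ∀ j < r, cv φ (dl c ψ r j) = cv φ (dl c S r j) -
      ∑ i ∈ range r, cv φ (dl c S r i) * cv (S i - ψ i) (dl c ψ r j) := by
    intro j hj
    rw [cv_exp_dl hc hS hφ le_rfl (dl_none c ψ r j)]
    have e1 : ∀ i ∈ range r, cv φ (dl c S r i) * (dl c ψ r j (some (c i)) -
        cv (S i) (dl c ψ r j)) = (if i = j then cv φ (dl c S r i) else 0) -
        cv φ (dl c S r i) * cv (S i - ψ i) (dl c ψ r j) := by
      intro i hi
      have h2 := dl_eta hc hψ j (Finset.mem_range.1 hi)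
      rw [cv_subl]
      have e2 : dl c ψ r j (some (c i)) - cv (S i) (dl c ψ r j) =
          (dl c ψ r j (some (c i)) - cv (ψ i) (dl c ψ r j)) -
          (cv (S i) (dl c ψ r j) - cv (ψ i) (dl c ψ r j)) := by ring
      rw [e2, h2, mul_sub]
      congr 1
      split_ifs
      · rw [mul_one]
      · rw [mul_zero]
    rw [Finset.sum_congr rfl e1, Finset.sum_sub_distrib, Finset.sum_ite_eq',
      if_pos (Finset.mem_range.2 hj)]
  have hsum : ∀ j < r, |∑ i ∈ (range r).erase l₀, cv φ (dl c S r i) *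
      cv (S i - ψ i) (dl c ψ r j)| ≤ r * (K * β) * 2 ^ g j := by
    intro j hj
    refine (Finset.abs_sum_le_sum_abs _ _).trans ?_
    have h2 : ∀ i ∈ (range r).erase l₀, |cv φ (dl c S r i) * cv (S i - ψ i) (dl c ψ r j)| ≤
        K * β * 2 ^ g j := by
      intro i hi
      obtain ⟨h3, h4⟩ := Finset.mem_erase.1 hi
      have h5 := Finset.mem_range.1 h4
      rw [abs_mul]
      calc |cv φ (dl c S r i)| * |cv (S i - ψ i) (dl c ψ r j)| ≤
            β * 2 ^ g i * (K / 2 ^ g i * 2 ^ g j) :=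
            mul_le_mul (h1 i h5 h3) (hd i h5 j) (abs_nonneg _) (by positivity)
        _ = _ := by field_simp
    refine (Finset.sum_le_sum h2).trans ?_
    rw [Finset.sum_const, nsmul_eq_mul]
    have h3 : (((range r).erase l₀).card : ℝ) ≤ r := by
      have := Finset.card_erase_le (s := range r) (a := l₀)
      rw [Finset.card_range] at this
      exact_mod_cast this
    calc _ ≤ (r : ℝ) * (K * β * 2 ^ g j) := mul_le_mul_of_nonneg_right h3 (by positivity)
      _ = _ := by ring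
  have hsp : ∀ j < r, cv φ (dl c ψ r j) = cv φ (dl c S r j) -
      cv φ (dl c S r l₀) * cv (S l₀ - ψ l₀) (dl c ψ r j) -
      ∑ i ∈ (range r).erase l₀, cv φ (dl c S r i) * cv (S i - ψ i) (dl c ψ r j) := by
    intro j hj
    rw [hexp j hj, ← Finset.add_sum_erase _ _ (Finset.mem_range.2 hl₀)]
    ring
  have hr0 : (0 : ℝ) ≤ r := Nat.cast_nonneg r
  have hg : ∀ j, (0 : ℝ) < 2 ^ g j := fun j => by positivity
  have hQ := hsp l₀ hl₀
  rw [hd0 l₀ hl₀ l₀ le_rfl, mul_zero, sub_zero] at hQ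
  refine ⟨fun j hj => (hd l₀ hl₀ j).trans (le_of_eq (by ring)), ?_, fun j hj => ?_⟩
  · have e1 : cv φ (dl c ψ r l₀) - cv φ (dl c S r l₀) =
        -∑ i ∈ (range r).erase l₀, cv φ (dl c S r i) * cv (S i - ψ i) (dl c ψ r l₀) := by
      rw [hQ]
      ring
    rw [e1, abs_neg]
    exact hsum l₀ hl₀
  · obtain ⟨k, hk⟩ : ∃ k, k = cv (S l₀ - ψ l₀) (dl c ψ r j) := ⟨_, rfl⟩
    obtain ⟨Sj, hSj⟩ : ∃ s, s = ∑ i ∈ (range r).erase l₀, cv φ (dl c S r i) *
      cv (S i - ψ i) (dl c ψ r j) := ⟨_, rfl⟩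
    obtain ⟨Sl, hSl⟩ : ∃ s, s = ∑ i ∈ (range r).erase l₀, cv φ (dl c S r i) *
      cv (S i - ψ i) (dl c ψ r l₀) := ⟨_, rfl⟩
    have h2 := hsum j (by omega)
    have h3 := hsum l₀ hl₀
    have h4 := h1 j (by omega) (by omega)
    have h5 := hd l₀ hl₀ j
    rw [hsp j (by omega), hQ]
    rw [← hSj] at h2 ⊢
    rw [← hSl] at h3 ⊢
    rw [← hk] at h5 ⊢
    have e1 : cv φ (dl c S r j) - cv φ (dl c S r l₀) * k - Sj + k * (cv φ (dl c S r l₀) - Sl) =
        cv φ (dl c S r j) - Sj - k * Sl := by ring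
    rw [e1]
    have h6 : |k * Sl| ≤ r * K ^ 2 * β * 2 ^ g j := by
      rw [abs_mul]
      calc |k| * |Sl| ≤ K / 2 ^ g l₀ * 2 ^ g j * (r * (K * β) * 2 ^ g l₀) :=
            mul_le_mul h5 h3 (abs_nonneg _) (by positivity)
        _ = _ := by field_simp
    refine (abs_sub _ _).trans ((add_le_add ((abs_sub _ _).trans (add_le_add h4 h2)) h6).trans ?_)
    have e2 : β * 2 ^ g j + r * (K * β) * 2 ^ g j + r * K ^ 2 * β * 2 ^ g j =
        (1 + r * K + r * K ^ 2) * (β * 2 ^ g j) := by ring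
    have e3 : ((r : ℝ) + 1) * (1 + K) ^ 2 * β * 2 ^ g j =
        ((r + 1) * (1 + K) ^ 2) * (β * 2 ^ g j) := by ring
    rw [e2, e3]
    refine mul_le_mul_of_nonneg_right ?_ (by positivity)
    have f1 : 0 ≤ r * K := mul_nonneg hr0 hK
    have f2 : 0 ≤ r * K ^ 2 := by positivity
    nlinarith [sq_nonneg K]

/-- **The covector of the chain** in the dual basis of a near chain. -/
theorem sp_id {c : ℕ → Fin m} {S ψ : ℕ → Option (Fin m) → ℝ} {r l₀ a : ℕ} {g : ℕ → ℕ} {E : ℝ}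
    (hc : Set.InjOn c (Set.Iio r)) (hS : ∀ l, CvC c l (S l)) (hψ : ∀ l, CvC c l (ψ l))
    (hl₀ : l₀ ≤ r) {ρ : ℕ → ℝ}
    (hρ : ∀ j < l₀, |cv (S l₀ - ψ l₀) (dl c ψ r j) - ρ j| ≤ E * 2 ^ g j)
    {V : Option (Fin m) → ℝ} (hV : V none = 0) :
    |∑ j ∈ range l₀, (cv (ψ l₀) (dl c ψ r j) + ρ j) * (V (some (c j)) - cv (ψ j) V) -
      cv (S l₀) V| ≤ E * en c g a ψ l₀ V := by
  rw [cv_exp_dl hc hψ (hS l₀) hl₀ hV, ← Finset.sum_sub_distrib, en_eq, hV, abs_zero, mul_zero,
    zero_add, Finset.mul_sum]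
  refine (Finset.abs_sum_le_sum_abs _ _).trans (Finset.sum_le_sum fun j hj => ?_)
  have h1 := hρ j (Finset.mem_range.1 hj)
  rw [cv_subl] at h1
  rw [← sub_mul, abs_mul]
  calc _ = |cv (S l₀) (dl c ψ r j) - cv (ψ l₀) (dl c ψ r j) - ρ j| *
        |V (some (c j)) - cv (ψ j) V| := by
        congr 1
        rw [← abs_neg]
        congr 1
        ring
    _ ≤ E * 2 ^ g j * |V (some (c j)) - cv (ψ j) V| :=
        mul_le_mul_of_nonneg_right h1 (abs_nonneg _)
    _ = _ := by ring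

/-- The sum over the coordinates. -/
theorem sp_sum {c : ℕ → Fin m} {ψ : ℕ → Option (Fin m) → ℝ} {l₀ : ℕ}
    (hc : Set.InjOn c (Set.Iio l₀)) (hψ : ∀ l, CvC c l (ψ l)) (R : ℕ → ℝ)
    {V : Option (Fin m) → ℝ} (hV : V none = 0) :
    ∑ l ∈ range l₀, (∑ j ∈ range l₀, ((if j = l then 1 else 0) - ψ j (some (c l))) * R j) *
      V (some (c l)) = ∑ j ∈ range l₀, R j * (V (some (c j)) - cv (ψ j) V) := by
  have e1 : ∀ j ∈ range l₀, R j * (V (some (c j)) - cv (ψ j) V) =
      ∑ l ∈ range l₀, ((if j = l then 1 else 0) - ψ j (some (c l))) * R j * V (some (c l)) := by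
    intro j hj
    have hj' := Finset.mem_range.1 hj
    have hψj : CvC c l₀ (ψ j) := fun k hk => hψ j k fun i hi => hk i (by omega)
    rw [cv_eq hc hψj, hV, mul_zero, zero_add]
    have e2 : ∀ l ∈ range l₀, ((if j = l then (1 : ℝ) else 0) - ψ j (some (c l))) * R j *
        V (some (c l)) = (if j = l then R j * V (some (c l)) else 0) -
        R j * (ψ j (some (c l)) * V (some (c l))) := by
      intro l _
      split_ifs
      · ring
      · ring
    rw [Finset.sum_congr rfl e2, Finset.sum_sub_distrib, Finset.sum_ite_eq, if_pos hj,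
      ← Finset.mul_sum]
    ring
  rw [Finset.sum_congr rfl e1, Finset.sum_comm]
  refine Finset.sum_congr rfl fun l _ => ?_
  rw [Finset.sum_mul]

end Pool.KPO
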