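import Pool.Agent.H31.D2.Kp9
import Pool.Agent.H23.D2.Nbc

/-!
# The numbers of the class theorem

`KC`: the constants; `KR`: the levels of the record. `kap_fin`: the windows of the class theorem
are impossible.
-/

set_option autoImplicit false

namespace Pool.KPO

open Finset Real MvPolynomial
open Pool.Agent.H49.Ent Pool.Agent.H32.Dense Pool.STK Pool.KA Pool.KSAT Pool.K2S Pool.PB Pool.S6C
open Pool.GEN Pool.CHT Pool.CHX Pool.ISO Pool.D2F Pool.D2Z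
open Pool.D2R (dd hs nrm nrm_nonneg co co_slam Wins WinB ROutB winb_star natb_all)
open Pool.D2N (Dpw WFr)
open Pool.F5 (NatH LvT)
open Pool.LBT (ThrOf)

theorem nat_le2 {a b : ℕ} (h : (a : ℝ) ≤ b) : a ≤ b := by exact_mod_cast h

/-- A rational point. -/
theorem rat_in {x d : ℝ} (hd : 0 < d) : ∃ w : ℚ, x ≤ w ∧ (w : ℝ) ≤ x + d := by
  obtain ⟨w, h1, h2⟩ := exists_rat_btwn (show x < x + d by linarith)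
  exact ⟨w, h1.le, h2.le⟩

/-- **The constants.** -/
structure KC (Sl : ℕ → ℝ) (l₀ Cs Cn Cc Ck Nk m₃ m₀ n₁ : ℕ)
    (Cr Cw CB Cv γ s x' A' K cζ cυ cμ cX cn cT h₀ y ε : ℝ) : Prop where
  s0 : Sl 0 = 1
  sl : ∀ l ≤ 3, 1 ≤ Sl l ∧ Sl l ≤ s - 1
  s5 : 5 ≤ s
  γ0 : 0 < γ
  γ1 : γ ≤ 1
  γa : γ ≤ Sl 1 - 1
  γb : γ ≤ Sl 2 - 1
  γc : γ ≤ Sl 3 - 2
  γn : ∀ i < 3, i ≠ l₀ → γ ≤ |Sl 3 - 1 - Sl i|
  x0 : 0 < x'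
  sx : 8 * (s * x') ≤ γ
  eA : A' = 3 * s + 10
  eK : K = 3 * s + 20
  Cs1 : 1 ≤ Cs
  Cn1 : 1 ≤ Cn
  Cc1 : 1 ≤ Cc
  Ck1 : 1 ≤ Ck
  Cr1 : 1 ≤ Cr
  Nk4 : 4 * (s + 2) ≤ (Nk : ℝ)
  eζ : cζ = 3 * s * (Cs + 4)
  m3 : Cn * cζ + 1 ≤ m₃ * γ
  eυ : cυ = s * m₃ + Cn * cζ + 1
  eμ : cμ = Cn * cζ + 2 * cυ
  eX : cX = (Cc + 20) * (cμ + 3 * s + 1)
  en : cn = Ck * (3 * cX + 3 * s + 1)
  eT : cT = cn + m₃ + 1000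
  h0 : 0 < h₀
  hT : 1000 * (Cr * (cT * h₀)) ≤ x'
  hn : h₀ * n₁ = 1
  hm : h₀ * m₀ = x'
  m30 : 0 < m₃
  m30' : m₃ < m₀
  m0n : m₀ < n₁
  y0 : 0 < y
  yh : 16 * y ≤ h₀
  ε0 : 0 < ε
  εy : 16 * ε ≤ y
  Cwy : Cw * y ≤ h₀ / 4
  CBy : CB * y ≤ h₀ / 4
  Cvy : Cv * y ≤ h₀ / 4

/-- **The record in numbers.** -/
structure KR {m : ℕ} (S : PCl m) (P P₂ : List (Fin m) × Fin m → ℝ → ℝ → ℝ) (θ θ₂ : ℝ)
    (c : ℕ → Fin m) (L : ℕ → ℝ → ℝ → ℝ) (Sl : ℕ → ℝ) (l₀ m₀ n₁ : ℕ)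
    (Eb e₂ Eb' e' x' A' K h₀ ε q t : ℝ) (v v' : ℕ → ℝ) (W : ℕ → ℚ) (a w : ℚ) : Prop where
  ne : S.Ne
  thr : ThrOf (chsys m θ) S P
  thr₂ : ThrOf (chsys m θ₂) S P₂
  tmh : TmH S
  inj : Set.InjOn c (Set.Iio 4)
  q0 : 0 < q
  t0 : 0 < t - K * q
  t1 : t + K * q < 1
  Eb0 : 0 < Eb
  Ebe : Eb + 3 * K * q < e₂
  Eb0' : 0 < Eb'
  Ebe' : Eb' + 3 * K * q < e'
  v0 : v 0 = 0
  v1 : v 1 = 1
  v2 : v 2 = 2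
  v3 : v 3 = 1 + x'
  v4 : v 4 = 3
  v5 : ∀ j : ℕ, v (5 + j) = j * h₀
  vf : ∀ i : ℕ, v (kf n₁ m₀ i) = i * h₀
  vb : ∀ k ≤ 5 + 3 * n₁, 0 ≤ v k ∧ v k ≤ 3
  v'0 : v' 0 = 1 + x'
  v'1 : v' 1 = 3
  lv : ∀ l ≤ 3, ∀ p : ℝ, 0 ≤ p → p ≤ K →
      L l t t + Sl l * p * q - ε * q ≤ L l (t + p * q) (t + p * q) ∧
      L l (t + p * q) (t + p * q) ≤ L l t t + Sl l * p * q + ε * q
  low : ∀ l ≤ 3, t ≤ L l t t
  room : ∀ l ≤ 3, ∀ p : ℝ, 0 ≤ p → p ≤ K → L l (t + p * q) (t + p * q) + Eb + 3 * K * q < 1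
  room' : ∀ l ≤ l₀, ∀ p : ℝ, 0 ≤ p → p ≤ K →
      L l (t + p * q) (t + p * q) + Eb' + 3 * K * q < 1
  eth₂ : ∀ p : ℝ, 0 ≤ p → p ≤ K → ∀ z : ℝ, t + p * q ≤ z → e₂ < θ₂ * z
  eth' : ∀ p : ℝ, 0 ≤ p → p ≤ K → ∀ z : ℝ, t + p * q ≤ z → e' < θ * z
  stp : L 3 t t + 2 * A' * q - 2 * (ε * q) ≤ L 3 (t + A' * q) (t + v 0 * q)
  W : ∀ k ≤ 5 + 3 * n₁, t + v k * q ≤ W k ∧ (W k : ℝ) ≤ t + v k * q + h₀ * q ∧
      ∀ l ≤ 3, bet P₂ c l (W k) (W k) ≤ L l (t + v k * q) (t + v k * q) + h₀ * q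
  a1 : t + A' * q ≤ a
  a2 : (a : ℝ) ≤ t + A' * q + h₀ * q
  w1 : t + v' 0 * q ≤ w
  w2 : (w : ℝ) ≤ t + v' 0 * q + h₀ * q
  bt : bet P c l₀ a w ≤ L l₀ t t + Sl l₀ * (1 + x') * q + (A' - (1 + x')) * q + 2 * (ε * q) +
      h₀ * q

section

variable {Sl : ℕ → ℝ} {l₀ Cs Cn Cc Ck Nk m₃ m₀ n₁ : ℕ}
    {Cr Cw CB Cv γ s x' A' K cζ cυ cμ cX cn cT h₀ y ε : ℝ}

/-- The sizes of the constants. -/
theorem KC.siz (C : KC Sl l₀ Cs Cn Cc Ck Nk m₃ m₀ n₁ Cr Cw CB Cv γ s x' A' K cζ cυ cμ cX cn cT h₀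
    y ε) : 15 * s ≤ cζ ∧ cζ ≤ Cn * cζ ∧ 0 < (m₃ : ℝ) ∧ Cn * cζ + 1 ≤ cυ ∧
    21 * (cμ + 3 * s + 1) ≤ cX ∧ 3 * cX + 3 * s + 1 ≤ cn ∧ 1000 * (cT * h₀) ≤ x' ∧
    40 * x' ≤ γ ∧ 1000000 * h₀ ≤ x' ∧ 3 * Cs * s ≤ cζ := by
  have hs := C.s5
  have hCsR : (1 : ℝ) ≤ Cs := by exact_mod_cast C.Cs1
  have hCnR : (1 : ℝ) ≤ Cn := by exact_mod_cast C.Cn1
  have hCcR : (1 : ℝ) ≤ Cc := by exact_mod_cast C.Cc1
  have hCkR : (1 : ℝ) ≤ Ck := by exact_mod_cast C.Ck1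
  have e1 := C.eζ
  have e2 := C.m3
  have e3 := C.eυ
  have e4 := C.eμ
  have e5 := C.eX
  have e6 := C.en
  have e7 := C.eT
  have f1 : 15 * s ≤ cζ := by
    rw [e1]
    nlinarith
  have f2 : cζ ≤ Cn * cζ := le_mul_of_one_le_left (by linarith) hCnR
  have f3 : (0 : ℝ) < m₃ := by exact_mod_cast C.m30
  have f4 : Cn * cζ + 1 ≤ cυ := by
    rw [e3]
    have : 0 ≤ s * (m₃ : ℝ) := by positivity
    linarith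
  have f5 : 21 * (cμ + 3 * s + 1) ≤ cX := by
    rw [e5]
    exact mul_le_mul_of_nonneg_right (by linarith) (by linarith)
  have f6 : 3 * cX + 3 * s + 1 ≤ cn := by
    rw [e6]
    exact le_mul_of_one_le_left (by linarith) hCkR
  have f7 : cT * h₀ ≤ Cr * (cT * h₀) :=
    le_mul_of_one_le_left (mul_nonneg (by linarith) C.h0.le) C.Cr1
  have f8 := C.hT
  have f9 : 1000 * h₀ ≤ cT * h₀ := mul_le_mul_of_nonneg_right (by linarith) C.h0.le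
  refine ⟨f1, f2, f3, f4, f5, f6, by linarith, ?_, by linarith, ?_⟩
  · have := mul_le_mul_of_nonneg_right hs C.x0.le
    have := C.sx
    linarith
  · rw [e1]
    nlinarith

/-- The numbers of the record. -/
theorem KC.num (C : KC Sl l₀ Cs Cn Cc Ck Nk m₃ m₀ n₁ Cr Cw CB Cv γ s x' A' K cζ cυ cμ cX cn cT h₀
    y ε) : 0 < cζ ∧ 0 < cυ ∧ 0 < cμ ∧ 0 < cX ∧ 0 < cn ∧ 0 < cT ∧
    1000 * ((Cn * cζ + cυ) * h₀) ≤ x' ∧ 1000 * (cμ * h₀) ≤ x' ∧ 1000 * (cX * h₀) ≤ x' ∧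
    1000 * (Cr * (cn * h₀)) ≤ x' ∧ 1000 * (m₃ * h₀) ≤ x' ∧ 256 * ε ≤ h₀ ∧
    1000 * (Cs * s * h₀) ≤ x' ∧ 1000 * (s * h₀) ≤ x' := by
  obtain ⟨f1, f2, f3, f4, f5, f6, f7, f8, f9, f10⟩ := C.siz
  have hs := C.s5
  have e4 := C.eμ
  have e7 := C.eT
  have h0 := C.h0
  have g1 : 0 < cζ := by linarith
  have g2 : 0 < cυ := by linarith
  have g3 : 0 < cμ := by linarith
  have g4 : 0 < cX := by linarith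
  have g5 : 0 < cn := by linarith
  have g6 : 0 < cT := by linarith
  have key : ∀ {a : ℝ}, a ≤ cT → 1000 * (a * h₀) ≤ x' := fun h => by
    have := mul_le_mul_of_nonneg_right h h0.le
    linarith
  have hCs : 3 * (Cs * s) = 3 * Cs * s := by ring
  have k1 : 0 ≤ (Cs : ℝ) * s := by positivity
  refine ⟨g1, g2, g3, g4, g5, g6, key (by linarith), key (by linarith), key (by linarith), ?_,
    key (by linarith), ?_, key (by linarith), key (by linarith)⟩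
  · have h1 : cn * h₀ ≤ cT * h₀ := mul_le_mul_of_nonneg_right (by linarith) h0.le
    have h2 := mul_le_mul_of_nonneg_left h1 (show (0 : ℝ) ≤ Cr by linarith [C.Cr1])
    have := C.hT
    linarith
  · linarith [C.yh, C.εy]

end

end Pool.KPO
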