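import Pool.Agent.H31.D2.Kp10

/-!
# The levels at the main windows

`kap_nat`: the second derivatives of the ball charts at the windows `0`, `1`, `2`.
-/

set_option autoImplicit false

namespace Pool.KPO

open Finset Real MvPolynomial
open Pool.Agent.H49.Ent Pool.Agent.H32.Dense Pool.STK Pool.KA Pool.KSAT Pool.K2S Pool.PB Pool.S6C
open Pool.GEN Pool.CHT Pool.CHX Pool.ISO Pool.D2F Pool.D2Z
open Pool.D2R (dd hs nrm nrm_nonneg co co_slam Wins WinB ROutB winb_star natb_all)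
open Pool.D2N (Dpw WFr)
open Pool.F5 (NatH LvT)
open Pool.LBT (ThrOf)

/-- **The levels at the main windows.** -/
theorem kap_nat (m D : ℕ) (hD : 1 ≤ D) : ∃ Cn : ℕ, 1 ≤ Cn ∧
    ∀ {Sl : ℕ → ℝ} {l₀ Cs Cc Ck Nk m₃ m₀ n₁ Dr : ℕ}
    {Cr Cw CB Cv γ s x' A' K cζ cυ cμ cX cn cT h₀ y ε κ₀ : ℝ}
    {S : PCl m} {P P₂ : List (Fin m) × Fin m → ℝ → ℝ → ℝ} {θ θ₂ : ℝ}
    {c : ℕ → Fin m} {L : ℕ → ℝ → ℝ → ℝ} {Eb e₂ Eb' e' q t : ℝ} {v v' : ℕ → ℝ} {W : ℕ → ℚ}
    {a w : ℚ},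
    KC Sl l₀ Cs Cn Cc Ck Nk m₃ m₀ n₁ Cr Cw CB Cv γ s x' A' K cζ cυ cμ cX cn cT h₀ y ε →
    KR S P P₂ θ θ₂ c L Sl l₀ m₀ n₁ Eb e₂ Eb' e' x' A' K h₀ ε q t v v' W a w → D ≤ Dr →
    0 < κ₀ → ∃ κ' : ℝ, 0 < κ' ∧ Bas S (fun J F A => ∀ (z : ℕ → ℕ → ℕ) (κ : ℝ) (b : ℕ → ℕ → ℝ)
      (B : F.Ω → Prop) (g₀ : ℕ → ℕ → ℕ)
      (G : ℕ → PtT F → ℕ → MvPolynomial (Option (Fin m)) ℝ)
      (H : ℕ → LnT F → ℕ → MvPolynomial (Option (Fin m)) ℝ)
      (Sv : PtT F → ℕ → Option (Fin m) → ℝ) (B₁ : F.Ω → Prop),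
      WinB F c 3 D Dr (5 + 3 * n₁) 0 CB (t + A' * q) Eb (y * q) (fun k => t + v k * q)
        (fun _ => y * q) (fun _ => y * q) (fun k l => L l (t + v k * q) (t + v k * q)) b κ z B
        g₀ G H → κ ≤ κ' → Sub B A → Sub B₁ B → κ₀ * Pe F.p A ≤ Pe F.p B₁ →
      (∀ y l, CvC c l (Sv y l)) →
      (∀ ω, B₁ ω → ∀ i ≤ 3 * n₁, Nc c (g₀ (kf n₁ m₀ i)) ⌊(t + v (kf n₁ m₀ i) * q) * J⌋₊ 4
        (2 ^ ⌊cζ * h₀ * q * J⌋₊) (Sv (ptr F J ω))
        (fun l => grd (G (kf n₁ m₀ i) (ptr F J ω) l) (bt F ω))) →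
      ∃ B' : F.Ω → Prop, Sub B' B₁ ∧ Pe F.p B₁ ≤ (Cn : ℝ) ^ 17 * Pe F.p B' ∧
        ∀ k ≤ 2, ∀ l ≤ 3, NatH F c ⌊(t + v k * q) * J⌋₊ (g₀ k) B' (G k)
          ⌊cμ * h₀ * q * J⌋₊ l) := by
  obtain ⟨Cn, hCn, hnat⟩ := natb_all m D 3 hD (by norm_num)
  refine ⟨Cn, hCn, ?_⟩
  intro Sl l₀ Cs Cc Ck Nk m₃ m₀ n₁ Dr Cr Cw CB Cv γ s x' A' K cζ cυ cμ cX cn cT h₀ y ε κ₀ S P P₂ θ
    θ₂ c L Eb e₂ Eb' e' q t v v' W a w C R hDr hκ₀
  obtain ⟨f1, f2, f3, f4, f5, f6, f7, f8, f9, f10⟩ := C.siz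
  obtain ⟨g1, g2, g3, g4, g5, g6, g7, g8, g9, g10, g11, g12, g13, g14⟩ := C.num
  have hq := R.q0
  have hh0 := C.h0
  have hx0 := C.x0
  have hγ1 := C.γ1
  have hs5 := C.s5
  have hCnR : (1 : ℝ) ≤ Cn := by exact_mod_cast hCn
  have mq : ∀ {x z : ℝ}, x ≤ z → x * q ≤ z * q := fun h => mul_le_mul_of_nonneg_right h hq.le
  obtain ⟨u, hu⟩ : ∃ u : ℝ, u = h₀ * q := ⟨_, rfl⟩
  have hu0 : 0 < u := by rw [hu]; positivity
  obtain ⟨ζ, hζ⟩ : ∃ ζ : ℝ, ζ = cζ * h₀ * q := ⟨_, rfl⟩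
  obtain ⟨υ, hυ⟩ : ∃ υ : ℝ, υ = cυ * h₀ * q := ⟨_, rfl⟩
  have hζ0 : 0 < ζ := by rw [hζ]; positivity
  have hυ0 : 0 < υ := by rw [hυ]; positivity
  have hhζ : u ≤ ζ := by
    have : u * 1 ≤ u * cζ := mul_le_mul_of_nonneg_left (by linarith) hu0.le
    rw [hζ]
    rw [hu] at this ⊢
    linarith
  -- the small numbers
  have F1 : 1000 * (Cn * ζ + υ) ≤ x' * q := by
    have := mq g7
    rw [hζ, hυ]
    linarith
  have F2 : ε * q ≤ u / 256 := by
    have := mq g12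
    rw [hu]
    linarith
  have F3 : 1000000 * u ≤ x' * q := by
    have := mq f9
    rw [hu]
    linarith
  have F4 : 40 * (x' * q) ≤ γ * q := by
    have := mq f8
    linarith
  have F5 : γ * q ≤ q := by
    have := mq hγ1
    linarith
  have F6 : y * q ≤ u := by
    have := mq C.yh
    have h1 := mul_pos C.y0 hq
    rw [hu]
    linarith
  have F7 : CB * (y * q) ≤ u := by
    have := mq C.CBy
    rw [hu]
    have h1 : 0 < h₀ * q := mul_pos hh0 hq
    linarith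
  have hx'q : 0 < x' * q := mul_pos hx0 hq
  have hK : K = 3 * s + 20 := C.eK
  have hKq : K * q = 3 * (s * q) + 20 * q := by rw [hK]; ring
  have hsq : 5 * q ≤ s * q := mq hs5
  have ht0 := R.t0
  have ht1 := R.t1
  have hEbe := R.Ebe
  have hm3h : 1000 * (m₃ * h₀ * q) ≤ x' * q := by
    have := mq g11
    linarith
  have hm3h0 : 0 ≤ m₃ * h₀ * q := by positivity
  have hvq : ∀ k ≤ 5 + 3 * n₁, 0 ≤ v k * q ∧ v k * q ≤ 3 * q := fun k hk => by
    have h1 := R.vb k hk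
    exact ⟨mul_nonneg h1.1 hq.le, mq h1.2⟩
  have hvK : ∀ k ≤ 5 + 3 * n₁, v k ≤ K := fun k hk => by
    have h1 := (R.vb k hk).2
    linarith
  -- the lists
  obtain ⟨p0, hp0⟩ : ∃ p, p = 5 + m₃ := ⟨_, rfl⟩
  obtain ⟨p1, hp1⟩ : ∃ p, p = 5 + (n₁ + m₃) := ⟨_, rfl⟩
  obtain ⟨p2, hp2⟩ : ∃ p, p = 5 + (2 * n₁ + m₃) := ⟨_, rfl⟩
  obtain ⟨k0, k1, k2, k3, k4, k5, k6, k7⟩ := kf_val C.m30 C.m30' C.m0n
  have hmn := C.m30'
  have hmn' := C.m0n
  have hhn := C.hn
  have vp0 : v p0 = m₃ * h₀ := by rw [hp0, R.v5]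
  have vp1 : v p1 = 1 + m₃ * h₀ := by
    rw [hp1, R.v5]
    push_cast
    linarith
  have vp2 : v p2 = 2 + m₃ * h₀ := by
    rw [hp2, R.v5]
    push_cast
    linarith
  obtain ⟨LS, hLS⟩ : ∃ LS : List ℕ, LS = [0, 1, 2, 3, 4, p0, p1, p2] := ⟨_, rfl⟩
  obtain ⟨Ll, hLl⟩ : ∃ Ll : List ℕ, Ll = [0, 1, 2, p0, p1, p2] := ⟨_, rfl⟩
  obtain ⟨pb, hpb0, hpb1, hpb2⟩ : ∃ pb : ℕ → ℕ, pb 0 = p0 ∧ pb 1 = p1 ∧ pb 2 = p2 :=
    ⟨fun k => if k = 0 then p0 else if k = 1 then p1 else p2, by simp, by simp, by simp⟩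
  have hLSi : ∀ k ∈ LS, ∃ i ≤ 3 * n₁, k = kf n₁ m₀ i := by
    intro k hk
    rw [hLS] at hk
    simp only [List.mem_cons, List.not_mem_nil, or_false] at hk
    rcases hk with rfl | rfl | rfl | rfl | rfl | rfl | rfl | rfl
    · exact ⟨0, by omega, k0.symm⟩
    · exact ⟨n₁, by omega, k1.symm⟩
    · exact ⟨2 * n₁, by omega, k2.symm⟩
    · exact ⟨n₁ + m₀, by omega, k3.symm⟩
    · exact ⟨3 * n₁, le_rfl, k4.symm⟩
    · exact ⟨m₃, by omega, by rw [hp0, k5]⟩
    · exact ⟨n₁ + m₃, by omega, by rw [hp1, k6]⟩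
    · exact ⟨2 * n₁ + m₃, by omega, by rw [hp2, k7]⟩
  have hLSN : ∀ k ∈ LS, k ≤ 5 + 3 * n₁ := by
    intro k hk
    obtain ⟨i, hi, rfl⟩ := hLSi k hk
    exact kf_le hi
  have hLL : ∀ k ∈ Ll, k ∈ LS ∧ v k ≤ 2 + m₃ * h₀ := by
    have hm3h' : 0 ≤ m₃ * h₀ := by positivity
    intro k hk
    rw [hLl] at hk
    simp only [List.mem_cons, List.not_mem_nil, or_false] at hk
    rcases hk with rfl | rfl | rfl | rfl | rfl | rfl
    · exact ⟨by rw [hLS]; simp, by rw [R.v0]; linarith⟩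
    · exact ⟨by rw [hLS]; simp, by rw [R.v1]; linarith⟩
    · exact ⟨by rw [hLS]; simp, by rw [R.v2]; linarith⟩
    · exact ⟨by rw [hLS]; simp, by rw [vp0]; linarith⟩
    · exact ⟨by rw [hLS]; simp, by rw [vp1]; linarith⟩
    · exact ⟨by rw [hLS]; simp, by rw [vp2]⟩
  -- the levels
  have lvk : ∀ k ≤ 5 + 3 * n₁, ∀ l ≤ 3, L l t t + Sl l * v k * q - u / 256 ≤
      L l (t + v k * q) (t + v k * q) ∧ L l (t + v k * q) (t + v k * q) ≤
      L l t t + Sl l * v k * q + u / 256 := by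
    intro k hk l hl
    have h1 := R.lv l hl (v k) (R.vb k hk).1 (hvK k hk)
    constructor <;> linarith
  have lvk0 : ∀ k ≤ 5 + 3 * n₁, ∀ l ≤ 3, t - u / 256 ≤ L l (t + v k * q) (t + v k * q) ∧
      L l (t + v k * q) (t + v k * q) + Eb + 3 * (K * q) ≤ 1 := by
    intro k hk l hl
    have h1 := (lvk k hk l hl).1
    have h2 := R.room l hl (v k) (R.vb k hk).1 (hvK k hk)
    have h3 := R.low l hl
    have h4 : 0 ≤ Sl l * v k * q := by
      have := (C.sl l hl).1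
      have h5 := (hvq k hk).1
      rw [mul_assoc]
      exact mul_nonneg (by linarith) h5
    constructor <;> linarith
  obtain ⟨κn, hκn, hnat⟩ := hnat (S := S) (P := P₂) (θ := θ₂) (c := c) (C₀ := CB)
    (a := t + A' * q) (Eb := Eb) (ηm := y * q) (ζ := ζ) (υ := υ) (e := e₂) (h := u) (κ₀ := κ₀)
    (o := fun k => t + v k * q) (η := fun _ => y * q) (σ := fun _ => y * q)
    (lv := fun k l => L l (t + v k * q) (t + v k * q)) (Dr := Dr) (N := 5 + 3 * n₁) (M := 0) W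
    LS LS Ll [0, 1, 2] (fun _ => 4) pb R.thr₂ R.tmh R.inj hDr hu0 hhζ hυ0.le hκ₀
    (by linarith) (by linarith) hLSN (fun k hk => by
      have hk' := hLSN k hk
      have h1 := hvq k hk'
      refine ⟨hk, by linarith, fun l hl => ?_⟩
      have h2 := lvk0 k hk' l hl
      constructor <;> linarith) (fun k hk => by
      obtain ⟨h1, h2⟩ := hLL k hk
      have hk' := hLSN k h1
      obtain ⟨h3, h4, -⟩ := R.W k hk'
      have h5 := hvq k hk'
      refine ⟨h1, h3, ?_, ?_, R.eth₂ (v k) (R.vb k hk').1 (hvK k hk') _ h3⟩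
      · have : (0 : ℝ) ≤ W k := by linarith
        exact_mod_cast this
      · have : (W k : ℝ) < 1 := by linarith
        exact_mod_cast this) (fun k hk l hl _ => by
      obtain ⟨h1, h2⟩ := hLL k hk
      have hk' := hLSN k h1
      have h3 := (R.W k hk').2.2 l (by omega)
      have h4 := (lvk0 k hk' l (by omega)).2
      have h5 := R.Eb0
      constructor <;> linarith) (fun k hk l hl _ => by
      obtain ⟨h1, h2⟩ := hLL k hk
      have h4 := (lvk0 k (hLSN k h1) l (by omega)).2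
      linarith) (fun k hk l hl hl2 _ => by
      obtain ⟨h1, h2⟩ := hLL k hk
      refine ⟨by rw [hLS]; simp, ?_⟩
      have h3 := (lvk k (hLSN k h1) l (by omega)).2
      have h4 := (lvk 4 (by omega) l (by omega)).1
      have h5 : γ * ((3 - v k) * q) ≤ (Sl l - 1) * ((3 - v k) * q) := by
        refine mul_le_mul_of_nonneg_right ?_ ?_
        · have h6 := C.γa
          have h7 := C.γb
          interval_cases l
          · exact h6
          · exact h7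
        · have := (hvq k (hLSN k h1)).2
          linarith
      have h6 : γ * (1 / 2 * q) ≤ γ * ((3 - v k) * q) := by
        refine mul_le_mul_of_nonneg_left (mul_le_mul_of_nonneg_right ?_ hq.le) C.γ0.le
        linarith
      show L l (t + v k * q) (t + v k * q) - (t + v k * q) + Cn * ζ + υ ≤
        L l (t + v 4 * q) (t + v 4 * q) - (t + v 4 * q)
      rw [R.v4] at h4 ⊢
      linarith) (fun k hk => by
      simp only [List.mem_cons, List.not_mem_nil, or_false] at hk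
      have key : ∀ {k p : ℕ}, k ≤ 5 + 3 * n₁ → p ≤ 5 + 3 * n₁ → v p = v k + m₃ * h₀ →
          t + v k * q ≤ t + v p * q ∧
          L 1 (t + v p * q) (t + v p * q) - L 0 (t + v p * q) (t + v p * q) + Cn * ζ ≤
            L 1 (t + v k * q) (t + v k * q) - L 0 (t + v k * q) (t + v k * q) + υ ∧
          ∀ l < 2, L (l + 1) (t + v k * q) (t + v k * q) - L 0 (t + v k * q) (t + v k * q) +
            Cn * ζ ≤ L (l + 1) (t + v p * q) (t + v p * q) -
              L 0 (t + v p * q) (t + v p * q) := by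
        intro k p hk hp hvp
        have h1 := lvk k hk
        have h2 := lvk p hp
        have e1 : v p * q = v k * q + m₃ * h₀ * q := by rw [hvp]; ring
        have s0 := C.s0
        have h30 := h1 0 (by norm_num)
        have h31 := h1 1 (by norm_num)
        have h40 := h2 0 (by norm_num)
        have h41 := h2 1 (by norm_num)
        have e2 : ∀ l, Sl l * v p * q = Sl l * v k * q + Sl l * (m₃ * h₀ * q) := fun l => by
          rw [mul_assoc, e1]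
          ring
        rw [e2, s0] at h40
        rw [e2] at h41
        rw [s0] at h30
        refine ⟨by linarith, ?_, fun l hl => ?_⟩
        · have h5 : Sl 1 * (m₃ * h₀ * q) ≤ s * (m₃ * h₀ * q) :=
            mul_le_mul_of_nonneg_right (by linarith [(C.sl 1 (by norm_num)).2]) hm3h0
          have h6 : υ = s * (m₃ * h₀ * q) + Cn * ζ + u := by
            rw [hυ, hζ, hu, C.eυ]
            ring
          linarith
        · have h51 := h1 (l + 1) (by omega)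
          have h61 := h2 (l + 1) (by omega)
          rw [e2] at h61
          have h7 : γ ≤ Sl (l + 1) - 1 := by
            have h8 := C.γa
            have h9 := C.γb
            interval_cases l
            · exact h8
            · exact h9
          have h8 : γ * (m₃ * h₀ * q) ≤ (Sl (l + 1) - 1) * (m₃ * h₀ * q) :=
            mul_le_mul_of_nonneg_right h7 hm3h0
          have h9 : Cn * ζ + u ≤ γ * (m₃ * h₀ * q) := by
            have h10 := mul_le_mul_of_nonneg_right C.m3 hu0.le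
            rw [hζ]
            rw [hu] at h10 ⊢
            linarith
          linarith
      rcases hk with rfl | rfl | rfl
      · obtain ⟨j1, j2, j3⟩ := key (k := 0) (p := p0) (by omega) (by omega)
          (by rw [vp0, R.v0, zero_add])
        exact ⟨le_rfl, by rw [hLl]; simp, by rw [hLl, hpb0]; simp, by rw [hpb0]; exact j1,
          by rw [hpb0]; exact j2, by rw [hpb0]; exact j3⟩
      · obtain ⟨j1, j2, j3⟩ := key (k := 1) (p := p1) (by omega) (by omega)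
          (by rw [vp1, R.v1])
        exact ⟨le_rfl, by rw [hLl]; simp, by rw [hLl, hpb1]; simp, by rw [hpb1]; exact j1,
          by rw [hpb1]; exact j2, by rw [hpb1]; exact j3⟩
      · obtain ⟨j1, j2, j3⟩ := key (k := 2) (p := p2) (by omega) (by omega)
          (by rw [vp2, R.v2])
        exact ⟨le_rfl, by rw [hLl]; simp, by rw [hLl, hpb2]; simp, by rw [hpb2]; exact j1,
          by rw [hpb2]; exact j2, by rw [hpb2]; exact j3⟩)
  refine ⟨κn, hκn, Bas.mono 0 hnat ?_⟩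
  rintro J - F A hA z κ b B g₀ G H Sv B₁ Wb hκ hBA hB₁ hP hSd hSt
  have hJ : (0 : ℝ) ≤ J := Nat.cast_nonneg J
  obtain ⟨B', b1, b2, -, b4, b5⟩ := hA z κ b B g₀ G H Sv B₁ Wb hκ hBA hB₁ hP hSd
    (fun ω hω k hk => by
      obtain ⟨i, hi, rfl⟩ := hLSi k hk
      rw [hζ]
      exact hSt ω hω i hi)
  refine ⟨B', b1, ?_, fun k hk l hl => ?_⟩
  · rw [hLS, hLl] at b2
    exact b2
  have hk3 : k ∈ [0, 1, 2] := by
    simp only [List.mem_cons, List.not_mem_nil, or_false]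
    omega
  have hkL : k ∈ Ll := by
    rw [hLl]
    simp only [List.mem_cons, List.not_mem_nil, or_false]
    omega
  have eμ : (Cn : ℝ) * ζ + 2 * υ = cμ * h₀ * q := by
    rw [hζ, hυ, C.eμ]
    ring
  rcases Nat.lt_or_ge l 3 with h | h
  · obtain ⟨ψ, ψH, -, -, h3⟩ := b4 k hkL
    refine (h3 l (by omega) (by omega)).sub (fun _ h => h) (Nat.floor_le_floor
      (mul_le_mul_of_nonneg_right ?_ hJ))
    linarith
  · rw [show l = 3 by omega]
    refine (b5 k hk3).sub (fun _ h => h) (Nat.floor_le_floor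
      (mul_le_mul_of_nonneg_right eμ.le hJ))

end Pool.KPO
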