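import Pool.Agent.H31.D2.Kp11

/-!
# The numbers of the class theorem, times `J`

`KJ`: the numbers; `kj_of`: from the constants and the record.
-/

set_option autoImplicit false

namespace Pool.KPO

open Finset Real MvPolynomial
open Pool.Agent.H49.Ent Pool.Agent.H32.Dense Pool.STK Pool.KA Pool.KSAT Pool.K2S Pool.PB Pool.S6C
open Pool.GEN Pool.CHT Pool.CHX Pool.ISO Pool.D2F Pool.D2Z
open Pool.D2R (dd hs nrm nrm_nonneg co co_slam Wins WinB ROutB winb_star natb_all)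
open Pool.D2N (Dpw WFr)
open Pool.F5 (NatH LvT)
open Pool.LBT (ThrOf)

theorem floor_bd {x : ℝ} (hx : 0 ≤ x) : (⌊x⌋₊ : ℝ) ≤ x ∧ x - 1 ≤ ⌊x⌋₊ :=
  ⟨Nat.floor_le hx, by linarith [Nat.lt_floor_add_one x]⟩

/-- **The numbers, times** `J`. -/
structure KJ (Sl : ℕ → ℝ) (L : ℕ → ℝ → ℝ → ℝ) (Cs n₁ Ch J : ℕ)
    (Cw CB Cv γ s x' A' cζ cμ cX cn h₀ y q t Eb e₂ ζ u X : ℝ) (v v' : ℕ → ℝ)
    (ξ Q xQ tJ EJ gQ sQ : ℝ) (Λ σ : ℕ → ℝ) : Prop where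
  eu : u = h₀ * q
  eX : X = x' * q
  eξ : ξ = u * J
  eQ : Q = q * J
  exQ : xQ = X * J
  etJ : tJ = t * J
  eEJ : EJ = Eb * J
  egQ : gQ = γ * q * J
  esQ : sQ = s * q * J
  eΛ : Λ = fun l => L l t t * J
  eσ : σ = fun l => Sl l * q * J
  ξl : 1000 + Ch + 3 * (n₁ : ℝ) ≤ ξ
  EJ0 : 0 ≤ EJ
  v1 : 1000000 * ξ ≤ xQ
  v2 : 40 * xQ ≤ gQ
  v3 : gQ ≤ Q
  v4 : 5 * Q ≤ sQ
  v5 : 3 * sQ + 20 * Q ≤ tJ
  v6 : 5 * ξ ≤ s * ξ
  v7 : 1000 * (s * ξ) ≤ xQ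
  v8 : 1000 * (Cs * s * ξ) ≤ xQ
  v9 : Cw * (y * q * J) ≤ ξ / 4
  v10 : CB * (y * q * J) ≤ ξ / 4
  v11 : Cv * (y * q * J) ≤ ξ / 4
  v12 : 16 * (y * q * J) ≤ ξ
  v13 : 0 ≤ y * q * J
  v14 : 1000 * (cμ * ξ) ≤ xQ
  v15 : 1000 * (cX * ξ) ≤ xQ
  v16 : 10 * (cn * ξ) ≤ ζ * J
  v17 : 100 * (ζ * J) ≤ xQ
  v18 : 8 * (s * xQ) ≤ gQ
  σb : ∀ l ≤ 3, Q ≤ σ l ∧ σ l ≤ sQ - Q
  lvJ : ∀ k ≤ 5 + 3 * n₁, ∀ l ≤ 3, Λ l + v k * σ l - ξ / 256 ≤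
        L l (t + v k * q) (t + v k * q) * J ∧
        L l (t + v k * q) (t + v k * q) * J ≤ Λ l + v k * σ l + ξ / 256
  rmJ : ∀ k ≤ 5 + 3 * n₁, ∀ l ≤ 3, L l (t + v k * q) (t + v k * q) * J + EJ +
        9 * sQ + 60 * Q ≤ J
  lwJ : ∀ l ≤ 3, tJ ≤ Λ l
  aJ : (t + A' * q) * J = tJ + 3 * sQ + 10 * Q
  oJ : ∀ k, (t + v k * q) * J = tJ + v k * Q
  oJ' : ∀ k, (t + v' k * q) * J = tJ + v' k * Q
  xQ' : xQ = x' * Q
  ζμ : cζ ≤ cμ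
  pJ : Λ 3 + 6 * sQ + 20 * Q - ξ / 128 ≤ L 3 (t + A' * q) (t + v 0 * q) * J
  veb : EJ + 60 * Q ≤ e₂ * J
  aJ1 : t + A' * q ≤ 1
  hJ0 : (0 : ℝ) ≤ J

/-- The numbers from the constants and the record. -/
theorem kj_of {m : ℕ} {Sl : ℕ → ℝ} {l₀ Cs Cn Cc Ck Nk m₃ m₀ n₁ : ℕ} (Ch : ℕ)
    {Cr Cw CB Cv γ s x' A' K cζ cυ cμ cX cn cT h₀ y ε : ℝ}
    {S : PCl m} {P P₂ : List (Fin m) × Fin m → ℝ → ℝ → ℝ} {θ θ₂ : ℝ}
    {c : ℕ → Fin m} {L : ℕ → ℝ → ℝ → ℝ} {Eb e₂ Eb' e' q t : ℝ} {v v' : ℕ → ℝ} {W : ℕ → ℚ}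
    {a w : ℚ}
    (C : KC Sl l₀ Cs Cn Cc Ck Nk m₃ m₀ n₁ Cr Cw CB Cv γ s x' A' K cζ cυ cμ cX cn cT
      h₀ y ε)
    (R : KR S P P₂ θ θ₂ c L Sl l₀ m₀ n₁ Eb e₂ Eb' e' x' A' K h₀ ε q t v v' W a w) : ∃ J₁ : ℕ,
    ∀ J : ℕ, J₁ ≤ J → ∃ (u X ζ ξ Q xQ tJ EJ gQ sQ : ℝ) (Λ σ : ℕ → ℝ), ζ = X / (100 * Cr) ∧
      KJ Sl L Cs n₁ Ch J Cw CB Cv γ s x' A' cζ cμ cX cn h₀ y q t Eb e₂ ζ u X v v' ξ Q xQ tJ EJ gQ
        sQ Λ σ := by
  have hCr := C.Cr1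
  obtain ⟨f1, f2, f3, f4, f5, f6, f7, f8, f9, f10⟩ := C.siz
  obtain ⟨g1, g2, g3, g4, g5, g6, g7, g8, g9, g10, g11, g12, g13, g14⟩ := C.num
  have hq := R.q0
  have hh0 := C.h0
  have hx0 := C.x0
  have hγ1 := C.γ1
  have hs5 := C.s5
  have hCr0 : 0 < Cr := by linarith
  have mq : ∀ {x z : ℝ}, x ≤ z → x * q ≤ z * q := fun h => mul_le_mul_of_nonneg_right h hq.le
  obtain ⟨u, hu⟩ : ∃ u : ℝ, u = h₀ * q := ⟨_, rfl⟩
  have hu0 : 0 < u := by rw [hu]; positivity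
  obtain ⟨X, hX⟩ : ∃ X : ℝ, X = x' * q := ⟨_, rfl⟩
  have hX0 : 0 < X := by rw [hX]; positivity
  have F2 : ε * q ≤ u / 256 := by
    have := mq g12
    rw [hu]
    linarith
  have hεq : 0 < ε * q := mul_pos C.ε0 hq
  have F3 : 1000000 * u ≤ X := by
    have := mq f9
    rw [hu, hX]
    linarith
  have F4 : 40 * X ≤ γ * q := by
    have := mq f8
    rw [hX]
    linarith
  have F5 : γ * q ≤ q := by
    have := mq hγ1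
    linarith
  have F6 : 16 * (y * q) ≤ u := by
    have := mq C.yh
    rw [hu]
    linarith
  have hyq : 0 < y * q := mul_pos C.y0 hq
  have F7 : 4 * (CB * (y * q)) ≤ u := by
    have := mq C.CBy
    rw [hu]
    linarith
  have F8 : 4 * (Cw * (y * q)) ≤ u := by
    have := mq C.Cwy
    rw [hu]
    linarith
  have F9 : 4 * (Cv * (y * q)) ≤ u := by
    have := mq C.Cvy
    rw [hu]
    linarith
  have hK : K = 3 * s + 20 := C.eK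
  have hA : A' = 3 * s + 10 := C.eA
  have hKq : K * q = 3 * (s * q) + 20 * q := by rw [hK]; ring
  have hAq : A' * q = 3 * (s * q) + 10 * q := by rw [hA]; ring
  have hsq : 5 * q ≤ s * q := mq hs5
  have ht0 := R.t0
  have ht1 := R.t1
  have hEbe := R.Ebe
  have hEbe' := R.Ebe'
  have hEb0 := R.Eb0
  have hEb0' := R.Eb0'
  -- the parameters of the end
  obtain ⟨ζ, hζ⟩ : ∃ ζ : ℝ, ζ = X / (100 * Cr) := ⟨_, rfl⟩
  have hζ0 : 0 < ζ := by rw [hζ]; positivity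
  have hCrζ : Cr * ζ = X / 100 := by
    rw [hζ]
    field_simp
  have hζX : ζ ≤ X / 100 := by
    rw [← hCrζ]
    exact le_mul_of_one_le_left hζ0.le hCr
  have hcnζ : 10 * (cn * u) ≤ ζ := by
    rw [hζ, le_div_iff₀ (by positivity)]
    have := mq g10
    rw [hX, hu]
    linarith
  have hcn1 : 16 ≤ cn := by linarith
  have huζ : 160 * u ≤ ζ := by
    have := mul_le_mul_of_nonneg_right hcn1 hu0.le
    linarith
  obtain ⟨J₁, hJ₁⟩ := exists_nat_ge ((1000 + Ch + 3 * (n₁ : ℝ)) / u)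
  refine ⟨J₁, fun J hJ => ?_⟩
  have hJ0 : (0 : ℝ) ≤ J := Nat.cast_nonneg J
  have mJ : ∀ {y z : ℝ}, y ≤ z → y * J ≤ z * J := fun h => mul_le_mul_of_nonneg_right h hJ0
  obtain ⟨ξ, hξ⟩ : ∃ ξ : ℝ, ξ = u * J := ⟨_, rfl⟩
  have hξl : 1000 + Ch + 3 * (n₁ : ℝ) ≤ ξ := by
    have h2 : (J₁ : ℝ) ≤ J := by exact_mod_cast hJ
    have h3 := hJ₁.trans h2
    rw [div_le_iff₀ hu0] at h3
    rw [hξ]
    linarith
  have hChR : (0 : ℝ) ≤ Ch := Nat.cast_nonneg _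
  have hn₁R : (0 : ℝ) ≤ n₁ := Nat.cast_nonneg _
  have hξ1 : 1000 ≤ ξ := by linarith
  obtain ⟨Q, hQ⟩ : ∃ Q : ℝ, Q = q * J := ⟨_, rfl⟩
  obtain ⟨xQ, hxQ⟩ : ∃ xQ : ℝ, xQ = X * J := ⟨_, rfl⟩
  obtain ⟨tJ, htJ⟩ : ∃ tJ : ℝ, tJ = t * J := ⟨_, rfl⟩
  obtain ⟨EJ, hEJ⟩ : ∃ EJ : ℝ, EJ = Eb * J := ⟨_, rfl⟩
  obtain ⟨gQ, hgQ⟩ : ∃ gQ : ℝ, gQ = γ * q * J := ⟨_, rfl⟩
  obtain ⟨sQ, hsQ⟩ : ∃ sQ : ℝ, sQ = s * q * J := ⟨_, rfl⟩
  obtain ⟨Λ, hΛ⟩ : ∃ Λ : ℕ → ℝ, Λ = fun l => L l t t * J := ⟨_, rfl⟩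
  obtain ⟨σ, hσ⟩ : ∃ σ : ℕ → ℝ, σ = fun l => Sl l * q * J := ⟨_, rfl⟩
  have hEJ0 : 0 ≤ EJ := by rw [hEJ]; positivity
  have v1 : 1000000 * ξ ≤ xQ := by
    have := mJ F3
    rw [hξ, hxQ]
    linarith
  have v2 : 40 * xQ ≤ gQ := by
    have := mJ F4
    rw [hxQ, hgQ]
    linarith
  have v3 : gQ ≤ Q := by
    have := mJ F5
    rw [hQ, hgQ]
    linarith
  have v4 : 5 * Q ≤ sQ := by
    have := mJ hsq
    rw [hQ, hsQ]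
    linarith
  have v5 : 3 * sQ + 20 * Q ≤ tJ := by
    have h1 : K * q ≤ t := by linarith
    have := mJ h1
    rw [hKq] at this
    rw [hsQ, hQ, htJ]
    linarith
  have v6 : 5 * ξ ≤ s * ξ := mul_le_mul_of_nonneg_right hs5 (by linarith)
  have v7 : 1000 * (s * ξ) ≤ xQ := by
    have := mJ (mq g14)
    rw [hξ, hxQ, hu, hX]
    linarith
  have v8 : 1000 * (Cs * s * ξ) ≤ xQ := by
    have := mJ (mq g13)
    rw [hξ, hxQ, hu, hX]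
    linarith
  have v9 : Cw * (y * q * J) ≤ ξ / 4 := by
    have := mJ F8
    rw [hξ]
    linarith
  have v10 : CB * (y * q * J) ≤ ξ / 4 := by
    have := mJ F7
    rw [hξ]
    linarith
  have v11 : Cv * (y * q * J) ≤ ξ / 4 := by
    have := mJ F9
    rw [hξ]
    linarith
  have v12 : 16 * (y * q * J) ≤ ξ := by
    have := mJ F6
    rw [hξ]
    linarith
  have v13 : 0 ≤ y * q * J := by positivity
  have v14 : 1000 * (cμ * ξ) ≤ xQ := by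
    have := mJ (mq g8)
    rw [hξ, hxQ, hu, hX]
    linarith
  have v15 : 1000 * (cX * ξ) ≤ xQ := by
    have := mJ (mq g9)
    rw [hξ, hxQ, hu, hX]
    linarith
  have v16 : 10 * (cn * ξ) ≤ ζ * J := by
    have := mJ hcnζ
    rw [hξ]
    linarith
  have v17 : 100 * (ζ * J) ≤ xQ := by
    have := mJ hζX
    rw [hxQ]
    linarith
  have v18 : 8 * (s * xQ) ≤ gQ := by
    have := mJ (mq C.sx)
    rw [hgQ, hxQ, hX]
    linarith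
  have σb : ∀ l ≤ 3, Q ≤ σ l ∧ σ l ≤ sQ - Q := fun l hl => by
    obtain ⟨h1, h2⟩ := C.sl l hl
    have h3 := mJ (mq h1)
    have h4 := mJ (mq h2)
    rw [hσ, hQ, hsQ]
    beta_reduce
    constructor <;> linarith
  -- the levels
  have lvJ : ∀ k ≤ 5 + 3 * n₁, ∀ l ≤ 3, Λ l + v k * σ l - ξ / 256 ≤
      L l (t + v k * q) (t + v k * q) * J ∧
      L l (t + v k * q) (t + v k * q) * J ≤ Λ l + v k * σ l + ξ / 256 := by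
    intro k hk l hl
    obtain ⟨h1, h2⟩ := R.vb k hk
    obtain ⟨h3, h4⟩ := R.lv l hl (v k) h1 (by linarith)
    have h5 := mJ h3
    have h6 := mJ h4
    have h7 := mJ F2
    rw [hΛ, hσ, hξ]
    beta_reduce
    constructor <;> linarith
  have rmJ : ∀ k ≤ 5 + 3 * n₁, ∀ l ≤ 3, L l (t + v k * q) (t + v k * q) * J + EJ +
      9 * sQ + 60 * Q ≤ J := by
    intro k hk l hl
    obtain ⟨h1, h2⟩ := R.vb k hk
    have h3 := mJ (R.room l hl (v k) h1 (by linarith)).le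
    have e1 : (L l (t + v k * q) (t + v k * q) + Eb + 3 * K * q) * J =
        L l (t + v k * q) (t + v k * q) * J + Eb * J + 3 * (K * q) * J := by ring
    rw [e1, hKq, one_mul] at h3
    rw [hEJ, hsQ, hQ]
    linarith
  have lwJ : ∀ l ≤ 3, tJ ≤ Λ l := fun l hl => by
    have := mJ (R.low l hl)
    rw [hΛ, htJ]
    exact this
  have aJ : (t + A' * q) * J = tJ + 3 * sQ + 10 * Q := by
    have e1 : (t + A' * q) * J = t * J + A' * q * J := by ring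
    rw [e1, hAq, htJ, hsQ, hQ]
    ring
  have oJ : ∀ k, (t + v k * q) * J = tJ + v k * Q := fun k => by
    rw [htJ, hQ]
    ring
  have oJ' : ∀ k, (t + v' k * q) * J = tJ + v' k * Q := fun k => by
    rw [htJ, hQ]
    ring
  have hxQ' : xQ = x' * Q := by rw [hxQ, hX, hQ]; ring
  have hcζμ : cζ ≤ cμ := by
    have := C.eμ
    linarith
  have pJ : Λ 3 + 6 * sQ + 20 * Q - ξ / 128 ≤ L 3 (t + A' * q) (t + v 0 * q) * J := by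
    have h1 := mJ R.stp
    have h2 := mJ F2
    have e1 : (L 3 t t + 2 * A' * q - 2 * (ε * q)) * J =
        L 3 t t * J + 2 * (A' * q) * J - 2 * (ε * q * J) := by ring
    have e2 : 2 * (A' * q) * J = 6 * (s * q * J) + 20 * (q * J) := by rw [hAq]; ring
    rw [e1, e2] at h1
    rw [hΛ, hξ, hsQ, hQ]
    beta_reduce
    linarith
  have veb : EJ + 60 * Q ≤ e₂ * J := by
    have h1 := mJ hEbe.le
    have e1 : (Eb + 3 * K * q) * J = Eb * J + 3 * (K * q) * J := by ring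
    rw [e1, hKq] at h1
    have h2 : 0 ≤ s * q * J := by positivity
    rw [hEJ, hQ]
    linarith
  have aJ1 : (t + A' * q) ≤ 1 := by linarith
  exact ⟨u, X, ζ, ξ, Q, xQ, tJ, EJ, gQ, sQ, Λ, σ, hζ, hu, hX, hξ, hQ, hxQ, htJ, hEJ, hgQ, hsQ, hΛ,
    hσ, hξl, hEJ0, v1, v2, v3, v4, v5, v6, v7, v8, v9, v10, v11, v12, v13, v14, v15, v16, v17, v18,
    σb, lvJ, rmJ, lwJ, aJ, oJ, oJ', hxQ', hcζμ, pJ, veb, aJ1, hJ0⟩

end Pool.KPO
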