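import Pool.Agent.H31.D2.Kp12

/-!
# The hypotheses of the end

`kr_nums`: the real numbers of `kend` from the constants and the record.
-/

set_option autoImplicit false

namespace Pool.KPO

open Finset Real MvPolynomial
open Pool.Agent.H49.Ent Pool.Agent.H32.Dense Pool.STK Pool.KA Pool.KSAT Pool.K2S Pool.PB Pool.S6C
open Pool.GEN Pool.CHT Pool.CHX Pool.ISO Pool.D2F Pool.D2Z
open Pool.D2R (dd hs nrm nrm_nonneg co co_slam Wins WinB ROutB winb_star natb_all)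
open Pool.D2N (Dpw WFr)
open Pool.F5 (NatH LvT)
open Pool.LBT (ThrOf)

/-- **The real numbers of the end.** -/
theorem kr_nums {m : ℕ} {Sl : ℕ → ℝ} {l₀ Cs Cn Cc Ck Nk m₃ m₀ n₁ : ℕ}
    {Cr Cw CB Cv γ s x' A' K cζ cυ cμ cX cn cT h₀ y ε : ℝ}
    {S : PCl m} {P P₂ : List (Fin m) × Fin m → ℝ → ℝ → ℝ} {θ θ₂ : ℝ}
    {c : ℕ → Fin m} {L : ℕ → ℝ → ℝ → ℝ} {Eb e₂ Eb' e' q t : ℝ} {v v' : ℕ → ℝ} {W : ℕ → ℚ}
    {a w : ℚ} {u X ζ : ℝ} (hl1 : 1 ≤ l₀) (hl3 : l₀ < 3)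
    (C : KC Sl l₀ Cs Cn Cc Ck Nk m₃ m₀ n₁ Cr Cw CB Cv γ s x' A' K cζ cυ cμ cX cn cT
      h₀ y ε)
    (R : KR S P P₂ θ θ₂ c L Sl l₀ m₀ n₁ Eb e₂ Eb' e' x' A' K h₀ ε q t v v' W a w)
    (hu : u = h₀ * q) (hX : X = x' * q) (hζ : ζ = X / (100 * Cr)) :
    ((w : ℝ) ≤ t + v' 0 * q + ζ ∧ (a : ℝ) ≤ t + A' * q + ζ ∧ 0 ≤ w ∧ w ≤ a ∧ a ≤ 1 ∧ w < 1 ∧
    e' < θ * w ∧ 0 < u ∧ 0 < ζ ∧ Cv * (y * q) ≤ ζ ∧ bet P c l₀ a w + u ≤ 1 ∧
    Eb' + Cr * ζ ≤ e') ∧
    (bet P c l₀ a w + u + Cr * ζ ≤ L l₀ (t + v' 0 * q) (t + v' 0 * q) + X / 10 + (a - w) ∧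
    bet P c l₀ a w + u + Cr * ζ ≤ L l₀ (t + v' 1 * q) (t + v' 1 * q) - (t + v' 1 * q - w) +
      (a - w) ∧
    bet P c l₀ a w + u + Cr * ζ + u ≤ L l₀ (t + v' 0 * q) (t + v' 0 * q) + 2 * (a - w) ∧
    u + Cr * ζ ≤ a - w ∧
    (∀ l ≤ l₀, Eb' + L l (t + v' 0 * q) (t + v' 0 * q) + 2 * (a - w) + Cr * ζ ≤ 1) ∧
    bet P c l₀ a w + u ≤ L l₀ (t + v' 0 * q) (t + v' 0 * q) + (a - w) + ζ) ∧
    0 ≤ W 1 ∧ W 1 < 1 ∧ e₂ < θ₂ * W 1 ∧ bet P₂ c 0 (W 1) (W 1) + u ≤ 1 ∧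
    bet P₂ c 3 (W 1) (W 1) + u ≤ 1 := by
  have hCr := C.Cr1
  obtain ⟨f1, f2, f3, f4, f5, f6, f7, f8, f9, f10⟩ := C.siz
  obtain ⟨g1, g2, g3, g4, g5, g6, g7, g8, g9, g10, g11, g12, g13, g14⟩ := C.num
  have hq := R.q0
  have hh0 := C.h0
  have hx0 := C.x0
  have hγ1 := C.γ1
  have hs5 := C.s5
  have hCr0 : 0 < Cr := by linarith
  have mq : ∀ {x z : ℝ}, x ≤ z → x * q ≤ z * q := fun h => mul_le_mul_of_nonneg_right h hq.le
  have hu0 : 0 < u := by rw [hu]; positivity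
  have hX0 : 0 < X := by rw [hX]; positivity
  have F2 : ε * q ≤ u / 256 := by
    have := mq g12
    rw [hu]
    linarith
  have hεq : 0 < ε * q := mul_pos C.ε0 hq
  have F3 : 1000000 * u ≤ X := by
    have := mq f9
    rw [hu, hX]
    linarith
  have F4 : 40 * X ≤ γ * q := by
    have := mq f8
    rw [hX]
    linarith
  have F5 : γ * q ≤ q := by
    have := mq hγ1
    linarith
  have F6 : 16 * (y * q) ≤ u := by
    have := mq C.yh
    rw [hu]
    linarith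
  have hyq : 0 < y * q := mul_pos C.y0 hq
  have F7 : 4 * (CB * (y * q)) ≤ u := by
    have := mq C.CBy
    rw [hu]
    linarith
  have F8 : 4 * (Cw * (y * q)) ≤ u := by
    have := mq C.Cwy
    rw [hu]
    linarith
  have F9 : 4 * (Cv * (y * q)) ≤ u := by
    have := mq C.Cvy
    rw [hu]
    linarith
  have hK : K = 3 * s + 20 := C.eK
  have hA : A' = 3 * s + 10 := C.eA
  have hKq : K * q = 3 * (s * q) + 20 * q := by rw [hK]; ring
  have hAq : A' * q = 3 * (s * q) + 10 * q := by rw [hA]; ring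
  have hsq : 5 * q ≤ s * q := mq hs5
  have ht0 := R.t0
  have ht1 := R.t1
  have hEbe := R.Ebe
  have hEbe' := R.Ebe'
  have hEb0 := R.Eb0
  have hEb0' := R.Eb0'
  have hv'0 : v' 0 * q = q + X := by rw [R.v'0, hX]; ring
  have hv'1 : v' 1 * q = 3 * q := by rw [R.v'1]
  -- the parameters of the end
  have hζ0 : 0 < ζ := by rw [hζ]; positivity
  have hCrζ : Cr * ζ = X / 100 := by
    rw [hζ]
    field_simp
  have hζX : ζ ≤ X / 100 := by
    rw [← hCrζ]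
    exact le_mul_of_one_le_left hζ0.le hCr
  have hcnζ : 10 * (cn * u) ≤ ζ := by
    rw [hζ, le_div_iff₀ (by positivity)]
    have := mq g10
    rw [hX, hu]
    linarith
  have hcn1 : 16 ≤ cn := by linarith
  have huζ : 160 * u ≤ ζ := by
    have := mul_le_mul_of_nonneg_right hcn1 hu0.le
    linarith
  have hsl0 := C.sl l₀ (by omega)
  have hslg : γ ≤ Sl l₀ - 1 := by
    rcases (show l₀ = 1 ∨ l₀ = 2 by omega) with h | h
    · rw [h]
      exact C.γa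
    · rw [h]
      exact C.γb
  have hgq2 : γ * q * (2 - x') ≤ (Sl l₀ - 1) * q * (2 - x') := by
    refine mul_le_mul_of_nonneg_right (mul_le_mul_of_nonneg_right hslg hq.le) ?_
    linarith
  have hgq1 : γ * q ≤ γ * q * (2 - x') := by
    refine le_mul_of_one_le_right (mul_nonneg C.γ0.le hq.le) ?_
    linarith
  have lv0 := R.lv l₀ (by omega) (1 + x') (by linarith) (by linarith)
  have lv1 := R.lv l₀ (by omega) 3 (by norm_num) (by linarith)
  have e10 : t + (1 + x') * q = t + v' 0 * q := by rw [R.v'0]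
  have e11 : t + 3 * q = t + v' 1 * q := by rw [R.v'1]
  rw [e10] at lv0
  rw [e11] at lv1
  have ha1 := R.a1
  have ha2 := R.a2
  have hw1 := R.w1
  have hw2 := R.w2
  have hbt := R.bt
  rw [← hu] at ha2 hw2 hbt
  have hW1 := (R.W 1 (by omega)).1
  have hW2 := (R.W 1 (by omega)).2.1
  have hW3 := R.W 1 (by omega)
  rw [R.v1] at hW1 hW2
  rw [← hu] at hW2
  refine ⟨⟨by linarith, by linarith, ?_, ?_, ?_, ?_,
    R.eth' (v' 0) (by rw [R.v'0]; linarith) (by rw [R.v'0]; linarith) _ R.w1, hu0, hζ0,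
    by linarith, ?_, by linarith⟩, ⟨by linarith, by linarith, by linarith, by linarith,
    fun l hl => ?_, by linarith⟩, ?_, ?_, R.eth₂ (v 1) (by rw [R.v1]; norm_num)
    (by rw [R.v1]; linarith) _ (R.W 1 (by omega)).1, ?_, ?_⟩
  · have : (0 : ℝ) ≤ w := by linarith
    exact_mod_cast this
  · have : (w : ℝ) ≤ a := by linarith
    exact_mod_cast this
  · have : (a : ℝ) ≤ 1 := by linarith
    exact_mod_cast this
  · have : (w : ℝ) < 1 := by linarith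
    exact_mod_cast this
  · have := R.room' l₀ le_rfl (1 + x') (by linarith) (by linarith)
    rw [e10] at this
    linarith
  · have := R.room' l hl (1 + x') (by linarith) (by linarith)
    rw [e10] at this
    linarith
  · have : (0 : ℝ) ≤ W 1 := by linarith
    exact_mod_cast this
  · have : (W 1 : ℝ) < 1 := by linarith
    exact_mod_cast this
  · have h1 := hW3.2.2 0 (by norm_num)
    have h2 := R.room 0 (by norm_num) (v 1) (by rw [R.v1]; norm_num) (by rw [R.v1]; linarith)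
    linarith
  · have h1 := hW3.2.2 3 (by norm_num)
    have h2 := R.room 3 (by norm_num) (v 1) (by rw [R.v1]; norm_num) (by rw [R.v1]; linarith)
    linarith

end Pool.KPO
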