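import Pool.Agent.H31.D2.Kp12

/-!
# The affine system of the class theorem

`kap_star`: one list of covectors, near the balls at all windows of the grid.
-/

set_option autoImplicit false

namespace Pool.KPO

open Finset Real MvPolynomial
open Pool.Agent.H49.Ent Pool.Agent.H32.Dense Pool.STK Pool.KA Pool.KSAT Pool.K2S Pool.PB Pool.S6C
open Pool.GEN Pool.CHT Pool.CHX Pool.ISO Pool.D2F Pool.D2Z
open Pool.D2R (dd hs nrm nrm_nonneg co co_slam Wins WinB ROutB winb_star natb_all)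
open Pool.D2N (Dpw WFr)
open Pool.F5 (NatH LvT)
open Pool.LBT (ThrOf)

/-- **One list of covectors.** -/
theorem kap_star (D : ℕ) : ∃ Cs : ℕ, 1 ≤ Cs ∧ ∀ {m : ℕ} {Sl : ℕ → ℝ} {l₀ Cn Cc Ck Nk m₃ m₀ n₁ : ℕ}
    {Cr Cw CB Cv γ s x' A' K cζ cυ cμ cX cn cT h₀ y ε : ℝ}
    {S : PCl m} {P P₂ : List (Fin m) × Fin m → ℝ → ℝ → ℝ} {θ θ₂ : ℝ}
    {c : ℕ → Fin m} {L : ℕ → ℝ → ℝ → ℝ} {Eb e₂ Eb' e' q t : ℝ} {v v' : ℕ → ℝ} {W : ℕ → ℚ}
    {a w : ℚ} {Ch J Dr Y : ℕ}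
    {u X ζ ξ Q xQ tJ EJ gQ sQ : ℝ} {Λ σ : ℕ → ℝ} {F : Fam m J} {b : ℕ → ℕ → ℝ} {κ : ℝ}
    {B : F.Ω → Prop} {g₀ : ℕ → ℕ → ℕ}
    {G : ℕ → PtT F → ℕ → MvPolynomial (Option (Fin m)) ℝ}
    {H : ℕ → LnT F → ℕ → MvPolynomial (Option (Fin m)) ℝ},
    KC Sl l₀ Cs Cn Cc Ck Nk m₃ m₀ n₁ Cr Cw CB Cv γ s x' A' K cζ cυ cμ cX cn cT
      h₀ y ε →
    KR S P P₂ θ θ₂ c L Sl l₀ m₀ n₁ Eb e₂ Eb' e' x' A' K h₀ ε q t v v' W a w →
    KJ Sl L Cs n₁ Ch J Cw CB Cv γ s x' A' cζ cμ cX cn h₀ y q t Eb e₂ ζ u X v v' ξ Q xQ tJ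
      EJ gQ sQ Λ σ → Y = ⌊3 * (s * ξ)⌋₊ →
    WinB F c 3 D Dr (5 + 3 * n₁) 0 CB (t + A' * q) Eb (y * q) (fun k => t + v k * q)
      (fun _ => y * q) (fun _ => y * q) (fun k l => L l (t + v k * q) (t + v k * q)) b κ
      (fun k _ => ⌊(t + (v k + h₀) * q) * J⌋₊ - ⌊(t + v k * q) * J⌋₊) B g₀ G H →
    ∃ Sv : PtT F → ℕ → Option (Fin m) → ℝ, (∀ y l, CvC c l (Sv y l)) ∧ ∀ ω, B ω →
      ∀ k ≤ 3 * n₁, Nc c (g₀ (kf n₁ m₀ k)) ⌊(t + v (kf n₁ m₀ k) * q) * J⌋₊ (3 + 1)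
        (2 ^ (Cs * Y)) (Sv (ptr F J ω))
        (fun l => grd (G (kf n₁ m₀ k) (ptr F J ω) l) (bt F ω)) := by
  obtain ⟨Cs, hCs, hstar⟩ := winb_star D 3
  refine ⟨Cs, hCs, ?_⟩
  intro m Sl l₀ Cn Cc Ck Nk m₃ m₀ n₁ Cr Cw CB Cv γ s x' A' K cζ cυ cμ cX cn cT h₀ y ε S P P₂ θ θ₂ c
    L Eb e₂ Eb' e' q t v v' W a w Ch J Dr Y u X ζ ξ Q xQ tJ EJ gQ sQ Λ σ F b κ B g₀ G H C R N hY Wb
  obtain ⟨hu, hX, hξ, hQ, hxQ, htJ, hEJ, hgQ, hsQ, hΛ, hσ, hξl, hEJ0, v1, v2, v3, v4, v5, v6, v7,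
    v8, v9, v10, v11, v12, v13, v14, v15, v16, v17, v18, σb, lvJ, rmJ, lwJ, aJ, oJ, oJ', hxQ',
    hcζμ, pJ, veb, aJ1, hJ0⟩ := N
  have hChR : (0 : ℝ) ≤ Ch := Nat.cast_nonneg _
  have hn₁R : (0 : ℝ) ≤ n₁ := Nat.cast_nonneg _
  have hξ1 : 1000 ≤ ξ := by linarith
  have hq := R.q0
  have hh0 := C.h0
  have mq : ∀ {x z : ℝ}, x ≤ z → x * q ≤ z * q := fun h => mul_le_mul_of_nonneg_right h hq.le
  have mJ : ∀ {y z : ℝ}, y ≤ z → y * J ≤ z * J := fun h => mul_le_mul_of_nonneg_right h hJ0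
  have hQ0 : 0 < Q := by linarith
  have htJ0 : 0 < tJ := by linarith
  have hYb := floor_bd (show 0 ≤ 3 * (s * ξ) by linarith)
  rw [← hY] at hYb
  obtain ⟨hY1, hY2⟩ := hYb
  have hY3 : 14 * ξ ≤ Y := by linarith
  -- the affine system
  have hvf := R.vf
  have lvf : ∀ i ≤ 3 * n₁, ∀ l ≤ 3, Λ l + i * h₀ * σ l - ξ / 256 ≤
      L l (t + v (kf n₁ m₀ i) * q) (t + v (kf n₁ m₀ i) * q) * J ∧
      L l (t + v (kf n₁ m₀ i) * q) (t + v (kf n₁ m₀ i) * q) * J ≤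
      Λ l + i * h₀ * σ l + ξ / 256 := by
    intro i hi l hl
    have h1 := lvJ (kf n₁ m₀ i) (kf_le hi) l hl
    have e1 : v (kf n₁ m₀ i) * σ l = i * h₀ * σ l := by rw [hvf]
    rw [e1] at h1
    exact h1
  have hσξ : ∀ l ≤ 3, ξ ≤ h₀ * σ l ∧ h₀ * σ l ≤ s * ξ := by
    intro l hl
    obtain ⟨h1, h2⟩ := σb l hl
    have h3 := mul_le_mul_of_nonneg_left h1 hh0.le
    have h4 := mul_le_mul_of_nonneg_left h2 hh0.le
    have e1 : h₀ * Q = ξ := by rw [hQ, hξ, hu]; ring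
    have e2 : h₀ * (sQ - Q) = s * ξ - ξ := by rw [hQ, hsQ, hξ, hu]; ring
    rw [e1] at h3
    rw [e2] at h4
    constructor <;> linarith
  have hof : ∀ i, (t + v (kf n₁ m₀ i) * q) * J = tJ + i * ξ := fun i => by
    rw [hvf, htJ, hξ, hu]
    ring
  have Y3 : 3 ≤ Y := nat_le2 (by push_cast; linarith)
  exact hstar Wb (fun l j => j = 0 ∨ Sl (j - 1) ≤ Sl l) (f := kf n₁ m₀)
    (jj := fun _ => 0) (n := 3 * n₁) (Y := Y) R.inj (fun k hk => kf_le hk) (fun k hk => by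
      refine ⟨le_rfl, ?_, ?_⟩
      · have e1 : (v (kf n₁ m₀ k) + h₀) = v (kf n₁ m₀ (k + 1)) := by
          rw [hvf, hvf]
          push_cast
          ring
        show ⌊(t + (v (kf n₁ m₀ k) + h₀) * q) * J⌋₊ - ⌊(t + v (kf n₁ m₀ k) * q) * J⌋₊ = _
        rw [e1]
      · show t + v (kf n₁ m₀ k) * q ≤ t + v (kf n₁ m₀ (k + 1)) * q
        rw [hvf, hvf]
        push_cast
        have : 0 ≤ h₀ * q := by positivity
        linarith) (by linarith) Y3 (by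
      have h1 : ((3 * n₁ : ℕ) : ℝ) ≤ Y := by
        push_cast
        linarith
      have h2 : (Y : ℝ) < 2 ^ Y := by exact_mod_cast Nat.lt_two_pow_self
      linarith) (fun k hk l hl => by
      have h1 := lvf k (by omega) l hl
      have h2 := lvf (k + 1) (by omega) l hl
      have h3 := hσξ l hl
      push_cast at h2
      constructor
      · show (L l (t + v (kf n₁ m₀ (k + 1)) * q) (t + v (kf n₁ m₀ (k + 1)) * q) -
          L l (t + v (kf n₁ m₀ k) * q) (t + v (kf n₁ m₀ k) * q)) * J ≤ Y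
        linarith
      · show (L l (t + v (kf n₁ m₀ k) * q) (t + v (kf n₁ m₀ k) * q) -
          L l (t + v (kf n₁ m₀ (k + 1)) * q) (t + v (kf n₁ m₀ (k + 1)) * q)) * J ≤ Y
        linarith) (fun k k' hk hk' l hl _ => by
      have h1 := lvf k (by omega) l hl
      have h2 := lvf k' (by omega) l hl
      have h3 : ((k' : ℝ) - k) * ξ ≤ (k' - k) * (h₀ * σ l) := by
        refine mul_le_mul_of_nonneg_left (hσξ l hl).1 ?_
        have : (k : ℝ) ≤ k' := by exact_mod_cast hk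
        linarith
      have h4 := hof k
      have h5 := hof k'
      show ((t + v (kf n₁ m₀ k') * q) - (t + v (kf n₁ m₀ k) * q)) * J ≤
        (L l (t + v (kf n₁ m₀ k') * q) (t + v (kf n₁ m₀ k') * q) -
          L l (t + v (kf n₁ m₀ k) * q) (t + v (kf n₁ m₀ k) * q)) * J + Y
      linarith) (fun k k' hk hk' l hl h => absurd (Or.inl rfl) h)
    (fun k k' hk hk' l hl j hj h => by
      have h0 : Sl j ≤ Sl l := by
        rcases h with h | h
        · exact absurd h (by omega)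
        · simpa using h
      have h1 := lvf k (by omega) l hl
      have h2 := lvf k' (by omega) l hl
      have h1' := lvf k (by omega) j (by omega)
      have h2' := lvf k' (by omega) j (by omega)
      have h3 : ((k' : ℝ) - k) * (h₀ * σ j) ≤ (k' - k) * (h₀ * σ l) := by
        refine mul_le_mul_of_nonneg_left (mul_le_mul_of_nonneg_left ?_ hh0.le) ?_
        · rw [hσ]
          exact mJ (mq h0)
        · have : (k : ℝ) ≤ k' := by exact_mod_cast hk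
          linarith
      show (L j (t + v (kf n₁ m₀ k') * q) (t + v (kf n₁ m₀ k') * q) -
          L j (t + v (kf n₁ m₀ k) * q) (t + v (kf n₁ m₀ k) * q)) * J ≤
        (L l (t + v (kf n₁ m₀ k') * q) (t + v (kf n₁ m₀ k') * q) -
          L l (t + v (kf n₁ m₀ k) * q) (t + v (kf n₁ m₀ k) * q)) * J + Y
      linarith) (fun k k' hk hk' l hl j hj h => by
      have h0 : Sl l ≤ Sl j := by
        by_contra h4
        refine h (Or.inr ?_)
        rw [Nat.add_sub_cancel]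
        exact (not_le.1 h4).le
      have h1 := lvf k (by omega) l hl
      have h2 := lvf k' (by omega) l hl
      have h1' := lvf k (by omega) j (by omega)
      have h2' := lvf k' (by omega) j (by omega)
      have h3 : ((k' : ℝ) - k) * (h₀ * σ l) ≤ (k' - k) * (h₀ * σ j) := by
        refine mul_le_mul_of_nonneg_left (mul_le_mul_of_nonneg_left ?_ hh0.le) ?_
        · rw [hσ]
          exact mJ (mq h0)
        · have : (k : ℝ) ≤ k' := by exact_mod_cast hk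
          linarith
      show (L l (t + v (kf n₁ m₀ k') * q) (t + v (kf n₁ m₀ k') * q) -
          L l (t + v (kf n₁ m₀ k) * q) (t + v (kf n₁ m₀ k) * q)) * J ≤
        (L j (t + v (kf n₁ m₀ k') * q) (t + v (kf n₁ m₀ k') * q) -
          L j (t + v (kf n₁ m₀ k) * q) (t + v (kf n₁ m₀ k) * q)) * J + Y
      linarith) (fun k hk l hl => by
      have h1 := rmJ (kf n₁ m₀ k) (kf_le hk) l hl
      have h2 : (Cs : ℝ) * Y ≤ 3 * (Cs * s * ξ) := by
        have := mul_le_mul_of_nonneg_left hY1 (Nat.cast_nonneg Cs)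
        linarith
      show (Eb + L l (t + v (kf n₁ m₀ k) * q) (t + v (kf n₁ m₀ k) * q)) * J + Cs * Y ≤ J
      rw [hEJ] at h1
      linarith)

end Pool.KPO
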