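import Pool.Agent.H31.D2.Kp13
import Pool.Agent.H31.D2.Kp14

/-!
# The windows of the class theorem are impossible

`kap_fin`: from the events of the main windows and of the windows of the list coordinate.
-/

set_option autoImplicit false

namespace Pool.KPO

open Finset Real MvPolynomial
open Pool.Agent.H49.Ent Pool.Agent.H32.Dense Pool.STK Pool.KA Pool.KSAT Pool.K2S Pool.PB Pool.S6C
open Pool.GEN Pool.CHT Pool.CHX Pool.ISO Pool.D2F Pool.D2Z
open Pool.D2R (dd hs nrm nrm_nonneg co co_slam Wins WinB ROutB winb_star natb_all)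
open Pool.D2N (Dpw WFr)
open Pool.F5 (NatH LvT)
open Pool.LBT (ThrOf)

/-- **The windows of the class theorem are impossible.** -/
theorem kap_fin (m D D' l₀ Nk : ℕ) (hD : 1 ≤ D) (hD' : 1 ≤ D') (hl1 : 1 ≤ l₀) (hl3 : l₀ < 3) :
    ∃ (Cs Cn Cc Ck : ℕ) (Cr : ℝ), 1 ≤ Cs ∧ 1 ≤ Cn ∧ 1 ≤ Cc ∧ 1 ≤ Ck ∧ 1 ≤ Cr ∧
    ∀ {Sl : ℕ → ℝ} {m₃ m₀ n₁ : ℕ}
    {Cw CB Cv γ s x' A' K cζ cυ cμ cX cn cT h₀ y ε : ℝ}
    {S : PCl m} {P P₂ : List (Fin m) × Fin m → ℝ → ℝ → ℝ} {θ θ₂ : ℝ}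
    {c : ℕ → Fin m} {L : ℕ → ℝ → ℝ → ℝ} {Eb e₂ Eb' e' q t : ℝ} {v v' : ℕ → ℝ} {W : ℕ → ℚ}
    {a w : ℚ} {K₁ K₁' : ℝ} {b b' : ℕ → ℕ → ℝ},
    KC Sl l₀ Cs Cn Cc Ck Nk m₃ m₀ n₁ Cr Cw CB Cv γ s x' A' K cζ cυ cμ cX cn cT h₀ y ε →
    KR S P P₂ θ θ₂ c L Sl l₀ m₀ n₁ Eb e₂ Eb' e' x' A' K h₀ ε q t v v' W a w →
    0 < K₁ → 0 < K₁' →
    (∀ κ : ℝ, 0 < κ → Bas S (fun J F A₀ =>
      ∀ z : ℕ → ℕ → ℕ, (∀ k ≤ 5 + 3 * n₁, ∀ p ≤ 0, h₀ / 2 * q * J ≤ z k p ∧
        z k p ≤ ⌊(t + A' * q) * J⌋₊ - ⌊(t + v k * q) * J⌋₊) →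
      ∃ (B : F.Ω → Prop) (gc gT g₀ : ℕ → ℕ → ℕ)
        (G : ℕ → PtT F → ℕ → MvPolynomial (Option (Fin m)) ℝ)
        (H : ℕ → LnT F → ℕ → MvPolynomial (Option (Fin m)) ℝ)
        (Th : ℕ → PtT F → ℕ → MvPolynomial (Option (Fin m)) ℝ)
        (TH : ℕ → LnT F → ℕ → MvPolynomial (Option (Fin m)) ℝ)
        (Gt : ℕ → PtT F → MvPolynomial (Option (Fin m)) ℝ)
        (Ht : ℕ → LnT F → MvPolynomial (Option (Fin m)) ℝ), Sub B A₀ ∧
        Pe F.p A₀ ≤ K₁ * Pe F.p B ∧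
        Wins F c 3 D (D + D') 4 0 (fun _ => True) Cw (t + A' * q) Eb (y * q)
          (fun k => t + v k * q) (fun _ => 3 * ε * q)
          (fun k => L 3 (t + A' * q) (t + v k * q) - 2 * (Cw * (y * q)))
          (fun _ => y * q) (fun _ => y * q) (fun k l => L l (t + v k * q) (t + v k * q))
          (fun k l => L l (t + A' * q) (t + v k * q)) b κ z B gc gT g₀ G H Th TH Gt Ht ∧
        WinB F c 3 D (D + D') (5 + 3 * n₁) 0 CB (t + A' * q) Eb (y * q) (fun k => t + v k * q)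
          (fun _ => y * q) (fun _ => y * q) (fun k l => L l (t + v k * q) (t + v k * q)) b κ z B
          g₀ G H)) →
    Bas S (fun J F A₀ =>
      ∀ z : ℕ → ℕ → ℕ, (∀ k ≤ 1, ∀ p ≤ 0, h₀ / 2 * q * J ≤ z k p ∧
        z k p ≤ ⌊(t + A' * q) * J⌋₊ - ⌊(t + v' k * q) * J⌋₊) →
      ∃ (B : F.Ω → Prop) (gc gT g₀ : ℕ → ℕ → ℕ)
        (G : ℕ → PtT F → ℕ → MvPolynomial (Option (Fin m)) ℝ)
        (H : ℕ → LnT F → ℕ → MvPolynomial (Option (Fin m)) ℝ)
        (Th : ℕ → PtT F → ℕ → MvPolynomial (Option (Fin m)) ℝ)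
        (TH : ℕ → LnT F → ℕ → MvPolynomial (Option (Fin m)) ℝ)
        (Gt : ℕ → PtT F → MvPolynomial (Option (Fin m)) ℝ)
        (Ht : ℕ → LnT F → MvPolynomial (Option (Fin m)) ℝ), Sub B A₀ ∧
        Pe F.p A₀ ≤ K₁' * Pe F.p B ∧
        Wins F c l₀ D' D' 1 0 (fun _ => True) Cv (t + A' * q) Eb' (y * q)
          (fun k => t + v' k * q) (fun _ => 3 * ε * q)
          (fun k => L l₀ (t + A' * q) (t + v' k * q) - 2 * (Cv * (y * q)))
          (fun _ => y * q) (fun _ => y * q) (fun k j => L j (t + v' k * q) (t + v' k * q))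
          (fun k j => L j (t + A' * q) (t + v' k * q)) b' 1 z B gc gT g₀ G H Th TH Gt Ht) →
    False := by
  classical
  obtain ⟨Cs, hCs, hstar⟩ := kap_star D
  obtain ⟨Cn, hCn, hnat⟩ := kap_nat m D hD
  obtain ⟨Ch, hCh, hrw⟩ := hrow_of m D
  obtain ⟨Cc, hCc, hncl⟩ := ncl_of m (D + D') l₀ (by omega) hl3
  obtain ⟨Ck, Cr, hCk, hCr, hend⟩ := kend m D D' Nk l₀ hD hD' hl3
  refine ⟨Cs, Cn, Cc, Ck, Cr, hCs, hCn, hCc, hCk, hCr, ?_⟩
  intro Sl m₃ m₀ n₁ Cw CB Cv γ s x' A' K cζ cυ cμ cX cn cT h₀ y ε S P P₂ θ θ₂ c L Eb e₂ Eb' e' q t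
    v v' W a w K₁ K₁' b b' C R hK₁ hK₁' hcon hcon'
  obtain ⟨f1, f2, f3, f4, f5, f6, f7, f8, f9, f10⟩ := C.siz
  have hq := R.q0
  have hh0 := C.h0
  have hx0 := C.x0
  have hs5 := C.s5
  have hn := C.hn
  have mq : ∀ {x z : ℝ}, x ≤ z → x * q ≤ z * q := fun h => mul_le_mul_of_nonneg_right h hq.le
  obtain ⟨J₁, hJ₁⟩ := kj_of Ch C R
  obtain ⟨u, hu⟩ : ∃ u : ℝ, u = h₀ * q := ⟨_, rfl⟩
  obtain ⟨X, hX⟩ : ∃ X : ℝ, X = x' * q := ⟨_, rfl⟩
  obtain ⟨ζ, hζ⟩ : ∃ ζ : ℝ, ζ = X / (100 * Cr) := ⟨_, rfl⟩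
  obtain ⟨⟨r1, r2, r3, r4, r5, r6, r7, r8, r9, r10, r11, r12⟩, ⟨r13, r14, r15, r16, r17, r18⟩,
    r19, r20, r21, r22, r23⟩ := kr_nums hl1 hl3 C R hu hX hζ
  have hκ₀ : 0 < 1 / (K₁' * K₁ * (2 * 4 ^ l₀)) := by positivity
  obtain ⟨κ₀, hκ₀e⟩ : ∃ κ₀ : ℝ, κ₀ = 1 / (K₁' * K₁ * (2 * 4 ^ l₀)) := ⟨_, rfl⟩
  rw [← hκ₀e] at hκ₀
  obtain ⟨κn, hκn, hnat⟩ := hnat C R (show D ≤ D + D' by omega) hκ₀
  have hendB := hend (S := S) (P := P) (P₂ := P₂) (θ := θ) (θ₂ := θ₂) (c := c) (ζ := ζ)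
    (C₀' := Cv) (Eb' := Eb') (ηm' := y * q) (o' := fun k => t + v' k * q)
    (ε' := fun _ => 3 * ε * q)
    (p'' := fun k => L l₀ (t + A' * q) (t + v' k * q) - 2 * (Cv * (y * q)))
    (η' := fun _ => y * q) (σ' := fun _ => y * q)
    (lv' := fun k j => L j (t + v' k * q) (t + v' k * q))
    (be' := fun k j => L j (t + A' * q) (t + v' k * q)) (Dr' := D') (M := 0) (a := a) (w := w)
    (w' := W 1) (a' := t + A' * q) (q₁ := u) (s₁ := X / 10) (h := u) (e := e') (e₂ := e₂)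
    (ε₁ := u) (κ₁ := κ₀ / Cn ^ 17) R.thr R.thr₂ R.tmh R.inj R.w1 r1 R.a1 r2 r3 r4 r5 r6 r7 r8 r9
    r10 r8.le r11 r12 r13 r14 r15 r16 r17 r18 r19 r20 r21 r22 r23 r8 (by positivity)
  obtain ⟨κm, hκm⟩ : ∃ κm : ℝ, κm = min κn (1 / (4 * 4 ^ l₀)) := ⟨_, rfl⟩
  have hκm0 : 0 < κm := by
    rw [hκm]
    exact lt_min hκn (by positivity)
  have hκm4 : κm * (4 * 4 ^ l₀) ≤ 1 := by
    have h1 : κm ≤ 1 / (4 * 4 ^ l₀) := by
      rw [hκm]
      exact min_le_right _ _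
    rwa [le_div_iff₀ (by positivity)] at h1
  have hκmn : κm ≤ κn := by
    rw [hκm]
    exact min_le_left _ _
  have hcon := bas_ev (hcon κm hκm0) (κ := 1 / K₁') (by positivity)
  clear r1 r2 r3 r4 r5 r6 r7 r10 r11 r12 r13 r14 r15 r16 r17 r18 r19 r20 r21 r22 r23
  have key : Bas S (fun _ _ _ => False) := by
    refine Bas.mono J₁ ((hcon'.and hcon).and (hnat.and hendB)) ?_
    rintro J hJ F Ae ⟨⟨hA1, hA2⟩, hA3, hA4⟩
    obtain ⟨u', X', ζ', ξ, Q, xQ, tJ, EJ, gQ, sQ, Λ, σ, hζ', N⟩ := hJ₁ J hJ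
    have N' := N
    obtain ⟨hu', hX', -⟩ := N'
    have eu : u' = u := by rw [hu', hu]
    have eX : X' = X := by rw [hX', hX]
    have eζ : ζ' = ζ := by rw [hζ', hζ, eX]
    rw [eu, eX, eζ] at N
    have N' := N
    obtain ⟨-, -, hξ, hQ, hxQ, htJ, hEJ, hgQ, hsQ, hΛ, hσ, hξl, hEJ0, v1, v2, v3, v4, v5, v6, v7,
      v8, v9, v10, v11, v12, v13, v14, v15, v16, v17, v18, σb, lvJ, rmJ, lwJ, aJ, oJ, oJ', hxQ',
      hcζμ, pJ, veb, aJ1, hJ0⟩ := N'
    have hpn := Pe_nonneg F.isLaw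
    have mJ : ∀ {y z : ℝ}, y ≤ z → y * J ≤ z * J := fun h => mul_le_mul_of_nonneg_right h hJ0
    have hChR : (0 : ℝ) ≤ Ch := Nat.cast_nonneg _
    have hn₁R : (0 : ℝ) ≤ n₁ := Nat.cast_nonneg _
    have hξ1 : 1000 ≤ ξ := by linarith
    have hQ0 : 0 < Q := by linarith
    have htJ0 : 0 < tJ := by linarith
    obtain ⟨Y, hY⟩ : ∃ Y : ℕ, Y = ⌊3 * (s * ξ)⌋₊ := ⟨_, rfl⟩
    have hYb := floor_bd (show 0 ≤ 3 * (s * ξ) by linarith)
    rw [← hY] at hYb
    obtain ⟨hY1, hY2⟩ := hYb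
    have hY3 : 14 * ξ ≤ Y := by linarith
    obtain ⟨Ra, hRa⟩ : ∃ Ra : ℕ, Ra = ⌊(t + A' * q) * J⌋₊ := ⟨_, rfl⟩
    have hRb := floor_bd (show 0 ≤ (t + A' * q) * (J : ℝ) by rw [aJ]; linarith)
    rw [← hRa, aJ] at hRb
    obtain ⟨Oo, hOo⟩ : ∃ Oo : ℕ → ℕ, Oo = fun k => ⌊(t + v k * q) * J⌋₊ := ⟨_, rfl⟩
    have hOe : ∀ k, ⌊(t + v k * q) * J⌋₊ = Oo k := fun k => by rw [hOo]
    have hOb : ∀ k ≤ 5 + 3 * n₁, (Oo k : ℝ) ≤ tJ + v k * Q ∧ tJ + v k * Q - 1 ≤ Oo k := by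
      intro k hk
      have h1 := (R.vb k hk).1
      have h2 := floor_bd (show 0 ≤ (t + v k * q) * (J : ℝ) by
        rw [oJ]
        have : 0 ≤ v k * Q := mul_nonneg h1 hQ0.le
        linarith)
      rw [hOe, oJ] at h2
      exact h2
    have hOb' : ∀ k ≤ 1, (⌊(t + v' k * q) * J⌋₊ : ℝ) ≤ tJ + 3 * Q := by
      intro k hk
      have h1 : 0 ≤ v' k ∧ v' k ≤ 3 := by
        have h0 := (R.vb 3 (by omega)).2
        rw [R.v3] at h0
        interval_cases k
        · rw [R.v'0]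
          constructor <;> linarith
        · rw [R.v'1]
          constructor <;> norm_num
      have h3 : 0 ≤ v' k * Q := mul_nonneg h1.1 hQ0.le
      have h4 : v' k * Q ≤ 3 * Q := mul_le_mul_of_nonneg_right h1.2 hQ0.le
      have h2 := (floor_bd (show 0 ≤ (t + v' k * q) * (J : ℝ) by
        rw [oJ']
        linarith)).1
      rw [oJ'] at h2 ⊢
      linarith
    -- the windows of the list coordinate
    have hz0 : h₀ / 2 * q * J = ξ / 2 := by rw [hξ, hu]; ring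
    have hzb := floor_bd (show 0 ≤ u * (J : ℝ) by rw [← hξ]; linarith)
    rw [← hξ] at hzb
    obtain ⟨Bp, gc', gT', g₀', G', H', T', TH', Gt', Ht', hBp, hPp, Wn'⟩ := hA1
      (fun _ _ => ⌊u * J⌋₊) (fun k hk p _ => by
        refine ⟨?_, ?_⟩
        · rw [hz0, ← hξ]
          linarith
        · refine Nat.le_sub_of_add_le (nat_le2 ?_)
          have h1 := hOb' k hk
          rw [← hRa, ← hξ]
          push_cast
          linarith)
    obtain ⟨B, gc, gT, g₀, G, H, T, TH, Gt, Ht, hBBp, hPB, Wn, Wb⟩ := hA2 Bp hBp (by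
        rw [div_mul_eq_mul_div, one_mul, div_le_iff₀ hK₁']
        linarith) (fun k _ => ⌊(t + (v k + h₀) * q) * J⌋₊ - ⌊(t + v k * q) * J⌋₊) (fun k hk p _ => by
        have hvk := R.vb k hk
        have e1 : (t + (v k + h₀) * q) * J = tJ + v k * Q + ξ := by
          rw [htJ, hQ, hξ, hu]
          ring
        have h1 : 0 ≤ v k * Q := mul_nonneg hvk.1 hQ0.le
        have h2 : v k * Q ≤ 3 * Q := mul_le_mul_of_nonneg_right hvk.2 hQ0.le
        have h3 := floor_bd (show 0 ≤ (t + (v k + h₀) * q) * (J : ℝ) by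
          rw [e1]
          linarith)
        rw [e1] at h3
        have h4 := hOb k hk
        have h5 : ⌊(t + v k * q) * J⌋₊ ≤ ⌊(t + (v k + h₀) * q) * J⌋₊ := by
          refine nat_le2 ?_
          rw [hOe, e1]
          linarith
        refine ⟨?_, Nat.sub_le_sub_right (nat_le2 ?_) _⟩
        · rw [hz0, Nat.cast_sub h5, hOe, e1]
          linarith
        · rw [← hRa, e1]
          linarith)
    have hBA : K2S.Sub B Ae := fun ω hω => hBp ω (hBBp ω hω)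
    have Y3 : 3 ≤ Y := nat_le2 (by push_cast; linarith)
    obtain ⟨Sv, hSd, hSt⟩ := hstar C R N hY Wb
    -- the sides
    have hkv := kf_val C.m30 C.m30' C.m0n
    have gb : ∀ k ≤ 4, ∀ l ≤ 3, L l (t + v k * q) (t + v k * q) * J - ξ / 16 ≤ g₀ k l ∧
        (g₀ k l : ℝ) ≤ L l (t + v k * q) (t + v k * q) * J := fun k hk l hl => by
      obtain ⟨-, -, h1, h2, -⟩ := Wn.g_num hk hl
      exact ⟨by linarith, h2⟩
    have gb' : ∀ k ≤ 1, ∀ l ≤ l₀, L l (t + v' k * q) (t + v' k * q) * J - ξ / 16 ≤ g₀' k l ∧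
        (g₀' k l : ℝ) ≤ L l (t + v' k * q) (t + v' k * q) * J := fun k hk l hl => by
      obtain ⟨-, -, h1, h2, -⟩ := Wn'.g_num hk hl
      exact ⟨by linarith, h2⟩
    have e03 : v' 0 = v 3 := by rw [R.v'0, R.v3]
    have e14 : v' 1 = v 4 := by rw [R.v'1, R.v4]
    -- the ball of the list coordinate
    have hO3 : ⌊(t + v' 0 * q) * J⌋₊ = Oo 3 := by rw [e03, hOe]
    have hO4 : ⌊(t + v' 1 * q) * J⌋₊ = Oo 4 := by rw [e14, hOe]
    have hOJ : ∀ k ≤ 4, Oo k ≤ J := fun k hk => nat_le2 (by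
      have h1 := (hOb k (by omega)).1
      have h2 := rmJ 0 (by omega) 0 (by norm_num)
      have h3 := (lvJ 0 (by omega) 0 (by norm_num)).1
      have h4 := lwJ 0 (by norm_num)
      have h5 := (R.vb k (by omega)).2
      have h6 : v k * Q ≤ 3 * Q := mul_le_mul_of_nonneg_right h5 hQ0.le
      rw [R.v0] at h2 h3
      linarith)
    have hE3 := Wn.evs 3 (by norm_num)
    have hE0' := Wn'.evs 0 (by norm_num)
    rw [hOe] at hE3
    rw [hO3] at hE0'
    have hηY : ⌊y * q * (J : ℝ)⌋₊ ≤ Y := nat_le2 (by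
      have := (floor_bd v13).1
      linarith)
    obtain ⟨B₁, b1, b2, b3⟩ := hncl (F := F) (c := c) (w := Oo 3) (X := Cs * Y) (Y := Y)
      (g := g₀ 3) (g' := g₀' 0) (B₀ := B) (B := B) (Sv := Sv) (κ' := 1)
      (R.inj.mono fun x hx => by rw [Set.mem_Iio] at hx ⊢; omega) (hOJ 3 (by norm_num))
      (relvF_le hE3.relb (R.inj.mono fun x hx => by rw [Set.mem_Iio] at hx ⊢; omega)
        (fun y l => hE3.ball.depG y l) (by omega)) (fun _ h => h) (by rw [one_mul]) hκm0.le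
      hκm4 ((hE0'.ball.sub hBBp).mono le_rfl (fun _ => by omega) le_rfl le_rfl)
      (hE3.ball.mono (by omega) (fun _ => by omega) le_rfl le_rfl) hηY (fun l hl => by
        have h1 := gb 3 (by norm_num) l (by omega)
        have h2 := gb' 0 (by norm_num) l hl
        rw [e03] at h2
        constructor
        · exact nat_le2 (by push_cast; linarith)
        · exact nat_le2 (by push_cast; linarith)) (fun ω hω => by
        have h1 := hSt ω hω (n₁ + m₀) (by have := C.m0n; omega)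
        rw [hkv.2.2.2.1, hOe] at h1
        exact h1)
    -- the levels
    have hcsY : (Cs : ℝ) * Y ≤ 3 * Cs * s * ξ := by
      have := mul_le_mul_of_nonneg_left hY1 (Nat.cast_nonneg Cs)
      linarith
    have hcz : (((Cs + 4) * Y : ℕ) : ℝ) ≤ cζ * ξ := by
      push_cast
      have h1 : ((Cs : ℝ) + 4) * Y ≤ (Cs + 4) * (3 * (s * ξ)) :=
        mul_le_mul_of_nonneg_left hY1 (by positivity)
      have e1 : cζ * ξ = (Cs + 4) * (3 * (s * ξ)) := by rw [C.eζ]; ring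
      linarith
    have hcμξ : cζ * ξ ≤ cμ * ξ := mul_le_mul_of_nonneg_right hcζμ (by linarith)
    have hζξ : cζ * h₀ * q * J = cζ * ξ := by rw [hξ, hu]; ring
    have hμξ : cμ * h₀ * q * J = cμ * ξ := by rw [hξ, hu]; ring
    have hPe1 : κ₀ * Pe F.p Ae ≤ Pe F.p B₁ := by
      rw [hκ₀e, div_mul_eq_mul_div, one_mul, div_le_iff₀ (by positivity)]
      calc Pe F.p Ae ≤ K₁' * Pe F.p Bp := hPp
        _ ≤ K₁' * (K₁ * Pe F.p B) := mul_le_mul_of_nonneg_left hPB hK₁'.le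
        _ ≤ K₁' * (K₁ * (2 * 4 ^ l₀ * Pe F.p B₁)) :=
            mul_le_mul_of_nonneg_left (mul_le_mul_of_nonneg_left b2 hK₁.le) hK₁'.le
        _ = _ := by ring
    obtain ⟨B', c1, c2, c3⟩ := hA3 _ κm b B g₀ G H Sv B₁ Wb hκmn hBA b1 hPe1 hSd
      (fun ω hω i hi => (hSt ω (b1 ω hω) i hi).mono (pow_le_pow_right₀ (by norm_num)
        (Nat.le_floor (by
          rw [hζξ]
          push_cast at hcz ⊢
          have : (0 : ℝ) ≤ Y := Nat.cast_nonneg _
          linarith))))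
    have hB'B : K2S.Sub B' B := fun ω hω => b1 ω (c1 ω hω)
    -- the parameters
    obtain ⟨X₁, hX₁⟩ : ∃ X₁ : ℕ, X₁ = ⌊cμ * h₀ * q * J⌋₊ := ⟨_, rfl⟩
    have hX₁b := floor_bd (show 0 ≤ cμ * h₀ * q * (J : ℝ) by
      rw [hμξ]
      have : (0 : ℝ) ≤ ((Cs + 4) * Y : ℕ) := Nat.cast_nonneg _
      linarith)
    rw [← hX₁, hμξ] at hX₁b
    have hcX₁ : (Cs + 4) * Y ≤ X₁ := by
      rw [hX₁]
      refine Nat.le_floor ?_
      rw [hμξ]
      linarith
    obtain ⟨X₂, hX₂⟩ : ∃ X₂ : ℕ, X₂ = (Cc + 20) * (X₁ + Y + 8) := ⟨_, rfl⟩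
    have hX₂b : (X₂ : ℝ) ≤ cX * ξ := by
      rw [hX₂, C.eX]
      push_cast
      have h1 : (X₁ : ℝ) + Y + 8 ≤ (cμ + 3 * s + 1) * ξ := by linarith
      calc ((Cc : ℝ) + 20) * (X₁ + Y + 8) ≤ (Cc + 20) * ((cμ + 3 * s + 1) * ξ) :=
            mul_le_mul_of_nonneg_left h1 (by positivity)
        _ = _ := by ring
    have e4Y : 4 * Y ≤ X₁ := le_trans (Nat.mul_le_mul_right Y (by omega)) hcX₁
    have eCsY : Cs * Y ≤ X₁ := le_trans (Nat.mul_le_mul_right Y (by omega)) hcX₁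
    have eX2 : X₂ = Cc * (X₁ + Y + 8) + 20 * (X₁ + Y + 8) := by rw [hX₂]; ring
    have q1 : 4 * X₁ + 11 * Y ≤ X₂ := by omega
    have q2 : 5 * X₁ + Y + 7 + Y ≤ X₂ := by omega
    have q3 : Cc * (Cs * Y + Y + 1) ≤ X₂ := by
      have : Cc * (Cs * Y + Y + 1) ≤ Cc * (X₁ + Y + 8) := Nat.mul_le_mul_left _ (by omega)
      omega
    have q4 : 20 * Y ≤ X₂ := by omega
    have q4R : 20 * (Y : ℝ) ≤ X₂ := by exact_mod_cast q4
    obtain ⟨kn, hkn⟩ : ∃ kn : ℕ, kn = 2 * X₂ + 2 := ⟨_, rfl⟩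
    have hknR : (kn : ℝ) = 2 * X₂ + 2 := by rw [hkn]; push_cast; ring
    obtain ⟨n₀, hn₀⟩ : ∃ n₀ : ℕ, n₀ = Ck * (kn + Y + X₂ + 1) := ⟨_, rfl⟩
    have hn₀b : (n₀ : ℝ) ≤ cn * ξ := by
      rw [hn₀, C.en]
      push_cast
      have h1 : (kn : ℝ) + Y + X₂ + 1 ≤ (3 * cX + 3 * s + 1) * ξ := by linarith
      calc (Ck : ℝ) * (kn + Y + X₂ + 1) ≤ Ck * ((3 * cX + 3 * s + 1) * ξ) :=
            mul_le_mul_of_nonneg_left h1 (by positivity)
        _ = _ := by ring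
    have hn₀c : 1000 * (n₀ : ℝ) ≤ xQ := by linarith
    obtain ⟨Γn, hΓn⟩ : ∃ Γn : ℕ, Γn = ⌊gQ⌋₊ := ⟨_, rfl⟩
    have hΓb := floor_bd (show 0 ≤ gQ by linarith)
    rw [← hΓn] at hΓb
    obtain ⟨ρ, hρ⟩ : ∃ ρ : ℕ, ρ = ⌊xQ / 2⌋₊ := ⟨_, rfl⟩
    have hρb := floor_bd (show 0 ≤ xQ / 2 by linarith)
    rw [← hρ] at hρb
    -- the sides, in numbers
    have gk : ∀ k ≤ 4, ∀ l ≤ 3, Λ l + v k * σ l - ξ / 8 ≤ g₀ k l ∧
        (g₀ k l : ℝ) ≤ Λ l + v k * σ l + ξ / 8 := fun k hk l hl => by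
      have h1 := gb k hk l hl
      have h2 := lvJ k (by omega) l hl
      constructor <;> linarith
    have hτ : ∀ l ≤ 3, 0 ≤ x' * σ l ∧ x' * σ l ≤ s * xQ := fun l hl => by
      obtain ⟨h1, h2⟩ := σb l hl
      have h3 := mul_le_mul_of_nonneg_left h2 hx0.le
      have e1 : x' * (sQ - Q) = s * xQ - xQ := by rw [hxQ', hsQ, hQ]; ring
      rw [e1] at h3
      exact ⟨mul_nonneg hx0.le (by linarith), by linarith⟩
    have gk' : ∀ l ≤ l₀, Λ l + σ l + x' * σ l - ξ / 8 ≤ g₀' 0 l ∧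
        (g₀' 0 l : ℝ) ≤ Λ l + σ l + x' * σ l + ξ / 8 := fun l hl => by
      have h1 := gb' 0 (by norm_num) l hl
      have h2 := lvJ 3 (by omega) l (by omega)
      rw [e03] at h1
      have e1 : v 3 * σ l = σ l + x' * σ l := by rw [R.v3]; ring
      rw [e1] at h2
      constructor <;> linarith
    have hNc : ∀ k ≤ 4, ∀ ω, B ω → Nc c (g₀ k) (Oo k) 4 (2 ^ (Cs * Y)) (Sv (ptr F J ω))
        (fun l => grd (G k (ptr F J ω) l) (bt F ω)) := by
      intro k hk ω hω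
      obtain ⟨j0, j1, j2, j3, j4, -⟩ := hkv
      have hmn := C.m0n
      have key : ∀ i ≤ 3 * n₁, kf n₁ m₀ i = k → Nc c (g₀ k) (Oo k) 4 (2 ^ (Cs * Y))
          (Sv (ptr F J ω)) (fun l => grd (G k (ptr F J ω) l) (bt F ω)) := by
        intro i hi e
        have h1 := hSt ω hω i hi
        rw [e, hOe] at h1
        exact h1
      interval_cases k
      · exact key 0 (by omega) j0
      · exact key n₁ (by omega) j1
      · exact key (2 * n₁) (by omega) j2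
      · exact key (n₁ + m₀) (by omega) j3
      · exact key (3 * n₁) le_rfl j4
    have hv2k : ∀ k ≤ 2, 0 ≤ v k ∧ v k ≤ 2 := by
      intro k hk
      interval_cases k
      · rw [R.v0]; norm_num
      · rw [R.v1]; norm_num
      · rw [R.v2]; norm_num
    have hDp : ∀ Z : ℕ, X₁ ≤ Z → ∀ k ≤ 2, Dpw F c D (Oo 0) (Oo k) (Ra - Oo k) (Ra - Oo k + Y)
        ⌊(Eb + y * q + y * q) * J⌋₊ Z (g₀ k 3 + (Ra - Oo k) - 3 * Y) (g₀ k) (gT k)
        (2 ^ ⌊Cw * (y * q * J)⌋₊) B' (G k) (H k) (T k) (TH k) (Ht 0) Sv := by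
      intro Z hZ k hk
      obtain ⟨h1, h2⟩ := hv2k k hk
      have h3 := dpw_of (X := Z) (Y := Y) Wn (show k ≤ 4 by omega) (by
          have : 0 ≤ v k * q := mul_nonneg h1 hq.le
          show t + v 0 * q ≤ t + v k * q
          rw [R.v0]
          linarith) hB'B aJ1 (by linarith) (e4Y.trans hZ) Y3 (nat_le2 (by
          have h3 := (gk k (by omega) 3 le_rfl).1
          have h4 := lwJ 3 le_rfl
          have h5 : 0 ≤ v k * σ 3 := mul_nonneg h1 (by linarith [(σb 3 le_rfl).1])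
          push_cast
          linarith)) (by
          have h3 := (lvJ k (by omega) 3 le_rfl).2
          have h4 : v k * σ 3 ≤ 2 * (sQ - Q) := mul_le_mul h2 (σb 3 le_rfl).2
            (by linarith [(σb 3 le_rfl).1]) (by norm_num)
          have h5 : 0 ≤ v k * Q := mul_nonneg h1 hQ0.le
          have h6 := oJ k
          show (L 3 (t + v k * q) (t + v k * q) + (t + A' * q - (t + v k * q))) * J + Y ≤
            (L 3 (t + A' * q) (t + v 0 * q) - 2 * (Cw * (y * q))) * J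
          linarith) hSd (fun ω hω => by
          show Nc c (g₀ k) ⌊(t + v k * q) * J⌋₊ 4 (2 ^ Z) _ _
          rw [hOe]
          exact (hNc k (by omega) ω (hB'B ω hω)).mono (pow_le_pow_right₀ (by norm_num)
            (eCsY.trans hZ))) (fun l hl => (c3 k hk l hl).sub (fun _ h => h) (by
          rw [← hX₁]
          exact hZ))
      rw [hOe, hOe, ← hRa] at h3
      exact h3
    have hD0 := hDp X₁ le_rfl 0 (by norm_num)
    have hrow := hrw (X := X₁) (Y := Y) (Γ := Γn) Wn R.inj (by norm_num) hB'B (by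
        show t + v 0 * q ≤ t + v 1 * q
        rw [R.v0, R.v1]
        linarith) (by linarith) (nat_le2 (by linarith)) Y3 (nat_le2 (by
        have h3 := (gk 0 (by omega) 3 le_rfl).1
        have h4 := lwJ 3 le_rfl
        rw [R.v0, zero_mul] at h3
        push_cast
        linarith)) (fun l hl => by
        have h1 := (lvJ 0 (by omega) l hl).2
        have h2 := (lvJ 1 (by omega) l hl).1
        have e1 : v 0 * σ l = 0 := by rw [R.v0, zero_mul]
        have e2 : v 1 * σ l = σ l := by rw [R.v1, one_mul]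
        have h3 := (σb l hl).1
        show (L l (t + v 0 * q) (t + v 0 * q) - L l (t + v 1 * q) (t + v 1 * q)) * J ≤ Y
        linarith) (by
        have h2 := (lvJ 1 (by omega) 3 le_rfl).2
        have e2 : v 1 * σ 3 = σ 3 := by rw [R.v1, one_mul]
        have h3 := (σb 3 le_rfl).2
        have h6 := oJ 0
        have e1 : v 0 * Q = 0 := by rw [R.v0, zero_mul]
        show (L 3 (t + v 1 * q) (t + v 1 * q) + (t + A' * q - (t + v 0 * q))) * J + Γn ≤
          (L 3 (t + A' * q) (t + v 0 * q) - 2 * (Cw * (y * q))) * J + Y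
        linarith) (fun l hl => by
        have h1 := rmJ 0 (by omega) l hl
        have h2 := (lvJ 1 (by omega) 3 le_rfl).2
        have h4 := (lvJ 0 (by omega) 3 le_rfl).1
        have e2 : v 1 * σ 3 = σ 3 := by rw [R.v1, one_mul]
        have e3 : v 0 * σ 3 = 0 := by rw [R.v0, zero_mul]
        have h3 := (σb 3 le_rfl).2
        have h6 := oJ 0
        have e1 : v 0 * Q = 0 := by rw [R.v0, zero_mul]
        show (Eb + L l (t + v 0 * q) (t + v 0 * q) + (t + A' * q - (t + v 0 * q))) * J +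
          (L 3 (t + v 1 * q) (t + v 1 * q) - L 3 (t + v 0 * q) (t + v 0 * q)) * J + Γn +
          9 * Y ≤ J
        linarith) (by
        show Dpw F c D ⌊(t + v 0 * q) * J⌋₊ ⌊(t + v 0 * q) * J⌋₊ _ _ _ _ _ _ _ _ _ _ _ _ _ _ _
        rw [hOe]
        exact hD0)
    have hE0 := Wn.evs 0 (by norm_num)
    have hvl := vel_sv (a := Oo 4) (X := X₁) (Y := Y) (g := g₀ 4) (B := B') (G := G 4) (Sv := Sv)
      (fun ω ν hω hν hpt l hl => by
        have h1 := Wn.vel (k := 4) (Y := Y) le_rfl (by linarith) ω ν (hB'B ω hω) (hB'B ν hν) hpt l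
          hl
        beta_reduce at h1
        rw [hOe] at h1
        exact h1) (fun ω hω => (hNc 4 le_rfl ω (hB'B ω hω)).mono
        (pow_le_pow_right₀ (by norm_num) eCsY))
    -- MARK
    have G1 : ∀ l ≤ 3, Λ l + σ l - ξ / 8 ≤ g₀ 1 l ∧ (g₀ 1 l : ℝ) ≤ Λ l + σ l + ξ / 8 :=
      fun l hl => by
        have h1 := gk 1 (by norm_num) l hl
        rw [R.v1, one_mul] at h1
        exact h1
    have G0 : ∀ l ≤ 3, Λ l - ξ / 8 ≤ g₀ 0 l ∧ (g₀ 0 l : ℝ) ≤ Λ l + ξ / 8 :=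
      fun l hl => by
        have h1 := gk 0 (by norm_num) l hl
        rw [R.v0, zero_mul, add_zero] at h1
        exact h1
    have G2 : ∀ l ≤ 3, Λ l + 2 * σ l - ξ / 8 ≤ g₀ 2 l ∧ (g₀ 2 l : ℝ) ≤ Λ l + 2 * σ l + ξ / 8 :=
      fun l hl => by
        have h1 := gk 2 (by norm_num) l hl
        rw [R.v2] at h1
        exact h1
    have O0 := hOb 0 (by omega)
    have O1 := hOb 1 (by omega)
    have O2 := hOb 2 (by omega)
    have O3 := hOb 3 (by omega)
    rw [R.v0, zero_mul, add_zero] at O0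
    rw [R.v1, one_mul] at O1
    rw [R.v2] at O2
    rw [R.v3, add_mul, one_mul, ← hxQ'] at O3
    have hs3 := σb 3 le_rfl
    have hsl := σb l₀ (by omega)
    have htl := hτ l₀ (by omega)
    have hz1 := floor_bd (show 0 ≤ ζ * (J : ℝ) by linarith)
    have hX10 : (⌊X / 10 * J⌋₊ : ℝ) ≤ xQ / 10 := by
      have h1 := (floor_bd (show 0 ≤ X / 10 * (J : ℝ) by
        rw [hX]
        positivity)).1
      rw [hxQ]
      linarith
    have hgg := G1 l₀ (by omega)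
    have hgg' := gk' l₀ le_rfl
    have eeb : (⌊(Eb + y * q + y * q) * J⌋₊ : ℝ) ≤ EJ + ξ / 8 := by
      have h1 := (floor_bd (show 0 ≤ (Eb + y * q + y * q) * (J : ℝ) by
        have : (Eb + y * q + y * q) * (J : ℝ) = EJ + 2 * (y * q * J) := by rw [hEJ]; ring
        rw [this]
        linarith)).1
      have : (Eb + y * q + y * q) * (J : ℝ) = EJ + 2 * (y * q * J) := by rw [hEJ]; ring
      linarith
    have hcn : 16 * ξ ≤ cn * ξ := by
      have : 16 ≤ cn := by linarith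
      exact mul_le_mul_of_nonneg_right this (by linarith)
    have hlv1 : ∀ l ≤ 3, (⌊(bet P₂ c l (W 1) (W 1) + u) * J⌋₊ : ℝ) ≤ Λ l + σ l + 3 * ξ := by
      intro l hl
      have h1 := (R.W 1 (by omega)).2.2 l hl
      rw [← hu] at h1
      have h2 := (lvJ 1 (by omega) l hl).2
      have e2 : v 1 * σ l = σ l := by rw [R.v1, one_mul]
      have h3 := mJ h1
      have h4 : (bet P₂ c l (W 1) (W 1) + u) * J ≤ Λ l + σ l + 3 * ξ := by
        rw [hξ]
        rw [hξ] at h2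
        linarith
      have h5 := lwJ l hl
      have h6 := (σb l hl).1
      exact (Nat.cast_le.2 (Nat.floor_le_floor h4)).trans
        (floor_bd (show 0 ≤ Λ l + σ l + 3 * ξ by linarith)).1
    have hw1n : Oo 1 ≤ ⌊(W 1 : ℝ) * J⌋₊ := by
      rw [← hOe]
      exact Nat.floor_le_floor (mJ (R.W 1 (by omega)).1)
    have hRmin : ∀ i < 3, i ≠ l₀ → ∃ k ≤ 2, Oo k + g₀ k i + g₀ 1 3 + Γn ≤
        Oo 1 + g₀ 1 i + g₀ k 3 + X₂ := by
      intro i hi hil
      have h1 := C.γn i hi hil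
      have hsi := σb i (by omega)
      rcases le_abs.1 h1 with h | h
      · have h2 : gQ ≤ σ 3 - Q - σ i := by
          have := mJ (mq h)
          rw [hgQ, hσ, hQ]
          linarith
        refine ⟨2, le_rfl, nat_le2 ?_⟩
        have a1 := G2 i (by omega)
        have a2 := G2 3 le_rfl
        have a3 := G1 i (by omega)
        have a4 := G1 3 le_rfl
        push_cast
        linarith
      · have h2 : gQ ≤ -(σ 3 - Q - σ i) := by
          have := mJ (mq h)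
          rw [hgQ, hσ, hQ]
          linarith
        refine ⟨0, by norm_num, nat_le2 ?_⟩
        have a1 := G0 i (by omega)
        have a2 := G0 3 le_rfl
        have a3 := G1 i (by omega)
        have a4 := G1 3 le_rfl
        push_cast
        linarith
    have hfin := hA4 (fun _ _ => ⌊u * J⌋₊) 1 b' Bp gc' gT' g₀' G' H' T' TH' Gt' Ht' 0 Wn' hBp
      le_rfl rfl X₂ Γn n₀ kn Y ρ n₀ Oo (fun k => Ra - Oo k) (fun k => Ra - Oo k + Y)
      (fun _ => ⌊(Eb + y * q + y * q) * J⌋₊) (fun k => g₀ k 3 + (Ra - Oo k) - 3 * Y) g₀ gT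
      (fun _ => 2 ^ ⌊Cw * (y * q * J)⌋₊) B' G H T TH Sv (Gt 0) (Ht 0)
      (fun k hk => hDp X₂ (by omega) k hk) (nat_le2 (by linarith)) hE0.pG hE0.pH hE0.dH
      (fun ω hω V => by
        have h1 := hrow ω hω V
        beta_reduce at h1
        rw [hOe, hOe] at h1
        refine h1.trans (mul_le_mul_of_nonneg_right (div_le_div_of_nonneg_right
          (pow_le_pow_right₀ (by norm_num) q1) (by positivity)) (en_nonneg _ _ _ _ _ _)))
      (fun ω hω => hBBp ω (hB'B ω hω)) (fun ω hω => by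
        beta_reduce
        rw [hO3]
        exact (b3 ω (c1 ω hω)).mono (pow_le_pow_right₀ (by norm_num) q3))
      (fun ω ν hω hν hpt => by
        beta_reduce
        rw [hO4]
        refine (hvl ω ν hω hν hpt l₀ (by omega)).trans ?_
        have h1 : g₀' 1 l₀ ≤ g₀ 4 l₀ + Y := nat_le2 (by
          have h2 := gb 4 le_rfl l₀ (by omega)
          have h3 := gb' 1 le_rfl l₀ le_rfl
          rw [e14] at h3
          push_cast
          linarith)
        rw [div_le_div_iff₀ (by positivity) (by positivity), ← pow_add, ← pow_add, ← pow_add,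
          ← pow_add]
        exact pow_le_pow_right₀ (by norm_num) (by omega)) hRmin (nat_le2 (by
        have a2 := G2 3 le_rfl
        have a4 := G1 3 le_rfl
        have h2 : gQ ≤ σ 3 - 2 * Q := by
          have := mJ (mq C.γc)
          rw [hgQ, hσ, hQ]
          linarith
        push_cast
        linarith)) hn₀ (by omega) (by
        rw [← hξ]
        linarith) hw1n (by
        beta_reduce
        rw [hO3]
        exact nat_le2 (by linarith)) (by
        beta_reduce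
        rw [hO3]
        exact hOJ 3 (by norm_num)) (by
        refine Nat.le_floor ?_
        push_cast
        linarith) (fun j hj => by
        have a1 := G1 j hj
        have a2 := rmJ 1 (by omega) j hj
        have a3 := gb 1 (by norm_num) j hj
        refine nat_le2 ?_
        push_cast
        linarith) (fun l hl => by
        have a1 := G1 l (by omega)
        have a2 := lwJ l (by omega)
        have a3 := σb l (by omega)
        exact nat_le2 (by linarith)) (nat_le2 (by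
        have a1 := G1 0 (by norm_num)
        have a2 := hlv1 0 (by norm_num)
        have a3 : (Oo 1 : ℝ) ≤ ⌊(W 1 : ℝ) * J⌋₊ := by exact_mod_cast hw1n
        push_cast
        linarith)) (nat_le2 (by
        have a1 := G1 3 le_rfl
        have a2 := hlv1 3 le_rfl
        have a3 : (Oo 1 : ℝ) ≤ ⌊(W 1 : ℝ) * J⌋₊ := by exact_mod_cast hw1n
        push_cast
        linarith)) le_rfl (nat_le2 (by
        push_cast
        linarith)) (by
        beta_reduce
        rw [hO3]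
        refine Nat.le_sub_of_add_le (nat_le2 ?_)
        push_cast
        linarith) (fun j hj => by
        have a1 := G1 j (by omega)
        have a2 := gk' j hj.le
        have a3 := hτ j (by omega)
        refine nat_le2 ?_
        push_cast
        linarith) (nat_le2 (by
        push_cast
        linarith)) (nat_le2 (by
        have h1 : (xQ / 2 - 1) * (4 * (s + 2)) ≤ ρ * Nk :=
          mul_le_mul hρb.2 C.Nk4 (by linarith) (Nat.cast_nonneg _)
        have h2 : 1000 * s ≤ s * ξ := by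
          have := mul_le_mul_of_nonneg_left hξ1 (show 0 ≤ s by linarith)
          linarith
        push_cast
        linarith)) (Nat.le_floor (by linarith))
    have h1 : κ₀ * Pe F.p Ae ≤ Cn ^ 17 * Pe F.p B' := hPe1.trans c2
    rw [div_mul_eq_mul_div, lt_div_iff₀ (by positivity)] at hfin
    linarith
  obtain ⟨τ, hτ, J₂, h⟩ := key
  obtain ⟨J, hJ, F, A, hA⟩ := R.ne τ hτ J₂
  exact h J hJ F A hA

end Pool.KPO

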