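import Pool.Agent.H31.D2.Kp15

/-!
# The cell [one, thin, thin] in a class

`kap_cls`: in a class, one coordinate of slope one, two thin coordinates of slope more than one, a
target of slope more than two with a `2`-steep row, no tie: a contradiction.
-/

set_option autoImplicit false

namespace Pool.KPO

open Finset Real MvPolynomial
open Pool.Agent.H49.Ent Pool.Agent.H32.Dense Pool.STK Pool.KA Pool.KSAT Pool.K2S Pool.PB Pool.S6C
open Pool.GEN Pool.CHT Pool.CHX Pool.ISO Pool.D2F Pool.D2Z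
open Pool.D2R (dd hs nrm nrm_nonneg co co_slam Wins WinB ROutB winb_star natb_all)
open Pool.D2N (Dpw WFr)
open Pool.F5 (NatH LvT)
open Pool.LBT (ThrOf)
open Pool.PKG (RecQ RecL PtI KdQ Kd)

/-- **The class theorem.** -/
theorem kap_cls (m : ℕ) {Sl : ℕ → ℝ} (hs0 : Sl 0 = 1) (hs1 : 1 < Sl 1) (hs2 : 1 < Sl 2)
    (hs3 : 2 < Sl 3) {l₀ : ℕ} (hl1 : 1 ≤ l₀) (hl3 : l₀ < 3)
    (hne : ∀ i < 3, i ≠ l₀ → Sl i ≠ Sl 3 - 1) (S₀ : ℕ) (hS₀ : 1 ≤ S₀) :
    ∃ (K : ℝ) (N : ℕ) (A V : ℕ → ℝ), 1 ≤ K ∧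
    (∀ k < N, -K ≤ V k ∧ V k ≤ A k ∧ A k ≤ K) ∧
    ∀ S₂ : ℕ, S₀ ≤ S₂ → ∃ (N' : ℕ) (V' : ℕ → ℝ), (∀ k < N', -K ≤ V' k ∧ V' k ≤ K) ∧
      ∃ ε : ℝ, 0 < ε ∧ ∀ {S : PCl m} {P P₂ : List (Fin m) × Fin m → ℝ → ℝ → ℝ} {θ θ₂ : ℝ}
      {c : ℕ → Fin m} {Pt : ℝ → ℝ → ℝ} {L T : ℕ → ℝ → ℝ → ℝ} {Eb e₂ q t : ℝ} {kd : ℕ → Kd},
      (∀ l < 3, kd l = .one ∨ kd l = .thin) →
      RecQ S P P₂ θ θ₂ c 3 Pt L T Sl kd S₀ N A V S₂ N' V' Eb e₂ K ε q t → False := by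
  classical
  obtain ⟨γ, hγ0, hγ1, hγa, hγb, hγc, hγn⟩ := kgain hs1 hs2 hs3 hne
  obtain ⟨s, hs⟩ : ∃ s : ℝ, s = 1 + Sl 1 + Sl 2 + Sl 3 := ⟨_, rfl⟩
  have hs5 : 5 ≤ s := by rw [hs]; linarith
  have hSl : ∀ l ≤ 3, 1 ≤ Sl l ∧ Sl l ≤ s - 1 := by
    intro l hl
    rw [hs]
    interval_cases l <;> constructor <;> linarith
  obtain ⟨m₁, hm₁⟩ : ∃ m₁ : ℕ, 8 * s / γ ≤ (m₁ : ℝ) := exists_nat_ge _
  rw [div_le_iff₀ hγ0] at hm₁
  have hm₁0 : (0 : ℝ) < m₁ := by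
    by_contra h
    have h1 : (m₁ : ℝ) * γ ≤ 0 := mul_nonpos_of_nonpos_of_nonneg (not_lt.1 h) hγ0.le
    linarith
  obtain ⟨x', hx'⟩ : ∃ x' : ℝ, x' = 1 / m₁ := ⟨_, rfl⟩
  have hx0 : 0 < x' := by rw [hx']; positivity
  have hsx : 8 * (s * x') ≤ γ := by
    rw [hx', mul_one_div, ← mul_div_assoc, div_le_iff₀ hm₁0]
    linarith
  have hx1 : 40 * x' ≤ γ := by
    have := mul_le_mul_of_nonneg_right hs5 hx0.le
    linarith
  obtain ⟨A', hA'⟩ : ∃ A' : ℝ, A' = 3 * s + 10 := ⟨_, rfl⟩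
  obtain ⟨K, hK⟩ : ∃ K : ℝ, K = 3 * s + 20 := ⟨_, rfl⟩
  have hkv4 : ∀ n₁ : ℕ, ∀ k ≤ 4, 0 ≤ kv x' n₁ k ∧ kv x' n₁ k ≤ 3 := by
    intro n₁ k hk
    interval_cases k
    · rw [kv0]; constructor <;> norm_num
    · rw [kv1]; constructor <;> norm_num
    · rw [kv2]; constructor <;> norm_num
    · rw [kv3]; constructor <;> linarith
    · rw [kv4]; constructor <;> norm_num
  refine ⟨K, 5, fun _ => A', kv x' 1, by linarith, fun k hk => ?_, fun S₂ hS₂ => ?_⟩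
  · have := hkv4 1 k (by omega)
    refine ⟨by linarith, ?_, ?_⟩
    · show kv x' 1 k ≤ A'
      linarith
    · show A' ≤ K
      linarith
  -- the constants
  have hS21 : 1 ≤ S₂ := hS₀.trans hS₂
  obtain ⟨D, hD, hcon⟩ := Pool.D2R.RecQ.wins m 3 S₂ (by norm_num) hS21
  obtain ⟨D', hD', hcon'⟩ := Pool.D2R.RecL.wins m l₀ S₂ hl1 hS21
  obtain ⟨Cw, CB, hCw, hCB, hcon⟩ := hcon (D + D') (by omega)
  obtain ⟨Cv, CV, hCv, hCV, hcon'⟩ := hcon' D' le_rfl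
  obtain ⟨Nk, hNk⟩ : ∃ Nk : ℕ, 4 * (s + 2) ≤ (Nk : ℝ) := exists_nat_ge _
  obtain ⟨Cs, Cn, Cc, Ck, Cr, hCs, hCn, hCc, hCk, hCr, hfin⟩ :=
    kap_fin m D D' l₀ Nk hD hD' hl1 hl3
  have hCsR : (1 : ℝ) ≤ Cs := by exact_mod_cast hCs
  have hCnR : (1 : ℝ) ≤ Cn := by exact_mod_cast hCn
  have hCcR : (1 : ℝ) ≤ Cc := by exact_mod_cast hCc
  have hCkR : (1 : ℝ) ≤ Ck := by exact_mod_cast hCk
  obtain ⟨cζ, hcζ⟩ : ∃ cζ : ℝ, cζ = 3 * s * (Cs + 4) := ⟨_, rfl⟩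
  have hcζ1 : 15 * s ≤ cζ := by
    rw [hcζ]
    nlinarith
  obtain ⟨m₃, hm₃⟩ : ∃ m₃ : ℕ, (Cn * cζ + 1) / γ ≤ (m₃ : ℝ) := exists_nat_ge _
  rw [div_le_iff₀ hγ0] at hm₃
  have hcζ0 : 0 < cζ := by linarith
  have hCnζ : cζ ≤ Cn * cζ := le_mul_of_one_le_left hcζ0.le hCnR
  have hm₃0 : (0 : ℝ) < m₃ := by
    by_contra h
    have h1 : (m₃ : ℝ) * γ ≤ 0 := mul_nonpos_of_nonpos_of_nonneg (not_lt.1 h) hγ0.le
    linarith
  obtain ⟨cυ, hcυ⟩ : ∃ cυ : ℝ, cυ = s * m₃ + Cn * cζ + 1 := ⟨_, rfl⟩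
  have hcυ0 : Cn * cζ + 1 ≤ cυ := by
    rw [hcυ]
    have : 0 ≤ s * (m₃ : ℝ) := by positivity
    linarith
  obtain ⟨cμ, hcμ⟩ : ∃ cμ : ℝ, cμ = Cn * cζ + 2 * cυ := ⟨_, rfl⟩
  obtain ⟨cX, hcX⟩ : ∃ cX : ℝ, cX = (Cc + 20) * (cμ + 3 * s + 1) := ⟨_, rfl⟩
  have hcμ0 : 0 < cμ := by linarith
  have hcX0 : 21 * (cμ + 3 * s + 1) ≤ cX := by
    rw [hcX]
    exact mul_le_mul_of_nonneg_right (by linarith) (by linarith)
  obtain ⟨cn, hcn⟩ : ∃ cn : ℝ, cn = Ck * (3 * cX + 3 * s + 1) := ⟨_, rfl⟩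
  have hcn0 : 3 * cX + 3 * s + 1 ≤ cn := by
    rw [hcn]
    exact le_mul_of_one_le_left (by linarith) hCkR
  obtain ⟨cT, hcT⟩ : ∃ cT : ℝ, cT = cn + m₃ + 1000 := ⟨_, rfl⟩
  have hcT0 : 0 < cT := by linarith
  obtain ⟨m₀, hm₀⟩ : ∃ m₀ : ℕ, 1000 * (Cr * cT) ≤ (m₀ : ℝ) := exists_nat_ge _
  have hCrT : cT ≤ Cr * cT := le_mul_of_one_le_left hcT0.le hCr
  have hm₀0 : (0 : ℝ) < m₀ := by linarith
  obtain ⟨h₀, hh₀⟩ : ∃ h₀ : ℝ, h₀ = x' / m₀ := ⟨_, rfl⟩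
  have hh0 : 0 < h₀ := by rw [hh₀]; positivity
  have hhm : h₀ * m₀ = x' := by
    rw [hh₀]
    field_simp
  have hT : 1000 * (Cr * (cT * h₀)) ≤ x' := by
    rw [← hhm]
    have := mul_le_mul_of_nonneg_left hm₀ hh0.le
    linarith
  have hCrT' : cT * h₀ ≤ Cr * (cT * h₀) := le_mul_of_one_le_left (by positivity) hCr
  have hT1 : 1000 * (cT * h₀) ≤ x' := by linarith
  have hh1 : 1000000 * h₀ ≤ x' := by
    have : 1000 * h₀ ≤ cT * h₀ := mul_le_mul_of_nonneg_right (by linarith) hh0.le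
    linarith
  obtain ⟨n₁, hn₁⟩ : ∃ n₁ : ℕ, n₁ = m₁ * m₀ := ⟨_, rfl⟩
  have hn₁R : (n₁ : ℝ) = m₁ * m₀ := by rw [hn₁]; push_cast; ring
  have hn₁0 : 0 < n₁ := by
    have : (0 : ℝ) < n₁ := by rw [hn₁R]; positivity
    exact_mod_cast this
  have hn₁R0 : (0 : ℝ) < n₁ := by exact_mod_cast hn₁0
  have hxn : x' * n₁ = m₀ := by
    rw [hn₁R, hx']
    field_simp
  have hhn : h₀ * n₁ = 1 := by
    rw [hn₁R, hh₀, hx']
    field_simp
  have hin : ∀ i : ℕ, (i : ℝ) / n₁ = i * h₀ := fun i => by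
    rw [div_eq_iff hn₁R0.ne', mul_assoc, hhn, mul_one]
  have hm30 : 0 < m₃ := by exact_mod_cast hm₃0
  have hm₃m₀ : m₃ < m₀ := by
    have h1 : (m₃ : ℝ) < m₀ := by linarith
    exact_mod_cast h1
  have hm₀n₁ : m₀ < n₁ := by
    have h1 : (m₀ : ℝ) < n₁ := by
      rw [← hxn]
      have : x' * n₁ ≤ 1 / 40 * n₁ := mul_le_mul_of_nonneg_right (by linarith) hn₁R0.le
      linarith
    exact_mod_cast h1
  obtain ⟨K₀, hK₀⟩ : ∃ K₀ : ℝ, K₀ = Cw + CB + Cv + CV := ⟨_, rfl⟩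
  have hK4 : 4 ≤ K₀ := by rw [hK₀]; linarith
  obtain ⟨y, hy⟩ : ∃ y : ℝ, y = h₀ / (4 * K₀) := ⟨_, rfl⟩
  have hy0 : 0 < y := by rw [hy]; positivity
  have hKy : K₀ * y = h₀ / 4 := by
    rw [hy]
    field_simp
  obtain ⟨ε, hε⟩ : ∃ ε : ℝ, ε = y / (4 * K₀) := ⟨_, rfl⟩
  have hε0 : 0 < ε := by rw [hε]; positivity
  have hKε : K₀ * ε = y / 4 := by
    rw [hε]
    field_simp
  have hyh : 16 * y ≤ h₀ := by
    have := mul_le_mul_of_nonneg_right hK4 hy0.le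
    linarith
  have hεy : 16 * ε ≤ y := by
    have := mul_le_mul_of_nonneg_right hK4 hε0.le
    linarith
  have hεh : 256 * ε ≤ h₀ := by linarith
  have hCwy : Cw * y ≤ h₀ / 4 := by
    rw [← hKy]
    exact mul_le_mul_of_nonneg_right (by linarith) hy0.le
  have hCBy : CB * y ≤ h₀ / 4 := by
    rw [← hKy]
    exact mul_le_mul_of_nonneg_right (by linarith) hy0.le
  have hCvy : Cv * y ≤ h₀ / 4 := by
    rw [← hKy]
    exact mul_le_mul_of_nonneg_right (by linarith) hy0.le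
  have hCwε : Cw * ε ≤ y / 4 := by
    rw [← hKε]
    exact mul_le_mul_of_nonneg_right (by linarith) hε0.le
  have hCvε : Cv * ε ≤ y / 4 := by
    rw [← hKε]
    exact mul_le_mul_of_nonneg_right (by linarith) hε0.le
  refine ⟨3 * n₁ + 1, fun j => (j : ℝ) / n₁, fun j hj => ?_, ε, hε0, ?_⟩
  · have h1 : (j : ℝ) ≤ 3 * n₁ := by
      have : j ≤ 3 * n₁ := by omega
      exact_mod_cast this
    have h2 : (j : ℝ) / n₁ ≤ 3 := by
      rw [div_le_iff₀ hn₁R0]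
      linarith
    have h3 : (0 : ℝ) ≤ (j : ℝ) / n₁ := by positivity
    refine ⟨?_, ?_⟩
    · show -K ≤ (j : ℝ) / n₁
      linarith
    · show (j : ℝ) / n₁ ≤ K
      linarith
  intro S P P₂ θ θ₂ c Pt L T Eb e₂ q t kd hkd R
  obtain ⟨Eb', e', RL⟩ := R.lst l₀ hl1 hl3
  have hq := R.q0
  have ht0 := R.t0
  have ht1 := R.t1
  have hKh : h₀ ≤ 1 := by linarith
  have mq : ∀ {x z : ℝ}, x ≤ z → x * q ≤ z * q := fun h => mul_le_mul_of_nonneg_right h hq.le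
  obtain ⟨v, hv⟩ : ∃ v : ℕ → ℝ, v = kv x' n₁ := ⟨_, rfl⟩
  have hv0 : v 0 = 0 := by rw [hv]; exact kv0 _ _
  have hv1 : v 1 = 1 := by rw [hv]; exact kv1 _ _
  have hv2 : v 2 = 2 := by rw [hv]; exact kv2 _ _
  have hv3 : v 3 = 1 + x' := by rw [hv]; exact kv3 _ _
  have hv4 : v 4 = 3 := by rw [hv]; exact kv4 _ _
  have hv5 : ∀ j, v (5 + j) = j * h₀ := fun j => by rw [hv, kv5, hin]
  have hvf : ∀ i, v (kf n₁ m₀ i) = i * h₀ := fun i => by rw [hv, kv_kf hn₁0 hxn, hin]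
  have hvb : ∀ k ≤ 5 + 3 * n₁, 0 ≤ v k ∧ v k ≤ 3 := by
    intro k hk
    rcases Nat.lt_or_ge k 5 with h | h
    · rw [hv]
      exact hkv4 n₁ k (by omega)
    · obtain ⟨j, rfl⟩ := Nat.exists_eq_add_of_le h
      rw [hv5]
      have h1 : (j : ℝ) ≤ 3 * n₁ := by exact_mod_cast (show j ≤ 3 * n₁ by omega)
      have h2 := mul_le_mul_of_nonneg_right h1 hh0.le
      constructor
      · positivity
      · linarith
  obtain ⟨v', hv'0, hv'1⟩ : ∃ v' : ℕ → ℝ, v' 0 = 1 + x' ∧ v' 1 = 3 :=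
    ⟨fun k => if k = 0 then 1 + x' else 3, by simp, by simp⟩
  have hεq : 0 < ε * q := mul_pos hε0 hq
  have hlv : ∀ l ≤ 3, ∀ p : ℝ, 0 ≤ p → p ≤ K →
      L l t t + Sl l * p * q - ε * q ≤ L l (t + p * q) (t + p * q) ∧
      L l (t + p * q) (t + p * q) ≤ L l t t + Sl l * p * q + ε * q := by
    intro l hl p hp0 hpK
    have h2 := mq hpK
    have h3 := mul_nonneg hp0 hq.le
    have e1 : t + p * q - t = p * q := by ring
    have h1 := abs_le.1 (R.dL l hl (t + p * q) (by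
      rw [e1, abs_of_nonneg h3]
      exact h2))
    rw [e1] at h1
    constructor <;> linarith
  have hlT : ∀ l ≤ 3, ∀ p : ℝ, 0 ≤ p → p ≤ K →
      L l t t + Sl l * p * q - ε * q ≤ T l (t + p * q) (t + p * q) ∧
      T l (t + p * q) (t + p * q) ≤ L l t t + Sl l * p * q + ε * q := by
    intro l hl p hp0 hpK
    have h2 := mq hpK
    have h3 := mul_nonneg hp0 hq.le
    have e1 : t + p * q - t = p * q := by ring
    have h1 := abs_le.1 (R.dT l hl (t + p * q) (by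
      rw [e1, abs_of_nonneg h3]
      exact h2))
    rw [e1] at h1
    constructor <;> linarith
  have hlow : ∀ l ≤ 3, t ≤ L l t t := by
    intro l hl
    obtain ⟨ρ, vs, e, e₀, E, sg, Q, d1, -⟩ := (R.pt 0 (by norm_num)).2
    have h1 := d1.low R.thr l
    rw [kv0, zero_mul, add_zero] at h1
    rw [R.lv l hl]
    exact h1
  have hroom : ∀ l ≤ 3, ∀ p : ℝ, 0 ≤ p → p ≤ K →
      L l (t + p * q) (t + p * q) + Eb + 3 * K * q < 1 := by
    intro l hl p hp0 hpK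
    have h2 := mq hpK
    have h3 := mul_nonneg hp0 hq.le
    have e1 : t + p * q - t = p * q := by ring
    exact R.room l hl (t + p * q) (by
      rw [e1, abs_of_nonneg h3]
      exact h2)
  have hroom' : ∀ l ≤ l₀, ∀ p : ℝ, 0 ≤ p → p ≤ K →
      L l (t + p * q) (t + p * q) + Eb' + 3 * K * q < 1 := by
    intro l hl p hp0 hpK
    have h2 := mq hpK
    have h3 := mul_nonneg hp0 hq.le
    have e1 : t + p * q - t = p * q := by ring
    exact RL.room l hl (t + p * q) (by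
      rw [e1, abs_of_nonneg h3]
      exact h2)
  have he₂ : ∀ p : ℝ, 0 ≤ p → p ≤ K → e₂ < θ₂ * (t + p * q) := by
    intro p hp0 hpK
    have h2 := mq hpK
    have h3 := mul_nonneg hp0 hq.le
    have e1 : t + p * q - t = p * q := by ring
    exact R.e₂θ (t + p * q) (by
      rw [e1, abs_of_nonneg h3]
      exact h2)
  have he' : ∀ p : ℝ, 0 ≤ p → p ≤ K → e' < θ * (t + p * q) := by
    intro p hp0 hpK
    have h2 := mq hpK
    have h3 := mul_nonneg hp0 hq.le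
    have e1 : t + p * q - t = p * q := by ring
    exact RL.eθ (t + p * q) (by
      rw [e1, abs_of_nonneg h3]
      exact h2)
  -- the steep row
  have hstp : L 3 t t + 2 * A' * q - 2 * (ε * q) ≤ L 3 (t + A' * q) (t + v 0 * q) := by
    have h1 := (R.TL 0 (by norm_num) 3 le_rfl).1
    beta_reduce at h1
    have h2 := R.stp (t + A' * q) (t + 0 * q) (by
      have := mq (show (0 : ℝ) ≤ K by linarith)
      linarith) (by
      have := mq (show (0 : ℝ) ≤ A' by linarith)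
      linarith) (by
      have := mq (show A' ≤ K by linarith)
      linarith)
    have h3 := (hlT 3 le_rfl 0 le_rfl (by linarith)).1
    rw [kv0] at h1
    rw [hv0]
    linarith
  -- the thin row of the list coordinate
  have hthin : ∀ a w : ℝ, t - K * q ≤ w → w ≤ a → a ≤ t + K * q →
      L l₀ a w ≤ T l₀ w w + (a - w) + ε * q := by
    have h1 := R.kd l₀ hl3
    rcases hkd l₀ hl3 with h | h
    · rw [h] at h1
      have h2 : Sl l₀ = 1 := h1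
      rcases (show l₀ = 1 ∨ l₀ = 2 by omega) with h3 | h3
      · rw [h3] at h2
        linarith
      · rw [h3] at h2
        linarith
    · rw [h] at h1
      exact h1.2
  -- the windows of the record
  obtain ⟨K₁, b, hK₁, hcon⟩ := hcon R hS₂ hε0.le A' y (h₀ / 2) 4 (5 + 3 * n₁) 0 v
    (fun _ => True) (by linarith) hy0 (by linarith) (by linarith) (half_pos hh0) (by omega)
    (by linarith) (fun k hk => ⟨k, by omega, rfl, by rw [hv]; exact kv_le4 hk⟩)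
    (fun k hk => by
      have := hvb k hk
      constructor <;> linarith)
    (fun k h1 h2 => ⟨k - 5, by omega, by
      obtain ⟨j, rfl⟩ := Nat.exists_eq_add_of_le (show 5 ≤ k by omega)
      rw [hv, kv5, show 5 + j - 5 = j by omega]⟩) (fun l hl _ => hkd l hl)
  obtain ⟨K₁', b', hK₁', hcon'⟩ := hcon' hl3 R RL hS₂ hε0.le A' y (h₀ / 2) 1 1 0 v'
    (fun _ => True) (by linarith) hy0 (by linarith) (by linarith) (half_pos hh0) le_rfl
    (by linarith) (fun k hk => by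
      interval_cases k
      · exact ⟨3, by norm_num, rfl, by rw [hv'0, kv3]⟩
      · exact ⟨4, by norm_num, rfl, by rw [hv'1, kv4]⟩)
    (fun k hk => by
      interval_cases k
      · rw [hv'0]
        constructor <;> linarith
      · rw [hv'1]
        constructor <;> linarith)
    (fun k h1 h2 => by omega) (fun l hl _ => hkd l (by omega))
  have hcon' := hcon' 1 one_pos
  -- the rational points
  have hhq : 0 < h₀ * q := mul_pos hh0 hq
  have hWex : ∀ k : ℕ, ∃ W : ℚ, k ≤ 5 + 3 * n₁ → t + v k * q ≤ W ∧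
      (W : ℝ) ≤ t + v k * q + h₀ * q ∧
      ∀ l ≤ 3, bet P₂ c l W W ≤ L l (t + v k * q) (t + v k * q) + h₀ * q := by
    intro k
    by_cases hk : k ≤ 5 + 3 * n₁
    · have hvk := hvb k hk
      rcases Nat.lt_or_ge k 5 with h | h
      · obtain ⟨d, hd, h1⟩ := R.rat k h (h₀ * q) hhq
        have e1 : kv x' 1 k = v k := by rw [hv]; exact kv_le4 (by omega)
        rw [e1] at h1
        obtain ⟨W, w1, w2⟩ := rat_in (x := t + v k * q) (lt_min hd hhq)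
        have w3 := min_le_left d (h₀ * q)
        have w4 := min_le_right d (h₀ * q)
        refine ⟨W, fun _ => ⟨w1, by linarith, ?_⟩⟩
        have h2 := mq hvk.2
        have h3 := mq (show 3 + h₀ ≤ A' by linarith)
        exact (h1 (t + A' * q) W le_rfl (by
          show t + A' * q ≤ t + A' * q + d
          linarith) w1 (by linarith) (by linarith)).2.1
      · obtain ⟨j, rfl⟩ := Nat.exists_eq_add_of_le h
        obtain ⟨d, hd, h1⟩ := R.ratc j (by omega) (h₀ * q) hhq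
        beta_reduce at h1
        rw [hin j, ← hv5 j] at h1
        obtain ⟨W, w1, w2⟩ := rat_in (x := t + v (5 + j) * q) (lt_min hd hhq)
        have w3 := min_le_left d (h₀ * q)
        have w4 := min_le_right d (h₀ * q)
        exact ⟨W, fun _ => ⟨w1, by linarith, h1 W w1 (by linarith)⟩⟩
    · exact ⟨0, fun h => absurd h hk⟩
  choose W hW using hWex
  obtain ⟨a, w, ha1, ha2, hw1, hw2, hbet⟩ : ∃ a w : ℚ, t + A' * q ≤ a ∧
      (a : ℝ) ≤ t + A' * q + h₀ * q ∧ t + v' 0 * q ≤ w ∧ (w : ℝ) ≤ t + v' 0 * q + h₀ * q ∧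
      bet P c l₀ a w ≤ L l₀ (t + A' * q) (t + v' 0 * q) + h₀ * q := by
    obtain ⟨d, hd, h1⟩ := RL.rat 3 (by norm_num) (h₀ * q) hhq
    beta_reduce at h1
    rw [kv3, ← hv'0] at h1
    have w3 := min_le_left d (h₀ * q)
    have w4 := min_le_right d (h₀ * q)
    obtain ⟨w, w1, w2⟩ := rat_in (x := t + v' 0 * q) (lt_min hd hhq)
    obtain ⟨a, a1, a2⟩ := rat_in (x := t + A' * q) (lt_min hd hhq)
    refine ⟨a, w, a1, by linarith, w1, by linarith, h1 a w a1 (by linarith) w1 (by linarith) ?_⟩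
    have h3 := mq (show 1 + x' + h₀ ≤ A' by linarith)
    rw [hv'0] at w2
    linarith
  refine hfin (Sl := Sl) (m₃ := m₃) (m₀ := m₀) (n₁ := n₁) (Cw := Cw) (CB := CB) (Cv := Cv)
    (γ := γ) (s := s) (x' := x') (A' := A') (K := K) (cζ := cζ) (cυ := cυ) (cμ := cμ) (cX := cX)
    (cn := cn) (cT := cT) (h₀ := h₀) (y := y) (ε := ε) (S := S) (P := P) (P₂ := P₂) (θ := θ)
    (θ₂ := θ₂) (c := c) (L := L) (Eb := Eb) (e₂ := e₂) (Eb' := Eb') (e' := e') (q := q) (t := t)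
    (v := v) (v' := v') (W := W) (a := a) (w := w) (K₁ := K₁) (K₁' := K₁') (b := b) (b' := b')
    ⟨hs0, hSl, hs5, hγ0, hγ1, hγa, hγb, hγc, hγn, hx0, hsx, hA', hK, hCs, hCn, hCc, hCk, hCr,
      hNk, hcζ, hm₃, hcυ, hcμ, hcX, hcn, hcT, hh0, hT, hhn, hhm, hm30, hm₃m₀, hm₀n₁, hy0, hyh,
      hε0, hεy, hCwy, hCBy, hCvy⟩
    ⟨R.ne, R.thr, R.thr₂, R.tmh, R.inj, hq, ht0, ht1, R.Eb0, R.Ebe, RL.Eb0, RL.Ebe, hv0, hv1, hv2,
      hv3, hv4, hv5, hvf, hvb, hv'0, hv'1, hlv, hlow, hroom, hroom', fun p hp0 hpK z hz => ?_,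
      fun p hp0 hpK z hz => ?_, hstp, fun k hk => hW k hk, ha1, ha2, hw1, hw2, ?_⟩ hK₁ hK₁' hcon
    (Bas.mono 0 hcon' (fun J _ F A₀ hA z hz => by
      obtain ⟨B, gc, gT, g₀, G, H, Th, TH, Gt, Ht, k1, k2, k3, -⟩ := hA z hz
      exact ⟨B, gc, gT, g₀, G, H, Th, TH, Gt, Ht, k1, k2, k3⟩))
  · exact (he₂ p hp0 hpK).trans_le (mul_le_mul_of_nonneg_left hz R.th₂0.le)
  · exact (he' p hp0 hpK).trans_le (mul_le_mul_of_nonneg_left hz R.th0.le)
  · have h1 := hthin (t + A' * q) (t + v' 0 * q) (by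
      rw [hv'0]
      have := mq (show (0 : ℝ) ≤ K by linarith)
      have := mul_nonneg (show (0 : ℝ) ≤ 1 + x' by linarith) hq.le
      linarith) (by
      rw [hv'0]
      have := mq (show 1 + x' ≤ A' by linarith)
      linarith) (by
      have := mq (show A' ≤ K by linarith)
      linarith)
    have h2 := (hlT l₀ (by omega) (1 + x') (by linarith) (by linarith)).2
    rw [hv'0] at h1 hbet
    linarith

end Pool.KPO
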