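import Pool.Agent.H54.C2T.Flr

/-!
# The row label at the rounded point, `r` coordinates

`hx_shr`: the gradient of a label at the rounded point is near the gradient at the exact point.
`gt_rowr`: the gradient of the visible row label at the rounded point is near the gradient of the
closed row label at the exact point.
-/

set_option autoImplicit false

namespace Pool.KPO

open Finset Real MvPolynomial
open Pool.Agent.H49.Ent Pool.Agent.H32.Dense Pool.STK Pool.KA Pool.KSAT Pool.K2S Pool.PB Pool.S6C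
open Pool.GEN Pool.CHT Pool.CHX Pool.ISO Pool.D2R Pool.D2Z Pool.D2F Pool.RCV
open Pool.C2T (gno_hx nrm_top)

variable {m J : ℕ}

/-- **The gradient of a label at the rounded point.** -/
theorem hx_shr (m D r : ℕ) : ∃ C : ℕ, ∀ {J : ℕ} {F : Fam m J} {c : ℕ → Fin m} {a w e s : ℕ}
    {g : ℕ → ℕ} {B : F.Ω → Prop} {G : PtT F → ℕ → MvPolynomial (Option (Fin m)) ℝ}
    {H : LnT F → ℕ → MvPolynomial (Option (Fin m)) ℝ} {Q : MvPolynomial (Option (Fin m)) ℝ}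
    {M : ℝ}, Set.InjOn c (Set.Iio (r + 1)) →
    ChOK F c (r + 1) (fun _ => D) a w e g B (fun y l => Gno (c l) J J (fun y => G y l) y) H →
    (∀ l < r + 1, e + g l + s + C ≤ J) → DepC c r Q → Q.totalDegree ≤ D → ∀ {ω : F.Ω},
    B ω → (∀ b, NBx c (fun l => Gno (c l) J J (fun y => G y l) (ptr F J ω)) g a (F.t ω) r b →
      |eval b Q - eval b (Gno (c r) J J (fun y => G y r) (ptr F J ω))| ≤ M) →
    ∀ V : Option (Fin m) → ℝ, |dd Q (hx F ω) V - dd Q (bt F ω) V| ≤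
      2 ^ C * (M + 1 / 2 ^ g r) / 2 ^ s *
        nrm c (fun l => Gno (c l) J J (fun y => G y l) (ptr F J ω)) g a r (bt F ω) V := by
  have hsh := fun i : ℕ => shf_pol m D i
  choose C₁ hsh using hsh
  obtain ⟨C₂, hC₂⟩ : ∃ C : ℕ, C = ∑ i ∈ range (r + 1), C₁ i := ⟨_, rfl⟩
  have hCi : ∀ i ≤ r, C₁ i ≤ C₂ := fun i hi => by
    rw [hC₂]
    exact Finset.single_le_sum (f := C₁) (fun _ _ => Nat.zero_le _)
      (Finset.mem_range.2 (by omega))
  refine ⟨C₂ + (C₂ + 1) * r, ?_⟩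
  intro J F c a w e s g B G H Q M hc hch hJ hQ hQd ω hω hM V
  obtain ⟨ψ, hψ⟩ : ∃ ψ : ℕ → MvPolynomial (Option (Fin m)) ℝ,
      ψ = fun l => Gno (c l) J J (fun y => G y l) (ptr F J ω) := ⟨_, rfl⟩
  have hψd : ∀ l, (ψ l).totalDegree ≤ D := fun l => by rw [hψ]; exact hch.degG (ptr F J ω) l
  have hψp : ∀ l, DepC c l (ψ l) := fun l => by rw [hψ]; exact hch.depG (ptr F J ω) l
  have hlip : ∀ l < r + 1, ∀ b, NBx c ψ g a (hx F ω none) l b → ∀ j < l,
      |eval b (pderiv (some (c j)) (ψ l))| ≤ 2 ^ (e + nlp g j l) := by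
    intro l hl b hb j hj
    rw [hψ] at hb ⊢
    exact hch.lip ω hω l hl b hb j hj
  obtain ⟨η, hη⟩ : ∃ η : Option (Fin m) → ℝ, η = fun o => bt F ω o - hx F ω o := ⟨_, rfl⟩
  have hη0 : η none = 0 := by
    rw [hη]
    show bt F ω none - hx F ω none = 0
    rw [hx_none, sub_self]
  have hη1 : ∀ k, |η (some k)| ≤ 1 / 2 ^ J := by
    intro k
    rw [hη]
    show |bt F ω (some k) - hx F ω (some k)| ≤ _
    rw [abs_sub_comm]
    exact hx_some F ω k
  have he : (fun o => hx F ω o + η o) = bt F ω := by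
    rw [hη]
    funext o
    ring
  have hpos : ∀ l, |hx F ω (some (c l)) - eval (hx F ω) (ψ l)| ≤ 1 / 2 ^ (g l + 1) := by
    intro l
    rw [hψ]
    show |hx F ω (some (c l)) - eval (hx F ω) (Gno (c l) J J (fun y => G y l) (ptr F J ω))| ≤ _
    rw [gno_hx, sub_self, abs_zero]
    positivity
  have hr1 : (C₂ + 1) * r + C₂ = C₂ + (C₂ + 1) * r := by ring
  -- the two norms
  have hNc : Nc c g a r (2 ^ C₂) (fun l => grd (ψ l) (hx F ω)) (fun l => grd (ψ l) (bt F ω)) := by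
    intro l hl V
    have h1 := (hsh l (c := c) (ψ := ψ) (Q := ψ l) (g := g) (a := a) (e := e) (s := s) (J := J)
      (M := 0) (x := hx F ω) (η := η) (hc.mono fun x hx => by rw [Set.mem_Iio] at hx ⊢; omega)
      hψd hψp (hψp l) (hψd l) (fun j hj => hlip j (by omega)) (fun b _ => by
        rw [sub_self, abs_zero]) (fun j hj => by
        have := hJ j (by omega)
        have := hCi l hl.le
        omega) hη0 (fun j _ => hη1 (c j)) (fun j _ => hpos j)).2.1 V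
    rw [he, zero_add, nrm_en] at h1
    rw [cv_subl, cv_grd, cv_grd]
    refine h1.trans (mul_le_mul_of_nonneg_right ?_ (en_nonneg _ _ _ _ _ _))
    have h2 : (2 : ℝ) ^ C₁ l ≤ 2 ^ C₂ := pow_le_pow_right₀ (by norm_num) (hCi l hl.le)
    have h3 : (1 : ℝ) ≤ 2 ^ s := one_le_pow₀ (by norm_num)
    calc (2 : ℝ) ^ C₁ l * (1 / 2 ^ g l) / 2 ^ s ≤ 2 ^ C₂ * (1 / 2 ^ g l) / 1 :=
          div_le_div₀ (by positivity) (mul_le_mul_of_nonneg_right h2 (by positivity))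
            one_pos h3
      _ = _ := by rw [div_one]; ring
  have hnn : nrm c ψ g a r (hx F ω) V ≤ 2 ^ ((C₂ + 1) * r) * nrm c ψ g a r (bt F ω) V := by
    rw [nrm_en, nrm_en]
    exact (hNc.en_ge (by positivity) le_rfl V).trans (mul_le_mul_of_nonneg_right (pow1 C₂ r)
      (en_nonneg _ _ _ _ _ _))
  have h1 := (hsh r (c := c) (ψ := ψ) (Q := Q) (g := g) (a := a) (e := e) (s := s) (J := J)
    (M := M) (x := hx F ω) (η := η) hc hψd hψp hQ hQd hlip (fun b hb => by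
      rw [hψ] at hb ⊢
      exact hM b hb) (fun l hl => by
      have := hJ l hl
      have := hCi r le_rfl
      omega) hη0 (fun l _ => hη1 (c l)) (fun l _ => hpos l)).2.1 V
  have hM0 : 0 ≤ M := by
    obtain ⟨b, hb, -⟩ := nbx_up (c := c)
      (G := fun l => Gno (c l) J J (fun y => G y l) (ptr F J ω)) (g := g) (a := a) (t := F.t ω)
      (l := 0) (r := r) (hc.mono fun x hx => by rw [Set.mem_Iio] at hx ⊢; omega)
      (fun l => hch.depG (ptr F J ω) l) (Nat.zero_le _) (b := bt F ω)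
      ⟨by
        show |F.t ω - F.t ω| ≤ _
        rw [sub_self, abs_zero]
        positivity, fun j hj => absurd hj (Nat.not_lt_zero j)⟩
    exact (abs_nonneg _).trans (hM b hb)
  rw [he] at h1
  rw [abs_sub_comm, ← hψ]
  have h2 : (2 : ℝ) ^ C₁ r ≤ 2 ^ C₂ := pow_le_pow_right₀ (by norm_num) (hCi r le_rfl)
  calc |dd Q (bt F ω) V - dd Q (hx F ω) V| ≤
        2 ^ C₁ r * (M + 1 / 2 ^ g r) / 2 ^ s * nrm c ψ g a r (hx F ω) V := h1
    _ ≤ 2 ^ C₂ * (M + 1 / 2 ^ g r) / 2 ^ s *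
        (2 ^ ((C₂ + 1) * r) * nrm c ψ g a r (bt F ω) V) :=
        mul_le_mul (div_le_div_of_nonneg_right (mul_le_mul_of_nonneg_right h2 (by positivity))
          (by positivity)) hnn (nrm_nonneg _ _ _ _ _ _ _) (by positivity)
    _ = _ := by
        rw [pow_add 2 C₂ ((C₂ + 1) * r)]
        ring

/-- **The row label at the rounded point.** -/
theorem gt_rowr (m D r : ℕ) : ∃ C : ℕ, 1 ≤ C ∧ ∀ {J : ℕ} {F : Fam m J} {c : ℕ → Fin m}
    {W v e s X p p' : ℕ} {g₀ gc : ℕ → ℕ} {U : ℝ} {B : F.Ω → Prop}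
    {G : PtT F → ℕ → MvPolynomial (Option (Fin m)) ℝ}
    {H : LnT F → ℕ → MvPolynomial (Option (Fin m)) ℝ}
    {Gt : PtT F → MvPolynomial (Option (Fin m)) ℝ}
    {Ht : LnT F → MvPolynomial (Option (Fin m)) ℝ}, Set.InjOn c (Set.Iio (r + 1)) →
    ChOK F c (r + 1) (fun _ => D) (W + v) W e gc B
      (fun y l => Gno (c l) J J (fun y => G y l) y) H →
    (∀ y, (Gt y).totalDegree ≤ D) → (∀ s, (Ht s).totalDegree ≤ D) → (∀ y, DepC c r (Gt y)) →
    (∀ s, DepC c r (Ht s)) → 0 ≤ U →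
    (∀ ω, B ω → ∀ b, NBx c (fun l => Gno (c l) J J (fun y => G y l) (ptr F J ω)) gc (W + v)
      (F.t ω) r b → |eval b (Gt (ptr F J ω)) - eval b (Ht (slam F W ω))| ≤ 1 / 2 ^ p') →
    (∀ ω, B ω → ∀ b, NBx c (fun l => Gno (c l) J J (fun y => G y l) (ptr F J ω)) gc (W + v)
      (F.t ω) r b → |eval b (Ht (slam F W ω)) -
        eval b (Gno (c r) J J (fun y => G y r) (ptr F J ω))| ≤ U / 2 ^ p) →
    (∀ l < r, gc l ≤ g₀ l + v + X) → (∀ l < r + 1, e + gc l + s + C ≤ J) → ∀ ω, B ω →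
    ∀ V : Option (Fin m) → ℝ,
      |dd (Gt (ptr F J ω)) (hx F ω) V - dd (Ht (slam F W ω)) (bt F ω) V| ≤
        2 ^ C * ((1 / 2 ^ p' + U / 2 ^ p + 1 / 2 ^ gc r) / 2 ^ s + 1 / 2 ^ p') * 2 ^ (v + X) *
          nrm c (G (ptr F J ω)) g₀ W r (bt F ω) V := by
  obtain ⟨C₁, hsh⟩ := hx_shr m D r
  obtain ⟨Cb, hCb, hbox⟩ := box_all r D D
  obtain ⟨C₂, hC₂⟩ := pow_unbounded_of_one_lt Cb (one_lt_two (α := ℝ))
  refine ⟨C₁ + C₂ + 2, by omega, ?_⟩
  intro J F c W v e s X p p' g₀ gc U B G H Gt Ht hc htop hdG hdH hpG hpH hU hagr hbx hgc hJ ω hω V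
  have hnt := nrm_top (c := c) (G := G) (W := W) hgc (ptr F J ω) (bt F ω) V
  obtain ⟨NT, hNT⟩ : ∃ NT, NT = nrm c (fun l => Gno (c l) J J (fun y => G y l) (ptr F J ω)) gc
    (W + v) r (bt F ω) V := ⟨_, rfl⟩
  obtain ⟨NG, hNG⟩ : ∃ NG, NG = nrm c (G (ptr F J ω)) g₀ W r (bt F ω) V := ⟨_, rfl⟩
  rw [← hNT, ← hNG] at hnt
  have hNT0 : 0 ≤ NT := by rw [hNT]; exact nrm_nonneg _ _ _ _ _ _ _
  have hNG0 : 0 ≤ NG := by rw [hNG]; exact nrm_nonneg _ _ _ _ _ _ _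
  have h1 := hsh (F := F) (c := c) (a := W + v) (w := W) (e := e) (s := s) (g := gc)
    (B := B) (G := G) (H := H) (Q := Gt (ptr F J ω)) (M := 1 / 2 ^ p' + U / 2 ^ p) hc htop
    (fun l hl => by have := hJ l hl; omega) (hpG _) (hdG _) hω (fun b hb => by
      have e1 : eval b (Gt (ptr F J ω)) - eval b (Gno (c r) J J (fun y => G y r) (ptr F J ω)) =
          (eval b (Gt (ptr F J ω)) - eval b (Ht (slam F W ω))) +
          (eval b (Ht (slam F W ω)) -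
            eval b (Gno (c r) J J (fun y => G y r) (ptr F J ω))) := by ring
      rw [e1]
      exact (abs_add_le _ _).trans (add_le_add (hagr ω hω b hb) (hbx ω hω b hb))) V
  rw [← hNT] at h1
  have h2 := (hbox (c := c) (ψ := fun l => Gno (c l) J J (fun y => G y l) (ptr F J ω))
    (Q := Gt (ptr F J ω) - Ht (slam F W ω)) (g := gc) (a := W + v) (M := 1 / 2 ^ p')
    (x := bt F ω) (hc.mono (Set.Iio_subset_Iio (by omega))) (fun l => htop.degG _ l)
    (fun l => htop.depG _ l) (fun b b' h3 h4 => by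
      rw [map_sub, map_sub, hpG _ b b' h3 h4, hpH _ b b' h3 h4])
    ((totalDegree_sub _ _).trans (max_le (hdG _) (hdH _))) (by positivity) (fun b hb => by
      rw [map_sub]
      exact hagr ω hω b hb) (fun l hl => htop.pos ω hω l (by omega))).1 V
  rw [dd_sub, ← hNT] at h2
  have e1 : dd (Gt (ptr F J ω)) (hx F ω) V - dd (Ht (slam F W ω)) (bt F ω) V =
      (dd (Gt (ptr F J ω)) (hx F ω) V - dd (Gt (ptr F J ω)) (bt F ω) V) +
      (dd (Gt (ptr F J ω)) (bt F ω) V - dd (Ht (slam F W ω)) (bt F ω) V) := by ring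
  rw [e1]
  refine ((abs_add_le _ _).trans (add_le_add h1 h2)).trans ?_
  obtain ⟨Q, hQ⟩ : ∃ Q : ℝ, Q = (1 / 2 ^ p' + U / 2 ^ p + 1 / 2 ^ gc r) / 2 ^ s := ⟨_, rfl⟩
  obtain ⟨P, hP⟩ : ∃ P : ℝ, P = 1 / 2 ^ p' := ⟨_, rfl⟩
  have hQ0 : 0 ≤ Q := by rw [hQ]; positivity
  have hP0 : 0 ≤ P := by rw [hP]; positivity
  have e2 : 2 ^ C₁ * (1 / 2 ^ p' + U / 2 ^ p + 1 / 2 ^ gc r) / 2 ^ s * NT = 2 ^ C₁ * Q * NT := by
    rw [hQ]; ring
  rw [← hNG, e2, ← hQ, ← hP]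
  have hc1 : (2 : ℝ) ^ C₁ ≤ 2 ^ (C₁ + C₂ + 2) := pow_le_pow_right₀ (by norm_num) (by omega)
  have hc2 : Cb ≤ 2 ^ (C₁ + C₂ + 2) := hC₂.le.trans (pow_le_pow_right₀ (by norm_num) (by omega))
  calc 2 ^ C₁ * Q * NT + Cb * P * NT ≤ 2 ^ (C₁ + C₂ + 2) * Q * NT + 2 ^ (C₁ + C₂ + 2) * P * NT :=
        add_le_add (mul_le_mul_of_nonneg_right (mul_le_mul_of_nonneg_right hc1 hQ0) hNT0)
          (mul_le_mul_of_nonneg_right (mul_le_mul_of_nonneg_right hc2 hP0) hNT0)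
    _ = 2 ^ (C₁ + C₂ + 2) * (Q + P) * NT := by ring
    _ ≤ 2 ^ (C₁ + C₂ + 2) * (Q + P) * (2 ^ (v + X) * NG) :=
        mul_le_mul_of_nonneg_left hnt (by positivity)
    _ = _ := by ring

end Pool.KPO
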