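import Pool.Agent.H31.D2.Kp1
import Pool.Agent.H31.D2.Kp2
import Pool.Agent.H90.D2.Hgb
import Pool.Agent.H60.D2.Flt

/-!
# The facts about the windows; the components of the second derivative of the row label

`KDat`: the facts about the row label `Ht` (closed on the window `O 1`) against the covectors `Sv`.
`kdat_of`: they follow from three deep windows. `KDat.pt`: one component of the second derivative is
not small. `KDat.fl`: all are small.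
-/

set_option autoImplicit false

namespace Pool.KPO

open Finset Real MvPolynomial
open Pool.Agent.H49.Ent Pool.Agent.H32.Dense Pool.STK Pool.KA Pool.KSAT Pool.K2S Pool.PB Pool.S6C
open Pool.GEN Pool.CHT Pool.CHX Pool.ISO Pool.D2F Pool.D2Z
open Pool.D2R (dd hs nrm nrm_nonneg co co_slam)
open Pool.D2N (Dpw)

variable {m J : ℕ}

/-- The covector of the second derivatives. -/
noncomputable def cvd (R : MvPolynomial (Option (Fin m)) ℝ) (x W : Option (Fin m) → ℝ) :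
    Option (Fin m) → ℝ := fun o => dd (pderiv o R) x W

theorem hs_cvd (R : MvPolynomial (Option (Fin m)) ℝ) (x W V : Option (Fin m) → ℝ) :
    hs R x W V = cv (cvd R x W) V := rfl

theorem cvc_cvd {c : ℕ → Fin m} {r : ℕ} {R : MvPolynomial (Option (Fin m)) ℝ} (h : DepC c r R)
    (x W : Option (Fin m) → ℝ) : CvC c r (cvd R x W) := by
  intro k hk
  show dd (pderiv (some k) R) x W = 0
  rw [pd_zero' h (fun l hl => (hk l hl).symm)]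
  unfold dd
  simp

/-- **The facts about the row label** at the window `O 1`. -/
structure KDat (F : Fam m J) (c : ℕ → Fin m) (X Γ : ℕ) (O : ℕ → ℕ) (g : ℕ → ℕ → ℕ)
    (B : F.Ω → Prop) (Sv : PtT F → ℕ → Option (Fin m) → ℝ)
    (Gt : PtT F → MvPolynomial (Option (Fin m)) ℝ)
    (Ht : LnT F → MvPolynomial (Option (Fin m)) ℝ) : Prop where
  dS : ∀ y l, CvC c l (Sv y l)
  pG : ∀ y, DepC c 3 (Gt y)
  pH : ∀ s, DepC c 3 (Ht s)
  cur : ∀ ω, B ω → ∀ k ≤ 2, ∀ V : Option (Fin m) → ℝ,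
    |hs (Ht (slam F (O 1) ω)) (bt F ω) (bd F ω) V| ≤
      2 ^ X * (2 ^ O k / 2 ^ g k 3) * en c (g k) (O k) (Sv (ptr F J ω)) 3 V
  row : ∀ ω, B ω → ∀ V : Option (Fin m) → ℝ,
    |dd (Gt (ptr F J ω)) (hx F ω) V - dd (Ht (slam F (O 1) ω)) (bt F ω) V| ≤
      2 ^ X / 2 ^ (g 1 3 + Γ) * en c (g 1) (O 1) (Sv (ptr F J ω)) 3 V
  rel : ∀ ω, B ω → ∀ V : Option (Fin m) → ℝ,
    |dd (Ht (slam F (O 1) ω)) (bt F ω) V - cv (Sv (ptr F J ω) 3) V| ≤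
      2 ^ X / 2 ^ g 1 3 * en c (g 1) (O 1) (Sv (ptr F J ω)) 3 V
  vel : ∀ ω, B ω → |bd F ω (some (c 3)) - dd (Ht (slam F (O 1) ω)) (bt F ω) (bd F ω)| ≤
    2 ^ X * 2 ^ O 2 / 2 ^ g 2 3
  bdn : ∀ ω, B ω → en c (g 1) (O 1) (Sv (ptr F J ω)) 3 (bd F ω) ≤ 2 ^ X * 2 ^ O 1

theorem KDat.sub {F : Fam m J} {c : ℕ → Fin m} {X Γ : ℕ} {O : ℕ → ℕ} {g : ℕ → ℕ → ℕ}
    {B B' : F.Ω → Prop} {Sv : PtT F → ℕ → Option (Fin m) → ℝ}
    {Gt : PtT F → MvPolynomial (Option (Fin m)) ℝ}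
    {Ht : LnT F → MvPolynomial (Option (Fin m)) ℝ} (h : KDat F c X Γ O g B Sv Gt Ht)
    (hB : Sub B' B) : KDat F c X Γ O g B' Sv Gt Ht where
  dS := h.dS
  pG := h.pG
  pH := h.pH
  cur := fun ω hω => h.cur ω (hB ω hω)
  row := fun ω hω => h.row ω (hB ω hω)
  rel := fun ω hω => h.rel ω (hB ω hω)
  vel := fun ω hω => h.vel ω (hB ω hω)
  bdn := fun ω hω => h.bdn ω (hB ω hω)

/-- The size of the own direction. -/
theorem dpw_bdn {F : Fam m J} {c : ℕ → Fin m} {D w a v v' e X p : ℕ} {g gT : ℕ → ℕ} {U : ℝ}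
    {B : F.Ω → Prop} {G : PtT F → ℕ → MvPolynomial (Option (Fin m)) ℝ}
    {H : LnT F → ℕ → MvPolynomial (Option (Fin m)) ℝ}
    {T : PtT F → ℕ → MvPolynomial (Option (Fin m)) ℝ}
    {TH : LnT F → ℕ → MvPolynomial (Option (Fin m)) ℝ}
    {Ht : LnT F → MvPolynomial (Option (Fin m)) ℝ} {Sv : PtT F → ℕ → Option (Fin m) → ℝ}
    (h : Dpw F c D w a v v' e X p g gT U B G H T TH Ht Sv) {ω : F.Ω} (hω : B ω) :
    en c g a (Sv (ptr F J ω)) 3 (bd F ω) ≤ 2 ^ (6 * X + 9) * 2 ^ a := by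
  rw [en_eq]
  have e0 : bd F ω none = 1 := rfl
  rw [e0, abs_one, mul_one]
  have h1 : ∀ j ∈ range 3, (2 : ℝ) ^ g j * |bd F ω (some (c j)) -
      cv (Sv (ptr F J ω) j) (bd F ω)| ≤ 2 ^ (6 * X + 7) * 2 ^ a := by
    intro j hj
    have h2 := h.velo hω (show j ≤ 3 by have := Finset.mem_range.1 hj; omega)
    rw [le_div_iff₀ (by positivity)] at h2
    linarith
  have h2 := Finset.sum_le_sum h1
  rw [Finset.sum_const, Finset.card_range, nsmul_eq_mul] at h2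
  have h3 : (1 : ℝ) * 2 ^ a ≤ 2 ^ (6 * X + 7) * 2 ^ a :=
    mul_le_mul_of_nonneg_right (one_le_pow₀ (by norm_num)) (by positivity)
  have e1 : (2 : ℝ) ^ (6 * X + 9) * 2 ^ a = 4 * (2 ^ (6 * X + 7) * 2 ^ a) := by
    rw [show 6 * X + 9 = 6 * X + 7 + 2 by ring, pow_add 2 (6 * X + 7) 2]
    ring
  push_cast at h2
  rw [e1]
  linarith

/-- **The facts from three deep windows.** -/
theorem kdat_of {F : Fam m J} {c : ℕ → Fin m} {D X Γ : ℕ} {O v v' e p : ℕ → ℕ}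
    {g gT : ℕ → ℕ → ℕ} {U : ℕ → ℝ} {B : F.Ω → Prop}
    {G : ℕ → PtT F → ℕ → MvPolynomial (Option (Fin m)) ℝ}
    {H : ℕ → LnT F → ℕ → MvPolynomial (Option (Fin m)) ℝ}
    {T : ℕ → PtT F → ℕ → MvPolynomial (Option (Fin m)) ℝ}
    {TH : ℕ → LnT F → ℕ → MvPolynomial (Option (Fin m)) ℝ}
    {Gt : PtT F → MvPolynomial (Option (Fin m)) ℝ}
    {Ht : LnT F → MvPolynomial (Option (Fin m)) ℝ} {Sv : PtT F → ℕ → Option (Fin m) → ℝ}
    (h : ∀ k ≤ 2, Dpw F c D (O 0) (O k) (v k) (v' k) (e k) X (p k) (g k) (gT k) (U k) B (G k)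
      (H k) (T k) (TH k) Ht Sv) (h01 : O 0 ≤ O 1) (pG : ∀ y, DepC c 3 (Gt y))
    (pH : ∀ s, DepC c 3 (Ht s))
    (hrow : ∀ ω, B ω → ∀ V : Option (Fin m) → ℝ,
      |dd (Gt (ptr F J ω)) (hx F ω) V - dd (Ht (slam F (O 0) ω)) (bt F ω) V| ≤
        2 ^ X / 2 ^ (g 1 3 + Γ) * en c (g 1) (O 1) (Sv (ptr F J ω)) 3 V) :
    KDat F c (16 * X + 30) Γ O g B Sv Gt (fun s => Ht (co (O 1 - O 0) s)) := by
  have h1J : O 1 ≤ J := (h 1 (by norm_num)).aJ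
  have hco : ∀ ω, co (O 1 - O 0) (slam F (O 1) ω) = slam F (O 0) ω := fun ω =>
    co_slam F h01 h1J ω
  have hXX : (2 : ℝ) ^ X ≤ 2 ^ (16 * X + 30) := pow_le_pow_right₀ (by norm_num) (by omega)
  have hD1 := h 1 (by norm_num)
  have hD2 := h 2 le_rfl
  refine ⟨hD1.dep, pG, fun s => pH _, fun ω hω k hk V => ?_, fun ω hω V => ?_, fun ω hω V => ?_,
    fun ω hω => ?_, fun ω hω => ?_⟩
  · rw [hco]
    refine ((h k hk).hsn hω V).trans (mul_le_mul_of_nonneg_right (mul_le_mul_of_nonneg_right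
      (pow_le_pow_right₀ (by norm_num) (by omega)) (by positivity)) (en_nonneg _ _ _ _ _ _))
  · rw [hco]
    exact (hrow ω hω V).trans (mul_le_mul_of_nonneg_right (div_le_div_of_nonneg_right hXX
      (by positivity)) (en_nonneg _ _ _ _ _ _))
  · rw [hco]
    refine (hD1.ddn hω V).trans (mul_le_mul_of_nonneg_right (div_le_div_of_nonneg_right
      (pow_le_pow_right₀ (by norm_num) (by omega)) (by positivity)) (en_nonneg _ _ _ _ _ _))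
  · rw [hco]
    have k1 := hD2.velo hω (le_refl 3)
    have k2 := hD2.ddn hω (bd F ω)
    have k3 := dpw_bdn hD2 hω
    have e1 : bd F ω (some (c 3)) - dd (Ht (slam F (O 0) ω)) (bt F ω) (bd F ω) =
        (bd F ω (some (c 3)) - cv (Sv (ptr F J ω) 3) (bd F ω)) -
        (dd (Ht (slam F (O 0) ω)) (bt F ω) (bd F ω) - cv (Sv (ptr F J ω) 3) (bd F ω)) := by ring
    rw [e1]
    refine (abs_sub _ _).trans ((add_le_add k1 (k2.trans (mul_le_mul_of_nonneg_left k3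
      (by positivity)))).trans ?_)
    obtain ⟨R, hR⟩ : ∃ R : ℝ, R = 2 ^ O 2 / 2 ^ g 2 3 := ⟨_, rfl⟩
    have hR0 : 0 ≤ R := by rw [hR]; positivity
    have e2 : (2 : ℝ) ^ (6 * X + 7) * 2 ^ O 2 / 2 ^ g 2 3 = 2 ^ (6 * X + 7) * R := by
      rw [hR]; ring
    have e3 : (2 : ℝ) ^ (9 * X + 8) / 2 ^ g 2 3 * (2 ^ (6 * X + 9) * 2 ^ O 2) =
        2 ^ (15 * X + 17) * R := by
      rw [hR, show 15 * X + 17 = (9 * X + 8) + (6 * X + 9) by ring, pow_add 2 (9 * X + 8)]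
      ring
    have e4 : (2 : ℝ) ^ (16 * X + 30) * 2 ^ O 2 / 2 ^ g 2 3 = 2 ^ (16 * X + 30) * R := by
      rw [hR]; ring
    rw [e2, e3, e4, ← add_mul]
    refine mul_le_mul_of_nonneg_right ?_ hR0
    calc (2 : ℝ) ^ (6 * X + 7) + 2 ^ (15 * X + 17) ≤ 2 ^ (15 * X + 17) + 2 ^ (15 * X + 17) :=
          add_le_add (pow_le_pow_right₀ (by norm_num) (by omega)) le_rfl
      _ = 2 ^ (15 * X + 18) := by rw [pow_succ 2 (15 * X + 17)]; ring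
      _ ≤ _ := pow_le_pow_right₀ (by norm_num) (by omega)
  · exact (dpw_bdn hD1 hω).trans (mul_le_mul_of_nonneg_right
      (pow_le_pow_right₀ (by norm_num) (by omega)) (by positivity))

section

variable {F : Fam m J} {c : ℕ → Fin m} {X Γ t l₀ kk : ℕ} {O : ℕ → ℕ} {g : ℕ → ℕ → ℕ}
    {B : F.Ω → Prop} {Sv : PtT F → ℕ → Option (Fin m) → ℝ}
    {Gt : PtT F → MvPolynomial (Option (Fin m)) ℝ}
    {Ht : LnT F → MvPolynomial (Option (Fin m)) ℝ} {ψ : ℕ → Option (Fin m) → ℝ}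

/-- **The small components.** -/
theorem KDat.sm (h : KDat F c X Γ O g B Sv Gt Ht) (hc : Set.InjOn c (Set.Iio 3))
    (n2 : ∀ i < 3, i ≠ l₀ → ∃ k ≤ 2, O k + g k i + g 1 3 + Γ ≤ O 1 + g 1 i + g k 3 + X)
    {ω : F.Ω} (hω : B ω) {i : ℕ} (hi : i < 3) (hil : i ≠ l₀) :
    |cv (cvd (Ht (slam F (O 1) ω)) (bt F ω) (bd F ω)) (dl c (Sv (ptr F J ω)) 3 i)| ≤
      2 ^ (2 * X) / 2 ^ Γ * (2 ^ O 1 / 2 ^ g 1 3) * 2 ^ g 1 i := by
  obtain ⟨k, hk, hn⟩ := n2 i hi hil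
  have h1 := comp_le hc (h.dS (ptr F J ω)) (g := g k) (a := O k) (le_refl 3)
    (fun V => by
      rw [← hs_cvd]
      exact h.cur ω hω k hk V) hi
  refine h1.trans ?_
  have e1 : (2 : ℝ) ^ X * (2 ^ O k / 2 ^ g k 3) * 2 ^ g k i =
      2 ^ (X + O k + g k i) / 2 ^ g k 3 := by
    rw [pow_add, pow_add]
    ring
  have e2 : (2 : ℝ) ^ (2 * X) / 2 ^ Γ * (2 ^ O 1 / 2 ^ g 1 3) * 2 ^ g 1 i =
      2 ^ (2 * X + O 1 + g 1 i) / 2 ^ (Γ + g 1 3) := by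
    rw [pow_add, pow_add, pow_add]
    field_simp
  rw [e1, e2, div_le_div_iff₀ (by positivity) (by positivity), ← pow_add, ← pow_add]
  exact pow_le_pow_right₀ (by norm_num) (by omega)

/-- **One component is not small.** -/
theorem KDat.pt (h : KDat F c X Γ O g B Sv Gt Ht) (hc : Set.InjOn c (Set.Iio 3))
    (hψ : ∀ l, CvC c l (ψ l)) (hl₀ : l₀ < 3)
    (n2 : ∀ i < 3, i ≠ l₀ → ∃ k ≤ 2, O k + g k i + g 1 3 + Γ ≤ O 1 + g 1 i + g k 3 + X)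
    {ω : F.Ω} (hω : B ω) (hN : Nc c (g 1) (O 1) 3 (2 ^ kk) ψ (Sv (ptr F J ω)))
    (hΓ : 2 * X + kk + t + 3 ≤ Γ)
    (hlow : 2 ^ (O 1 + g 1 l₀) / 2 ^ (g 1 3 + t) ≤
      |hs (Ht (slam F (O 1) ω)) (bt F ω) (bd F ω) (dl c (Sv (ptr F J ω)) 3 l₀)|) :
    2 ^ (O 1 + g 1 l₀) / 2 ^ (g 1 3 + t + 1) ≤
      |hs (Ht (slam F (O 1) ω)) (bt F ω) (bd F ω) (dl c ψ 3 l₀)| ∧
    |hs (Ht (slam F (O 1) ω)) (bt F ω) (bd F ω) (dl c ψ 3 l₀)| ≤
      2 ^ (X + 1) * (2 ^ (O 1 + g 1 l₀) / 2 ^ g 1 3) ∧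
    (∀ j < l₀, |cv (Sv (ptr F J ω) l₀ - ψ l₀) (dl c ψ 3 j)| ≤ 2 ^ kk * (2 ^ g 1 j / 2 ^ g 1 l₀)) ∧
    (∀ j < l₀, |hs (Ht (slam F (O 1) ω)) (bt F ω) (bd F ω) (dl c ψ 3 j) +
      cv (Sv (ptr F J ω) l₀ - ψ l₀) (dl c ψ 3 j) *
        hs (Ht (slam F (O 1) ω)) (bt F ω) (bd F ω) (dl c ψ 3 l₀)| ≤
      2 ^ (2 * kk + 2 * X + 4) / 2 ^ Γ * (2 ^ (O 1 + g 1 j) / 2 ^ g 1 3)) ∧
    ∀ j < l₀, |hs (Ht (slam F (O 1) ω)) (bt F ω) (bd F ω) (dl c ψ 3 j)| ≤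
      2 ^ (2 * kk + X + 5) * (2 ^ (O 1 + g 1 j) / 2 ^ g 1 3) := by
  obtain ⟨φ, hφ⟩ : ∃ φ, φ = cvd (Ht (slam F (O 1) ω)) (bt F ω) (bd F ω) := ⟨_, rfl⟩
  simp only [hs_cvd] at hlow ⊢
  rw [← hφ] at hlow ⊢
  obtain ⟨M, hM⟩ : ∃ M : ℝ, M = 2 ^ O 1 / 2 ^ g 1 3 := ⟨_, rfl⟩
  have hM0 : 0 < M := by rw [hM]; positivity
  have hMj : ∀ j, (2 : ℝ) ^ (O 1 + g 1 j) / 2 ^ g 1 3 = M * 2 ^ g 1 j := fun j => by
    rw [hM, pow_add]
    ring
  have hMt : (2 : ℝ) ^ (O 1 + g 1 l₀) / 2 ^ (g 1 3 + t) = M * 2 ^ g 1 l₀ / 2 ^ t := by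
    rw [hM, pow_add, pow_add]
    field_simp
  have hMt1 : (2 : ℝ) ^ (O 1 + g 1 l₀) / 2 ^ (g 1 3 + t + 1) = M * 2 ^ g 1 l₀ / 2 ^ t / 2 := by
    rw [hM, pow_add, pow_succ, pow_add]
    field_simp
  rw [hMt] at hlow
  rw [hMt1, hMj l₀]
  obtain ⟨β, hβ⟩ : ∃ β : ℝ, β = 2 ^ (2 * X) / 2 ^ Γ * M := ⟨_, rfl⟩
  have hβ0 : 0 ≤ β := by rw [hβ]; positivity
  have hup : |cv φ (dl c (Sv (ptr F J ω)) 3 l₀)| ≤ 2 ^ X * (M * 2 ^ g 1 l₀) := by
    have h1 := comp_le hc (h.dS (ptr F J ω)) (g := g 1) (a := O 1) (φ := φ) (le_refl 3)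
      (M := 2 ^ X * M) (fun V => by
        rw [hφ, ← hs_cvd, hM]
        exact h.cur ω hω 1 (by norm_num) V) hl₀
    rwa [mul_assoc] at h1
  obtain ⟨d1, d2, d3⟩ := tie_dec (K := 2 ^ kk) (β := β) (φ := φ) hc (h.dS (ptr F J ω)) hψ
    (by rw [hφ]; exact cvc_cvd (h.pH _) _ _) hl₀ (by positivity) hβ0 hN (fun i hi hil => by
      rw [hφ, hβ, hM]
      exact h.sm hc n2 hω hi hil)
  have hKβ : ((3 : ℕ) : ℝ) * (2 ^ kk * β) * 2 ^ g 1 l₀ ≤ M * 2 ^ g 1 l₀ / 2 ^ t / 2 := by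
    have e1 : ((3 : ℕ) : ℝ) * (2 ^ kk * β) * 2 ^ g 1 l₀ =
        3 * (2 ^ (2 * X + kk) / 2 ^ Γ) * (M * 2 ^ g 1 l₀) := by
      rw [hβ, pow_add]
      push_cast
      ring
    have e2 : M * 2 ^ g 1 l₀ / 2 ^ t / 2 = 1 / 2 ^ (t + 1) * (M * 2 ^ g 1 l₀) := by
      rw [pow_succ]
      field_simp
    rw [e1, e2]
    refine mul_le_mul_of_nonneg_right ?_ (by positivity)
    have e3 : (2 : ℝ) ^ (2 * X + kk) / 2 ^ Γ ≤ 1 / 2 ^ (t + 3) := by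
      rw [div_le_div_iff₀ (by positivity) (by positivity), one_mul, ← pow_add]
      exact pow_le_pow_right₀ (by norm_num) (by omega)
    have e4 : (1 : ℝ) / 2 ^ (t + 3) = 1 / 4 * (1 / 2 ^ (t + 1)) := by
      rw [show t + 3 = t + 1 + 2 by ring, pow_add 2 (t + 1) 2]
      field_simp
      norm_num
    have e5 : (0 : ℝ) < 1 / 2 ^ (t + 1) := by positivity
    rw [e4] at e3
    linarith
  obtain ⟨Q, hQ⟩ : ∃ Q, Q = cv φ (dl c ψ 3 l₀) := ⟨_, rfl⟩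
  obtain ⟨κ, hκ⟩ : ∃ κ, κ = cv φ (dl c (Sv (ptr F J ω)) 3 l₀) := ⟨_, rfl⟩
  rw [← hQ] at d2 d3 ⊢
  rw [← hκ] at hlow hup d2
  have hML : 0 < M * 2 ^ g 1 l₀ := by positivity
  have d2' := d2.trans hKβ
  have hQ1 : M * 2 ^ g 1 l₀ / 2 ^ t / 2 ≤ |Q| := by
    have h1 : |κ| ≤ |Q - κ| + |Q| := by
      have : κ = -(Q - κ) + Q := by ring
      calc |κ| = |-(Q - κ) + Q| := by rw [← this]
        _ ≤ |-(Q - κ)| + |Q| := abs_add_le _ _
        _ = _ := by rw [abs_neg]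
    linarith
  have hQ2 : |Q| ≤ 2 ^ (X + 1) * (M * 2 ^ g 1 l₀) := by
    have h1 : |Q| ≤ |Q - κ| + |κ| := by
      have : Q = (Q - κ) + κ := by ring
      calc |Q| = |(Q - κ) + κ| := by rw [← this]
        _ ≤ _ := abs_add_le _ _
    have h2 : M * 2 ^ g 1 l₀ / 2 ^ t / 2 ≤ M * 2 ^ g 1 l₀ := by
      rw [div_div, div_le_iff₀ (by positivity)]
      refine le_mul_of_one_le_right hML.le ?_
      have : (1 : ℝ) ≤ 2 ^ t := one_le_pow₀ (by norm_num)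
      linarith
    have h3 : M * 2 ^ g 1 l₀ ≤ 2 ^ X * (M * 2 ^ g 1 l₀) :=
      le_mul_of_one_le_left hML.le (one_le_pow₀ (by norm_num))
    rw [pow_succ]
    linarith
  have hK2 : (1 + (2 : ℝ) ^ kk) ^ 2 ≤ 2 ^ (2 * kk + 2) := by
    refine (pow1 kk 2).trans (pow_le_pow_right₀ (by norm_num) (by omega))
  have hd3 : ∀ j < l₀, |cv φ (dl c ψ 3 j) + cv (Sv (ptr F J ω) l₀ - ψ l₀) (dl c ψ 3 j) * Q| ≤
      2 ^ (2 * kk + 2 * X + 4) / 2 ^ Γ * (M * 2 ^ g 1 j) := by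
    intro j hj
    refine (d3 j hj).trans ?_
    have e1 : (((3 : ℕ) : ℝ) + 1) * (1 + 2 ^ kk) ^ 2 * β * 2 ^ g 1 j =
        4 * (1 + 2 ^ kk) ^ 2 * (2 ^ (2 * X) / 2 ^ Γ) * (M * 2 ^ g 1 j) := by
      rw [hβ]
      push_cast
      ring
    rw [e1]
    refine mul_le_mul_of_nonneg_right ?_ (by positivity)
    calc 4 * (1 + (2 : ℝ) ^ kk) ^ 2 * (2 ^ (2 * X) / 2 ^ Γ) ≤
          4 * 2 ^ (2 * kk + 2) * (2 ^ (2 * X) / 2 ^ Γ) := by
          refine mul_le_mul_of_nonneg_right (mul_le_mul_of_nonneg_left hK2 (by norm_num))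
            (by positivity)
      _ = _ := by
          rw [show 2 * kk + 2 * X + 4 = 2 + (2 * kk + 2) + 2 * X by ring, pow_add 2 (2 + (2 * kk + 2)),
            pow_add 2 2 (2 * kk + 2)]
          ring
  refine ⟨hQ1, hQ2, d1, fun j hj => by rw [hMj j]; exact hd3 j hj, fun j hj => ?_⟩
  rw [hMj j]
  have h1 := hd3 j hj
  have h2 := d1 j hj
  obtain ⟨k, hk⟩ : ∃ k, k = cv (Sv (ptr F J ω) l₀ - ψ l₀) (dl c ψ 3 j) := ⟨_, rfl⟩
  rw [← hk] at h1 h2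
  have h3 : |cv φ (dl c ψ 3 j)| ≤ |cv φ (dl c ψ 3 j) + k * Q| + |k * Q| := by
    have : cv φ (dl c ψ 3 j) = (cv φ (dl c ψ 3 j) + k * Q) - k * Q := by ring
    calc |cv φ (dl c ψ 3 j)| = |(cv φ (dl c ψ 3 j) + k * Q) - k * Q| := by rw [← this]
      _ ≤ _ := abs_sub _ _
  have h4 : |k * Q| ≤ 2 ^ (kk + X + 1) * (M * 2 ^ g 1 j) := by
    rw [abs_mul]
    calc |k| * |Q| ≤ 2 ^ kk * (2 ^ g 1 j / 2 ^ g 1 l₀) * (2 ^ (X + 1) * (M * 2 ^ g 1 l₀)) :=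
          mul_le_mul h2 hQ2 (abs_nonneg _) (by positivity)
      _ = _ := by
          rw [show kk + X + 1 = kk + (X + 1) by ring, pow_add 2 kk (X + 1)]
          field_simp
  have h5 : (2 : ℝ) ^ (2 * kk + 2 * X + 4) / 2 ^ Γ ≤ 2 ^ (2 * kk + X + 4) := by
    rw [div_le_iff₀ (by positivity), ← pow_add]
    exact pow_le_pow_right₀ (by norm_num) (by omega)
  refine h3.trans ((add_le_add (h1.trans (mul_le_mul_of_nonneg_right h5 (by positivity)))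
    h4).trans ?_)
  rw [← add_mul]
  refine mul_le_mul_of_nonneg_right ?_ (by positivity)
  calc (2 : ℝ) ^ (2 * kk + X + 4) + 2 ^ (kk + X + 1) ≤
        2 ^ (2 * kk + X + 4) + 2 ^ (2 * kk + X + 4) :=
        add_le_add le_rfl (pow_le_pow_right₀ (by norm_num) (by omega))
    _ = _ := by rw [show 2 * kk + X + 5 = 2 * kk + X + 4 + 1 by ring, pow_succ 2 (2 * kk + X + 4)]; ring

/-- **All the components are small.** -/
theorem KDat.fl (h : KDat F c X Γ O g B Sv Gt Ht) (hc : Set.InjOn c (Set.Iio 3))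
    (n2 : ∀ i < 3, i ≠ l₀ → ∃ k ≤ 2, O k + g k i + g 1 3 + Γ ≤ O 1 + g 1 i + g k 3 + X)
    {ω : F.Ω} (hω : B ω) (hN : Nc c (g 1) (O 1) 4 (2 ^ kk) ψ (Sv (ptr F J ω))) (hΓ : t ≤ Γ)
    (n1 : O 2 + g 1 3 + Γ ≤ O 1 + g 2 3 + X)
    (hsm : l₀ < 3 → |hs (Ht (slam F (O 1) ω)) (bt F ω) (bd F ω) (dl c (Sv (ptr F J ω)) 3 l₀)| ≤
      2 ^ (O 1 + g 1 l₀) / 2 ^ (g 1 3 + t)) :
    (∀ V : Option (Fin m) → ℝ, |cv (grd (Gt (ptr F J ω)) (bho J J (ptr F J ω)) - ψ 3) V| ≤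
      2 ^ (X + 4 * kk + 6) / 2 ^ g 1 3 * en c (g 1) (O 1) ψ 3 V) ∧
    |bd F ω (some (c 3)) - cv (grd (Gt (ptr F J ω)) (bho J J (ptr F J ω))) (bd F ω)| ≤
      2 ^ (2 * X + 4 * kk + 4) / 2 ^ t * (2 ^ O 1 / 2 ^ g 1 3) ∧
    (∀ V : Option (Fin m) → ℝ, V none = 0 → |dd (Ht (slam F (O 1) ω)) (bt F ω) V -
      cv (grd (Gt (ptr F J ω)) (bho J J (ptr F J ω))) V| ≤
      2 ^ (2 * X + 4 * kk + 4) / 2 ^ t / 2 ^ g 1 3 * en c (g 1) (O 1) ψ 3 V) ∧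
    ∀ V : Option (Fin m) → ℝ, V none = 0 → |hs (Ht (slam F (O 1) ω)) (bt F ω) (bd F ω) V| ≤
      2 ^ (2 * X + 4 * kk + 4) / 2 ^ t * (2 ^ O 1 / 2 ^ g 1 3) * en c (g 1) (O 1) ψ 3 V := by
  have hhx : bho J J (ptr F J ω) = hx F ω := rfl
  have hen : ∀ V : Option (Fin m) → ℝ, en c (g 1) (O 1) (Sv (ptr F J ω)) 3 V ≤
      2 ^ (4 * kk + 4) * en c (g 1) (O 1) ψ 3 V := fun V => by
    refine (hN.en_le (by positivity) (show 3 ≤ 4 by norm_num) V).trans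
      (mul_le_mul_of_nonneg_right ((pow1 kk 4).trans (pow_le_pow_right₀ (by norm_num)
        (by omega))) (en_nonneg _ _ _ _ _ _))
  have hE0 : ∀ V : Option (Fin m) → ℝ, 0 ≤ en c (g 1) (O 1) ψ 3 V := fun V =>
    en_nonneg _ _ _ _ _ _
  obtain ⟨R, hR⟩ : ∃ R : ℝ, R = 1 / 2 ^ g 1 3 := ⟨_, rfl⟩
  have hR0 : 0 ≤ R := by rw [hR]; positivity
  have hrow : ∀ V : Option (Fin m) → ℝ,
      |dd (Gt (ptr F J ω)) (hx F ω) V - dd (Ht (slam F (O 1) ω)) (bt F ω) V| ≤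
      2 ^ X / 2 ^ Γ * R * (2 ^ (4 * kk + 4) * en c (g 1) (O 1) ψ 3 V) := fun V => by
    refine (h.row ω hω V).trans ?_
    have e1 : (2 : ℝ) ^ X / 2 ^ (g 1 3 + Γ) = 2 ^ X / 2 ^ Γ * R := by
      rw [hR, pow_add]
      field_simp
    rw [e1]
    exact mul_le_mul_of_nonneg_left (hen V) (by positivity)
  have hgt : (2 : ℝ) ^ X / 2 ^ Γ ≤ 2 ^ X / 2 ^ t :=
    div_le_div_of_nonneg_left (by positivity) (by positivity)
      (pow_le_pow_right₀ (by norm_num) hΓ)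
  have hXk : (2 : ℝ) ^ X * 2 ^ (4 * kk + 4) ≤ 2 ^ (2 * X + 4 * kk + 4) := by
    rw [← pow_add]
    exact pow_le_pow_right₀ (by norm_num) (by omega)
  refine ⟨fun V => ?_, ?_, fun V hV => ?_, fun V hV => ?_⟩
  · rw [hhx, cv_subl, cv_grd]
    have k1 := hrow V
    have k2 := h.rel ω hω V
    have k3 := hN 3 (by norm_num) V
    rw [cv_subl] at k3
    have e : dd (Gt (ptr F J ω)) (hx F ω) V - cv (ψ 3) V =
        (dd (Gt (ptr F J ω)) (hx F ω) V - dd (Ht (slam F (O 1) ω)) (bt F ω) V) +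
        (dd (Ht (slam F (O 1) ω)) (bt F ω) V - cv (Sv (ptr F J ω) 3) V) +
        (cv (Sv (ptr F J ω) 3) V - cv (ψ 3) V) := by ring
    rw [e]
    refine ((abs_add_le _ _).trans (add_le_add ((abs_add_le _ _).trans (add_le_add k1
      (k2.trans (mul_le_mul_of_nonneg_left (hen V) (by positivity))))) k3)).trans ?_
    have e1 : (2 : ℝ) ^ X / 2 ^ g 1 3 = 2 ^ X * R := by rw [hR]; ring
    have e2 : (2 : ℝ) ^ kk / 2 ^ g 1 3 = 2 ^ kk * R := by rw [hR]; ring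
    have e3 : (2 : ℝ) ^ (X + 4 * kk + 6) / 2 ^ g 1 3 = 2 ^ (X + 4 * kk + 6) * R := by
      rw [hR]; ring
    rw [e1, e2, e3]
    have e4 : (2 : ℝ) ^ X / 2 ^ Γ ≤ 2 ^ X := div_le_self (by positivity)
      (one_le_pow₀ (by norm_num))
    obtain ⟨N, hN'⟩ : ∃ N, N = R * en c (g 1) (O 1) ψ 3 V := ⟨_, rfl⟩
    have hN0 : 0 ≤ N := by rw [hN']; exact mul_nonneg hR0 (hE0 V)
    have f1 : (2 : ℝ) ^ X / 2 ^ Γ * R * (2 ^ (4 * kk + 4) * en c (g 1) (O 1) ψ 3 V) ≤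
        2 ^ (X + 4 * kk + 4) * N := by
      calc _ = 2 ^ X / 2 ^ Γ * (2 ^ (4 * kk + 4) * N) := by rw [hN']; ring
        _ ≤ 2 ^ X * (2 ^ (4 * kk + 4) * N) := mul_le_mul_of_nonneg_right e4 (by positivity)
        _ = _ := by rw [show X + 4 * kk + 4 = X + (4 * kk + 4) by ring, pow_add 2 X]; ring
    have f2 : (2 : ℝ) ^ X * R * (2 ^ (4 * kk + 4) * en c (g 1) (O 1) ψ 3 V) =
        2 ^ (X + 4 * kk + 4) * N := by
      rw [hN', show X + 4 * kk + 4 = X + (4 * kk + 4) by ring, pow_add 2 X]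
      ring
    have f3 : (2 : ℝ) ^ kk * R * en c (g 1) (O 1) ψ 3 V ≤ 2 ^ (X + 4 * kk + 4) * N := by
      calc _ = 2 ^ kk * N := by rw [hN']; ring
        _ ≤ _ := mul_le_mul_of_nonneg_right (pow_le_pow_right₀ (by norm_num) (by omega)) hN0
    have f4 : (2 : ℝ) ^ (X + 4 * kk + 6) * R * en c (g 1) (O 1) ψ 3 V =
        4 * (2 ^ (X + 4 * kk + 4) * N) := by
      rw [hN', show X + 4 * kk + 6 = X + 4 * kk + 4 + 2 by ring, pow_add 2 (X + 4 * kk + 4) 2]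
      ring
    rw [f2, f4]
    have : 0 ≤ 2 ^ (X + 4 * kk + 4) * N := by positivity
    linarith
  · rw [hhx, cv_grd]
    have k1 := h.vel ω hω
    have k2 := h.row ω hω (bd F ω)
    have k3 := h.bdn ω hω
    have e : bd F ω (some (c 3)) - dd (Gt (ptr F J ω)) (hx F ω) (bd F ω) =
        (bd F ω (some (c 3)) - dd (Ht (slam F (O 1) ω)) (bt F ω) (bd F ω)) -
        (dd (Gt (ptr F J ω)) (hx F ω) (bd F ω) - dd (Ht (slam F (O 1) ω)) (bt F ω) (bd F ω)) := by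
      ring
    rw [e]
    refine (abs_sub _ _).trans ((add_le_add k1 (k2.trans (mul_le_mul_of_nonneg_left k3
      (by positivity)))).trans ?_)
    have e1 : (2 : ℝ) ^ X * 2 ^ O 2 / 2 ^ g 2 3 ≤ 2 ^ (2 * X) / 2 ^ t * (2 ^ O 1 / 2 ^ g 1 3) := by
      rw [div_mul_div_comm, ← pow_add, ← pow_add, ← pow_add, div_le_div_iff₀ (by positivity)
        (by positivity), ← pow_add, ← pow_add]
      exact pow_le_pow_right₀ (by norm_num) (by omega)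
    have e2 : (2 : ℝ) ^ X / 2 ^ (g 1 3 + Γ) * (2 ^ X * 2 ^ O 1) ≤
        2 ^ (2 * X) / 2 ^ t * (2 ^ O 1 / 2 ^ g 1 3) := by
      rw [div_mul_div_comm, div_mul_eq_mul_div, ← pow_add, ← pow_add, ← pow_add, ← pow_add,
        div_le_div_iff₀ (by positivity) (by positivity), ← pow_add, ← pow_add]
      exact pow_le_pow_right₀ (by norm_num) (by omega)
    refine (add_le_add e1 e2).trans ?_
    have e3 : (2 : ℝ) * 2 ^ (2 * X) ≤ 2 ^ (2 * X + 4 * kk + 4) := by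
      calc (2 : ℝ) * 2 ^ (2 * X) = 2 ^ (2 * X + 1) := by rw [pow_succ]; ring
        _ ≤ _ := pow_le_pow_right₀ (by norm_num) (by omega)
    calc (2 : ℝ) ^ (2 * X) / 2 ^ t * (2 ^ O 1 / 2 ^ g 1 3) +
          2 ^ (2 * X) / 2 ^ t * (2 ^ O 1 / 2 ^ g 1 3) =
          2 * 2 ^ (2 * X) / 2 ^ t * (2 ^ O 1 / 2 ^ g 1 3) := by ring
      _ ≤ _ := mul_le_mul_of_nonneg_right (div_le_div_of_nonneg_right e3 (by positivity))
          (by positivity)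
  · rw [hhx, cv_grd, abs_sub_comm]
    refine (hrow V).trans ?_
    have e6 : (2 : ℝ) ^ (2 * X + 4 * kk + 4) / 2 ^ t / 2 ^ g 1 3 =
        2 ^ (2 * X + 4 * kk + 4) / 2 ^ t * R := by rw [hR]; ring
    rw [e6]
    calc 2 ^ X / 2 ^ Γ * R * (2 ^ (4 * kk + 4) * en c (g 1) (O 1) ψ 3 V) ≤
          2 ^ X / 2 ^ t * R * (2 ^ (4 * kk + 4) * en c (g 1) (O 1) ψ 3 V) :=
          mul_le_mul_of_nonneg_right (mul_le_mul_of_nonneg_right hgt hR0)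
            (mul_nonneg (by positivity) (hE0 V))
      _ = 2 ^ X * 2 ^ (4 * kk + 4) / 2 ^ t * R * en c (g 1) (O 1) ψ 3 V := by ring
      _ ≤ _ := mul_le_mul_of_nonneg_right (mul_le_mul_of_nonneg_right
          (div_le_div_of_nonneg_right hXk (by positivity)) hR0) (hE0 V)
  · rw [hs_cvd]
    obtain ⟨M, hM⟩ : ∃ M : ℝ, M = 2 ^ O 1 / 2 ^ g 1 3 := ⟨_, rfl⟩
    have hM0 : 0 < M := by rw [hM]; positivity
    have k1 := comp_ge hc (h.dS (ptr F J ω)) (g := g 1) (O 1)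
      (φ := cvd (Ht (slam F (O 1) ω)) (bt F ω) (bd F ω)) (M := 2 ^ (2 * X) / 2 ^ t * M)
      (cvc_cvd (h.pH _) _ _) (le_refl 3) (fun i hi => by
        by_cases hil : i = l₀
        · subst hil
          have k2 := hsm hi
          rw [hs_cvd] at k2
          refine k2.trans ?_
          have e1 : (2 : ℝ) ^ (O 1 + g 1 i) / 2 ^ (g 1 3 + t) = 1 / 2 ^ t * M * 2 ^ g 1 i := by
            rw [hM, pow_add, pow_add]
            field_simp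
          rw [e1]
          refine mul_le_mul_of_nonneg_right (mul_le_mul_of_nonneg_right
            (div_le_div_of_nonneg_right (one_le_pow₀ (by norm_num)) (by positivity)) hM0.le)
            (by positivity)
        · refine (h.sm hc n2 hω hi hil).trans ?_
          rw [← hM]
          exact mul_le_mul_of_nonneg_right (mul_le_mul_of_nonneg_right
            (div_le_div_of_nonneg_left (by positivity) (by positivity)
              (pow_le_pow_right₀ (by norm_num) hΓ)) hM0.le) (by positivity)) hV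
    refine k1.trans ?_
    rw [← hM]
    calc 2 ^ (2 * X) / 2 ^ t * M * en c (g 1) (O 1) (Sv (ptr F J ω)) 3 V ≤
          2 ^ (2 * X) / 2 ^ t * M * (2 ^ (4 * kk + 4) * en c (g 1) (O 1) ψ 3 V) :=
          mul_le_mul_of_nonneg_left (hen V) (by positivity)
      _ = _ := by
          rw [show 2 * X + 4 * kk + 4 = 2 * X + (4 * kk + 4) by ring, pow_add 2 (2 * X)]
          ring

end

end Pool.KPO
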