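import Pool.Agent.H31.D2.Kp3
import Pool.Agent.H60.D2.Trf
import Pool.Agent.H60.D2.Crw

/-!
# The frame of the window

`kfrm`: over a deep window there is a frame near the covectors `Sv`.
`kflat`: an event in which all components of the second derivative are small is small.
-/

set_option autoImplicit false

namespace Pool.KPO

open Finset Real MvPolynomial
open Pool.Agent.H49.Ent Pool.Agent.H32.Dense Pool.STK Pool.KA Pool.KSAT Pool.K2S Pool.PB Pool.S6C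
open Pool.GEN Pool.CHT Pool.CHX Pool.ISO Pool.D2F Pool.D2Z
open Pool.D2R (dd hs nrm nrm_nonneg)
open Pool.D2N (Dpw WFr)
open Pool.LBT (ThrOf)

variable {m : ℕ}

section

variable {J : ℕ} {F : Fam m J} {c : ℕ → Fin m} {D w a v v' e X p : ℕ} {g gT : ℕ → ℕ} {U : ℝ}
    {B : F.Ω → Prop} {G : PtT F → ℕ → MvPolynomial (Option (Fin m)) ℝ}
    {H : LnT F → ℕ → MvPolynomial (Option (Fin m)) ℝ}
    {T : PtT F → ℕ → MvPolynomial (Option (Fin m)) ℝ}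
    {TH : LnT F → ℕ → MvPolynomial (Option (Fin m)) ℝ}
    {Ht : LnT F → MvPolynomial (Option (Fin m)) ℝ} {Sv : PtT F → ℕ → Option (Fin m) → ℝ}

/-- The norm of the directions at the point. -/
theorem dpw_nrm2 (h : Dpw F c D w a v v' e X p g gT U B G H T TH Ht Sv) {ω ν : F.Ω} (hω : B ω)
    (hν : B ν) (hpt : ptr F J ω = ptr F J ν) {l : ℕ} (hl : l ≤ 3) :
    nrm c (G (ptr F J ω)) g a l (bt F ω) (bd F ν) ≤ 2 ^ (X + 2) * 2 ^ a := by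
  unfold nrm
  have e0 : bd F ν none = 1 := rfl
  have hk : (1 : ℝ) ≤ 2 ^ X := one_le_pow₀ (by norm_num)
  have e1 : ∀ j ∈ range l, (2 : ℝ) ^ g j * |bd F ν (some (c j)) -
      dd (G (ptr F J ω) j) (bt F ω) (bd F ν)| ≤ 2 ^ X * 2 ^ a := by
    intro j hj
    have hj' := Finset.mem_range.1 hj
    have h4 := h.row.vel ω ν hω hν hpt j (by omega)
    rw [le_div_iff₀ (by positivity)] at h4
    have h5 := mul_le_mul_of_nonneg_right h.Uk (show (0 : ℝ) ≤ 2 ^ a by positivity)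
    linarith
  have e2 : (l : ℝ) ≤ 3 := by exact_mod_cast hl
  rw [e0, abs_one, mul_one]
  have e4 := Finset.sum_le_sum e1
  rw [Finset.sum_const, Finset.card_range, nsmul_eq_mul] at e4
  have e5 : (0 : ℝ) < 2 ^ a := by positivity
  have e6 : (2 : ℝ) ^ a ≤ 2 ^ X * 2 ^ a := le_mul_of_one_le_left e5.le hk
  have e7 : (l : ℝ) * (2 ^ X * 2 ^ a) ≤ 3 * (2 ^ X * 2 ^ a) :=
    mul_le_mul_of_nonneg_right e2 (by positivity)
  have e8 : (2 : ℝ) ^ (X + 2) * 2 ^ a = 4 * (2 ^ X * 2 ^ a) := by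
    rw [pow_add]
    ring
  rw [e8]
  linarith

/-- The curvature between the lines through the point is natural. -/
theorem dpw_v1p (h : Dpw F c D w a v v' e X p g gT U B G H T TH Ht Sv) {B' : F.Ω → Prop}
    (hB : Sub B' B) {k l : ℕ} (hk : 2 * X + 2 ≤ k) (hl : l ≤ 3) :
    V1P F c a g B' G (2 ^ k) l := by
  intro ω ν hω hν hpt R _ _
  have h1 := h.nat l hl ω (hB ω hω) (bt F ω) (h.ch.self (hB ω hω) (by omega)) (bd F ν) R
  have h2 := dpw_nrm2 h (hB ω hω) (hB ν hν) hpt hl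
  have h3 := nrm_nonneg c (G (ptr F J ω)) g a l (bt F ω) R
  refine h1.trans ?_
  calc (2 : ℝ) ^ X / 2 ^ g l * (nrm c (G (ptr F J ω)) g a l (bt F ω) (bd F ν) *
        nrm c (G (ptr F J ω)) g a l (bt F ω) R) ≤ 2 ^ X / 2 ^ g l *
        ((2 ^ (X + 2) * 2 ^ a) * nrm c (G (ptr F J ω)) g a l (bt F ω) R) :=
        mul_le_mul_of_nonneg_left (mul_le_mul_of_nonneg_right h2 h3) (by positivity)
    _ = 2 ^ (2 * X + 2) * (2 ^ a / 2 ^ g l) * nrm c (G (ptr F J ω)) g a l (bt F ω) R := by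
        rw [show 2 * X + 2 = X + (X + 2) by ring, pow_add 2 X (X + 2)]
        ring
    _ ≤ 2 ^ k * (2 ^ a / 2 ^ g l) * nrm c (G (ptr F J ω)) g a l (bt F ω) R :=
        mul_le_mul_of_nonneg_right (mul_le_mul_of_nonneg_right
          (pow_le_pow_right₀ (by norm_num) hk) (by positivity)) h3

end

/-- **The frame of the window** `a₀`. -/
theorem kfrm (m D : ℕ) (hD : 1 ≤ D) : ∃ C : ℕ, 1 ≤ C ∧ ∀ {S : PCl m}
    {P : List (Fin m) × Fin m → ℝ → ℝ → ℝ} {θ : ℝ} {c : ℕ → Fin m} {w' : ℚ} {h e ε₁ κ₁ : ℝ},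
    ThrOf (chsys m θ) S P → TmH S → Set.InjOn c (Set.Iio 4) → 0 ≤ w' → w' < 1 → e < θ * w' →
    0 < h → bet P c 0 w' w' + h ≤ 1 → 0 < ε₁ → 0 < κ₁ →
    Bas S (fun J F A => ∀ (w a₀ v v' e₀ X p k s : ℕ) (g gT : ℕ → ℕ) (U : ℝ) (B : F.Ω → Prop)
      (G : PtT F → ℕ → MvPolynomial (Option (Fin m)) ℝ)
      (H : LnT F → ℕ → MvPolynomial (Option (Fin m)) ℝ)
      (T : PtT F → ℕ → MvPolynomial (Option (Fin m)) ℝ)
      (TH : LnT F → ℕ → MvPolynomial (Option (Fin m)) ℝ)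
      (Ht : LnT F → MvPolynomial (Option (Fin m)) ℝ) (Sv : PtT F → ℕ → Option (Fin m) → ℝ),
      Dpw F c D w a₀ v v' e₀ X p g gT U B G H T TH Ht Sv → Sub B A →
      κ₁ * Pe F.p A ≤ Pe F.p B → 2 * X + 2 ≤ k → ε₁ * J ≤ k → a₀ ≤ ⌊(w' : ℝ) * J⌋₊ →
      e₀ + C * (k + s + 1) ≤ ⌊e * J⌋₊ → (∀ l < 4, e₀ + g l + C * (k + s + 1) ≤ J) →
      ⌊(bet P c 0 w' w' + h) * J⌋₊ + a₀ ≤ g 0 + s + ⌊(w' : ℝ) * J⌋₊ →
      ∃ (B' : F.Ω → Prop) (ψ : PtT F → ℕ → Option (Fin m) → ℝ)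
        (ψH : LnT F → ℕ → Option (Fin m) → ℝ), Sub B' B ∧ Pe F.p B ≤ C * Pe F.p B' ∧
        WFr F c 4 a₀ (C * (k + s + 1)) (e₀ + C * (k + s + 1)) g B' ψ ψH Sv) := by
  obtain ⟨Cf, hCf, hfr⟩ := frm_cls m D 3 4 hD (by norm_num) (by norm_num)
  obtain ⟨C₁, hC₁, hgpt⟩ := gpt_near D 4
  refine ⟨100 * Cf + C₁, by omega, ?_⟩
  intro S P θ c w' h e ε₁ κ₁ hP hT hc hw0 hw1 he hh hb0 hε₁ hκ₁
  have hf := hfr hP hT c hc w' e h ε₁ κ₁ hw0 hw1 he hh hb0 hε₁ hκ₁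
  refine Bas.mono 0 hf ?_
  rintro J - F A hf w a₀ v v' e₀ X p k s g gT U B G H T TH Ht Sv hd hBA hκB hXk hεk haw hCe hCg hn0
  have hp := Pe_nonneg F.isLaw
  obtain ⟨L, hL⟩ : ∃ L : ℕ, L = Cf * (k + s + 1) := ⟨_, rfl⟩
  obtain ⟨n₀, hn₀⟩ : ∃ n₀ : ℕ, n₀ = (100 * Cf + C₁) * (k + s + 1) := ⟨_, rfl⟩
  have q1 : 100 * L + C₁ ≤ n₀ := by
    rw [hn₀, hL, add_mul, mul_assoc]
    exact Nat.add_le_add_left (Nat.le_mul_of_pos_right _ (by omega)) _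
  have q3 : k + s + 1 ≤ L := by
    rw [hL]
    exact Nat.le_mul_of_pos_left (k + s + 1) (show 0 < Cf by omega)
  rw [← hn₀] at hCe hCg ⊢
  have hcv : ∀ y l, CvC c l (gpt F G y l) := fun y l => cvc_grd (hd.ch.depG y l) _
  have hgp := hgpt hc le_rfl hd.ch (fun l hl => by have := hCg l hl; omega)
  have h2k : (1 : ℝ) ≤ 2 ^ k := one_le_pow₀ (by norm_num)
  have hg0 := hCg 0 (by norm_num)
  obtain ⟨B₁, ψ, ψH, c1, c2, c3, c4, -⟩ := hf w a₀ v e₀ k s L p (g 0 + s) g gT U G H T TH Ht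
    (gpt F G) B hd.aJ haw hεk (by rw [← hL]; omega) (by rw [← hL]) (by rw [← hL]; omega) le_rfl
    (by omega) (by omega) hBA hκB hd.ch hd.row hd.U0 (hd.Uk.trans (pow_le_pow_right₀ (by norm_num)
      (by omega))) (fun l _ hl => dpw_v1p hd (fun ω hω => hω) hXk (by omega)) hcv
    (fun ω hω => (hgp ω hω).mono h2k)
  rw [← hL] at c3 c4
  refine ⟨B₁, ψ, ψH, c1, c2.trans (mul_le_mul_of_nonneg_right ?_ (hp B₁)), ⟨frok_mono c3 (by omega)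
    (by omega), fun ω hω => ?_⟩⟩
  · exact_mod_cast (by omega : Cf ≤ 100 * Cf + C₁)
  · have h3 : Nc c g a₀ 4 (2 ^ 0) (fun j => grd (G (ptr F J ω) j) (bt F ω))
        (gpt F G (ptr F J ω)) := by
      rw [pow_zero]
      exact hgp ω (c1 ω hω)
    exact (((c4 ω hω).trans2 h3.symm2).trans2 (hd.nr ω (c1 ω hω)).symm2).mono
      (pow_le_pow_right₀ (by norm_num) (by omega))

/-- The covector of the row label at the rounded point. -/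
noncomputable def gm3 {J : ℕ} {F : Fam m J} (Gt : PtT F → MvPolynomial (Option (Fin m)) ℝ)
    (y : PtT F) (l : ℕ) : Option (Fin m) → ℝ :=
  if l = 3 then grd (Gt y) (bho J J y) else 0

theorem gm3_three {J : ℕ} {F : Fam m J} (Gt : PtT F → MvPolynomial (Option (Fin m)) ℝ)
    (y : PtT F) : gm3 Gt y 3 = grd (Gt y) (bho J J y) := by
  unfold gm3
  rw [if_pos rfl]

theorem gm3_cv {J : ℕ} {F : Fam m J} {c : ℕ → Fin m}
    {Gt : PtT F → MvPolynomial (Option (Fin m)) ℝ} (h : ∀ y, DepC c 3 (Gt y)) (y : PtT F) (l : ℕ) :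
    CvC c l (gm3 Gt y l) := by
  unfold gm3
  split_ifs with h1
  · subst h1
    exact cvc_grd (h y) _
  · intro k _
    rfl

/-- **The flat end.** `l₀ = 3`: no tie. -/
theorem kflat (m D : ℕ) : ∀ {S : PCl m}
    {P : List (Fin m) × Fin m → ℝ → ℝ → ℝ} {θ : ℝ} {c : ℕ → Fin m} {w' : ℚ} {h e ε₁ κ₁ : ℝ},
    ThrOf (chsys m θ) S P → TmH S → Set.InjOn c (Set.Iio 4) → 0 ≤ w' → w' < 1 → e < θ * w' →
    0 < h → bet P c 3 w' w' + h ≤ 1 → 0 < ε₁ → 0 < κ₁ →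
    Bas S (fun J F A => ∀ (X Γ t l₀ k s e₀ : ℕ) (O : ℕ → ℕ) (g : ℕ → ℕ → ℕ) (B : F.Ω → Prop)
      (Sv : PtT F → ℕ → Option (Fin m) → ℝ) (Gt : PtT F → MvPolynomial (Option (Fin m)) ℝ)
      (Ht : LnT F → MvPolynomial (Option (Fin m)) ℝ) (ψ : PtT F → ℕ → Option (Fin m) → ℝ)
      (ψH : LnT F → ℕ → Option (Fin m) → ℝ), KDat F c X Γ O g B Sv Gt Ht →
      (∀ s, (Ht s).totalDegree ≤ D) → WFr F c 4 (O 1) k e₀ (g 1) B ψ ψH Sv → Sub B A →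
      (∀ i < 3, i ≠ l₀ → ∃ k ≤ 2, O k + g k i + g 1 3 + Γ ≤ O 1 + g 1 i + g k 3 + X) →
      O 2 + g 1 3 + Γ ≤ O 1 + g 2 3 + X → t ≤ Γ →
      (∀ ω, B ω → l₀ < 3 → |hs (Ht (slam F (O 1) ω)) (bt F ω) (bd F ω)
        (dl c (Sv (ptr F J ω)) 3 l₀)| ≤ 2 ^ (O 1 + g 1 l₀) / 2 ^ (g 1 3 + t)) →
      ε₁ * J ≤ k → O 1 ≤ J → O 1 ≤ ⌊(w' : ℝ) * J⌋₊ → 6 * X + 20 * k + s + 56 ≤ t →
      e₀ + 3 * X + 12 * k + s + 34 ≤ ⌊e * J⌋₊ →
      (∀ j ≤ 3, e₀ + g 1 j + 2 * X + 8 * k + s + 34 ≤ J) → (∀ l < 3, X + 4 * k + 7 ≤ g 1 l) →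
      ⌊(bet P c 3 w' w' + h) * J⌋₊ + O 1 ≤ g 1 3 + s + ⌊(w' : ℝ) * J⌋₊ →
      Pe F.p B < κ₁ * Pe F.p A) := by
  intro S P θ c w' h e ε₁ κ₁ hP hT hc hw0 hw1 he hh hb3 hε₁ hκ₁
  have hfl := flat_cls hP hT c 3 D hc w' e h ε₁ κ₁ hw0 hw1 he hh hb3 hε₁ hκ₁
  refine Bas.mono 0 hfl ?_
  rintro J - F A hfl X Γ t l₀ k s e₀ O g B Sv Gt Ht ψ ψH hD hdeg hfr hBA n2 n1 htΓ hsm hεk hOJ hOw
    hXt hXe hXJ hXg hn3
  have hc3 : Set.InjOn c (Set.Iio 3) := hc.mono (Set.Iio_subset_Iio (by norm_num))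
  have hdf := fun (ω : F.Ω) (hω : B ω) => hD.fl hc3 n2 hω (hfr.nr ω hω) htΓ n1 (hsm ω hω)
  obtain ⟨K, hK⟩ : ∃ K : ℕ, K = X + 4 * k + 6 := ⟨_, rfl⟩
  refine hfl 4 (O 1) e₀ K s (2 * K + s + 22) (g 1 3 + s) (g 1) ψ (gm3 Gt) ψH Ht
    (2 ^ (2 * X + 4 * k + 4) / 2 ^ t) (by norm_num) hOJ hOw
    (hεk.trans (by exact_mod_cast (by omega : k ≤ K))) (by omega) (by omega)
    (fun j hj => by have := hXJ j hj; omega) (fun l hl => by have := hXg l hl; omega) le_rfl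
    (by have := hXJ 3 le_rfl; omega) hn3 (by positivity) ?_ hdeg hD.pH B hBA
    (frok_mono hfr.fr (by omega) le_rfl) (gm3_cv hD.pG) (fun ω hω V => ?_) (fun ω hω => ?_)
    (fun ω hω V hV => ?_) (fun ω hω V hV => (hdf ω hω).2.2.2 V hV)
  · rw [div_mul_eq_mul_div, div_le_one (by positivity), ← pow_add]
    exact pow_le_pow_right₀ (by norm_num) (by omega)
  · rw [gm3_three, hK]
    exact (hdf ω hω).1 V
  · rw [gm3_three]
    exact (hdf ω hω).2.1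
  · rw [gm3_three]
    exact (hdf ω hω).2.2.1 V hV

end Pool.KPO
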