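import Pool.Agent.H31.D2.Kp4
import Pool.Agent.H54.C2T.Ser
import Pool.Agent.H23.D2.Wnr

/-!
# The end with a closed slope for a list coordinate

`klm`: the closed slope of the list coordinate, from ratios of components of the second derivative of
the row label. `klam`: an event in which one component is not small is small.
-/

set_option autoImplicit false

namespace Pool.KPO

open Finset Real MvPolynomial
open Pool.Agent.H49.Ent Pool.Agent.H32.Dense Pool.STK Pool.KA Pool.KSAT Pool.K2S Pool.PB Pool.S6C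
open Pool.GEN Pool.CHT Pool.CHX Pool.ISO Pool.D2F Pool.D2Z
open Pool.D2R (dd hs nrm nrm_nonneg co co_slam Wins rser deg_rser rat_ser rem_fam win_no')
open Pool.C2T (hq deg_hq eval_hq_rt tc ts ts_mem ts_near eval_tc_rt pol_var)
open Pool.D2N (Dpw WFr)
open Pool.LBT (ThrOf)
open Pool.PB.Trl (rt rt_mem)
open Pool.FLF (Fam.sub)

variable {m : ℕ}

/-- **The closed slope.** -/
noncomputable def klm {J : ℕ} {F : Fam m J} (c : ℕ → Fin m) (W n N l₀ : ℕ)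
    (ψH : LnT F → ℕ → Option (Fin m) → ℝ) (Ht : LnT F → MvPolynomial (Option (Fin m)) ℝ)
    (s : LnT F) (l : ℕ) : Polynomial ℝ :=
  ∑ j ∈ range l₀, Polynomial.C ((if j = l then 1 else 0) - ψH (co n s) j (some (c l))) *
    (Polynomial.C (cv (ψH (co n s) l₀) (dl c (ψH (co n s)) 3 j)) +
      (rser (hq W (co n s) (Ht (co n s)) (dl c (ψH (co n s)) 3 j))
        (hq W (co n s) (Ht (co n s)) (dl c (ψH (co n s)) 3 l₀))
        ((hq W (co n s) (Ht (co n s)) (dl c (ψH (co n s)) 3 l₀)).eval (ts n s)) N).comp (tc n s))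

theorem deg_klm {J : ℕ} {F : Fam m J} (c : ℕ → Fin m) (W n N l₀ : ℕ) {D : ℕ}
    (ψH : LnT F → ℕ → Option (Fin m) → ℝ) {Ht : LnT F → MvPolynomial (Option (Fin m)) ℝ}
    (hD : ∀ s, (Ht s).totalDegree ≤ D) (s : LnT F) (l : ℕ) :
    (klm c W n N l₀ ψH Ht s l).natDegree ≤ D * (N + 1) := by
  unfold klm
  refine Polynomial.natDegree_sum_le_of_forall_le _ _ fun j _ => ?_
  refine (Polynomial.natDegree_C_mul_le _ _).trans ?_
  refine (Polynomial.natDegree_add_le _ _).trans (max_le ?_ ?_)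
  · rw [Polynomial.natDegree_C]
    exact Nat.zero_le _
  · refine Polynomial.natDegree_comp_le.trans ?_
    have h1 := deg_rser (deg_hq W (co n s) (hD (co n s)) (dl c (ψH (co n s)) 3 j))
      (deg_hq W (co n s) (hD (co n s)) (dl c (ψH (co n s)) 3 l₀))
      ((hq W (co n s) (Ht (co n s)) (dl c (ψH (co n s)) 3 l₀)).eval (ts n s)) N
    have h2 : (tc n s).natDegree ≤ 1 := by
      unfold tc
      refine (Polynomial.natDegree_sub_le _ _).trans (max_le ?_ ?_)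
      · refine (Polynomial.natDegree_C_mul_le _ _).trans ?_
        refine (Polynomial.natDegree_add_le _ _).trans (max_le Polynomial.natDegree_X_le ?_)
        rw [Polynomial.natDegree_C]
        exact Nat.zero_le _
      · rw [Polynomial.natDegree_C]
        exact Nat.zero_le _
    calc _ ≤ D * (N + 1) * 1 := Nat.mul_le_mul h1 h2
      _ = _ := Nat.mul_one _

/-- **The closed slope is near the covector.** -/
theorem klm_near (D : ℕ) : ∃ C : ℝ, 1 ≤ C ∧ ∀ {m J : ℕ} {F : Fam m J} {c : ℕ → Fin m}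
    {W W₁ N l₀ a : ℕ} {g : ℕ → ℕ} {ψH : LnT F → ℕ → Option (Fin m) → ℝ}
    {Ht : LnT F → MvPolynomial (Option (Fin m)) ℝ} {ω : F.Ω} {S : ℕ → Option (Fin m) → ℝ}
    {H M E K : ℝ}, Set.InjOn c (Set.Iio 3) → l₀ < 3 → (∀ l, CvC c l (S l)) →
    (∀ s l, CvC c l (ψH s l)) →
    W ≤ W₁ → W₁ ≤ J → (∀ s, (Ht s).totalDegree ≤ D) → 0 < H →
    (∀ τ ∈ Set.Icc (0 : ℝ) 1, |(hq W (slam F W ω) (Ht (slam F W ω))
      (dl c (ψH (slam F W ω)) 3 l₀)).eval τ| ≤ M) →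
    H ≤ |hs (Ht (slam F W ω)) (bt F ω) (bd F ω) (dl c (ψH (slam F W ω)) 3 l₀)| → 0 ≤ E → 0 ≤ K →
    (∀ j < l₀, |hs (Ht (slam F W ω)) (bt F ω) (bd F ω) (dl c (ψH (slam F W ω)) 3 j) +
      cv (S l₀ - ψH (slam F W ω) l₀) (dl c (ψH (slam F W ω)) 3 j) *
        hs (Ht (slam F W ω)) (bt F ω) (bd F ω) (dl c (ψH (slam F W ω)) 3 l₀)| ≤ E * 2 ^ g j) →
    (∀ j < l₀, |hs (Ht (slam F W ω)) (bt F ω) (bd F ω) (dl c (ψH (slam F W ω)) 3 j)| ≤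
      K * 2 ^ g j) → 4 * (C * M / 2 ^ (W₁ - W)) ≤ H → ∀ V : Option (Fin m) → ℝ, V none = 0 →
    |∑ l ∈ range l₀, (klm c W (W₁ - W) N l₀ ψH Ht (slam F W₁ ω) l).eval (rt F W₁ ω) *
      V (some (c l)) - cv (S l₀) V| ≤
      4 / H * (E + K * (C * M / 2 ^ (W₁ - W) / (H / 2)) ^ N) *
        en c g a (ψH (slam F W ω)) l₀ V := by
  obtain ⟨C, hC, hvar⟩ := pol_var D
  refine ⟨C, hC, ?_⟩
  intro m J F c W W₁ N l₀ a g ψH Ht ω S H M E K hc hl₀ hS hψ hW hW₁ hD hH hM hH1 hE0 hK0 hE hK hδ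
    V hV
  have hWJ : W ≤ J := hW.trans hW₁
  obtain ⟨s, hs'⟩ : ∃ s, s = slam F W ω := ⟨_, rfl⟩
  have hco : co (W₁ - W) (slam F W₁ ω) = s := by rw [hs']; exact co_slam F hW hW₁ ω
  obtain ⟨Q, hQ⟩ : ∃ Q, Q = hq W s (Ht s) (dl c (ψH s) 3 l₀) := ⟨_, rfl⟩
  have hPe : ∀ j, (hq W s (Ht s) (dl c (ψH s) 3 j)).eval (rt F W ω) =
      hs (Ht s) (bt F ω) (bd F ω) (dl c (ψH s) 3 j) := by
    intro j
    rw [hs']
    exact eval_hq_rt F hWJ ω _ _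
  have hQe : Q.eval (rt F W ω) = hs (Ht s) (bt F ω) (bd F ω) (dl c (ψH s) 3 l₀) := by
    rw [hQ]
    exact hPe l₀
  rw [← hs'] at hM hH1 hE hK ⊢
  rw [← hQ] at hM
  have hM0 : 0 ≤ M := (abs_nonneg _).trans (hM 0 ⟨le_rfl, zero_le_one⟩)
  have hrm := rt_mem F W ω
  obtain ⟨τ₀, hτ₀⟩ : ∃ τ₀, τ₀ = ts (W₁ - W) (slam F W₁ ω) := ⟨_, rfl⟩
  have hτm : τ₀ ∈ Set.Icc (0 : ℝ) 1 := by rw [hτ₀]; exact ts_mem _ _
  have hτn : |τ₀ - rt F W ω| ≤ 1 / 2 ^ (W₁ - W) := by rw [hτ₀]; exact ts_near F hW hW₁ ω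
  obtain ⟨δ, hδe⟩ : ∃ δ, δ = C * M / 2 ^ (W₁ - W) := ⟨_, rfl⟩
  have hvar1 : |Q.eval τ₀ - Q.eval (rt F W ω)| ≤ δ := by
    have h1 := hvar Q M (by rw [hQ]; exact deg_hq W s (hD s) _) hM τ₀ (rt F W ω)
      (by rw [abs_of_nonneg hτm.1]; linarith [hτm.2]) (by rw [abs_of_nonneg hrm.1]; linarith [hrm.2])
    refine h1.trans ?_
    rw [hδe]
    calc C * M * |τ₀ - rt F W ω| ≤ C * M * (1 / 2 ^ (W₁ - W)) :=
          mul_le_mul_of_nonneg_left hτn (mul_nonneg (by linarith) hM0)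
      _ = _ := by ring
  rw [← hδe] at hδ ⊢
  have hδ0 : 0 ≤ δ := (abs_nonneg _).trans hvar1
  have hq1 : H / 2 ≤ |Q.eval τ₀| := by
    have h1 : |Q.eval (rt F W ω)| ≤ |Q.eval τ₀| + δ := by
      have e : Q.eval (rt F W ω) = Q.eval τ₀ - (Q.eval τ₀ - Q.eval (rt F W ω)) := by ring
      rw [e]
      exact (abs_sub _ _).trans (add_le_add le_rfl hvar1)
    rw [hQe] at h1
    linarith
  -- the sum over the coordinates
  obtain ⟨ρ, hρ⟩ : ∃ ρ : ℕ → ℝ, ρ = fun j => (rser (hq W s (Ht s) (dl c (ψH s) 3 j)) Q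
    (Q.eval τ₀) N).eval (rt F W ω) := ⟨_, rfl⟩
  have e1 : ∀ l, (klm c W (W₁ - W) N l₀ ψH Ht (slam F W₁ ω) l).eval (rt F W₁ ω) =
      ∑ j ∈ range l₀, ((if j = l then 1 else 0) - ψH s j (some (c l))) *
        (cv (ψH s l₀) (dl c (ψH s) 3 j) + ρ j) := by
    intro l
    unfold klm
    rw [Polynomial.eval_finsetSum]
    refine Finset.sum_congr rfl fun j _ => ?_
    rw [Polynomial.eval_mul, Polynomial.eval_C, Polynomial.eval_add, Polynomial.eval_C,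
      Polynomial.eval_comp, eval_tc_rt F hW hW₁ ω, hco, ← hQ, ← hτ₀, hρ]
  rw [Finset.sum_congr rfl fun l _ => by rw [e1 l],
    sp_sum (hc.mono (Set.Iio_subset_Iio hl₀.le)) (hψ s) _ hV]
  refine sp_id (a := a) (g := g) hc hS (hψ s) hl₀.le (fun j hj => ?_) hV
  have hmain := rat_ser (P := hq W s (Ht s) (dl c (ψH s) 3 j)) (Q := Q) (q₁ := Q.eval τ₀)
    (μ := H / 2) (δ := δ) (ε := E * 2 ^ g j) (K := K * 2 ^ g j)
    (k := cv (S l₀ - ψH s l₀) (dl c (ψH s) 3 j)) (τ := rt F W ω) N (by linarith) hq1 hvar1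
    (by linarith) (by rw [hPe]; exact hK j hj) (by rw [hPe, hQe]; exact hE j hj)
  rw [hρ]
  refine hmain.trans (le_of_eq ?_)
  field_simp
  ring

/-- Powers of two. -/
theorem two_num {a b c d e : ℕ} (h : a + c + e ≤ b + d) :
    (2 : ℝ) ^ a / 2 ^ b * (2 ^ c) ≤ 2 ^ d / 2 ^ e := by
  rw [div_mul_eq_mul_div, ← pow_add, div_le_div_iff₀ (by positivity) (by positivity), ← pow_add,
    ← pow_add]
  exact pow_le_pow_right₀ (by norm_num) (by omega)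

/-- The sizes of two windows. -/
theorem en_unit {c : ℕ → Fin m} {g g' : ℕ → ℕ} {a a' l X : ℕ} {χ : ℕ → Option (Fin m) → ℝ}
    (h : ∀ j < l, g j ≤ g' j + X) {V : Option (Fin m) → ℝ} (hV : V none = 0) :
    en c g a χ l V ≤ 2 ^ X * en c g' a' χ l V := by
  rw [en_eq, en_eq, hV, abs_zero, mul_zero, mul_zero, zero_add, zero_add, Finset.mul_sum]
  refine Finset.sum_le_sum fun j hj => ?_
  rw [← mul_assoc, ← pow_add]
  exact mul_le_mul_of_nonneg_right (pow_le_pow_right₀ (by norm_num) (by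
    have := h j (Finset.mem_range.1 hj)
    omega)) (abs_nonneg _)

/-- The numbers of the end. -/
theorem klm_num {X k t ρ N Γ g1 g3 g0 s1 Z n C O1 : ℕ} {C₂ H M r : ℝ} (hC₂ : C₂ ≤ 2 ^ C)
    (hC0 : 0 ≤ C₂) (hH : H = 2 ^ (O1 + g1) / 2 ^ (g3 + t + 1))
    (hM : M = 2 ^ k * (2 ^ (X + 1) * (2 ^ (O1 + g1) / 2 ^ g3))) (hr : r = C₂ * M / 2 ^ n)
    (h1 : t + 6 * k + 7 * X + 18 + g0 + s1 ≤ Z + g1 + Γ)
    (h2 : t + 6 * k + 7 * X + 18 + g0 + s1 ≤ Z + g1 + ρ * N)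
    (h3 : ρ + C + 4 + k + X + t ≤ n) :
    4 * r ≤ H ∧
    4 / H * (2 ^ (2 * k + 2 * X + 4) / 2 ^ Γ * (2 ^ O1 / 2 ^ g3) +
      2 ^ (2 * k + X + 5) * (2 ^ O1 / 2 ^ g3) * (r / (H / 2)) ^ N) *
      (2 ^ (4 * k + 4) * (2 ^ X * 2 ^ (4 * X + 4))) ≤ 2 ^ Z / 2 ^ (g0 + s1) := by
  have hH0 : 0 < H := by rw [hH]; positivity
  have e1 : r / (H / 2) = C₂ * 2 ^ (k + X + t + 3) / 2 ^ n := by
    rw [hr, hM, hH, pow_add 2 (g3 + t), pow_add 2 g3, show k + X + t + 3 = k + (X + 1) + (t + 2) by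
      ring, pow_add 2 (k + (X + 1)), pow_add 2 k, pow_add 2 t 2]
    field_simp
  have hr1 : r / (H / 2) ≤ 1 / 2 ^ (ρ + 1) := by
    rw [e1]
    calc C₂ * 2 ^ (k + X + t + 3) / 2 ^ n ≤ 2 ^ C * 2 ^ (k + X + t + 3) / 2 ^ n := by gcongr
      _ ≤ _ := by
        rw [← pow_add, div_le_div_iff₀ (by positivity) (by positivity), one_mul, ← pow_add]
        exact pow_le_pow_right₀ (by norm_num) (by omega)
  have hr0 : 0 ≤ r / (H / 2) := by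
    rw [e1]
    positivity
  constructor
  · have h4 : (1 : ℝ) / 2 ^ (ρ + 1) ≤ 1 / 2 := by
      rw [pow_succ]
      refine one_div_le_one_div_of_le (by norm_num) ?_
      have : (1 : ℝ) ≤ 2 ^ ρ := one_le_pow₀ (by norm_num)
      linarith
    have h5 := hr1.trans h4
    rw [div_le_iff₀ (by linarith)] at h5
    linarith
  · have h4 : (r / (H / 2)) ^ N ≤ 1 / 2 ^ (ρ * N) := by
      calc (r / (H / 2)) ^ N ≤ (1 / 2 ^ ρ) ^ N := by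
            refine pow_le_pow_left₀ hr0 (hr1.trans ?_) N
            exact one_div_le_one_div_of_le (by positivity) (pow_le_pow_right₀ (by norm_num)
              (by omega))
        _ = _ := by rw [div_pow, one_pow, ← pow_mul]
    have e2 : 4 / H * (2 ^ O1 / 2 ^ g3) = 2 ^ (t + 3) / 2 ^ g1 := by
      rw [hH, pow_add 2 (g3 + t), pow_add 2 g3, pow_add 2 O1, pow_add 2 t]
      field_simp
      norm_num
    have e3 : 4 / H * (2 ^ (2 * k + 2 * X + 4) / 2 ^ Γ * (2 ^ O1 / 2 ^ g3) +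
        2 ^ (2 * k + X + 5) * (2 ^ O1 / 2 ^ g3) * (r / (H / 2)) ^ N) *
        (2 ^ (4 * k + 4) * (2 ^ X * 2 ^ (4 * X + 4))) = (4 / H * (2 ^ O1 / 2 ^ g3)) *
        (2 ^ (4 * k + 4) * (2 ^ X * 2 ^ (4 * X + 4))) * (2 ^ (2 * k + 2 * X + 4) / 2 ^ Γ +
        2 ^ (2 * k + X + 5) * (r / (H / 2)) ^ N) := by ring
    have e4 : (2 : ℝ) ^ (4 * k + 4) * (2 ^ X * 2 ^ (4 * X + 4)) = 2 ^ (4 * k + 5 * X + 8) := by
      rw [← pow_add, ← pow_add]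
      congr 1
      ring
    rw [e3, e2, e4]
    have h5 : (2 : ℝ) ^ (t + 3) / 2 ^ g1 * 2 ^ (4 * k + 5 * X + 8) *
        (2 ^ (2 * k + 2 * X + 4) / 2 ^ Γ) ≤ 1 / 2 * (2 ^ Z / 2 ^ (g0 + s1)) := by
      rw [div_mul_eq_mul_div, ← pow_add, div_mul_div_comm, ← pow_add, ← pow_add,
        div_mul_div_comm, one_mul, ← pow_succ',
        div_le_div_iff₀ (by positivity) (by positivity), ← pow_add, ← pow_add]
      exact pow_le_pow_right₀ (by norm_num) (by omega)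
    have h6 : (2 : ℝ) ^ (t + 3) / 2 ^ g1 * 2 ^ (4 * k + 5 * X + 8) *
        (2 ^ (2 * k + X + 5) * (1 / 2 ^ (ρ * N))) ≤ 1 / 2 * (2 ^ Z / 2 ^ (g0 + s1)) := by
      rw [mul_one_div, div_mul_eq_mul_div, ← pow_add, div_mul_div_comm, ← pow_add, ← pow_add,
        div_mul_div_comm, one_mul, ← pow_succ',
        div_le_div_iff₀ (by positivity) (by positivity), ← pow_add, ← pow_add]
      exact pow_le_pow_right₀ (by norm_num) (by omega)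
    have h7 : (2 : ℝ) ^ (t + 3) / 2 ^ g1 * 2 ^ (4 * k + 5 * X + 8) *
        (2 ^ (2 * k + X + 5) * (r / (H / 2)) ^ N) ≤ (2 : ℝ) ^ (t + 3) / 2 ^ g1 *
        2 ^ (4 * k + 5 * X + 8) * (2 ^ (2 * k + X + 5) * (1 / 2 ^ (ρ * N))) := by
      gcongr
    rw [mul_add]
    linarith

/-- **The end with a closed slope** for the list coordinate `c l₀`. -/
theorem klam (m D D' N l₀ : ℕ) (hDp : 1 ≤ D') (hl₀ : l₀ < 3) : ∃ (C : ℕ) (Cr : ℝ),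
    1 ≤ Cr ∧ ∀ {S : PCl m} {P : List (Fin m) × Fin m → ℝ → ℝ → ℝ} {θ : ℝ}
    {c : ℕ → Fin m} {ζ : ℝ}
    {C₀' Eb' ηm' : ℝ} {o' ε' p'' η' σ' : ℕ → ℝ} {lv' be' : ℕ → ℕ → ℝ} {Dr' M : ℕ}
    {a w w' : ℚ} {a' q₁ s₁ h e ε₁ κ₁ : ℝ},
    ThrOf (chsys m θ) S P → TmH S → Set.InjOn c (Set.Iio 4) →
    o' 0 ≤ w → w ≤ o' 0 + ζ → a' ≤ a → a ≤ a' + ζ → 0 ≤ w → w ≤ a → a ≤ 1 → w < 1 →
    e < θ * w → 0 < h → 0 < ζ → C₀' * ηm' ≤ ζ → 0 ≤ q₁ → bet P c l₀ a w + h ≤ 1 →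
    Eb' + Cr * ζ ≤ e →
    bet P c l₀ a w + h + Cr * ζ ≤ lv' 0 l₀ + s₁ + (a - w) →
    bet P c l₀ a w + h + Cr * ζ ≤ lv' 1 l₀ - (o' 1 - w) + (a - w) →
    bet P c l₀ a w + h + Cr * ζ + q₁ ≤ lv' 0 l₀ + 2 * (a - w) → q₁ + Cr * ζ ≤ a - w →
    (∀ l ≤ l₀, Eb' + lv' 0 l + 2 * (a - w) + Cr * ζ ≤ 1) →
    bet P c l₀ a w + h ≤ lv' 0 l₀ + (a - w) + ζ →
    0 ≤ w' → w' < 1 → 0 < ε₁ → 0 < κ₁ →
    Bas S (fun J F A => ∀ (z' : ℕ → ℕ → ℕ) (κ' : ℝ) (b' : ℕ → ℕ → ℝ)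
      (Bp : F.Ω → Prop) (gc' gT' g₀' : ℕ → ℕ → ℕ)
      (G' : ℕ → PtT F → ℕ → MvPolynomial (Option (Fin m)) ℝ)
      (H' : ℕ → LnT F → ℕ → MvPolynomial (Option (Fin m)) ℝ)
      (T' : ℕ → PtT F → ℕ → MvPolynomial (Option (Fin m)) ℝ)
      (TH' : ℕ → LnT F → ℕ → MvPolynomial (Option (Fin m)) ℝ)
      (Gt' : ℕ → PtT F → MvPolynomial (Option (Fin m)) ℝ)
      (Ht' : ℕ → LnT F → MvPolynomial (Option (Fin m)) ℝ) (jq : ℕ),
      Wins F c l₀ D' Dr' 1 M (fun _ => True) C₀' a' Eb' ηm' o' ε' p'' η' σ' lv' be' b' κ' z' Bp gc'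
        gT' g₀' G' H' T' TH' Gt' Ht' → Sub Bp A → jq ≤ M → z' 0 jq = ⌊q₁ * J⌋₊ →
      ∀ (X Γ t k e₀ ρ : ℕ) (O : ℕ → ℕ) (g : ℕ → ℕ → ℕ) (B : F.Ω → Prop)
      (Sv : PtT F → ℕ → Option (Fin m) → ℝ) (Gt : PtT F → MvPolynomial (Option (Fin m)) ℝ)
      (Ht : LnT F → MvPolynomial (Option (Fin m)) ℝ) (ψ : PtT F → ℕ → Option (Fin m) → ℝ)
      (ψH : LnT F → ℕ → Option (Fin m) → ℝ), KDat F c X Γ O g B Sv Gt Ht →
      (∀ s, (Ht s).totalDegree ≤ D) → WFr F c 4 (O 1) k e₀ (g 1) B ψ ψH Sv → Sub B Bp →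
      (∀ ω, B ω → 2 ^ (O 1 + g 1 l₀) / 2 ^ (g 1 3 + t) ≤ |hs (Ht (slam F (O 1) ω)) (bt F ω)
        (bd F ω) (dl c (Sv (ptr F J ω)) 3 l₀)|) →
      (∀ ω, B ω → Nc c (g₀' 0) ⌊o' 0 * J⌋₊ (l₀ + 1) (2 ^ X)
        (fun l => grd (G' 0 (ptr F J ω) l) (bt F ω)) (Sv (ptr F J ω))) →
      (∀ ω ν, B ω → B ν → ptr F J ω = ptr F J ν →
        |bd F ν (some (c l₀)) - cv (Sv (ptr F J ω) l₀) (bd F ν)| ≤
          2 ^ X * 2 ^ ⌊o' 1 * J⌋₊ / 2 ^ g₀' 1 l₀) →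
      (∀ i < 3, i ≠ l₀ → ∃ k ≤ 2, O k + g k i + g 1 3 + Γ ≤ O 1 + g 1 i + g k 3 + X) →
      ε₁ * J ≤ k → O 1 ≤ ⌊(w' : ℝ) * J⌋₊ → O 1 ≤ ⌊o' 0 * J⌋₊ → ⌊o' 0 * J⌋₊ ≤ J →
      2 * X + k + t + 3 ≤ Γ → ρ + C + k + X + t ≤ ⌊o' 0 * J⌋₊ - O 1 →
      (∀ j < l₀, g 1 j ≤ g₀' 0 j + X) →
      t + 6 * k + 7 * X + 18 + g₀' 0 l₀ + ⌊s₁ * J⌋₊ ≤ ⌊ζ * J⌋₊ + g 1 l₀ + Γ →
      t + 6 * k + 7 * X + 18 + g₀' 0 l₀ + ⌊s₁ * J⌋₊ ≤ ⌊ζ * J⌋₊ + g 1 l₀ + ρ * N →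
      X ≤ ⌊ζ * J⌋₊ → Pe F.p B < κ₁ * Pe F.p A) := by
  obtain ⟨C₂, hC₂, hnear⟩ := klm_near D
  obtain ⟨C₄, hC₄, hrem⟩ := rem_fam m D 1
  obtain ⟨Cr, hCr, hwn⟩ := win_no' m (D * (N + 1)) D' l₀ hDp
  obtain ⟨Cn, hCn⟩ := pow_unbounded_of_one_lt C₂ (by norm_num : (1 : ℝ) < 2)
  refine ⟨Cn + 4, Cr, hCr, ?_⟩
  intro S P θ c ζ C₀' Eb' ηm' o' ε' p'' η' σ' lv' be' Dr' M a w w' a' q₁ s₁ h e ε₁ κ₁ hP hT hc
    how1 how2 haa1 haa2 hw0 hwa ha1 hw1 hew hh hζ hCη hq₁ hbet hEe h1 h2 h3 h4 h5 h6 hw'0 hw'1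
    hε₁ hκ₁
  have hc3 : Set.InjOn c (Set.Iio 3) := hc.mono (Set.Iio_subset_Iio (by norm_num))
  have hcl : Set.InjOn c (Set.Iio (l₀ + 1)) := hc.mono (Set.Iio_subset_Iio (by omega))
  have hL2 : 0 < Real.log 2 := Real.log_pos (by norm_num)
  have hw'1R : (w' : ℝ) < 1 := by exact_mod_cast hw'1
  have hw'0R : (0 : ℝ) ≤ w' := by exact_mod_cast hw'0
  obtain ⟨δ₁, hδ₁, hwn⟩ := hwn (S := S) (P := P) (θ := θ) (c := c) (R := fun _ => True) (C₀ := C₀')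
    (Eb := Eb') (ηm := ηm') (ζ := ζ) (o := o') (ε := ε') (p' := p'') (η := η') (σ := σ')
    (lv := lv') (be := be') (r := l₀) (Dr := Dr') (N := 1) (M := M) (k₀ := 0) (n := 1) (a := a)
    (w := w) (a' := a') (q₁ := q₁) (s₁ := s₁) (h := h) (e := e) hP hT hcl le_rfl (by norm_num)
    le_rfl how1 how2 haa1 haa2 hw0 hwa ha1 hw1 hew hh hζ hCη hq₁ hbet hEe h1 h2 h3 h4
    (fun l hl => h5 l hl) (fun l _ hl => absurd trivial hl)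
    (fun j _ => Or.inr (Or.inl ⟨trivial, h6⟩))
  have hpos : Bas S (fun _ F A => 0 < Pe F.p A) := ⟨1, one_pos, 0, fun J _ F A hA =>
    hT.1 1 J F A hA⟩
  obtain ⟨μ, hμ⟩ : ∃ μ : ℝ, μ = min ε₁ (1 - w') * Real.log 2 / 2 := ⟨_, rfl⟩
  have hμ0 : 0 < μ := by
    rw [hμ]
    have : 0 < min ε₁ (1 - (w' : ℝ)) := lt_min hε₁ (by linarith)
    positivity
  have hC₄0 : 0 < C₄ := by linarith
  obtain ⟨ε₂, hε₂⟩ : ∃ ε₂ : ℝ, ε₂ = μ / C₄ := ⟨_, rfl⟩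
  have hε₂0 : 0 < ε₂ := by rw [hε₂]; positivity
  have htm := bas_ev (hT.2 ε₂ hε₂0) hκ₁
  obtain ⟨J₂, hJ₂⟩ := exists_nat_ge (C₄ / μ)
  obtain ⟨J₃, hJ₃⟩ := exists_nat_ge (-Real.log (κ₁ / 4) / δ₁)
  refine Bas.mono (max J₂ J₃) ((hwn.and htm).and hpos) ?_
  rintro J hJ F A ⟨⟨hwn, htm⟩, hA0⟩
  intro z' κ' b' Bp gc' gT' g₀' G' H' T' TH' Gt' Ht' jq Wn' hBpA hjq hz X Γ t k e₀ ρ O g B Sv Gt Ht
    ψ ψH hD hdeg hfr hBBp hlow hnc hvel n2 hεk hOw hOW₁ hW₁J hXΓ hρ hgg n5 n6 hXZ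
  have hBA : Sub B A := fun ω hω => hBpA ω (hBBp ω hω)
  by_contra hcon
  rw [not_lt] at hcon
  have hp := Pe_nonneg F.isLaw
  have hJ0 : (0 : ℝ) ≤ J := Nat.cast_nonneg J
  have hB0 : 0 < Pe F.p B := (mul_pos hκ₁ hA0).trans_le hcon
  have hJ3 : Real.exp (-(δ₁ * J)) ≤ κ₁ / 4 := by
    have h2 : (J₃ : ℝ) ≤ J := by exact_mod_cast (le_max_right _ _).trans hJ
    have h3 := hJ₃.trans h2
    rw [div_le_iff₀ hδ₁] at h3
    have h4 : -(δ₁ * (J : ℝ)) ≤ Real.log (κ₁ / 4) := by linarith only [h3]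
    exact (Real.exp_le_exp.2 h4).trans (Real.exp_log (by positivity)).le
  have hJ2 : C₄ ≤ μ * J := by
    have h2 : (J₂ : ℝ) ≤ J := by exact_mod_cast (le_max_left _ _).trans hJ
    have h3 := hJ₂.trans h2
    rw [div_le_iff₀ hμ0] at h3
    linarith only [h3]
  obtain ⟨W, hW⟩ : ∃ W : ℕ, W = O 1 := ⟨_, rfl⟩
  obtain ⟨W₁, hW₁⟩ : ∃ W₁ : ℕ, W₁ = ⌊o' 0 * J⌋₊ := ⟨_, rfl⟩
  rw [← hW] at hOw
  rw [← hW, ← hW₁] at hOW₁ hρ
  rw [← hW₁] at hW₁J hnc hwn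
  have hWJ : W ≤ J := hOW₁.trans hW₁J
  -- the time
  have hθ0 : 0 ≤ ε₂ * J := by positivity
  have hmain : C₄ * (ε₂ * J + 1) ≤ min ε₁ (1 - (w' : ℝ)) * Real.log 2 * J := by
    have e1 : C₄ * (ε₂ * J) = μ * J := by rw [hε₂]; field_simp
    have e2 : 2 * (μ * J) = min ε₁ (1 - (w' : ℝ)) * Real.log 2 * J := by rw [hμ]; ring
    rw [mul_add, mul_one, e1]
    linarith only [hJ2, e2]
  have hm1 : C₄ * (ε₂ * J + 1) ≤ k * Real.log 2 := by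
    refine hmain.trans ?_
    have e1 : min ε₁ (1 - (w' : ℝ)) * Real.log 2 * J ≤ ε₁ * Real.log 2 * J :=
      mul_le_mul_of_nonneg_right (mul_le_mul_of_nonneg_right (min_le_left _ _) hL2.le) hJ0
    have e2 := mul_le_mul_of_nonneg_right hεk hL2.le
    linarith only [e1, e2]
  have hm2 : C₄ * (ε₂ * J + 1) ≤ ((J : ℝ) - W) * Real.log 2 := by
    refine hmain.trans ?_
    have e1 : min ε₁ (1 - (w' : ℝ)) * Real.log 2 * J ≤ (1 - w') * Real.log 2 * J :=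
      mul_le_mul_of_nonneg_right (mul_le_mul_of_nonneg_right (min_le_right _ _) hL2.le) hJ0
    have e2 : (W : ℝ) ≤ w' * J := by
      have h2 : (W : ℝ) ≤ ⌊(w' : ℝ) * J⌋₊ := by exact_mod_cast hOw
      exact h2.trans (Nat.floor_le (mul_nonneg hw'0R hJ0))
    have e3 := mul_le_mul_of_nonneg_right e2 hL2.le
    linarith only [e1, e3]
  have hexp : Real.exp (C₄ * (ε₂ * J + 1)) ≤ 2 ^ k := by
    have e2 : Real.exp (C₄ * (ε₂ * J + 1)) ≤ Real.exp (k * Real.log 2) := Real.exp_le_exp.2 hm1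
    rw [mul_comm (k : ℝ), ← Real.rpow_def_of_pos (by norm_num), Real.rpow_natCast] at e2
    exact e2
  -- the pointwise facts
  have hcls : ∀ ω, B ω → ψ (ptr F J ω) = ψH (slam F W ω) := fun ω hω => by
    rw [hW]
    exact hfr.fr.cls ω hω
  have hpt := fun (ω : F.Ω) (hω : B ω) => hD.pt hc3 (fun l => hfr.fr.dep (ptr F J ω) l) hl₀ n2 hω
    ((hfr.nr ω hω).le (by norm_num)) hXΓ (hlow ω hω)
  obtain ⟨M₀, hM₀⟩ : ∃ M₀ : ℝ, M₀ = 2 ^ (X + 1) * (2 ^ (W + g 1 l₀) / 2 ^ g 1 3) := ⟨_, rfl⟩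
  have hM₀0 : 0 < M₀ := by rw [hM₀]; positivity
  obtain ⟨Bm, m1, m2, m3⟩ := hrem J F B hB0 W
    (fun _ s => hq W s (Ht s) (dl c (ψH s) 3 l₀)) (fun _ => M₀) (ε₂ * J) hWJ
    (fun _ _ s => deg_hq W s (hdeg s) _) (fun _ _ => hM₀0) hθ0 (htm B hBA hcon hB0) hm2
    (fun ω hω _ _ => by
      rw [eval_hq_rt F hWJ, ← hcls ω hω, hM₀]
      have := (hpt ω hω).2.1
      rwa [← hW] at this)
  have hBmA : Sub Bm A := fun ω hω => hBA ω (m1 ω hω)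
  have hPBm : κ₁ / 2 * Pe F.p A ≤ Pe F.p Bm := by linarith only [hcon, m2]
  obtain ⟨Z, hZ⟩ : ∃ Z : ℕ, Z = ⌊ζ * J⌋₊ := ⟨_, rfl⟩
  rw [← hZ] at hwn n5 n6 hXZ
  obtain ⟨H, hH⟩ : ∃ H : ℝ, H = 2 ^ (W + g 1 l₀) / 2 ^ (g 1 3 + t + 1) := ⟨_, rfl⟩
  have hH0 : 0 < H := by rw [hH]; positivity
  obtain ⟨num1, num2⟩ := klm_num (O1 := W) (r := C₂ * (2 ^ k * M₀) / 2 ^ (W₁ - W)) (ρ := ρ)
    (N := N) hCn.le (by linarith) hH (M := 2 ^ k * M₀) (by rw [hM₀]) rfl n5 n6 (by omega)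
  have hkey : ∀ ω, Bm ω → ∀ V : Option (Fin m) → ℝ, V none = 0 →
      |∑ l ∈ range l₀, (klm c W (W₁ - W) N l₀ ψH Ht (slam F W₁ ω) l).eval (rt F W₁ ω) *
        V (some (c l)) - cv (Sv (ptr F J ω) l₀) V| ≤ 2 ^ Z / 2 ^ (g₀' 0 l₀ + ⌊s₁ * J⌋₊) *
        nrm c (G' 0 (ptr F J ω)) (g₀' 0) W₁ l₀ (bt F ω) V := by
    intro ω hω V hV
    have hωB := m1 ω hω
    obtain ⟨p1, p2, p3, p4, p5⟩ := hpt ω hωB
    rw [← hW] at p1 p4 p5
    rw [hcls ω hωB] at p1 p3 p4 p5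
    have k1 := hnear (W := W) (W₁ := W₁) (N := N) (l₀ := l₀) (a := W) (g := g 1) (ψH := ψH)
      (Ht := Ht) (ω := ω) (S := Sv (ptr F J ω)) (H := H) (M := 2 ^ k * M₀)
      (E := 2 ^ (2 * k + 2 * X + 4) / 2 ^ Γ * (2 ^ W / 2 ^ g 1 3))
      (K := 2 ^ (2 * k + X + 5) * (2 ^ W / 2 ^ g 1 3)) hc3 hl₀ (hD.dS (ptr F J ω)) hfr.fr.depH
      hOW₁ hW₁J hdeg hH0 (fun τ hτ => (m3 ω hω 0 (by norm_num) τ hτ).trans
        (mul_le_mul_of_nonneg_right hexp hM₀0.le)) (by rw [hH]; exact p1) (by positivity)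
      (by positivity) (fun j hj => (p4 j hj).trans (le_of_eq (by rw [pow_add 2 W]; ring)))
      (fun j hj => (p5 j hj).trans (le_of_eq (by rw [pow_add 2 W]; ring))) num1 V hV
    refine k1.trans ?_
    rw [← hcls ω hωB]
    -- the sizes
    have s1 : en c (g 1) W (ψ (ptr F J ω)) l₀ V ≤
        2 ^ (4 * k + 4) * en c (g 1) W (Sv (ptr F J ω)) l₀ V := by
      have hn := hfr.nr ω hωB
      rw [← hW] at hn
      refine (hn.en_ge (by positivity) (by omega) V).trans (mul_le_mul_of_nonneg_right ?_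
        (en_nonneg _ _ _ _ _ _))
      refine (pow1 k 4).trans (pow_le_pow_right₀ (by norm_num) (by omega))
    have s2 : en c (g 1) W (Sv (ptr F J ω)) l₀ V ≤
        2 ^ X * en c (g₀' 0) W₁ (Sv (ptr F J ω)) l₀ V := en_unit hgg hV
    have s3 : en c (g₀' 0) W₁ (Sv (ptr F J ω)) l₀ V ≤
        2 ^ (4 * X + 4) * nrm c (G' 0 (ptr F J ω)) (g₀' 0) W₁ l₀ (bt F ω) V := by
      rw [nrm_en]
      refine ((hnc ω hωB).en_le (by positivity) (by omega) V).trans (mul_le_mul_of_nonneg_right ?_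
        (en_nonneg _ _ _ _ _ _))
      refine (pow1 X (l₀ + 1)).trans (pow_le_pow_right₀ (by norm_num) ?_)
      have : (X + 1) * (l₀ + 1) ≤ (X + 1) * 4 := Nat.mul_le_mul_left _ (by omega)
      omega
    have s4 : en c (g 1) W (ψ (ptr F J ω)) l₀ V ≤ 2 ^ (4 * k + 4) * (2 ^ X * 2 ^ (4 * X + 4)) *
        nrm c (G' 0 (ptr F J ω)) (g₀' 0) W₁ l₀ (bt F ω) V := by
      refine s1.trans ?_
      calc _ ≤ 2 ^ (4 * k + 4) * (2 ^ X * (2 ^ (4 * X + 4) *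
            nrm c (G' 0 (ptr F J ω)) (g₀' 0) W₁ l₀ (bt F ω) V)) := by
            refine mul_le_mul_of_nonneg_left (s2.trans ?_) (by positivity)
            exact mul_le_mul_of_nonneg_left s3 (by positivity)
        _ = _ := by ring
    refine (mul_le_mul_of_nonneg_left s4 (by positivity)).trans ?_
    rw [← mul_assoc]
    exact mul_le_mul_of_nonneg_right num2 (nrm_nonneg _ _ _ _ _ _ _)
  have hend := hwn z' κ' b' Bp gc' gT' g₀' G' H' T' TH' Gt' Ht' jq Wn' hBpA hjq hz Bm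
    (fun y => afp 0 0 (Sv y l₀)) (klm c W (W₁ - W) N l₀ ψH Ht) (fun ω hω => hBBp ω (m1 ω hω))
    (fun ω ν hω hν hpt => by
      rw [Pool.D2R.dd_afp]
      refine (hvel ω ν (m1 ω hω) (m1 ν hν) hpt).trans ?_
      exact div_le_div_of_nonneg_right (mul_le_mul_of_nonneg_right
        (pow_le_pow_right₀ (by norm_num) hXZ) (by positivity)) (by positivity))
    (fun ω hω V hV => by
      rw [Pool.D2R.dd_afp, nrm_en]
      have h7 := hnc ω (m1 ω hω) l₀ (by omega) V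
      rw [cv_subl, cv_grd] at h7
      refine h7.trans (mul_le_mul_of_nonneg_right (div_le_div_of_nonneg_right
        (pow_le_pow_right₀ (by norm_num) hXZ) (by positivity)) (en_nonneg _ _ _ _ _ _)))
    (fun ω ν hω hν hpt V hV => by
      rw [Pool.D2R.dd_afp, Pool.D2R.dd_afp, sub_self, abs_zero]
      exact mul_nonneg (by positivity) (nrm_nonneg _ _ _ _ _ _ _))
    (deg_klm c W (W₁ - W) N l₀ ψH hdeg) (fun ω hω V hV => by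
      rw [Pool.D2R.dd_afp]
      exact hkey ω hω V hV)
  have h8 : Pe F.p Bm ≤ κ₁ / 4 * Pe F.p A := hend.trans
    (mul_le_mul_of_nonneg_right hJ3 (hp A))
  have h10 : 0 < κ₁ * Pe F.p A := by positivity
  linarith only [hPBm, h8, h10]

end Pool.KPO
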