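import Pool.Agent.H31.D2.Kp5

/-!
# The end

`kend`: over three deep windows and the windows of a list coordinate, an event is small.
-/

set_option autoImplicit false

namespace Pool.KPO

open Finset Real MvPolynomial
open Pool.Agent.H49.Ent Pool.Agent.H32.Dense Pool.STK Pool.KA Pool.KSAT Pool.K2S Pool.PB Pool.S6C
open Pool.GEN Pool.CHT Pool.CHX Pool.ISO Pool.D2F Pool.D2Z
open Pool.D2R (dd hs nrm nrm_nonneg co co_slam Wins)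
open Pool.D2N (Dpw WFr)
open Pool.LBT (ThrOf)

variable {m : ℕ}

theorem WFr.sub {J : ℕ} {F : Fam m J} {c : ℕ → Fin m} {n a k e : ℕ} {g : ℕ → ℕ}
    {B B' : F.Ω → Prop} {ψ : PtT F → ℕ → Option (Fin m) → ℝ}
    {ψH : LnT F → ℕ → Option (Fin m) → ℝ} {Sv : PtT F → ℕ → Option (Fin m) → ℝ}
    (h : WFr F c n a k e g B ψ ψH Sv) (hB : Sub B' B) : WFr F c n a k e g B' ψ ψH Sv :=
  ⟨frok_sub h.fr hB, fun ω hω => h.nr ω (hB ω hω)⟩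

/-- **The end.** -/
theorem kend (m D D' N l₀ : ℕ) (hD : 1 ≤ D) (hDp : 1 ≤ D') (hl₀ : l₀ < 3) : ∃ (C : ℕ) (Cr : ℝ),
    1 ≤ C ∧ 1 ≤ Cr ∧ ∀ {S : PCl m} {P P₂ : List (Fin m) × Fin m → ℝ → ℝ → ℝ} {θ θ₂ : ℝ}
    {c : ℕ → Fin m} {ζ : ℝ}
    {C₀' Eb' ηm' : ℝ} {o' ε' p'' η' σ' : ℕ → ℝ} {lv' be' : ℕ → ℕ → ℝ} {Dr' M : ℕ}
    {a w w' : ℚ} {a' q₁ s₁ h e e₂ ε₁ κ₁ : ℝ},
    ThrOf (chsys m θ) S P → ThrOf (chsys m θ₂) S P₂ → TmH S → Set.InjOn c (Set.Iio 4) →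
    o' 0 ≤ w → w ≤ o' 0 + ζ → a' ≤ a → a ≤ a' + ζ → 0 ≤ w → w ≤ a → a ≤ 1 → w < 1 →
    e < θ * w → 0 < h → 0 < ζ → C₀' * ηm' ≤ ζ → 0 ≤ q₁ → bet P c l₀ a w + h ≤ 1 →
    Eb' + Cr * ζ ≤ e →
    bet P c l₀ a w + h + Cr * ζ ≤ lv' 0 l₀ + s₁ + (a - w) →
    bet P c l₀ a w + h + Cr * ζ ≤ lv' 1 l₀ - (o' 1 - w) + (a - w) →
    bet P c l₀ a w + h + Cr * ζ + q₁ ≤ lv' 0 l₀ + 2 * (a - w) → q₁ + Cr * ζ ≤ a - w →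
    (∀ l ≤ l₀, Eb' + lv' 0 l + 2 * (a - w) + Cr * ζ ≤ 1) →
    bet P c l₀ a w + h ≤ lv' 0 l₀ + (a - w) + ζ →
    0 ≤ w' → w' < 1 → e₂ < θ₂ * w' → bet P₂ c 0 w' w' + h ≤ 1 → bet P₂ c 3 w' w' + h ≤ 1 →
    0 < ε₁ → 0 < κ₁ →
    Bas S (fun J F A => ∀ (z' : ℕ → ℕ → ℕ) (κ' : ℝ) (b' : ℕ → ℕ → ℝ)
      (Bp : F.Ω → Prop) (gc' gT' g₀' : ℕ → ℕ → ℕ)
      (G' : ℕ → PtT F → ℕ → MvPolynomial (Option (Fin m)) ℝ)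
      (H' : ℕ → LnT F → ℕ → MvPolynomial (Option (Fin m)) ℝ)
      (T' : ℕ → PtT F → ℕ → MvPolynomial (Option (Fin m)) ℝ)
      (TH' : ℕ → LnT F → ℕ → MvPolynomial (Option (Fin m)) ℝ)
      (Gt' : ℕ → PtT F → MvPolynomial (Option (Fin m)) ℝ)
      (Ht' : ℕ → LnT F → MvPolynomial (Option (Fin m)) ℝ) (jq : ℕ),
      Wins F c l₀ D' Dr' 1 M (fun _ => True) C₀' a' Eb' ηm' o' ε' p'' η' σ' lv' be' b' κ' z' Bp gc'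
        gT' g₀' G' H' T' TH' Gt' Ht' → Sub Bp A → jq ≤ M → z' 0 jq = ⌊q₁ * J⌋₊ →
      ∀ (X Γ t k s ρ n₀ : ℕ) (O v v' e₀ p : ℕ → ℕ) (g gT : ℕ → ℕ → ℕ) (U : ℕ → ℝ)
      (B : F.Ω → Prop) (G : ℕ → PtT F → ℕ → MvPolynomial (Option (Fin m)) ℝ)
      (H : ℕ → LnT F → ℕ → MvPolynomial (Option (Fin m)) ℝ)
      (T : ℕ → PtT F → ℕ → MvPolynomial (Option (Fin m)) ℝ)
      (TH : ℕ → LnT F → ℕ → MvPolynomial (Option (Fin m)) ℝ)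
      (Sv : PtT F → ℕ → Option (Fin m) → ℝ) (Gt : PtT F → MvPolynomial (Option (Fin m)) ℝ)
      (Ht : LnT F → MvPolynomial (Option (Fin m)) ℝ),
      (∀ k ≤ 2, Dpw F c D (O 0) (O k) (v k) (v' k) (e₀ k) X (p k) (g k) (gT k) (U k) B (G k)
        (H k) (T k) (TH k) Ht Sv) → O 0 ≤ O 1 → (∀ y, DepC c 3 (Gt y)) →
      (∀ s, DepC c 3 (Ht s)) → (∀ s, (Ht s).totalDegree ≤ D) →
      (∀ ω, B ω → ∀ V : Option (Fin m) → ℝ,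
        |dd (Gt (ptr F J ω)) (hx F ω) V - dd (Ht (slam F (O 0) ω)) (bt F ω) V| ≤
          2 ^ X / 2 ^ (g 1 3 + Γ) * en c (g 1) (O 1) (Sv (ptr F J ω)) 3 V) → Sub B Bp →
      (∀ ω, B ω → Nc c (g₀' 0) ⌊o' 0 * J⌋₊ (l₀ + 1) (2 ^ X)
        (fun l => grd (G' 0 (ptr F J ω) l) (bt F ω)) (Sv (ptr F J ω))) →
      (∀ ω ν, B ω → B ν → ptr F J ω = ptr F J ν →
        |bd F ν (some (c l₀)) - cv (Sv (ptr F J ω) l₀) (bd F ν)| ≤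
          2 ^ X * 2 ^ ⌊o' 1 * J⌋₊ / 2 ^ g₀' 1 l₀) →
      (∀ i < 3, i ≠ l₀ → ∃ k ≤ 2, O k + g k i + g 1 3 + Γ ≤ O 1 + g 1 i + g k 3 + X) →
      O 2 + g 1 3 + Γ ≤ O 1 + g 2 3 + X →
      n₀ = C * (k + s + X + 1) → 2 * X + 2 ≤ k → ε₁ * J ≤ k → O 1 ≤ ⌊(w' : ℝ) * J⌋₊ →
      O 1 ≤ ⌊o' 0 * J⌋₊ → ⌊o' 0 * J⌋₊ ≤ J → e₀ 1 + n₀ ≤ ⌊e₂ * J⌋₊ →
      (∀ j ≤ 3, e₀ 1 + g 1 j + n₀ ≤ J) → (∀ l < 3, n₀ ≤ g 1 l) →
      ⌊(bet P₂ c 0 w' w' + h) * J⌋₊ + O 1 ≤ g 1 0 + s + ⌊(w' : ℝ) * J⌋₊ →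
      ⌊(bet P₂ c 3 w' w' + h) * J⌋₊ + O 1 ≤ g 1 3 + s + ⌊(w' : ℝ) * J⌋₊ →
      n₀ ≤ t → t + n₀ ≤ Γ → ρ + t + n₀ ≤ ⌊o' 0 * J⌋₊ - O 1 → (∀ j < l₀, g 1 j ≤ g₀' 0 j + X) →
      t + n₀ + g₀' 0 l₀ + ⌊s₁ * J⌋₊ ≤ ⌊ζ * J⌋₊ + g 1 l₀ + Γ →
      t + n₀ + g₀' 0 l₀ + ⌊s₁ * J⌋₊ ≤ ⌊ζ * J⌋₊ + g 1 l₀ + ρ * N → n₀ ≤ ⌊ζ * J⌋₊ →
      Pe F.p B < κ₁ * Pe F.p A) := by
  classical
  obtain ⟨Cf, hCf, hfr⟩ := kfrm m D hD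
  obtain ⟨Cl, Cr, hCr, hlm⟩ := klam m D D' N l₀ hDp hl₀
  refine ⟨100 * Cf + Cl + 500, Cr, by omega, hCr, ?_⟩
  intro S P P₂ θ θ₂ c ζ C₀' Eb' ηm' o' ε' p'' η' σ' lv' be' Dr' M a w w' a' q₁ s₁ h e e₂ ε₁ κ₁
    hP hP₂ hT hc how1 how2 haa1 haa2 hw0 hwa ha1 hw1 hew hh hζ hCη hq₁ hbet hEe h1 h2 h3 h4 h5 h6
    hw'0 hw'1 he₂ hb0 hb3 hε₁ hκ₁
  have hCf0 : (0 : ℝ) < Cf := by exact_mod_cast hCf
  have hfr := hfr hP₂ hT hc hw'0 hw'1 he₂ hh hb0 hε₁ hκ₁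
  have hfl := kflat m D hP₂ hT hc hw'0 hw'1 he₂ hh hb3 hε₁
    (show 0 < κ₁ / (2 * Cf) by positivity)
  have hlm := hlm (C₀' := C₀') (Eb' := Eb') (ηm' := ηm') (o' := o') (ε' := ε') (p'' := p'')
    (η' := η') (σ' := σ') (lv' := lv') (be' := be') (Dr' := Dr') (M := M) hP hT hc how1 how2 haa1
    haa2 hw0 hwa ha1 hw1 hew hh hζ hCη hq₁ hbet hEe h1 h2 h3 h4 h5 h6 hw'0 hw'1 hε₁
    (show 0 < κ₁ / (2 * Cf) by positivity)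
  refine Bas.mono 0 ((hfr.and hfl).and hlm) ?_
  rintro J - F A ⟨⟨hfr, hfl⟩, hlm⟩
  intro z' κ' b' Bp gc' gT' g₀' G' H' T' TH' Gt' Ht' jq Wn' hBpA hjq hz X Γ t k s ρ n₀ O v v' e₀ p
    g gT U B G H T TH Sv Gt Ht hD3 hO01 pG pH hdeg hrow hBBp hnc hvel n2 n1 hn₀ hXk hεk hOw hOW₁
    hW₁J hne hnJ hng hn0 hn3 hnt htΓ hρ hgg n5 n6 hnZ
  have hBA : Sub B A := fun ω hω => hBpA ω (hBBp ω hω)
  by_contra hcon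
  rw [not_lt] at hcon
  have hp := Pe_nonneg F.isLaw
  obtain ⟨L, hL⟩ : ∃ L : ℕ, L = Cf * (k + s + 1) := ⟨_, rfl⟩
  have q1 : 100 * L + (Cl + 500 * (k + s + X + 1)) ≤ n₀ := by
    rw [hn₀, hL]
    have h1 : Cf * (k + s + 1) ≤ Cf * (k + s + X + 1) := Nat.mul_le_mul_left _ (by omega)
    have h2 : Cl ≤ Cl * (k + s + X + 1) := Nat.le_mul_of_pos_right _ (by omega)
    have h3 : (100 * Cf + Cl + 500) * (k + s + X + 1) = 100 * (Cf * (k + s + X + 1)) +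
      Cl * (k + s + X + 1) + 500 * (k + s + X + 1) := by ring
    omega
  obtain ⟨B', ψ, ψH, c1, c2, c3⟩ := hfr (O 0) (O 1) (v 1) (v' 1) (e₀ 1) X (p 1) k s (g 1) (gT 1)
    (U 1) B (G 1) (H 1) (T 1) (TH 1) Ht Sv (hD3 1 (by norm_num)) hBA hcon hXk hεk hOw
    (by rw [← hL]; omega) (fun l hl => by rw [← hL]; have := hnJ l (by omega); omega) hn0
  rw [← hL] at c3
  have hK := (kdat_of hD3 hO01 pG pH hrow).sub c1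
  have hPB' : κ₁ / Cf * Pe F.p A ≤ Pe F.p B' := by
    rw [div_mul_eq_mul_div, div_le_iff₀ hCf0, mul_comm (Pe F.p B')]
    exact hcon.trans c2
  -- the two cases
  obtain ⟨Bf, hBf⟩ : ∃ Bf : F.Ω → Prop, Bf = fun ω => B' ω ∧
    |hs (Ht (co (O 1 - O 0) (slam F (O 1) ω))) (bt F ω) (bd F ω) (dl c (Sv (ptr F J ω)) 3 l₀)| ≤
      2 ^ (O 1 + g 1 l₀) / 2 ^ (g 1 3 + t) := ⟨_, rfl⟩
  obtain ⟨Bl, hBl⟩ : ∃ Bl : F.Ω → Prop, Bl = fun ω => B' ω ∧ ¬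
    |hs (Ht (co (O 1 - O 0) (slam F (O 1) ω))) (bt F ω) (bd F ω) (dl c (Sv (ptr F J ω)) 3 l₀)| ≤
      2 ^ (O 1 + g 1 l₀) / 2 ^ (g 1 3 + t) := ⟨_, rfl⟩
  have hf1 : Sub Bf B' := fun ω hω => by rw [hBf] at hω; exact hω.1
  have hl1 : Sub Bl B' := fun ω hω => by rw [hBl] at hω; exact hω.1
  have hsum : Pe F.p B' ≤ Pe F.p Bf + Pe F.p Bl := by
    refine Pe_or F.isLaw fun ω hω => ?_
    rw [hBf, hBl]
    by_cases h : |hs (Ht (co (O 1 - O 0) (slam F (O 1) ω))) (bt F ω) (bd F ω)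
        (dl c (Sv (ptr F J ω)) 3 l₀)| ≤ 2 ^ (O 1 + g 1 l₀) / 2 ^ (g 1 3 + t)
    · exact Or.inl ⟨hω, h⟩
    · exact Or.inr ⟨hω, h⟩
  have kf : Pe F.p Bf < κ₁ / (2 * Cf) * Pe F.p A := by
    refine hfl (16 * X + 30) Γ t l₀ L s (e₀ 1 + L) O g Bf Sv Gt
      (fun s => Ht (co (O 1 - O 0) s)) ψ ψH (hK.sub hf1) (fun s => hdeg _) (WFr.sub c3 hf1)
      (fun ω hω => hBA ω (c1 ω (hf1 ω hω))) (fun i hi hil => ?_) (by omega) (by omega)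
      (fun ω hω _ => by rw [hBf] at hω; exact hω.2) (hεk.trans (by
        have : k ≤ L := by
          rw [hL]
          have := Nat.le_mul_of_pos_left (k + s + 1) (show 0 < Cf by omega)
          omega
        exact_mod_cast this)) (hD3 1 (by norm_num)).aJ hOw (by omega) (by omega)
      (fun j hj => by have := hnJ j hj; omega) (fun l hl => by have := hng l hl; omega) hn3
    obtain ⟨k, hk, h⟩ := n2 i hi hil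
    exact ⟨k, hk, by omega⟩
  have kl : Pe F.p Bl < κ₁ / (2 * Cf) * Pe F.p A := by
    refine hlm z' κ' b' Bp gc' gT' g₀' G' H' T' TH' Gt' Ht' jq Wn' hBpA hjq hz (16 * X + 30) Γ t L
      (e₀ 1 + L) ρ O g Bl Sv Gt (fun s => Ht (co (O 1 - O 0) s)) ψ ψH (hK.sub hl1)
      (fun s => hdeg _) (WFr.sub c3 hl1) (fun ω hω => hBBp ω (c1 ω (hl1 ω hω)))
      (fun ω hω => by rw [hBl] at hω; exact (not_le.1 hω.2).le)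
      (fun ω hω => (hnc ω (c1 ω (hl1 ω hω))).mono (pow_le_pow_right₀ (by norm_num) (by omega)))
      (fun ω ν hω hν hpt => (hvel ω ν (c1 ω (hl1 ω hω)) (c1 ν (hl1 ν hν)) hpt).trans
        (div_le_div_of_nonneg_right (mul_le_mul_of_nonneg_right (pow_le_pow_right₀ (by norm_num)
          (by omega)) (by positivity)) (by positivity)))
      (fun i hi hil => ?_) (hεk.trans (by
        have : k ≤ L := by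
          rw [hL]
          have := Nat.le_mul_of_pos_left (k + s + 1) (show 0 < Cf by omega)
          omega
        exact_mod_cast this)) hOw hOW₁ hW₁J (by omega) (by omega)
      (fun j hj => by have := hgg j hj; omega) (by omega) (by omega) (by omega)
    obtain ⟨k, hk, h⟩ := n2 i hi hil
    exact ⟨k, hk, by omega⟩
  have e1 : κ₁ / (2 * Cf) * Pe F.p A = κ₁ / Cf * Pe F.p A / 2 := by
    field_simp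
  rw [e1] at kf kl
  linarith

end Pool.KPO
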