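import Pool.Agent.H31.D2.Kp6
import Pool.Agent.H23.D2.Num
import Pool.Agent.H23.D2.Bal
import Pool.Agent.H23.D2.Star

/-!
# The data of the end from the windows

`dpw_of`: a deep window from `Wins`. `hrow_of`: the row label at the rounded point. `vel_sv`: the
velocities against the covectors. `relvF_le`: no relation between fewer coordinates.

-/

set_option autoImplicit false

namespace Pool.KPO

open Finset Real MvPolynomial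
open Pool.Agent.H49.Ent Pool.Agent.H32.Dense Pool.STK Pool.KA Pool.KSAT Pool.K2S Pool.PB Pool.S6C
open Pool.GEN Pool.CHT Pool.CHX Pool.ISO Pool.D2F Pool.D2Z
open Pool.D2R (dd hs nrm nrm_nonneg co co_slam Wins ROut1 box_all bal_out nbx_up dd_sub)
open Pool.D2N (Dpw WFr)
open Pool.F5 (NatH)
open Pool.LBT (ThrOf)

variable {m J : ℕ}

/-- The sizes of two windows. -/
theorem en_units {c : ℕ → Fin m} {g g' : ℕ → ℕ} {a a' l X : ℕ} {χ : ℕ → Option (Fin m) → ℝ}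
    (ha : a ≤ a' + X) (h : ∀ j < l, g j ≤ g' j + X) (V : Option (Fin m) → ℝ) :
    en c g a χ l V ≤ 2 ^ X * en c g' a' χ l V := by
  rw [en_eq, en_eq, mul_add, Finset.mul_sum]
  refine add_le_add ?_ (Finset.sum_le_sum fun j hj => ?_)
  · rw [← mul_assoc, ← pow_add]
    exact mul_le_mul_of_nonneg_right (pow_le_pow_right₀ (by norm_num) (by omega)) (abs_nonneg _)
  · rw [← mul_assoc, ← pow_add]
    exact mul_le_mul_of_nonneg_right (pow_le_pow_right₀ (by norm_num) (by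
      have := h j (Finset.mem_range.1 hj)
      omega)) (abs_nonneg _)

section

variable {F : Fam m J} {c : ℕ → Fin m} {D Dr N M : ℕ}
    {C₀ a Eb ηm : ℝ} {o ε p' η σ : ℕ → ℝ} {lv be b : ℕ → ℕ → ℝ} {κ : ℝ} {z : ℕ → ℕ → ℕ}
    {B : F.Ω → Prop} {gc gT g₀ : ℕ → ℕ → ℕ}
    {G : ℕ → PtT F → ℕ → MvPolynomial (Option (Fin m)) ℝ}
    {H : ℕ → LnT F → ℕ → MvPolynomial (Option (Fin m)) ℝ}
    {T : ℕ → PtT F → ℕ → MvPolynomial (Option (Fin m)) ℝ}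
    {TH : ℕ → LnT F → ℕ → MvPolynomial (Option (Fin m)) ℝ}
    {Gt : ℕ → PtT F → MvPolynomial (Option (Fin m)) ℝ}
    {Ht : ℕ → LnT F → MvPolynomial (Option (Fin m)) ℝ} {X Y k : ℕ} {B' : F.Ω → Prop}
    {Sv : PtT F → ℕ → Option (Fin m) → ℝ}

/-- The factor of a window. -/
theorem wins_U (Wn : Wins F c 3 D Dr N M (fun _ => True) C₀ a Eb ηm o ε p' η σ lv be b κ z B gc gT
    g₀ G H T TH Gt Ht) (hk : k ≤ N) (hY : C₀ * (ηm * J) ≤ Y) : C₀ * (η k * J) ≤ Y ∧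
    ⌊C₀ * (η k * J)⌋₊ ≤ Y := by
  have hJ : (0 : ℝ) ≤ J := Nat.cast_nonneg J
  have hC0 : 0 ≤ C₀ := by linarith [Wn.C1]
  have h2 : C₀ * (η k * J) ≤ Y := le_trans (mul_le_mul_of_nonneg_left
    (mul_le_mul_of_nonneg_right (Wn.hη k hk).2 hJ) hC0) hY
  refine ⟨h2, ?_⟩
  have h3 : (⌊C₀ * (η k * J)⌋₊ : ℝ) ≤ Y :=
    (Nat.floor_le (mul_nonneg hC0 (mul_nonneg (Wn.hη k hk).1 hJ))).trans h2
  exact_mod_cast h3

/-- **A deep window** from `Wins`. -/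
theorem dpw_of (Wn : Wins F c 3 D Dr N M (fun _ => True) C₀ a Eb ηm o ε p' η σ lv be b κ z B gc gT
    g₀ G H T TH Gt Ht) (hk : k ≤ N) (h0k : o 0 ≤ o k) (hB : Sub B' B) (haJ : a ≤ 1)
    (hY : C₀ * (ηm * J) ≤ Y) (hXY : 4 * Y ≤ X) (hY1 : 3 ≤ Y) (hg : 3 * Y ≤ g₀ k 3)
    (hp : (lv k 3 + (a - o k)) * J + Y ≤ p' 0 * J) (dep : ∀ y l, CvC c l (Sv y l))
    (nr : ∀ ω, B' ω → Nc c (g₀ k) ⌊o k * J⌋₊ 4 (2 ^ X) (Sv (ptr F J ω))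
      (fun l => grd (G k (ptr F J ω) l) (bt F ω)))
    (nat : ∀ l ≤ 3, NatH F c ⌊o k * J⌋₊ (g₀ k) B' (G k) X l) :
    Dpw F c D ⌊o 0 * J⌋₊ ⌊o k * J⌋₊ (⌊a * J⌋₊ - ⌊o k * J⌋₊) (⌊a * J⌋₊ - ⌊o k * J⌋₊ + Y)
      ⌊(Eb + σ k + η k) * J⌋₊ X (g₀ k 3 + (⌊a * J⌋₊ - ⌊o k * J⌋₊) - 3 * Y) (g₀ k) (gT k)
      (2 ^ ⌊C₀ * (η k * J)⌋₊) B' (G k) (H k) (T k) (TH k) (Ht 0) Sv := by
  have hJ : (0 : ℝ) ≤ J := Nat.cast_nonneg J
  have hC1 := Wn.C1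
  have ha0 : 0 ≤ a := (Wn.ho k hk).1.trans (Wn.ho k hk).2
  have hηm0 : 0 ≤ ηm := (Wn.hη k hk).1.trans (Wn.hη k hk).2
  have haJ' : ⌊a * J⌋₊ ≤ J := by
    have h1 : a * J ≤ 1 * J := mul_le_mul_of_nonneg_right haJ hJ
    have : (⌊a * J⌋₊ : ℝ) ≤ (J : ℕ) := (Nat.floor_le (mul_nonneg ha0 hJ)).trans (by linarith)
    exact_mod_cast this
  have hfl : ⌊o k * J⌋₊ ≤ ⌊a * J⌋₊ :=
    Nat.floor_le_floor (mul_le_mul_of_nonneg_right (Wn.ho k hk).2 hJ)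
  obtain ⟨hU1, hU2⟩ := wins_U Wn hk hY
  have hηY : ηm * J ≤ Y := (le_mul_of_one_le_left (mul_nonneg hηm0 hJ) hC1).trans hY
  obtain ⟨v, hv⟩ : ∃ v, v = ⌊a * J⌋₊ - ⌊o k * J⌋₊ := ⟨_, rfl⟩
  have hvR : (v : ℝ) = ⌊a * J⌋₊ - ⌊o k * J⌋₊ := by rw [hv, Nat.cast_sub hfl]
  have hY3 : (3 : ℝ) ≤ Y := by exact_mod_cast hY1
  obtain ⟨-, -, g1, g2, g3, g4⟩ := Wn.g_num hk (show 3 ≤ 3 by norm_num)
  have fa := Nat.floor_le (mul_nonneg ha0 hJ)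
  have fo := Nat.lt_floor_add_one (o k * (J : ℝ))
  rw [← hv]
  obtain ⟨q, hq⟩ : ∃ q, q = g₀ k 3 + v - 3 * Y := ⟨_, rfl⟩
  have hq' : q + 3 * Y = g₀ k 3 + v := by omega
  have hqR : (q : ℝ) = g₀ k 3 + v - 3 * Y := by
    have : ((q + 3 * Y : ℕ) : ℝ) = ((g₀ k 3 + v : ℕ) : ℝ) := by rw [hq']
    push_cast at this
    linarith
  have e1 : (lv k 3 + (a - o k)) * J = lv k 3 * J + (a * J - o k * J) := by ring
  have hrow := Wn.row 0 (Nat.zero_le _) k hk h0k q (by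
    rw [hqR, hvR]
    linarith) (by
    rw [hqR, hvR]
    linarith)
  have hE := Wn.evs k hk
  rw [← hv] at hrow hE
  rw [← hq]
  refine ⟨hfl.trans haJ', hE.ball.sub hB, hrow.sub hB, by positivity,
    pow_le_pow_right₀ (by norm_num) (by omega), by omega, fun l hl => ?_,
    fun s l hl => (hE.rgh l hl trivial).2.2 s, by omega, dep, nr, nat⟩
  rw [(hE.rgh l hl trivial).1]
  obtain ⟨-, -, k1, k2, k3, k4⟩ := Wn.g_num hk (show l ≤ 3 by omega)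
  have h1 : ((gc k l : ℕ) : ℝ) ≤ ((g₀ k l + (v + Y) : ℕ) : ℝ) := by
    push_cast
    rw [hvR]
    linarith
  exact_mod_cast h1

end

/-- Powers of two. -/
theorem two_le2 {a b c : ℕ} (h : b ≤ a + c) : (1 : ℝ) / 2 ^ a ≤ 2 ^ c / 2 ^ b := by
  rw [div_le_div_iff₀ (by positivity) (by positivity), one_mul, ← pow_add]
  exact pow_le_pow_right₀ (by norm_num) (by omega)

/-- **The row label at the rounded point.** -/
theorem hrow_of (m D : ℕ) : ∃ C : ℕ, 1 ≤ C ∧ ∀ {J : ℕ} {F : Fam m J} {c : ℕ → Fin m}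
    {Dr N M : ℕ} {C₀ a Eb ηm : ℝ} {o ε p' η σ : ℕ → ℝ} {lv be b : ℕ → ℕ → ℝ} {κ : ℝ}
    {z : ℕ → ℕ → ℕ} {B : F.Ω → Prop} {gc gT g₀ : ℕ → ℕ → ℕ}
    {G : ℕ → PtT F → ℕ → MvPolynomial (Option (Fin m)) ℝ}
    {H : ℕ → LnT F → ℕ → MvPolynomial (Option (Fin m)) ℝ}
    {T : ℕ → PtT F → ℕ → MvPolynomial (Option (Fin m)) ℝ}
    {TH : ℕ → LnT F → ℕ → MvPolynomial (Option (Fin m)) ℝ}
    {Gt : ℕ → PtT F → MvPolynomial (Option (Fin m)) ℝ}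
    {Ht : ℕ → LnT F → MvPolynomial (Option (Fin m)) ℝ} {X Y Γ : ℕ} {B' : F.Ω → Prop}
    {Sv : PtT F → ℕ → Option (Fin m) → ℝ} {d v' e X' p U},
    Wins F c 3 D Dr N M (fun _ => True) C₀ a Eb ηm o ε p' η σ lv be b κ z B gc gT
      g₀ G H T TH Gt Ht → Set.InjOn c (Set.Iio 4) → 1 ≤ N → Sub B' B → o 0 ≤ o 1 →
    C₀ * (ηm * J) ≤ Y → C ≤ Y → 3 ≤ Y → 4 * Y ≤ g₀ 0 3 → (∀ l ≤ 3, (lv 0 l - lv 1 l) * J ≤ Y) →
    (lv 1 3 + (a - o 0)) * J + Γ ≤ p' 0 * J + Y →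
    (∀ l ≤ 3, (Eb + lv 0 l + (a - o 0)) * J + (lv 1 3 - lv 0 3) * J + Γ + 9 * Y ≤ J) →
    Dpw F c D ⌊o 0 * J⌋₊ ⌊o 0 * J⌋₊ d v' e X p (g₀ 0) (gT 0) U B' (G 0) (H 0) (T 0) (TH 0)
      X' Sv → ∀ ω, B' ω → ∀ V : Option (Fin m) → ℝ,
        |dd (Gt 0 (ptr F J ω)) (hx F ω) V - dd (Ht 0 (slam F ⌊o 0 * J⌋₊ ω)) (bt F ω) V| ≤
          2 ^ (4 * X + 11 * Y) / 2 ^ (g₀ 1 3 + Γ) *
            en c (g₀ 1) ⌊o 1 * J⌋₊ (Sv (ptr F J ω)) 3 V := by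
  obtain ⟨C, hC, hgt⟩ := gt_rowr m D 3
  refine ⟨C, hC, ?_⟩
  intro J F c Dr N M C₀ a Eb ηm o ε p' η σ lv be b κ z B gc gT g₀ G H T TH Gt Ht X Y Γ B' Sv d v'
    e X' p U Wn hc hN hB ho hY hCY hY3 hg hlv n1 n2 hDp ω hω V
  have hJ : (0 : ℝ) ≤ J := Nat.cast_nonneg J
  have hC1 := Wn.C1
  have hp0 := Wn.hp' 0 (Nat.zero_le _)
  have ha0 : 0 ≤ a := (Wn.ho 0 (Nat.zero_le _)).1.trans (Wn.ho 0 (Nat.zero_le _)).2
  obtain ⟨hη0, hη1⟩ := Wn.hη 0 (Nat.zero_le _)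
  obtain ⟨hσ0, hσ1⟩ := Wn.hσ 0 (Nat.zero_le _)
  have hηm0 : 0 ≤ ηm := hη0.trans hη1
  have hfl : ⌊o 0 * J⌋₊ ≤ ⌊a * J⌋₊ :=
    Nat.floor_le_floor (mul_le_mul_of_nonneg_right (Wn.ho 0 (Nat.zero_le _)).2 hJ)
  obtain ⟨hU1, hU2⟩ := wins_U Wn (Nat.zero_le N) hY
  have hηY : ηm * J ≤ Y := (le_mul_of_one_le_left (mul_nonneg hηm0 hJ) hC1).trans hY
  obtain ⟨W, hW⟩ : ∃ W, W = ⌊o 0 * J⌋₊ := ⟨_, rfl⟩
  obtain ⟨v, hv⟩ : ∃ v, v = ⌊a * J⌋₊ - W := ⟨_, rfl⟩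
  have hvR : (v : ℝ) = ⌊a * J⌋₊ - W := by rw [hv, Nat.cast_sub (by rw [hW]; exact hfl)]
  have hY3R : (3 : ℝ) ≤ Y := by exact_mod_cast hY3
  obtain ⟨-, -, a1, a2, a3, a4⟩ := Wn.g_num (Nat.zero_le N) (show 3 ≤ 3 by norm_num)
  obtain ⟨-, -, b1, b2, -, -⟩ := Wn.g_num hN (show 3 ≤ 3 by norm_num)
  have fa := Nat.floor_le (mul_nonneg ha0 hJ)
  have fa' := Nat.lt_floor_add_one (a * (J : ℝ))
  have fo := Nat.lt_floor_add_one (o 0 * (J : ℝ))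
  have fo' := Nat.floor_le (mul_nonneg (Wn.ho 0 (Nat.zero_le _)).1 hJ)
  rw [← hW] at a3 a4 fo fo' hDp
  obtain ⟨q, hq⟩ : ∃ q, q = g₀ 0 3 + v - 4 * Y := ⟨_, rfl⟩
  have hq' : q + 4 * Y = g₀ 0 3 + v := by omega
  have hqR : (q : ℝ) = g₀ 0 3 + v - 4 * Y := by
    have : ((q + 4 * Y : ℕ) : ℝ) = ((g₀ 0 3 + v : ℕ) : ℝ) := by rw [hq']
    push_cast at this
    linarith
  have hl3 := hlv 3 le_rfl
  have hΓ0 : (0 : ℝ) ≤ Γ := Nat.cast_nonneg _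
  have hrow := Wn.row 0 (Nat.zero_le _) 0 (Nat.zero_le _) le_rfl q (by
    rw [hqR, hvR]
    linarith) (by
    rw [hqR, hvR]
    linarith)
  have hE := Wn.evs 0 (Nat.zero_le _)
  rw [← hW, ← hv] at hrow hE
  obtain ⟨U₀, hU₀⟩ : ∃ U₀ : ℝ, U₀ = 2 ^ ⌊C₀ * (η 0 * J)⌋₊ := ⟨_, rfl⟩
  rw [← hU₀] at hrow
  have hU0 : 0 ≤ U₀ := by rw [hU₀]; positivity
  have hUY : U₀ ≤ 2 ^ Y := by
    rw [hU₀]
    exact pow_le_pow_right₀ (by norm_num) hU2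
  obtain ⟨P', hP'⟩ : ∃ P', P' = ⌊p' 0 * J⌋₊ := ⟨_, rfl⟩
  rw [← hP'] at hE
  -- the boxes of the thin chain
  have hbx : ∀ ω b, NBx c (fun l => Gno (c l) J J (fun y => G 0 y l) (ptr F J ω)) (gc 0) (W + v)
      (F.t ω) 3 b → NBx c (T 0 (ptr F J ω)) (gT 0) (W + v) (F.t ω) 3 b := by
    intro ω b hb
    refine ⟨hb.1, fun j hj => ?_⟩
    obtain ⟨r1, r2, -⟩ := hE.rgh j hj trivial
    rw [r1, r2]
    exact hb.2 j hj
  obtain ⟨s, hs⟩ : ∃ s, s = g₀ 1 3 + Γ - g₀ 0 3 := ⟨_, rfl⟩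
  have hs1 : g₀ 1 3 + Γ ≤ s + g₀ 0 3 := by omega
  have hs2 : (s : ℝ) ≤ (lv 1 3 - lv 0 3) * J + Γ + 2 * Y := by
    rcases Nat.le_total (g₀ 0 3) (g₀ 1 3 + Γ) with h | h
    · have e1 : (s : ℝ) = g₀ 1 3 + Γ - g₀ 0 3 := by
        rw [hs, Nat.cast_sub h]
        push_cast
        ring
      rw [e1]
      linarith
    · have e1 : s = 0 := by omega
      rw [e1, Nat.cast_zero]
      linarith
  have hgcl : ∀ l < 3, gc 0 l ≤ g₀ 0 l + v + Y := by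
    intro l hl
    obtain ⟨-, -, k1, k2, k3, k4⟩ := Wn.g_num (Nat.zero_le N) (show l ≤ 3 by omega)
    rw [← hW] at k3 k4
    have h1 : ((gc 0 l : ℕ) : ℝ) ≤ ((g₀ 0 l + v + Y : ℕ) : ℝ) := by
      push_cast
      rw [hvR]
      linarith
    exact_mod_cast h1
  have hek : (⌊(Eb + σ 0 + η 0) * J⌋₊ : ℝ) ≤ Eb * J + 2 * Y := by
    have h1 : 0 ≤ (Eb + σ 0 + η 0) * (J : ℝ) := mul_nonneg (by linarith [Wn.Eb0]) hJ
    refine (Nat.floor_le h1).trans ?_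
    have h2 := mul_le_mul_of_nonneg_right hη1 hJ
    have h3 := mul_le_mul_of_nonneg_right hσ1 hJ
    have e1 : (Eb + σ 0 + η 0) * (J : ℝ) = Eb * J + σ 0 * J + η 0 * J := by ring
    rw [e1]
    linarith
  have key := hgt (F := F) (c := c) (W := W) (v := v) (e := ⌊(Eb + σ 0 + η 0) * J⌋₊) (s := s)
    (X := Y) (p := q) (p' := P') (g₀ := g₀ 0) (gc := gc 0) (U := U₀) (B := B') (G := G 0)
    (Gt := Gt 0) (Ht := Ht 0) hc (hE.top.sub hB) hE.dG hE.dH hE.pG hE.pH hU0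
    (fun ω hω b hb => hE.agr ω (hB ω hω) b (hbx ω b hb))
    (fun ω hω b hb => hrow.box ω (hB ω hω) b (hbx ω b hb)) hgcl (fun l hl => by
      obtain ⟨-, -, k1, k2, k3, k4⟩ := Wn.g_num (Nat.zero_le N) (show l ≤ 3 by omega)
      rw [← hW] at k3 k4
      have h5 := n2 l (by omega)
      have hCR : (C : ℝ) ≤ Y := by exact_mod_cast hCY
      have e1 : (Eb + lv 0 l + (a - o 0)) * (J : ℝ) = Eb * J + lv 0 l * J + (a * J - o 0 * J) := by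
        ring
      rw [e1] at h5
      have h1 : ((⌊(Eb + σ 0 + η 0) * J⌋₊ + gc 0 l + s + C : ℕ) : ℝ) ≤ ((J : ℕ) : ℝ) := by
        push_cast
        linarith
      exact_mod_cast h1) ω hω V
  rw [← hW]
  refine key.trans ?_
  -- the numbers
  have z1 : (1 : ℝ) / 2 ^ P' ≤ 2 ^ (2 * Y) / 2 ^ (g₀ 1 3 + Γ + v) := by
    refine two_le2 ?_
    have h1 := Nat.lt_floor_add_one (p' 0 * (J : ℝ))
    rw [← hP'] at h1
    have e1 : (lv 1 3 + (a - o 0)) * (J : ℝ) = lv 1 3 * J + (a * J - o 0 * J) := by ring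
    rw [e1] at n1
    have h2 : ((g₀ 1 3 + Γ + v : ℕ) : ℝ) ≤ ((P' + 2 * Y : ℕ) : ℝ) := by
      push_cast
      rw [hvR]
      linarith
    exact_mod_cast h2
  have z2 : U₀ / 2 ^ q / 2 ^ s ≤ 2 ^ (5 * Y) / 2 ^ (g₀ 1 3 + Γ + v) := by
    rw [div_div, ← pow_add, div_le_div_iff₀ (by positivity) (by positivity)]
    calc U₀ * 2 ^ (g₀ 1 3 + Γ + v) ≤ 2 ^ Y * 2 ^ (g₀ 1 3 + Γ + v) := by gcongr
      _ ≤ _ := by
        rw [← pow_add, ← pow_add]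
        exact pow_le_pow_right₀ (by norm_num) (by omega)
  have z3 : (1 : ℝ) / 2 ^ gc 0 3 / 2 ^ s ≤ 2 ^ Y / 2 ^ (g₀ 1 3 + Γ + v) := by
    rw [div_div, ← pow_add]
    refine two_le2 ?_
    have h1 : g₀ 0 3 + v ≤ gc 0 3 + Y := by
      have h2 : ((g₀ 0 3 + v : ℕ) : ℝ) ≤ ((gc 0 3 + Y : ℕ) : ℝ) := by
        push_cast
        rw [hvR]
        linarith
      exact_mod_cast h2
    omega
  have z4 : (1 : ℝ) / 2 ^ P' / 2 ^ s ≤ 1 / 2 ^ P' :=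
    div_le_self (by positivity) (one_le_pow₀ (by norm_num))
  obtain ⟨R, hR⟩ : ∃ R : ℝ, R = 1 / 2 ^ (g₀ 1 3 + Γ + v) := ⟨_, rfl⟩
  have hR0 : 0 ≤ R := by rw [hR]; positivity
  have zR : ∀ n : ℕ, (2 : ℝ) ^ n / 2 ^ (g₀ 1 3 + Γ + v) = 2 ^ n * R := fun n => by
    rw [hR]
    ring
  rw [zR] at z1 z2 z3
  have hpw : ∀ {a b : ℕ}, a ≤ b → (2 : ℝ) ^ a * R ≤ 2 ^ b * R := fun h =>
    mul_le_mul_of_nonneg_right (pow_le_pow_right₀ (by norm_num) h) hR0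
  have z5 : (1 / 2 ^ P' + U₀ / 2 ^ q + 1 / 2 ^ gc 0 3) / 2 ^ s + 1 / 2 ^ P' ≤
      2 ^ (5 * Y + 2) * R := by
    have e1 : (2 : ℝ) ^ (5 * Y + 2) * R = 4 * (2 ^ (5 * Y) * R) := by rw [pow_add]; ring
    rw [add_div, add_div, e1]
    have h1 := hpw (show 2 * Y ≤ 5 * Y by omega)
    have h2 := hpw (show Y ≤ 5 * Y by omega)
    linarith
  obtain ⟨E, hE'⟩ : ∃ E, E = en c (g₀ 1) ⌊o 1 * J⌋₊ (Sv (ptr F J ω)) 3 V := ⟨_, rfl⟩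
  have hE0 : 0 ≤ E := by rw [hE']; exact en_nonneg _ _ _ _ _ _
  have z6 : nrm c (G 0 (ptr F J ω)) (g₀ 0) W 3 (bt F ω) V ≤ 2 ^ (4 * X + 4) * (2 ^ (2 * Y) * E) := by
    refine (hDp.nrm_sv hω le_rfl V).trans (mul_le_mul_of_nonneg_left ?_ (by positivity))
    rw [hE']
    refine en_units ?_ (fun j hj => ?_) V
    · rw [hW]
      exact (Nat.floor_le_floor (mul_le_mul_of_nonneg_right ho hJ)).trans (Nat.le_add_right _ _)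
    · obtain ⟨-, -, k1, k2, -⟩ := Wn.g_num (Nat.zero_le N) (show j ≤ 3 by omega)
      obtain ⟨-, -, k3, k4, -⟩ := Wn.g_num hN (show j ≤ 3 by omega)
      have h1 := hlv j (by omega)
      have h2 : ((g₀ 0 j : ℕ) : ℝ) ≤ ((g₀ 1 j + 2 * Y : ℕ) : ℝ) := by
        push_cast
        linarith
      exact_mod_cast h2
  rw [← hE']
  have e1 : (2 : ℝ) ^ (4 * X + 11 * Y) / 2 ^ (g₀ 1 3 + Γ) * E =
      2 ^ (4 * X + 11 * Y) * (2 ^ v * R) * E := by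
    rw [hR, pow_add 2 (g₀ 1 3 + Γ) v]
    field_simp
  rw [e1]
  calc 2 ^ C * ((1 / 2 ^ P' + U₀ / 2 ^ q + 1 / 2 ^ gc 0 3) / 2 ^ s + 1 / 2 ^ P') * 2 ^ (v + Y) *
        nrm c (G 0 (ptr F J ω)) (g₀ 0) W 3 (bt F ω) V ≤
        2 ^ C * (2 ^ (5 * Y + 2) * R) * 2 ^ (v + Y) * (2 ^ (4 * X + 4) * (2 ^ (2 * Y) * E)) := by
        refine mul_le_mul ?_ z6 (nrm_nonneg _ _ _ _ _ _ _) (by positivity)
        exact mul_le_mul_of_nonneg_right (mul_le_mul_of_nonneg_left z5 (by positivity))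
          (by positivity)
    _ = 2 ^ (C + (5 * Y + 2) + Y + (4 * X + 4) + 2 * Y) * (2 ^ v * R) * E := by
        rw [pow_add 2 (C + (5 * Y + 2) + Y + (4 * X + 4)), pow_add 2 (C + (5 * Y + 2) + Y),
          pow_add 2 (C + (5 * Y + 2)), pow_add 2 C, pow_add 2 v]
        ring
    _ ≤ _ := by
        refine mul_le_mul_of_nonneg_right (mul_le_mul_of_nonneg_right
          (pow_le_pow_right₀ (by norm_num) (by omega)) (by positivity)) hE0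

/-- **The velocities against the covectors.** -/
theorem vel_sv {F : Fam m J} {c : ℕ → Fin m} {a X Y : ℕ} {g : ℕ → ℕ} {B : F.Ω → Prop}
    {G : PtT F → ℕ → MvPolynomial (Option (Fin m)) ℝ} {Sv : PtT F → ℕ → Option (Fin m) → ℝ}
    (hv : ∀ ω ν, B ω → B ν → ptr F J ω = ptr F J ν → ∀ l ≤ 3,
      |bd F ν (some (c l)) - dd (G (ptr F J ω) l) (bt F ω) (bd F ν)| ≤ 2 ^ Y * 2 ^ a / 2 ^ g l)
    (hS : ∀ ω, B ω → Nc c g a 4 (2 ^ X) (Sv (ptr F J ω))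
      (fun l => grd (G (ptr F J ω) l) (bt F ω))) : ∀ ω ν, B ω → B ν → ptr F J ω = ptr F J ν →
      ∀ l ≤ 3, |bd F ν (some (c l)) - cv (Sv (ptr F J ω) l) (bd F ν)| ≤
        2 ^ (5 * X + Y + 7) * 2 ^ a / 2 ^ g l := by
  intro ω ν hω hν hpt l hl
  have e0 : bd F ν none = 1 := rfl
  have hk : (1 : ℝ) ≤ 2 ^ Y := one_le_pow₀ (by norm_num)
  have hn : nrm c (G (ptr F J ω)) g a l (bt F ω) (bd F ν) ≤ 2 ^ (Y + 2) * 2 ^ a := by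
    unfold nrm
    have e1 : ∀ j ∈ range l, (2 : ℝ) ^ g j * |bd F ν (some (c j)) -
        dd (G (ptr F J ω) j) (bt F ω) (bd F ν)| ≤ 2 ^ Y * 2 ^ a := by
      intro j hj
      have hj' := Finset.mem_range.1 hj
      have h4 := hv ω ν hω hν hpt j (by omega)
      rw [le_div_iff₀ (by positivity)] at h4
      linarith
    have e2 : (l : ℝ) ≤ 3 := by exact_mod_cast hl
    rw [e0, abs_one, mul_one]
    have e4 := Finset.sum_le_sum e1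
    rw [Finset.sum_const, Finset.card_range, nsmul_eq_mul] at e4
    have e5 : (0 : ℝ) < 2 ^ a := by positivity
    have e6 : (2 : ℝ) ^ a ≤ 2 ^ Y * 2 ^ a := le_mul_of_one_le_left e5.le hk
    have e7 : (l : ℝ) * (2 ^ Y * 2 ^ a) ≤ 3 * (2 ^ Y * 2 ^ a) :=
      mul_le_mul_of_nonneg_right e2 (by positivity)
    have e8 : (2 : ℝ) ^ (Y + 2) * 2 ^ a = 4 * (2 ^ Y * 2 ^ a) := by
      rw [pow_add]
      ring
    rw [e8]
    linarith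
  have hS' := hS ω hω
  have h1 := hv ω ν hω hν hpt l hl
  have h2 := hS' l (by omega) (bd F ν)
  rw [cv_subl, cv_grd] at h2
  have h3 : en c g a (Sv (ptr F J ω)) l (bd F ν) ≤ 2 ^ (4 * X + 4) * (2 ^ (Y + 2) * 2 ^ a) := by
    refine (hS'.en_ge (by positivity) (show l ≤ 4 by omega) (bd F ν)).trans ?_
    rw [← nrm_en]
    refine mul_le_mul ((pow1 X 4).trans (pow_le_pow_right₀ (by norm_num) (by omega))) hn
      (nrm_nonneg _ _ _ _ _ _ _) (by positivity)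
  obtain ⟨R, hR⟩ : ∃ R : ℝ, R = 2 ^ a / 2 ^ g l := ⟨_, rfl⟩
  have hR0 : 0 ≤ R := by rw [hR]; positivity
  have e1 : bd F ν (some (c l)) - cv (Sv (ptr F J ω) l) (bd F ν) =
      (bd F ν (some (c l)) - dd (G (ptr F J ω) l) (bt F ω) (bd F ν)) +
      (dd (G (ptr F J ω) l) (bt F ω) (bd F ν) - cv (Sv (ptr F J ω) l) (bd F ν)) := by ring
  rw [e1]
  refine (abs_add_le _ _).trans ((add_le_add h1 (h2.trans (mul_le_mul_of_nonneg_left h3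
    (by positivity)))).trans ?_)
  have e2 : (2 : ℝ) ^ Y * 2 ^ a / 2 ^ g l = 2 ^ Y * R := by rw [hR]; ring
  have e3 : (2 : ℝ) ^ X / 2 ^ g l * (2 ^ (4 * X + 4) * (2 ^ (Y + 2) * 2 ^ a)) =
      2 ^ (5 * X + Y + 6) * R := by
    rw [hR, show 5 * X + Y + 6 = X + (4 * X + 4) + (Y + 2) by ring, pow_add 2 (X + (4 * X + 4)),
      pow_add 2 X]
    ring
  have e4 : (2 : ℝ) ^ (5 * X + Y + 7) * 2 ^ a / 2 ^ g l = 2 * (2 ^ (5 * X + Y + 6) * R) := by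
    rw [hR, pow_succ 2 (5 * X + Y + 6)]
    ring
  rw [e2, e3, e4]
  have h4 : (2 : ℝ) ^ Y * R ≤ 2 ^ (5 * X + Y + 6) * R :=
    mul_le_mul_of_nonneg_right (pow_le_pow_right₀ (by norm_num) (by omega)) hR0
  linarith

/-- No relation between fewer coordinates. -/
theorem relvF_le {F : Fam m J} {c : ℕ → Fin m} {i r a w : ℕ} {g : ℕ → ℕ} {D h : ℕ} {κ : ℝ}
    {B₀ : F.Ω → Prop} {G : PtT F → ℕ → MvPolynomial (Option (Fin m)) ℝ}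
    (hR : RelvF F c r a w g D h κ B₀ G) (hc : Set.InjOn c (Set.Iio r))
    (hG : ∀ y l, DepC c l (G y l)) (hi : i ≤ r) : RelvF F c i a w g D h κ B₀ G := by
  intro B' hB hP Dx Dl M h1 h2 h3 h4 hM h5 h6
  obtain ⟨B'', k1, k2, k3⟩ := hR B' hB hP Dx Dl M h1 h2
    (fun y b b' e1 e2 => h3 y b b' e1 fun l hl => e2 l (by omega))
    (fun s b b' e1 e2 => h4 s b b' e1 fun l hl => e2 l (by omega)) hM h5
    (fun ω hω b hb => h6 ω hω b (hb.mono le_rfl hi))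
  refine ⟨B'', k1, k2, fun ω hω b hb => ?_⟩
  obtain ⟨b', m1, m2, m3⟩ := nbx_up hc (hG (ptr F J ω)) hi hb
  have h7 := k3 ω hω b' m1
  rwa [h3 (ptr F J ω) b' b m2 m3] at h7

end Pool.KPO
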