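import Pool.Agent.H31.D2.Kp7

/-!
# The ball of a coordinate as a target against the covectors

`ncl_of`: two balls of one window, the second one without relations: a list which is near the
second one is near the first one.
-/

set_option autoImplicit false

namespace Pool.KPO

open Finset Real MvPolynomial
open Pool.Agent.H49.Ent Pool.Agent.H32.Dense Pool.STK Pool.KA Pool.KSAT Pool.K2S Pool.PB Pool.S6C
open Pool.GEN Pool.CHT Pool.CHX Pool.ISO Pool.D2F Pool.D2Z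
open Pool.D2R (dd hs nrm nrm_nonneg co co_slam Wins ROut1 box_all bal_out nbx_up dd_sub nc_unit wt)
open Pool.D2N (Dpw WFr)
open Pool.F5 (NatH)
open Pool.LBT (ThrOf)

variable {m J : ℕ}

/-- **Two balls of one window.** -/
theorem ncl_of (m K l₀ : ℕ) (hK : 1 ≤ K) (hl₀ : l₀ < 3) : ∃ C : ℕ, 1 ≤ C ∧ ∀ {J : ℕ}
    {F : Fam m J} {c : ℕ → Fin m} {w e₁ e₂ h X Y : ℕ} {g g' : ℕ → ℕ} {κ κ' : ℝ}
    {B₀ B : F.Ω → Prop} {G₁ G₂ : PtT F → ℕ → MvPolynomial (Option (Fin m)) ℝ}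
    {H₁ H₂ : LnT F → ℕ → MvPolynomial (Option (Fin m)) ℝ}
    {Sv : PtT F → ℕ → Option (Fin m) → ℝ}, Set.InjOn c (Set.Iio l₀) → w ≤ J →
    RelvF F c l₀ w w g K h κ B₀ G₂ → Sub B B₀ → κ' * Pe F.p B₀ ≤ Pe F.p B → 0 ≤ κ →
    κ * (4 * 4 ^ l₀) ≤ κ' → ChOK F c (l₀ + 1) (fun _ => K) w w e₁ g' B G₁ H₁ →
    ChOK F c (l₀ + 1) (fun _ => K) w w e₂ g B G₂ H₂ → h ≤ Y →
    (∀ l ≤ l₀, g' l ≤ g l + Y ∧ g l ≤ g' l + Y) →
    (∀ ω, B ω → Nc c g w 4 (2 ^ X) (Sv (ptr F J ω))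
      (fun l => grd (G₂ (ptr F J ω) l) (bt F ω))) →
    ∃ B' : F.Ω → Prop, Sub B' B ∧ Pe F.p B ≤ 2 * 4 ^ l₀ * Pe F.p B' ∧ ∀ ω, B' ω →
      Nc c g' w (l₀ + 1) (2 ^ (C * (X + Y + 1)))
        (fun l => grd (G₁ (ptr F J ω) l) (bt F ω)) (Sv (ptr F J ω)) := by
  obtain ⟨C₁, hbo⟩ := bal_out K l₀ hK
  have hbx := fun l : ℕ => box_all l K K
  choose Cb hCb hbx using hbx
  obtain ⟨n, hn⟩ : ∃ n : ℕ, ∀ l ≤ l₀, Cb l ≤ 2 ^ n := by
    have h1 : ∀ l, ∃ n : ℕ, Cb l ≤ 2 ^ n := fun l => by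
      obtain ⟨n, hn⟩ := pow_unbounded_of_one_lt (Cb l) (by norm_num : (1 : ℝ) < 2)
      exact ⟨n, hn.le⟩
    choose f hf using h1
    refine ⟨∑ l ∈ range (l₀ + 1), f l, fun l hl => (hf l).trans
      (pow_le_pow_right₀ (by norm_num) ?_)⟩
    exact Finset.single_le_sum (f := f) (fun _ _ => Nat.zero_le _)
      (Finset.mem_range.2 (by omega))
  refine ⟨20 * C₁ + 20 * n + 100, by omega, ?_⟩
  intro J F c w e₁ e₂ h X Y g g' κ κ' B₀ B G₁ G₂ H₁ H₂ Sv hc hwJ hR hB hP hκ0 hκ h₁ h₂ hhY hgg hS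
  obtain ⟨B', b1, b2, b3⟩ := hbo hc le_rfl hwJ hR hB hP hκ0 hκ h₁ h₂
  refine ⟨B', b1, b2, fun ω hω => ?_⟩
  have hω' : B ω := b1 ω hω
  -- the two balls
  have k1 : Nc c g w (l₀ + 1) (2 ^ (n + C₁ * (h + 1) + Y))
      (fun l => grd (G₂ (ptr F J ω) l) (bt F ω)) (fun l => grd (G₁ (ptr F J ω) l) (bt F ω)) := by
    intro l hl V
    have hl' : l ≤ l₀ := by omega
    have h3 := (hbx l (Q := G₁ (ptr F J ω) l - G₂ (ptr F J ω) l) (ψ := G₂ (ptr F J ω)) (g := g)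
      (a := w) (M := 2 ^ (C₁ * (h + 1)) / 2 ^ min (g' l) (g l)) (x := bt F ω)
      (hc.mono (Set.Iio_subset_Iio hl')) (h₂.degG _) (h₂.depG _)
      (fun y y' e1 e2 => by
        rw [map_sub, map_sub, h₁.depG _ l y y' e1 e2, h₂.depG _ l y y' e1 e2])
      ((totalDegree_sub _ _).trans (max_le (h₁.degG _ l) (h₂.degG _ l))) (by positivity)
      (fun b hb => by
        rw [map_sub]
        exact b3 ω hω l hl' b hb) (fun j hj => h₂.pos ω hω' j (by omega))).1 V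
    rw [nrm_en, dd_sub] at h3
    rw [cv_subl, cv_grd, cv_grd]
    refine h3.trans (mul_le_mul_of_nonneg_right ?_ (en_nonneg _ _ _ _ _ _))
    have h4 : (1 : ℝ) / 2 ^ min (g' l) (g l) ≤ 2 ^ Y / 2 ^ g l := two_le2 (by
      have := (hgg l hl').2
      rcases Nat.le_total (g' l) (g l) with h | h
      · rw [min_eq_left h]
        omega
      · rw [min_eq_right h]
        omega)
    have h5 := hn l hl'
    have h6 : (0 : ℝ) ≤ 1 / 2 ^ min (g' l) (g l) := by positivity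
    have h7 : (0 : ℝ) ≤ 2 ^ (C₁ * (h + 1)) := by positivity
    calc Cb l * (2 ^ (C₁ * (h + 1)) / 2 ^ min (g' l) (g l)) =
          Cb l * 2 ^ (C₁ * (h + 1)) * (1 / 2 ^ min (g' l) (g l)) := by ring
      _ ≤ 2 ^ n * 2 ^ (C₁ * (h + 1)) * (2 ^ Y / 2 ^ g l) :=
          mul_le_mul (mul_le_mul_of_nonneg_right h5 h7) h4 h6 (by positivity)
      _ = _ := by
        rw [pow_add, pow_add]
        ring
  have k2 : Nc c g w (l₀ + 1) (2 ^ X) (Sv (ptr F J ω))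
      (fun l => grd (G₂ (ptr F J ω) l) (bt F ω)) := (hS ω hω').le (by omega)
  have k3 := (k2.trans2 k1).symm2
  obtain ⟨Z, hZ⟩ : ∃ Z, Z = X + (n + C₁ * (h + 1) + Y) + (X + 1) * (l₀ + 1) + 1 := ⟨_, rfl⟩
  rw [← hZ] at k3
  have k4 := nc_unit (g' := g') (a' := w) (z := Y) (z' := Y) k3 (by positivity)
    (fun l hl => (hgg l (by omega)).1) (fun j hj => by
      cases j with
      | zero => exact Nat.le_add_right _ _
      | succ l => exact (hgg l (by omega)).2)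
  rw [← pow_add] at k4
  refine k4.mono (pow_le_pow_right₀ (by norm_num) ?_)
  have e1 : (X + 1) * (l₀ + 1) ≤ (X + 1) * 3 := Nat.mul_le_mul_left _ (by omega)
  have e2 : (Z + 1) * (l₀ + 1) ≤ (Z + 1) * 3 := Nat.mul_le_mul_left _ (by omega)
  have e3 : C₁ * (h + 1) ≤ C₁ * (X + Y + 1) := Nat.mul_le_mul_left _ (by omega)
  have e4 : n ≤ n * (X + Y + 1) := Nat.le_mul_of_pos_right _ (by omega)
  have e5 : (20 * C₁ + 20 * n + 100) * (X + Y + 1) =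
      20 * (C₁ * (X + Y + 1)) + 20 * (n * (X + Y + 1)) + 100 * (X + Y + 1) := by ring
  rw [e5]
  omega

end Pool.KPO
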