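import Pool.Agent.H31.D2.Kp8
import Pool.Agent.H23.D2.Rcq

/-!
# The windows of the class theorem

`kf`, `kv`: the grid of the windows. `kgain`: the gain of the slopes.
-/

set_option autoImplicit false

namespace Pool.KPO

open Finset Real

/-- The windows of the grid: `0`, `1`, `2`, `1 + x'`, `3` are the main windows. -/
def kf (n₁ m₀ : ℕ) (i : ℕ) : ℕ :=
  if i = 0 then 0 else if i = n₁ then 1 else if i = 2 * n₁ then 2 else if i = n₁ + m₀ then 3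
  else if i = 3 * n₁ then 4 else 5 + i

/-- The places of the windows. -/
noncomputable def kv (x' : ℝ) (n₁ : ℕ) (k : ℕ) : ℝ :=
  if k = 0 then 0 else if k = 1 then 1 else if k = 2 then 2 else if k = 3 then 1 + x' else
  if k = 4 then 3 else ((k - 5 : ℕ) : ℝ) / n₁

theorem kv0 (x' : ℝ) (n₁ : ℕ) : kv x' n₁ 0 = 0 := by simp [kv]
theorem kv1 (x' : ℝ) (n₁ : ℕ) : kv x' n₁ 1 = 1 := by simp [kv]
theorem kv2 (x' : ℝ) (n₁ : ℕ) : kv x' n₁ 2 = 2 := by simp [kv]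
theorem kv3 (x' : ℝ) (n₁ : ℕ) : kv x' n₁ 3 = 1 + x' := by simp [kv]
theorem kv4 (x' : ℝ) (n₁ : ℕ) : kv x' n₁ 4 = 3 := by simp [kv]
theorem kv5 (x' : ℝ) (n₁ j : ℕ) : kv x' n₁ (5 + j) = j / n₁ := by
  unfold kv
  rw [if_neg (by omega), if_neg (by omega), if_neg (by omega), if_neg (by omega),
    if_neg (by omega), show 5 + j - 5 = j by omega]

theorem kv_le4 {x' : ℝ} {n₁ n₂ k : ℕ} (hk : k ≤ 4) : kv x' n₁ k = kv x' n₂ k := by
  interval_cases k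
  · rw [kv0, kv0]
  · rw [kv1, kv1]
  · rw [kv2, kv2]
  · rw [kv3, kv3]
  · rw [kv4, kv4]

theorem kv_kf {x' : ℝ} {n₁ m₀ : ℕ} (hn : 0 < n₁) (hx : x' * n₁ = m₀) (i : ℕ) :
    kv x' n₁ (kf n₁ m₀ i) = i / n₁ := by
  have hnR : (n₁ : ℝ) ≠ 0 := by exact_mod_cast hn.ne'
  unfold kf
  split_ifs with h1 h2 h3 h4 h5
  · rw [kv0, h1]
    simp
  · rw [kv1, h2, div_self hnR]
  · rw [kv2, h3]
    push_cast
    field_simp
  · rw [kv3, h4]
    push_cast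
    rw [← hx]
    field_simp
  · rw [kv4, h5]
    push_cast
    field_simp
  · exact kv5 _ _ _

theorem kf_le {n₁ m₀ i : ℕ} (hi : i ≤ 3 * n₁) : kf n₁ m₀ i ≤ 5 + 3 * n₁ := by
  unfold kf
  split_ifs <;> omega

/-- The main windows and the windows `j + m₃`. -/
theorem kf_val {n₁ m₀ m₃ : ℕ} (h3 : 0 < m₃) (h0 : m₃ < m₀) (h1 : m₀ < n₁) :
    kf n₁ m₀ 0 = 0 ∧ kf n₁ m₀ n₁ = 1 ∧ kf n₁ m₀ (2 * n₁) = 2 ∧ kf n₁ m₀ (n₁ + m₀) = 3 ∧
    kf n₁ m₀ (3 * n₁) = 4 ∧ kf n₁ m₀ m₃ = 5 + m₃ ∧ kf n₁ m₀ (n₁ + m₃) = 5 + (n₁ + m₃) ∧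
    kf n₁ m₀ (2 * n₁ + m₃) = 5 + (2 * n₁ + m₃) := by
  unfold kf
  refine ⟨?_, ?_, ?_, ?_, ?_, ?_, ?_, ?_⟩ <;> (split_ifs <;> omega)

/-- **The gain of the slopes.** -/
theorem kgain {Sl : ℕ → ℝ} {l₀ : ℕ} (h1 : 1 < Sl 1) (h2 : 1 < Sl 2) (h3 : 2 < Sl 3)
    (hne : ∀ i < 3, i ≠ l₀ → Sl i ≠ Sl 3 - 1) : ∃ γ : ℝ, 0 < γ ∧ γ ≤ 1 ∧ γ ≤ Sl 1 - 1 ∧
    γ ≤ Sl 2 - 1 ∧ γ ≤ Sl 3 - 2 ∧ ∀ i < 3, i ≠ l₀ → γ ≤ |Sl 3 - 1 - Sl i| := by
  classical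
  obtain ⟨β, hβ⟩ : ∃ β : ℕ → ℝ, β = fun i => if i = l₀ then 1 else |Sl 3 - 1 - Sl i| := ⟨_, rfl⟩
  have hβ0 : ∀ i < 3, 0 < β i := fun i hi => by
    rw [hβ]
    beta_reduce
    split_ifs with h
    · exact one_pos
    · exact abs_pos.2 (fun h4 => hne i hi h (by linarith))
  refine ⟨min (min 1 (min (Sl 1 - 1) (min (Sl 2 - 1) (Sl 3 - 2)))) (min (β 0) (min (β 1) (β 2))),
    lt_min (lt_min one_pos (lt_min (by linarith) (lt_min (by linarith) (by linarith))))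
      (lt_min (hβ0 0 (by norm_num)) (lt_min (hβ0 1 (by norm_num)) (hβ0 2 (by norm_num)))),
    (min_le_left _ _).trans (min_le_left _ _),
    (min_le_left _ _).trans ((min_le_right _ _).trans (min_le_left _ _)),
    (min_le_left _ _).trans ((min_le_right _ _).trans ((min_le_right _ _).trans (min_le_left _ _))),
    (min_le_left _ _).trans ((min_le_right _ _).trans ((min_le_right _ _).trans
      (min_le_right _ _))), fun i hi hil => ?_⟩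
  have e1 : |Sl 3 - 1 - Sl i| = β i := by
    rw [hβ]
    beta_reduce
    rw [if_neg hil]
  rw [e1]
  refine (min_le_right _ _).trans ?_
  interval_cases i
  · exact min_le_left _ _
  · exact (min_le_right _ _).trans (min_le_left _ _)
  · exact (min_le_right _ _).trans (min_le_right _ _)

end Pool.KPO
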