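import Pool.Agent.H28.D2.P8
import Pool.Agent.H31.D2.Gqb

/-!
# Two lines of one ball, the position of the first coordinate from a cell

`Pt2_posy`, `lines_y`: as `Pt2.pos`, `Gb.lines`, the position of the first coordinate at the same
time is a hypothesis.
-/

set_option autoImplicit false

namespace Pool.KPO

open Finset Real MvPolynomial
open Pool.Agent.H49.Ent Pool.Agent.H32.Dense Pool.STK Pool.KA Pool.KSAT Pool.K2S Pool.PB Pool.GEN
open Pool.S6C Pool.LA91 Pool.CHT Pool.CHX Pool.D2F2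
open Pool.OWN68 (opl tw uw mid dirv natDegree_opl opl_jet uw_abs t_mid)
open Pool.D2R (dd hs co nrm dd_sub nrm_nonneg)
open Pool.D2F (cv CvC eta cv_sub cv_smul)
open Pool.D2Z (en en_succ en_zero en_nonneg en_mono en_eq)
open Pool.D2S (Pr Sg NtB yk en_rec dst_nonneg dst_comm)
open Pool.F5 (NatH)

variable {m : ℕ}

section

variable {c : ℕ → Fin m} {g ga : ℕ → ℕ} {W a k r : ℕ}
  {G : ℕ → MvPolynomial (Option (Fin m)) ℝ} {t : ℝ} {ψ : ℕ → Option (Fin m) → ℝ}
  {x x' : Option (Fin m) → ℝ} {Y : ℝ}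

/-- **The positions at the same time.** -/
theorem Pt2_posy (H : Pt2 c g ga W a k r G t ψ x x') (hY : (2 * r + 2) * 2 ^ k ≤ Y)
    {V' : Option (Fin m) → ℝ} (h0' : V' none = 1)
    (h' : ∀ l ≤ r, |V' (some (c l)) - dd (G l) x' V'| ≤ 2 ^ (k + a) / 2 ^ ga l) {q : ℕ}
    (hq : ∀ l < r, 2 ^ g l * |((x' - x) - (x' none - x none) • V') (some (c l)) -
      cv (ψ l) ((x' - x) - (x' none - x none) • V')| ≤ 2 / 2 ^ q ∨ g l + q ≤ ga l) {l : ℕ}
    (hl : l ≤ r) :
    en c g W ψ l ((x' - x) - (x' none - x none) • V') ≤ Y ^ (2 * r + 5) * (2 / 2 ^ q) := by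
  obtain ⟨y2, -, -, -, -, -, -⟩ := yk hY
  have hY0 : 0 ≤ Y := by linarith
  obtain ⟨τ, hτ⟩ : ∃ τ : ℝ, τ = x' none - x none := ⟨_, rfl⟩
  have ht := H.t1
  rw [← hτ] at ht ⊢
  have e0 : ((x' - x) - τ • V') none = 0 := by
    rw [Pi.sub_apply, Pi.sub_apply, Pi.smul_apply, h0', smul_eq_mul, mul_one, hτ, sub_self]
  have h1 := en_rec (M := Y ^ (r + 4) * (2 / 2 ^ q)) hY H.frm e0 (by positivity)
    (fun l hl => ?_) hl
  · refine h1.trans (le_of_eq ?_)
    rw [← mul_assoc, ← pow_add]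
    congr 2
    ring
  · rcases hq l hl with hq | hq
    · left
      rw [← hτ] at hq
      refine hq.trans (le_mul_of_one_le_left (by positivity) (one_le_pow₀ (by linarith)))
    right
    have h2 := H.lin hY hl.le
    have h3 := H.dir1 hY h0' h' hl.le
    have hg : (0 : ℝ) < 2 ^ g l := by positivity
    have e1 : ((x' - x) - τ • V') (some (c l)) - dd (G l) x ((x' - x) - τ • V') =
        ((x' - x) (some (c l)) - dd (G l) x (x' - x)) -
          τ * (V' (some (c l)) - dd (G l) x V') := by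
      have : dd (G l) x ((x' - x) - τ • V') = dd (G l) x (x' - x) - τ * dd (G l) x V' := by
        unfold dd
        rw [Finset.mul_sum, ← Finset.sum_sub_distrib]
        refine Finset.sum_congr rfl fun o _ => ?_
        rw [Pi.sub_apply (x' - x), Pi.smul_apply, smul_eq_mul]
        ring
      rw [this, Pi.sub_apply (x' - x), Pi.smul_apply, smul_eq_mul]
      ring
    rw [e1]
    have h4 : |τ * (V' (some (c l)) - dd (G l) x V')| ≤ Y ^ (r + 4) * (1 / 2 ^ ga l) := by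
      rw [abs_mul]
      refine (mul_le_mul_of_nonneg_left h3 (abs_nonneg _)).trans ?_
      have e2 : |τ| * ((2 ^ k + Y ^ (r + 3)) * (2 ^ a / 2 ^ ga l)) =
          (2 ^ a * |τ|) * ((2 ^ k + Y ^ (r + 3)) * (1 / 2 ^ ga l)) := by ring
      rw [e2]
      refine (mul_le_of_le_one_left (by positivity) ht).trans ?_
      refine mul_le_mul_of_nonneg_right ?_ (by positivity)
      have := pw4 hY
      have : (0 : ℝ) < 2 ^ k := by positivity
      linarith
    have h5 : |(x' - x) (some (c l)) - dd (G l) x (x' - x) -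
        τ * (V' (some (c l)) - dd (G l) x V')| ≤ Y ^ (r + 4) * (2 / 2 ^ ga l) := by
      refine (abs_sub _ _).trans ((add_le_add h2 h4).trans (le_of_eq ?_))
      ring
    refine (mul_le_mul_of_nonneg_left h5 hg.le).trans ?_
    have h6 : (2 : ℝ) ^ g l * (2 / 2 ^ ga l) ≤ 2 / 2 ^ q := by
      rw [mul_div_assoc', div_le_div_iff₀ (by positivity) (by positivity)]
      have : (2 : ℝ) ^ g l * 2 ^ q ≤ 2 ^ ga l := by
        rw [← pow_add]
        exact pow_le_pow_right₀ (by norm_num) hq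
      linarith
    calc 2 ^ g l * (Y ^ (r + 4) * (2 / 2 ^ ga l)) =
        Y ^ (r + 4) * (2 ^ g l * (2 / 2 ^ ga l)) := by ring
      _ ≤ Y ^ (r + 4) * (2 / 2 ^ q) := mul_le_mul_of_nonneg_left h6 (by positivity)

end

section lines

variable {J : ℕ} {F : Fam m J} {c : ℕ → Fin m} {g ga : ℕ → ℕ} {W n a k r D sg M q₀ q : ℕ}
    {ψH : LnT F → ℕ → Option (Fin m) → ℝ} {Ht : LnT F → MvPolynomial (Option (Fin m)) ℝ}
    {G : PtT F → ℕ → MvPolynomial (Option (Fin m)) ℝ} {B : F.Ω → Prop}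
    {hD : ∀ s, (Ht s).totalDegree ≤ D}

/-- **The own paths of two lines of one ball.** -/
theorem lines_y (H : Gb F c g ga W n a k r D sg M ψH Ht G B) (hWa : W ≤ a) (haJ : a ≤ J)
    {K₀ : ℕ} {ω ω' : F.Ω} (hω : B ω) (hω' : B ω') (hT : F.T1 a ω = F.T1 a ω')
    (hψ : ψH (slam F W ω) = ψH (slam F W ω'))
    (hG : ∀ l ≤ r, G (ptr F J ω) l = G (ptr F J ω') l)
    (hv : (2 : ℝ) ^ (g 0 + q) * |(hdt F c g W n r D q sg ψH Ht hD).e W 0 ω -
      (hdt F c g W n r D q sg ψH Ht hD).e W 0 ω'| ≤ K₀)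
    (hy : (2 : ℝ) ^ (g 0 + q) * |(hdt F c g W n r D q sg ψH Ht hD).v W 0 ω' -
      (hdt F c g W n r D q sg ψH Ht hD).v W 0 ω -
      (hdt F c g W n r D q sg ψH Ht hD).e W 0 ω' * (uw F W ω' - uw F W ω)| ≤ 2)
    (la : ∀ l < r, l ≠ 0 → g l + q ≤ ga l) (la' : ∀ l < r, l ≠ 0 → g l + q + a ≤ ga l + W) :
    ∀ l < r, ∀ j < 2, (2 : ℝ) ^ (g l + q) *
      |((hdt F c g W n r D q sg ψH Ht hD).P l (slam F W ω) -
        (hdt F c g W n r D q sg ψH Ht hD).P l (slam F W ω')).coeff j| ≤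
        ((2 * ((2 * r + 2) * 2 ^ k) ^ (2 * r + 5) * (K₀ + 2) : ℕ) : ℝ) := by
  obtain ⟨Y, hY⟩ : ∃ Y : ℝ, Y = (2 * r + 2) * 2 ^ k := ⟨_, rfl⟩
  obtain ⟨d, hd⟩ : ∃ d : Dat F (ℕ → Option (Fin m) → ℝ) r D,
    d = hdt F c g W n r D q sg ψH Ht hD := ⟨_, rfl⟩
  rw [← hd] at hv hy ⊢
  have hYl : (2 * r + 2) * 2 ^ k ≤ Y := hY.ge
  obtain ⟨y2, -, -, -, -, -, -⟩ := yk hYl
  have hY0 : 0 ≤ Y := by linarith
  have hK0 : (0 : ℝ) ≤ K₀ := Nat.cast_nonneg _
  have hp := H.pt2 hω hω' (t_near haJ hT) hG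
  have h2 : ∀ ν : F.Ω, bd F ν none = 1 := fun _ => rfl
  have hV' : ∀ l ≤ r, |bd F ω' (some (c l)) - dd (G (ptr F J ω) l) (bt F ω') (bd F ω')| ≤
      2 ^ (k + a) / 2 ^ ga l := fun l hl => by
    rw [hG l hl]
    exact H.vel ω' hω' l hl
  have ev : ∀ l < r, ∀ ν ν' : F.Ω, ψH (slam F W ν) = ψH (slam F W ν') →
      d.v W l ν' - d.v W l ν = (bt F ν' - bt F ν) (some (c l)) -
        cv (ψH (slam F W ν) l) (bt F ν' - bt F ν) := by
    intro l hl ν ν' h
    rw [hd, hdt_dv H.hW l h, if_pos hl]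
  have ee : ∀ l < r, ∀ ν ν' : F.Ω, ψH (slam F W ν) = ψH (slam F W ν') →
      d.e W l ν' - d.e W l ν = 1 / 2 ^ (W + 1) * ((bd F ν' - bd F ν) (some (c l)) -
        cv (ψH (slam F W ν) l) (bd F ν' - bd F ν)) := by
    intro l hl ν ν' h
    rw [hd, hdt_de H.hW l h, if_pos hl]
  have ee1 : ∀ l < r, ∀ ν : F.Ω, d.e W l ν = 1 / 2 ^ (W + 1) * (bd F ν (some (c l)) -
        cv (ψH (slam F W ν) l) (bd F ν)) := by
    intro l hl ν
    have h1 : (hdt F c g W n r D q sg ψH Ht hD).e W l ν = _ := fdat_e H.hW l ν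
    rw [hd, h1, if_pos hl]
  -- the velocities
  have hvel : ∀ l ≤ r, en c g W (ψH (slam F W ω)) l (bd F ω' - bd F ω) ≤
      Y ^ (2 * r + 5) * ((2 * K₀ + 1) * (2 ^ W / 2 ^ q)) := by
    intro l hl
    refine Pt2.vel hp hYl (h2 ω) (h2 ω') (H.vel ω hω) hV' (K := 2 * K₀) (by positivity)
      (fun j hj => ?_) hl
    rcases Nat.eq_zero_or_pos j with h | h
    · left
      rw [h] at hj ⊢
      have h1 := hv
      rw [abs_sub_comm, ee 0 hj ω ω' hψ, abs_mul,
        abs_of_pos (by positivity : (0 : ℝ) < 1 / 2 ^ (W + 1))] at h1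
      obtain ⟨z, hz⟩ : ∃ z : ℝ, z = |(bd F ω' - bd F ω) (some (c 0)) -
        cv (ψH (slam F W ω) 0) (bd F ω' - bd F ω)| := ⟨_, rfl⟩
      rw [← hz] at h1 ⊢
      have h3 : (2 : ℝ) ^ (g 0 + q) * (1 / 2 ^ (W + 1) * z) =
          (2 ^ g 0 * z) * (2 ^ q / 2 ^ (W + 1)) := by
        rw [pow_add]
        ring
      rw [h3] at h1
      have h4 : (2 : ℝ) ^ g 0 * z = (2 ^ g 0 * z) * (2 ^ q / 2 ^ (W + 1)) *
          (2 ^ (W + 1) / 2 ^ q) := by
        field_simp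
      rw [h4]
      refine (mul_le_mul_of_nonneg_right h1 (by positivity)).trans (le_of_eq ?_)
      rw [pow_succ]
      ring
    · exact Or.inr (la' j hj h.ne')
  have hc1 : ∀ l < r, (2 : ℝ) ^ (g l + q) * |d.e W l ω' - d.e W l ω| ≤
      Y ^ (2 * r + 5) * (K₀ + 1) := by
    intro l hl
    have h1 := hvel (l + 1) hl
    rw [en_succ] at h1
    have h3 := en_nonneg c g W (ψH (slam F W ω)) l (bd F ω' - bd F ω)
    have h4 : 2 ^ g l * |(bd F ω' - bd F ω) (some (c l)) -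
        cv (ψH (slam F W ω) l) (bd F ω' - bd F ω)| ≤
        Y ^ (2 * r + 5) * ((2 * K₀ + 1) * (2 ^ W / 2 ^ q)) := by linarith
    rw [ee l hl ω ω' hψ, abs_mul, abs_of_pos (by positivity : (0 : ℝ) < 1 / 2 ^ (W + 1))]
    have h6 : ∀ z : ℝ, (2 : ℝ) ^ (g l + q) * (1 / 2 ^ (W + 1) * z) =
        (2 ^ q / 2 ^ (W + 1)) * (2 ^ g l * z) := fun z => by
      rw [pow_add]
      ring
    rw [h6]
    refine (mul_le_mul_of_nonneg_left h4 (by positivity)).trans ?_
    have h5 : (2 : ℝ) ^ q / 2 ^ (W + 1) *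
        (Y ^ (2 * r + 5) * ((2 * K₀ + 1) * (2 ^ W / 2 ^ q))) =
        Y ^ (2 * r + 5) * ((2 * K₀ + 1) / 2) := by
      rw [pow_succ]
      field_simp
    rw [h5]
    refine mul_le_mul_of_nonneg_left ?_ (by positivity)
    linarith
  -- the positions at the same time
  have hc0 : ∀ l < r, (2 : ℝ) ^ (g l + q) * |d.v W l ω' - d.v W l ω -
      d.e W l ω' * (uw F W ω' - uw F W ω)| ≤ Y ^ (2 * r + 5) * 2 := by
    obtain ⟨δ, hδ⟩ : ∃ δ : Option (Fin m) → ℝ, δ = (bt F ω' - bt F ω) -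
      (bt F ω' none - bt F ω none) • bd F ω' := ⟨_, rfl⟩
    have e1 : ∀ l < r, d.v W l ω' - d.v W l ω - d.e W l ω' * (uw F W ω' - uw F W ω) =
        δ (some (c l)) - cv (ψH (slam F W ω) l) δ := by
      intro l hl
      obtain ⟨x, hx⟩ : ∃ x : Option (Fin m) → ℝ, x = bt F ω' - bt F ω := ⟨_, rfl⟩
      have e0 : bt F ω' none - bt F ω none = F.t ω' - F.t ω := rfl
      rw [ev l hl ω ω' hψ, ee1 l hl ω', ← hψ, uw_sub H.hW (T1_le hWa haJ hT), hδ, e0, ← hx,
        cv_sub, cv_smul, Pi.sub_apply, Pi.smul_apply, smul_eq_mul]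
      field_simp
      ring
    intro l hl
    have h1 := Pt2_posy hp hYl (h2 ω') hV' (q := q) (fun j hj => ?_) (show l + 1 ≤ r by omega)
    swap
    · rcases Nat.eq_zero_or_pos j with rfl | h
      · left
        rw [← hδ, ← e1 0 hj]
        rw [pow_add] at hy
        rw [le_div_iff₀ (by positivity)]
        linarith
      · exact Or.inr (la j hj h.ne')
    rw [en_succ] at h1
    rw [← hδ] at h1
    have h3 := en_nonneg c g W (ψH (slam F W ω)) l δ
    have h4 : 2 ^ g l * |δ (some (c l)) - cv (ψH (slam F W ω) l) δ| ≤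
        Y ^ (2 * r + 5) * (2 / 2 ^ q) := by linarith
    rw [e1 l hl, pow_add, mul_comm ((2 : ℝ) ^ g l), mul_assoc]
    refine (mul_le_mul_of_nonneg_left h4 (by positivity)).trans (le_of_eq ?_)
    field_simp
  intro l hl j hj
  have hcast : ((2 * ((2 * r + 2) * 2 ^ k) ^ (2 * r + 5) * (K₀ + 2) : ℕ) : ℝ) =
      2 * Y ^ (2 * r + 5) * (K₀ + 2) := by
    rw [hY]
    push_cast
    ring
  rw [hcast]
  have hYp : (0 : ℝ) ≤ Y ^ (2 * r + 5) := by positivity
  have hyk : (0 : ℝ) ≤ Y ^ (2 * r + 5) * K₀ := mul_nonneg hYp hK0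
  have b1 := hc1 l hl
  have b0 := hc0 l hl
  rw [abs_sub_comm] at b1
  interval_cases j
  · -- the coefficient of order zero
    have p1 := eval_one (d.P1 l (slam F W ω)) (uw F W ω)
    have p2 := eval_one (d.P1 l (slam F W ω')) (uw F W ω')
    have e1 : d.v W l ω = (d.P l (slam F W ω)).coeff 0 + d.e W l ω * uw F W ω := p1
    have e2 : d.v W l ω' = (d.P l (slam F W ω')).coeff 0 + d.e W l ω' * uw F W ω' := p2
    have e3 : (d.P l (slam F W ω) - d.P l (slam F W ω')).coeff 0 =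
        -(d.v W l ω' - d.v W l ω - d.e W l ω' * (uw F W ω' - uw F W ω)) -
        (d.e W l ω - d.e W l ω') * uw F W ω := by
      rw [Polynomial.coeff_sub, e1, e2]
      ring
    rw [e3]
    have b2 : (2 : ℝ) ^ (g l + q) * |(d.e W l ω - d.e W l ω') * uw F W ω| ≤
        Y ^ (2 * r + 5) * (K₀ + 1) := by
      rw [abs_mul, ← mul_assoc]
      exact (mul_le_of_le_one_right (by positivity) (uw_abs F W ω)).trans b1
    have b3 := mul_le_mul_of_nonneg_left (abs_sub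
      (-(d.v W l ω' - d.v W l ω - d.e W l ω' * (uw F W ω' - uw F W ω)))
      ((d.e W l ω - d.e W l ω') * uw F W ω)) (by positivity : (0 : ℝ) ≤ 2 ^ (g l + q))
    rw [mul_add, abs_neg] at b3
    linarith
  · have e3 : (d.P l (slam F W ω) - d.P l (slam F W ω')).coeff 1 =
        d.e W l ω - d.e W l ω' := by
      rw [Polynomial.coeff_sub]
      rfl
    rw [e3]
    linarith

end lines

end Pool.KPO
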