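import Pool.Agent.H31.D2.P8y1

/-!
# The near digits given the record of an earlier ball, the first coordinate from a cell

`vfd_recy`: as `vfd_rec`, the first coordinate is not known to `q₀` digits from the record of the
window `a`, its cell is added to the record.
-/

set_option autoImplicit false

namespace Pool.KPO

open Finset Real MvPolynomial
open Pool.Agent.H49.Ent Pool.Agent.H32.Dense Pool.STK Pool.KA Pool.KSAT Pool.K2S Pool.PB Pool.GEN
open Pool.S6C Pool.LA91 Pool.CHT Pool.CHX Pool.D2F2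
open Pool.OWN68 (opl tw uw mid dirv natDegree_opl opl_jet uw_abs CH_pair floor_sub_le CH_le_Hu)
open Pool.D2R (dd hs co nrm dd_sub)
open Pool.D2F (cv CvC eta FrOK cv_sub)
open Pool.D2Z (en en_succ en_zero en_nonneg en_mono en_eq)
open Pool.D2H (uw_eq eval_small of_floor_mul CH_step CH_pi_le)
open Pool.D2S (Pr Sg NtB yk en_rec)

variable {m J : ℕ}

/-- **The near digits of all coordinates are full given the record of the earlier ball.** -/
theorem vfd_recy {F : Fam m J} {c : ℕ → Fin m} {g go ga gb : ℕ → ℕ}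
    {W n o a b k r D sg Mo Ma Mb q₀ q E₀ : ℕ}
    {ψH : LnT F → ℕ → Option (Fin m) → ℝ} {Ht : LnT F → MvPolynomial (Option (Fin m)) ℝ}
    {Go Ga G₁ : PtT F → ℕ → MvPolynomial (Option (Fin m)) ℝ} {A B : F.Ω → Prop}
    {hD : ∀ s, (Ht s).totalDegree ≤ D} (hr : 0 < r) (hq : q ≤ q₀)
    (Ho : Gb F c g go W n o k r D sg Mo ψH Ht Go A)
    (Ha : Gb F c g ga W n a k r D sg Ma ψH Ht Ga A)
    (Hb : Gb F c g gb W n b k r D sg Mb ψH Ht G₁ A)
    {wt : ℕ → ℕ} (hF : FrW (hdt2 F c g W n r D q₀ q sg ψH Ht hD) A W c wt E₀)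
    (hBA : Sub B A) (hB : 0 < Pe F.p B)
    {u v : ℕ → ℕ} (hv : ∀ l < r, v l = g l + qv q₀ q l) (hvu : ∀ l < r, v l ≤ u l)
    (huJ : u 0 ≤ J) (huw : u 0 ≤ wt 0) {Q : ℕ} (huQ : ∀ l < r, u l ≤ g l + Q)
    (lo : ∀ l < r, l ≠ 0 → g l + q ≤ go l)
    (la : ∀ l < r, l ≠ 0 → g l + qv q₀ q l ≤ ga l) (la' : ∀ l < r, l ≠ 0 → g l + q + a ≤ ga l + W)
    (lb : ∀ l < r, g l + Q ≤ gb l) (lb' : ∀ l < r, l ≠ 0 → g l + q + b ≤ gb l + W)
    {Vo Va Vb : Type} {zo : F.Ω → Vo} {za : F.Ω → Va} {zb : F.Ω → Vb}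
    (ko : KeyZ F W r ψH Go A zo) (ka : KeyZ F W r ψH Ga A za) (kb : KeyZ F W r ψH G₁ A zb)
    {η : ℝ} (hη : 0 ≤ η)
    (hoa : CH (Pool.Agent.H49.Ent.cond F.p B True) zo za ≤ η)
    (hob : CH (Pool.Agent.H49.Ent.cond F.p B True) zo zb ≤ η)
    (hab : CH (Pool.Agent.H49.Ent.cond F.p B True) za zb ≤ η)
    (hfa : CH (Pool.Agent.H49.Ent.cond F.p B True)
        (fun ω => (cV (hdt2 F c g W n r D q₀ q sg ψH Ht hD) W ω,
          cG (hdt2 F c g W n r D q₀ q sg ψH Ht hD) W ω)) (fun ω => (za ω, F.W ω)) ≤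
      CH (Pool.Agent.H49.Ent.cond F.p B True)
        (fun ω => (cV (hdt2 F c g W n r D q₀ q sg ψH Ht hD) W ω,
          cG (hdt2 F c g W n r D q₀ q sg ψH Ht hD) W ω)) (fun ω => (zb ω, F.W ω)) + η)
    (hfo : CH (Pool.Agent.H49.Ent.cond F.p B True)
        (fun ω => (cV (hdt2 F c g W n r D q₀ q sg ψH Ht hD) W ω,
          cG (hdt2 F c g W n r D q₀ q sg ψH Ht hD) W ω)) (fun ω => (zo ω, F.W ω)) ≤
      CH (Pool.Agent.H49.Ent.cond F.p B True)
        (fun ω => (cV (hdt2 F c g W n r D q₀ q sg ψH Ht hD) W ω,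
          cG (hdt2 F c g W n r D q₀ q sg ψH Ht hD) W ω)) (fun ω => (zb ω, F.W ω)) + η)
    (hex : ((J - v 0 : ℕ) : ℝ) * Real.log 2 + ((v 0 - ga 0 : ℕ) : ℝ) * Real.log 2 - η ≤
      CH (Pool.Agent.H49.Ent.cond F.p B True) (fun ω => F.X J ω (c 0))
        (fun ω => (za ω, F.W ω)))
    (hnv : ∑ l ∈ Finset.Ico 1 r, ((u l - v l : ℕ) : ℝ) * Real.log 2 - η ≤
      CH (Pool.Agent.H49.Ent.cond F.p B True)
        (fun ω (l : Fin (r - 1)) => Nfd (hdt2 F c g W n r D q₀ q sg ψH Ht hD) W u v (1 + l) ω)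
        (fun ω => (zo ω, (F.W ω, (F.X J ω (c 0),
          cE (hdt2 F c g W n r D q₀ q sg ψH Ht hD) W ω))))) :
    ∑ l ∈ range r, ((u l - v l : ℕ) : ℝ) * Real.log 2 -
      (18 * η + 22 * (r * (Real.log (2 * (2 + r * E₀ : ℕ) + 1) +
        Real.log (2 * (Yk r k 1 + 1 : ℕ) + 1)))) ≤
      CH (Pool.Agent.H49.Ent.cond F.p B True)
        (Vfd (hdt2 F c g W n r D q₀ q sg ψH Ht hD) W u v)
        (fun ω => (cG (hdt2 F c g W n r D q₀ q sg ψH Ht hD) W ω, (zo ω, (F.W ω,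
          (cP (hdt2 F c g W n r D q₀ q sg ψH Ht hD) W ω,
            cE (hdt2 F c g W n r D q₀ q sg ψH Ht hD) W ω))))) := by
  have hp := isLaw_cond F.isLaw hB
  have h0 := hp.nonneg
  have hBp : ∀ ω, 0 < Pool.Agent.H49.Ent.cond F.p B True ω → A ω := fun ω hω =>
    hBA ω (of_cond_pos hω)
  obtain ⟨d, hd⟩ : ∃ d : Dat F (ℕ → Option (Fin m) → ℝ) r D,
    d = hdt2 F c g W n r D q₀ q sg ψH Ht hD := ⟨_, rfl⟩
  obtain ⟨L₁, hL₁⟩ : ∃ L₁ : ℝ, L₁ = Real.log (2 * (2 + r * E₀ : ℕ) + 1) := ⟨_, rfl⟩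
  obtain ⟨L₂, hL₂⟩ : ∃ L₂ : ℝ, L₂ = Real.log (2 * (Yk r k 1 + 1 : ℕ) + 1) := ⟨_, rfl⟩
  have hL₁0 : 0 ≤ L₁ := by
    rw [hL₁]
    refine Real.log_nonneg ?_
    have : (0 : ℝ) ≤ ((2 + r * E₀ : ℕ) : ℝ) := Nat.cast_nonneg _
    linarith
  have hL₂0 : 0 ≤ L₂ := by
    rw [hL₂]
    refine Real.log_nonneg ?_
    have : (0 : ℝ) ≤ ((Yk r k 1 + 1 : ℕ) : ℝ) := Nat.cast_nonneg _
    linarith
  have hr0 : (0 : ℝ) ≤ r := Nat.cast_nonneg r
  have hrL : 0 ≤ r * L₂ := mul_nonneg hr0 hL₂0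
  have hrL1 : L₂ ≤ r * L₂ := le_mul_of_one_le_left hL₂0 (by exact_mod_cast hr)
  have hSV : ∀ l, d.SV l = 2 ^ (g l + qv q₀ q l) := fun l => by rw [hd]; rfl
  have hSE : ∀ l, d.SE l = 2 ^ (g l + qv q₀ q l) := fun l => by rw [hd]; rfl
  have hTW : ∀ {ω ω' : F.Ω}, F.W ω = F.W ω' → F.T ω = F.T ω' := fun h => (Prod.ext_iff.1 h).1
  rw [← hd, ← hL₁, ← hL₂]
  rw [← hd] at hF hfa hfo hnv
  -- the positions
  obtain ⟨C0, hC0⟩ : ∃ C0 : F.Ω → ℤ, C0 = fun ω => ⌊d.SV 0 * d.v W 0 ω⌋ := ⟨_, rfl⟩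
  have pA : ∀ ω ω', A ω → A ω' → za ω = za ω' → F.W ω = F.W ω' → C0 ω = C0 ω' → ∀ l < r,
      (2 : ℝ) ^ (g l + qv q₀ q l) * |d.v W l ω - d.v W l ω'| ≤ Yk r k 1 := by
    intro ω ω' hω hω' e1 e2 e3
    obtain ⟨k1, k2⟩ := ka ω ω' hω hω' e1
    rw [hC0] at e3
    have e4 := fl_one (by rw [hSV]; positivity) e3
    rw [hSV] at e4
    rw [hd] at e4 ⊢
    refine Ha.posq hq (K₀ := 1) hω hω' (hTW e2) k1 k2 fun l hl => ?_
    rcases Nat.eq_zero_or_pos l with rfl | h
    · left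
      rw [Nat.cast_one]
      exact e4
    · exact Or.inr (la l hl h.ne')
  -- the cell of the first coordinate given the record
  have c0A : CH (Pool.Agent.H49.Ent.cond F.p B True) C0 (fun ω => (za ω, F.W ω)) ≤
      ((v 0 - ga 0 : ℕ) : ℝ) * Real.log 2 + L₂ := by
    have h1 : CH (Pool.Agent.H49.Ent.cond F.p B True) C0 (fun ω => (za ω, F.W ω)) ≤
        Real.log (2 * ((2 * 2 ^ (v 0 - ga 0) + 1 : ℕ) : ℝ) + 1) := by
      refine CH_pair hp _ _ fun ω ω' hω hω' e => ?_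
      simp only [Prod.mk.injEq] at e
      obtain ⟨k1, k2⟩ := ka ω ω' (hBp ω hω) (hBp ω' hω') e.1
      have h4 := Ha.zero (q := q) (sg := sg) (hD := hD) hr (hBp ω hω) (hBp ω' hω')
        (hTW e.2) k1 k2
      rw [hC0]
      refine floor_sub_le ?_
      rw [← mul_sub, abs_mul, hSV, abs_of_pos (by positivity), hd]
      refine (mul_le_mul_of_nonneg_left h4 (by positivity)).trans ?_
      rw [← hv 0 hr]
      push_cast
      rw [mul_div_assoc', div_le_iff₀ (by positivity)]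
      have h5 : (2 : ℝ) ^ v 0 ≤ 2 ^ (v 0 - ga 0) * 2 ^ ga 0 := by
        rw [← pow_add]
        exact pow_le_pow_right₀ (by norm_num) (by omega)
      linarith
    refine h1.trans ?_
    have h2 : Real.log (2 * ((2 * 2 ^ (v 0 - ga 0) + 1 : ℕ) : ℝ) + 1) ≤
        Real.log (2 ^ (v 0 - ga 0) * (2 * (Yk r k 1 + 1 : ℕ) + 1)) := by
      refine Real.log_le_log (by positivity) ?_
      obtain ⟨y1, -⟩ := le_Yk r k 1
      have y1R : (2 : ℝ) ≤ Yk r k 1 := by exact_mod_cast y1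
      have h3 : (1 : ℝ) ≤ 2 ^ (v 0 - ga 0) := one_le_pow₀ (by norm_num)
      push_cast
      nlinarith
    refine h2.trans (le_of_eq ?_)
    rw [Real.log_mul (by positivity) (by positivity), Real.log_pow, hL₂]
  have pO : ∀ ω ω', A ω → A ω' → zo ω = zo ω' → F.W ω = F.W ω' →
      (2 : ℝ) ^ (g 0 + qv q₀ q 0) * |d.v W 0 ω - d.v W 0 ω'| ≤ 1 → ∀ l < r,
      (2 : ℝ) ^ (g l + qv q₀ q l) * |d.v W l ω - d.v W l ω'| ≤ Yk r k 1 := by
    intro ω ω' hω hω' e1 e2 e3
    obtain ⟨k1, k2⟩ := ko ω ω' hω hω' e1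
    rw [hd] at e3 ⊢
    refine Ho.posq hq (K₀ := 1) hω hω' (hTW e2) k1 k2 fun l hl => ?_
    rcases Nat.eq_zero_or_pos l with rfl | h
    · left
      rw [Nat.cast_one]
      exact e3
    · right
      rw [qv_pos h.ne']
      exact lo l hl h.ne'
  have pB : ∀ ω ω', A ω → A ω' → zb ω = zb ω' → F.W ω = F.W ω' → ∀ l < r,
      (2 : ℝ) ^ (g l + Q) * |d.v W l ω - d.v W l ω'| ≤ Yk r k 1 := by
    intro ω ω' hω hω' e1 e2
    obtain ⟨k1, k2⟩ := kb ω ω' hω hω' e1
    rw [hd]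
    exact Hb.posn (q := q) (sg := sg) (hD := hD) (K₀ := 1) (Q := Q) hω hω' (hTW e2) k1 k2
      fun l hl => Or.inr (lb l hl)
  have pu : ∀ l < r, ∀ x : ℝ, 0 ≤ x → (2 : ℝ) ^ (g l + Q) * x ≤ Yk r k 1 →
      (2 : ℝ) ^ (u l) * x ≤ Yk r k 1 := fun l hl x hx h =>
    (mul_le_mul_of_nonneg_right (pow_le_pow_right₀ (by norm_num) (huQ l hl)) hx).trans h
  have pq : ∀ l < r, ∀ x : ℝ, 0 ≤ x → (2 : ℝ) ^ (g l + Q) * x ≤ Yk r k 1 →
      (2 : ℝ) ^ (g l + qv q₀ q l) * x ≤ Yk r k 1 := fun l hl x hx h => by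
    refine (mul_le_mul_of_nonneg_right (pow_le_pow_right₀ (by norm_num) ?_) hx).trans h
    rw [← hv l hl]
    exact (hvu l hl).trans (huQ l hl)
  -- the velocities
  have vA : ∀ ω ω', A ω → A ω' → za ω = za ω' → F.W ω = F.W ω' → cV d W ω = cV d W ω' →
      ∀ l < r, (2 : ℝ) ^ (g l + qv q₀ q l) * |d.e W l ω - d.e W l ω'| ≤ Yk r k 1 := by
    intro ω ω' hω hω' e1 e2 e3
    obtain ⟨k1, k2⟩ := ka ω ω' hω hω' e1
    have e4 := fl_one (by rw [hSE]; positivity) e3
    rw [hSE, qv_zero] at e4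
    rw [hd] at e4 ⊢
    exact Ha.velq hq (K₀ := 1) hω hω' (hTW e2) k1 k2 (by rw [Nat.cast_one]; exact e4) la'
  have vB : ∀ ω ω', A ω → A ω' → zb ω = zb ω' → F.W ω = F.W ω' → cV d W ω = cV d W ω' →
      ∀ l < r, (2 : ℝ) ^ (g l + qv q₀ q l) * |d.e W l ω - d.e W l ω'| ≤ Yk r k 1 := by
    intro ω ω' hω hω' e1 e2 e3
    obtain ⟨k1, k2⟩ := kb ω ω' hω hω' e1
    have e4 := fl_one (by rw [hSE]; positivity) e3
    rw [hSE, qv_zero] at e4
    rw [hd] at e4 ⊢
    exact Hb.velq hq (K₀ := 1) hω hω' (hTW e2) k1 k2 (by rw [Nat.cast_one]; exact e4) lb'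
  -- the cells
  have cellP : ∀ {T : Type} (Z : F.Ω → T), (∀ ω ω', A ω → A ω' → Z ω = Z ω' → ∀ l < r,
      (2 : ℝ) ^ (g l + qv q₀ q l) * |d.v W l ω - d.v W l ω'| ≤ Yk r k 1) →
      CH (Pool.Agent.H49.Ent.cond F.p B True) (cP d W) Z ≤ r * L₂ := by
    intro T Z h
    rw [hL₂]
    refine CH_cells hp (fun ω (l : Fin r) => d.SV l * d.v W l ω) Z fun ω ω' a b e l => ?_
    rw [← mul_sub, abs_mul, hSV, abs_of_pos (by positivity)]
    exact h ω ω' (hBp ω a) (hBp ω' b) e l l.2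
  have cellE : ∀ {T : Type} (Z : F.Ω → T), (∀ ω ω', A ω → A ω' → Z ω = Z ω' → ∀ l < r,
      (2 : ℝ) ^ (g l + qv q₀ q l) * |d.e W l ω - d.e W l ω'| ≤ Yk r k 1) →
      CH (Pool.Agent.H49.Ent.cond F.p B True) (cE d W) Z ≤ r * L₂ := by
    intro T Z h
    rw [hL₂]
    refine CH_cells hp (fun ω (l : Fin r) => d.SE l * d.e W l ω) Z fun ω ω' a b e l => ?_
    rw [← mul_sub, abs_mul, hSE, abs_of_pos (by positivity)]
    exact h ω ω' (hBp ω a) (hBp ω' b) e l l.2
  have four : ∀ {T S : Type} (Z : F.Ω → T) (X : F.Ω → S),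
      CH (Pool.Agent.H49.Ent.cond F.p B True) (fun ω => (zo ω, (F.W ω, (X ω)))) Z ≤
      CH (Pool.Agent.H49.Ent.cond F.p B True) zo Z +
        (CH (Pool.Agent.H49.Ent.cond F.p B True) F.W Z +
        CH (Pool.Agent.H49.Ent.cond F.p B True) X Z) := by
    intro T S Z X
    have a1 := CH_subadd h0 zo (fun ω => (F.W ω, X ω)) Z
    have a2 := CH_subadd h0 F.W X Z
    linarith
  have hGm : ∀ {T : Type} (Z : F.Ω → T),
      CH (Pool.Agent.H49.Ent.cond F.p B True)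
        (fun ω => (zo ω, (F.W ω, (cP d W ω, cE d W ω)))) Z ≤
      CH (Pool.Agent.H49.Ent.cond F.p B True) zo Z +
        (CH (Pool.Agent.H49.Ent.cond F.p B True) F.W Z +
        (CH (Pool.Agent.H49.Ent.cond F.p B True) (cP d W) Z +
          CH (Pool.Agent.H49.Ent.cond F.p B True) (cE d W) Z)) := by
    intro T Z
    have a1 := four Z (fun ω => (cP d W ω, cE d W ω))
    have a2 := CH_subadd h0 (cP d W) (cE d W) Z
    linarith
  have hmono : ∀ {S T T' : Type} (X : F.Ω → S) (Z : F.Ω → T) (Z' : F.Ω → T'),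
      (∀ ω ω', Z' ω = Z' ω' → Z ω = Z ω') →
      CH (Pool.Agent.H49.Ent.cond F.p B True) X Z' ≤
        CH (Pool.Agent.H49.Ent.cond F.p B True) X Z := fun X Z Z' h =>
    CH_mono_cond h0 fun ω ω' _ _ e => h ω ω' e
  obtain ⟨η', hη'⟩ : ∃ η' : ℝ, η' = 2 * η + 2 * (r * L₂) := ⟨_, rfl⟩
  have hηη : η ≤ η' := by rw [hη']; linarith
  have key := vfd_blk_w (k₀ := 1) (u := u) (v := v) hF hBA hB (by omega)
    (fun l hl => by
      obtain rfl : l = 0 := by omega
      exact huJ) (fun l hl => by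
      obtain rfl : l = 0 := by omega
      exact huw) (fun l hl => hvu l (by omega))
    (fun ω => (cG d W ω, (zo ω, (F.W ω, (cP d W ω, cE d W ω)))))
    (fun ω => (cV d W ω, cG d W ω)) (fun ω => ((za ω, F.W ω), C0 ω)) (fun ω => (zb ω, F.W ω))
    (cG d W) (fun ω => (cV d W ω, (zo ω, F.W ω))) (fun ω => (cV d W ω, (zb ω, F.W ω)))
    (fun ω => (zo ω, (F.W ω, (cP d W ω, cE d W ω))))
    (fun ω => (zo ω, (F.W ω, (F.X J ω (c 0), cE d W ω))))
    (Yv := fun ω => F.X J ω (c 0)) (K := Yk r k 1) (η := η')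
    (fun ω ω' hω hω' e => by
      simp only [Prod.mk.injEq] at e
      obtain ⟨⟨e1, e2⟩, e3⟩ := e
      refine ⟨hTW e2, ?_, fun l hl => ?_⟩
      · rw [hd]
        exact (ka ω ω' (hBA ω hω) (hBA ω' hω') e1).1
      · rw [← mul_sub, abs_mul, abs_of_pos (by positivity), hv l (by omega)]
        exact pA ω ω' (hBA ω hω) (hBA ω' hω') e1 e2 e3 l (by omega))
    (fun ω ω' _ _ h => h 0 (by norm_num))
    (fun ω ω' hω hω' e l hl => by
      obtain ⟨e1, e2⟩ := Prod.ext_iff.1 e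
      dsimp only at e1 e2
      rw [← mul_sub, abs_mul, abs_of_pos (by positivity)]
      exact pu l (by omega) _ (abs_nonneg _)
        (pB ω ω' (hBA ω hω) (hBA ω' hω') e1 e2 l (by omega)))
    (fun ω ω' hω hω' e => by
      simp only [Prod.mk.injEq] at e
      obtain ⟨e1, e2, e3, e4⟩ := e
      refine ⟨hTW e2, ?_, fun i hi => ?_⟩
      · rw [hd]
        exact (ko ω ω' (hBA ω hω) (hBA ω' hω') e1).1
      · obtain rfl : i = 0 := by omega
        exact e3)
    (fun ω ω' hω hω' e l hl => by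
      simp only [Prod.mk.injEq] at e
      obtain ⟨-, e1, e2⟩ := e
      rw [← mul_sub, abs_mul, abs_of_pos (by positivity)]
      exact pu l hl _ (abs_nonneg _) (pB ω ω' (hBA ω hω) (hBA ω' hω') e1 e2 l hl))
    (fun ω ω' _ _ e => by
      simp only [Prod.mk.injEq] at e ⊢
      obtain ⟨e1, e2, -, e4⟩ := e
      exact ⟨congrFun e4 ⟨0, hr⟩, e1, e2⟩)
    (by
      rw [Finset.sum_range_one]
      have a1 := Pool.D2H.CH_step h0 (fun ω => F.X J ω (c 0)) C0 (fun ω => (za ω, F.W ω))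
      have a2 : CH (Pool.Agent.H49.Ent.cond F.p B True) (fun ω => F.X J ω (c 0))
          (fun ω => (C0 ω, (za ω, F.W ω))) ≤
          CH (Pool.Agent.H49.Ent.cond F.p B True) (fun ω => F.X J ω (c 0))
          (fun ω => ((za ω, F.W ω), C0 ω)) := CH_mono_cond h0 fun ω ω' _ _ e => by
        simp only [Prod.mk.injEq] at e ⊢
        tauto
      linarith)
    (by
      have a1 := hmono (fun ω => (cV d W ω, cG d W ω)) (fun ω => (za ω, F.W ω))
        (fun ω => ((za ω, F.W ω), C0 ω)) fun ω ω' e => (Prod.ext_iff.1 e).1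
      linarith)
    (by
      have a1 := CH_subadd h0 za F.W (fun ω => (zb ω, F.W ω))
      have a2 := hmono za zb (fun ω => (zb ω, F.W ω)) fun ω ω' e => (Prod.ext_iff.1 e).1
      have a3 := CH_det h0 F.W (fun ω => (zb ω, F.W ω)) fun ω ω' _ _ e => (Prod.ext_iff.1 e).2
      have a4 := CH_subadd h0 (fun ω => (za ω, F.W ω)) C0 (fun ω => (zb ω, F.W ω))
      have a5 : CH (Pool.Agent.H49.Ent.cond F.p B True) C0 (fun ω => (zb ω, F.W ω)) ≤ L₂ := by
        rw [hL₂]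
        refine CH_pair hp _ _ fun ω ω' hω hω' e => ?_
        simp only [Prod.mk.injEq] at e
        have h4 := pq 0 hr _ (abs_nonneg _) (pB ω ω' (hBp ω hω) (hBp ω' hω') e.1 e.2 0 hr)
        rw [hC0]
        refine floor_sub_le ?_
        rw [← mul_sub, abs_mul, hSV, abs_of_pos (by positivity)]
        exact h4
      linarith)
    (by
      have a0 := CH_subadd h0 (cG d W) (fun ω => (zo ω, (F.W ω, (cP d W ω, cE d W ω))))
        (fun ω => ((cV d W ω, cG d W ω), ((za ω, F.W ω), C0 ω)))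
      have a1 := CH_det h0 (cG d W) (fun ω => ((cV d W ω, cG d W ω), ((za ω, F.W ω), C0 ω)))
        fun ω ω' _ _ e => by
          simp only [Prod.mk.injEq] at e
          exact e.1.2
      have a2 := hGm (fun ω => ((cV d W ω, cG d W ω), ((za ω, F.W ω), C0 ω)))
      have a3 := hmono zo za (fun ω => ((cV d W ω, cG d W ω), ((za ω, F.W ω), C0 ω)))
        fun ω ω' e => by
          simp only [Prod.mk.injEq] at e
          exact e.2.1.1
      have a4 := CH_det h0 F.W (fun ω => ((cV d W ω, cG d W ω), ((za ω, F.W ω), C0 ω)))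
        fun ω ω' _ _ e => by
          simp only [Prod.mk.injEq] at e
          exact e.2.1.2
      have a5 := cellP (fun ω => ((cV d W ω, cG d W ω), ((za ω, F.W ω), C0 ω)))
        fun ω ω' hω hω' e => by
          simp only [Prod.mk.injEq] at e
          exact pA ω ω' hω hω' e.2.1.1 e.2.1.2 e.2.2
      have a6 := cellE (fun ω => ((cV d W ω, cG d W ω), ((za ω, F.W ω), C0 ω)))
        fun ω ω' hω hω' e => by
          simp only [Prod.mk.injEq] at e
          exact vA ω ω' hω hω' e.2.1.1 e.2.1.2 e.1.1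
      linarith)
    (by linarith)
    (by
      have a2 := hGm (fun ω => (zo ω, (F.W ω, (F.X J ω (c 0), cE d W ω))))
      have a3 := CH_det h0 zo (fun ω => (zo ω, (F.W ω, (F.X J ω (c 0), cE d W ω))))
        fun ω ω' _ _ e => by
          simp only [Prod.mk.injEq] at e
          exact e.1
      have a4 := CH_det h0 F.W (fun ω => (zo ω, (F.W ω, (F.X J ω (c 0), cE d W ω))))
        fun ω ω' _ _ e => by
          simp only [Prod.mk.injEq] at e
          exact e.2.1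
      have a5 := cellP (fun ω => (zo ω, (F.W ω, (F.X J ω (c 0), cE d W ω))))
        fun ω ω' hω hω' e => by
          simp only [Prod.mk.injEq] at e
          refine pO ω ω' hω hω' e.1 e.2.1 ?_
          -- the exact first coordinate
          have hψ := (ko ω ω' hω hω' e.1).1
          have b0 : (bt F ω' - bt F ω) none = 0 := by
            rw [Pi.sub_apply]
            change F.t ω' - F.t ω = 0
            unfold Fam.t
            rw [hTW e.2.1, sub_self]
          have b1 : cv (ψH (slam F W ω) 0) (bt F ω' - bt F ω) = 0 := by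
            have h1 := Pool.D2F.cv_congr (Ho.cvH (slam F W ω) 0) (W := bt F ω' - bt F ω)
              (W' := 0) (by rw [b0]; rfl) (fun l hl => absurd hl (by omega))
            rw [h1]
            unfold cv
            simp
          have b2 : d.v W 0 ω' - d.v W 0 ω = F.x ω' (c 0) - F.x ω (c 0) := by
            rw [hd]
            have b4 : (hdt F c g W n r D q sg ψH Ht hD).v W 0 ω' -
                (hdt F c g W n r D q sg ψH Ht hD).v W 0 ω = _ := hdt_dv Ho.hW 0 hψ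
            rw [if_pos hr, b1, sub_zero, Pi.sub_apply] at b4
            exact b4
          rw [abs_sub_comm, b2]
          have b3 : |F.x ω' (c 0) - F.x ω (c 0)| ≤ 1 / 2 ^ J := by
            refine Pool.D2H.of_floor_mul (by positivity) ?_
            exact e.2.2.1.symm
          refine (mul_le_mul_of_nonneg_left b3 (by positivity)).trans ?_
          rw [mul_one_div, div_le_one (by positivity)]
          refine pow_le_pow_right₀ (by norm_num) ?_
          rw [← hv 0 hr]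
          exact (hvu 0 hr).trans huJ
      have a6 := CH_det h0 (cE d W) (fun ω => (zo ω, (F.W ω, (F.X J ω (c 0), cE d W ω))))
        fun ω ω' _ _ e => by
          simp only [Prod.mk.injEq] at e
          exact e.2.2.2
      linarith)
    (by
      have a1 : CH (Pool.Agent.H49.Ent.cond F.p B True) (fun ω => (zo ω, F.W ω))
          (fun ω => (zb ω, F.W ω)) ≤ η := by
        have b1 := CH_subadd h0 zo F.W (fun ω => (zb ω, F.W ω))
        have b2 := hmono zo zb (fun ω => (zb ω, F.W ω)) fun ω ω' e => (Prod.ext_iff.1 e).1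
        have b3 := CH_det h0 F.W (fun ω => (zb ω, F.W ω)) fun ω ω' _ _ e =>
          (Prod.ext_iff.1 e).2
        linarith
      have a2 := free_snd h0 (cV d W) (cG d W) (fun ω => (zo ω, F.W ω))
        (fun ω => (zb ω, F.W ω)) hfo a1
      linarith)
    (by
      have a2 := hGm (fun ω => (cV d W ω, (zb ω, F.W ω)))
      have a3 := hmono zo zb (fun ω => (cV d W ω, (zb ω, F.W ω)))
        fun ω ω' e => by
          simp only [Prod.mk.injEq] at e
          exact e.2.1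
      have a4 := CH_det h0 F.W (fun ω => (cV d W ω, (zb ω, F.W ω)))
        fun ω ω' _ _ e => by
          simp only [Prod.mk.injEq] at e
          exact e.2.2
      have a5 := cellP (fun ω => (cV d W ω, (zb ω, F.W ω)))
        fun ω ω' hω hω' e l hl => by
          simp only [Prod.mk.injEq] at e
          exact pq l hl _ (abs_nonneg _) (pB ω ω' hω hω' e.2.1 e.2.2 l hl)
      have a6 := cellE (fun ω => (cV d W ω, (zb ω, F.W ω)))
        fun ω ω' hω hω' e => by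
          simp only [Prod.mk.injEq] at e
          exact vB ω ω' hω hω' e.2.1 e.2.2 e.1
      linarith)
    (by
      refine (CH_det h0 _ _ fun ω ω' _ _ e => e).trans ?_
      rw [hη']
      linarith)
  rw [← hL₁, ← hL₂] at key
  refine le_trans ?_ key
  have hrr : 0 ≤ r * L₁ := mul_nonneg hr0 hL₁0
  rw [hη']
  have e1 : (r : ℝ) * (L₁ + L₂) = r * L₁ + r * L₂ := by ring
  rw [e1]
  linarith

end Pool.KPO
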