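import Pool.Agent.H31.D2.Cy6
import Pool.Agent.H90.D2.Ins

/-!
# The tie cell `(1,k,k;k+1)`, `k > 2`: from real data to `PrC`, `PrS`

`prc_of`: one law. `prs_of`: one scale. The real data are those of `PrR` at the precision `s`, the
coefficient of the target in the direction of `V0` is small.
-/

set_option autoImplicit false

namespace Pool.KPO

open Finset Real
open Pool.Agent.H49.Ent Pool.Agent.H32.Dense Pool.STK
open Pool.K2S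
open Pool.KM7 (P2 P2_isLaw P2_pos)
open Pool.D2A Pool.D2T Pool.D2N

variable {Ω σ ζ ζ' ζ₀ ε : Type} [Fintype Ω]

variable {p : Ω → ℝ} {S : Ω → σ} {z : Ω → ζ} {z' : Ω → ζ'} {z₀ : Ω → ζ₀} {e : Ω → ε}
  {E t y T : Ω → ℝ} {A V : Ω → Fin 2 → ℝ} {M : Ω → Fin 2 → Fin 2 → ℝ} {s : ℕ} {B L K : ℝ}

/-- The values at a reference sample. -/
theorem rfv_three (R : PrR p S z z₀ e E t y T A V M s B L K) {ω : Ω} (hω : 0 < p ω) :
    |rfv p z e E (z ω) (e ω)| ≤ L ∧ (∀ i, |rfv p z e A (z ω) (e ω) i| ≤ L) ∧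
      |rfv p z e E (z ω) (e ω) - E ω| ≤ K / 2 ^ s ∧
      ∀ i, |rfv p z e A (z ω) (e ω) i - A ω i| ≤ K / 2 ^ s := by
  obtain ⟨ω₀, h1, h2, h3, h4⟩ := rfv_spec (z := z) (e := e) hω (R := ℝ)
  obtain ⟨ω₁, g1, g2, g3, g4⟩ := rfv_spec (z := z) (e := e) hω (R := Fin 2 → ℝ)
  rw [h4, g4]
  exact ⟨R.bE _ h1, R.bA _ g1, R.nE _ _ h1 hω h2 h3, R.nA _ _ g1 hω g2 g3⟩

/-- **One law.** -/
theorem prc_of (R : PrR p S z z₀ e E t y T A V M s B L K) {kk K₀ : ℕ} {cE eF : ℝ} (hB0 : 0 ≤ B)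
    (hT : ∀ ω, 0 < p ω → |T ω| ≤ K / 2 ^ s) (dz : Det p z' z) (dM : Det p z' M) (hK₀ : 1 ≤ K₀)
    (hcE : 0 ≤ cE) (free : CH p e z ≤ CH p e z' + eF)
    (rate : NoCov p (fun ω => ⌊2 ^ kk * rfv p z e E (z ω) (e ω)⌋) z' K₀ cE) :
    PrC p S z z' e (rfv p z e E) (rfv p z e A) M
      (fun ω => ⌊2 ^ kk * rfv p z e E (z ω) (e ω)⌋) kk K₀ L (5 * (L + B) * (K / 2 ^ s)) cE eF := by
  have hL := R.hL
  have hK := R.hK
  have hL0 : 0 ≤ L := by linarith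
  have hκ : 0 ≤ K / 2 ^ s := by positivity
  obtain ⟨κ, hκd⟩ : ∃ κ, κ = K / 2 ^ s := ⟨_, rfl⟩
  rw [← hκd] at hκ
  have hBκ : 0 ≤ B * κ := mul_nonneg hB0 hκ
  have hLκ : κ ≤ L * κ := le_mul_of_one_le_left hκ hL
  refine
    { isLaw := R.isLaw
      dz := dz
      dS := R.dS
      dM := dM
      de := R.de
      hL := hL
      hκ := by positivity
      hK₀ := hK₀
      hcE := hcE
      bM := R.bM
      bE := fun ω hω => (rfv_three R hω).1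
      bA := fun ω hω => (rfv_three R hω).2.1
      cell := fun ω hω => by
        rw [abs_sub_comm]
        exact flr1 _
      free := free
      rate := rate
      vel := ?_
      rel := ?_ }
  · intro ω ω' h h' hS i
    obtain ⟨a1, a2, a3, a4⟩ := rfv_three R h
    obtain ⟨b1, b2, b3, b4⟩ := rfv_three R h'
    rw [← R.dS ω ω' h h' hS, ← R.de ω ω' h h' hS] at b3
    have v1 := R.vV ω h i
    have v2 := R.vV ω' h' i
    have v3 := R.lin ω ω' h h' hS i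
    rw [← hκd] at a3 b3 v1 v2 v3 ⊢
    obtain ⟨E₀, hE₀⟩ : ∃ E₀, E₀ = rfv p z e E (z ω) (e ω) := ⟨_, rfl⟩
    rw [← hE₀] at a1 a3 b3 ⊢
    have e1 : (M ω' i 0 - M ω i 0) + E₀ * (M ω' i 1 - M ω i 1) =
        (V ω' i - V ω i) - (V ω' i - (M ω' i 0 + E ω' * M ω' i 1)) +
          (V ω i - (M ω i 0 + E ω * M ω i 1)) + (E₀ - E ω') * M ω' i 1 -
          (E₀ - E ω) * M ω i 1 := by ring
    have t1 := m2_le b3 (R.bM ω' h' i 1)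
    have t2 := m2_le a3 (R.bM ω h i 1)
    have s1 := abs_sub ((V ω' i - V ω i) - (V ω' i - (M ω' i 0 + E ω' * M ω' i 1)) +
          (V ω i - (M ω i 0 + E ω * M ω i 1)) + (E₀ - E ω') * M ω' i 1)
          ((E₀ - E ω) * M ω i 1)
    have s2 := abs_add_le ((V ω' i - V ω i) - (V ω' i - (M ω' i 0 + E ω' * M ω' i 1)) +
          (V ω i - (M ω i 0 + E ω * M ω i 1))) ((E₀ - E ω') * M ω' i 1)
    have s3 := abs_add_le ((V ω' i - V ω i) - (V ω' i - (M ω' i 0 + E ω' * M ω' i 1)))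
      (V ω i - (M ω i 0 + E ω * M ω i 1))
    have s4 := abs_sub (V ω' i - V ω i) (V ω' i - (M ω' i 0 + E ω' * M ω' i 1))
    rw [e1]
    linarith
  · intro ω ω' h h' hS
    obtain ⟨a1, a2, a3, a4⟩ := rfv_three R h
    have r1 := R.rel ω ω' h h' hS
    have r2 := hT ω h
    rw [← hκd] at a4 r1 r2 ⊢
    obtain ⟨A₀, hA₀⟩ : ∃ A₀, A₀ = rfv p z e A (z ω) (e ω) := ⟨_, rfl⟩
    rw [← hA₀] at a2 a4 ⊢
    rw [Fin.sum_univ_two] at r1 ⊢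
    have e1 : A₀ 0 * (M ω' 0 1 - M ω 0 1) + A₀ 1 * (M ω' 1 1 - M ω 1 1) =
        (2 * (t ω' - t ω) * T ω + (A ω 0 * (M ω' 0 1 - M ω 0 1) +
          A ω 1 * (M ω' 1 1 - M ω 1 1))) - (2 * (t ω' - t ω)) * T ω +
        (A₀ 0 - A ω 0) * (M ω' 0 1 - M ω 0 1) + (A₀ 1 - A ω 1) * (M ω' 1 1 - M ω 1 1) := by
      ring
    have bm : ∀ i, |M ω' i 1 - M ω i 1| ≤ L + L := fun i =>
      (abs_sub _ _).trans (add_le_add (R.bM ω' h' i 1) (R.bM ω h i 1))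
    have bt : |2 * (t ω' - t ω)| ≤ 2 * (B + B) := by
      rw [abs_mul, abs_of_pos (by norm_num : (0 : ℝ) < 2)]
      have := (abs_sub (t ω') (t ω)).trans (add_le_add (R.bt ω' h').1 (R.bt ω h).1)
      linarith
    have t1 := m2_le bt r2
    have t2 := m2_le (a4 0) (bm 0)
    have t3 := m2_le (a4 1) (bm 1)
    have s1 := abs_add_le ((2 * (t ω' - t ω) * T ω + (A ω 0 * (M ω' 0 1 - M ω 0 1) +
          A ω 1 * (M ω' 1 1 - M ω 1 1))) - (2 * (t ω' - t ω)) * T ω +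
        (A₀ 0 - A ω 0) * (M ω' 0 1 - M ω 0 1)) ((A₀ 1 - A ω 1) * (M ω' 1 1 - M ω 1 1))
    have s2 := abs_add_le ((2 * (t ω' - t ω) * T ω + (A ω 0 * (M ω' 0 1 - M ω 0 1) +
          A ω 1 * (M ω' 1 1 - M ω 1 1))) - (2 * (t ω' - t ω)) * T ω)
        ((A₀ 0 - A ω 0) * (M ω' 0 1 - M ω 0 1))
    have s3 := abs_sub (2 * (t ω' - t ω) * T ω + (A ω 0 * (M ω' 0 1 - M ω 0 1) +
          A ω 1 * (M ω' 1 1 - M ω 1 1))) ((2 * (t ω' - t ω)) * T ω)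
    rw [e1]
    linarith

/-- The real number of one sample. -/
theorem num_y {L κ B E E₀ T t y : ℝ} {A A₀ V m₀ m₁ : Fin 2 → ℝ} (hL : 1 ≤ L) (hκ : 0 ≤ κ)
    (hB : 0 ≤ B) (hA : ∀ i, |A i| ≤ L) (hE : |E| ≤ L) (hE₀ : |E₀| ≤ L) (hT : |T| ≤ κ)
    (ht : |t| ≤ B) (hy : |y| ≤ B) (dA : ∀ i, |A₀ i - A i| ≤ κ) (dE : |E₀ - E| ≤ κ)
    (hV : ∀ i, |V i - (m₀ i + E * m₁ i)| ≤ κ) (hm₀ : ∀ i, |m₀ i| ≤ L) (hm₁ : ∀ i, |m₁ i| ≤ L) :
    |(∑ i, A i * V i + T * (y - E * t)) - ∑ i, A₀ i * (m₀ i + E₀ * m₁ i)| ≤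
      (8 * L ^ 2 + 2 * L * B) * κ := by
  have hL0 : 0 ≤ L := by linarith
  have hLL : L ≤ L ^ 2 := by nlinarith
  have e : (∑ i, A i * V i + T * (y - E * t)) - ∑ i, A₀ i * (m₀ i + E₀ * m₁ i) =
      A 0 * (V 0 - (m₀ 0 + E * m₁ 0)) + A 1 * (V 1 - (m₀ 1 + E * m₁ 1)) -
      (A₀ 0 - A 0) * (m₀ 0 + E₀ * m₁ 0) - (A₀ 1 - A 1) * (m₀ 1 + E₀ * m₁ 1) -
      A 0 * ((E₀ - E) * m₁ 0) - A 1 * ((E₀ - E) * m₁ 1) + T * (y - E * t) := by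
    rw [Fin.sum_univ_two, Fin.sum_univ_two]
    ring
  have b : ∀ i, |m₀ i + E₀ * m₁ i| ≤ 2 * L ^ 2 := fun i => by
    have h1 := abs_add_le (m₀ i) (E₀ * m₁ i)
    have h2 := m2_le hE₀ (hm₁ i)
    have h3 := hm₀ i
    nlinarith
  have t1 := m2_le (hA 0) (hV 0)
  have t2 := m2_le (hA 1) (hV 1)
  have t3 := m2_le (dA 0) (b 0)
  have t4 := m2_le (dA 1) (b 1)
  have t5 := m2_le (hA 0) (m2_le dE (hm₁ 0))
  have t6 := m2_le (hA 1) (m2_le dE (hm₁ 1))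
  have t7 : |T * (y - E * t)| ≤ κ * (B + L * B) :=
    m2_le hT ((abs_sub _ _).trans (add_le_add hy (m2_le hE ht)))
  have s1 := abs_add_le (A 0 * (V 0 - (m₀ 0 + E * m₁ 0)) + A 1 * (V 1 - (m₀ 1 + E * m₁ 1)) -
      (A₀ 0 - A 0) * (m₀ 0 + E₀ * m₁ 0) - (A₀ 1 - A 1) * (m₀ 1 + E₀ * m₁ 1) -
      A 0 * ((E₀ - E) * m₁ 0) - A 1 * ((E₀ - E) * m₁ 1)) (T * (y - E * t))
  have s2 := abs_sub (A 0 * (V 0 - (m₀ 0 + E * m₁ 0)) + A 1 * (V 1 - (m₀ 1 + E * m₁ 1)) -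
      (A₀ 0 - A 0) * (m₀ 0 + E₀ * m₁ 0) - (A₀ 1 - A 1) * (m₀ 1 + E₀ * m₁ 1) -
      A 0 * ((E₀ - E) * m₁ 0)) (A 1 * ((E₀ - E) * m₁ 1))
  have s3 := abs_sub (A 0 * (V 0 - (m₀ 0 + E * m₁ 0)) + A 1 * (V 1 - (m₀ 1 + E * m₁ 1)) -
      (A₀ 0 - A 0) * (m₀ 0 + E₀ * m₁ 0) - (A₀ 1 - A 1) * (m₀ 1 + E₀ * m₁ 1))
      (A 0 * ((E₀ - E) * m₁ 0))
  have s4 := abs_sub (A 0 * (V 0 - (m₀ 0 + E * m₁ 0)) + A 1 * (V 1 - (m₀ 1 + E * m₁ 1)) -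
      (A₀ 0 - A 0) * (m₀ 0 + E₀ * m₁ 0)) ((A₀ 1 - A 1) * (m₀ 1 + E₀ * m₁ 1))
  have s5 := abs_sub (A 0 * (V 0 - (m₀ 0 + E * m₁ 0)) + A 1 * (V 1 - (m₀ 1 + E * m₁ 1)))
      ((A₀ 0 - A 0) * (m₀ 0 + E₀ * m₁ 0))
  have s6 := abs_add_le (A 0 * (V 0 - (m₀ 0 + E * m₁ 0))) (A 1 * (V 1 - (m₀ 1 + E * m₁ 1)))
  have q1 : L * κ ≤ L ^ 2 * κ := mul_le_mul_of_nonneg_right hLL hκ
  have q2 : κ * B ≤ L * (κ * B) := le_mul_of_one_le_left (mul_nonneg hκ hB) hL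
  rw [e]
  nlinarith

/-- **One scale.** -/
theorem prs_of (R : PrR p S z z₀ e E t y T A V M s B L K) {Aa s' th x K₁ : ℕ} {cE eH eP : ℝ}
    (hB0 : 0 ≤ B) (hB : B + 1 ≤ Aa) (hs : s' ≤ s) (hth : th ≤ s)
    (hT : ∀ ω, 0 < p ω → |T ω| ≤ K / 2 ^ s)
    (dP : Det p z' (fun ω => (⌊2 ^ th * t ω⌋, ⌊2 ^ th * y ω⌋))) (hK₁ : 1 ≤ K₁)
    (few : CH p (fun ω => ⌊2 ^ s' * bR E t y T A V ω⌋) (fun ω => (e ω, (z ω, cP th t y ω))) ≤ eH)
    (fullT : th * Real.log 2 - eP ≤ CH p (fun ω => cP th t y ω 0) S)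
    (act : NoCov p (fun ω => ⌊2 ^ (th + x) * rfv p z e E (z ω) (e ω)⌋)
      (fun ω => (z' ω, ⌊2 ^ th * rfv p z e E (z ω) (e ω)⌋)) K₁ cE) :
    PrS p S z z' e (rfv p z e E) (rfv p z e A) M (fun ω => ⌊2 ^ s' * bR E t y T A V ω⌋)
      (cP th t y) (fun ω => ⌊2 ^ th * rfv p z e E (z ω) (e ω)⌋)
      (fun ω => ⌊2 ^ (th + x) * rfv p z e E (z ω) (e ω)⌋) Aa s' th x K₁
      (16 * L ^ 2 * (K + 1) * (B + 1)) cE eH eP := by
  have hL := R.hL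
  have hK := R.hK
  have hL0 : 0 ≤ L := by linarith
  have hLL : L ≤ L ^ 2 := by nlinarith
  have h1L : 1 ≤ L ^ 2 := one_le_pow₀ hL
  have hc : (0 : ℝ) < 2 ^ th := by positivity
  have hc1 : (1 : ℝ) ≤ 2 ^ th := one_le_pow₀ (by norm_num)
  have hcs : (2 : ℝ) ^ s' ≤ 2 ^ s := pow_le_pow_right₀ (by norm_num) hs
  have hct : (2 : ℝ) ^ th ≤ 2 ^ s := pow_le_pow_right₀ (by norm_num) hth
  have hKB : 0 ≤ K * B := mul_nonneg hK hB0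
  have kth : K / 2 ^ s ≤ K / 2 ^ th := div_le_div_of_nonneg_left hK hc hct
  refine
    { dP := ?_
      hA := ?_
      hK := by positivity
      hK₁ := hK₁
      bP := ?_
      cth := ?_
      cey := ?_
      num := ?_
      few := few
      fullT := fullT
      act := act
      mov := ?_ }
  · intro ω ω' h h' hz
    have h1 := dP ω ω' h h' hz
    funext j
    unfold Pool.D2N.cP
    have h2 := congrArg Prod.fst h1
    have h3 := congrArg Prod.snd h1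
    dsimp only at h2 h3
    rw [h2, h3]
  · have : (1 : ℝ) ≤ Aa := by linarith
    exact_mod_cast this
  · intro ω hω j
    have h1 : ∀ x : ℝ, |x| ≤ B → |⌊2 ^ th * x⌋| ≤ ((Aa * 2 ^ th : ℕ) : ℤ) := by
      intro x hx
      have h2 := flr1 (2 ^ th * x)
      have h3 : |((⌊2 ^ th * x⌋ : ℤ) : ℝ)| ≤ 1 + 2 ^ th * B := by
        have h4 : |2 ^ th * x| ≤ 2 ^ th * B := by
          rw [abs_mul, abs_of_pos hc]
          exact mul_le_mul_of_nonneg_left hx hc.le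
        have h5 := abs_add_le (((⌊2 ^ th * x⌋ : ℤ) : ℝ) - 2 ^ th * x) (2 ^ th * x)
        rw [sub_add_cancel] at h5
        linarith
      have h6 : |((⌊2 ^ th * x⌋ : ℤ) : ℝ)| ≤ ((Aa * 2 ^ th : ℕ) : ℝ) := by
        push_cast
        nlinarith
      exact_mod_cast h6
    unfold Pool.D2N.cP
    split_ifs
    · exact h1 _ (R.bt ω hω).1
    · exact h1 _ (R.bt ω hω).2
  · intro ω _
    rw [abs_sub_comm]
    exact flr1 _
  · intro ω _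
    rw [abs_sub_comm]
    exact flr1 _
  · intro ω hω
    obtain ⟨a1, a2, a3, a4⟩ := rfv_three R hω
    have h1 := num_y hL (by positivity : 0 ≤ K / 2 ^ s) hB0 (R.bA ω hω) (R.bE ω hω) a1 (hT ω hω)
      (R.bt ω hω).1 (R.bt ω hω).2 a4 a3 (R.vV ω hω) (fun i => R.bM ω hω i 0)
      (fun i => R.bM ω hω i 1)
    have h2 : (8 * L ^ 2 + 2 * L * B) * (K / 2 ^ s) ≤ (8 * L ^ 2 + 2 * L * B) * (K / 2 ^ s') :=
      mul_le_mul_of_nonneg_left (div_le_div_of_nonneg_left hK (by positivity) hcs)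
        (by positivity)
    have h3 : |(⌊2 ^ s' * bR E t y T A V ω⌋ : ℝ) / 2 ^ s' - bR E t y T A V ω| ≤ 1 / 2 ^ s' := by
      have h4 := flr1 (2 ^ s' * bR E t y T A V ω)
      have h5 : (⌊2 ^ s' * bR E t y T A V ω⌋ : ℝ) / 2 ^ s' - bR E t y T A V ω =
          ((⌊2 ^ s' * bR E t y T A V ω⌋ : ℝ) - 2 ^ s' * bR E t y T A V ω) / 2 ^ s' := by
        field_simp
      rw [h5, abs_div, abs_of_pos (by positivity : (0 : ℝ) < 2 ^ s')]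
      exact div_le_div_of_nonneg_right h4 (by positivity)
    have h6 : (⌊2 ^ s' * bR E t y T A V ω⌋ : ℝ) / 2 ^ s' -
        ∑ i, rfv p z e A (z ω) (e ω) i * (M ω i 0 + rfv p z e E (z ω) (e ω) * M ω i 1) =
        ((⌊2 ^ s' * bR E t y T A V ω⌋ : ℝ) / 2 ^ s' - bR E t y T A V ω) +
        ((∑ i, A ω i * V ω i + T ω * (y ω - E ω * t ω)) -
        ∑ i, rfv p z e A (z ω) (e ω) i * (M ω i 0 + rfv p z e E (z ω) (e ω) * M ω i 1)) := by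
      unfold bR
      ring
    rw [h6]
    refine (abs_add_le _ _).trans ((add_le_add h3 (h1.trans h2)).trans ?_)
    have h7 : 1 / 2 ^ s' + (8 * L ^ 2 + 2 * L * B) * (K / 2 ^ s') =
        (1 + (8 * L ^ 2 + 2 * L * B) * K) / 2 ^ s' := by ring
    rw [h7]
    refine div_le_div_of_nonneg_right ?_ (by positivity)
    have q1 : L * (K * B) ≤ L ^ 2 * (K * B) := mul_le_mul_of_nonneg_right hLL hKB
    have q2 : 0 ≤ L ^ 2 * K := by positivity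
    have q3 : 0 ≤ L ^ 2 * B := by positivity
    nlinarith
  · intro ω ω' h h' hS
    obtain ⟨a1, a2, a3, a4⟩ := rfv_three R h
    exact mov_le hc hL hK hB0 a1 (R.bt ω h).1 (R.bt ω' h').1 (a3.trans kth)
      ((R.mov ω ω' h h' hS).trans kth) (cP_flr0 _) (cP_flr0 _) (cP_flr1 _) (cP_flr1 _)

end Pool.KPO
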