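import Pool.Agent.H31.D2.Ry1
import Pool.Agent.H90.D2.Hcq

/-!
# The tie cell `(1,k,k;k+1)`, `k > 2`: one law of real data

`kil_y`: the covectors kill the difference of the slopes. `hop_one_y`: one law.
-/

set_option autoImplicit false

namespace Pool.KPO

open Finset Real MvPolynomial
open Pool.Agent.H49.Ent Pool.Agent.H32.Dense Pool.STK Pool.KA Pool.KSAT Pool.K2S Pool.PB Pool.S6C
open Pool.GEN Pool.CHT Pool.CHX Pool.LA91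
open Pool.LBT (ThrOf)
open Pool.D2F Pool.D2Z Pool.D2F2
open Pool.D2R (dd hs co)
open Pool.OWN68 (opl tw uw mid dirv natDegree_opl opl_jet uw_abs)
open Pool.KM7 (P2 P2_isLaw P2_pos)
open Pool.D2A Pool.D2T Pool.D2N
open Pool.F5 (VDat Kil dt dz)

variable {m J : ℕ}

variable {F : Fam m J} {c : ℕ → Fin m} {g g' : ℕ → ℕ} {W n D a' k k' e₀ e₁ n' s V : ℕ}
  {ψ ψ' γ : PtT F → ℕ → Option (Fin m) → ℝ} {ψH ψH' : LnT F → ℕ → Option (Fin m) → ℝ}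
  {Ht : LnT F → MvPolynomial (Option (Fin m)) ℝ} {B : F.Ω → Prop} {ζ ζ' ε : Type}
  {z : LnT F → ζ} {e : LnT F → ε} {f : PtT F → ζ'} {δ δ₁ δ' Kn L K B₀ : ℝ}

/-- **The covectors kill the difference of the slopes.** -/
theorem kil_y {al : ζ' → Fin 2 → ℝ} {r : ℝ} {x : F.Ω × F.Ω}
    (h : ∀ j, |∑ i, al (f (ptr F J x.1)) i * (Mn F c g W ψ ψ' x.2 i j -
        Mn F c g W ψ ψ' x.1 i j)| ≤ r ∧
      |∑ i, al (f (ptr F J x.2)) i * (Mn F c g W ψ ψ' x.2 i j -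
        Mn F c g W ψ ψ' x.1 i j)| ≤ r) :
    Kil F (fun y => Ms c g W (ψ y) (ψ' y) 0) (fun y => Ms c g W (ψ y) (ψ' y) 1)
      (fun y => al (f y)) r x.1 x.2 := by
  have key : ∀ w : ζ', |∑ i, al w i * (Mn F c g W ψ ψ' x.2 i 1 -
      Mn F c g W ψ ψ' x.1 i 1)| ≤ r →
      |dt (al w) (dz (fun y => Ms c g W (ψ y) (ψ' y) 0) (fun y => Ms c g W (ψ y) (ψ' y) 1)
        (ptr F J x.1) (ptr F J x.2))| ≤ r := by
    intro w hw
    rw [Fin.sum_univ_two] at hw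
    exact hw
  exact ⟨key _ (h 1).1, key _ (h 1).2⟩

/-- **One law.** Two scales. -/
theorem hop_one_y
    (H : ReH F c g g' W n D a' k k' e₀ e₁ n' s V ψ ψ' ψH ψH' Ht B z e δ δ₁ δ' Kn L K B₀)
    {p : F.Ω → ℝ} (hp : IsLaw p) (hB : ∀ ω, 0 < p ω → B ω)
    (hT : ∀ ω, B ω → |Tn F c g W n ψH Ht ω| ≤ K / 2 ^ s)
    (dt₀ : Det p (fun ω => ptr F J ω) (fun ω => (⌊2 ^ s * tn F W ω⌋,
      ⌊2 ^ s * yr F c g W ψ p z ω⌋)))
    (dz : Det p (fun ω => f (ptr F J ω)) (fun ω => z (slam F W ω)))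
    (dM : Det p (fun ω => f (ptr F J ω)) (Mn F c g W ψ ψ'))
    {Aa l xA kk y v K₀ K₁ s₁ th₁ x₁ th₂ x₂ : ℕ} {eF eH eP cE : ℝ}
    (hcE : 0 ≤ cE)
    (dP₁ : Det p (fun ω => f (ptr F J ω)) (fun ω => (⌊2 ^ th₁ * tn F W ω⌋,
      ⌊2 ^ th₁ * yr F c g W ψ p z ω⌋)))
    (dP₂ : Det p (fun ω => f (ptr F J ω)) (fun ω => (⌊2 ^ th₂ * tn F W ω⌋,
      ⌊2 ^ th₂ * yr F c g W ψ p z ω⌋)))
    (few₁ : CH p (fun ω => ⌊2 ^ s₁ * bR (En F c g W ψ) (tn F W) (yr F c g W ψ p z)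
      (Tn F c g W n ψH Ht) (An F c g W n ψH Ht) (Vn F c g W ψ) ω⌋)
      (fun ω => (e (slam F W ω), (z (slam F W ω),
        Pool.D2N.cP th₁ (tn F W) (yr F c g W ψ p z) ω))) ≤ eH)
    (few₂ : CH p (fun ω => ⌊2 ^ s * bR (En F c g W ψ) (tn F W) (yr F c g W ψ p z)
      (Tn F c g W n ψH Ht) (An F c g W n ψH Ht) (Vn F c g W ψ) ω⌋)
      (fun ω => (e (slam F W ω), (z (slam F W ω),
        Pool.D2N.cP th₂ (tn F W) (yr F c g W ψ p z) ω))) ≤ eH)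
    (free : CH p (fun ω => e (slam F W ω)) (fun ω => z (slam F W ω)) ≤
      CH p (fun ω => e (slam F W ω)) (fun ω => f (ptr F J ω)) + eF)
    (fullT₁ : th₁ * Real.log 2 - eP ≤ CH p (fun ω => Pool.D2N.cP th₁ (tn F W)
      (yr F c g W ψ p z) ω 0) (slam F W))
    (fullT₂ : th₂ * Real.log 2 - eP ≤ CH p (fun ω => Pool.D2N.cP th₂ (tn F W)
      (yr F c g W ψ p z) ω 0) (slam F W))
    (rate : NoCov p (fun ω => ⌊2 ^ kk * rfv p (fun ω => z (slam F W ω))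
      (fun ω => e (slam F W ω)) (En F c g W ψ) (z (slam F W ω)) (e (slam F W ω))⌋)
      (fun ω => f (ptr F J ω)) K₀ cE)
    (act₁ : NoCov p (fun ω => ⌊2 ^ (th₁ + x₁) * rfv p (fun ω => z (slam F W ω))
      (fun ω => e (slam F W ω)) (En F c g W ψ) (z (slam F W ω)) (e (slam F W ω))⌋)
      (fun ω => (f (ptr F J ω), ⌊2 ^ th₁ * rfv p (fun ω => z (slam F W ω))
        (fun ω => e (slam F W ω)) (En F c g W ψ) (z (slam F W ω)) (e (slam F W ω))⌋)) K₁ cE)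
    (act₂ : NoCov p (fun ω => ⌊2 ^ (th₂ + x₂) * rfv p (fun ω => z (slam F W ω))
      (fun ω => e (slam F W ω)) (En F c g W ψ) (z (slam F W ω)) (e (slam F W ω))⌋)
      (fun ω => (f (ptr F J ω), ⌊2 ^ th₂ * rfv p (fun ω => z (slam F W ω))
        (fun ω => e (slam F W ω)) (En F c g W ψ) (z (slam F W ω)) (e (slam F W ω))⌋)) K₁ cE)
    (hA : B₀ + 1 ≤ Aa) (hK₀ : 1 ≤ K₀) (hK₁ : 1 ≤ K₁) (hL2 : L ≤ 2 ^ l)
    (hK2 : 16 * L ^ 2 * (K + 1) * (B₀ + 1) ≤ 2 ^ v) (hv : 2 * l + xA + y + kk + 10 ≤ v)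
    (hs₁ : th₁ + x₁ + 200 * v ≤ s₁) (hs₂ : th₂ + x₂ + th₁ + x₁ + 400 * v ≤ s) (hss : s₁ ≤ s)
    (hn₀ : 1024 * (10 * eF + Real.log 2) + Real.log 9 < (1 - 1024 * cE) * Real.log K₀)
    (hn : 1024 * (iY Aa (16 * L ^ 2 * (K + 1) * (B₀ + 1)) eF eH eP + Real.log 2) +
      Real.log 5 < (1 - 1024 * cE) * Real.log K₁)
    (heF : 0 ≤ eF)
    (h0 : law p (fun ω => ∀ i, |rfv p (fun ω => z (slam F W ω)) (fun ω => e (slam F W ω))
      (An F c g W n ψH Ht) (z (slam F W ω)) (e (slam F W ω)) i| < 1 / 2 ^ xA) True ≤ 1 / 512) :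
    ∃ al : ζ' → Fin 2 → ℝ, (∀ w, (∀ i, |al w i| ≤ L) ∧ ∃ i, 1 / 2 ^ xA / 2 ≤ |al w i|) ∧
      1 / 2 ^ 34 ≤ Pe (P2 p (slam F W)) (fun v => Kil F (fun y => Ms c g W (ψ y) (ψ' y) 0)
        (fun y => Ms c g W (ψ y) (ψ' y) 1) (fun y => al (f y)) (1 / 2 ^ y) v.1 v.2) := by
  have hB₀ := H.hB₀
  have hL1 := H.hL
  have hK1 := H.hK
  have hB0 : 0 ≤ B₀ := by linarith
  have R := prr_of (f := fun y => y) (z := z) (e := e) H hp hB (fun ω ω' _ _ h => by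
      have h1 : slam F W ω = slam F W ω' → z (slam F W ω) = z (slam F W ω') := fun h => by rw [h]
      exact dz ω ω' ‹_› ‹_› (by
        show f (ptr F J ω) = f (ptr F J ω')
        rw [show ptr F J ω = ptr F J ω' from h])) dt₀ (fun ω ω' h1 h2 h => dM ω ω' h1 h2 (by
        show f (ptr F J ω) = f (ptr F J ω')
        rw [show ptr F J ω = ptr F J ω' from h]))
  have hT' : ∀ ω, 0 < p ω → |Tn F c g W n ψH Ht ω| ≤ K / 2 ^ s := fun ω hω => hT ω (hB ω hω)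
  have C := prc_of R (kk := kk) (K₀ := K₀) (cE := cE) (eF := eF) hB0 hT' dz dM hK₀ hcE free rate
  have D₁ := prs_of R (Aa := Aa) (s' := s₁) (th := th₁) (x := x₁) (K₁ := K₁) (cE := cE) (eH := eH)
    (eP := eP) hB0 hA hss (by omega) hT' dP₁ hK₁ few₁ fullT₁ act₁
  have D₂ := prs_of R (Aa := Aa) (s' := s) (th := th₂) (x := x₂) (K₁ := K₁) (cE := cE) (eH := eH)
    (eP := eP) hB0 hA le_rfl (by omega) hT' dP₂ hK₁ few₂ fullT₂ act₂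
  have hκ : 3 * L * (5 * (L + B₀) * (K / 2 ^ s)) ≤
      16 * L ^ 2 * (K + 1) * (B₀ + 1) / 2 ^ s := by
    have h1 : 3 * L * (5 * (L + B₀) * (K / 2 ^ s)) = 15 * L * (L + B₀) * K / 2 ^ s := by ring
    rw [h1]
    refine div_le_div_of_nonneg_right ?_ (by positivity)
    have hLL : L ≤ L ^ 2 := by nlinarith
    have h2 : L * (L + B₀) ≤ L ^ 2 * (B₀ + 1) := by
      have := mul_le_mul_of_nonneg_right hLL hB0
      nlinarith
    have h3 : L * (L + B₀) * K ≤ L ^ 2 * (B₀ + 1) * (K + 1) :=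
      mul_le_mul h2 (by linarith) (by linarith) (by positivity)
    have h4 : 0 ≤ L ^ 2 * (B₀ + 1) * (K + 1) := by positivity
    nlinarith
  obtain ⟨al, h1, h2⟩ := c6_y C D₁ D₂ hL2 hK2 hv hκ hs₁ hs₂ hss hn₀ hn heF h0
  refine ⟨al, h1, h2.trans ?_⟩
  exact Pe_mono (P2_isLaw hp (slam F W)) fun v hv => kil_y hv

end Pool.KPO
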