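import Pool.Agent.H31.D2.Ry2

/-!
# The tie cell `(1,k,k;k+1)`, `k > 2`: the class end

`hop_end_y`: as `hop_end_q`; two scales `(s₁, th₁)`, `(s, th₂)`; the numbers are few given the own
data, the record and the digits of the position; the digits `th .. th + x` of the own velocity are
active at both scales.
-/

set_option autoImplicit false

namespace Pool.KPO

open Finset Real MvPolynomial
open Pool.Agent.H49.Ent Pool.Agent.H32.Dense Pool.STK Pool.KA Pool.KSAT Pool.K2S Pool.PB Pool.S6C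
open Pool.GEN Pool.CHT Pool.CHX Pool.LA91
open Pool.LBT (ThrOf)
open Pool.D2F Pool.D2Z Pool.D2F2
open Pool.D2R (dd hs co)
open Pool.OWN68 (opl tw uw mid dirv natDegree_opl opl_jet uw_abs)
open Pool.KM7 (P2 P2_isLaw P2_pos)
open Pool.D2A Pool.D2T Pool.D2N
open Pool.F5 (VDat Kil dt dz)

variable {m J : ℕ}

/-- The logarithms of the constants. -/
theorem lgY_num {K L B₀ t : ℝ} (ht : 0 ≤ t) (hK1 : 1 ≤ K) (hL1 : 1 ≤ L) (hB1 : 1 ≤ B₀)
    (hK : K ≤ Real.exp t) (hL : L ≤ Real.exp t) (hB : B₀ ≤ Real.exp t) :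
    Real.log (2 * (⌈B₀⌉₊ + 1 : ℕ) + 1) + Real.log (2 * (⌈16 * L ^ 2 * (K + 1) * (B₀ + 1)⌉₊ +
      2 * (⌈B₀⌉₊ + 1)) + 2 : ℕ) ≤ 5 * t + 8 := by
  obtain ⟨E, hE⟩ : ∃ E, E = Real.exp t := ⟨_, rfl⟩
  rw [← hE] at hK hL hB
  have hE1 : 1 ≤ E := hK1.trans hK
  have h0 : 0 ≤ 16 * L ^ 2 * (K + 1) * (B₀ + 1) := by positivity
  have h1 := (Nat.ceil_lt_add_one h0).le
  have h2 := (Nat.ceil_lt_add_one (by linarith : 0 ≤ B₀)).le
  have e2 : (2.7 : ℝ) ≤ Real.exp 1 := by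
    have := Real.exp_one_gt_d9
    linarith
  have e3 : ∀ n : ℕ, (2.7 : ℝ) ^ n ≤ Real.exp n := fun n => by
    have h3 : Real.exp n = Real.exp 1 ^ n := by
      rw [← Real.exp_nat_mul, mul_one]
    rw [h3]
    exact pow_le_pow_left₀ (by norm_num) e2 n
  have hLL : L ^ 2 ≤ E ^ 2 := pow_le_pow_left₀ (by linarith) hL 2
  have hEE : E ≤ E ^ 4 := le_self_pow₀ hE1 (by norm_num)
  have hE4 : 1 ≤ E ^ 4 := one_le_pow₀ hE1
  have b1 : (2 * (⌈B₀⌉₊ + 1 : ℕ) + 1 : ℝ) ≤ 7 * E := by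
    push_cast
    linarith
  have b2 : ((2 * (⌈16 * L ^ 2 * (K + 1) * (B₀ + 1)⌉₊ + 2 * (⌈B₀⌉₊ + 1)) + 2 : ℕ) : ℝ) ≤
      144 * E ^ 4 := by
    have h3 : 16 * L ^ 2 * (K + 1) * (B₀ + 1) ≤ 16 * E ^ 2 * (2 * E) * (2 * E) :=
      mul_le_mul (mul_le_mul (by linarith) (by linarith) (by linarith) (by positivity))
        (by linarith) (by linarith) (by positivity)
    have h4 : 16 * E ^ 2 * (2 * E) * (2 * E) = 64 * E ^ 4 := by ring
    rw [h4] at h3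
    push_cast
    linarith
  have c1 : Real.log (2 * (⌈B₀⌉₊ + 1 : ℕ) + 1) ≤ t + 2 := by
    rw [Real.log_le_iff_le_exp (by positivity), Real.exp_add, ← hE]
    have h7 : (7 : ℝ) ≤ Real.exp 2 := by
      have := e3 2
      norm_num at this ⊢
      linarith
    have h8 := mul_le_mul_of_nonneg_left h7 (by linarith : (0 : ℝ) ≤ E)
    linarith
  have c2 : Real.log (2 * (⌈16 * L ^ 2 * (K + 1) * (B₀ + 1)⌉₊ +
      2 * (⌈B₀⌉₊ + 1)) + 2 : ℕ) ≤ 4 * t + 6 := by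
    rw [Real.log_le_iff_le_exp (by positivity), Real.exp_add]
    have e4 : Real.exp (4 * t) = E ^ 4 := by
      rw [hE, ← Real.exp_nat_mul]
      norm_num
    rw [e4]
    have h7 : (144 : ℝ) ≤ Real.exp 6 := by
      have := e3 6
      norm_num at this ⊢
      linarith
    have h8 := mul_le_mul_of_nonneg_left h7 (by positivity : (0 : ℝ) ≤ E ^ 4)
    linarith
  linarith

/-- The entropies. -/
theorem entY_num {ε δ₁ eF iG lK : ℝ} {J : ℕ} (hε0 : 0 < ε) (hJ' : 2 ^ 50 ≤ δ₁ * J)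
    (hε' : ε ≤ δ₁ / 2 ^ 46) (hF : eF = ε * J) (hG : iG ≤ 26 * (ε * J) + 8)
    (hK : δ₁ * J / 2 - 1 ≤ lK) :
    1024 * (10 * eF + Real.log 2) + Real.log 9 < (1 - 1024 * (1 / 2 ^ 39)) * lK ∧
      1024 * (iG + Real.log 2) + Real.log 5 < (1 - 1024 * (1 / 2 ^ 39)) * lK := by
  have hJ0 : (0 : ℝ) ≤ J := Nat.cast_nonneg _
  have h1 : ε * J ≤ δ₁ / 2 ^ 46 * J := mul_le_mul_of_nonneg_right hε' hJ0
  have h2 : ε * J ≤ δ₁ * J / 2 ^ 46 := h1.trans (le_of_eq (by ring))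
  have l2 : Real.log 2 ≤ 1 := by
    have := Real.log_two_lt_d9
    linarith
  have l9 : Real.log 9 ≤ 8 := by
    have := Real.log_le_sub_one_of_pos (show (0 : ℝ) < 9 by norm_num)
    linarith
  have l5 : Real.log 5 ≤ 4 := by
    have := Real.log_le_sub_one_of_pos (show (0 : ℝ) < 5 by norm_num)
    linarith
  have hε1 : 0 ≤ ε * J := by positivity
  obtain ⟨X, hX⟩ : ∃ X, X = δ₁ * J := ⟨_, rfl⟩
  rw [← hX] at hJ' h2 hK
  have hX0 : 0 < X := lt_of_lt_of_le (by positivity) hJ'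
  have k1 : (1 : ℝ) / 4 * X ≤ (1 - 1024 * (1 / 2 ^ 39)) * lK := by
    have h3 : (3 : ℝ) / 4 ≤ 1 - 1024 * (1 / 2 ^ 39) := by norm_num
    have h4 : 0 ≤ lK := by
      norm_num at hJ'
      linarith
    have h5 := mul_le_mul_of_nonneg_right h3 h4
    norm_num at hJ'
    linarith
  constructor
  · refine lt_of_lt_of_le ?_ k1
    rw [hF]
    norm_num at hJ' h2
    linarith
  · refine lt_of_lt_of_le ?_ k1
    norm_num at hJ' h2
    linarith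

/-- **The class end of the tie cell**, `k > 2`. -/
theorem hop_end_y {σ ρ ε : ℝ} (hσ : 0 < σ) (hρ : 0 < ρ) (hε0 : 0 < ε) (hε : ε ≤ epH σ ρ) :
    ∀ {m D : ℕ} {θc : ℝ}
    {S : PCl m} {P : List (Fin m) × Fin m → ℝ → ℝ → ℝ} (_ : ThrOf (chsys m θc) S P) (_ : TmH S)
    (c : ℕ → Fin m) (_ : Set.InjOn c (Set.Iio 4)) (a : ℚ) (er c₁ : ℝ) (_ : 0 ≤ a) (_ : a < 1)
    (_ : er < θc * a) (_ : ∀ j < 4, bet P c j a a + σ ≤ 1) (_ : 0 < c₁),
    Bas S (fun J F A => ∀ (n a₀ a' k k' e₀ e₁ n' s V s₁ th₁ x₁ th₂ x₂ : ℕ) (g g' : ℕ → ℕ)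
      (ψ ψ' γ : PtT F → ℕ → Option (Fin m) → ℝ) (ψH ψH' : LnT F → ℕ → Option (Fin m) → ℝ)
      (Ht : LnT F → MvPolynomial (Option (Fin m)) ℝ) (B : F.Ω → Prop) (ζ ζ' εt : Type)
      (z : LnT F → ζ) (e : LnT F → εt) (f : PtT F → ζ') (δ δ₁ δ' δt Kn L K B₀ : ℝ),
      (∀ s, (Ht s).totalDegree ≤ D) →
      a₀ ≤ J → a₀ ≤ ⌊(a : ℝ) * J⌋₊ → σ * J ≤ s → (∀ l < 3, s ≤ g l) →
      (∀ j < 4, e₀ + g j + s ≤ J) →
      (∀ j < 4, bet P c j a a * J + a₀ ≤ g j + a * J + ε * J) → e₀ + σ * J ≤ er * J →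
      (k : ℝ) ≤ ε * J → L ≤ Real.exp (ε * J) → K ≤ Real.exp (ε * J) → B₀ ≤ Real.exp (ε * J) →
      δt ≤ K / 2 ^ s → Sub B A → c₁ * Pe F.p A ≤ Pe F.p B →
      -- the scales
      th₁ + x₁ + σ * J ≤ s₁ → th₂ + x₂ + (th₁ + x₁) + σ * J ≤ s → s₁ ≤ s →
      (∀ G : F.Ω → Prop, Sub G B → Pe F.p B ≤ 2 ^ 40 * Pe F.p G → ρ * J ≤
        CH (cond F.p G True) (fun ω => F.D ⌊σ / 10 ^ 7 * J⌋₊ ω (c 0)) (fun ω => ptr F J ω)) →
      ReH F c g g' a₀ n D a' k k' e₀ e₁ n' s V ψ ψ' ψH ψH' Ht B z e δ δ₁ δ' Kn L K B₀ →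
      TgH F c g a₀ n k e₀ ψ γ ψH Ht B δt →
      (∀ ω, B ω → |Tn F c g a₀ n ψH Ht ω| ≤ K / 2 ^ s) →
      Det (cond F.p B True) (fun ω => ptr F J ω) (fun ω => (⌊2 ^ s * tn F a₀ ω⌋,
        ⌊2 ^ s * yr F c g a₀ ψ (cond F.p B True) z ω⌋)) →
      Det (cond F.p B True) (fun ω => f (ptr F J ω)) (fun ω => z (slam F a₀ ω)) →
      Det (cond F.p B True) (fun ω => f (ptr F J ω)) (Mn F c g a₀ ψ ψ') →
      Det (cond F.p B True) (fun ω => f (ptr F J ω)) (fun ω => (⌊2 ^ th₁ * tn F a₀ ω⌋,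
        ⌊2 ^ th₁ * yr F c g a₀ ψ (cond F.p B True) z ω⌋)) →
      Det (cond F.p B True) (fun ω => f (ptr F J ω)) (fun ω => (⌊2 ^ th₂ * tn F a₀ ω⌋,
        ⌊2 ^ th₂ * yr F c g a₀ ψ (cond F.p B True) z ω⌋)) →
      CH (cond F.p B True) (fun ω => ⌊2 ^ s₁ * bR (En F c g a₀ ψ) (tn F a₀)
          (yr F c g a₀ ψ (cond F.p B True) z) (Tn F c g a₀ n ψH Ht) (An F c g a₀ n ψH Ht)
          (Vn F c g a₀ ψ) ω⌋)
        (fun ω => (e (slam F a₀ ω), (z (slam F a₀ ω),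
          Pool.D2N.cP th₁ (tn F a₀) (yr F c g a₀ ψ (cond F.p B True) z) ω))) ≤ ε * J →
      CH (cond F.p B True) (fun ω => ⌊2 ^ s * bR (En F c g a₀ ψ) (tn F a₀)
          (yr F c g a₀ ψ (cond F.p B True) z) (Tn F c g a₀ n ψH Ht) (An F c g a₀ n ψH Ht)
          (Vn F c g a₀ ψ) ω⌋)
        (fun ω => (e (slam F a₀ ω), (z (slam F a₀ ω),
          Pool.D2N.cP th₂ (tn F a₀) (yr F c g a₀ ψ (cond F.p B True) z) ω))) ≤ ε * J →
      CH (cond F.p B True) (fun ω => e (slam F a₀ ω)) (fun ω => z (slam F a₀ ω)) ≤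
        CH (cond F.p B True) (fun ω => e (slam F a₀ ω)) (fun ω => f (ptr F J ω)) + ε * J →
      th₁ * Real.log 2 - ε * J ≤ CH (cond F.p B True) (fun ω => Pool.D2N.cP th₁ (tn F a₀)
        (yr F c g a₀ ψ (cond F.p B True) z) ω 0) (slam F a₀) →
      th₂ * Real.log 2 - ε * J ≤ CH (cond F.p B True) (fun ω => Pool.D2N.cP th₂ (tn F a₀)
        (yr F c g a₀ ψ (cond F.p B True) z) ω 0) (slam F a₀) →
      NoCov (cond F.p B True) (fun ω => ⌊2 ^ (th₁ + x₁) * rfv (cond F.p B True)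
          (fun ω => z (slam F a₀ ω)) (fun ω => e (slam F a₀ ω)) (En F c g a₀ ψ)
          (z (slam F a₀ ω)) (e (slam F a₀ ω))⌋)
        (fun ω => (f (ptr F J ω), ⌊2 ^ th₁ * rfv (cond F.p B True)
          (fun ω => z (slam F a₀ ω)) (fun ω => e (slam F a₀ ω)) (En F c g a₀ ψ)
          (z (slam F a₀ ω)) (e (slam F a₀ ω))⌋)) ⌊Real.exp (ρ * J / 2)⌋₊ (1 / 2 ^ 39) →
      NoCov (cond F.p B True) (fun ω => ⌊2 ^ (th₂ + x₂) * rfv (cond F.p B True)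
          (fun ω => z (slam F a₀ ω)) (fun ω => e (slam F a₀ ω)) (En F c g a₀ ψ)
          (z (slam F a₀ ω)) (e (slam F a₀ ω))⌋)
        (fun ω => (f (ptr F J ω), ⌊2 ^ th₂ * rfv (cond F.p B True)
          (fun ω => z (slam F a₀ ω)) (fun ω => e (slam F a₀ ω)) (En F c g a₀ ψ)
          (z (slam F a₀ ω)) (e (slam F a₀ ω))⌋)) ⌊Real.exp (ρ * J / 2)⌋₊ (1 / 2 ^ 39) →
      False) := by
  obtain ⟨υ, hυ⟩ : ∃ υ, υ = σ / 10 ^ 7 := ⟨_, rfl⟩
  have hυ0 : 0 < υ := by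
    rw [hυ]
    positivity
  have ε1 : ε ≤ υ / 2 ^ 44 := by
    rw [hυ]
    exact hε.trans (min_le_left _ _)
  have ε2 : ε ≤ ρ / 2 ^ 46 := hε.trans (min_le_right _ _)
  intro m D θc S P hP hT c hc a er c₁ ha0 ha he hb hc₁
  have υ3 : υ ≤ σ := by
    rw [hυ]
    exact div_le_self hσ.le (by norm_num)
  have hυ2 : 0 < υ / 2 := by positivity
  have hb' : ∀ j < 4, bet P c j a a + υ / 2 ≤ 1 := fun j hj => by
    have := hb j hj
    linarith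
  have hc3 : Set.InjOn c (Set.Iio 3) := hc.mono (Set.Iio_subset_Iio (by norm_num))
  have hb1 := hb' 1 (by norm_num)
  have hb2 := hb' 2 (by norm_num)
  have hb3 := hb' 3 (by norm_num)
  obtain ⟨δb, hδb, B2⟩ := Pool.F5.kil_cls hP c hc3 a er (υ / 2) ha0 ha.le he hυ2 hb1 hb2
  have B3 := flat_cls hP hT c 3 D hc a er (υ / 2) (υ / 2) (c₁ / 512) ha0 ha he hυ2 hb3 hυ2
    (by positivity)
  have B4 : Bas S (fun J F A => 0 < Pe F.p A) :=
    ⟨1, one_pos, 0, fun J _ F A h => hT.1 _ _ _ _ h⟩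
  obtain ⟨J₁, hJ₁⟩ := exists_nat_ge (2 ^ 50 / υ)
  obtain ⟨J₂, hJ₂⟩ := exists_nat_ge (2 ^ 50 / ρ)
  obtain ⟨J₄, hJ₄⟩ := Pool.F5.exp_small hδb (K := c₁ / 2 ^ 36) (by positivity)
  refine Bas.mono (J₁ + J₂ + J₄) ((B2.and B3).and B4) ?_
  rintro J hJ F A ⟨⟨A2, A3⟩, A4⟩ n a₀ a' k k' e₀ e₁ n' s V s₁ th₁ x₁ th₂ x₂ g g' ψ ψ' γ ψH ψH' Ht B
    ζ ζ' εt z e f δ δ₁ δ' δt Kn L K B₀ hD haJ haa hs hsg hgJ hlev he₀ hk hL hK hB₀ hδt hBA hBc
    sc₁ sc₂ sc₃ act H Tg hTn dt₀ dz dM dP₁ dP₂ few₁ few₂ free fullT₁ fullT₂ act₁ act₂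
  have hJ0 : (0 : ℝ) ≤ J := Nat.cast_nonneg _
  have j1 : 2 ^ 50 ≤ υ * J := by
    have h1 : 2 ^ 50 / υ ≤ J := hJ₁.trans (by exact_mod_cast (by omega))
    rw [div_le_iff₀ hυ0] at h1
    linarith
  have j2 : 2 ^ 50 ≤ ρ * J := by
    have h1 : 2 ^ 50 / ρ ≤ J := hJ₂.trans (by exact_mod_cast (by omega))
    rw [div_le_iff₀ hρ] at h1
    linarith
  have j4 := hJ₄ J (by omega)
  obtain ⟨u, hu⟩ : ∃ u, u = ⌊υ * J⌋₊ := ⟨_, rfl⟩
  obtain ⟨l, hl⟩ : ∃ l, l = ⌊υ * J / 2 ^ 38⌋₊ := ⟨_, rfl⟩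
  obtain ⟨n1, n2, n3, n4, n5, n7⟩ := unit_num_q hu hl j1 hυ hε0 ε1 hs he₀ hk
  have u1 : υ * J - 1 < u := by
    rw [hu]
    exact Nat.sub_one_lt_floor _
  have u2 : (u : ℝ) ≤ υ * J := by
    rw [hu]
    exact Nat.floor_le (le_trans (by norm_num) j1)
  have l1 : υ * J / 2 ^ 38 - 1 < l := by
    rw [hl]
    exact Nat.sub_one_lt_floor _
  have hX : (4096 : ℝ) ≤ υ * J / 2 ^ 38 := by
    rw [le_div_iff₀ (by positivity)]
    exact le_trans (by norm_num) j1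
  have hεX : ε * J ≤ υ * J / 2 ^ 38 / 32 := by
    have h3 : ε * J ≤ υ / 2 ^ 44 * J := mul_le_mul_of_nonneg_right ε1 hJ0
    have h4 : (0 : ℝ) ≤ υ * J := le_trans (by norm_num) j1
    norm_num at h3 ⊢
    linarith
  have hexp := Real.exp_le_exp.2 hεX
  obtain ⟨s1, s2, s3, s4, s5⟩ := size_num H.hL H.hK H.hB₀ hX l1 (hL.trans hexp) (hK.trans hexp)
    (hB₀.trans hexp)
  have hlu : (2 : ℝ) ^ l ≤ 2 ^ u := pow_le_pow_right₀ (by norm_num) n3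
  obtain ⟨m1, m2, m3, m4, m5, m6, m7, m8, m9⟩ := small_num n1 n4 H.hL H.hK (s1.trans hlu)
    (s5.trans hlu)
  have hBpos : 0 < Pe F.p B := (mul_pos hc₁ A4).trans_le hBc
  have hp := isLaw_cond F.isLaw hBpos
  have hsup : ∀ ω, 0 < cond F.p B True ω → B ω := fun ω hω =>
    of_eq_true ((cond_pos_iff F.isLaw.nonneg B True ω).mp hω).2
  have hM : ∀ ω, cond F.p B True ω * Pe F.p A ≤ 1 / c₁ * F.p ω := by
    intro ω
    have h1 := cond_dens (q := F.p) (r := F.p) B (A := 1) (M := 1) (c := Pe F.p B) (by norm_num)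
      F.isLaw.nonneg (fun ω => by rw [mul_one, one_mul]) hBpos le_rfl ω
    rw [mul_one] at h1
    have h2 : Pe F.p A ≤ Pe F.p B / c₁ := by
      rw [le_div_iff₀ hc₁]
      linarith
    have h3 : 0 ≤ F.p ω := F.isLaw.nonneg ω
    calc cond F.p B True ω * Pe F.p A ≤ (1 / Pe F.p B * F.p ω) * (Pe F.p B / c₁) :=
          mul_le_mul h1 h2 A4.le (by positivity)
      _ = 1 / c₁ * F.p ω := by
        field_simp
  have hc₁' : (0 : ℝ) ≤ 1 / c₁ := by positivity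
  -- the levels
  have hε8 : ε ≤ υ / 8 := ε1.trans (div_le_div_of_nonneg_left hυ0.le (by norm_num) (by norm_num))
  have haR : (0 : ℝ) ≤ a := by exact_mod_cast ha0
  have lv : ∀ j < 4, ∃ p : ℕ, p ≤ g j + u ∧ p ≤ J ∧
      ⌊(bet P c j a a + υ / 2) * J⌋₊ + a₀ ≤ p + ⌊(a : ℝ) * J⌋₊ := fun j hj =>
    lev_num hu hυ0 (le_trans (by norm_num) j1) hε8 haR (hlev j hj) (hb' j hj) haa
  obtain ⟨p0, p0g, p0J, p0b⟩ := lv 0 (by norm_num)
  obtain ⟨p1, p1g, p1J, p1b⟩ := lv 1 (by norm_num)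
  obtain ⟨p2, p2g, p2J, p2b⟩ := lv 2 (by norm_num)
  obtain ⟨p3, p3g, p3J, p3b⟩ := lv 3 (by norm_num)
  have hgV : ∀ j < 4, e₀ + g j + 31 * u ≤ J := fun j hj => by
    have := hgJ j hj
    omega
  have hgk : ∀ j < 3, u + 1 ≤ g j := fun j hj => by
    have := hsg j hj
    have : 0 < 2 ^ 40 := by norm_num
    omega
  have hu40 : 40 ≤ u := by
    have : 40 ≤ 2 ^ 40 := by norm_num
    omega
  have fr3 : FrOK F c 3 a₀ u e₀ g B ψ ψH := frok_mono H.fr n7 le_rfl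
  have fr4 : FrOK F c 4 a₀ u e₀ g B ψ ψH := frok_mono Tg.fr n7 le_rfl
  -- the rate
  have hag : a₀ ≤ g 0 + u := by
    have h1 : (a : ℝ) ≤ bet P c 0 a a := hP.low _ _ _ haR le_rfl (by exact_mod_cast ha.le)
    have h2 : ⌊(a : ℝ) * J⌋₊ ≤ ⌊(bet P c 0 a a + υ / 2) * J⌋₊ :=
      Nat.floor_le_floor (mul_le_mul_of_nonneg_right (by linarith) hJ0)
    omega
  have hK0 := K0_num (t := ρ * J / 2) (by
    have : (2 : ℝ) ≤ ρ * J := le_trans (by norm_num) j2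
    linarith)
  have hrate : NoCov (cond F.p B True) (fun ω => ⌊2 ^ (4 * u) * rfv (cond F.p B True)
      (fun ω => z (slam F a₀ ω)) (fun ω => e (slam F a₀ ω)) (En F c g a₀ ψ) (z (slam F a₀ ω))
      (e (slam F a₀ ω))⌋) (fun ω => f (ptr F J ω)) ⌊Real.exp (ρ * J / 2)⌋₊ (1 / 2 ^ 39) := by
    rw [← hυ, ← hu] at act
    refine nocov_act (r := ρ * J) hBpos fr3 hag (fun ω hω => ?_) (by omega) f act ?_
    · obtain ⟨ω₀, r1, r2, r3, r4⟩ := rfv_spec (z := fun ω => z (slam F a₀ ω))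
        (e := fun ω => e (slam F a₀ ω)) hω (R := ℝ)
      rw [r4]
      exact (H.nE _ _ (hsup _ r1) (hsup _ hω) r2 r3).trans m4
    · have h3 : Real.log ⌊Real.exp (ρ * J / 2)⌋₊ ≤ ρ * J / 2 := by
        have h4 : (0 : ℝ) < ⌊Real.exp (ρ * J / 2)⌋₊ := by exact_mod_cast hK0.1
        have := Real.log_le_log h4 hK0.2.2
        rwa [Real.log_exp] at this
      have h5 : (8 : ℝ) ≤ ρ * J := le_trans (by norm_num) j2
      linarith
  -- the flat case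
  have hflat : Pe F.p (fun ω => B ω ∧ ∀ i, |An F c g a₀ n ψH Ht ω i| ≤ 2 / 2 ^ (8 * u)) ≤
      1 / 512 * Pe F.p B := by
    have hB'B : Sub (fun ω => B ω ∧ ∀ i, |An F c g a₀ n ψH Ht ω i| ≤ 2 / 2 ^ (8 * u)) B :=
      fun ω hω => hω.1
    have het : K / 2 ^ s ≤ 1 / 2 ^ (6 * u) := by
      refine m3.trans (one_div_le_one_div_of_le (by positivity) (pow_le_pow_right₀ (by norm_num)
        (by omega)))
    have h1 := A3 4 a₀ e₀ u u (31 * u) p3 g ψ γ ψH (fun s => Ht (co n s)) (1 / 2 ^ (6 * u))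
      (by norm_num) haJ haa (by linarith) (by omega) (by omega)
      (fun j hj => hgV j (by omega)) hgk p3g p3J p3b (by positivity) m9 (fun s => hD _)
      (fun s => H.dep _) _ (fun ω hω => hBA ω (hB'B ω hω)) (frok_sub fr4 hB'B) Tg.dep
      ?_ ?_ ?_ ?_
    · have h2 : c₁ / 512 * Pe F.p A ≤ 1 / 512 * Pe F.p B := by
        have : c₁ / 512 * Pe F.p A = 1 / 512 * (c₁ * Pe F.p A) := by ring
        rw [this]
        exact mul_le_mul_of_nonneg_left hBc (by norm_num)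
      exact h1.le.trans h2
    · intro ω hω V
      refine (Tg.near ω hω.1 V).trans ?_
      refine mul_le_mul_of_nonneg_right ?_ (en_nonneg _ _ _ _ _ _)
      exact div_le_div_of_nonneg_right (pow_le_pow_right₀ (by norm_num) n7) (by positivity)
    · intro ω hω
      refine (Tg.vel ω hω.1).trans ?_
      exact mul_le_mul_of_nonneg_right (hδt.trans het) (by positivity)
    · intro ω hω V hV
      refine (Tg.row ω hω.1 V hV).trans ?_
      refine mul_le_mul_of_nonneg_right ?_ (en_nonneg _ _ _ _ _ _)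
      exact div_le_div_of_nonneg_right (hδt.trans het) (by positivity)
    · intro ω hω V hV
      refine (flat_re H hω.1 hω.2 hV).trans ?_
      refine mul_le_mul_of_nonneg_right (mul_le_mul_of_nonneg_right ?_ (by positivity))
        (en_nonneg _ _ _ _ _ _)
      have h2 := H.small₂
      have h3 : 0 ≤ K / 2 ^ s := by
        have := H.hK
        positivity
      have h4 : δ + (2 * L + 1) * (2 / 2 ^ (8 * u) + 2 * (((D : ℝ) + 1) ^ 2 * δ')) =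
          (δ + 2 * (D + 1) ^ 2 * δ' * (1 + 2 * L)) + (2 * L + 1) * (2 / 2 ^ (8 * u)) := by ring
      rw [h4]
      linarith
  have h0 := sml_re H hBpos (x := 8 * u) m3 hflat
  -- one law
  have hlg := lgY_num (t := ε * J) (by positivity) H.hK H.hL H.hB₀ hK hL hB₀
  obtain ⟨q1, q2⟩ := entY_num (eF := ε * J) (iG := iY (⌈B₀⌉₊ + 1)
    (16 * L ^ 2 * (K + 1) * (B₀ + 1)) (ε * J) (ε * J) (ε * J)) hε0 j2 ε2 rfl (by
      unfold iY
      linarith) hK0.2.1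
  have hul : l + 40 ≤ 2 * u := by omega
  have scn₁ : th₁ + x₁ + 200 * (120 * u) ≤ s₁ := by
    have h1 : (th₁ : ℝ) + x₁ + 200 * (120 * u) ≤ s₁ := by
      have h2 : 24000 * (υ * J) ≤ σ * J := by
        rw [hυ]
        have := mul_nonneg hσ.le hJ0
        norm_num
        linarith
      linarith
    exact_mod_cast h1
  have scn₂ : th₂ + x₂ + th₁ + x₁ + 400 * (120 * u) ≤ s := by
    have h1 : (th₂ : ℝ) + x₂ + th₁ + x₁ + 400 * (120 * u) ≤ s := by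
      have h2 : 48000 * (υ * J) ≤ σ * J := by
        rw [hυ]
        have := mul_nonneg hσ.le hJ0
        norm_num
        linarith
      linarith
    exact_mod_cast h1
  obtain ⟨al, al1, al2⟩ := hop_one_y (f := f) H hp hsup hTn dt₀ dz dM (Aa := ⌈B₀⌉₊ + 1) (l := l)
    (xA := 8 * u) (kk := 4 * u) (y := 101 * u) (v := 120 * u) (cE := 1 / 2 ^ 39) (by positivity)
    dP₁ dP₂ few₁ few₂ free fullT₁ fullT₂ hrate act₁ act₂
    (by push_cast; linarith [Nat.le_ceil B₀]) hK0.1 hK0.1 s4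
    (s2.trans (pow_le_pow_right₀ (by norm_num) (by omega))) (by omega) scn₁ scn₂ sc₃ q1 q2
    (by positivity) h0
  -- the end
  have hVD := vdat_mix hc3 fr3 H.fr' H.hn' H.hKn H.deep H.near (al := fun y => al (f y))
    (Ka := L) (μ := 1 / 2 ^ (8 * u) / 2) (fun ω _ j => (al1 _).1 j) (fun ω _ => by
      obtain ⟨i, hi⟩ := (al1 (f (ptr F J ω))).2
      fin_cases i
      · exact Or.inl hi
      · exact Or.inr hi)
  have hL0 : 0 ≤ L := by linarith [H.hL]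
  have hKn0 : 0 ≤ (1 + Kn) ^ 3 := by
    have := H.hKn
    positivity
  have hδ10 : 0 ≤ 2 * (δ₁ * (1 + Kn) ^ 3) := by
    have h1 : 0 ≤ δ₁ := le_trans (by positivity) (H.deep 1 le_rfl (by norm_num))
    positivity
  have hε₂0 : (0 : ℝ) ≤ 1 / 2 ^ (101 * u) := by positivity
  have hε₂ : (1 : ℝ) / 2 ^ (101 * u) ≤ 1 / 2 ^ (100 * u) :=
    one_div_le_one_div_of_le (by positivity) (pow_le_pow_right₀ (by norm_num) (by omega))
  obtain ⟨k1, k2, k3, k4⟩ := kl_num (u := u) (x := 8 * u) (by omega) le_rfl hKn0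
    ((H.KL.trans s4).trans hlu) hL0 (s4.trans hlu) hδ10
    (H.small₁.trans m2) hε₂0 hε₂
  have hkil := A2 3 a₀ e₀ (28 * u) u u (31 * u) p1 p2 g ψ ψH
    (fun y => Ms c g a₀ (ψ y) (ψ' y) 0) (fun y => Ms c g a₀ (ψ y) (ψ' y) 1) (fun y => al (f y))
    (2 * (δ₁ * (1 + Kn) ^ 3)) ((1 + Kn) ^ 3) L (1 / 2 ^ (8 * u) / 2)
    (1 / 2 ^ (25 * u)) (1 / 2 ^ (20 * u)) (1 / 2 ^ (101 * u))
    le_rfl haJ haa (by omega) (by omega) (fun j hj => hgV j (by omega))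
    (fun j hj => hgk j (by omega)) p1g p2g p1J p2J p1b p2b (by positivity) (by positivity) k2
    (by positivity) k3 k4 k1 B hBA fr3 hVD (cond F.p B True) (1 / c₁) hp hc₁' hsup hM
  have hfin : 2 * (1 / c₁) * Real.exp (-(δb * J)) ≤ 1 / 2 ^ 35 := by
    have h1 : 2 * (1 / c₁) * Real.exp (-(δb * J)) ≤ 2 * (1 / c₁) * (c₁ / 2 ^ 36) :=
      mul_le_mul_of_nonneg_left j4 (by positivity)
    have h2 : 2 * (1 / c₁) * (c₁ / 2 ^ 36) = 1 / 2 ^ 35 := by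
      field_simp
    rw [h2] at h1
    exact h1
  have h35 : (1 : ℝ) / 2 ^ 35 < 1 / 2 ^ 34 := by norm_num
  exact absurd (al2.trans (hkil.trans hfin)) (not_le.2 h35)

end Pool.KPO
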