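import Pool.Agent.H31.D2.Ry4

/-!
# The tie cell `(1,k,k;k+1)`, `k > 2`: one block, class form

`nocov_cond'`: a coarser condition. `hop_blk_y`: one block, the numbers few given the own data, the
record and the digits of the position at two scales.
-/

set_option autoImplicit false

namespace Pool.KPO

open Finset Real MvPolynomial
open Pool.Agent.H49.Ent Pool.Agent.H32.Dense Pool.STK Pool.KA Pool.KSAT Pool.K2S Pool.PB Pool.S6C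
open Pool.GEN Pool.CHT Pool.CHX Pool.LA91
open Pool.LBT (ThrOf)
open Pool.D2F Pool.D2Z Pool.D2F2 Pool.D2N
open Pool.D2R (dd hs co co_slam)
open Pool.X31 (nw)
open Pool.D2T (NoCov)

variable {m J : ℕ}

/-- A coarser condition. -/
theorem nocov_coarse {Ω V T T' : Type} [Fintype Ω] {p : Ω → ℝ} {E : Ω → V} {Z : Ω → T} {K : ℕ}
    {c : ℝ} (h : NoCov p E Z K c) (φ : T → T') : NoCov p E (fun ω => φ (Z ω)) K c :=
  fun S hS => h (fun t => S (φ t)) fun t => hS (φ t)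

/-- **The reference value** of the natural velocity of `V0`. -/
noncomputable def rE {ζ ε : Type} (F : Fam m J) (c : ℕ → Fin m) (g : ℕ → ℕ) (W : ℕ)
    (ψ : PtT F → ℕ → Option (Fin m) → ℝ) (P : F.Ω → ℝ) (z : LnT F → ζ) (e : LnT F → ε)
    (ω : F.Ω) : ℝ :=
  rfv P (fun ω => z (slam F W ω)) (fun ω => e (slam F W ω)) (En F c g W ψ) (z (slam F W ω))
    (e (slam F W ω))

/-- **The number of the own line.** -/
noncomputable def bY {ζ : Type} (F : Fam m J) (c : ℕ → Fin m) (g : ℕ → ℕ) (W n : ℕ)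
    (ψ : PtT F → ℕ → Option (Fin m) → ℝ) (ψH : LnT F → ℕ → Option (Fin m) → ℝ)
    (Ht : LnT F → MvPolynomial (Option (Fin m)) ℝ) (P : F.Ω → ℝ) (z : LnT F → ζ) (ω : F.Ω) : ℝ :=
  bR (En F c g W ψ) (tn F W) (yr F c g W ψ P z) (Tn F c g W n ψH Ht) (An F c g W n ψH Ht)
    (Vn F c g W ψ) ω

/-- **One block of the tie cell**, `k > 2`. -/
theorem hop_blk_y {σ ρ ε : ℝ} (hσ : 0 < σ) (hρ : 0 < ρ) (hε0 : 0 < ε) (hε : ε ≤ epH σ ρ) :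
    ∀ {m D : ℕ} {θc : ℝ} {S : PCl m} {P : List (Fin m) × Fin m → ℝ → ℝ → ℝ}
    (_ : ThrOf (chsys m θc) S P) (_ : TmH S) (c : ℕ → Fin m) (_ : Set.InjOn c (Set.Iio 4))
    (a : ℚ) (aR er c₁ : ℝ) (_ : 0 ≤ a) (_ : a < 1) (_ : aR ≤ a) (_ : er < θc * a)
    (_ : ∀ j < 4, bet P c j a a + σ ≤ 1) (_ : 0 < c₁),
    Bas S (fun J F A => ∀ B : F.Ω → Prop, Sub B A → c₁ * Pe F.p A ≤ Pe F.p B →
      (∀ G : F.Ω → Prop, Sub G B → Pe F.p B ≤ 2 ^ 40 * Pe F.p G → ρ * J ≤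
        CH (cond F.p G True) (fun ω => F.D ⌊σ / 10 ^ 7 * J⌋₊ ω (c 0)) (fun ω => ptr F J ω)) →
      ∀ (x e₀ sg w₀ w b a' : ℕ) (g₁ g₂ g gb g' gT : ℕ → ℕ) (kG M v v' e p : ℕ) (U : ℝ)
      (ψ₁ ψ₂ ψ ψ' Sv : PtT F → ℕ → Option (Fin m) → ℝ)
      (ψH₁ ψH₂ ψH ψH' : LnT F → ℕ → Option (Fin m) → ℝ)
      (Ga Gc G' : PtT F → ℕ → MvPolynomial (Option (Fin m)) ℝ)
      (Ha Hc H' : LnT F → ℕ → MvPolynomial (Option (Fin m)) ℝ)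
      (T : PtT F → ℕ → MvPolynomial (Option (Fin m)) ℝ)
      (TH : LnT F → ℕ → MvPolynomial (Option (Fin m)) ℝ)
      (Ht : LnT F → MvPolynomial (Option (Fin m)) ℝ) (hD : ∀ s, (Ht s).totalDegree ≤ D)
      (q q₀ q₁ s Mg s₁ th₁ x₁ th₂ x₂ : ℕ),
      HbG F c D x e₀ sg w₀ w ⌊aR * J⌋₊ b a' g₁ g₂ g gb g' gT kG M v v' e p U B ψ₁ ψ₂ ψ ψ'
        Sv ψH₁ ψH₂ ψH ψH' Ga Gc G' Ha Hc H' T TH Ht →
      HpN x s Mg w₀ ⌊aR * J⌋₊ b a' g₁ g gb g' → w₀ ≤ w →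
      BkM x s sg q q₀ q₁ w ⌊aR * J⌋₊ g₂ g →
      CoY F c s x sg w₀ w ⌊aR * J⌋₊ g₂ g ψH₂ ψH Ht B →
      ⌊aR * J⌋₊ + th₂ ≤ b → g 0 + th₂ ≤ gb 0 + x → (∀ j < 3, e₀ + gb j ≤ J) →
      σ * J ≤ s → (∀ l < 3, s ≤ g l) → (∀ j < 4, e₀ + g j + (s + 3) ≤ J) →
      (∀ j < 4, bet P c j a a * J + ⌊aR * J⌋₊ ≤ g j + a * J + ε * J) →
      e₀ + σ * J ≤ er * J → ((2000 * (x + kG + 1) : ℕ) : ℝ) ≤ ε / 4 * J →
      -- the scales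
      1 ≤ th₁ → th₁ ≤ th₂ → th₁ + x₁ + σ * J ≤ s₁ → th₂ + x₂ + (th₁ + x₁) + σ * J ≤ s → s₁ ≤ s →
      ∀ (Va Vb : Type) (za : PtT F → Va) (zaH : LnT F → Va) (zb : PtT F → Vb)
        (zbH : LnT F → Vb), Rcd F B ⌊aR * J⌋₊ za zaH → Rcd F B b zb zbH →
      CH (cond F.p B True) (fun ω => ⌊2 ^ s₁ * bY F c g ⌊aR * J⌋₊ (⌊aR * J⌋₊ - w₀) ψ ψH Ht
          (cond F.p B True) zaH ω⌋)
        (fun ω => (eL (hdt2 F c g₂ w (w - w₀) 3 D q₀ q sg ψH₂ Ht hD) w ⌊aR * J⌋₊ (g₂ 0 + q₁)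
          (slam F ⌊aR * J⌋₊ ω), (zaH (slam F ⌊aR * J⌋₊ ω), Pool.D2N.cP th₁ (tn F ⌊aR * J⌋₊)
            (yr F c g ⌊aR * J⌋₊ ψ (cond F.p B True) zaH) ω))) ≤ ε * J →
      CH (cond F.p B True) (fun ω => ⌊2 ^ s * bY F c g ⌊aR * J⌋₊ (⌊aR * J⌋₊ - w₀) ψ ψH Ht
          (cond F.p B True) zaH ω⌋)
        (fun ω => (eL (hdt2 F c g₂ w (w - w₀) 3 D q₀ q sg ψH₂ Ht hD) w ⌊aR * J⌋₊ (g₂ 0 + q₁)
          (slam F ⌊aR * J⌋₊ ω), (zaH (slam F ⌊aR * J⌋₊ ω), Pool.D2N.cP th₂ (tn F ⌊aR * J⌋₊)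
            (yr F c g ⌊aR * J⌋₊ ψ (cond F.p B True) zaH) ω))) ≤ ε * J →
      CH (cond F.p B True)
          (fun ω => (eC (hdt2 F c g₂ w (w - w₀) 3 D q₀ q sg ψH₂ Ht hD) w (g₂ 0 + q₁) ω,
          cG (hdt2 F c g₂ w (w - w₀) 3 D q₀ q sg ψH₂ Ht hD) w ω))
          (fun ω => (za (ptr F J ω), F.W ω)) ≤
        CH (cond F.p B True)
          (fun ω => (eC (hdt2 F c g₂ w (w - w₀) 3 D q₀ q sg ψH₂ Ht hD) w (g₂ 0 + q₁) ω,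
          cG (hdt2 F c g₂ w (w - w₀) 3 D q₀ q sg ψH₂ Ht hD) w ω))
          (fun ω => (zb (ptr F J ω), F.W ω)) + ε / 4 * J →
      NoCov (cond F.p B True) (fun ω => ⌊2 ^ (th₁ + x₁) * rE F c g ⌊aR * J⌋₊ ψ (cond F.p B True)
          zaH (eL (hdt2 F c g₂ w (w - w₀) 3 D q₀ q sg ψH₂ Ht hD) w ⌊aR * J⌋₊ (g₂ 0 + q₁)) ω⌋)
        (fun ω => (ptr F J ω, ⌊2 ^ th₁ * rE F c g ⌊aR * J⌋₊ ψ (cond F.p B True)
          zaH (eL (hdt2 F c g₂ w (w - w₀) 3 D q₀ q sg ψH₂ Ht hD) w ⌊aR * J⌋₊ (g₂ 0 + q₁)) ω⌋))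
        ⌊Real.exp (ρ * J / 2)⌋₊ (1 / 2 ^ 39) →
      NoCov (cond F.p B True) (fun ω => ⌊2 ^ (th₂ + x₂) * rE F c g ⌊aR * J⌋₊ ψ (cond F.p B True)
          zaH (eL (hdt2 F c g₂ w (w - w₀) 3 D q₀ q sg ψH₂ Ht hD) w ⌊aR * J⌋₊ (g₂ 0 + q₁)) ω⌋)
        (fun ω => (ptr F J ω, ⌊2 ^ th₂ * rE F c g ⌊aR * J⌋₊ ψ (cond F.p B True)
          zaH (eL (hdt2 F c g₂ w (w - w₀) 3 D q₀ q sg ψH₂ Ht hD) w ⌊aR * J⌋₊ (g₂ 0 + q₁)) ω⌋))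
        ⌊Real.exp (ρ * J / 2)⌋₊ (1 / 2 ^ 39) →
      False) := by
  intro m D θc S P hP hT c hc a aR er c₁ ha0 ha haR her hb hc₁
  have hE := hop_end_y (D := D) hσ hρ hε0 hε hP hT c hc a er c₁ ha0 ha her hb hc₁
  have hTm := Pool.V1E.tmh_cond hT (show 0 < ε / 4 by positivity)
  refine Bas.mono 0 (hE.and (bas_ev hTm hc₁)) ?_
  rintro J - F A ⟨hE, hTm⟩ B hBA hcB act x e₀ sg w₀ w b a' g₁ g₂ g gb g' gT kG M v v' e p U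
    ψ₁ ψ₂ ψ ψ' Sv ψH₁ ψH₂ ψH ψH' Ga Gc G' Ha Hc H' T TH Ht hD q q₀ q₁ s Mg s₁ th₁ x₁ th₂ x₂ H N hw₀
    N₃ C n1 n2 n3 n4 n5 n6 n7 n8 n9 t1 t2 t3 t4 t5 Va Vb za zaH zb zbH hza hzb few₁ few₂ free
    act₁ act₂
  obtain ⟨W, hWdef⟩ : ∃ W, W = ⌊aR * J⌋₊ := ⟨_, rfl⟩
  rw [← hWdef] at H N N₃ C n1 n7 hza few₁ few₂ act₁ act₂
  obtain ⟨Pr, hPr⟩ : ∃ Pr, Pr = cond F.p B True := ⟨_, rfl⟩
  obtain ⟨hB0, hTB⟩ := hTm B hBA hcB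
  have hp : IsLaw Pr := by
    rw [hPr]
    exact isLaw_cond F.isLaw hB0
  have hB : ∀ ω, 0 < Pr ω → B ω := fun ω hω => by
    rw [hPr] at hω
    exact of_eq_true ((cond_pos_iff F.isLaw.nonneg B True ω).1 hω).2
  rw [← hPr] at hTB few₁ few₂ free act₁ act₂
  have hW := H.hA.aJ
  have hx := N.x1
  have hJ0 : (0 : ℝ) ≤ J := Nat.cast_nonneg J
  have hεJ : 0 ≤ ε * J := by positivity
  have hT := tm_ev hp hW hTB
  -- numbers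
  have sl : ∀ n : ℕ, n ≤ 2000 * (x + kG + 1) → (n : ℝ) ≤ ε / 4 * J := fun n hn =>
    le_trans (by exact_mod_cast hn) n9
  have hth : th₂ ≤ s := by
    have h1 : (th₂ : ℝ) ≤ s := by
      have : 0 ≤ σ * J := by positivity
      have h2 : (0 : ℝ) ≤ x₂ := Nat.cast_nonneg _
      have h3 : (0 : ℝ) ≤ th₁ := Nat.cast_nonneg _
      have h4 : (0 : ℝ) ≤ x₁ := Nat.cast_nonneg _
      linarith
    exact_mod_cast h1
  have hWb : W ≤ b := by omega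
  obtain ⟨f, f1, f2, f3, f4⟩ := H.fz (s := th₂) hWb hza hzb hp hB
  have f2' : Det Pr (fun ω => f (ptr F J ω)) (fun ω => (⌊2 ^ th₁ * tn F W ω⌋,
      ⌊2 ^ th₁ * yr F c g W ψ Pr zaH ω⌋)) := fun ω ω' hω hω' e => by
    have h1 := f2 ω ω' hω hω' e
    obtain ⟨h2, h3⟩ := Prod.mk.inj h1
    exact Prod.ext (Pool.D2N.fl_coarse t2 h2) (Pool.D2N.fl_coarse t2 h3)
  have dt₀ : Det Pr (fun ω => ptr F J ω) (fun ω => (⌊2 ^ s * tn F W ω⌋,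
      ⌊2 ^ s * yr F c g W ψ Pr zaH ω⌋)) := fun ω ω' hω hω' e => H.uvis hza hB hω hω' e
  -- the hypotheses of the cell
  have hreh : ReH F c g gb W (W - w₀) D b x x e₀ e₀ 4 s (s + 3) ψ ψ' ψH ψH' Ht B zaH
      (eL (hdt2 F c g₂ w (w - w₀) 3 D q₀ q sg ψH₂ Ht hD) w W (g₂ 0 + q₁))
      (1 / 2 ^ (s + 200 * x)) (1 / 2 ^ (s + 200 * x)) (1 / 2 ^ (s + 230 * x))
      (2 ^ (12 * x + 8)) (2 ^ (150 * x)) (2 ^ (150 * x)) (2 ^ Bz x) := by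
    have hze : ∀ ω ω', B ω → B ω' → zaH (slam F W ω) = zaH (slam F W ω') →
        za (ptr F J ω) = za (ptr F J ω') := fun ω ω' hω hω' e => by
      rw [hza.cls ω hω, hza.cls ω' hω', e]
    have hee : ∀ ω ω', eL (hdt2 F c g₂ w (w - w₀) 3 D q₀ q sg ψH₂ Ht hD) w W (g₂ 0 + q₁)
        (slam F W ω) = eL (hdt2 F c g₂ w (w - w₀) 3 D q₀ q sg ψH₂ Ht hD) w W (g₂ 0 + q₁)
        (slam F W ω') → eR (hdt2 F c g₂ w (w - w₀) 3 D q₀ q sg ψH₂ Ht hD) w ω =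
          eR (hdt2 F c g₂ w (w - w₀) 3 D q₀ q sg ψH₂ Ht hD) w ω' ∧
        eC (hdt2 F c g₂ w (w - w₀) 3 D q₀ q sg ψH₂ Ht hD) w (g₂ 0 + q₁) ω =
          eC (hdt2 F c g₂ w (w - w₀) 3 D q₀ q sg ψH₂ Ht hD) w (g₂ 0 + q₁) ω' :=
      fun ω ω' e => by
        rw [eL_slam _ N₃.wW hW, eL_slam _ N₃.wW hW] at e
        exact Prod.mk.inj e
    refine reh_of N H.inj hW H.D2 H.Dx (one_le_pow₀ (by norm_num)) H.h₁ H.hA.wf H.hb.wf H.Dp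
      le_rfl le_rfl le_rfl le_rfl H.hQ hD H.hM C.bW (fun j hj => n6 j (by omega))
      (fun ω ω' hω hω' e j h1 h3 => ?_) (fun ω ω' hω hω' e => ?_)
      (fun ω ω' hω hω' e ee => ?_) (fun ω ω' hω hω' e ee => ?_)
    · obtain ⟨a1, a2, a3, a4⟩ := H.kza N₃.wW hza hω hω' (hze ω ω' hω hω' e)
      exact H.hA.zy (fun j hj => by have := n6 j (by omega); omega) hω hω' a3 a4 a1 h3
    · obtain ⟨a1, a2, a3, a4⟩ := H.kza N₃.wW hza hω hω' (hze ω ω' hω hω' e)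
      exact ⟨a1, a3⟩
    · obtain ⟨a1, a2, a3, a4⟩ := H.kza N₃.wW hza hω hω' (hze ω ω' hω hω' e)
      exact nE_y N₃ (N₃.wW.trans hW) H.h₂ H.hA.wf hω hω' a1 a2 (hee ω ω' ee).2
    · obtain ⟨a1, a2, a3, a4⟩ := H.kza N₃.wW hza hω hω' (hze ω ω' hω hω' e)
      rw [H.hA.wf.fr.cls ω hω, H.hA.wf.fr.cls ω' hω'] at a1
      exact nG_y N₃ H.inj hW hw₀ H.Dx H.h₂ H.hA.wf le_rfl le_rfl H.hQ C.d2 hω hω' a1 a2 a3
        (Prod.ext_iff.1 (hee ω ω' ee).1).2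
  have htg := tgh_of N hW H.hA.wf H.Dp le_rfl le_rfl
  -- the entropies
  have hfree := free_y H hD (hpn_le N hth) N₃.wW N₃.q01 (t1.trans t2) n1 n2 n3 hza hzb hp hB hT free
    f4
  have hfT₁ := full_T hp t1 (show W + th₁ ≤ J by have := H.hb.aJ; omega)
    (yr F c g W ψ Pr zaH) hT
  have hfT₂ := full_T hp (t1.trans t2) (show W + th₂ ≤ J from n1.trans H.hb.aJ)
    (yr F c g W ψ Pr zaH) hT
  have q1 := sl 2000 (by omega)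
  have q3 := log2_le (sl (127 * x + 198) (by omega))
  have hTn : ∀ ω, B ω → |Tn F c g W (W - w₀) ψH Ht ω| ≤ 2 ^ (150 * x) / 2 ^ s := fun ω hω => by
    refine (C.tn hx hω).trans ?_
    rw [div_le_div_iff₀ (by positivity) (by positivity), one_mul, ← pow_add]
    exact two_le (by omega)
  have act₁' := nocov_coarse act₁ (fun y => (f y.1, y.2))
  have act₂' := nocov_coarse act₂ (fun y => (f y.1, y.2))
  unfold rE at act₁' act₂'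
  unfold bY at few₁ few₂
  rw [hPr] at few₁ few₂ hfree hfT₁ hfT₂ f1 f2 f2' f3 dt₀ act₁' act₂'
  refine hE (W - w₀) W b x x e₀ e₀ 4 s (s + 3) s₁ th₁ x₁ th₂ x₂ g gb ψ ψ' Sv ψH ψH' Ht B Va
    (Vb × (ℤ × ℤ)) _ zaH
    (eL (hdt2 F c g₂ w (w - w₀) 3 D q₀ q sg ψH₂ Ht hD) w W (g₂ 0 + q₁)) f
    (1 / 2 ^ (s + 200 * x)) (1 / 2 ^ (s + 200 * x)) (1 / 2 ^ (s + 230 * x))
    (1 / 2 ^ (s + 200 * x)) (2 ^ (12 * x + 8)) (2 ^ (150 * x)) (2 ^ (150 * x)) (2 ^ Bz x)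
    hD hW ?_ n4 n5 (fun j hj => by
      have := n6 j hj
      omega) n7 n8 ?_ ?_ ?_ ?_ ?_ hBA hcB t3 t4 t5 act hreh htg hTn dt₀ f1 f3 f2' f2 few₁ few₂ ?_
    ?_ ?_ act₁' act₂'
  · rw [hWdef]
    exact Nat.floor_le_floor (mul_le_mul_of_nonneg_right haR hJ0)
  · have := sl x (by omega)
    linarith
  · refine pow_exp ?_
    have := sl (150 * x) (by omega)
    linarith
  · refine pow_exp ?_
    have := sl (150 * x) (by omega)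
    linarith
  · refine pow_exp ?_
    have := sl (Bz x) (by unfold Bz Pool.D2N.Kf; omega)
    linarith
  · rw [div_le_div_iff₀ (by positivity) (by positivity), one_mul, ← pow_add]
    exact two_le (by omega)
  · refine hfree.trans ?_
    refine add_le_add le_rfl ?_
    linarith
  · linarith
  · linarith

end Pool.KPO
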