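import Pool.Agent.H31.D2.Ry7
import Pool.Agent.H31.D2.Ry8
import Pool.Agent.H12.TY.Fth
import Pool.Agent.H12.TY.Acy

/-!
# The tie cell `(1,k,k;k+1)`, `k > 2`: one block from the data of the windows

`coy_of`: the structure `CoY`. `blk_of_y`: the structures of the block. `hop_win_y`: one block, from
the data of the windows.
-/

set_option autoImplicit false

namespace Pool.KPO

open Finset Real MvPolynomial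
open Pool.Agent.H49.Ent Pool.Agent.H32.Dense Pool.STK Pool.KA Pool.KSAT Pool.K2S Pool.PB Pool.S6C
open Pool.GEN Pool.CHT Pool.CHX Pool.LA91
open Pool.LBT (ThrOf)
open Pool.ALL (RateOf)
open Pool.D2F Pool.D2Z Pool.D2F2 Pool.D2N
open Pool.D2R (dd hs co co_slam ROutB)
open Pool.F5 (NatH)
open Pool.ISO (Clsd)
open Pool.X31 (nw)
open Pool.M3F (ExvY)
open Pool.D2T (NoCov)
open Pool.TY12 (few_th act_y)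

variable {m J : ℕ}

variable {F : Fam m J} {c : ℕ → Fin m} {D a x e : ℕ} {g : ℕ → ℕ} {B : F.Ω → Prop}
    {ψ : PtT F → ℕ → Option (Fin m) → ℝ} {ψH : LnT F → ℕ → Option (Fin m) → ℝ}
    {Sv : PtT F → ℕ → Option (Fin m) → ℝ}
    {G : PtT F → ℕ → MvPolynomial (Option (Fin m)) ℝ}
    {H : LnT F → ℕ → MvPolynomial (Option (Fin m)) ℝ}

section blk

variable {K e₀ s sg q q₀ q₁ Q Mg Mg₀ Mo Ma Mb Md w₀ w o W b V a₂ a' : ℕ}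
    {g₁ g₂ go gb gv gd g' gT : ℕ → ℕ} {v v' p e' : ℕ} {U : ℝ}
    {ψ₁ ψ₂ ψo ψ' ψd : PtT F → ℕ → Option (Fin m) → ℝ}
    {ψH₁ ψH₂ ψHo ψH' ψHd : LnT F → ℕ → Option (Fin m) → ℝ}
    {Go Ga Gc Gd G' : PtT F → ℕ → MvPolynomial (Option (Fin m)) ℝ}
    {Ho Ha Hc Hd H' : LnT F → ℕ → MvPolynomial (Option (Fin m)) ℝ}
    {T : PtT F → ℕ → MvPolynomial (Option (Fin m)) ℝ}
    {TH : LnT F → ℕ → MvPolynomial (Option (Fin m)) ℝ}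
    {Ht : LnT F → MvPolynomial (Option (Fin m)) ℝ}

/-- **The structure `CoY`** from the coefficients at the two windows. -/
theorem coy_of (hs : s ≤ sg)
    (h1 : ∀ ω, B ω → ∀ j, |2 ^ g₂ 3 / 2 ^ g₂ 0 *
      (gq F c g₂ w (w - w₀) ψH₂ Ht (slam F w ω) 0).coeff (j + 2)| ≤ 1 / 2 ^ (sg + 400 * x))
    (h2 : ∀ ω, B ω → ∀ j, |2 ^ g 3 / 2 ^ g 0 *
      (gq F c g W (W - w₀) ψH Ht (slam F W ω) 0).coeff (j + 2)| ≤ 1 / 2 ^ (sg + 400 * x)) :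
    CoY F c s x sg w₀ w W g₂ g ψH₂ ψH Ht B where
  bw := {
    c2 := fun ω hω => (h1 ω hω 0).trans (by
      rw [div_le_iff₀ (by positivity), ← pow_add]
      exact one_le_pow₀ (by norm_num))
    c3 := fun ω hω j hj => by
      obtain ⟨i, rfl⟩ : ∃ i, j = i + 2 := ⟨j - 2, by omega⟩
      exact (h1 ω hω i).trans (one_div_le_one_div_of_le (by positivity) (two_le (by omega))) }
  z2 := fun ω hω j hj => by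
    obtain ⟨i, rfl⟩ : ∃ i, j = i + 2 := ⟨j - 2, by omega⟩
    exact (h2 ω hω i).trans (one_div_le_one_div_of_le (by positivity) (two_le (by omega)))

/-- **The structures of the block**, from the data of the windows. -/
theorem blk_of_y (N : HbM2 J x K e₀ s sg q q₀ q₁ Q Mg Mg₀ Mo Ma Mb Md w₀ w o W b V a₂ a' g₁ g₂ go g
      gb gv gd g') (hc : Set.InjOn c (Set.Iio 3)) (hD2 : 2 ≤ D)
    (hDx : ((D : ℝ) + 1) * 2 ^ D ≤ 2 ^ x) (h₁ : WFr F c 4 w₀ x e₀ g₁ B ψ₁ ψH₁ Sv)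
    (h₂ : WFr F c 4 w x e₀ g₂ B ψ₂ ψH₂ Sv) (ho : WnD F c D o x e₀ go B ψo ψHo Sv Go Ho)
    (hA : WnD F c D W x e₀ g B ψ ψH Sv Ga Ha) (hb : WnD F c D b x e₀ gb B ψ' ψH' Sv Gc Hc)
    (hd : WnD F c D a₂ x e₀ gd B ψd ψHd Sv Gd Hd)
    (hdp : Dpw F c D w₀ a' v v' e' x p g' gT U B G' H' T TH Ht Sv)
    (hQ : ∀ s, DepC c 3 (Ht s)) (hdeg : ∀ s, (Ht s).totalDegree ≤ D)
    (hM : ∀ ω, B ω → ∀ i < 3, ∀ j, |(gq F c g₁ w₀ 0 ψH₁ Ht (slam F w₀ ω) i).coeff (j + 1)| ≤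
      2 ^ x / 2 ^ g₁ 3 * 2 ^ g₁ i) (hC : CoY F c s x sg w₀ w W g₂ g ψH₂ ψH Ht B) :
    P8G F c 3 D w (w - w₀) o W b a₂ K q₀ q sg Mo Ma Mb 1 g₂ go g gb gd ψH₂ ψ₂ Ht hdeg Go Ga Gc
      Gd Hd B ∧
    HbG F c D x e₀ sg w₀ w W b a' g₁ g₂ g gb g' gT K Ma v v' e' p U B ψ₁ ψ₂ ψ ψ'
        Sv ψH₁ ψH₂ ψH ψH' Ga Gc G' Ha Hc H' T TH Ht := by
  have hwJ : w ≤ J := N.nm.bk.wW.trans hA.bl.aJ
  have hwW := N.nm.bk.wW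
  have hWb := N.nm.Wb
  have hQ1 : q₀ ≤ Q := N.nm.p8.Q1
  have hQ2 : q + sg ≤ Q := N.nm.p8.Q2
  have hsz0 := siz_of N.hp0 hc hwJ hD2 hDx h₁ h₂ hb.bl.wf hdp le_rfl le_rfl le_rfl le_rfl hQ hdeg hM
    (hC.bw.le (Nat.zero_le sg)) (fun j hj => by have := N.j1 j hj; omega)
  have hsz : ∀ ω, B ω → ∀ l < 3, ∀ j, 1 ≤ j →
      |(gq F c g₂ w (w - w₀) ψH₂ Ht (slam F w ω) l).coeff j| ≤ 2 ^ K * (2 ^ g₂ l / 2 ^ g₂ 3) :=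
    fun ω hω l hl j hj => (hsz0 ω hω l hl j hj).trans (mul_le_mul_of_nonneg_right
      (pow_le_pow_right₀ (by norm_num) N.kx) (by positivity))
  have hP := p8g_gen (hD := hdeg) N.nm.bs.wB hc h₂ (ho.cw N.nm.wo N.lo N.lo') (hA.cw hwW N.lW N.lW')
    (hb.cw (by omega) N.lb N.lb') (hd.cw N.nm.wa N.ld N.ld') hQ hdp hsz N.Mo1 N.Mo2 N.Ma1 N.Ma2
    N.Mb1 N.Mb2 N.Md1 N.Md2 N.nm.bk.q0 hQ1 hQ2 (fun l hl => by have := N.j1 l hl; omega) N.j2 N.kx'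
  exact ⟨hP, hc, hD2, hDx, h₁, h₂, hA.bl, hb.bl, hdp, hQ, hM, hP.ha⟩

end blk

/-- **One block of the tie cell**, `k > 2`, from the data of the windows. -/
theorem hop_win_y {m : ℕ} {D : ℕ} (hD2 : 2 ≤ D) {h r₀ σ₀ : ℝ} (hh : 0 < h)
    (hh1 : h ≤ 1) (hr₀ : 0 < r₀) (hσ₀ : 0 < σ₀) :
    ∃ η₀ : ℝ, 0 < η₀ ∧ ∃ c₀ : ℝ, 0 < c₀ ∧ ∀ {c : ℕ → Fin m}, Set.InjOn c (Set.Iio 4) →
    (∀ j, j ≠ c 3 → ∃ l < 3, c l = j) → ∀ {θc : ℝ} {S : PCl m}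
    {P : List (Fin m) × Fin m → ℝ → ℝ → ℝ}, ThrOf (chsys m θc) S P → TmH S →
    ∀ {w μ η : ℝ}, 0 ≤ w → 0 < μ → w + μ ≤ 1 → 0 < η → η ≤ η₀ * μ →
    ∀ {rt : ℝ → ℝ}, RateOf S (c 3) rt → ∀ {α β : ℝ},
    (∀ y₁ y₃ : ℝ, α ≤ y₁ → y₁ ≤ y₃ → y₃ ≤ β → rt y₃ - rt y₁ ≤ (1 - h) * (y₃ - y₁) + η) →
    ∀ {aR a₂ : ℝ} {I : Finset (Fin m)}, (∀ i ∈ I, ∃ l < 3, c l = i) → ∀ {xV cy : ℝ},
    ExvY S a₂ (fun J F ω (i : {x // x ∈ I}) => F.X J ω i) xV →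
    ExvY S aR (fun J F ω => F.X J ω (c 0)) cy →
    ∀ (a : ℚ) (er : ℝ), 0 ≤ a → a < 1 → aR ≤ a → er < θc * a →
    (∀ j < 4, bet P c j a a + σ₀ * μ ≤ 1) →
    -- the windows of the two scales
    ∀ {v₁ v₂ cy₁ cy₂ : ℝ}, ExvY S v₁ (fun J F ω => F.X J ω (c 0)) cy₁ →
    ExvY S v₂ (fun J F ω => F.X J ω (c 0)) cy₂ →
    -- the activity
    ∀ {sl : Fin m → ℝ} {dl : ℕ → ℝ} {al : ℝ} {gl : ℝ → ℝ} {ec : ℝ} {Kl : ℕ} {Nl : ℚ → ℚ → ℝ},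
    ClX sl dl al gl ec Kl Nl S → 0 < al → (c 0 : ℕ) = 0 →
    ∀ {θ₁ θ₂ x₀ : ℚ}, 0 ≤ θ₁ → 0 ≤ θ₂ → 0 < x₀ → θ₁ + x₀ ≤ 1 → θ₂ + x₀ ≤ 1 →
    al / 2 * x₀ ≤ Nl θ₁ (θ₁ + x₀) → al / 2 * x₀ ≤ Nl θ₂ (θ₂ + x₀) →
    r₀ * μ ≤ al * Real.log 2 / 4 * x₀ → ∀ {c₁ : ℝ}, 0 < c₁ →
    Bas S (fun J F A => ∀ B : F.Ω → Prop, Sub B A → c₁ * Pe F.p A ≤ Pe F.p B →
      (∀ G : F.Ω → Prop, Sub G B → Pe F.p B ≤ 2 ^ 40 * Pe F.p G → r₀ * μ * J ≤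
        CH (cond F.p G True) (fun ω => F.D ⌊σ₀ * μ / 10 ^ 7 * J⌋₊ ω (c 0)) (fun ω => ptr F J ω)) →
      ∀ (x K e₀ s sg q q₀ q₁ Q Mg Mg₀ Mo Ma Mb Md w₀ o b V a' v v' e' p : ℕ)
      (s₁ th₁ x₁ th₂ x₂ R Mg₁ Mg₂ u : ℕ)
      (g₁ g₂ go g gb gv gd g' gT gv₁ gv₂ : ℕ → ℕ) (U : ℝ)
      (ψ₁ ψ₂ ψo ψ ψ' ψd Sv ψv₁ ψv₂ : PtT F → ℕ → Option (Fin m) → ℝ)
      (ψH₁ ψH₂ ψHo ψH ψH' ψHd ψHv₁ ψHv₂ : LnT F → ℕ → Option (Fin m) → ℝ)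
      (Go Ga Gc Gd G' Gv₁ Gv₂ : PtT F → ℕ → MvPolynomial (Option (Fin m)) ℝ)
      (Ho Ha Hc Hd H' Hv₁ Hv₂ : LnT F → ℕ → MvPolynomial (Option (Fin m)) ℝ)
      (T : PtT F → ℕ → MvPolynomial (Option (Fin m)) ℝ)
      (TH : LnT F → ℕ → MvPolynomial (Option (Fin m)) ℝ)
      (Ht : LnT F → MvPolynomial (Option (Fin m)) ℝ) (hD : ∀ s, (Ht s).totalDegree ≤ D),
      HbM2 J x K e₀ s sg q q₀ q₁ Q Mg Mg₀ Mo Ma Mb Md w₀ ⌊w * J⌋₊ o ⌊aR * J⌋₊ b V ⌊a₂ * J⌋₊ a' g₁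
        g₂ go g gb gv gd g' →
      HbT J x q₀ s s₁ th₁ x₁ th₂ x₂ R Mg₁ Mg₂ w₀ ⌊aR * J⌋₊ ⌊v₁ * J⌋₊ ⌊v₂ * J⌋₊ b a' (σ₀ * μ * J) g₁
        g₂ g gv₁ gv₂ gb g' →
      ((D : ℝ) + 1) * 2 ^ D ≤ 2 ^ x →
      WFr F c 4 w₀ x e₀ g₁ B ψ₁ ψH₁ Sv → WFr F c 4 ⌊w * J⌋₊ x e₀ g₂ B ψ₂ ψH₂ Sv →
      WnD F c D o x e₀ go B ψo ψHo Sv Go Ho → WnD F c D ⌊aR * J⌋₊ x e₀ g B ψ ψH Sv Ga Ha →
      WnD F c D b x e₀ gb B ψ' ψH' Sv Gc Hc → WnD F c D ⌊a₂ * J⌋₊ x e₀ gd B ψd ψHd Sv Gd Hd →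
      WnD F c D ⌊v₁ * J⌋₊ x e₀ gv₁ B ψv₁ ψHv₁ Sv Gv₁ Hv₁ →
      WnD F c D ⌊v₂ * J⌋₊ x e₀ gv₂ B ψv₂ ψHv₂ Sv Gv₂ Hv₂ →
      Dpw F c D w₀ a' v v' e' x p g' gT U B G' H' T TH Ht Sv → (∀ s, DepC c 3 (Ht s)) →
      (∀ ω, B ω → ∀ i < 3, ∀ j, |(gq F c g₁ w₀ 0 ψH₁ Ht (slam F w₀ ω) i).coeff (j + 1)| ≤
        2 ^ x / 2 ^ g₁ 3 * 2 ^ g₁ i) →
      CoY F c s x sg w₀ ⌊w * J⌋₊ ⌊aR * J⌋₊ g₂ g ψH₂ ψH Ht B →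
      -- sizes
      ((2000 * (x + K + 1) : ℕ) : ℝ) ≤ η * J → σ₀ * μ * J ≤ s → (sg : ℝ) ≤ μ * J →
      μ * J ≤ g₂ 3 + (q + sg) → α * J ≤ g₂ 3 + (q + sg) - (μ * J + 1) →
      g₂ 3 + (q + sg) ≤ β * J →
      (∀ j < 4, bet P c j a a * J + ⌊aR * J⌋₊ ≤ g j + a * J + η * J) →
      e₀ + σ₀ * μ * J ≤ er * J →
      ∑ l ∈ range 3, ((J - gd l : ℕ) : ℝ) * Real.log 2 ≤ xV * Real.log 2 * J + η * J →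
      ((J - (g₂ 0 + q₀) : ℕ) : ℝ) * Real.log 2 + ((g₂ 0 + q₀ - g 0 : ℕ) : ℝ) * Real.log 2 ≤
        cy * Real.log 2 * J + η * J →
      -- sizes of the scales
      gb 0 + x ≤ J → (∀ j < 3, e₀ + gv₁ j ≤ J) → (∀ j < 3, e₀ + gv₂ j ≤ J) →
      gv₁ 0 ≤ g 0 + th₁ + x → gv₂ 0 ≤ g 0 + th₂ + x →
      ((J - gv₁ 0 : ℕ) : ℝ) * Real.log 2 ≤ cy₁ * Real.log 2 * J + η * J →
      ((J - gv₂ 0 : ℕ) : ℝ) * Real.log 2 ≤ cy₂ * Real.log 2 * J + η * J →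
      ⌊aR * J⌋₊ ≤ g 0 + u → g 0 ≤ ⌊aR * J⌋₊ + u →
      th₁ + u ≤ ⌊(θ₁ : ℝ) * J⌋₊ → ⌊((θ₁ : ℝ) + x₀) * J⌋₊ + u ≤ th₁ + x₁ →
      th₂ + u ≤ ⌊(θ₂ : ℝ) * J⌋₊ → ⌊((θ₂ : ℝ) + x₀) * J⌋₊ + u ≤ th₂ + x₂ →
      -- the records
      ∀ (Vo Va Vb V₁ V₂ : Type) (zo : PtT F → Vo) (zoH : LnT F → Vo) (za : PtT F → Va)
        (zaH : LnT F → Va) (zb : PtT F → Vb) (zbH : LnT F → Vb) (z₁ : PtT F → V₁)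
        (zH₁ : LnT F → V₁) (z₂ : PtT F → V₂) (zH₂ : LnT F → V₂), Rcd F B o zo zoH →
      Rcd F B ⌊aR * J⌋₊ za zaH → Rcd F B b zb zbH → Rcd F B ⌊v₁ * J⌋₊ z₁ zH₁ →
      Rcd F B ⌊v₂ * J⌋₊ z₂ zH₂ →
      CH (cond F.p B True)
          (fun ω => (eC (hdt2 F c g₂ ⌊w * J⌋₊ (⌊w * J⌋₊ - w₀) 3 D q₀ q sg ψH₂ Ht hD) ⌊w * J⌋₊
            (g₂ 0 + q₁) ω,
          cG (hdt2 F c g₂ ⌊w * J⌋₊ (⌊w * J⌋₊ - w₀) 3 D q₀ q sg ψH₂ Ht hD) ⌊w * J⌋₊ ω))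
          (fun ω => (zo (ptr F J ω), F.W ω)) ≤
        CH (cond F.p B True)
          (fun ω => (eC (hdt2 F c g₂ ⌊w * J⌋₊ (⌊w * J⌋₊ - w₀) 3 D q₀ q sg ψH₂ Ht hD) ⌊w * J⌋₊
            (g₂ 0 + q₁) ω,
          cG (hdt2 F c g₂ ⌊w * J⌋₊ (⌊w * J⌋₊ - w₀) 3 D q₀ q sg ψH₂ Ht hD) ⌊w * J⌋₊ ω))
          (fun ω => (zb (ptr F J ω), F.W ω)) + η * J →
      (∀ B' : F.Ω → Prop, Sub B' B → c₀ * Pe F.p B ≤ Pe F.p B' →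
        ∑ l ∈ Finset.Ico 1 3, ((uu g₂ q₀ q sg l - (g₂ l + D2F2.qv q₀ q l) : ℕ) : ℝ) * Real.log 2 -
            η * J ≤
          CH (cond F.p B' True) (fun ω (l : Fin (3 - 1)) =>
              Nfd (hdt2 F c g₂ ⌊w * J⌋₊ (⌊w * J⌋₊ - w₀) 3 D q₀ q sg ψH₂ Ht hD) ⌊w * J⌋₊
                (uu g₂ q₀ q sg) (fun l => g₂ l + D2F2.qv q₀ q l) (1 + l) ω)
            (fun ω => (zo (ptr F J ω), (F.W ω, (F.X J ω (c 0),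
              cE (hdt2 F c g₂ ⌊w * J⌋₊ (⌊w * J⌋₊ - w₀) 3 D q₀ q sg ψH₂ Ht hD) ⌊w * J⌋₊ ω))))) →
      False) := by
  obtain ⟨η₁, hη₁, c₀, hc₀, hn⟩ := hop_num_y (m := m) hD2 hh hh1 hr₀ hσ₀
  have hν := nuY_pos hσ₀ hr₀
  obtain ⟨η₀, hη₀⟩ : ∃ η₀ : ℝ, η₀ = min η₁ (min σ₀ (nuY σ₀ r₀ / 16)) := ⟨_, rfl⟩
  refine ⟨η₀, by rw [hη₀]; exact lt_min hη₁ (lt_min hσ₀ (by positivity)), c₀, hc₀, ?_⟩
  intro c hc hcc θc S P hP hT w μ η hw hμ hwμ hη hηle rt hrt α β hrow aR a₂ I hI xV cy hxV hcy a er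
    ha0 ha1 haR her hbet v₁ v₂ cy₁ cy₂ hy₁ hy₂ sl dl al gl ec Kl Nl hX hal hc0 θ₁ θ₂ x₀ hθ₁ hθ₂ hx₀
    hθ₁' hθ₂' hN₁ hN₂ hr c₁ hc₁
  have hη1 : η ≤ η₁ * μ := hηle.trans (mul_le_mul_of_nonneg_right (by
    rw [hη₀]
    exact min_le_left _ _) hμ.le)
  have hη2 : η ≤ σ₀ * μ := hηle.trans (mul_le_mul_of_nonneg_right (by
    rw [hη₀]
    exact (min_le_right _ _).trans (min_le_left _ _)) hμ.le)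
  have hη3 : η ≤ nuY σ₀ r₀ / 16 * μ := hηle.trans (mul_le_mul_of_nonneg_right (by
    rw [hη₀]
    exact (min_le_right _ _).trans (min_le_right _ _)) hμ.le)
  have hN := hn hc hcc hP hT hw hμ hwμ hη hη1 hrt hrow hI hxV hcy a er ha0 ha1 haR her hbet hc₁
  have hTm := Pool.V1E.tmh_cond hT (show (0 : ℝ) < 1 by norm_num)
  have b3 := tm_cls hT (δ := nuY σ₀ r₀ / 16 * μ) hc₁ (by positivity)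
  have y1 := Pool.LBK.Bas.ev hy₁ hc₁
  have y2 := Pool.LBK.Bas.ev hy₂ hc₁
  have A1 := act_y hX hal hθ₁ hx₀ hθ₁' hN₁ hc₁ (ρ := r₀ * μ) (by positivity) hr hc0 (D := D)
  have A2 := act_y hX hal hθ₂ hx₀ hθ₂' hN₂ hc₁ (ρ := r₀ * μ) (by positivity) hr hc0 (D := D)
  refine Bas.mono 0 ((((((hN.and (bas_ev hTm hc₁)).and b3).and y1).and y2).and A1).and A2) ?_
  rintro J - F A ⟨⟨⟨⟨⟨⟨hN, hTm⟩, b3⟩, y1⟩, y2⟩, A1⟩, A2⟩ B hBA hcB act x K e₀ s sg q q₀ q₁ Q Mg Mg₀ Mo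
    Ma Mb Md w₀ o b V a' v v' e' p s₁ th₁ x₁ th₂ x₂ R Mg₁ Mg₂ u g₁ g₂ go g gb gv gd g' gT gv₁ gv₂ U
    ψ₁ ψ₂ ψo ψ ψ' ψd Sv ψv₁ ψv₂ ψH₁ ψH₂ ψHo ψH ψH' ψHd ψHv₁ ψHv₂ Go Ga Gc Gd G' Gv₁ Gv₂ Ho Ha Hc Hd
    H' Hv₁ Hv₂ T TH Ht hD N Tt hDx h₁ h₂ ho hA hb hd hv₁ hv₂ hdp hQ hM C n1 n2 n3 n4 n5 n6 n7 n8 n9
    n10 u1 u2 u3 u4 u5 u6 u7 u8 u9 u10 u11 u12 u13 Vo Va Vb V₁ V₂ zo zoH za zaH zb zbH z₁ zH₁ z₂ zH₂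
    hzo hza hzb hz₁ hz₂ free hnv
  have hc3 : Set.InjOn c (Set.Iio 3) := hc.mono fun i hi => by
    have : i < 3 := hi
    exact Set.mem_Iio.2 (by omega)
  obtain ⟨HP, HG⟩ := blk_of_y N hc3 hD2 hDx h₁ h₂ ho hA hb hd hdp hQ hD hM C
  have hB0 := (hTm B hBA hcB).1
  have hp : IsLaw (cond F.p B True) := isLaw_cond F.isLaw hB0
  have hB : ∀ ω, 0 < cond F.p B True ω → B ω := fun ω hω =>
    of_eq_true ((cond_pos_iff F.isLaw.nonneg B True ω).1 hω).2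
  have hJ0 : (0 : ℝ) ≤ J := Nat.cast_nonneg J
  have hWJ := HG.hA.aJ
  have n6' : ∀ j < 3, e₀ + g j + (s + 3) ≤ J := fun j hj => N.nm.jg j (by omega)
  -- the own data are free
  have doa : ∀ ω ω', B ω → B ω' → za (ptr F J ω) = za (ptr F J ω') →
      zo (ptr F J ω) = zo (ptr F J ω') := fun ω ω' hω hω' e =>
    hza.det' N.nm.oW hWJ hzo.cls hω hω' e
  have fa0 := (CH_mono_cond (X := fun ω => (eC (hdt2 F c g₂ ⌊w * J⌋₊ (⌊w * J⌋₊ - w₀) 3 D q₀ q sg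
      ψH₂ Ht hD) ⌊w * J⌋₊ (g₂ 0 + q₁) ω,
      cG (hdt2 F c g₂ ⌊w * J⌋₊ (⌊w * J⌋₊ - w₀) 3 D q₀ q sg ψH₂ Ht hD) ⌊w * J⌋₊ ω))
    (W' := fun ω => (za (ptr F J ω), F.W ω)) (W := fun ω => (zo (ptr F J ω), F.W ω))
    hp.nonneg fun ω ω' hω hω' e => by
      obtain ⟨e1, e2⟩ := Prod.mk.inj e
      exact Prod.ext (doa ω ω' (hB ω hω) (hB ω' hω') e1) e2).trans free
  have hTB := b3 B hBA hcB
  -- the position at the deep windows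
  have hY : ∀ {cy' vv : ℝ} {gV : ℕ → ℕ} {V' : Type} {z : PtT F → V'} {zH : LnT F → V'},
      Rcd F B ⌊vv * J⌋₊ z zH → cy' * Real.log 2 * J ≤ CH (cond F.p B True)
        (fun ω => F.X J ω (c 0)) (fun ω => (zH (slam F ⌊vv * J⌋₊ ω), F.W ω)) →
      ((J - gV 0 : ℕ) : ℝ) * Real.log 2 ≤ cy' * Real.log 2 * J + η * J →
      ((J - gV 0 : ℕ) : ℝ) * Real.log 2 - η * J ≤ CH (cond F.p B True)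
        (fun ω => F.X J ω (c 0)) (fun ω => (F.T ω, zH (slam F ⌊vv * J⌋₊ ω))) := by
    intro cy' vv gV V' z zH hz h1 h2
    have h3 : CH (cond F.p B True) (fun ω => F.X J ω (c 0))
        (fun ω => (zH (slam F ⌊vv * J⌋₊ ω), F.W ω)) ≤ CH (cond F.p B True)
        (fun ω => F.X J ω (c 0)) (fun ω => (F.T ω, zH (slam F ⌊vv * J⌋₊ ω))) :=
      CH_mono_cond hp.nonneg fun ω ω' _ _ e => by
        obtain ⟨e1, e2⟩ := Prod.mk.inj e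
        exact Prod.ext (Prod.ext_iff.1 e2).1 e1
    linarith
  have Y1 := hY (gV := gv₁) hz₁ (y1 B hBA hcB V₁ z₁ zH₁ hz₁.cls) u6
  have Y2 := hY (gV := gv₂) hz₂ (y2 B hBA hcB V₂ z₂ zH₂ hz₂.cls) u7
  have hsm : ((900 * x + 800 : ℕ) : ℝ) * Real.log 2 ≤ η * J := by
    refine (log2_le (le_refl _)).trans (le_trans ?_ n1)
    exact_mod_cast (by omega)
  have hsg : 150 * (x : ℝ) ≤ σ₀ * μ * J := by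
    have h1 : ((150 * x : ℕ) : ℝ) ≤ ((2000 * (x + K + 1) : ℕ) : ℝ) := by
      exact_mod_cast (by omega)
    have h2 := mul_le_mul_of_nonneg_right hη2 hJ0
    push_cast at h1 n1
    linarith
  have hRJ : g 0 + R ≤ J := Tt.R1.trans u1
  have t1s : th₁ + x₁ + 150 * x ≤ s := by
    have h1 : ((th₁ + x₁ + 150 * x : ℕ) : ℝ) ≤ s := by
      have h2 := Tt.sc1
      have h3 : (s₁ : ℝ) ≤ s := by exact_mod_cast Tt.s12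
      push_cast
      linarith
    exact_mod_cast h1
  have t2s : th₂ + x₂ + 150 * x ≤ s := by
    have h1 : ((th₂ + x₂ + 150 * x : ℕ) : ℝ) ≤ s := by
      have h2 := Tt.sc2
      have h3 : (0 : ℝ) ≤ th₁ + x₁ := by positivity
      push_cast
      linarith
    exact_mod_cast h1
  have hsl : ∀ E : ℝ, E + 2 * (nuY σ₀ r₀ / 16 * μ * J) + η * J + η * J +
      ((900 * x + 800 : ℕ) : ℝ) * Real.log 2 ≤ E + nuY σ₀ r₀ / 2 * μ * J := fun E => by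
    have h1 := mul_le_mul_of_nonneg_right hη3 hJ0
    have h2 : 0 ≤ nuY σ₀ r₀ * μ * J := by positivity
    linarith
  refine hN B hBA hcB act x K e₀ s sg q q₀ q₁ Q Mg Mo Ma Mb w₀ o b a' v v' e' p s₁ th₁ x₁ th₂ x₂ g₁
    g₂ go g gb gd g' gT U ψ₁ ψ₂ ψ ψ' Sv ψH₁ ψH₂ ψH ψH' Go Ga Gc Gd G' Ho Ha Hc Hd H' T TH Ht hD N.nm
    C HG HP n1 n2 n3 n4 n5 n6 n7 n8 n9 n10 Tt.t1 Tt.t12 Tt.sc1 Tt.sc2 Tt.s12 Vo Va Vb zo zoH za zaH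
    zb zbH hzo ho.bl.cls hza hzb free hnv (fun E hE => ?_) (fun E hE => ?_) ?_ ?_
  · exact (few_th hD HG N.nm.hp N.nm.bs.wB N.nm.bk C n6' hv₁.bl Tt.hp1 Tt.s12 Tt.t1 Tt.v1 u4
      (Tt.t12.trans Tt.Rt) Tt.Rb Tt.R1 hRJ Tt.R0 N.nm.jb u2 hza hz₁ hzb hp hB hTB Y1 fa0 hE).trans
      (hsl E)
  · exact (few_th hD HG N.nm.hp N.nm.bs.wB N.nm.bk C n6' hv₂.bl Tt.hp2 le_rfl
      (Tt.t1.trans Tt.t12) Tt.v2 u5 Tt.Rt Tt.Rb Tt.R1 hRJ Tt.R0 N.nm.jb u3 hza hz₂ hzb hp hB hTB Y2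
      fa0 hE).trans (hsl E)
  · exact A1 B hBA hcB x e₀ sg w₀ ⌊w * J⌋₊ ⌊aR * J⌋₊ b a' g₁ g₂ g gb g' gT K Ma v v' e' p U ψ₁ ψ₂ ψ
      ψ' Sv ψH₁ ψH₂ ψH ψH' Ga Gc G' Ha Hc H' T TH Ht hD q q₀ q₁ s Mg HG N.nm.hp N.nm.bs.wB N.nm.bk C
      n6' Va za zaH hza u th₁ x₁ u8 u9 t1s u10 u11
  · exact A2 B hBA hcB x e₀ sg w₀ ⌊w * J⌋₊ ⌊aR * J⌋₊ b a' g₁ g₂ g gb g' gT K Ma v v' e' p U ψ₁ ψ₂ ψ
      ψ' Sv ψH₁ ψH₂ ψH ψH' Ga Gc G' Ha Hc H' T TH Ht hD q q₀ q₁ s Mg HG N.nm.hp N.nm.bs.wB N.nm.bk C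
      n6' Va za zaH hza u th₂ x₂ u8 u9 t2s u12 u13

end Pool.KPO
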